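import Pool.Agent.Lib.MP_1a91b9_ntMN.RU0

/-!
# MP_1a91b9_nt (multiquadratic fields, natural density): the binomial law for a property which always holds
-/

set_option autoImplicit false
set_option linter.unusedSectionVars false

namespace Pool.Agent.Lib.MP_1a91b9_ntMN

open Finset Pool.Agent.Lib.MP_1a91b9_ntH
open Pool.Agent.Lib.MP_1a91b9_ntZ (Atl bn)

noncomputable section

private theorem CTriv_le {v : ℝ} (h0 : 0 ≤ v) (h1 : v ≤ 1) (n t : ℕ) : bn n t v ≤ 1 := by
  have h2 : 0 ≤ 1 - v := by linarith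
  have h3 : ∑ j ∈ Finset.range (n + 1), (n.choose j : ℝ) * v ^ j * (1 - v) ^ (n - j) = 1 := by
    calc ∑ j ∈ Finset.range (n + 1), (n.choose j : ℝ) * v ^ j * (1 - v) ^ (n - j)
        = ∑ j ∈ Finset.range (n + 1), v ^ j * (1 - v) ^ (n - j) * (n.choose j : ℝ) :=
          sum_congr rfl fun j _ => by ring
      _ = (v + (1 - v)) ^ n := (add_pow v (1 - v) n).symm
      _ = 1 := by rw [add_sub_cancel, one_pow]
  rw [← h3]
  unfold bn
  refine sum_le_sum_of_subset_of_nonneg (fun j hj => ?_) fun j _ _ => by positivity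
  rw [mem_range]
  have := (mem_Icc.1 hj).2
  omega

/-- The binomial law for a property which always holds. -/
theorem covLI_triv {ι H : Type} [DecidableEq ι] [PS ι] [AddCommGroup H] {a : ι → H} {B : Finset ι} {k t : ℕ}
    {v : ℝ} (hv0 : 0 ≤ v) (hv : ∀ _b : Fin k, v ≤ 1) {r : ℕ}
    {Q : (Fin r → Finset ι) → Fin k → Prop} (hQ : ∀ T b, Q T b) :
    CovLI a r B (bn k t v) fun T => Atl t fun b => Q T b := by
  classical
  have hA : ∀ T, Atl t (fun b => Q T b) ↔ t ≤ k := by
    intro T
    unfold Atl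
    rw [filter_true_of_mem fun b _ => hQ T b, card_univ, Fintype.card_fin]
  have hb : ∀ (g : Fin r → H) (S : Finset ι),
      bn k t v * (((cov r S).filter (Cl a g)).card : ℝ) ≤
      (((cov r S).filter fun T => Cl a g T ∧ Atl t fun b => Q T b).card : ℝ) := by
    intro g S
    rcases le_or_gt t k with h3 | h3
    · have h4 : bn k t v ≤ 1 := by
        rcases Nat.eq_zero_or_pos k with h5 | h5
        · subst h5
          rw [Nat.le_zero.1 h3]
          unfold bn
          simp
        · exact CTriv_le hv0 (hv ⟨0, h5⟩) _ _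
      have h5 : (cov r S).filter (Cl a g) ⊆
          (cov r S).filter fun T => Cl a g T ∧ Atl t fun b => Q T b := fun T hT =>
        mem_filter.2 ⟨(mem_filter.1 hT).1, (mem_filter.1 hT).2, (hA T).2 h3⟩
      have h6 : (((cov r S).filter (Cl a g)).card : ℝ) ≤
          (((cov r S).filter fun T => Cl a g T ∧ Atl t fun b => Q T b).card : ℝ) := by
        exact_mod_cast card_le_card h5
      exact (mul_le_of_le_one_left (Nat.cast_nonneg _) h4).trans h6
    · have h4 : bn k t v = 0 := by
        unfold bn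
        rw [Icc_eq_empty (not_le.2 h3), sum_empty]
      rw [h4, zero_mul]
      exact Nat.cast_nonneg _
  intro g ε hε
  refine ⟨0, fun X _ => ?_⟩
  have h7 : 0 ≤ ε * ∑ S ∈ Sx ι X, ((cov r S).card : ℝ) :=
    mul_nonneg hε.le (sum_nonneg fun _ _ => Nat.cast_nonneg _)
  have h8 := sum_le_sum fun S (_ : S ∈ (Sx ι X).filter fun S => Disjoint S B) => hb g S
  rw [← mul_sum] at h8
  linarith

end

end Pool.Agent.Lib.MP_1a91b9_ntMN
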