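import Pool.Agent.Lib.MP_1a91b9_ntMQ.RT0

/-!
# MP_1a91b9_nt (all the multiquadratic fields, ordered by the ramified primes): definitions

`cov r S`: the `r`-tuples of subsets of `S` whose union is `S`. `CovLI a r B c P`: among the covering tuples of the
sets of norm at most `X` outside `B`, with given classes `∑ q ∈ T k, a q = g k`, at least the share `c` has the
property `P`. `CovGI R r m u P c`: among the `r`-tuples of divisors of a squarefree element of norm at most `X`
with `d k ≡ u k` modulo `m` at least the share `c` has the property `P`.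
-/

set_option autoImplicit false
set_option linter.unusedSectionVars false

namespace Pool.Agent.Lib.MP_1a91b9_ntMN

open Finset
open Pool.Agent.Lib.MP_1a91b9_ntH (PS nm Sx)
open Pool.Agent.Lib.MP_1a91b9_ntMQ (tup mem_tup)

noncomputable section

/-- The `r`-tuples of subsets of `S` whose union is `S`. -/
def cov {ι : Type} [DecidableEq ι] (r : ℕ) (S : Finset ι) : Finset (Fin r → Finset ι) :=
  (tup r S).filter fun T => univ.biUnion T = S

theorem mem_cov {ι : Type} [DecidableEq ι] {r : ℕ} {S : Finset ι} {T : Fin r → Finset ι} :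
    T ∈ cov r S ↔ univ.biUnion T = S := by
  unfold cov
  rw [mem_filter, mem_tup]
  refine ⟨fun h => h.2, fun h => ⟨fun i => ?_, h⟩⟩
  rw [← h]
  exact subset_biUnion_of_mem T (mem_univ i)

/-- The tuple has the classes `g`. -/
def Cl {ι G : Type} [AddCommGroup G] (a : ι → G) {r : ℕ} (g : Fin r → G) (T : Fin r → Finset ι) :
    Prop :=
  ∀ k, ∑ q ∈ T k, a q = g k

open Classical in
/-- Among the covering tuples of the sets of norm at most `X` outside `B` with given classes at least the share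
`c` has the property `P`. -/
def CovLI {ι : Type} [DecidableEq ι] [PS ι] {G : Type} [AddCommGroup G] (a : ι → G) (r : ℕ)
    (B : Finset ι) (c : ℝ) (P : (Fin r → Finset ι) → Prop) : Prop :=
  ∀ (g : Fin r → G) (ε : ℝ), 0 < ε → ∃ X₀ : ℕ, ∀ X : ℕ, X₀ ≤ X →
    c * ∑ S ∈ (Sx ι X).filter (fun S => Disjoint S B), (((cov r S).filter (Cl a g)).card : ℝ) -
      ε * ∑ S ∈ Sx ι X, ((cov r S).card : ℝ) ≤
    ∑ S ∈ (Sx ι X).filter (fun S => Disjoint S B),
      (((cov r S).filter fun T => Cl a g T ∧ P T).card : ℝ)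

open Classical in
/-- All the classes have a positive proportion. -/
def CovPos {ι : Type} [DecidableEq ι] [PS ι] {G : Type} [AddCommGroup G] (a : ι → G) (r : ℕ) : Prop :=
  ∀ g : Fin r → G, ∃ κ : ℝ, 0 < κ ∧ ∃ X₀ : ℕ, ∀ X : ℕ, X₀ ≤ X →
    κ * ∑ S ∈ Sx ι X, ((cov r S).card : ℝ) ≤ ∑ S ∈ Sx ι X, (((cov r S).filter (Cl a g)).card : ℝ)

/-- Among the `r`-tuples of divisors of a squarefree element of norm at most `X`, with `d k ≡ u k` modulo `m`, at
least the share `c` has the property `P`. -/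
def CovGI (R : Type) [CommRing R] (r : ℕ) (m : R) (u : Fin r → R) (P : (Fin r → R) → Prop)
    (c : ℝ) : Prop :=
  ∀ ε : ℝ, 0 < ε → ∀ᶠ X : ℝ in Filter.atTop, c - ε ≤
    (Nat.card {d : Fin r → R // (∃ A : R, Squarefree A ∧ |Algebra.norm ℤ A| ≤ X ∧ ∀ i, d i ∣ A) ∧
      (∀ i, m ∣ d i - u i) ∧ P d} : ℝ) /
    (Nat.card {d : Fin r → R // (∃ A : R, Squarefree A ∧ |Algebra.norm ℤ A| ≤ X ∧ ∀ i, d i ∣ A) ∧
      ∀ i, m ∣ d i - u i} : ℝ)

end

end Pool.Agent.Lib.MP_1a91b9_ntMN
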