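import Pool.Agent.Lib.MP_1a91b9_ntMN.LBh
import Pool.Agent.Lib.MP_1a91b9_ntMN.N0
import Pool.Agent.Lib.MP_1a91b9_ntR.Den
import Pool.Agent.Lib.MP_1a91b9_ntR.Cheb
import Pool.Agent.Lib.MP_1a91b9_ntH.R.SqF
import Pool.Agent.Lib.MP_1a91b9_ntH.R.Cheb
import Pool.Agent.Lib.MP_1a91b9_ntH.R.Euler
import Pool.Agent.Lib.MP_1a91b9_ntQ.R.Density4
import Pool.Agent.Lib.MP_1a91b9_ntQ.R.Cheb4

/-!
# MP_1a91b9_nt (extensions ordered by the ramified primes): the number of the covering tuples, both bounds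

`card_cov`: `#cov r S = (2 ^ r - 1) ^ #S`. `NB ι`: the sum of `#cov r S` over the `S` of norm at most `X` has the order
of magnitude `X (log X) ^ (2 ^ r - 2)`, for the prime systems of the four fields.
-/

set_option autoImplicit false
set_option linter.unusedSectionVars false

namespace Pool.Agent.Lib.MP_1a91b9_ntMN

open Finset
open Pool.Agent.Lib.MP_1a91b9_ntH (PS nm Sx Cheb Zt mem_Sx nm_empty one_le_nm)

noncomputable section

/-- The covering tuples are the families of nonempty sets of indices. -/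
theorem card_cov {ι : Type} [DecidableEq ι] (r : ℕ) (S : Finset ι) :
    (cov r S).card = (2 ^ r - 1) ^ S.card := by
  classical
  have h1 : (cov r S).card =
      (Fintype.piFinset fun _ : S => ((univ : Finset (Fin r)).powerset.erase ∅)).card := by
    refine card_bij' (fun T _ q => univ.filter fun i => (q : ι) ∈ T i)
      (fun f _ i => S.attach.filter (fun q => i ∈ f q) |>.map (Function.Embedding.subtype _)) ?_ ?_ ?_ ?_
    · intro T hT
      rw [Fintype.mem_piFinset]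
      intro q
      rw [mem_erase, mem_powerset]
      refine ⟨?_, filter_subset _ _⟩
      have h2 : (q : ι) ∈ univ.biUnion T := by rw [mem_cov.1 hT]; exact q.2
      obtain ⟨i, -, hi⟩ := mem_biUnion.1 h2
      exact nonempty_iff_ne_empty.1 ⟨i, mem_filter.2 ⟨mem_univ _, hi⟩⟩
    · intro f hf
      rw [Fintype.mem_piFinset] at hf
      rw [mem_cov]
      ext q
      rw [mem_biUnion]
      constructor
      · rintro ⟨i, -, hi⟩
        rw [mem_map] at hi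
        obtain ⟨p, -, rfl⟩ := hi
        exact p.2
      · intro hq
        obtain ⟨i, hi⟩ := nonempty_iff_ne_empty.2 (mem_erase.1 (hf ⟨q, hq⟩)).1
        exact ⟨i, mem_univ _, mem_map.2 ⟨⟨q, hq⟩, mem_filter.2 ⟨mem_attach _ _, hi⟩, rfl⟩⟩
    · intro T hT
      funext i
      ext q
      rw [mem_map]
      constructor
      · rintro ⟨p, hp, rfl⟩
        exact (mem_filter.1 (mem_filter.1 hp).2).2
      · intro hq
        have h2 : q ∈ S := by
          rw [← mem_cov.1 hT]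
          exact mem_biUnion.2 ⟨i, mem_univ _, hq⟩
        exact ⟨⟨q, h2⟩, mem_filter.2 ⟨mem_attach _ _, mem_filter.2 ⟨mem_univ _, hq⟩⟩, rfl⟩
    · intro f hf
      funext q
      ext i
      rw [mem_filter, mem_map]
      constructor
      · rintro ⟨-, p, hp, e⟩
        have e2 : p = q := Subtype.ext e
        rw [← e2]
        exact (mem_filter.1 hp).2
      · intro hi
        exact ⟨mem_univ _, q, mem_filter.2 ⟨mem_attach _ _, hi⟩, rfl⟩
  rw [h1, Fintype.card_piFinset, prod_const, card_univ, Fintype.card_coe]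
  congr 1
  rw [card_erase_of_mem (mem_powerset.2 (empty_subset _)), card_powerset, card_univ, Fintype.card_fin]

/-- The number of the covering tuples has the order of magnitude `X (log X) ^ (2 ^ r - 2)`. -/
def NB (ι : Type) [DecidableEq ι] [PS ι] : Prop := ∀ r : ℕ, 1 ≤ r → ∃ c C : ℝ, 0 < c ∧
  ∃ X₀ : ℕ, ∀ X : ℕ, X₀ ≤ X →
    c * X * Real.log X ^ (2 ^ r - 2) ≤ ∑ S ∈ Sx ι X, ((cov r S).card : ℝ) ∧
    ∑ S ∈ Sx ι X, ((cov r S).card : ℝ) ≤ C * X * Real.log X ^ (2 ^ r - 2)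

theorem dn_of {ι : Type} [DecidableEq ι] [PS ι]
    (hd : ∃ c : ℝ, 0 < c ∧ ∃ X₀ : ℕ, ∀ X : ℕ, X₀ ≤ X → c * X ≤ ((Sx ι X).card : ℝ)) :
    ∃ c₀ : ℝ, 0 < c₀ ∧ Dn ι c₀ := by
  obtain ⟨c, hc, X₀, h⟩ := hd
  refine ⟨min c (1 / (X₀ + 1)), lt_min hc (by positivity), fun Y hY => ?_⟩
  have hY0 : (0 : ℝ) ≤ Y := Nat.cast_nonneg Y
  rcases le_or_gt X₀ Y with h1 | h1
  · exact (mul_le_mul_of_nonneg_right (min_le_left _ _) hY0).trans (h Y h1)
  · have h2 : (1 : ℝ) ≤ ((Sx ι Y).card : ℝ) := by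
      have h3 : (∅ : Finset ι) ∈ Sx ι Y := mem_Sx.2 (by rw [nm_empty]; exact hY)
      exact_mod_cast card_pos.2 ⟨∅, h3⟩
    refine ((mul_le_mul_of_nonneg_right (min_le_right _ _) hY0).trans ?_).trans h2
    rw [one_div_mul_eq_div, div_le_one (by positivity)]
    have h3 : (Y : ℝ) ≤ X₀ := by exact_mod_cast h1.le
    linarith

theorem nb_of {ι : Type} [DecidableEq ι] [PS ι] (hc : ∃ C, Cheb ι C) (hz : ∃ C, Zt ι C)
    (hd : ∃ c : ℝ, 0 < c ∧ ∃ X₀ : ℕ, ∀ X : ℕ, X₀ ≤ X → c * X ≤ ((Sx ι X).card : ℝ)) : NB ι := by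
  obtain ⟨C1, h1⟩ := hc
  obtain ⟨C2, h2⟩ := hz
  obtain ⟨c₀, h0, hD⟩ := dn_of hd
  intro r hr
  have h2r : 2 ≤ 2 ^ r := by
    calc 2 = 2 ^ 1 := rfl
      _ ≤ 2 ^ r := Nat.pow_le_pow_right (by norm_num) hr
  have e : 2 ^ r - 1 = 2 ^ r - 2 + 1 := by omega
  have eN : ∀ X : ℕ, ∑ S ∈ Sx ι X, ((cov r S).card : ℝ) = Nh ι (2 ^ r - 2 + 1) X := by
    intro X
    unfold Nh
    refine sum_congr rfl fun S _ => ?_
    rw [card_cov, e]
    push_cast
    rfl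
  obtain ⟨c, hc, hlow⟩ := Nh_lower h0 hD h1 h2 (2 ^ r - 2)
  obtain ⟨C, hC, hup⟩ := ubh0 h1 h2 (2 ^ r - 2 + 1) (by omega)
  refine ⟨c, C, hc, 2, fun X hX => ?_⟩
  have hXr : (2 : ℝ) ≤ X := by exact_mod_cast hX
  have hl : 0 ≤ Real.log X := Real.log_nonneg (by linarith)
  rw [eN]
  refine ⟨le_trans ?_ (hlow X (by omega)), ?_⟩
  · rw [mul_assoc]
    refine mul_le_mul_of_nonneg_left (mul_le_mul_of_nonneg_left ?_ (by linarith)) hc.le
    exact pow_le_pow_left₀ hl (by linarith) _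
  · have h3 := hup (fun _ => ((2 ^ r - 2 + 1 : ℕ) : ℝ)) (fun q => ⟨Nat.cast_nonneg _, le_rfl⟩) X hX
    simp only [prod_const] at h3
    unfold Nh
    refine h3.trans (le_of_eq ?_)
    unfold Yh
    rw [Nat.add_sub_cancel]
    ring

/-- The prime systems of the rings `R`. -/
theorem nbR (R : Type) [CommRing R] [IsDomain R] [IsPrincipalIdealRing R]
    [Pool.Agent.Lib.MP_1a91b9_ntR.Qi R] [Pool.Agent.Lib.MP_1a91b9_ntR.Pri R] :
    NB (Pool.Agent.Lib.MP_1a91b9_ntR.Pg R) :=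
  nb_of Pool.Agent.Lib.MP_1a91b9_ntR.cheb Pool.Agent.Lib.MP_1a91b9_ntR.zt
    (Pool.Agent.Lib.MP_1a91b9_ntR.PrmG.card_ge Pool.Agent.Lib.MP_1a91b9_ntR.md)

/-- The primes of `ℚ(√-3)`. -/
theorem nb3 : NB Pool.Agent.Lib.MP_1a91b9_ntH.Pq :=
  nb_of Pool.Agent.Lib.MP_1a91b9_ntH.cheb Pool.Agent.Lib.MP_1a91b9_ntH.zt
    Pool.Agent.Lib.MP_1a91b9_ntH.card_Sx_ge

/-- The primes of `ℚ(i)`. -/
theorem nb4 : NB Pool.Agent.Lib.MP_1a91b9_ntQ.Pg :=
  nb_of Pool.Agent.Lib.MP_1a91b9_ntQ.cheb4 Pool.Agent.Lib.MP_1a91b9_ntQ.zt4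
    (Pool.Agent.Lib.MP_1a91b9_ntQ.PrmG.card_ge Pool.Agent.Lib.MP_1a91b9_ntQ.Den4.md4)

end

end Pool.Agent.Lib.MP_1a91b9_ntMN
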