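import Pool.Agent.Lib.MP_1a91b9_ntMN.E0
import Pool.Agent.Lib.MP_1a91b9_ntV.DJ.Dsj7
import Pool.Agent.Lib.MP_1a91b9_ntW.DJ.Dsj8
import Pool.Agent.Lib.MP_1a91b9_ntQ.B.ClsB
import Pool.Agent.Lib.MP_1a91b9_ntQ.R.OK4
import Pool.Agent.Lib.MP_1a91b9_ntP.G.Dich
import Pool.Agent.Lib.MP_1a91b9_ntP.D.Inst
import Pool.Agent.Lib.MP_1a91b9_ntDV.K3_2

/-!
# MP_1a91b9_nt (multiquadratic fields, natural density): the twists of the four systems

`twG D cl`: the twists are the functions `ψ ∘ cl`, `ψ` a character of the group of the classes; `F` consists of those which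
are not class characters `e2 (D.dg c)` of the system. `Dich D cl`: the product of a twist with a class character is `1` at
all the primes or has mean value zero. `okT_of`: the hypotheses `OKT`. `okT_7`, `okT_8`, `okT_4`, `okT_3`: the four systems.
-/

set_option autoImplicit false
set_option linter.unusedSectionVars false

namespace Pool.Agent.Lib.MP_1a91b9_ntMN

open Finset Pool.Agent.Lib.MP_1a91b9_ntH Pool.Agent.Lib.MP_1a91b9_ntQ
open Pool.Agent.Lib.MP_1a91b9_ntV Pool.Agent.Lib.MP_1a91b9_ntDV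

noncomputable section

section Gen

variable {ι : Type} [DecidableEq ι] {κ : Type} [Fintype κ] [DecidableEq κ] {G : Type} [AddCommGroup G]

/-- The twists given by the characters of the group of the classes. -/
@[reducible]
def twG (D : Dat2 ι κ) (cl : ι → G) : TwS ι where
  T := {τ | ∃ ψ : AddChar G ℂ, ∀ q, τ q = ψ (cl q)}
  F := {τ | (∃ ψ : AddChar G ℂ, ∀ q, τ q = ψ (cl q)) ∧ ∀ c : κ → ZMod 2, ∃ q, τ q * e2 (D.dg c q) ≠ 1}

/-- The product of a twist with a class character is `1` at all the primes or has mean value zero. -/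
def Dich (D : Dat2 ι κ) [PS ι] (cl : ι → G) : Prop :=
  ∀ (ψ : AddChar G ℂ) (c : κ → ZMod 2), (∀ q, ψ (cl q) * e2 (D.dg c q) = 1) ∨
    Mz ∅ (fun q => ψ (cl q) * e2 (D.dg c q))

/-- A twist which is not in `F` is a class character. -/
theorem not_far {D : Dat2 ι κ} {cl : ι → G} {ψ : AddChar G ℂ}
    (h : (fun q => ψ (cl q)) ∉ (twG D cl).F) : ∃ c : κ → ZMod 2, ∀ q, ψ (cl q) = e2 (D.dg c q) := by
  have h1 : ¬ ∀ c : κ → ZMod 2, ∃ q, ψ (cl q) * e2 (D.dg c q) ≠ 1 := fun h2 =>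
    h ⟨⟨ψ, fun _ => rfl⟩, h2⟩
  push Not at h1
  obtain ⟨c, hc⟩ := h1
  refine ⟨c, fun q => ?_⟩
  calc ψ (cl q) = ψ (cl q) * (e2 (D.dg c q) * e2 (D.dg c q)) := by rw [e2_mul_self, mul_one]
    _ = (ψ (cl q) * e2 (D.dg c q)) * e2 (D.dg c q) := by ring
    _ = e2 (D.dg c q) := by rw [hc, one_mul]

/-- **The hypotheses `OKT`.** -/
theorem okT_of [Finite G] {D : Dat2 ι κ} [PS ι] {w : κ → ZMod 2} (hD : OKt D w) {cl : ι → G} (h : Dich D cl) :
    @OKT ι κ _ _ D _ (twG D cl) w := by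
  let _ : TwS ι := twG D cl
  refine { toOKt := hD, nrm := ?_, one := ?_, mul := ?_, inv := ?_, di := ?_, far := ?_ }
  · rintro τ ⟨ψ, hψ⟩ q
    rw [hψ, AddChar.norm_apply]
  · exact ⟨1, fun q => (AddChar.one_apply _).symm⟩
  · rintro τ ⟨ψ, hψ⟩ σ ⟨φ, hφ⟩
    refine ⟨ψ * φ, fun q => ?_⟩
    change τ q * σ q = _
    rw [AddChar.mul_apply, hψ, hφ]
  · rintro τ ⟨ψ, hψ⟩
    refine ⟨ψ⁻¹, fun q => ?_⟩
    change (τ q)⁻¹ = _
    rw [hψ]
    have h1 : ψ (cl q) * ψ⁻¹ (cl q) = 1 := by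
      rw [← AddChar.mul_apply, mul_inv_cancel, AddChar.one_apply]
    exact inv_eq_of_mul_eq_one_right h1
  · rintro τ ⟨ψ, hψ⟩ c
    have e : (fun q => τ q * e2 (D.dg c q)) = fun q => ψ (cl q) * e2 (D.dg c q) := by
      funext q
      rw [hψ]
    rcases h ψ c with h1 | h1
    · exact Or.inl fun q => (congrFun e q).trans (h1 q)
    · refine Or.inr ?_
      rw [e]
      exact h1
  · rintro τ ⟨⟨ψ, hψ⟩, hF⟩ c
    have e : (fun q => τ q * e2 (D.dg c q)) = fun q => ψ (cl q) * e2 (D.dg c q) := by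
      funext q
      rw [hψ]
    rcases h ψ c with h1 | h1
    · obtain ⟨q, hq⟩ := hF c
      exact absurd ((congrFun e q).trans (h1 q)) hq
    · rw [e]
      exact h1

/-- The class character as a character of the group of the classes. -/
def ccG (A : κ → (G →+ ZMod 2)) (c : κ → ZMod 2) : AddChar G ℂ where
  toFun g := e2 (∑ j, c j * A j g)
  map_zero_eq_one' := by
    have h : ∑ j, c j * A j (0 : G) = 0 := sum_eq_zero fun j _ => by rw [map_zero, mul_zero]
    rw [h, e2_zero]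
  map_add_eq_mul' x y := by
    rw [← e2_add, ← sum_add_distrib]
    refine congrArg e2 (sum_congr rfl fun j _ => ?_)
    rw [map_add, mul_add]

/-- **The dichotomy for a class system.** -/
theorem dich_cl {D : Dat2 ι κ} [PS ι] (C : Cl2 D G) (h3 : C.H3) : Dich D C.cl := by
  intro ψ c
  have e : ∀ q, (ψ * ccG C.A c) (C.cl q) = ψ (C.cl q) * e2 (D.dg c q) := by
    intro q
    rw [AddChar.mul_apply]
    refine congrArg (fun x => ψ (C.cl q) * x) ?_
    change e2 (∑ j, c j * C.A j (C.cl q)) = _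
    refine congrArg e2 ?_
    unfold Dat2.dg
    exact sum_congr rfl fun j _ => by rw [C.ha q j]
  by_cases h : ∃ q, (ψ * ccG C.A c) (C.cl q) ≠ 1
  · refine Or.inr fun ε hε => ?_
    obtain ⟨X₀, h0⟩ := h3 (ψ * ccG C.A c) h ε hε
    refine ⟨X₀, fun X hX => ?_⟩
    rw [filter_true_of_mem fun S _ => disjoint_empty_right S]
    refine le_trans (le_of_eq (congrArg norm (sum_congr rfl fun S _ => prod_congr rfl fun q _ => ?_))) (h0 X hX)
    exact (e q).symm
  · push Not at h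
    exact Or.inl fun q => (e q).symm.trans (h q)

/-- The hypotheses for a class system. -/
theorem okT_cl [Finite G] {D : Dat2 ι κ} [PS ι] {w : κ → ZMod 2} (hD : OKt D w) (C : Cl2 D G) (h3 : C.H3) :
    @OKT ι κ _ _ D _ (twG D C.cl) w := okT_of hD (dich_cl C h3)

end Gen

/-! ### `ℚ(√-7)` -/

section Seven

open NumberField Pool.Agent.Lib.MP_1a91b9_nuT Pool.Agent.Lib.MP_1a91b9_ntV.DJ
open Pool.Agent.Lib.MP_1a91b9_ntR (GR finite_GR)

variable [CD] [hv : V7]

/-- **The hypotheses for `ℚ(√-7)`.** -/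
theorem okT_7 (n : ℕ) (B : Finset Pg7) :
    @OKT _ _ _ _ (D7.off B) _ (twG (D7.off B) (C7B n B).cl) (w7B B) := by
  have : Finite (GR (mod7 n)) := finite_GR (mod7 n) (two_pow_ne7 n)
  exact okT_cl (okt7B n B) (C7B n B) (h3_7B n B)

end Seven

/-! ### `ℚ(√-2)` -/

section Eight

open NumberField Pool.Agent.Lib.MP_1a91b9_ntW
open Pool.Agent.Lib.MP_1a91b9_ntV.DJ (cB)
open Pool.Agent.Lib.MP_1a91b9_ntR (GR finite_GR)

/-- The hypotheses of the engine for the primes outside `B`. -/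
theorem okt8B (B : Finset MP_1a91b9_ntW.Pg) : OKt (D8.off B) (cB B ∅ w8) :=
  okt_off okt8 B fun T c hT h => mz8 B T c hT h

/-- **The hypotheses for `ℚ(√-2)`.** -/
theorem okT_8 (n : ℕ) (B : Finset MP_1a91b9_ntW.Pg) :
    @OKT _ _ _ _ (D8.off B) _ (twG (D8.off B) (C8B n B).cl) (cB B ∅ w8) :=
  okT_cl (okt8B B) (C8B n B) (h3_8B n B)

end Eight

/-! ### `ℚ(i)` -/

section Four

open Pool.Agent.Lib.MP_1a91b9_ntV.DJ (cB)

/-- The mean values of the symbols at the primes of `B`. -/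
theorem mz4 (B T : Finset MP_1a91b9_ntQ.Pg) (c : Fin 2 → ZMod 2) (hT : T ⊆ B) (h : T ≠ ∅ ∨ c ≠ 0) :
    Mz B (fun q => e2 (d4.ex1 T c q)) := by
  have h1 := (d4_wt_gcl (fun _ _ h => s4_symm h) 0 (1 : AddChar (G4n 0) ℂ) B).mz T c hT
    (h.imp_right fun hc h2 => ?_)
  · simp only [AddChar.one_apply, one_mul] at h1
    exact h1
  · obtain ⟨x, hx, hne⟩ := (cl4_cls (n := 5) le_rfl).indep c hc
    have h3 := h2 (gcl 0 x hx)
    rw [AddChar.one_apply, one_mul] at h3
    have h4 : ∑ j, c j * A4 0 j (gcl 0 x hx) = ∑ j, c j * cl4 j x :=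
      sum_congr rfl fun j _ => congrArg (fun z => c j * z) (A4_gcl 0 j hx)
    rw [h4] at h3
    have h5 : ∀ y : ZMod 2, y ≠ 0 → y = 1 := by decide
    rw [h5 _ hne, e2_one] at h3
    norm_num at h3

/-- The hypotheses `OKt` for `ℚ(i)`: the symbols are symmetric. -/
theorem okt4 : OKt d4 0 where
  tw p q hpq := by
    have h0 : ∀ q, d4.dg 0 q = 0 := fun q => by
      unfold Dat2.dg
      exact sum_eq_zero fun j _ => by rw [Pi.zero_apply, zero_mul]
    rw [h0, h0, mul_zero, d4_sym p q hpq]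
    have h2 : ∀ x : ZMod 2, x + x = 0 := by decide
    exact h2 _
  an := ⟨d4_OK.cheb, d4_OK.zt, d4_OK.bl⟩
  cb := d4_OK.cb
  mz c hc := mz4 ∅ ∅ c (Finset.Subset.refl _) (Or.inr hc)

theorem cB_zero {ι κ : Type} [DecidableEq ι] (B : Finset ι) : cB B ∅ (0 : κ → ZMod 2) = 0 := by
  funext j
  rcases j with j | b
  · rfl
  · change (if b.1 ∈ (∅ : Finset ι) then (1 : ZMod 2) else 0) = 0
    exact if_neg (notMem_empty _)

/-- The hypotheses `OKt` for `ℚ(i)` for the primes outside `B`. -/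
theorem okt4B (B : Finset MP_1a91b9_ntQ.Pg) : OKt (d4.off B) 0 := by
  have h := okt_off okt4 B fun T c hT h => mz4 B T c hT h
  rw [cB_zero] at h
  exact h

/-- **The hypotheses for `ℚ(i)`**, with the quartic symbols at the primes of `B`. -/
theorem okT_4 (m : ℕ) (B : Finset MP_1a91b9_ntQ.Pg) :
    @OKT _ _ _ _ (d4.off B) _ (twG (d4.off B) (CclB m B).cl) 0 :=
  okT_cl (okt4B B) (CclB m B) (CclB_H3 m B)

end Four

/-! ### `ℚ(√-3)` -/

section Three

open Pool.Agent.Lib.MP_1a91b9_ntE Pool.Agent.Lib.MP_1a91b9_ntP Pool.Agent.Lib.MP_1a91b9_ntS.G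
open Pool.Agent.Lib.MP_1a91b9_ntR (GR finite_GR cq)

/-- **The dichotomy for `ℚ(√-3)`.** -/
theorem dich_3 (n : ℕ) (B : Finset Pq) :
    Dich (D4 (offG qE B)) (fun q : Off B => cq (mod3 n) q.1) := by
  have hO : OKt (D4 (offG qE B)) (w4 _) := okt_D4 (qG_OK B)
  intro ψ v
  obtain ⟨c, e, rfl⟩ := exists_v4 v
  rcases dich3 n B ψ with ⟨c0, e0, h⟩ | h
  · have h1 : ∀ q : Off B, ψ (cq (mod3 n) q.1) * e2 ((D4 (offG qE B)).dg (v4 c e) q) =
        e2 ((D4 (offG qE B)).dg (v4 c0 e0 + v4 c e) q) := by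
      intro q
      have hq : ψ (cq (mod3 n) q.1) = e2 (F4.tr (c0 * (offG qE B).a q) + (offG qE B).lg e0 q) := h q
      rw [hq, dg_add, dg_v4, dg_v4]
      exact (e2_add _ _).symm
    by_cases h0 : v4 c0 e0 + v4 c e = 0
    · refine Or.inl fun q => ?_
      rw [h1 q, h0]
      have h2 : (D4 (offG qE B)).dg 0 q = 0 := by
        unfold Dat2.dg
        exact sum_eq_zero fun j _ => by rw [Pi.zero_apply, zero_mul]
      rw [h2, e2_zero]
    · refine Or.inr ?_
      have h2 := hO.mz _ h0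
      have h3 : (fun q : Off B => ψ (cq (mod3 n) q.1) * e2 ((D4 (offG qE B)).dg (v4 c e) q)) =
          fun q => e2 ((D4 (offG qE B)).ex1 ∅ (v4 c0 e0 + v4 c e) q) := by
        funext q
        rw [h1 q, ex1_empty]
      rw [h3]
      exact h2
  · refine Or.inr ?_
    have h3 : (fun q : Off B => ψ (cq (mod3 n) q.1) * e2 ((D4 (offG qE B)).dg (v4 c e) q)) =
        fun q => ψ (cq (mod3 n) q.1) * e2 (F4.tr (c * (offG qE B).a q) + (offG qE B).lg e q) := by
      funext q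
      rw [dg_v4]
    rw [h3]
    exact h c e

/-- **The hypotheses for `ℚ(√-3)`.** -/
theorem okT_3 (n : ℕ) (B : Finset Pq) :
    @OKT _ _ _ _ (D4 (offG qE B)) _ (twG (D4 (offG qE B)) (fun q : Off B => cq (mod3 n) q.1)) (w4 _) := by
  have : Finite (GR (mod3 n)) := finite_GR (mod3 n) (Q3_ne n)
  exact okT_of (okt_D4 (qG_OK B)) (dich_3 n B)

end Three

end

end Pool.Agent.Lib.MP_1a91b9_ntMN
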