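import Pool.Agent.Lib.MP_1a91b9_ntMN.R1
import Pool.Agent.Lib.MP_1a91b9_ntMN.Tw
import Pool.Agent.Lib.MP_1a91b9_ntMN.NBf

/-!
# MP_1a91b9_nt (multiquadratic fields, natural density): from the mean values in the classes of the data to the
classes of the field

`covLI_of`: the law `CovLI a r B c P` from the mean values `PclC` with the twists `twG`.
-/

set_option autoImplicit false
set_option linter.unusedSectionVars false

namespace Pool.Agent.Lib.MP_1a91b9_ntMN

open Finset Pool.Agent.Lib.MP_1a91b9_ntH Pool.Agent.Lib.MP_1a91b9_ntQ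
open Pool.Agent.Lib.MP_1a91b9_ntQ.Da Pool.Agent.Lib.MP_1a91b9_ntV Pool.Agent.Lib.MP_1a91b9_ntM
open Pool.Agent.Lib.MP_1a91b9_ntDV Pool.Agent.Lib.MP_1a91b9_ntMQ

noncomputable section

section

variable {I : Type} [Fintype I] [DecidableEq I] {ι : Type} [DecidableEq ι] [PS ι]

private theorem P10_sum {α : Type} (s : Finset α) {F : α → (I → Finset ι) → ℂ} {v : α → ℂ}
    (h : ∀ i ∈ s, MV0 (F i) (v i)) : MV0 (fun T => ∑ i ∈ s, F i T) (∑ i ∈ s, v i) := by
  classical
  induction s using Finset.induction_on with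
  | empty => exact MV0.zero.congr (fun T => by rw [Finset.sum_empty]) (by rw [Finset.sum_empty])
  | insert a s ha ih =>
    refine ((h a (Finset.mem_insert_self a s)).add (ih fun i hi => h i (Finset.mem_insert_of_mem hi))).congr
      (fun T => ?_) ?_
    · rw [Finset.sum_insert ha]
    · rw [Finset.sum_insert ha]

end

/-- The orthogonality relation for the tuples of classes. -/
private theorem P10_orth {G : Type} [AddCommGroup G] [Fintype G] {r : ℕ} (x g : Fin r → G)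
    [Decidable (∀ k, x k = g k)] :
    ∑ Ψ : Fin r → AddChar G ℂ, (∏ k, Ψ k (-g k)) * ∏ k, Ψ k (x k) =
      if ∀ k, x k = g k then (Fintype.card G : ℂ) ^ r else 0 := by
  classical
  have h1 : ∀ Ψ : Fin r → AddChar G ℂ, (∏ k, Ψ k (-g k)) * ∏ k, Ψ k (x k) =
      ∏ k, Ψ k (-g k + x k) := by
    intro Ψ
    rw [← prod_mul_distrib]
    exact prod_congr rfl fun k _ => (AddChar.map_add_eq_mul _ _ _).symm
  rw [sum_congr rfl fun Ψ _ => h1 Ψ]
  have h3 : ∑ Ψ : Fin r → AddChar G ℂ, ∏ k, Ψ k (-g k + x k) =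
      ∏ k, ∑ ψ : AddChar G ℂ, ψ (-g k + x k) := by
    rw [prod_univ_sum, Fintype.piFinset_univ]
  rw [h3]
  have h4 : ∀ k, ∑ ψ : AddChar G ℂ, ψ (-g k + x k) =
      if x k = g k then (Fintype.card G : ℂ) else 0 := by
    intro k
    rw [AddChar.sum_apply_eq_ite]
    by_cases h3 : x k = g k
    · rw [if_pos h3, if_pos (by rw [h3, neg_add_cancel])]
    · rw [if_neg h3, if_neg (fun h4 => h3 (by rwa [neg_add_eq_zero, eq_comm] at h4))]
  rw [prod_congr rfl fun k _ => h4 k]
  by_cases h5 : ∀ k, x k = g k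
  · rw [if_pos h5, prod_congr rfl fun k _ => if_pos (h5 k), prod_const, card_univ, Fintype.card_fin]
  · rw [if_neg h5]
    push Not at h5
    obtain ⟨k, hk⟩ := h5
    exact prod_eq_zero (mem_univ k) (if_neg hk)

theorem up_biUnion {ι : Type} [DecidableEq ι] {B : Finset ι} {r : ℕ} (T : Fin r → Finset (Off B)) :
    univ.biUnion (fun i => up (T i)) = up (univ.biUnion T) := by
  ext q
  rw [mem_biUnion, mem_up]
  constructor
  · rintro ⟨i, _, hi⟩
    obtain ⟨hq, h⟩ := mem_up.1 hi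
    exact ⟨hq, mem_biUnion.2 ⟨i, mem_univ _, h⟩⟩
  · rintro ⟨hq, h⟩
    obtain ⟨i, _, hi⟩ := mem_biUnion.1 h
    exact ⟨i, mem_univ _, mem_up.2 ⟨hq, hi⟩⟩

/-- The covering tuples outside `B`. -/
theorem card_cov_up {ι : Type} [DecidableEq ι] {B : Finset ι} {r : ℕ} (S₀ : Finset (Off B))
    (W : (Fin r → Finset ι) → Prop) [DecidablePred W]
    [DecidablePred fun T : Fin r → Finset (Off B) => W fun i => up (T i)] :
    (((cov r (up S₀)).filter W).card : ℕ) =
      ((covF (Fin r) S₀).filter fun T : Fin r → Finset (Off B) => W fun i => up (T i)).card := by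
  refine (card_bij (fun T _ => fun i => up (T i)) ?_ ?_ ?_).symm
  · intro T hT
    obtain ⟨hT1, hT2⟩ := mem_filter.1 hT
    refine mem_filter.2 ⟨mem_cov.2 ?_, hT2⟩
    rw [up_biUnion, mem_covF.1 hT1]
  · intro T _ T' _ hTT
    funext i
    exact up_injective (congrFun hTT i)
  · intro U hU
    obtain ⟨hU1, hU2⟩ := mem_filter.1 hU
    have hU3 : ∀ i, U i ⊆ up S₀ := fun i => by
      rw [← mem_cov.1 hU1]
      exact subset_biUnion_of_mem U (mem_univ i)
    have hU4 : ∀ i, Disjoint (U i) B := fun i => disjoint_of_subset_left (hU3 i) (disj_up S₀)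
    have hU5 : (fun i => up (dn B (U i))) = U := funext fun i => up_dn (hU4 i)
    refine ⟨fun i => dn B (U i), mem_filter.2 ⟨mem_covF.2 ?_, ?_⟩, hU5⟩
    · apply up_injective
      rw [← up_biUnion]
      have h1 : univ.biUnion (fun i => up (dn B (U i))) = univ.biUnion U :=
        congrArg (fun V : Fin r → Finset ι => univ.biUnion V) hU5
      rw [h1]
      exact mem_cov.1 hU1
    · rw [hU5]
      exact hU2

/-- The case without entries. -/
theorem covLI_zero {ι : Type} [DecidableEq ι] [PS ι] {G : Type} [AddCommGroup G] (a : ι → G)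
    {B : Finset ι} {P : (Fin 0 → Finset ι) → Prop} {c : ℝ} (hc : c ≤ 1)
    (hP : 0 < c → ∀ T : Fin 0 → Finset ι, P T) : CovLI a 0 B c P := by
  classical
  intro g ε hε
  refine ⟨0, fun X _ => ?_⟩
  have h0 : 0 ≤ ε * ∑ S ∈ Sx ι X, ((cov 0 S).card : ℝ) :=
    mul_nonneg hε.le (sum_nonneg fun _ _ => Nat.cast_nonneg _)
  have h1 : (0 : ℝ) ≤ ∑ S ∈ (Sx ι X).filter (fun S => Disjoint S B),
      (((cov 0 S).filter (Cl a g)).card : ℝ) := sum_nonneg fun _ _ => Nat.cast_nonneg _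
  rcases le_or_gt c 0 with h2 | h2
  · have h3 : (0 : ℝ) ≤ ∑ S ∈ (Sx ι X).filter (fun S => Disjoint S B),
      (((cov 0 S).filter fun T => Cl a g T ∧ P T).card : ℝ) := sum_nonneg fun _ _ => Nat.cast_nonneg _
    nlinarith
  · have h3 : ∑ S ∈ (Sx ι X).filter (fun S => Disjoint S B),
        (((cov 0 S).filter fun T => Cl a g T ∧ P T).card : ℝ) =
        ∑ S ∈ (Sx ι X).filter (fun S => Disjoint S B), (((cov 0 S).filter (Cl a g)).card : ℝ) := by
      refine sum_congr rfl fun S _ => ?_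
      rw [filter_congr fun T _ => and_iff_left (hP h2 T)]
    rw [h3]
    nlinarith

open Classical in
/-- **From the mean values in the classes of the data to the classes of the field.** -/
theorem covLI_of {ι κ' G' G : Type} [DecidableEq ι] [PS ι] [Fintype κ'] [DecidableEq κ']
    [AddCommGroup G'] [AddCommGroup G] [Finite G] {B : Finset ι} (D' : Dat2 (Off B) κ')
    (cl : Off B → G') (a : ι → G) (p : G' →+ G) (hp : ∀ q : Off B, p (cl q) = a q.1) {r : ℕ}
    (hr : 1 ≤ r) {P : (Fin r → Finset ι) → Prop} {c : ℝ} {v : (Fin r → κ' → ZMod 2) → ℝ}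
    (hc : ∀ γ, c ≤ v γ) {f : (Fin r → Finset (Off B)) → ℝ}
    (hf : ∀ S, f S ≤ if P (fun i => up (S i)) then 1 else 0)
    (h : ∀ γ, @PclC (Fin r) _ _ (Off B) _ _ (twG D' cl) κ' _ _ D' γ f (v γ))
    (h1 : ∀ γ, @PclC (Fin r) _ _ (Off B) _ _ (twG D' cl) κ' _ _ D' γ (fun _ => 1) 1)
    (hnb : NB ι) : CovLI a r B c P := by
  let _ : TwS (Off B) := twG D' cl
  let _ : Fintype G := Fintype.ofFinite G
  intro g
  -- the weight
  obtain ⟨w, hw⟩ : ∃ w : (Fin r → κ' → ZMod 2) → (Fin r → Finset (Off B)) → ℂ, ∀ γ T, w γ T =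
      if ∀ i, clN D' (T i) = γ i then ((f T : ℂ) - (v γ : ℂ)) else 0 := ⟨_, fun _ _ => rfl⟩
  have hA : ∀ γ, MVc (w γ) 0 := by
    intro γ
    have h2 := h γ
    have h3 := h1 γ
    unfold PclC at h2 h3
    have h4 := MVrc.add h2 (MVrc.smul h3 (-v γ))
    refine MVc.congr (MVrc_iff.1 h4) (fun T => ?_) ?_
    · rw [hw]
      split_ifs
      · push_cast
        ring
      · push_cast
        ring
    · push_cast
      ring
  -- the twists by the characters of `G`
  have hB : ∀ (Ψ : Fin r → AddChar G ℂ) (γ : Fin r → κ' → ZMod 2),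
      MV0 (fun T : Fin r → Finset (Off B) => twc (fun k (q : Off B) => Ψ k (a q.1)) T * w γ T) 0 := by
    intro Ψ γ
    obtain ⟨χ, hχ⟩ : ∃ χ : Fin r → Off B → ℂ, χ = fun k q => Ψ k (a q.1) := ⟨_, rfl⟩
    have hT : ∀ k, χ k ∈ (TwS.T : Set (Off B → ℂ)) := by
      intro k
      refine ⟨(Ψ k).compAddMonoidHom p, fun q => ?_⟩
      rw [hχ, AddChar.compAddMonoidHom_apply, hp]
    rw [← hχ]
    by_cases hF : ∃ k, χ k ∈ (TwS.F : Set (Off B → ℂ))
    · exact (hA γ).2 χ ⟨hT, hF⟩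
    · push Not at hF
      have h2 : ∀ k, ∃ c : κ' → ZMod 2, ∀ q, χ k q = e2 (D'.dg c q) := by
        intro k
        have h3 : (fun q => ((Ψ k).compAddMonoidHom p) (cl q)) = χ k := by
          funext q
          rw [hχ, AddChar.compAddMonoidHom_apply, hp]
        have h4 := not_far (D := D') (cl := cl) (ψ := (Ψ k).compAddMonoidHom p) (by
          rw [h3]
          exact hF k)
        obtain ⟨c, hc⟩ := h4
        exact ⟨c, fun q => (congrFun h3 q).symm.trans (hc q)⟩
      choose d hd using h2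
      refine (((hA γ).1.smul (∏ k, e2 (d k ⬝ᵥ γ k)))).congr (fun T => ?_) (mul_zero _).symm
      rw [hw]
      split_ifs with h3
      · congr 1
        unfold twc
        refine prod_congr rfl fun k _ => ?_
        rw [prod_congr rfl fun q _ => hd k q, ← e2_sum, sum_dg, h3 k]
      · rw [mul_zero, mul_zero]
  -- the classes of `G`
  have hC : MV0 (fun T : Fin r → Finset (Off B) =>
      if ∀ k, ∑ q ∈ T k, a q.1 = g k then ((f T : ℂ) - (v fun i => clN D' (T i) : ℂ)) else 0) 0 := by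
    have hN0 : (Fintype.card G : ℂ) ^ r ≠ 0 :=
      pow_ne_zero _ (Nat.cast_ne_zero.2 Fintype.card_ne_zero)
    have h2 : MV0 (fun T : Fin r → Finset (Off B) => ((Fintype.card G : ℂ) ^ r)⁻¹ *
        ∑ γ : Fin r → κ' → ZMod 2, ∑ Ψ : Fin r → AddChar G ℂ, (∏ k, Ψ k (-g k)) *
          (twc (fun k (q : Off B) => Ψ k (a q.1)) T * w γ T))
        (((Fintype.card G : ℂ) ^ r)⁻¹ * ∑ _γ : Fin r → κ' → ZMod 2,
          ∑ Ψ : Fin r → AddChar G ℂ, (∏ k, Ψ k (-g k)) * 0) :=
      (P10_sum _ fun γ _ => P10_sum _ fun Ψ _ => (hB Ψ γ).smul _).smul _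
    refine h2.congr (fun T => ?_) ?_
    · have h3 : ∀ γ : Fin r → κ' → ZMod 2, ∑ Ψ : Fin r → AddChar G ℂ, (∏ k, Ψ k (-g k)) *
          (twc (fun k (q : Off B) => Ψ k (a q.1)) T * w γ T) =
          (if ∀ k, ∑ q ∈ T k, a q.1 = g k then (Fintype.card G : ℂ) ^ r else 0) * w γ T := by
        intro γ
        have h4 := P10_orth (fun k => ∑ q ∈ T k, a q.1) g
        rw [← h4, sum_mul]
        refine sum_congr rfl fun Ψ _ => ?_
        have h5 : twc (fun k (q : Off B) => Ψ k (a q.1)) T = ∏ k, Ψ k (∑ q ∈ T k, a q.1) := by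
          unfold twc
          refine prod_congr rfl fun k _ => ?_
          rw [Pool.Agent.Lib.MP_1a91b9_ntR.psi_sum]
        rw [h5, mul_assoc]
      rw [sum_congr rfl fun γ _ => h3 γ, ← mul_sum]
      have h6 : ∑ γ : Fin r → κ' → ZMod 2, w γ T = (f T : ℂ) - (v fun i => clN D' (T i) : ℂ) := by
        rw [sum_eq_single (fun i => clN D' (T i))]
        · rw [hw, if_pos fun _ => rfl]
        · intro γ _ hγ
          rw [hw, if_neg fun h7 => hγ (funext fun i => (h7 i).symm)]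
        · intro h7
          exact absurd (mem_univ _) h7
      rw [h6]
      split_ifs
      · rw [← mul_assoc, inv_mul_cancel₀ hN0, one_mul]
      · rw [zero_mul, mul_zero]
    · simp
  -- the conclusion
  intro ε hε
  obtain ⟨c₀, C₀, hc₀, X₁, hX₁⟩ := hnb r hr
  have hε' : 0 < ε / (1 + 1 / c₀) := by positivity
  obtain ⟨X₂, hX₂⟩ := hC (ε / (1 + 1 / c₀)) hε'
  refine ⟨max X₁ X₂, fun X hX => ?_⟩
  obtain ⟨h4, -⟩ := hX₁ X ((le_max_left _ _).trans hX)
  have h5 := hX₂ X ((le_max_right _ _).trans hX)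
  rw [zero_mul, sub_zero] at h5
  obtain ⟨A, hA⟩ : ∃ A : ℝ, A = ∑ S ∈ Sx ι X, ((cov r S).card : ℝ) := ⟨_, rfl⟩
  have hh : hI (Fin r) = 2 ^ r - 1 := by
    unfold hI
    rw [Fintype.card_fin]
  have hYA : Yh (hI (Fin r)) X ≤ 1 / c₀ * A := by
    rw [hA, hh]
    unfold Yh
    have e : 2 ^ r - 1 - 1 = 2 ^ r - 2 := by omega
    rw [e, one_div_mul_eq_div, le_div_iff₀ hc₀]
    linarith
  have hNA : NN (Off B) (hI (Fin r)) X ≤ A := by
    have h6 : NN (Off B) (hI (Fin r)) X =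
        ∑ S ∈ (Sx ι X).filter (fun S => Disjoint S B), ((cov r S).card : ℝ) := by
      rw [← sum_Sx_off B X fun S => ((cov r S).card : ℝ)]
      unfold NN
      refine sum_congr rfl fun S _ => ?_
      rw [card_cov, hh, Nat.cast_pow]
      congr 1
      exact (card_map _).symm
    rw [h6, hA]
    exact sum_le_sum_of_subset_of_nonneg (filter_subset _ _) fun _ _ _ => Nat.cast_nonneg _
  have hEA : ε / (1 + 1 / c₀) * (NN (Off B) (hI (Fin r)) X + Yh (hI (Fin r)) X) ≤ ε * A := by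
    calc ε / (1 + 1 / c₀) * (NN (Off B) (hI (Fin r)) X + Yh (hI (Fin r)) X) ≤
          ε / (1 + 1 / c₀) * (A + 1 / c₀ * A) :=
          mul_le_mul_of_nonneg_left (add_le_add hNA hYA) hε'.le
      _ = ε * A := by
          have : (1 + 1 / c₀) ≠ 0 := by positivity
          field_simp
  rw [← hA]
  -- the real form
  obtain ⟨R, hR⟩ : ∃ R : ℝ, R = ∑ S ∈ Sx (Off B) X, ∑ T ∈ covF (Fin r) S,
      if ∀ k, ∑ q ∈ T k, a q.1 = g k then (f T - v fun i => clN D' (T i)) else 0 := ⟨_, rfl⟩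
  have hR2 : ∑ S ∈ Sx (Off B) X, smI (fun T : Fin r → Finset (Off B) =>
      if ∀ k, ∑ q ∈ T k, a q.1 = g k then ((f T : ℂ) - (v fun i => clN D' (T i) : ℂ)) else 0) S =
      (R : ℂ) := by
    rw [hR, Complex.ofReal_sum]
    refine sum_congr rfl fun S _ => ?_
    unfold smI
    rw [Complex.ofReal_sum]
    refine sum_congr rfl fun T _ => ?_
    by_cases h10 : ∀ k, ∑ q ∈ T k, a q.1 = g k
    · show (if ∀ k, ∑ q ∈ T k, a q.1 = g k then ((f T : ℂ) - (v fun i => clN D' (T i) : ℂ)) else 0) = _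
      rw [if_pos h10, if_pos h10, Complex.ofReal_sub]
    · show (if ∀ k, ∑ q ∈ T k, a q.1 = g k then ((f T : ℂ) - (v fun i => clN D' (T i) : ℂ)) else 0) = _
      rw [if_neg h10, if_neg h10, Complex.ofReal_zero]
  rw [hR2, Complex.norm_real, Real.norm_eq_abs] at h5
  have h7 : -(ε * A) ≤ R := (neg_le_neg (h5.trans hEA)).trans (neg_abs_le R)
  have h8 : ∑ S ∈ (Sx ι X).filter (fun S => Disjoint S B),
      (((cov r S).filter fun T => Cl a g T ∧ P T).card : ℝ) =
      ∑ S ∈ Sx (Off B) X, ∑ T ∈ covF (Fin r) S,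
        if ∀ k, ∑ q ∈ T k, a q.1 = g k then (if P fun i => up (T i) then (1 : ℝ) else 0) else 0 := by
    rw [← sum_Sx_off B X fun S => (((cov r S).filter fun T => Cl a g T ∧ P T).card : ℝ)]
    refine sum_congr rfl fun S _ => ?_
    rw [card_cov_up S fun T => Cl a g T ∧ P T, card_filter, Nat.cast_sum]
    refine sum_congr rfl fun T _ => ?_
    have h9 : (Cl a g fun i => up (T i)) ↔ ∀ k, ∑ q ∈ T k, a q.1 = g k :=
      forall_congr' fun k => by rw [sum_up]
    by_cases h10 : ∀ k, ∑ q ∈ T k, a q.1 = g k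
    · by_cases h11 : P fun i => up (T i)
      · rw [if_pos ⟨h9.2 h10, h11⟩, if_pos h10, if_pos h11, Nat.cast_one]
      · rw [if_neg fun h12 => h11 h12.2, if_pos h10, if_neg h11, Nat.cast_zero]
    · rw [if_neg fun h12 => h10 (h9.1 h12.1), if_neg h10, Nat.cast_zero]
  have h12 : ∑ S ∈ (Sx ι X).filter (fun S => Disjoint S B),
      (((cov r S).filter (Cl a g)).card : ℝ) =
      ∑ S ∈ Sx (Off B) X, ∑ T ∈ covF (Fin r) S,
        if ∀ k, ∑ q ∈ T k, a q.1 = g k then 1 else 0 := by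
    rw [← sum_Sx_off B X fun S => (((cov r S).filter (Cl a g)).card : ℝ)]
    refine sum_congr rfl fun S _ => ?_
    rw [card_cov_up S (Cl a g), card_filter, Nat.cast_sum]
    refine sum_congr rfl fun T _ => ?_
    have h9 : (Cl a g fun i => up (T i)) ↔ ∀ k, ∑ q ∈ T k, a q.1 = g k :=
      forall_congr' fun k => by rw [sum_up]
    by_cases h10 : ∀ k, ∑ q ∈ T k, a q.1 = g k
    · rw [if_pos (h9.2 h10), if_pos h10, Nat.cast_one]
    · rw [if_neg fun h12 => h10 (h9.1 h12), if_neg h10, Nat.cast_zero]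
  rw [h8, h12]
  have h13 : R + c * ∑ S ∈ Sx (Off B) X, ∑ T ∈ covF (Fin r) S,
      (if ∀ k, ∑ q ∈ T k, a q.1 = g k then (1 : ℝ) else 0) ≤
      ∑ S ∈ Sx (Off B) X, ∑ T ∈ covF (Fin r) S,
        if ∀ k, ∑ q ∈ T k, a q.1 = g k then (if P fun i => up (T i) then (1 : ℝ) else 0) else 0 := by
    rw [hR, mul_sum, ← sum_add_distrib]
    refine sum_le_sum fun S _ => ?_
    rw [mul_sum, ← sum_add_distrib]
    refine sum_le_sum fun T _ => ?_
    by_cases h10 : ∀ k, ∑ q ∈ T k, a q.1 = g k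
    · rw [if_pos h10, if_pos h10, if_pos h10]
      have h14 := hc fun i => clN D' (T i)
      have h15 := hf T
      linarith
    · rw [if_neg h10, if_neg h10, if_neg h10]
      linarith
  linarith

end

end Pool.Agent.Lib.MP_1a91b9_ntMN
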