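import Pool.Agent.Lib.MP_1a91b9_ntMQ.P11
import Pool.Agent.Lib.MP_1a91b9_ntMN.B1
import Pool.Agent.Lib.MP_1a91b9_ntMN.CTriv
import Pool.Agent.Lib.MP_1a91b9_ntMN.P10

/-!
B2: the joint law for blocks of labels, `ℚ(√-7)`
-/

set_option autoImplicit false
set_option linter.unusedSectionVars false

namespace Pool.Agent.Lib.MP_1a91b9_ntMN

open Finset Pool.Agent.Lib.MP_1a91b9_ntH Pool.Agent.Lib.MP_1a91b9_ntQ
open Pool.Agent.Lib.MP_1a91b9_ntQ.Da Pool.Agent.Lib.MP_1a91b9_ntV Pool.Agent.Lib.MP_1a91b9_ntM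
open Pool.Agent.Lib.MP_1a91b9_ntDV Pool.Agent.Lib.MP_1a91b9_ntMQ

noncomputable section

open NumberField Pool.Agent.Lib.MP_1a91b9_nuT
open Pool.Agent.Lib.MP_1a91b9_ntR (cq)
open Pool.Agent.Lib.MP_1a91b9_ntV.DS (cinfV)
open Pool.Agent.Lib.MP_1a91b9_ntV.DJ
open Pool.Agent.Lib.MP_1a91b9_ntZ (Atl bn bts bts_zero bts_empty_succ bts_insert_succ bts_mono
  bts_ind bts_const)
open Pool.Agent.Lib.MP_1a91b9_ntZ.J7 (vb fb vb_ge vb_le fb_eq)

private theorem B2_card (r : ℕ) : Fintype.card {J : Finset (Fin r) // J.Nonempty} = 2 ^ r - 1 := by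
  rw [Fintype.card_subtype]
  have h1 : (univ.filter fun J : Finset (Fin r) => J.Nonempty) = univ.erase ∅ := by
    ext J
    rw [mem_filter, mem_erase, nonempty_iff_ne_empty]
    exact ⟨fun h => ⟨h.2, h.1⟩, fun h => ⟨h.2, h.1⟩⟩
  rw [h1, card_erase_of_mem (mem_univ _), card_univ, Fintype.card_finset, Fintype.card_fin]

variable [CD] [hv : V7]

/-- **The joint law for blocks of labels and covering tuples, `ℚ(√-7)`.** -/
theorem jbi7 : JBI7 := by
  classical
  intro m r k N hN d0 d1 d2 T₀ B hT hinj hdis t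
  rcases Nat.eq_zero_or_pos r with rfl | hr
  · refine covLI_triv (pow_nonneg cinfV_nn _) (fun _ => ?_) fun T b J hJ => ?_
    · rw [pow_zero, Nat.sub_self, zero_mul, pow_zero]
    · obtain ⟨i, _⟩ := hJ
      exact i.elim0
  have hne : Nonempty (Fin r) := ⟨⟨0, hr⟩⟩
  have hpow : cinfV ^ ((2 ^ r - 1) * N) = ∏ _a : {J : Finset (Fin r) // J.Nonempty}, cinfV ^ N := by
    rw [prod_const, card_univ, B2_card, ← pow_mul, mul_comm]
  have hle : bn k t (cinfV ^ ((2 ^ r - 1) * N)) ≤ bts univ t fun b : Fin k =>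
      ∏ a : {J : Finset (Fin r) // J.Nonempty}, vb (d1 b a.1) (d2 b a.1) (T₀ b a.1) := by
    have e := bts_const (univ : Finset (Fin k)) t (cinfV ^ ((2 ^ r - 1) * N))
    rw [card_univ, Fintype.card_fin] at e
    rw [← e]
    refine bts_mono univ t (fun _ _ => pow_nonneg cinfV_nn _) (fun b _ => ?_) fun b _ => ?_
    · rw [hpow]
      exact prod_le_prod (fun a _ => pow_nonneg cinfV_nn N) fun a _ => vb_ge (hinj b a.1 a.2)
    · exact prod_le_one (fun a _ => (pow_nonneg cinfV_nn N).trans (vb_ge (hinj b a.1 a.2)))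
        fun a _ => vb_le (hinj b a.1 a.2)
  let _ : TwS (Off B) := twG (D7.off B) (C7B m B).cl
  have hD : OKT (D7.off B) (w7B B) := okT_7 m B
  refine covLI_of (D7.off B) (C7B m B).cl (cq (mod7 m)) (AddMonoidHom.fst _ _) (fun q => rfl) hr
    (v := fun _ => bts univ t fun b : Fin k =>
      ∏ a : {J : Finset (Fin r) // J.Nonempty}, vb (d1 b a.1) (d2 b a.1) (T₀ b a.1))
    (fun _ => hle)
    (f := fun S => bts univ t fun b : Fin k => ∏ a : {J : Finset (Fin r) // J.Nonempty},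
        fb D7 (B := B) (d0 b a.1) (d1 b a.1) (d2 b a.1) (T₀ b a.1) (TT (phJ r) S a))
    (fun S => ?_) (fun γ => ?_) (fun γ => ?_) (nbR (𝓞 K))
  · have e := bts_ind (fun b : Fin k => ∀ J : Finset (Fin r), J.Nonempty → ∀ n,
      Good7 D7 (sdJ J (fun i => up (S i)) ∪ T₀ b J n) (d0 b J n) (d1 b J n) (d2 b J n)) univ t
    refine le_of_eq (Eq.trans ?_ (e.trans ?_))
    · refine congrArg (bts univ t) (funext fun b => ?_)
      have h5 : ∀ a : {J : Finset (Fin r) // J.Nonempty},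
          fb D7 (B := B) (d0 b a.1) (d1 b a.1) (d2 b a.1) (T₀ b a.1) (TT (phJ r) S a) =
          if (∀ n, Good7 D7 (sdJ a.1 (fun i => up (S i)) ∪ T₀ b a.1 n) (d0 b a.1 n) (d1 b a.1 n)
            (d2 b a.1 n)) then (1 : ℝ) else 0 := by
        intro a
        rw [fb_eq D7 (d0 b a.1) (d1 b a.1) (d2 b a.1) (T₀ b a.1) (TT (phJ r) S a), up_TT, TT_phJ]
      rw [prod_congr rfl fun a _ => h5 a, prod_ite_zero, prod_const_one]
      split_ifs with g1 g2 g2
      · rfl
      · exact (g2 fun J hJ n => g1 ⟨J, hJ⟩ (mem_univ _) n).elim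
      · exact (g1 fun a _ n => g2 a.1 a.2 n).elim
      · rfl
    · by_cases h : Atl t fun b => ∀ J : Finset (Fin r), J.Nonempty → ∀ n,
          Good7 D7 (sdJ J (fun i => up (S i)) ∪ T₀ b J n) (d0 b J n) (d1 b J n) (d2 b J n)
      · exact (if_pos h).trans (if_pos h).symm
      · exact (if_neg h).trans (if_neg h).symm
  · exact PclC_b7 (sp_phJ r) tw7D hD
      (d0 := fun b (a : {J : Finset (Fin r) // J.Nonempty}) => d0 b a.1) (d1 := fun b a => d1 b a.1)
      (d2 := fun b a => d2 b a.1) (T := fun b a => T₀ b a.1) (fun b a n => hT b a.1 n)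
      (fun b a => hinj b a.1 a.2) (fun b b' hb a n n' => hdis b b' hb a.1 a.2 n n') t γ
  · have h := PclC_7J (sp_phJ r) tw7D hD
      (d0 := fun b (a : {J : Finset (Fin r) // J.Nonempty}) => d0 b a.1) (d1 := fun b a => d1 b a.1)
      (d2 := fun b a => d2 b a.1) (T := fun b a => T₀ b a.1) (fun b a n => hT b a.1 n)
      (fun b a => hinj b a.1 a.2) (fun b b' hb a n n' => hdis b b' hb a.1 a.2 n n') γ ∅
    simp only [prod_empty] at h
    exact h

end

end Pool.Agent.Lib.MP_1a91b9_ntMN
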