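import Pool.Agent.Lib.MP_1a91b9_ntMN.X0

/-!
# MP_1a91b9_nt (extensions ordered by the ramified primes), `ℚ(i)`: labels with a colour different from zero
-/

set_option autoImplicit false
set_option linter.unusedSectionVars false

namespace Pool.Agent.Lib.MP_1a91b9_ntMN.G4

open Finset Pool.Agent.Lib.MP_1a91b9_ntH Pool.Agent.Lib.MP_1a91b9_ntQ Pool.Agent.Lib.MP_1a91b9_ntQ.Da
  Pool.Agent.Lib.MP_1a91b9_ntQ.M Pool.Agent.Lib.MP_1a91b9_ntM Pool.Agent.Lib.MP_1a91b9_ntM.E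
open Pool.Agent.Lib.MP_1a91b9_ntDV Pool.Agent.Lib.MP_1a91b9_ntDV.G4 Pool.Agent.Lib.MP_1a91b9_ntMQ
  Pool.Agent.Lib.MP_1a91b9_ntMQ.G4 Pool.Agent.Lib.MP_1a91b9_ntMN

noncomputable section

variable {I A : Type} [Fintype I] [DecidableEq I] [Fintype A] [DecidableEq A] {L : A → Type}
  [∀ a, Zero (L a)] [∀ a, Fintype (L a)] [∀ a, DecidableEq (L a)] {phi : A → I → ZMod 2}
  {ι : Type} {κ : Type}

theorem dot_z0 (phi : A → I → ZMod 2) (a : A) : phi a ⬝ᵥ (z0 phi L).1.1 = 0 := by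
  show phi a ⬝ᵥ (0 : I → ZMod 2) = 0
  exact dotProduct_zero _

theorem eq_z0 {z : LC phi L} (h : z.1.1 = 0) : z = z0 phi L := by
  refine Subtype.ext (Prod.ext h (funext fun a => z.2 a ?_))
  rw [h]
  exact dotProduct_zero _

theorem mem_upC {Z : Finset (LCn phi L)} {z : LC phi L} :
    z ∈ upC Z ↔ z = z0 phi L ∨ ∃ y ∈ Z, y.1 = z := by
  unfold upC
  rw [mem_insert, mem_image]
  rfl

private theorem X2_not (Z : Finset (LCn phi L)) : z0 phi L ∉ Z.image Subtype.val := by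
  intro h
  obtain ⟨y, -, hy⟩ := mem_image.1 h
  apply y.2
  rw [hy]
  rfl

theorem sum_upC {M : Type} [AddCommMonoid M] (Z : Finset (LCn phi L)) (F : LC phi L → M) :
    ∑ z ∈ upC Z, F z = F (z0 phi L) + ∑ z ∈ Z, F z.1 := by
  unfold upC
  rw [sum_insert (X2_not Z), sum_image fun x _ y _ h => Subtype.ext h]
  rfl

theorem card_upC (Z : Finset (LCn phi L)) : (upC Z).card = 1 + Z.card := by
  rw [card_eq_sum_ones, sum_upC Z (fun _ => 1), ← card_eq_sum_ones]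

theorem rsC_upC (Z : Finset (LCn phi L)) : rsC (upC Z) = Z := by
  ext z
  rw [mem_rsC, mem_upC]
  constructor
  · rintro (h | ⟨y, hy, h⟩)
    · exact absurd (by rw [h]; rfl) z.2
    · rwa [← Subtype.ext h]
  · intro h
    exact Or.inr ⟨z, h, rfl⟩

theorem mem_UCn {U : ∀ a, Finset (L a)} {z : LCn phi L} :
    z ∈ UCn phi U ↔ ∀ a, phi a ⬝ᵥ z.1.1.1 = 1 → z.1.1.2 a ∈ U a := by
  unfold UCn
  rw [mem_rsC, mem_UC]

theorem upC_UCn (U : ∀ a, Finset (L a)) : upC (UCn phi U) = UC phi U := by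
  ext z
  rw [mem_upC, mem_UC]
  constructor
  · rintro (rfl | ⟨y, hy, rfl⟩)
    · intro a ha
      rw [dot_z0] at ha
      exact absurd ha zero_ne_one
    · exact mem_UCn.1 hy
  · intro h
    by_cases hz : z.1.1 = 0
    · exact Or.inl (eq_z0 hz)
    · exact Or.inr ⟨⟨z, hz⟩, mem_UCn.2 h, rfl⟩

/-- Sums over the labels whose components are in the sets `U a`. -/
theorem sum_UCn (U : ∀ a, Finset (L a)) (f : ∀ a, L a → ℂ) :
    ∑ z ∈ UCn phi U, ∏ a, (if phi a ⬝ᵥ z.1.1.1 = 1 then f a (z.1.1.2 a) else 1) =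
      ∑ v ∈ (univ : Finset (I → ZMod 2)).filter (fun v => v ≠ 0),
        ∏ a, if phi a ⬝ᵥ v = 1 then ∑ l ∈ U a, f a l else 1 := by
  classical
  have h1 := sum_UC (phi := phi) (M := ℂ) U (fun v => if v = 0 then 0 else 1) f
  rw [← upC_UCn U, sum_upC, if_pos (show (z0 phi L).1.1 = 0 from rfl), zero_mul, zero_add] at h1
  have h2 : ∑ z ∈ UCn phi U, (if z.1.1.1 = 0 then (0 : ℂ) else 1) *
      ∏ a, (if phi a ⬝ᵥ z.1.1.1 = 1 then f a (z.1.1.2 a) else 1) =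
      ∑ z ∈ UCn phi U, ∏ a, (if phi a ⬝ᵥ z.1.1.1 = 1 then f a (z.1.1.2 a) else 1) :=
    sum_congr rfl fun z _ => by rw [if_neg z.2, one_mul]
  rw [h2] at h1
  rw [h1, sum_filter]
  refine sum_congr rfl fun v _ => ?_
  by_cases hv : v = 0
  · rw [if_pos hv, if_neg (not_not.2 hv), zero_mul]
  · rw [if_neg hv, if_pos hv, one_mul]

theorem wC_up (w : ∀ a, L a → (κ → ZMod 2) → ℝ) (z : LCn phi L) (φ : κ → ZMod 2) :
    wC w z.1 φ = ((2 : ℝ) ^ Fintype.card I)⁻¹ * wCn w z φ := rfl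

theorem wC_z0 (w : ∀ a, L a → (κ → ZMod 2) → ℝ) (φ : κ → ZMod 2) :
    wC w (z0 phi L) φ = ((2 : ℝ) ^ Fintype.card I)⁻¹ := by
  unfold G4.wC
  rw [prod_eq_one fun a _ => if_neg (by rw [dot_z0]; exact zero_ne_one), mul_one]

theorem sum_upC_wC (w : ∀ a, L a → (κ → ZMod 2) → ℝ) (Z : Finset (LCn phi L)) (φ : κ → ZMod 2) :
    ∑ z ∈ upC Z, wC w z φ = ((2 : ℝ) ^ Fintype.card I)⁻¹ * (1 + ∑ z ∈ Z, wCn w z φ) := by
  rw [sum_upC, wC_z0, mul_add, mul_one, mul_sum]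
  exact congrArg _ (sum_congr rfl fun z _ => wC_up w z φ)

private theorem X2_lk (Λ : ∀ a, LS2 (L a) ι κ) (z y : LC phi L) : (LSC phi Λ).lk z y =
    ∑ a, (phi a ⬝ᵥ z.1.1) * (phi a ⬝ᵥ y.1.1) * (Λ a).lk (z.1.2 a) (y.1.2 a) := by
  change PC phi (fun a => (Λ a).Phi) z y + PC phi (fun a => (Λ a).Phi) y z = _
  unfold PC
  rw [← sum_add_distrib]
  refine sum_congr rfl fun a _ => ?_
  unfold LS2.lk
  ring

theorem lk_z0 (Λ : ∀ a, LS2 (L a) ι κ) (z : LC phi L) :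
    (LSC phi Λ).lk (z0 phi L) z = 0 ∧ (LSC phi Λ).lk z (z0 phi L) = 0 := by
  constructor
  · rw [X2_lk]
    exact sum_eq_zero fun a _ => by rw [dot_z0, zero_mul, zero_mul]
  · rw [X2_lk]
    exact sum_eq_zero fun a _ => by rw [dot_z0, mul_zero, zero_mul]

theorem LSCn_lk (Λ : ∀ a, LS2 (L a) ι κ) (z y : LCn phi L) :
    (LSCn phi Λ).lk z y = (LSC phi Λ).lk z.1 y.1 := rfl

theorem Unl_upC {Λ : ∀ a, LS2 (L a) ι κ} {Z : Finset (LCn phi L)} :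
    (LSC phi Λ).Unl (upC Z) ↔ (LSCn phi Λ).Unl Z := by
  constructor
  · intro h z hz y hy
    exact h z.1 (mem_upC.2 (Or.inr ⟨z, hz, rfl⟩)) y.1 (mem_upC.2 (Or.inr ⟨y, hy, rfl⟩))
  · intro h z hz y hy
    rcases mem_upC.1 hz with rfl | ⟨z', hz', rfl⟩
    · exact (lk_z0 Λ y).1
    · rcases mem_upC.1 hy with rfl | ⟨y', hy', rfl⟩
      · exact (lk_z0 Λ z'.1).2
      · exact h z' hz' y' hy'

theorem hI_cast (I : Type) [Fintype I] : ((hI I : ℕ) : ℝ) = 2 ^ Fintype.card I - 1 := by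
  unfold hI
  rw [Nat.cast_sub (Nat.one_le_pow _ _ two_pos)]
  push_cast
  rfl

end

end Pool.Agent.Lib.MP_1a91b9_ntMN.G4
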