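import Pool.Agent.Lib.MP_1a91b9_ntMN.X7
import Pool.Agent.Lib.MP_1a91b9_ntMN.X2

/-!
# MP_1a91b9_nt (extensions ordered by the ramified primes), `ℚ(i)`: the exceptional families
-/

set_option autoImplicit false
set_option linter.unusedSectionVars false

namespace Pool.Agent.Lib.MP_1a91b9_ntMN.G4

open Finset Pool.Agent.Lib.MP_1a91b9_ntH Pool.Agent.Lib.MP_1a91b9_ntQ Pool.Agent.Lib.MP_1a91b9_ntQ.Da
  Pool.Agent.Lib.MP_1a91b9_ntQ.M Pool.Agent.Lib.MP_1a91b9_ntM Pool.Agent.Lib.MP_1a91b9_ntM.E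
open Pool.Agent.Lib.MP_1a91b9_ntDV Pool.Agent.Lib.MP_1a91b9_ntDV.G4 Pool.Agent.Lib.MP_1a91b9_ntMQ
  Pool.Agent.Lib.MP_1a91b9_ntMQ.G4 Pool.Agent.Lib.MP_1a91b9_ntMN

noncomputable section

variable {I A : Type} [Fintype I] [DecidableEq I] [Fintype A] [DecidableEq A]
  {phi : A → I → ZMod 2} {ι : Type} [DecidableEq ι] [PS ι]

private theorem X8_two (I : Type) [Fintype I] [Nonempty I] : (2 : ℝ) ≤ 2 ^ Fintype.card I := by
  calc (2 : ℝ) = 2 ^ 1 := (pow_one _).symm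
    _ ≤ 2 ^ Fintype.card I := pow_le_pow_right₀ (by norm_num) Fintype.card_pos

open Classical in
/-- The families with an empty product are rare. -/
theorem ee_small [Nonempty I] {C1 C2 : ℝ} (h1 : Cheb ι C1) (h2 : Zt ι C2) (hs : Sp phi) (ε : ℝ)
    (hε : 0 < ε) : ∃ X₀ : ℕ, ∀ X : ℕ, X₀ ≤ X →
      sm1 (fun c : I → Finset ι => if EE phi c then (1 : ℝ) else 0) X ≤ ε * Yh (hI I) X := by
  obtain ⟨n, hn⟩ : ∃ n : ℝ, n = (Fintype.card A : ℝ) := ⟨_, rfl⟩
  have hn0 : 0 ≤ n := by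
    rw [hn]
    exact Nat.cast_nonneg _
  obtain ⟨X₀, hX₀⟩ := ub_const h1 h2 (hI I) (one_le_hI I) (ε / (n + 1)) (by positivity)
  refine ⟨X₀, fun X hX => ?_⟩
  have h2n := X8_two I
  have e1 := hX₀ (fun _ => 2 ^ Fintype.card I * ((1 + 0) / 2) - 1) (fun q => by
    rw [hI_cast]
    constructor <;> linarith) X hX
  have e2 : ∀ c : I → Finset ι, (if EE phi c then (1 : ℝ) else 0) ≤
      ∑ a, ∏ q ∈ TT phi c a, (0 : ℝ) := by
    intro c
    have h0 : ∀ a, 0 ≤ ∏ q ∈ TT phi c a, (0 : ℝ) := fun a => prod_nonneg fun _ _ => le_rfl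
    split_ifs with h
    · obtain ⟨a, ha⟩ := h
      have h3 := single_le_sum (fun a (_ : a ∈ (univ : Finset A)) => h0 a) (mem_univ a)
      rw [ha, prod_empty] at h3
      exact h3
    · exact sum_nonneg fun a _ => h0 a
  refine (sm1_mono e2 X).trans ?_
  rw [sm1_sum]
  have e3 : ∀ a : A, sm1 (fun c : I → Finset ι => ∏ q ∈ TT phi c a, (0 : ℝ)) X ≤
      ε / (n + 1) * Yh (hI I) X := by
    intro a
    refine le_trans (le_of_eq ?_) e1
    unfold sm1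
    exact sum_congr rfl fun S _ => smr_pow hs a (fun _ => 0) S
  refine (sum_le_sum fun a _ => e3 a).trans ?_
  rw [sum_const, card_univ, nsmul_eq_mul, ← hn]
  have hY := Yh_nonneg (hI I) X
  have e4 : n * (ε / (n + 1)) ≤ ε := by
    rw [mul_div_assoc', div_le_iff₀ (by positivity)]
    nlinarith
  calc n * (ε / (n + 1) * Yh (hI I) X) = n * (ε / (n + 1)) * Yh (hI I) X := by ring
    _ ≤ ε * Yh (hI I) X := mul_le_mul_of_nonneg_right e4 hY

/-- The Cauchy-Schwarz inequality for the sums over the families. -/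
theorem sm1_cs (e p : (I → Finset ι) → ℝ) (X : ℕ) :
    sm1 (fun c => e c * p c) X ^ 2 ≤ sm1 (fun c => e c ^ 2) X * sm1 (fun c => p c ^ 2) X := by
  unfold sm1
  rw [sum_sigma' (Sx ι X) (fun S => covF I S) (fun _ c => e c * p c),
    sum_sigma' (Sx ι X) (fun S => covF I S) (fun _ c => e c ^ 2),
    sum_sigma' (Sx ι X) (fun S => covF I S) (fun _ c => p c ^ 2)]
  exact sum_mul_sq_le_sq_mul_sq _ (fun x : (_ : Finset ι) × (I → Finset ι) => e x.2) fun x => p x.2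

variable {G : Type} [AddCommGroup G] {cl : ι → G} {γ : A → G}

/-- **Changing an unbounded function on the families with an empty product.** -/
theorem PGn.rareM [Nonempty I] {C1 C2 : ℝ} (h1 : Cheb ι C1) (h2 : Zt ι C2) (hs : Sp phi)
    {f h : (I → Finset ι) → ℝ} {v v2 C : ℝ} (hf : PGn phi cl γ f v)
    (hf2 : PGn phi cl γ (fun c => f c ^ 2) v2) (hf0 : ∀ c, 0 ≤ f c)
    (heq : ∀ c : I → Finset ι, (∀ a, ∑ q ∈ TT phi c a, cl q = γ a) → ¬ EE phi c → h c = f c)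
    (hC : ∀ c, |h c - f c| ≤ C * f c) : PGn phi cl γ h v := by
  classical
  obtain ⟨Cl, hCl⟩ : ∃ Cl : (I → Finset ι) → Prop, ∀ c, Cl c ↔
    ∀ a, ∑ q ∈ TT phi c a, cl q = γ a := ⟨_, fun _ => Iff.rfl⟩
  obtain ⟨pf, hpf⟩ : ∃ pf : (I → Finset ι) → ℝ, ∀ c, pf c =
    if Cl c then f c else 0 := ⟨_, fun _ => rfl⟩
  obtain ⟨R, hRe⟩ : ∃ R : (I → Finset ι) → ℝ, ∀ c, R c =
    if Cl c then h c - f c else 0 := ⟨_, fun _ => rfl⟩
  obtain ⟨e, he⟩ : ∃ e : (I → Finset ι) → ℝ, ∀ c, e c =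
    if EE phi c then (1 : ℝ) else 0 := ⟨_, fun _ => rfl⟩
  obtain ⟨Gf, hGf⟩ : ∃ Gf : (I → Finset ι) → ℝ, ∀ c, Gf c =
    if Cl c then f c ^ 2 - v2 else 0 := ⟨_, fun _ => rfl⟩
  have hG : MV1 Gf 0 := by
    refine MV1.congr (hf2 : MV1 _ 0) (fun c => ?_) rfl
    rw [hGf]
    by_cases hc : Cl c
    · exact (if_pos hc).trans (if_pos ((hCl c).1 hc)).symm
    · exact (if_neg hc).trans (if_neg fun h' => hc ((hCl c).2 h')).symm
  have hR : ∀ c, |R c| ≤ |C| * (e c * pf c) := by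
    intro c
    rw [hRe, hpf, he]
    by_cases hc : Cl c
    · rw [if_pos hc, if_pos hc]
      by_cases hE : EE phi c
      · rw [if_pos hE, one_mul]
        exact (hC c).trans (mul_le_mul_of_nonneg_right (le_abs_self C) (hf0 c))
      · rw [if_neg hE, zero_mul, mul_zero, heq c ((hCl c).1 hc) hE, sub_self, abs_zero]
    · rw [if_neg hc, if_neg hc, mul_zero, mul_zero, abs_zero]
  have he2 : ∀ c, e c ^ 2 = e c := by
    intro c
    rw [he]
    by_cases hE : EE phi c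
    · rw [if_pos hE, one_pow]
    · rw [if_neg hE]
      norm_num
  have hgle : ∀ X : ℕ, sm1 (fun c => pf c ^ 2) X ≤ |sm1 Gf X| + |v2| * NN ι (hI I) X := by
    intro X
    have k1 : sm1 (fun c => pf c ^ 2) X ≤ sm1 (fun c => Gf c + |v2|) X := by
      refine sm1_mono (fun c => ?_) X
      rw [hpf, hGf]
      by_cases hc : Cl c
      · rw [if_pos hc, if_pos hc]
        linarith [le_abs_self v2]
      · rw [if_neg hc, if_neg hc]
        have := abs_nonneg v2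
        linarith
    rw [sm1_add, sm1_const] at k1
    linarith [le_abs_self (sm1 Gf X)]
  have hR0 : MV1 R 0 := by
    rw [mv1_iff]
    intro ε hε
    obtain ⟨M, hM⟩ : ∃ M : ℝ, M = |C| ^ 2 * (1 + |v2|) + 1 := ⟨_, rfl⟩
    have hM0 : 0 < M := by
      rw [hM]
      positivity
    obtain ⟨X₁, hX₁⟩ := (mv1_iff.1 hG) 1 one_pos
    obtain ⟨X₂, hX₂⟩ := ee_small (I := I) h1 h2 hs (ε ^ 2 / M) (by positivity)
    refine ⟨max X₁ X₂, fun X hX => ?_⟩
    have k1 := hX₁ X ((le_max_left _ _).trans hX)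
    have k2 := hX₂ X ((le_max_right _ _).trans hX)
    rw [zero_mul, sub_zero, one_mul] at k1
    obtain ⟨Z, hZ⟩ : ∃ Z : ℝ, Z = NN ι (hI I) X + Yh (hI I) X := ⟨_, rfl⟩
    have hN := NN_nonneg ι (hI I) X
    have hY := Yh_nonneg (hI I) X
    have hZ0 : 0 ≤ Z := by
      rw [hZ]
      linarith
    have k3 : sm1 (fun c => pf c ^ 2) X ≤ (1 + |v2|) * Z := by
      refine (hgle X).trans ?_
      rw [hZ]
      nlinarith [abs_nonneg v2]
    have k4 : sm1 (fun c => e c ^ 2) X ≤ ε ^ 2 / M * Z := by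
      have k5 : sm1 (fun c => e c ^ 2) X =
          sm1 (fun c : I → Finset ι => if EE phi c then (1 : ℝ) else 0) X := by
        refine congrArg (fun F => sm1 F X) (funext fun c => ?_)
        rw [he2, he]
      rw [k5]
      refine k2.trans (mul_le_mul_of_nonneg_left ?_ (by positivity))
      rw [hZ]
      linarith
    have k6 : |sm1 R X| ≤ |C| * sm1 (fun c => e c * pf c) X := by
      refine (abs_sm1_le R X).trans ((sm1_mono hR X).trans (le_of_eq ?_))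
      exact sm1_smul |C| (fun c => e c * pf c) X
    have k7 : |sm1 R X| ^ 2 ≤ (ε * Z) ^ 2 := by
      have k8 : |sm1 R X| ^ 2 ≤ |C| ^ 2 * sm1 (fun c => e c * pf c) X ^ 2 := by
        rw [← mul_pow]
        exact pow_le_pow_left₀ (abs_nonneg _) k6 2
      have k9 := sm1_cs e pf X
      have k10 : sm1 (fun c => e c ^ 2) X * sm1 (fun c => pf c ^ 2) X ≤
          (ε ^ 2 / M * Z) * ((1 + |v2|) * Z) :=
        mul_le_mul k4 k3 (sm1_nonneg (fun c => sq_nonneg _) X) (by positivity)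
      have k11 : |C| ^ 2 * ((ε ^ 2 / M * Z) * ((1 + |v2|) * Z)) =
          (|C| ^ 2 * (1 + |v2|) / M) * (ε * Z) ^ 2 := by
        field_simp
      have k12 : |C| ^ 2 * (1 + |v2|) / M ≤ 1 := by
        rw [div_le_one hM0, hM]
        linarith
      calc |sm1 R X| ^ 2 ≤ |C| ^ 2 * sm1 (fun c => e c * pf c) X ^ 2 := k8
        _ ≤ |C| ^ 2 * ((ε ^ 2 / M * Z) * ((1 + |v2|) * Z)) :=
            mul_le_mul_of_nonneg_left (k9.trans k10) (sq_nonneg _)
        _ = (|C| ^ 2 * (1 + |v2|) / M) * (ε * Z) ^ 2 := k11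
        _ ≤ 1 * (ε * Z) ^ 2 := mul_le_mul_of_nonneg_right k12 (sq_nonneg _)
        _ = (ε * Z) ^ 2 := one_mul _
    rw [zero_mul, sub_zero, ← hZ]
    exact le_of_sq_le_sq k7 (by positivity)
  have hfin := MV1.add hR0 (hf : MV1 _ 0)
  refine MV1.congr hfin (fun c => ?_) (add_zero 0).symm
  rw [hRe]
  by_cases hc : Cl c
  · rw [if_pos hc, if_pos ((hCl c).1 hc), if_pos ((hCl c).1 hc)]
    ring
  · rw [if_neg hc, if_neg fun h' => hc ((hCl c).2 h'), if_neg fun h' => hc ((hCl c).2 h'), add_zero]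

/-- **The functions which are small.** -/
theorem pgn_small [Nonempty I] {κ : Type} [Fintype κ] [DecidableEq κ] (hs : Sp phi) {D : Dat2 ι κ}
    (hD : D.OK) (hN : D.NV1) (cl : ι → G) (γ : A → G) {f : (I → Finset ι) → ℝ} {J : A → Type}
    [∀ a, Fintype (J a)] (η : ∀ a, J a → (κ → ZMod 2) → ℝ) (h0 : ∀ a j φ, 0 ≤ η a j φ)
    (h1 : ∀ a j φ, η a j φ ≤ 1) (h2 : ∀ a j, ∃ φ, η a j φ < 1) (K : ℝ)
    (hf : ∀ c : I → Finset ι, (∀ a, ∑ q ∈ TT phi c a, cl q = γ a) →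
      |f c| ≤ K * ∑ a, ∑ j, ∏ q ∈ TT phi c a, η a j (D.a q)) : PGn phi cl γ f 0 := by
  classical
  unfold PGn
  rw [mv1_iff]
  intro ε hε
  have h2n := X8_two I
  obtain ⟨n, hn⟩ : ∃ n : ℝ, n = (Fintype.card (Σ a, J a) : ℝ) := ⟨_, rfl⟩
  have hn0 : 0 ≤ n := by
    rw [hn]
    exact Nat.cast_nonneg _
  obtain ⟨ε', hε', hε2⟩ : ∃ ε' : ℝ, 0 < ε' ∧ |K| * (n * ε') ≤ ε := by
    refine ⟨ε / (|K| * n + 1), by positivity, ?_⟩
    have h3 : |K| * (n * (ε / (|K| * n + 1))) = (|K| * n) * ε / (|K| * n + 1) := by ring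
    rw [h3, div_le_iff₀ (by positivity)]
    nlinarith
  have hex : ∀ p : Σ a, J a, ∃ X₀ : ℕ, ∀ X : ℕ, X₀ ≤ X →
      ∑ S ∈ Sx ι X, ∏ q ∈ S, (2 ^ Fintype.card I * ((1 + η p.1 p.2 (D.a q)) / 2) - 1) ≤
        ε' * Yh (hI I) X := by
    intro p
    refine badXh hD hN (hI I) (one_le_hI I)
      (fun φ => 2 ^ Fintype.card I * ((1 + η p.1 p.2 φ) / 2) - 1) (fun φ => ?_) (fun φ => ?_) ?_ ε' hε'
    · have := h0 p.1 p.2 φ
      nlinarith
    · have := h1 p.1 p.2 φ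
      rw [hI_cast]
      nlinarith
    · obtain ⟨φ, hφ⟩ := h2 p.1 p.2
      refine ⟨φ, ?_⟩
      rw [hI_cast]
      nlinarith
  choose X₀ hX₀ using hex
  refine ⟨univ.sup X₀, fun X hX => ?_⟩
  have h10 : ∀ p : Σ a, J a, sm1 (fun c : I → Finset ι => ∏ q ∈ TT phi c p.1, η p.1 p.2 (D.a q)) X ≤
      ε' * Yh (hI I) X := by
    intro p
    refine le_trans (le_of_eq ?_) (hX₀ p X ((le_sup (f := X₀) (mem_univ p)).trans hX))
    unfold sm1
    exact sum_congr rfl fun S _ => smr_pow hs p.1 (fun q => η p.1 p.2 (D.a q)) S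
  have hF : ∀ c : I → Finset ι, |if ∀ a, ∑ q ∈ TT phi c a, cl q = γ a then f c - 0 else 0| ≤
      |K| * ∑ p : Σ a, J a, ∏ q ∈ TT phi c p.1, η p.1 p.2 (D.a q) := by
    intro c
    have h4 : 0 ≤ ∑ p : Σ a, J a, ∏ q ∈ TT phi c p.1, η p.1 p.2 (D.a q) :=
      sum_nonneg fun p _ => prod_nonneg fun q _ => h0 _ _ _
    split_ifs with hc
    · rw [sub_zero]
      refine (hf c hc).trans ?_
      rw [Fintype.sum_sigma] at h4 ⊢
      exact mul_le_mul_of_nonneg_right (le_abs_self K) h4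
    · rw [abs_zero]
      exact mul_nonneg (abs_nonneg _) h4
  rw [zero_mul, sub_zero]
  refine (abs_sm1_le _ X).trans ((sm1_mono hF X).trans ?_)
  rw [sm1_smul, sm1_sum]
  have hY := Yh_nonneg (hI I) X
  have hN' := NN_nonneg ι (hI I) X
  calc |K| * ∑ p : Σ a, J a, sm1 (fun c : I → Finset ι => ∏ q ∈ TT phi c p.1, η p.1 p.2 (D.a q)) X
      ≤ |K| * ∑ _p : Σ a, J a, ε' * Yh (hI I) X :=
        mul_le_mul_of_nonneg_left (sum_le_sum fun p _ => h10 p) (abs_nonneg _)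
    _ = (|K| * (n * ε')) * Yh (hI I) X := by
        rw [sum_const, card_univ, nsmul_eq_mul, ← hn]
        ring
    _ ≤ ε * Yh (hI I) X := mul_le_mul_of_nonneg_right hε2 hY
    _ ≤ ε * (NN ι (hI I) X + Yh (hI I) X) := by
        refine mul_le_mul_of_nonneg_left ?_ hε.le
        linarith

end

end Pool.Agent.Lib.MP_1a91b9_ntMN.G4
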