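import Pool.Agent.Lib.MP_1a91b9_ntMQ.X21
import Pool.Agent.Lib.MP_1a91b9_ntMN.NBf
import Pool.Agent.Lib.MP_1a91b9_ntMN.X8

/-!
# MP_1a91b9_nt (extensions ordered by the ramified primes), `ℚ(i)`: from the classes of the products to the shares
-/

set_option autoImplicit false
set_option linter.unusedSectionVars false

namespace Pool.Agent.Lib.MP_1a91b9_ntMN.G4

open Finset Pool.Agent.Lib.MP_1a91b9_ntH Pool.Agent.Lib.MP_1a91b9_ntQ Pool.Agent.Lib.MP_1a91b9_ntQ.Da
  Pool.Agent.Lib.MP_1a91b9_ntQ.M Pool.Agent.Lib.MP_1a91b9_ntM Pool.Agent.Lib.MP_1a91b9_ntM.E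
open Pool.Agent.Lib.MP_1a91b9_ntDV Pool.Agent.Lib.MP_1a91b9_ntDV.G4 Pool.Agent.Lib.MP_1a91b9_ntMQ
  Pool.Agent.Lib.MP_1a91b9_ntMQ.G4 Pool.Agent.Lib.MP_1a91b9_ntMN

noncomputable section

section Up

variable {ι : Type} [DecidableEq ι] {B : Finset ι} {r : ℕ}

/-- The families outside `B`, for one union. -/
theorem sum_covF_up (P : (Fin r → Finset ι) → Prop) [DecidablePred P] (S₀ : Finset (Off B)) :
    ∑ c ∈ covF (Fin r) S₀, (if P (fun i => up (c i)) then (1 : ℝ) else 0) =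
      (((cov r (up S₀)).filter P).card : ℝ) := by
  rw [← sum_filter, sum_const, nsmul_eq_mul, mul_one]
  refine congrArg (fun n : ℕ => (n : ℝ)) ?_
  refine card_bij (fun T _ => fun i => up (T i)) ?_ ?_ ?_
  · intro T hT
    obtain ⟨hT1, hT2⟩ := mem_filter.1 hT
    refine mem_filter.2 ⟨mem_cov.2 ?_, hT2⟩
    rw [mem_covF] at hT1
    ext q
    rw [mem_biUnion, ← hT1]
    constructor
    · rintro ⟨i, -, hi⟩
      obtain ⟨h1, h2⟩ := mem_up.1 hi
      exact mem_up.2 ⟨h1, mem_biUnion.2 ⟨i, mem_univ _, h2⟩⟩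
    · intro hq
      obtain ⟨h1, h2⟩ := mem_up.1 hq
      obtain ⟨i, -, hi⟩ := mem_biUnion.1 h2
      exact ⟨i, mem_univ _, mem_up.2 ⟨h1, hi⟩⟩
  · intro T _ T' _ hTT
    funext i
    exact up_injective (congrFun hTT i)
  · intro U hU
    obtain ⟨hU1, hU2⟩ := mem_filter.1 hU
    rw [mem_cov] at hU1
    have hU3 : ∀ i, U i ⊆ up S₀ := fun i => by
      rw [← hU1]
      exact subset_biUnion_of_mem U (mem_univ i)
    have hU4 : ∀ i, Disjoint (U i) B := fun i => disjoint_of_subset_left (hU3 i) (disj_up S₀)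
    have hU5 : (fun i => up (dn B (U i))) = U := funext fun i => up_dn (hU4 i)
    refine ⟨fun i => dn B (U i), mem_filter.2 ⟨mem_covF.2 ?_, ?_⟩, hU5⟩
    · apply up_injective
      rw [← hU1]
      ext q
      rw [mem_up, mem_biUnion]
      constructor
      · rintro ⟨h1, h2⟩
        obtain ⟨i, -, hi⟩ := mem_biUnion.1 h2
        exact ⟨i, mem_univ _, mem_dn.1 hi⟩
      · rintro ⟨i, -, hi⟩
        have h1 : q ∉ B := fun h => (disjoint_left.1 (hU4 i)) hi h
        exact ⟨h1, mem_biUnion.2 ⟨i, mem_univ _, mem_dn.2 hi⟩⟩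
    · rw [hU5]
      exact hU2

variable [PS ι]

/-- Sums over the sets outside `B`. -/
theorem sum_Sx_up (f : Finset ι → ℝ) (X : ℕ) :
    ∑ S₀ ∈ Sx (Off B) X, f (up S₀) = ∑ S ∈ (Sx ι X).filter (fun S => Disjoint S B), f S := by
  refine sum_bij (fun S₀ _ => up S₀) ?_ ?_ ?_ ?_
  · intro S₀ h
    exact mem_filter.2 ⟨up_mem_Sx.2 h, disj_up S₀⟩
  · intro S₀ _ S₁ _ h
    exact up_injective h
  · intro S hS
    obtain ⟨h1, h2⟩ := mem_filter.1 hS
    refine ⟨dn B S, ?_, up_dn h2⟩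
    rw [← up_mem_Sx, up_dn h2]
    exact h1
  · intro S₀ _
    rfl

theorem sm1_up (P : (Fin r → Finset ι) → Prop) [DecidablePred P] (X : ℕ) :
    sm1 (fun c : Fin r → Finset (Off B) => if P (fun i => up (c i)) then (1 : ℝ) else 0) X =
      ∑ S ∈ (Sx ι X).filter (fun S => Disjoint S B), (((cov r S).filter P).card : ℝ) := by
  rw [← sum_Sx_up (B := B) (fun S => (((cov r S).filter P).card : ℝ)) X]
  unfold sm1
  exact sum_congr rfl fun S₀ _ => sum_covF_up P S₀

theorem NN_cov (r X : ℕ) : NN ι (hI (Fin r)) X = ∑ S ∈ Sx ι X, ((cov r S).card : ℝ) := by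
  unfold NN
  refine sum_congr rfl fun S _ => ?_
  rw [card_cov]
  unfold hI
  rw [Fintype.card_fin]
  push_cast
  rfl

theorem NN_off (h X : ℕ) : NN (Off B) h X ≤ NN ι h X := by
  unfold NN
  have h1 : ∑ S₀ ∈ Sx (Off B) X, (h : ℝ) ^ S₀.card = ∑ S₀ ∈ Sx (Off B) X, (h : ℝ) ^ (up S₀).card :=
    sum_congr rfl fun S₀ _ => by
      unfold up
      rw [card_map]
  rw [h1, sum_Sx_up (B := B) (fun S => (h : ℝ) ^ S.card) X]
  exact sum_le_sum_of_subset_of_nonneg (filter_subset _ _) fun S _ _ =>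
    pow_nonneg (Nat.cast_nonneg _) _

end Up

open Classical in
/-- **From the classes of the products to the shares.** -/
theorem covLI_PGn {ι : Type} [DecidableEq ι] [PS ι] {B : Finset ι} (hNB : NB ι) {C1 C2 : ℝ}
    (h1 : Cheb (Off B) C1) (h2 : Zt (Off B) C2) {r : ℕ} (hr : 1 ≤ r) {A : Type} [Fintype A]
    [DecidableEq A] {phi : A → Fin r → ZMod 2} (hs : Sp phi) {G : Type} [AddCommGroup G]
    [Fintype G] (cl : Off B → G) {H : Type} [AddCommGroup H] (cl' : ι → H) (π : G →+ H)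
    (hπ : ∀ q : Off B, π (cl q) = cl' q.1) (hsg : ∀ i : Fin r, ∃ a : A, ∀ c : Fin r → Finset (Off B),
      TT phi c a = c i) {v : ℝ} {Q : (Fin r → Finset ι) → Prop}
    (h : ∀ γ : A → G, ∃ (F : (Fin r → Finset (Off B)) → ℝ) (w : ℝ), PGn phi cl γ F w ∧ v ≤ w ∧
      (∀ c, F c ≤ 1) ∧ ∀ c : Fin r → Finset (Off B), ¬ EE phi c →
        (∀ a, ∑ q ∈ TT phi c a, cl q = γ a) → F c ≤ if Q (fun i => up (c i)) then 1 else 0) :
    CovLI cl' r B v Q := by
  have hne : Nonempty (Fin r) := ⟨⟨0, hr⟩⟩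
  choose F w hPG hv hF1 hF using h
  choose ai hai using hsg
  intro g ε hε
  obtain ⟨Γ, hΓ⟩ : ∃ Γ : Finset (A → G), Γ = univ.filter fun γ => ∀ i, π (γ (ai i)) = g i := ⟨_, rfl⟩
  obtain ⟨K, hK⟩ : ∃ K : (Fin r → Finset (Off B)) → ℝ, K = fun c => ∑ γ ∈ Γ,
      if ∀ a, ∑ q ∈ TT phi c a, cl q = γ a then F γ c - w γ else 0 := ⟨_, rfl⟩
  have hK0 : MV1 K 0 := by
    have key : ∀ s : Finset (A → G), MV1 (fun c : Fin r → Finset (Off B) => ∑ γ ∈ s,
        if ∀ a, ∑ q ∈ TT phi c a, cl q = γ a then F γ c - w γ else 0) 0 := by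
      intro s
      induction s using Finset.induction_on with
      | empty =>
        refine (MV1_const (0 : ℝ)).congr (fun T => ?_) rfl
        rw [sum_empty]
      | insert a s ha ih =>
        refine (MV1.add (hPG a : MV1 _ 0) ih).congr (fun T => ?_) (add_zero 0).symm
        rw [sum_insert ha]
    rw [hK]
    exact key Γ
  -- the class of the family
  obtain ⟨gc, hgc⟩ : ∃ gc : (Fin r → Finset (Off B)) → A → G, ∀ c a, gc c a =
      ∑ q ∈ TT phi c a, cl q := ⟨fun c a => ∑ q ∈ TT phi c a, cl q, fun _ _ => rfl⟩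
  have hcl : ∀ c : Fin r → Finset (Off B), Cl cl' g (fun i => up (c i)) ↔ gc c ∈ Γ := by
    intro c
    rw [hΓ, mem_filter, and_iff_right (mem_univ _)]
    refine forall_congr' fun i => ?_
    rw [hgc, hai, map_sum, sum_up]
    exact Eq.congr (sum_congr rfl fun q _ => (hπ q).symm) rfl
  have hval : ∀ c, K c = if gc c ∈ Γ then F (gc c) c - w (gc c) else 0 := by
    intro c
    rw [hK]
    show (∑ γ ∈ Γ, if ∀ a, ∑ q ∈ TT phi c a, cl q = γ a then F γ c - w γ else 0) = _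
    have e1 : ∀ γ : A → G, (∀ a, ∑ q ∈ TT phi c a, cl q = γ a) ↔ γ = gc c := by
      intro γ
      constructor
      · intro h
        funext a
        rw [hgc]
        exact (h a).symm
      · intro h a
        rw [h, hgc]
    by_cases hc : gc c ∈ Γ
    · rw [if_pos hc, sum_eq_single (gc c)]
      · exact if_pos ((e1 _).2 rfl)
      · intro γ _ hγ
        exact if_neg fun h => hγ ((e1 _).1 h)
      · intro h
        exact absurd hc h
    · rw [if_neg hc]
      refine sum_eq_zero fun γ hγ => if_neg fun h => hc ?_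
      rw [← (e1 _).1 h]
      exact hγ
  have hpt : ∀ c : Fin r → Finset (Off B), K c +
      v * (if Cl cl' g (fun i => up (c i)) then (1 : ℝ) else 0) ≤
      (if Cl cl' g (fun i => up (c i)) ∧ Q (fun i => up (c i)) then (1 : ℝ) else 0) +
        (if EE phi c then (1 : ℝ) else 0) := by
    intro c
    rw [hval]
    by_cases hc : gc c ∈ Γ
    · rw [if_pos hc, if_pos ((hcl c).2 hc), mul_one]
      have h3 := hv (gc c)
      by_cases hE : EE phi c
      · rw [if_pos hE]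
        have h4 := hF1 (gc c) c
        have h5 : (0 : ℝ) ≤ if Cl cl' g (fun i => up (c i)) ∧ Q (fun i => up (c i)) then (1 : ℝ)
          else 0 := by
          split_ifs <;> norm_num
        linarith
      · rw [if_neg hE, add_zero]
        have h4 := hF (gc c) c hE fun a => (hgc c a).symm
        by_cases hQ : Q (fun i => up (c i))
        · rw [if_pos ⟨(hcl c).2 hc, hQ⟩]
          rw [if_pos hQ] at h4
          linarith
        · rw [if_neg fun h => hQ h.2]
          rw [if_neg hQ] at h4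
          linarith
    · rw [if_neg hc, if_neg fun h => hc ((hcl c).1 h), mul_zero, add_zero]
      have h5 : (0 : ℝ) ≤ if Cl cl' g (fun i => up (c i)) ∧ Q (fun i => up (c i)) then (1 : ℝ)
        else 0 := by
        split_ifs <;> norm_num
      have h6 : (0 : ℝ) ≤ if EE phi c then (1 : ℝ) else 0 := by
        split_ifs <;> norm_num
      linarith
  -- the order of magnitude
  obtain ⟨c₀, C₀, hc₀, X₁, hX₁⟩ := hNB r hr
  obtain ⟨δ, hδ⟩ : ∃ δ : ℝ, δ = ε / (1 + 2 / c₀) := ⟨_, rfl⟩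
  have hδ0 : 0 < δ := by
    rw [hδ]
    positivity
  obtain ⟨X₂, hX₂⟩ := (mv1_iff.1 hK0) δ hδ0
  obtain ⟨X₃, hX₃⟩ := ee_small (I := Fin r) h1 h2 hs δ hδ0
  refine ⟨X₁ + X₂ + X₃, fun X hX => ?_⟩
  have e1 := (hX₁ X (by omega)).1
  have e2 := hX₂ X (by omega)
  have e3 := hX₃ X (by omega)
  obtain ⟨N, hN⟩ : ∃ N : ℝ, N = ∑ S ∈ Sx ι X, ((cov r S).card : ℝ) := ⟨_, rfl⟩
  rw [← hN] at e1 ⊢
  have hY : Yh (hI (Fin r)) X ≤ N / c₀ := by
    rw [le_div_iff₀ hc₀]
    refine le_trans (le_of_eq ?_) e1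
    unfold Yh hI
    rw [Fintype.card_fin, Nat.sub_sub]
    ring
  have hN2 : NN (Off B) (hI (Fin r)) X ≤ N := by
    rw [hN, ← NN_cov]
    exact NN_off _ _
  have e4 := sm1_mono hpt X
  rw [sm1_add, sm1_add, sm1_smul] at e4
  have e5 : sm1 (fun c : Fin r → Finset (Off B) =>
      if Cl cl' g (fun i => up (c i)) then (1 : ℝ) else 0) X =
      ∑ S ∈ (Sx ι X).filter (fun S => Disjoint S B), (((cov r S).filter (Cl cl' g)).card : ℝ) :=
    sm1_up (Cl cl' g) X
  have e6 : sm1 (fun c : Fin r → Finset (Off B) =>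
      if Cl cl' g (fun i => up (c i)) ∧ Q (fun i => up (c i)) then (1 : ℝ) else 0) X =
      ∑ S ∈ (Sx ι X).filter (fun S => Disjoint S B),
        (((cov r S).filter fun T => Cl cl' g T ∧ Q T).card : ℝ) :=
    sm1_up (fun T => Cl cl' g T ∧ Q T) X
  rw [e5, e6] at e4
  rw [zero_mul, sub_zero] at e2
  have e7 := (abs_le.1 e2).1
  have e8 : δ * (1 + 2 / c₀) = ε := by
    rw [hδ]
    field_simp
  have e9 : δ * (NN (Off B) (hI (Fin r)) X + Yh (hI (Fin r)) X) + δ * Yh (hI (Fin r)) X ≤ ε * N := by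
    calc δ * (NN (Off B) (hI (Fin r)) X + Yh (hI (Fin r)) X) + δ * Yh (hI (Fin r)) X
        ≤ δ * (N + N / c₀) + δ * (N / c₀) := by
          refine add_le_add ?_ (mul_le_mul_of_nonneg_left hY hδ0.le)
          exact mul_le_mul_of_nonneg_left (add_le_add hN2 hY) hδ0.le
      _ = δ * (1 + 2 / c₀) * N := by ring
      _ = ε * N := by rw [e8]
  linarith

end

end Pool.Agent.Lib.MP_1a91b9_ntMN.G4
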