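import Pool.Agent.Lib.MP_1a91b9_ntM.E.Main8X
import Pool.Agent.Lib.MP_1a91b9_ntMQ.X23
import Pool.Agent.Lib.MP_1a91b9_ntMN.RU0
import Pool.Agent.Lib.MP_1a91b9_ntMN.X12
import Pool.Agent.Lib.MP_1a91b9_ntMN.X13

/-!
# MP_1a91b9_nt (extensions ordered by the ramified primes), `ℚ(i)`: the joint law for the covering tuples
-/

set_option autoImplicit false
set_option linter.unusedSectionVars false

namespace Pool.Agent.Lib.MP_1a91b9_ntMN.G4

open NumberField Finset Pool.Agent.Lib.MP_1a91b9_ntH Pool.Agent.Lib.MP_1a91b9_ntQ Pool.Agent.Lib.MP_1a91b9_ntQ.Da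
  Pool.Agent.Lib.MP_1a91b9_ntQ.M Pool.Agent.Lib.MP_1a91b9_ntM Pool.Agent.Lib.MP_1a91b9_ntM.E
open Pool.Agent.Lib.MP_1a91b9_ntDV Pool.Agent.Lib.MP_1a91b9_ntDV.G4 Pool.Agent.Lib.MP_1a91b9_ntMQ
  Pool.Agent.Lib.MP_1a91b9_ntMQ.G4 Pool.Agent.Lib.MP_1a91b9_ntMN
open Pool.Agent.Lib.MP_1a91b9_ntZ (Atl bn bts bts_zero bts_empty_succ bts_insert_succ bts_mono
  bts_ind bts_const)

noncomputable section

/-! ### The projections of the class groups -/

private theorem X14_cong {m m' : ℕ} (h : m ≤ m') {x y : 𝓞 K4} (hx : In4 x) (hy : In4 y)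
    (e : gcl m' x hx = gcl m' y hy) : gcl m x hx = gcl m y hy := by
  rw [gcl_eq_iff] at e ⊢
  exact (pow_dvd_pow _ (by omega)).trans e

/-- The projection of the classes modulo `lam ^ (m' + 5)` to the classes modulo `lam ^ (m + 5)`. -/
def pj {m m' : ℕ} (h : m ≤ m') : G4n m' →+ G4n m where
  toFun g := gcl m (gcl_surj m' g).choose (gcl_surj m' g).choose_spec.choose
  map_zero' := by
    rw [← gcl_one m]
    refine X14_cong h _ _ ?_
    rw [(gcl_surj m' 0).choose_spec.choose_spec, gcl_one]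
  map_add' a b := by
    rw [← gcl_mul m (gcl_surj m' a).choose_spec.choose (gcl_surj m' b).choose_spec.choose]
    refine X14_cong h _ _ ?_
    rw [(gcl_surj m' (a + b)).choose_spec.choose_spec,
      gcl_mul m' (gcl_surj m' a).choose_spec.choose (gcl_surj m' b).choose_spec.choose,
      (gcl_surj m' a).choose_spec.choose_spec, (gcl_surj m' b).choose_spec.choose_spec]

theorem pj_gcl {m m' : ℕ} (h : m ≤ m') {x : 𝓞 K4} (hx : In4 x) :
    pj h (gcl m' x hx) = gcl m x hx :=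
  X14_cong h _ _ (gcl_surj m' (gcl m' x hx)).choose_spec.choose_spec

/-! ### The case of the empty tuples -/

theorem covLI_zero {I : Type} [Fintype I] {H : Type} [AddCommGroup H]
    {cl' : Pool.Agent.Lib.MP_1a91b9_ntQ.Pg → H} {B : Finset Pool.Agent.Lib.MP_1a91b9_ntQ.Pg} {t : ℕ}
    {v : ℝ} (hv0 : 0 ≤ v) (hv : ∀ _b : I, v ≤ 1) {r : ℕ}
    {Q : (Fin r → Finset Pool.Agent.Lib.MP_1a91b9_ntQ.Pg) → I → Prop} (hQ : ∀ T b, Q T b) :
    CovLI cl' r B (bn (Fintype.card I) t v) fun T => Atl t fun b => Q T b := by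
  classical
  have hA : ∀ T, Atl t (fun b => Q T b) ↔ t ≤ Fintype.card I := by
    intro T
    unfold Atl
    rw [filter_true_of_mem fun b _ => hQ T b, card_univ]
  have hb : ∀ (g : Fin r → H) (S : Finset Pool.Agent.Lib.MP_1a91b9_ntQ.Pg),
      bn (Fintype.card I) t v * (((cov r S).filter (Cl cl' g)).card : ℝ) ≤
      (((cov r S).filter fun T => Cl cl' g T ∧ Atl t fun b => Q T b).card : ℝ) := by
    intro g S
    rcases le_or_gt t (Fintype.card I) with h3 | h3
    · have h4 : bn (Fintype.card I) t v ≤ 1 := by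
        rcases isEmpty_or_nonempty I with h5 | ⟨⟨b⟩⟩
        · rw [Fintype.card_eq_zero] at h3 ⊢
          rw [Nat.le_zero.1 h3]
          unfold bn
          simp
        · exact bn_le_one hv0 (hv b) _ _
      have h5 : (cov r S).filter (Cl cl' g) ⊆
          (cov r S).filter fun T => Cl cl' g T ∧ Atl t fun b => Q T b := fun T hT =>
        mem_filter.2 ⟨(mem_filter.1 hT).1, (mem_filter.1 hT).2, (hA T).2 h3⟩
      have h6 : (((cov r S).filter (Cl cl' g)).card : ℝ) ≤
          (((cov r S).filter fun T => Cl cl' g T ∧ Atl t fun b => Q T b).card : ℝ) := by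
        exact_mod_cast card_le_card h5
      exact (mul_le_of_le_one_left (Nat.cast_nonneg _) h4).trans h6
    · have h4 : bn (Fintype.card I) t v = 0 := by
        unfold bn
        rw [Icc_eq_empty (not_le.2 h3), sum_empty]
      rw [h4, zero_mul]
      exact Nat.cast_nonneg _
  intro g ε hε
  refine ⟨0, fun X _ => ?_⟩
  have h7 : 0 ≤ ε * ∑ S ∈ Sx Pool.Agent.Lib.MP_1a91b9_ntQ.Pg X, ((cov r S).card : ℝ) :=
    mul_nonneg hε.le (sum_nonneg fun _ _ => Nat.cast_nonneg _)
  have h8 := sum_le_sum fun S (_ : S ∈ (Sx Pool.Agent.Lib.MP_1a91b9_ntQ.Pg X).filter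
    fun S => Disjoint S B) => hb g S
  rw [← mul_sum] at h8
  linarith

private theorem X14_sg {ι : Type} [DecidableEq ι] {r : ℕ} (i : Fin r) (T : Fin r → Finset ι) :
    sdJ {i} T = T i := by
  ext x
  rw [mem_sdJ]
  by_cases h : x ∈ T i
  · rw [filter_singleton, if_pos h, card_singleton]
    exact ⟨fun _ => h, fun _ => odd_one⟩
  · rw [filter_singleton, if_neg h, card_empty]
    exact ⟨fun h1 => absurd h1 (by decide), fun h1 => absurd h1 h⟩

/-- **The binomial law for the blocks of labels over `ℚ(i)`, for the covering tuples.** -/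
theorem jbi4 : Pool.Agent.Lib.MP_1a91b9_ntMN.JBI4 := by
  classical
  intro m r A _ _ I _ _ bl x f P hdj hP hf hpw t v hv0 hv
  rcases Nat.eq_zero_or_pos r with hr | hr
  · subst hr
    refine covLI_zero (Q := fun T b => ∀ J : Finset (Fin 0), J.Nonempty → ∀ i, bl J i = b →
      GdX (x J i) (sdJ J T) ∧ (f J i = true → GdX (x J i).inv (sdJ J T))) hv0
      (fun b => (hv b).trans (le_of_eq (prod_eq_one fun J hJ => ?_))) ?_
    · obtain ⟨i, _⟩ := (mem_filter.1 hJ).2
      exact Fin.elim0 i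
    · rintro T b J ⟨i, _⟩
      exact Fin.elim0 i
  have hne : Nonempty (Fin r) := ⟨⟨0, hr⟩⟩
  obtain ⟨m₀, h0⟩ := oneX trX1 trX2 trSq
  obtain ⟨m', hm'⟩ : ∃ m' : ℕ, m' = max m₀ m := ⟨_, rfl⟩
  have hm0 : m₀ ≤ m' := by
    rw [hm']
    exact le_max_left _ _
  have hmm : m ≤ m' := by
    rw [hm']
    exact le_max_right _ _
  obtain ⟨C1, hC1⟩ := (OK_off d4_OK P).cheb
  obtain ⟨C2, hC2⟩ := (OK_off d4_OK P).zt
  refine covLI_PGn (B := P) nb4 hC1 hC2 hr (sp_phJ r) (CclB m' P).cl (clq m)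
    ((pj hmm).comp (AddMonoidHom.fst _ _)) (fun q => pj_gcl hmm q.1.in4)
    (fun i => ⟨⟨{i}, singleton_nonempty i⟩, fun c => by rw [TT_phJ, X14_sg]⟩) fun γ => ?_
  choose E i1 i2 Pm R z b hb hR hz hzf hX using
    fun (a : {J : Finset (Fin r) // J.Nonempty}) (i : A a.1) =>
      h0 m' hm0 P (x a.1 i) (f a.1 i) (hdj a.1 i) (hP a.1 i) (hf a.1 i) (γ a)
  have hF : ∀ a : {J : Finset (Fin r) // J.Nonempty},
      FamX (fun i => cX P (x a.1 i)) (fun i => sX P (x a.1 i)) (Pm a) (R a) := by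
    intro a
    refine ⟨fun i i' hii hc => ⟨fun hs => ?_, fun hs => ?_⟩, hb a, hR a⟩
    · refine (hpw a.1 a.2 i i' hii).1 (sX_inj (hdj a.1 i) (hP a.1 i) (hdj a.1 i') (hP a.1 i') hc ?_)
      funext j
      have h4 := congrFun hs j
      simp only [Pi.add_apply, Pi.zero_apply] at h4
      have h5 := eq_neg_of_add_eq_zero_left h4
      rw [z2_neg] at h5
      exact h5
    · exact (hpw a.1 a.2 i i' hii).2
        (sX_inv (hdj a.1 i) (hP a.1 i) (hdj a.1 i') (hP a.1 i') hc hs)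
  have hcp := cinf2_posX
  have hv' : ∀ c, v ≤ ∏ a : {J : Finset (Fin r) // J.Nonempty},
      ∏ i ∈ univ.filter (fun i => bl a.1 i = c),
      (if (z a i).isSome = true then cinf2 / 2 else cinf2) := by
    intro c
    have h1 : ∏ J ∈ (univ : Finset (Finset (Fin r))).filter Finset.Nonempty,
        ∏ a ∈ univ.filter (fun a => bl J a = c), (if f J a = true then cinf2 / 2 else cinf2) =
        ∏ a : {J : Finset (Fin r) // J.Nonempty}, ∏ i ∈ univ.filter (fun i => bl a.1 i = c),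
        (if f a.1 i = true then cinf2 / 2 else cinf2) :=
      prod_subtype _ (fun J => by rw [mem_filter, and_iff_right (mem_univ J)]) fun J =>
        ∏ a ∈ univ.filter (fun a => bl J a = c), (if f J a = true then cinf2 / 2 else cinf2)
    refine (hv c).trans ((le_of_eq h1).trans ?_)
    refine prod_le_prod (fun a _ => prod_nonneg fun i _ => ?_) fun a _ =>
      prod_le_prod (fun i _ => ?_) fun i _ => ?_
    · split_ifs <;> linarith
    · split_ifs <;> linarith
    · by_cases h5 : (z a i).isSome = true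
      · rw [if_pos h5, if_pos (hzf a i h5)]
      · rw [if_neg h5]
        split_ifs <;> linarith
  obtain ⟨F, w, hPG, hw, hle⟩ := pgn_atl (sp_phJ r) (OK_off d4_OK P) (nv_off d4_nv P)
    (ρX_zero P) hF z b hz (CclB m' P) γ (cinf2_le_half.trans (by norm_num)) (fun a => bl a.1) t
    hv0 hv'
  refine ⟨F, w, hPG, hw, fun c => (hle c).trans ?_, fun c hEE hγ => (hle c).trans ?_⟩
  · split_ifs <;> norm_num
  have hα : ∀ (a : {J : Finset (Fin r) // J.Nonempty}) (j),
      ∑ q ∈ TT (phJ r) c a, (d4.off P).a q j = (fun j => (CclB m' P).A j (γ a)) j := by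
    intro a j
    show _ = (CclB m' P).A j (γ a)
    rw [← hγ a, map_sum]
    exact sum_congr rfl fun q _ => (CclB m' P).ha q j
  by_cases hev : Atl t (fun β => ∀ (a : {J : Finset (Fin r) // J.Nonempty}) (i : A a.1),
      bl a.1 i = β →
      (nX (d4.off P) (ρX P) (fun i => cX P (x a.1 i)) (fun i => sX P (x a.1 i)) (Pm a) (R a)
        (fun j => (CclB m' P).A j (γ a)) i (TT (phJ r) c a) = 1 ∧
        ∀ e, z a i = some e → k2X (d4.off P) (ρX P) (fun i => cX P (x a.1 i))
          (fun i => sX P (x a.1 i)) (Pm a) (R a) (b a) i e (TT (phJ r) c a) = 1))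
  · have hQ : Atl t fun β => ∀ J : Finset (Fin r), J.Nonempty → ∀ i, bl J i = β →
        GdX (x J i) (sdJ J fun i => up (c i)) ∧
          (f J i = true → GdX (x J i).inv (sdJ J fun i => up (c i))) := by
      refine Atl.mono (fun β hβ J hJ i hi => ?_) hev
      have hup : sdJ J (fun i => up (c i)) = up (TT (phJ r) c ⟨J, hJ⟩) := by
        rw [up_TT, TT_phJ]
      rw [hup]
      have hT : TT (phJ r) c ⟨J, hJ⟩ ≠ ∅ := fun h => hEE ⟨_, h⟩
      obtain ⟨h4, h5⟩ := hβ ⟨J, hJ⟩ i hi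
      have h6 := kX_mul (D := d4.off P) (ρ := ρX P) (ρX_zero P) (fun i => cX P (x J i))
        (fun i => sX P (x J i)) (Pm ⟨J, hJ⟩) (R ⟨J, hJ⟩)
        (α := fun j => (CclB m' P).A j (γ ⟨J, hJ⟩)) i hT (hα ⟨J, hJ⟩)
      rw [h4, mul_one] at h6
      refine hX ⟨J, hJ⟩ i (TT (phJ r) c ⟨J, hJ⟩) hT (hγ ⟨J, hJ⟩)
        (tX (fun i => cX P (x J i)) (fun i => sX P (x J i)) (Pm ⟨J, hJ⟩) (R ⟨J, hJ⟩)
        (fun j => (CclB m' P).A j (γ ⟨J, hJ⟩)) i) (fun h7 => ?_) (fun h7 => ?_) h6 fun e he => ?_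
      · by_contra h8
        unfold tX at h7
        rw [if_neg h8] at h7
        exact absurd h7 (by decide)
      · have h8 := (tX_cases (fun i => cX P (x J i)) (fun i => sX P (x J i)) (Pm ⟨J, hJ⟩)
          (R ⟨J, hJ⟩) (fun j => (CclB m' P).A j (γ ⟨J, hJ⟩)) i).resolve_right h7
        refine ⟨h8, fun h9 => ?_⟩
        unfold tX at h7
        exact h7 (if_pos h9)
      · have h7 := h5 e he
        unfold k2X at h7
        exact h7
    rw [if_pos hQ]
    split_ifs
    exact le_rfl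
  · refine (le_of_eq (if_neg hev)).trans ?_
    split_ifs <;> norm_num

end

end Pool.Agent.Lib.MP_1a91b9_ntMN.G4
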