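import Pool.Agent.Lib.MP_1a91b9_ntMN.E0
import Pool.Agent.Lib.MP_1a91b9_ntMQ.K7
import Pool.Agent.Lib.MP_1a91b9_ntMQ.A5

/-!
K7: the labels with a colour different from zero
-/

set_option autoImplicit false
set_option linter.unusedSectionVars false

namespace Pool.Agent.Lib.MP_1a91b9_ntMN

open Finset Pool.Agent.Lib.MP_1a91b9_ntH Pool.Agent.Lib.MP_1a91b9_ntQ
open Pool.Agent.Lib.MP_1a91b9_ntQ.Da Pool.Agent.Lib.MP_1a91b9_ntV Pool.Agent.Lib.MP_1a91b9_ntM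
open Pool.Agent.Lib.MP_1a91b9_ntDV Pool.Agent.Lib.MP_1a91b9_ntMQ

noncomputable section

variable {I A : Type} [Fintype I] [DecidableEq I] [Fintype A] [DecidableEq A] {k : A → ℕ}
  {phi : A → I → ZMod 2}

/-- The label with the colour zero. -/
def z00 (phi : A → I → ZMod 2) (k : A → ℕ) : Lb phi k := ⟨(0, fun _ => 0), fun _ _ => rfl⟩

private theorem K7_dp (a : A) : phi a ⬝ᵥ (z00 phi k).1.1 = 0 := dotProduct_zero _

private def K7_up (Z : Finset (Lc phi k)) : Finset (Lb phi k) :=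
  insert (z00 phi k) (Z.image Subtype.val)

private theorem K7_mem {Z : Finset (Lc phi k)} {z : Lb phi k} :
    z ∈ K7_up Z ↔ z = z00 phi k ∨ ∃ y ∈ Z, y.1 = z := by
  unfold K7_up
  rw [mem_insert, mem_image]
  exact Iff.rfl

private theorem K7_rs_up (Z : Finset (Lc phi k)) : rs (K7_up Z) = Z := by
  ext z
  rw [mem_rs, K7_mem]
  constructor
  · rintro (h | ⟨y, hy, h⟩)
    · exact absurd (congrArg (fun y : Lb phi k => y.1.1) h) z.2
    · rwa [← Subtype.ext h]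
  · exact fun h => Or.inr ⟨z, h, rfl⟩

/-- **K7a** (easy). Proof: `z.2 a` for every `a` (`phi a ⬝ᵥ 0 = 0`, `dotProduct_zero`), `Subtype.ext`, `Prod.ext`. -/
theorem eq_z00 {z : Lb phi k} (h : z.1.1 = 0) : z = z00 phi k := by
  refine Subtype.ext (Prod.ext h (funext fun a => ?_))
  refine z.2 a ?_
  rw [h]
  exact dotProduct_zero _

/-- **K7b** (easy). Proof: `mem_UsL`, `mem_UL`; `phi a ⬝ᵥ 0 = 0 ≠ 1`. -/
theorem z00_mem {V : Finset (Lb phi k)} (hV : V ∈ UsL phi k) : z00 phi k ∈ V := by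
  obtain ⟨V, hV, rfl⟩ := mem_UsL.1 hV
  refine mem_UL.2 fun a ha => ?_
  have ha' : phi a ⬝ᵥ (z00 phi k).1.1 = 1 := ha
  rw [K7_dp] at ha'
  exact absurd ha' zero_ne_one

private theorem K7_up_rs {V : Finset (Lb phi k)} (hV : V ∈ UsL phi k) : K7_up (rs V) = V := by
  ext z
  rw [K7_mem]
  constructor
  · rintro (rfl | ⟨y, hy, rfl⟩)
    · exact z00_mem hV
    · exact mem_rs.1 hy
  · intro h
    by_cases hz : z.1.1 = 0
    · exact Or.inl (eq_z00 hz)
    · exact Or.inr ⟨⟨z, hz⟩, mem_rs.2 h, rfl⟩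

/-- **K7c** (easy+). Proof: `V = insert z00 (image Subtype.val (rs V))` for `V ∈ UsL` (`eq_z00`, `z00_mem`, `mem_rs`). -/
theorem rs_inj {V V' : Finset (Lb phi k)} (hV : V ∈ UsL phi k) (hV' : V' ∈ UsL phi k)
    (h : rs V = rs V') : V = V' := by
  rw [← K7_up_rs hV, h, K7_up_rs hV']

/-- **K7d** (easy+). Proof: `PL_unl` (MP_1a91b9_ntMQ/A5.lean). -/
theorem PLc_unl {U : Finset (Lc phi k)} (hU : U ∈ UsLc phi k) :
    ∀ z ∈ U, ∀ y ∈ U, PLc phi k z y = 0 := by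
  obtain ⟨V, hV, rfl⟩ := mem_UsLc.1 hU
  exact fun z hz y hy => PL_unl hV z.1 (mem_rs.1 hz) y.1 (mem_rs.1 hy)

private theorem K7_nL (z : Lc phi k) : nLc z = 2 ^ Fintype.card I * nL z.1 := by
  unfold nLc nL
  rw [← mul_assoc, mul_inv_cancel₀ (by positivity), one_mul]

private theorem K7_nz : nL (z00 phi k) = ((2 : ℝ) ^ Fintype.card I)⁻¹ := by
  unfold nL
  rw [prod_eq_one, mul_one]
  intro a _
  rw [K7_dp, if_neg zero_ne_one]

private theorem K7_not {Z : Finset (Lc phi k)} : z00 phi k ∉ Z.image Subtype.val := by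
  intro h
  obtain ⟨z, -, hz⟩ := mem_image.1 h
  exact z.2 (congrArg (fun y : Lb phi k => y.1.1) hz)

private theorem K7_sum (Z : Finset (Lc phi k)) :
    ∑ z ∈ Z, nLc z = 2 ^ Fintype.card I * ∑ z ∈ K7_up Z, nL z - 1 := by
  unfold K7_up
  rw [sum_insert K7_not, sum_image fun _ _ _ _ h => Subtype.ext h, K7_nz, mul_add,
    mul_inv_cancel₀ (by positivity), mul_sum, add_sub_cancel_left]
  exact sum_congr rfl fun z _ => K7_nL z

private theorem K7_hI : ((hI I : ℕ) : ℝ) = 2 ^ Fintype.card I - 1 := by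
  have h1 : 1 ≤ 2 ^ Fintype.card I := Nat.one_le_two_pow
  unfold hI
  rw [Nat.cast_sub h1]
  push_cast
  rfl

/-- **K7e** (medium-). The weights of a maximal set have the sum `2 ^ #I - 1`. Proof: `∑ z ∈ V, nL z = 1` (`sum_nL`, MP_1a91b9_ntMQ/K7.lean; `mem_UsL`),
`nL z = (2 ^ #I)⁻¹ * nLc z` for a colour different from zero, `nL z00 = (2 ^ #I)⁻¹`. -/
theorem sum_nLc {U : Finset (Lc phi k)} (hU : U ∈ UsLc phi k) : ∑ z ∈ U, nLc z = hI I := by
  obtain ⟨V, hV, rfl⟩ := mem_UsLc.1 hU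
  have h1 : ∑ z ∈ V, nL z = 1 := by
    obtain ⟨W, hW, rfl⟩ := mem_UsL.1 hV
    exact sum_nL hW
  rw [K7_sum, K7_up_rs hV, h1, K7_hI, mul_one]

private theorem K7_QL (z : Lb phi k) : QL phi k (z00 phi k) z = 0 := by
  unfold QL
  exact sum_eq_zero fun a _ => by rw [K7_dp, zero_mul, zero_mul]

private theorem K7_QL' (z : Lb phi k) : QL phi k z (z00 phi k) = 0 := by
  unfold QL
  exact sum_eq_zero fun a _ => by rw [K7_dp, mul_zero, zero_mul]

/-- **K7f** (medium-). Proof: `sum_nL_le hs` (MP_1a91b9_ntMQ/K7.lean) for `insert z00 (Z.image Subtype.val)` (`PL_lk`; the links with `z00` are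
zero; if it is in `UsL` then `Z = rs ..` is in `UsLc`), and `2 ^ #I / ML ≥ 1 / ML`. -/
theorem sum_nLc_le (hs : Sp phi) {Z : Finset (Lc phi k)}
    (hZ : ∀ z ∈ Z, ∀ y ∈ Z, PLc phi k z y + PLc phi k y z = 0) (hn : Z ∉ UsLc phi k) :
    ∑ z ∈ Z, nLc z ≤ hI I - 1 / (ML I k : ℝ) := by
  have h1 : K7_up Z ∉ UsL phi k := fun h => hn (mem_UsLc.2 ⟨_, h, K7_rs_up Z⟩)
  have h2 : ∀ x ∈ K7_up Z, ∀ y ∈ K7_up Z, QL phi k x y = 0 := by
    intro x hx y hy
    rcases K7_mem.1 hx with rfl | ⟨x', hx', rfl⟩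
    · exact K7_QL y
    rcases K7_mem.1 hy with rfl | ⟨y', hy', rfl⟩
    · exact K7_QL' _
    rw [← PL_lk]
    exact hZ x' hx' y' hy'
  have h3 := sum_nL_le hs h2 h1
  have h4 : (1 : ℝ) ≤ 2 ^ Fintype.card I := one_le_pow₀ one_le_two
  have h5 : (0 : ℝ) ≤ 1 / (ML I k : ℝ) := by positivity
  rw [K7_sum, K7_hI]
  have h6 : (2 : ℝ) ^ Fintype.card I * ∑ z ∈ K7_up Z, nL z ≤
      2 ^ Fintype.card I * (1 - 1 / (ML I k : ℝ)) := mul_le_mul_of_nonneg_left h3 (by positivity)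
  have h7 : 1 / (ML I k : ℝ) ≤ 2 ^ Fintype.card I * (1 / (ML I k : ℝ)) :=
    le_mul_of_one_le_left h5 h4
  linarith

private theorem K7_ne {U : Finset (Lb phi k)} (hU : U ∈ UsL phi k) {z : Lb phi k} (hz : z ∉ U) :
    ∃ x ∈ U, ∃ x' ∈ U, x.1.1 = z.1.1 ∧ x'.1.1 = z.1.1 ∧ QL phi k x z ≠ QL phi k x' z := by
  obtain ⟨V, hV, rfl⟩ := mem_UsL.1 hU
  have h1 : ∃ a, phi a ⬝ᵥ z.1.1 = 1 ∧ z.1.2 a ∉ V a := by
    by_contra hcon
    push Not at hcon
    exact hz (mem_UL.2 hcon)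
  obtain ⟨a, ha, hza⟩ := h1
  have hne : ∀ b, (V b).Nonempty := fun b => by
    rw [← card_pos, (mem_UsN.1 (hV b)).2]
    positivity
  choose v hv using hne
  have h2 : ∃ l ∈ V a, ∃ l' ∈ V a, Q2 (l - z.1.2 a) ≠ Q2 (l' - z.1.2 a) := by
    by_contra hcon
    push Not at hcon
    exact hza (K2 (mem_UsN.1 (hV a)).1 (mem_UsN.1 (hV a)).2 (Q2 (v a - z.1.2 a))
      fun l hl => hcon l hl (v a) (hv a))
  obtain ⟨l, hl, l', hl', hll⟩ := h2
  have hm : ∀ l ∈ V a, mk phi k z.1.1 (Function.update v a l) ∈ UL phi k V := by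
    intro l hl
    refine mem_UL.2 fun b hb => ?_
    have hb' : phi b ⬝ᵥ z.1.1 = 1 := hb
    show (phi b ⬝ᵥ z.1.1) • Function.update v a l b ∈ V b
    rw [hb', one_smul]
    by_cases hba : b = a
    · subst hba
      rw [Function.update_self]
      exact hl
    · rw [Function.update_of_ne hba]
      exact hv b
  have hq : ∀ l, QL phi k (mk phi k z.1.1 (Function.update v a l)) z =
      Q2 (l - z.1.2 a) + ∑ b ∈ univ.erase a, (phi b ⬝ᵥ z.1.1) * (phi b ⬝ᵥ z.1.1) *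
        Q2 ((phi b ⬝ᵥ z.1.1) • v b - z.1.2 b) := by
    intro l
    unfold QL
    rw [← add_sum_erase univ _ (mem_univ a)]
    refine congrArg₂ (· + ·) ?_ (sum_congr rfl fun b hb => ?_)
    · show (phi a ⬝ᵥ z.1.1) * (phi a ⬝ᵥ z.1.1) *
        Q2 ((phi a ⬝ᵥ z.1.1) • Function.update v a l a - z.1.2 a) = _
      rw [ha, one_mul, one_mul, one_smul, Function.update_self]
    · show (phi b ⬝ᵥ z.1.1) * (phi b ⬝ᵥ z.1.1) *
        Q2 ((phi b ⬝ᵥ z.1.1) • Function.update v a l b - z.1.2 b) = _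
      rw [Function.update_of_ne (ne_of_mem_erase hb)]
  refine ⟨_, hm l hl, _, hm l' hl', rfl, rfl, ?_⟩
  rw [hq, hq]
  exact fun h => hll (add_right_cancel h)

/-- **K7g** (easy+). Two labels of the same colour with different links. Proof: copy `exists_ne` (MP_1a91b9_ntMQ/K7.lean): both labels there are
`mk phi k z.1.1 ..`, with the colour of `z`, which is different from zero. -/
theorem exists_nec {U : Finset (Lc phi k)} (hU : U ∈ UsLc phi k) {z : Lc phi k} (hz : z ∉ U) :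
    ∃ x ∈ U, ∃ x' ∈ U, colc x = colc x' ∧
      PLc phi k x z + PLc phi k z x ≠ PLc phi k x' z + PLc phi k z x' := by
  obtain ⟨V, hV, rfl⟩ := mem_UsLc.1 hU
  have hm' : z.1 ∉ V := fun h => hz (mem_rs.2 h)
  obtain ⟨x, hx, x', hx', h1, h2, h3⟩ := K7_ne hV hm'
  have hx0 : x.1.1 ≠ 0 := by
    rw [h1]
    exact z.2
  have hx0' : x'.1.1 ≠ 0 := by
    rw [h2]
    exact z.2
  refine ⟨⟨x, hx0⟩, mem_rs.2 hx, ⟨x', hx0'⟩, mem_rs.2 hx', h1.trans h2.symm, ?_⟩
  show PL phi k x z.1 + PL phi k z.1 x ≠ PL phi k x' z.1 + PL phi k z.1 x'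
  rw [PL_lk, PL_lk]
  exact h3

/-- **K7h** (easy+). Every colour occurs. Proof: `mem_UsL`: `UL phi k V`, choose `v a ∈ V a` (`2 ^ k a` elements) and take `mk phi k w v`. -/
theorem exists_col {U : Finset (Lc phi k)} (hU : U ∈ UsLc phi k) {w : I → ZMod 2} (hw : w ≠ 0) :
    ∃ x ∈ U, colc x = w := by
  obtain ⟨V, hV, rfl⟩ := mem_UsLc.1 hU
  obtain ⟨W, hW, rfl⟩ := mem_UsL.1 hV
  have hne : ∀ b, (W b).Nonempty := fun b => by
    rw [← card_pos, (mem_UsN.1 (hW b)).2]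
    positivity
  choose v hv using hne
  have h1 : mk phi k w v ∈ UL phi k W := by
    refine mem_UL.2 fun b hb => ?_
    have hb' : phi b ⬝ᵥ w = 1 := hb
    show (phi b ⬝ᵥ w) • v b ∈ W b
    rw [hb', one_smul]
    exact hv b
  exact ⟨⟨mk phi k w v, hw⟩, mem_rs.2 h1, rfl⟩

/-- **K7i** (easy+). Proof: as `K7_WS` (MP_1a91b9_ntMQ/K7.lean) with K7d .. K7g; `pos`: `nLc z ≥ ∏ (2 ^ k a)⁻¹ ≥ 2 / ML I k`; `le_one`: all the
factors are at most `1`; `hp`: `one_le_hI`. -/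
theorem WS_Lc (hs : Sp phi) [Nonempty I] :
    WSh colc (PLc phi k) nLc (hI I) (ML I k) (UsLc phi k) where
  self := fun x => PL_self x.1
  pos := fun x => by
    have h0 := (WS_L (phi := phi) (k := k) hs).pos x.1
    refine h0.trans ?_
    rw [K7_nL]
    have h1 : (1 : ℝ) ≤ 2 ^ Fintype.card I := one_le_pow₀ one_le_two
    have h2 : 0 ≤ nL x.1 := le_trans (by positivity) h0
    exact le_mul_of_one_le_left h2 h1
  le_one := fun x => by
    unfold nLc
    refine prod_le_one (fun a _ => ?_) fun a _ => ?_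
    · split_ifs
      · positivity
      · exact zero_le_one
    · split_ifs
      · exact inv_le_one_of_one_le₀ (one_le_pow₀ one_le_two)
      · exact le_rfl
  two := (WS_L (phi := phi) (k := k) hs).two
  hp := one_le_hI I
  unl := fun U hU x hx y hy => by
    rw [PLc_unl hU x hx y hy, PLc_unl hU y hy x hx, add_zero]
  sum := fun U hU => sum_nLc hU
  small := fun Z hZ hn => sum_nLc_le hs hZ hn
  ex := fun U hU m hm => exists_nec hU hm

end

end Pool.Agent.Lib.MP_1a91b9_ntMN
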