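import Pool.Agent.Lib.MP_1a91b9_ntMN.Y14
import Pool.Agent.Lib.MP_1a91b9_ntMN.P10
import Pool.Agent.Lib.MP_1a91b9_ntMN.K7
import Pool.Agent.Lib.MP_1a91b9_ntMN.CTriv
import Pool.Agent.Lib.MP_1a91b9_ntMQ.Y15
import Pool.Agent.Lib.MP_1a91b9_ntM.E.Main8X

/-!
# MP_1a91b9_nt (multiquadratic fields, natural density): the joint law for blocks of labels, `ℚ(√-2)`
-/

set_option autoImplicit false
set_option linter.unusedSectionVars false

namespace Pool.Agent.Lib.MP_1a91b9_ntMN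

open Finset Pool.Agent.Lib.MP_1a91b9_ntH Pool.Agent.Lib.MP_1a91b9_ntQ
open Pool.Agent.Lib.MP_1a91b9_ntQ.Da Pool.Agent.Lib.MP_1a91b9_ntV Pool.Agent.Lib.MP_1a91b9_ntM
open Pool.Agent.Lib.MP_1a91b9_ntDV Pool.Agent.Lib.MP_1a91b9_ntMQ
open Pool.Agent.Lib.MP_1a91b9_ntW
open Pool.Agent.Lib.MP_1a91b9_ntV.DJ (cB)
open Pool.Agent.Lib.MP_1a91b9_ntR (GR finite_GR cq)
open Pool.Agent.Lib.MP_1a91b9_ntZ (Atl bn bts bts_zero bts_empty_succ bts_insert_succ bts_mono
  bts_ind bts_const)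

noncomputable section

private theorem Y15_card (r : ℕ) : Fintype.card {J : Finset (Fin r) // J.Nonempty} = 2 ^ r - 1 := by
  rw [Fintype.card_subtype]
  have h1 : (univ.filter fun J : Finset (Fin r) => J.Nonempty) = univ.erase ∅ := by
    ext J
    rw [mem_filter, mem_erase, nonempty_iff_ne_empty]
    exact ⟨fun h => ⟨h.2, h.1⟩, fun h => ⟨h.2, h.1⟩⟩
  rw [h1, card_erase_of_mem (mem_univ _), card_univ, Fintype.card_finset, Fintype.card_fin]

private theorem Y15_wO (B : Finset MP_1a91b9_ntW.Pg) : wO B w8 = cB B ∅ w8 := by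
  funext j
  rcases j with j | b
  · rfl
  · rfl

private theorem nb8 : NB MP_1a91b9_ntW.Pg := by
  have h := nbR (NumberField.RingOfIntegers MP_1a91b9_ntW.K8)
  rw [ps_eq] at h
  exact h

/-- The class of a prime. -/
def cq8 (m : ℕ) (q : MP_1a91b9_ntW.Pg) : GR (mod8 m) := cq (mod8 m) q

private theorem Y15_main (m r k N : ℕ) (hr : 1 ≤ r) (i j : Fin k → Finset (Fin r) → Fin N → ZMod 2)
    (T₀ : Fin k → Finset (Fin r) → Fin N → Finset MP_1a91b9_ntW.Pg) (B : Finset MP_1a91b9_ntW.Pg)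
    (hT : ∀ b J n, T₀ b J n ⊆ B)
    (hinj : ∀ b, ∀ J : Finset (Fin r), J.Nonempty →
      Function.Injective fun n => (i b J n, j b J n, T₀ b J n))
    (hdis : ∀ b b', b ≠ b' → ∀ J : Finset (Fin r), J.Nonempty → ∀ n n',
      (j b J n, T₀ b J n) ≠ (j b' J n', T₀ b' J n')) (t : ℕ) :
    CovLI (cq8 m) r B (bn k t (cinf2 ^ ((2 ^ r - 1) * N))) fun T => Atl t fun b =>
      ∀ J : Finset (Fin r), J.Nonempty → ∀ n, GW (i b J n) (j b J n) (sdJ J T ∪ T₀ b J n) ≠ 0 := by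
  classical
  have hc0 : 0 ≤ cinf2 := cinf2_pos'.le
  have : Nonempty (Fin r) := ⟨⟨0, hr⟩⟩
  have hfin : Finite (Pool.Agent.Lib.MP_1a91b9_ntR.GRB (mod8 m) B) := inferInstance
  let _ : TwS (Off B) := twG (D8.off B) (C8B m B).cl
  have hOT : OKT (D8.off B) (wO B w8) := by
    rw [Y15_wO]
    exact okT_8 m B
  choose v hv hP using PclC_GWJ (sp_phJ r) (fun _ => WS_Lc (sp_phJ r)) id8 okw8 (fun T c h1 h2 => mz8 B T c h1 h2) hOT
    (fun b (a : {J : Finset (Fin r) // J.Nonempty}) => i b a.1) (fun b a => j b a.1)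
    (fun b a => T₀ b a.1) (fun b a n => hT b a.1 n) (fun b a => hinj b a.1 a.2)
    (fun b b' hb a n n' => hdis b b' hb a.1 a.2 n n')
  have hpow : cinf2 ^ ((2 ^ r - 1) * N) = ∏ _a : {J : Finset (Fin r) // J.Nonempty}, cinf2 ^ N := by
    rw [prod_const, card_univ, Y15_card, ← pow_mul, mul_comm]
  have h3 : ∀ γ, PclC (D8.off B) γ (fun cf => bts univ t fun b : Fin k =>
      ∏ a : {J : Finset (Fin r) // J.Nonempty},
        if ∀ n, GW (i b a.1 n) (j b a.1 n) (up (TT (phJ r) cf a) ∪ T₀ b a.1 n) ≠ 0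
          then (1 : ℝ) else 0)
      (bts univ t fun b => ∏ a, v γ b a) := by
    intro γ
    have h := mean_bts (limP_PclC hOT.nrm (D8.off B) γ)
      (F := fun (b : Fin k) (cf : Fin r → Finset (Off B)) =>
        ∏ a : {J : Finset (Fin r) // J.Nonempty},
          if ∀ n, GW (i b a.1 n) (j b a.1 n) (up (TT (phJ r) cf a) ∪ T₀ b a.1 n) ≠ 0
            then (1 : ℝ) else 0)
      (v := fun b => ∏ a, v γ b a) univ ∅ (disjoint_empty_left _) (fun J _ => hP γ J) t
    simp only [prod_empty, one_mul] at h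
    exact h
  have h4 : ∀ γ, bn k t (cinf2 ^ ((2 ^ r - 1) * N)) ≤
      bts univ t fun b : Fin k => ∏ a, v γ b a := by
    intro γ
    have e := bts_const (univ : Finset (Fin k)) t (cinf2 ^ ((2 ^ r - 1) * N))
    rw [card_univ, Fintype.card_fin] at e
    rw [← e]
    refine bts_mono univ t (fun _ _ => pow_nonneg hc0 _) (fun b _ => ?_) fun b _ => ?_
    · rw [hpow]
      exact prod_le_prod (fun a _ => pow_nonneg hc0 N) fun a _ => (hv γ b a).1
    · exact prod_le_one (fun a _ => (pow_nonneg hc0 N).trans (hv γ b a).1) fun a _ => (hv γ b a).2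
  have h5 : ∀ γ, PclC (D8.off B) γ (fun _ : Fin r → Finset (Off B) => 1) 1 := by
    intro γ
    have h := hP γ ∅
    simp only [prod_empty] at h
    exact h
  refine covLI_of (D8.off B) (C8B m B).cl (cq8 m) (AddMonoidHom.fst _ _) (fun q => rfl) hr h4
    (fun S => le_of_eq ?_) h3 h5 nb8
  have e := bts_ind (fun b : Fin k => ∀ J : Finset (Fin r), J.Nonempty → ∀ n,
    GW (i b J n) (j b J n) (sdJ J (fun l => up (S l)) ∪ T₀ b J n) ≠ 0) univ t
  refine Eq.trans ?_ (e.trans ?_)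
  · refine congrArg (bts univ t) (funext fun b => ?_)
    have h7 : ∀ a : {J : Finset (Fin r) // J.Nonempty},
        (if ∀ n, GW (i b a.1 n) (j b a.1 n) (up (TT (phJ r) S a) ∪ T₀ b a.1 n) ≠ 0
          then (1 : ℝ) else 0) =
        if ∀ n, GW (i b a.1 n) (j b a.1 n) (sdJ a.1 (fun l => up (S l)) ∪ T₀ b a.1 n) ≠ 0
          then (1 : ℝ) else 0 := by
      intro a
      rw [up_TT, TT_phJ]
    rw [prod_congr rfl fun a _ => h7 a, prod_ite_zero, prod_const_one]
    split_ifs with g1 g2 g2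
    · rfl
    · exact (g2 fun J hJ n => g1 ⟨J, hJ⟩ (mem_univ _) n).elim
    · exact (g1 fun a _ n => g2 a.1 a.2 n).elim
    · rfl
  · by_cases h : Atl t fun b => ∀ J : Finset (Fin r), J.Nonempty → ∀ n,
        GW (i b J n) (j b J n) (sdJ J (fun l => up (S l)) ∪ T₀ b J n) ≠ 0
    · exact (if_pos h).trans (if_pos h).symm
    · exact (if_neg h).trans (if_neg h).symm

/-- **The joint law for blocks of labels over `ℚ(√-2)`, for the covering `r`-tuples.** -/
theorem jbi8 : JBI8 := by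
  intro m r k N _ i j T₀ B hT hinj hdis t
  have hc0 : 0 ≤ cinf2 := cinf2_pos'.le
  have hc1 : cinf2 ≤ 1 := MP_1a91b9_ntM.E.cinf2_le_half.trans (by norm_num)
  rcases Nat.eq_zero_or_pos r with hr | hr
  · subst hr
    refine covLI_triv (pow_nonneg hc0 _) (fun _ => pow_le_one₀ hc0 hc1) fun T b J hJ => ?_
    exact ((Finset.not_nonempty_iff_eq_empty.2 (Subsingleton.elim J ∅)) hJ).elim
  · have h := Y15_main m r k N hr i j T₀ B hT hinj hdis t
    rw [← ps_eq] at h
    exact h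

end

end Pool.Agent.Lib.MP_1a91b9_ntMN
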