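import Pool.Agent.Lib.MP_1a91b9_ntMN.Y3

/-!
# MP_1a91b9_nt (multiquadratic fields, natural density): the mean values of the maximal unlinked sets
-/

set_option autoImplicit false
set_option linter.unusedSectionVars false

namespace Pool.Agent.Lib.MP_1a91b9_ntMN

open Finset Pool.Agent.Lib.MP_1a91b9_ntH Pool.Agent.Lib.MP_1a91b9_ntQ
open Pool.Agent.Lib.MP_1a91b9_ntQ.Da Pool.Agent.Lib.MP_1a91b9_ntV Pool.Agent.Lib.MP_1a91b9_ntM
open Pool.Agent.Lib.MP_1a91b9_ntDV Pool.Agent.Lib.MP_1a91b9_ntMQ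

noncomputable section

variable {L : Type} [Fintype L] [DecidableEq L] {ι : Type} [DecidableEq ι] {κ : Type} [Fintype κ]
  [DecidableEq κ] [PS ι]

private theorem G2_unit {τ : L → ι → ℂ} (hτ : ∀ x q, ‖τ x q‖ = 1) (D : Dat2 ι κ) (c : L → κ → ZMod 2)
    (q : ι) (x : L) : ‖τ x q * e2 (D.dg (c x) q)‖ = 1 := by
  rw [norm_mul, hτ, norm_e2, mul_one]

section Dich

variable {C : Type} {col : L → C} {Phi : L → L → ZMod 2} {n : L → ℝ} {h M : ℕ}
    {Us : Finset (Finset L)}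

/-- **The dichotomy.** The sum over a maximal unlinked set is small, or all the characters are equal. -/
theorem LSX_dich (hW : WSh col Phi n h M Us) {D : Dat2 ι κ} {w : κ → ZMod 2} (hD : OKt D w)
    (c : L → κ → ZMod 2) {τ : L → ι → ℂ} (hτ : ∀ x q, ‖τ x q‖ = 1)
    {U : Finset L} (hU : U ∈ Us) {x₀ : L} (hx₀ : x₀ ∈ U) (E : L → Prop) (hE0 : E x₀)
    (hE : ∀ x ∈ U, (E x ∧ ∀ q, τ x q * e2 (D.dg (c x) q) = τ x₀ q * e2 (D.dg (c x₀) q)) ∨
      Mz ∅ (fun q => (τ x q * e2 (D.dg (c x) q)) * (starRingEnd ℂ) (τ x₀ q * e2 (D.dg (c x₀) q)))) :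
    (∀ ε : ℝ, 0 < ε → ∃ X₀ : ℕ, ∀ X : ℕ, X₀ ≤ X →
      ‖∑ S ∈ Sx ι X, ∏ q ∈ S, ∑ x ∈ U, (LSX D Phi n c τ).g x q‖ ≤ ε * Yh h X) ∨
    ((∀ x ∈ U, E x) ∧
      ∀ q, ∑ x ∈ U, (LSX D Phi n c τ).g x q = (h : ℂ) * (τ x₀ q * e2 (D.dg (c x₀) q))) := by
  classical
  have hsum := hW.sum U hU
  have hM2' := hW.two
  have hM8r : (2 : ℝ) ≤ (M : ℝ) := by exact_mod_cast hM2'
  have hMr0 : (0 : ℝ) < (M : ℝ) := by linarith
  have hn0 : ∀ x, 0 ≤ n x := fun x => le_trans (by positivity) (hW.pos x)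
  have hg : ∀ q, ∑ x ∈ U, (LSX D Phi n c τ).g x q =
      ∑ x ∈ U, (n x : ℂ) * (τ x q * e2 (D.dg (c x) q)) := fun q => rfl
  have hnrm : ∀ q, ‖∑ x ∈ U, (LSX D Phi n c τ).g x q‖ ≤ h := by
    intro q
    rw [hg]
    refine (norm_sum_le _ _).trans (le_of_eq ?_)
    rw [← hsum]
    refine sum_congr rfl fun x _ => ?_
    rw [norm_mul, G2_unit hτ, mul_one, Complex.norm_real, Real.norm_of_nonneg (hn0 x)]
  by_cases hA : ∀ x ∈ U, E x ∧ ∀ q, τ x q * e2 (D.dg (c x) q) = τ x₀ q * e2 (D.dg (c x₀) q)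
  · right
    refine ⟨fun x hx => (hA x hx).1, fun q => ?_⟩
    rw [hg]
    have h1 : ∀ x ∈ U, (n x : ℂ) * (τ x q * e2 (D.dg (c x) q)) =
        (n x : ℂ) * (τ x₀ q * e2 (D.dg (c x₀) q)) := by
      intro x hx
      rw [(hA x hx).2 q]
    rw [sum_congr rfl h1, ← sum_mul, ← Complex.ofReal_sum, hsum, Complex.ofReal_natCast]
  · left
    push Not at hA
    obtain ⟨x, hx, hxE⟩ := hA
    have hmz : Mz ∅ (fun q => (τ x q * e2 (D.dg (c x) q)) * (starRingEnd ℂ) (τ x₀ q * e2 (D.dg (c x₀) q))) := by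
      rcases hE x hx with h1 | h1
      · obtain ⟨q, hq⟩ := hxE h1.1
        exact absurd (h1.2 q) hq
      · exact h1
    have hne : x ≠ x₀ := by
      rintro rfl
      obtain ⟨q, hq⟩ := hxE hE0
      exact hq rfl
    intro ε hε
    obtain ⟨C1, hC1⟩ := hD.an.cheb
    obtain ⟨C2, hC2⟩ := hD.an.zt
    obtain ⟨X₀, hX₀⟩ := mz_mean hC1 hC2 h M hW.hp (by omega) (fun q => by
      rw [norm_mul, RCLike.norm_conj, G2_unit hτ, G2_unit hτ, mul_one]) hmz ε hε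
    refine ⟨X₀, fun X hX => ?_⟩
    refine le_trans ?_ (hX₀ (fun q => ‖∑ x ∈ U, (LSX D Phi n c τ).g x q‖)
      (fun q => ⟨norm_nonneg _, hnrm q, ?_⟩) X hX)
    · refine (norm_sum_le _ _).trans (sum_le_sum fun S _ => ?_)
      rw [norm_prod]
    · rw [hg]
      have hns := norm_wsumC U n hn0 (fun x => τ x q * e2 (D.dg (c x) q))
        (fun x => G2_unit hτ D c q x) (a := 2 / (M : ℝ)) (by positivity) hx hx₀ hne
        (hW.pos x) (hW.pos _)
      rw [hsum] at hns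
      refine hns.trans (le_of_eq ?_)
      field_simp
      ring

private theorem G2_ne (hW : WSh col Phi n h M Us) {U : Finset L} (hU : U ∈ Us) : U.Nonempty := by
  rw [nonempty_iff_ne_empty]
  intro h0
  have h1 := hW.sum U hU
  rw [h0, sum_empty] at h1
  have h2 : (1 : ℝ) ≤ (h : ℝ) := by exact_mod_cast hW.hp
  linarith

private theorem G2_eq {x y : ZMod 2} (h : x + y = 0) : x = y := by
  have h1 : ∀ x y : ZMod 2, x + y = 0 → x = y := by decide
  exact h1 x y h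

/-- **The mean values**, without twists. -/
theorem LSX_main0 (hM : MH ι h) (hW : WSh col Phi n h M Us) {D : Dat2 ι κ} {w : κ → ZMod 2} (hD : OKt D w)
    (c : L → κ → ZMod 2) : ∀ U ∈ Us, ∀ ε : ℝ, 0 < ε → ∃ X₀ : ℕ, ∀ X : ℕ, X₀ ≤ X →
      ‖∑ S ∈ Sx ι X, ∏ q ∈ S, ∑ x ∈ U, (LSX D Phi n c fun _ _ => 1).g x q -
        mS c U * (NN ι h X : ℂ)‖ ≤ ε * Yh h X := by
  classical
  intro U hU ε hε
  obtain ⟨x₀, hx₀⟩ := G2_ne hW hU
  have hE : ∀ x ∈ U, (c x = c x₀ ∧ ∀ q, (1 : ℂ) * e2 (D.dg (c x) q) = 1 * e2 (D.dg (c x₀) q)) ∨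
      Mz ∅ (fun q => ((1 : ℂ) * e2 (D.dg (c x) q)) * (starRingEnd ℂ) (1 * e2 (D.dg (c x₀) q))) := by
    intro x hx
    by_cases hxx : c x = c x₀
    · left
      exact ⟨hxx, fun q => by rw [hxx]⟩
    · right
      have h0 : c x + c x₀ ≠ 0 := by
        intro h0
        apply hxx
        funext j
        exact G2_eq (congrFun h0 j)
      have h6 := hD.mz (c x + c x₀) h0
      have h7 : (fun q => ((1 : ℂ) * e2 (D.dg (c x) q)) * (starRingEnd ℂ) ((1 : ℂ) * e2 (D.dg (c x₀) q))) =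
          fun q => e2 (D.ex1 ∅ (c x + c x₀) q) := by
        funext q
        have h8 : (starRingEnd ℂ) (e2 (D.dg (c x₀) q)) = e2 (D.dg (c x₀) q) := by
          unfold e2
          exact Complex.conj_ofReal _
        rw [one_mul, one_mul, h8, ← e2_add, ex1_empty, dg_add]
      rw [h7]
      exact h6
  rcases LSX_dich hW hD c (τ := fun _ _ => 1) (fun _ _ => norm_one) hU hx₀
    (fun x => c x = c x₀) rfl hE with h1 | ⟨h1, h3⟩
  · by_cases hm : ∀ x ∈ U, c x = 0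
    · have hmS : mS c U = 1 := if_pos hm
      refine ⟨0, fun X _ => ?_⟩
      have hG : ∀ q, ∑ x ∈ U, (LSX D Phi n c fun _ _ => 1).g x q = (h : ℂ) := by
        intro q
        have h2 : ∀ x ∈ U, (LSX D Phi n c fun _ _ => 1).g x q = (n x : ℂ) := by
          intro x hx
          show (n x : ℂ) * (1 * e2 (D.dg (c x) q)) = _
          rw [hm x hx, dg_zero, e2_zero, one_mul, mul_one]
        rw [sum_congr rfl h2, ← Complex.ofReal_sum, hW.sum U hU, Complex.ofReal_natCast]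
      have h2 : ∑ S ∈ Sx ι X, ∏ q ∈ S, ∑ x ∈ U, (LSX D Phi n c fun _ _ => 1).g x q =
          (NN ι h X : ℂ) := by
        unfold NN
        push_cast
        refine sum_congr rfl fun S _ => ?_
        rw [prod_congr rfl fun q _ => hG q, prod_const]
      rw [h2, hmS, one_mul, sub_self, norm_zero]
      exact mul_nonneg hε.le (Yh_nonneg h X)
    · have hmS : mS c U = 0 := if_neg hm
      simp only [hmS, zero_mul, sub_zero]
      exact h1 ε hε
  · by_cases h0 : c x₀ = 0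
    · have hmS : mS c U = 1 := if_pos fun x hx => (h1 x hx).trans h0
      refine ⟨0, fun X _ => ?_⟩
      have h2 : ∑ S ∈ Sx ι X, ∏ q ∈ S, ∑ x ∈ U, (LSX D Phi n c fun _ _ => 1).g x q =
          (NN ι h X : ℂ) := by
        unfold NN
        push_cast
        refine sum_congr rfl fun S _ => ?_
        have h4 : ∀ q ∈ S, ∑ x ∈ U, (LSX D Phi n c fun _ _ => 1).g x q = (h : ℂ) := by
          intro q _
          rw [h3 q, h0, dg_zero, e2_zero, one_mul, mul_one]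
        rw [prod_congr rfl h4, prod_const]
      rw [h2, hmS, one_mul, sub_self, norm_zero]
      exact mul_nonneg hε.le (Yh_nonneg h X)
    · have hmS : mS c U = 0 := if_neg fun h5 => h0 (h5 _ hx₀)
      simp only [hmS, zero_mul, sub_zero]
      have h5 : Mz ∅ (fun q => e2 (D.dg (c x₀) q)) := by
        have h6 := hD.mz (c x₀) h0
        simpa only [ex1_empty] using h6
      obtain ⟨X₀, hX₀⟩ := hM _ (fun q => (norm_e2 _).le) h5 ε hε
      refine ⟨X₀, fun X hX => ?_⟩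
      have h6 := hX₀ X hX
      have h7 : ∀ q, ∑ x ∈ U, (LSX D Phi n c fun _ _ => 1).g x q = (h : ℂ) * e2 (D.dg (c x₀) q) := by
        intro q
        rw [h3 q, one_mul]
      simp only [h7]
      exact h6

/-- **The mean values**, with a twist which is not a class character. -/
theorem LSX_mainF (hM : MH ι h) (hW : WSh col Phi n h M Us) {D : Dat2 ι κ} {w : κ → ZMod 2} (hD : OKt D w)
    (c : L → κ → ZMod 2) {τ : L → ι → ℂ} (hτ : ∀ x q, ‖τ x q‖ = 1)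
    (hE : ∀ U ∈ Us, ∃ x₀ ∈ U, (∀ x ∈ U, (∀ q, τ x q * e2 (D.dg (c x) q) = τ x₀ q * e2 (D.dg (c x₀) q)) ∨
      Mz ∅ (fun q => (τ x q * e2 (D.dg (c x) q)) * (starRingEnd ℂ) (τ x₀ q * e2 (D.dg (c x₀) q)))) ∧
      Mz ∅ (fun q => τ x₀ q * e2 (D.dg (c x₀) q))) :
    ∀ U ∈ Us, ∀ ε : ℝ, 0 < ε → ∃ X₀ : ℕ, ∀ X : ℕ, X₀ ≤ X →
      ‖∑ S ∈ Sx ι X, ∏ q ∈ S, ∑ x ∈ U, (LSX D Phi n c τ).g x q -
        0 * (NN ι h X : ℂ)‖ ≤ ε * Yh h X := by
  intro U hU ε hε
  simp only [zero_mul, sub_zero]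
  obtain ⟨x₀, hx₀, hE1, hF⟩ := hE U hU
  rcases LSX_dich hW hD c hτ hU hx₀ (fun _ => True) trivial
    (fun x hx => (hE1 x hx).imp_left fun h1 => ⟨trivial, h1⟩) with h1 | ⟨-, h3⟩
  · exact h1 ε hε
  · obtain ⟨X₀, hX₀⟩ := hM _ (fun q => (G2_unit hτ D c q x₀).le) hF ε hε
    refine ⟨X₀, fun X hX => ?_⟩
    simp only [h3]
    exact hX₀ X hX

end Dich

end

end Pool.Agent.Lib.MP_1a91b9_ntMN
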