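import Pool.Agent.Lib.MP_1a91b9_ntMN.G1
import Pool.Agent.Lib.MP_1a91b9_ntMN.G2

/-!
# MP_1a91b9_nt (multiquadratic fields, natural density): the hypotheses of the engine
-/

set_option autoImplicit false
set_option linter.unusedSectionVars false

namespace Pool.Agent.Lib.MP_1a91b9_ntMN

open Finset Pool.Agent.Lib.MP_1a91b9_ntH Pool.Agent.Lib.MP_1a91b9_ntQ
open Pool.Agent.Lib.MP_1a91b9_ntQ.Da Pool.Agent.Lib.MP_1a91b9_ntV Pool.Agent.Lib.MP_1a91b9_ntM
open Pool.Agent.Lib.MP_1a91b9_ntDV Pool.Agent.Lib.MP_1a91b9_ntMQ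

noncomputable section

variable {L : Type} [Fintype L] [DecidableEq L] {ι : Type} [DecidableEq ι] {κ : Type} [Fintype κ]
  [DecidableEq κ] [PS ι]

/-- The hypotheses of the engine. -/
theorem LSX_OK {C : Type} {col : L → C} {Phi : L → L → ZMod 2} {n : L → ℝ} {h M : ℕ}
    {Us : Finset (Finset L)} (hW : WSh col Phi n h M Us) {D : Dat2 ι κ} {w : κ → ZMod 2} (hD : OKt D w)
    (c : L → κ → ZMod 2) {τ : L → ι → ℂ} (hτ : ∀ x q, ‖τ x q‖ = 1)
    (hc : ∀ x y, col x = col y → τ x = τ y)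
    {mU : Finset L → ℂ} (hm : ∀ U ∈ Us, ∀ ε : ℝ, 0 < ε → ∃ X₀ : ℕ, ∀ X : ℕ, X₀ ≤ X →
      ‖∑ S ∈ Sx ι X, ∏ q ∈ S, ∑ x ∈ U, (LSX D Phi n c τ).g x q -
        mU U * (NN ι h X : ℂ)‖ ≤ ε * Yh h X) :
    OKh (LSX D Phi n c τ) D h M Us mU fun X => (NN ι h X : ℂ) := by
  have hM : (0 : ℝ) < (M : ℝ) := by
    have := hW.two
    positivity
  have hpos : ∀ x, 0 < n x := fun x => lt_of_lt_of_le (by positivity) (hW.pos x)
  have hnorm : ∀ x q, ‖(LSX D Phi n c τ).g x q‖ = n x := by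
    intro x q
    show ‖(n x : ℂ) * (τ x q * e2 (D.dg (c x) q))‖ = _
    rw [norm_mul, norm_mul, hτ, norm_e2, mul_one, mul_one, Complex.norm_real, Real.norm_eq_abs,
      abs_of_pos (hpos x)]
  have hlk : ∀ x y, (LSX D Phi n c τ).lk x y = Phi x y + Phi y x := fun x y => Phi1_lk Phi x y
  refine
    { diag := fun l => Phi1_self _ l
      os := fun l m => Phi1_os _ l m
      nrm := fun x q => ?_
      two := hW.two
      pos := hW.hp
      unl := fun U hU x hx y hy => ?_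
      er := fun U hU l hl h => ?_
      small := ?_
      mid := LSX_mid hW hD c hτ hc
      main := hm }
  · rw [hnorm]
    exact hW.le_one x
  · rw [hlk]
    exact hW.unl U hU x hx y hy
  · have h1 := hW.sum U hU
    have h2 := hW.sum _ h
    have h3 := add_sum_erase U n hl
    have h4 := hpos l
    linarith
  · refine ⟨1, fun Z hZ hZ2 => ⟨fun _ => 0, SumB.zero, fun q => ?_⟩⟩
    have h1 := hW.small Z (fun x hx y hy => by
      have := hZ x hx y hy
      rwa [hlk] at this) hZ2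
    have e1 : ∑ l ∈ Z, ‖(LSX D Phi n c τ).g l q‖ = ∑ l ∈ Z, n l := sum_congr rfl fun x _ => hnorm x q
    rw [e1]
    constructor
    · refine h1.trans ?_
      have : 0 ≤ 1 / (M : ℝ) := by positivity
      linarith
    · refine h1.trans (le_of_eq ?_)
      rw [add_zero]
      field_simp

end

end Pool.Agent.Lib.MP_1a91b9_ntMN
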