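import Pool.Agent.Lib.MP_1a91b9_ntMN.Y0

/-!
# MP_1a91b9_nt (multiquadratic fields, natural density), block Y: the label system of the families
-/

set_option autoImplicit false
set_option linter.unusedSectionVars false

namespace Pool.Agent.Lib.MP_1a91b9_ntMN

open Finset Pool.Agent.Lib.MP_1a91b9_ntH Pool.Agent.Lib.MP_1a91b9_ntQ
open Pool.Agent.Lib.MP_1a91b9_ntQ.Da Pool.Agent.Lib.MP_1a91b9_ntV Pool.Agent.Lib.MP_1a91b9_ntM
open Pool.Agent.Lib.MP_1a91b9_ntDV Pool.Agent.Lib.MP_1a91b9_ntMQ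

noncomputable section

variable {I A : Type} [Fintype I] [DecidableEq I] [Fintype A] [DecidableEq A] {k : A → ℕ}
  {phi : A → I → ZMod 2}

/-- The labels `(w, 0)`, `w ≠ 0`. -/
theorem card_PYc : (PYc phi k).card = hI I := by
  classical
  have h1 : PYc phi k = (univ : Finset {w : I → ZMod 2 // w ≠ 0}).image fun w => z0c phi k w.1 w.2 := by
    ext z
    rw [mem_PYc, mem_image]
    constructor
    · intro h
      refine ⟨⟨z.1.1.1, z.2⟩, mem_univ _, Subtype.ext (Subtype.ext (Prod.ext rfl ?_))⟩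
      exact h.symm
    · rintro ⟨w, _, rfl⟩
      rfl
  have h2 : Function.Injective fun w : {w : I → ZMod 2 // w ≠ 0} => z0c phi k w.1 w.2 := by
    intro w v h
    have h3 := congrArg (fun z : Lc phi k => z.1.1.1) h
    exact Subtype.ext h3
  rw [h1, card_image_of_injective _ h2, card_univ, Fintype.card_subtype]
  have h3 : (univ.filter fun w : I → ZMod 2 => w ≠ 0) = univ.erase 0 := by
    ext w
    rw [mem_filter, mem_erase]
    exact ⟨fun h => ⟨h.2, h.1⟩, fun h => ⟨h.2, h.1⟩⟩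
  rw [h3, card_erase_of_mem (mem_univ _), card_univ, Fintype.card_fun, ZMod.card]
  rfl

/-- The label of the colour zero is in all the sets. -/
theorem z0_zero_mem (V : ∀ a, Finset (Lab2 (k a))) : z0 phi k 0 ∈ UL phi k V := by
  rw [mem_UL]
  intro a h
  have h1 : phi a ⬝ᵥ (0 : I → ZMod 2) = 1 := h
  rw [dotProduct_zero] at h1
  exact absurd h1 zero_ne_one

/-- The only label of the colour zero. -/
theorem eq_z0_zero {z : Lb phi k} (hz : z.1.1 = 0) : z = z0 phi k 0 := by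
  refine Subtype.ext (Prod.ext hz ?_)
  funext a
  refine z.2 a ?_
  rw [hz, dotProduct_zero]

theorem PYc_sub {V : ∀ a, Finset (Lab2 (k a))} :
    PYc phi k ⊆ rs (UL phi k V) ↔ PY phi k ⊆ UL phi k V := by
  constructor
  · intro h z hz
    by_cases h0 : z.1.1 = 0
    · rw [eq_z0_zero h0]
      exact z0_zero_mem V
    · exact mem_rs.1 (h (mem_PYc.2 (mem_PY.1 hz) : (⟨z, h0⟩ : Lc phi k) ∈ PYc phi k))
  · intro h z hz
    exact mem_rs.2 (h (mem_PY.2 (mem_PYc.1 hz)))

theorem rs_injY {V V' : ∀ a, Finset (Lab2 (k a))} (h : rs (UL phi k V) = rs (UL phi k V')) :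
    UL phi k V = UL phi k V' := by
  have h1 : ∀ V V' : ∀ a, Finset (Lab2 (k a)), rs (UL phi k V) = rs (UL phi k V') →
      UL phi k V ⊆ UL phi k V' := by
    intro V V' h z hz
    by_cases h0 : z.1.1 = 0
    · rw [eq_z0_zero h0]
      exact z0_zero_mem V'
    · have h2 : (⟨z, h0⟩ : Lc phi k) ∈ rs (UL phi k V) := mem_rs.2 hz
      rw [h] at h2
      exact mem_rs.1 h2
  exact Subset.antisymm (h1 V V' h) (h1 V' V h.symm)

/-- The label system of block Y. -/
theorem WYh_L (hs : Sp phi) {M : ℕ} (hw : WSh colc (PLc phi k) nLc (hI I) M (UsLc phi k)) :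
    WYh colc (PLc phi k) nLc (hI I) M (UsLc phi k) (PYc phi k) (QYc phi k) := by
  refine ⟨hw, card_PYc, ?_, fun z => ⟨z0c phi k z.1.1.1 z.2, z0c_mem z.2, rfl⟩⟩
  intro U hU hPU z hz
  obtain ⟨U', hU', rfl⟩ := mem_UsLc.1 hU
  obtain ⟨V, hV, rfl⟩ := mem_UsL.1 hU'
  exact (WY_L hs).q _ hU' (PYc_sub.1 hPU) z.1 (mem_rs.1 hz)

/-- The sets which contain all the labels `(w, 0)`. -/
theorem UY_UsLc : UY (UsLc phi k) (PYc phi k) = (UY (UsL phi k) (PY phi k)).image rs := by
  classical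
  ext U
  rw [mem_UY, mem_UsLc, mem_image]
  constructor
  · rintro ⟨⟨U', hU', rfl⟩, hP⟩
    obtain ⟨V, hV, rfl⟩ := mem_UsL.1 hU'
    exact ⟨UL phi k V, mem_UY.2 ⟨hU', PYc_sub.1 hP⟩, rfl⟩
  · rintro ⟨U', hU', rfl⟩
    obtain ⟨h1, h2⟩ := mem_UY.1 hU'
    obtain ⟨V, hV, rfl⟩ := mem_UsL.1 h1
    exact ⟨⟨_, h1, rfl⟩, PYc_sub.2 h2⟩

variable {κ : Type} [Fintype κ]

/-- The value of the first moment does not depend on the label of the colour zero. -/
theorem sum_mYc (w : κ → ZMod 2) (cc : ∀ a, Lab2 (k a) → κ → ZMod 2) (b : I → κ → ZMod 2) :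
    ∑ U ∈ UY (UsLc phi k) (PYc phi k), mY w (PYc phi k) (fun z => cz cc b z.1) U =
      vY phi k w cc b := by
  classical
  have hz : cz cc b (z0 phi k 0) = 0 := by
    unfold cz z0
    simp only [dotProduct_zero, zero_smul, sum_const_zero, Pi.zero_apply, add_zero]
  rw [UY_UsLc, sum_image]
  · unfold vY
    refine sum_congr rfl fun U hU => ?_
    obtain ⟨h1, h2⟩ := mem_UY.1 hU
    obtain ⟨V, hV, rfl⟩ := mem_UsL.1 h1
    unfold mY
    refine if_congr (and_congr ?_ ?_) rfl rfl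
    · constructor
      · intro h z hz'
        by_cases h0 : z.1.1 = 0
        · rw [eq_z0_zero h0]
          exact hz
        · exact h ⟨z, h0⟩ (mem_PYc.2 (mem_PY.1 hz'))
      · intro h z hz'
        exact h z.1 (mem_PY.2 (mem_PYc.1 hz'))
    · constructor
      · intro h z hz'
        by_cases h0 : z.1.1 = 0
        · rw [eq_z0_zero h0]
          exact Or.inl hz
        · exact h ⟨z, h0⟩ (mem_rs.2 hz')
      · intro h z hz'
        exact h z.1 (mem_rs.1 hz')
  · intro U hU U' hU' h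
    obtain ⟨V, hV, rfl⟩ := mem_UsL.1 (mem_UY.1 hU).1
    obtain ⟨V', hV', rfl⟩ := mem_UsL.1 (mem_UY.1 hU').1
    exact rs_injY h

end

end Pool.Agent.Lib.MP_1a91b9_ntMN
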