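import Pool.Agent.Lib.MP_1a91b9_ntMQ.Y6
import Pool.Agent.Lib.MP_1a91b9_ntMN.Y5

/-!
# MP_1a91b9_nt (multiquadratic fields, natural density), block Y: the sum over the families is a sum over labellings
-/

set_option autoImplicit false
set_option linter.unusedSectionVars false

namespace Pool.Agent.Lib.MP_1a91b9_ntMN

open Finset Pool.Agent.Lib.MP_1a91b9_ntH Pool.Agent.Lib.MP_1a91b9_ntQ
open Pool.Agent.Lib.MP_1a91b9_ntQ.Da Pool.Agent.Lib.MP_1a91b9_ntV Pool.Agent.Lib.MP_1a91b9_ntM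
open Pool.Agent.Lib.MP_1a91b9_ntDV Pool.Agent.Lib.MP_1a91b9_ntMQ
open Pool.Agent.Lib.MP_1a91b9_ntW (OKw gW)

noncomputable section

section Col

variable {I : Type} [Fintype I] [DecidableEq I] {ι : Type} [DecidableEq ι]

private theorem Y6_mem {S : Finset ι} {f : S → I → ZMod 2} {i : I} {x : ι} :
    x ∈ colF S f i ↔ ∃ h : x ∈ S, f ⟨x, h⟩ i = 1 := by
  unfold colF
  rw [mem_map]
  constructor
  · rintro ⟨j, hj, rfl⟩
    exact ⟨j.2, (mem_filter.1 hj).2⟩
  · rintro ⟨h, e⟩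
    exact ⟨⟨x, h⟩, mem_filter.2 ⟨mem_univ _, e⟩, rfl⟩

/-- The union of the family of a colouring. -/
theorem bi_colF (S : Finset ι) (f : S → I → ZMod 2) :
    univ.biUnion (colF S f) = S ↔ ∀ j, f j ≠ 0 := by
  constructor
  · intro h j h0
    have h1 : (j : ι) ∈ univ.biUnion (colF S f) := by
      rw [h]
      exact j.2
    obtain ⟨i, -, hi⟩ := mem_biUnion.1 h1
    obtain ⟨h2, h3⟩ := Y6_mem.1 hi
    have h4 : f j i = 1 := h3
    rw [h0] at h4
    exact zero_ne_one h4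
  · intro h
    ext x
    rw [mem_biUnion]
    constructor
    · rintro ⟨i, -, hi⟩
      exact (Y6_mem.1 hi).1
    · intro hx
      obtain ⟨i, hi⟩ := Function.ne_iff.1 (h ⟨x, hx⟩)
      exact ⟨i, mem_univ _, Y6_mem.2 ⟨hx, z2_ne hi⟩⟩

/-- The sum over the families with the union `S`. -/
theorem smI_col (F : (I → Finset ι) → ℂ) (S : Finset ι) :
    smI F S = ∑ f : S → I → ZMod 2, if ∀ j, f j ≠ 0 then F (colF S f) else 0 := by
  classical
  unfold smI covF
  rw [sum_filter, sum_col (fun c => if univ.biUnion c = S then F c else 0)]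
  refine sum_congr rfl fun f _ => ?_
  by_cases h : ∀ j, f j ≠ 0
  · rw [if_pos h]
    exact if_pos ((bi_colF S f).2 h)
  · rw [if_neg h]
    exact if_neg fun h1 => h ((bi_colF S f).1 h1)

/-- The twist of a family. -/
theorem twc_colF (χ : I → ι → ℂ) (S : Finset ι) (f : S → I → ZMod 2) :
    twc χ (colF S f) = ∏ j : S, twz χ (f j) j := by
  unfold twc twz
  rw [prod_comm]
  refine prod_congr rfl fun i _ => ?_
  unfold colF
  rw [prod_map, prod_filter]
  rfl

end Col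

variable {I A : Type} [Fintype I] [DecidableEq I] [Fintype A] [DecidableEq A] {k : A → ℕ}
  {ι : Type} [DecidableEq ι] {κ : Type} [Fintype κ]

/-- The sum over the families with the union `S`, for any weights. -/
theorem smI_prod (D : Dat2 ι κ) (phi : A → I → ZMod 2) (g : ∀ a, Lab2 (k a) → ι → ℂ)
    (b : I → κ → ZMod 2) (χ : I → ι → ℂ) (S : Finset ι) :
    smI (fun c => twc χ c * (chI D b c * ∏ a, BF D (Phi1 PhiQ) (g a) (TT phi c a))) S =
      BF D (PLc phi k) (fun z q => twz χ (colc z) q * (e2 (D.dg (∑ i, z.1.1.1 i • b i) q) *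
        ∏ a, if phi a ⬝ᵥ z.1.1.1 = 1 then g a (z.1.1.2 a) q else 1)) S := by
  classical
  rw [smI_col]
  have h1 : ∀ f : S → I → ZMod 2, (if ∀ j, f j ≠ 0 then twc χ (colF S f) * (chI D b (colF S f) *
      ∏ a, BF D (Phi1 PhiQ) (g a) (TT phi (colF S f) a)) else 0) =
      ∑ y : S → Lb phi k, if (fun j => (y j).1.1) = f then
        (if ∀ j, (y j).1.1 ≠ 0 then (∏ j : S, twz χ (y j).1.1 j) *
          (e2 (∑ j : S, D.dg (∑ i, (y j).1.1 i • b i) j) *
          ((∏ j : S, ∏ a, if phi a ⬝ᵥ (y j).1.1 = 1 then g a ((y j).1.2 a) j else 1) *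
            e2 (∑ j : S, ∑ l : S, PL phi k (y j) (y l) * D.s j l))) else 0) else 0 := by
    intro f
    rw [chI_cf, BF_prod D phi g S f, twc_colF, sum_filter, mul_sum, mul_sum]
    by_cases h0 : ∀ j, f j ≠ 0
    · rw [if_pos h0]
      refine sum_congr rfl fun y _ => ?_
      by_cases h : ∀ j, (y j).1.1 = f j
      · have h' : (fun j => (y j).1.1) = f := funext h
        subst h'
        rw [if_pos rfl, if_pos h0, if_pos fun _ => rfl]
      · rw [if_neg h, if_neg (fun e => h fun j => congrFun e j), mul_zero, mul_zero]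
    · rw [if_neg h0]
      refine (sum_eq_zero fun y _ => ?_).symm
      by_cases h : (fun j => (y j).1.1) = f
      · subst h
        rw [if_pos rfl, if_neg h0]
      · rw [if_neg h]
  rw [sum_congr rfl fun f _ => h1 f, sum_comm]
  have h2 : ∀ y : S → Lb phi k, (∑ f : S → I → ZMod 2, if (fun j => (y j).1.1) = f then
        (if ∀ j, (y j).1.1 ≠ 0 then (∏ j : S, twz χ (y j).1.1 j) *
          (e2 (∑ j : S, D.dg (∑ i, (y j).1.1 i • b i) j) *
          ((∏ j : S, ∏ a, if phi a ⬝ᵥ (y j).1.1 = 1 then g a ((y j).1.2 a) j else 1) *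
            e2 (∑ j : S, ∑ l : S, PL phi k (y j) (y l) * D.s j l))) else 0) else 0) =
        if ∀ j, (y j).1.1 ≠ 0 then (∏ j : S, twz χ (y j).1.1 j) *
          (e2 (∑ j : S, D.dg (∑ i, (y j).1.1 i • b i) j) *
          ((∏ j : S, ∏ a, if phi a ⬝ᵥ (y j).1.1 = 1 then g a ((y j).1.2 a) j else 1) *
            e2 (∑ j : S, ∑ l : S, PL phi k (y j) (y l) * D.s j l))) else 0 := by
    intro y
    rw [sum_ite_eq, if_pos (mem_univ _)]
  rw [sum_congr rfl fun y _ => h2 y, ← sum_filter]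
  unfold BF
  refine sum_bij' (fun y hy j => (⟨y j, (mem_filter.1 hy).2 j⟩ : Lc phi k)) (fun y _ j => (y j).1)
    (fun _ _ => mem_univ _) (fun y _ => mem_filter.2 ⟨mem_univ _, fun j => (y j).2⟩)
    (fun _ _ => rfl) (fun _ _ => rfl) fun y hy => ?_
  rw [e2_sum, prod_mul_distrib, prod_mul_distrib]
  show _ = ((∏ j : S, twz χ (y j).1.1 j) * ((∏ j : S, e2 (D.dg (∑ i, (y j).1.1 i • b i) j)) *
    ∏ j : S, ∏ a, if phi a ⬝ᵥ (y j).1.1 = 1 then g a ((y j).1.2 a) j else 1)) *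
      e2 (∑ j : S, ∑ l : S, PL phi k (y j) (y l) * D.s j l)
  ring

/-- The weight of a label. -/
theorem gYt_prod (D : Dat2 ι κ) (w : κ → ZMod 2) (r : ι → ZMod 2) (phi : A → I → ZMod 2)
    (cc : ∀ a, Lab2 (k a) → κ → ZMod 2) (b : I → κ → ZMod 2) (χ : I → ι → ℂ) (z : Lc phi k) (q : ι) :
    twz χ (colc z) q * (e2 (D.dg (∑ i, z.1.1.1 i • b i) q) *
        ∏ a, if phi a ⬝ᵥ z.1.1.1 = 1 then gw D w r (cc a) (z.1.1.2 a) q else 1) =
      gYt D w r nLc (PYc phi k) (QYc phi k) (fun z => cz cc b z.1) (fun z => twz χ (colc z)) z q := by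
  classical
  have h1 := gY_prod D w r phi cc b z.1 q
  have h2 : (2 : ℂ) ^ Fintype.card I ≠ 0 := pow_ne_zero _ two_ne_zero
  have h3 : e2 (D.dg (∑ i, z.1.1.1 i • b i) q) *
        ∏ a, (if phi a ⬝ᵥ z.1.1.1 = 1 then gw D w r (cc a) (z.1.1.2 a) q else 1) =
      (2 : ℂ) ^ Fintype.card I * gY D w r nL (PY phi k) (QY phi k) (cz cc b) z.1 q := by
    rw [← h1, ← mul_assoc, ← mul_assoc, mul_inv_cancel₀ h2, one_mul]
  rw [h3]
  unfold gYt gY
  congr 1
  by_cases hq : D.dg w q = 0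
  · rw [if_pos hq, if_pos hq, ← mul_assoc]
    congr 1
    unfold nL nLc
    push_cast
    rw [← mul_assoc, mul_inv_cancel₀ h2, one_mul]
  · rw [if_neg hq, if_neg hq]
    by_cases hz : z.1 ∈ PY phi k
    · rw [if_pos hz, if_pos (mem_PYc.2 (mem_PY.1 hz)), card_PY, ← mul_assoc]
      push_cast
      rw [mul_inv_cancel₀ h2, one_mul]
    · rw [if_neg hz, if_neg fun h => hz (mem_PY.2 (mem_PYc.1 h)), mul_zero]

/-- The sum over the families as a sum over labellings. -/
theorem smI_FY (D : Dat2 ι κ) (w : κ → ZMod 2) (r : ι → ZMod 2) (phi : A → I → ZMod 2)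
    (cc : ∀ a, Lab2 (k a) → κ → ZMod 2) (b : I → κ → ZMod 2) (χ : I → ι → ℂ) (S : Finset ι) :
    smI (fun c => twc χ c * FY D w r phi k cc b c) S =
      BF D (PLc phi k) (gYt D w r nLc (PYc phi k) (QYc phi k) (fun z => cz cc b z.1)
        fun z => twz χ (colc z)) S := by
  unfold FY
  rw [smI_prod D phi (fun a => gw D w r (cc a)) b χ S]
  congr 1
  funext z q
  exact gYt_prod D w r phi cc b χ z q

end

end Pool.Agent.Lib.MP_1a91b9_ntMN
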