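import Pool.Agent.Lib.MP_1a91b9_ntV.D.Defs

/-!
# MP_1a91b9_nt (extensions ordered by the ramified primes): upper bounds for weights with the mean value `H`

`Yh H X = X (log X) ^ (H - 1)` is the order of magnitude. `ubh`: a multiplicative function with values at most `H` and
at most `((H m - 1) + ψ) / m` has the sum `≤ K Yh (log x) ^ (-1 / m) B ^ (1 / m)`; `ubh0`: without a saving.
-/

set_option autoImplicit false
set_option linter.unusedSectionVars false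

namespace Pool.Agent.Lib.MP_1a91b9_ntMN

open Finset Pool.Agent.Lib.MP_1a91b9_ntH Pool.Agent.Lib.MP_1a91b9_ntQ Pool.Agent.Lib.MP_1a91b9_ntV

noncomputable section

variable {ι : Type} [DecidableEq ι] [PS ι]

omit [DecidableEq ι] in
private theorem hallh_log (S : Finset ι) : Real.log (nm S) = ∑ q ∈ S, Real.log (PS.N q) := by
  unfold nm
  rw [Nat.cast_prod, Real.log_prod]
  intro q _
  have := PS.two_le q
  have h : PS.N q ≠ 0 := by omega
  exact_mod_cast h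

/-- Hall's inequality for weights which are at most `H`. -/
theorem hallh {C : ℝ} (h : Cheb ι C) (H : ℕ) (w : ι → ℝ) (hw : ∀ q, 0 ≤ w q ∧ w q ≤ H) (x : ℕ)
    (hx : 1 ≤ x) : (∑ S ∈ Sx ι x, ∏ q ∈ S, w q) * Real.log x ≤
      (H * C + 1) * x * ∑ S ∈ Sx ι x, (∏ q ∈ S, w q) / nm S := by
  have hC : 0 ≤ C := by
    have h1 := h 1
    have h2 : 0 ≤ ∑ q ∈ pr ι 1, Real.log (PS.N q) := sum_nonneg fun q _ => Real.log_natCast_nonneg _
    push_cast at h1
    linarith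
  have hx0 : (0 : ℝ) < x := by exact_mod_cast hx
  have hnm : ∀ S : Finset ι, (0 : ℝ) < nm S := fun S => by exact_mod_cast one_le_nm S
  obtain ⟨W, hW⟩ : ∃ W : Finset ι → ℝ, ∀ S, W S = ∏ q ∈ S, w q := ⟨fun S => ∏ q ∈ S, w q, fun _ => rfl⟩
  have hW0 : ∀ S, 0 ≤ W S := fun S => by
    rw [hW]
    exact prod_nonneg fun q _ => (hw q).1
  simp only [← hW]
  have hsplit : (∑ S ∈ Sx ι x, W S) * Real.log x =
      ∑ S ∈ Sx ι x, W S * Real.log (nm S) + ∑ S ∈ Sx ι x, W S * Real.log (x / nm S) := by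
    rw [sum_mul, ← sum_add_distrib]
    apply sum_congr rfl
    intro S _
    rw [Real.log_div hx0.ne' (hnm S).ne']
    ring
  have hsecond : ∑ S ∈ Sx ι x, W S * Real.log (x / nm S) ≤ x * ∑ S ∈ Sx ι x, W S / nm S := by
    rw [mul_sum]
    apply sum_le_sum
    intro S _
    have h1 : Real.log (x / nm S) ≤ x / nm S :=
      Real.log_le_self (div_nonneg hx0.le (hnm S).le)
    calc W S * Real.log (x / nm S) ≤ W S * (x / nm S) := mul_le_mul_of_nonneg_left h1 (hW0 S)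
      _ = x * (W S / nm S) := by ring
  have hfirst : ∑ S ∈ Sx ι x, W S * Real.log (nm S) ≤
      H * C * x * ∑ S ∈ Sx ι x, W S / nm S := by
    have e1 : ∀ S ∈ Sx ι x, W S * Real.log (nm S) ≤
        H * ∑ q ∈ S, W (S.erase q) * Real.log (PS.N q) := by
      intro S _
      rw [hallh_log, mul_sum, mul_sum]
      apply sum_le_sum
      intro q hq
      rw [← mul_assoc]
      apply mul_le_mul_of_nonneg_right _ (Real.log_natCast_nonneg _)
      have h1 : W S = w q * W (S.erase q) := by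
        rw [hW, hW, mul_prod_erase _ _ hq]
      rw [h1]
      exact mul_le_mul_of_nonneg_right (hw q).2 (hW0 _)
    have e2 : ∑ S ∈ Sx ι x, ∑ q ∈ S, W (S.erase q) * Real.log (PS.N q) ≤
        ∑ T ∈ Sx ι x, ∑ q ∈ pr ι (x / nm T), W T * Real.log (PS.N q) := by
      rw [sum_sigma', sum_sigma']
      have hinj : Set.InjOn (fun a : (_ : Finset ι) × ι => (⟨a.1.erase a.2, a.2⟩ : (_ : Finset ι) × ι))
          ((Sx ι x).sigma fun S => S : Finset ((_ : Finset ι) × ι)) := by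
        rintro ⟨S, q⟩ h1 ⟨S', q'⟩ h2 h3
        simp only [coe_sigma, Set.mem_sigma_iff, mem_coe] at h1 h2
        simp only [Sigma.mk.injEq, heq_eq_eq] at h3
        obtain ⟨h4, rfl⟩ := h3
        have h5 := insert_erase h1.2
        have h6 := insert_erase h2.2
        have h7 : S = S' := by rw [← h5, ← h6, h4]
        subst h7
        rfl
      have himg : (((Sx ι x).sigma fun S => S).image
          (fun a : (_ : Finset ι) × ι => (⟨a.1.erase a.2, a.2⟩ : (_ : Finset ι) × ι))) ⊆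
          (Sx ι x).sigma fun T => pr ι (x / nm T) := by
        intro b hb
        rw [mem_image] at hb
        obtain ⟨⟨S, q⟩, ha, rfl⟩ := hb
        rw [mem_sigma] at ha
        obtain ⟨hS, hq⟩ := ha
        simp only at hS hq
        rw [mem_Sx] at hS
        have h1 : PS.N q * nm (S.erase q) = nm S := by
          unfold nm
          exact mul_prod_erase _ _ hq
        have h2 := one_le_nm (S.erase q)
        have h3 := PS.two_le q
        rw [mem_sigma]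
        refine ⟨?_, ?_⟩
        · rw [mem_Sx]
          simp only
          refine le_trans ?_ hS
          rw [← h1]
          exact Nat.le_mul_of_pos_left _ (by omega)
        · rw [mem_pr]
          simp only
          rw [Nat.le_div_iff_mul_le (by omega), h1]
          exact hS
      calc ∑ a ∈ (Sx ι x).sigma (fun S => S), W (a.1.erase a.2) * Real.log (PS.N a.2)
          = ∑ b ∈ ((Sx ι x).sigma fun S => S).image
              (fun a : (_ : Finset ι) × ι => (⟨a.1.erase a.2, a.2⟩ : (_ : Finset ι) × ι)),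
              W b.1 * Real.log (PS.N b.2) := by
            rw [sum_image hinj]
        _ ≤ ∑ b ∈ (Sx ι x).sigma fun T => pr ι (x / nm T), W b.1 * Real.log (PS.N b.2) := by
            apply sum_le_sum_of_subset_of_nonneg himg
            intro b _ _
            exact mul_nonneg (hW0 _) (Real.log_natCast_nonneg _)
    have e3 : ∑ T ∈ Sx ι x, ∑ q ∈ pr ι (x / nm T), W T * Real.log (PS.N q) ≤
        C * x * ∑ S ∈ Sx ι x, W S / nm S := by
      calc ∑ T ∈ Sx ι x, ∑ q ∈ pr ι (x / nm T), W T * Real.log (PS.N q)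
          = ∑ T ∈ Sx ι x, W T * ∑ q ∈ pr ι (x / nm T), Real.log (PS.N q) := by
            apply sum_congr rfl
            intro T _
            rw [← mul_sum]
        _ ≤ ∑ T ∈ Sx ι x, W T * (C * (x / nm T)) := by
            apply sum_le_sum
            intro T _
            apply mul_le_mul_of_nonneg_left _ (hW0 T)
            refine (h _).trans (mul_le_mul_of_nonneg_left ?_ hC)
            exact Nat.cast_div_le
        _ = C * x * ∑ S ∈ Sx ι x, W S / nm S := by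
            rw [mul_sum]
            apply sum_congr rfl
            intro T _
            ring
    calc ∑ S ∈ Sx ι x, W S * Real.log (nm S)
        ≤ ∑ S ∈ Sx ι x, H * ∑ q ∈ S, W (S.erase q) * Real.log (PS.N q) := sum_le_sum e1
      _ = H * ∑ S ∈ Sx ι x, ∑ q ∈ S, W (S.erase q) * Real.log (PS.N q) := by rw [mul_sum]
      _ ≤ H * (C * x * ∑ S ∈ Sx ι x, W S / nm S) :=
          mul_le_mul_of_nonneg_left (e2.trans e3) (Nat.cast_nonneg H)
      _ = H * C * x * ∑ S ∈ Sx ι x, W S / nm S := by ring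
  rw [hsplit]
  linarith

theorem cmp_h (w : ι → ℝ) (hw : ∀ q, 0 ≤ w q) (x : ℕ) (hx : 2 ≤ x) :
    ∑ S ∈ Sx ι x, (∏ q ∈ S, w q) / nm S ≤
      Real.exp 1 * ∑ S ∈ Sx ι x, (∏ q ∈ S, w q) * (nm S : ℝ) ^ (-(1 + 1 / Real.log x)) := by
  have hxr : (2 : ℝ) ≤ x := by exact_mod_cast hx
  have hL : 0 < Real.log x := Real.log_pos (by linarith)
  rw [Finset.mul_sum]
  refine Finset.sum_le_sum fun S hS => ?_
  have hn0 : (0 : ℝ) < nm S := by exact_mod_cast one_le_nm S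
  have hnx : (nm S : ℝ) ≤ x := by exact_mod_cast mem_Sx.1 hS
  have h4 : (nm S : ℝ) ^ (1 / Real.log x) ≤ Real.exp 1 := by
    refine (Real.rpow_le_rpow hn0.le hnx (by positivity)).trans (le_of_eq ?_)
    rw [Real.rpow_def_of_pos (by linarith), mul_one_div_cancel hL.ne']
  have h5 : (nm S : ℝ)⁻¹ = (nm S : ℝ) ^ (-(1 + 1 / Real.log x)) * (nm S : ℝ) ^ (1 / Real.log x) := by
    rw [← Real.rpow_add hn0, ← Real.rpow_neg_one]
    congr 1
    ring
  have h6 : 0 ≤ (∏ q ∈ S, w q) * (nm S : ℝ) ^ (-(1 + 1 / Real.log x)) :=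
    mul_nonneg (Finset.prod_nonneg fun q _ => hw q) (Real.rpow_nonneg hn0.le _)
  calc (∏ q ∈ S, w q) / nm S = ((∏ q ∈ S, w q) * (nm S : ℝ) ^ (-(1 + 1 / Real.log x))) *
        (nm S : ℝ) ^ (1 / Real.log x) := by rw [div_eq_mul_inv, h5]; ring
    _ ≤ ((∏ q ∈ S, w q) * (nm S : ℝ) ^ (-(1 + 1 / Real.log x))) * Real.exp 1 :=
        mul_le_mul_of_nonneg_left h4 h6
    _ = _ := by ring

/-- The Euler product for weights which are at most `(n + ψ) / m`. -/
theorem euler_h {C B : ℝ} {ψ : ι → ℝ} (hz : Zt ι C) (hψ : SumB ψ B) (m n : ℕ) (hm : 1 ≤ m)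
    (w : ι → ℝ) (hw : ∀ q, 0 ≤ w q ∧ w q ≤ ((n : ℝ) + ψ q) / m) (σ : ℝ) (h1 : 1 < σ)
    (h3 : σ ≤ 3) (x : ℕ) :
    ∑ S ∈ Sx ι x, (∏ q ∈ S, w q) * (nm S : ℝ) ^ (-σ) ≤
      ((C / (σ - 1)) ^ n * B) ^ (1 / (m : ℝ)) := by
  have hm2 : (1 : ℝ) ≤ m := by exact_mod_cast hm
  have hm0 : (0 : ℝ) < m := by linarith
  have hB1 : 1 ≤ B := hψ.hB
  obtain ⟨S, hS⟩ : ∃ S : ℝ, S = ∑ S ∈ Sx ι x, (∏ q ∈ S, w q) * (nm S : ℝ) ^ (-σ) := ⟨_, rfl⟩
  have hS0 : 0 ≤ S := by
    rw [hS]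
    apply sum_nonneg
    intro T _
    exact mul_nonneg (prod_nonneg fun q _ => (hw q).1) (by positivity)
  rw [← hS]
  obtain ⟨P, hP1, hP2⟩ := ((hψ.bound σ h1 h3).and (Filter.eventually_ge_atTop x)).exists
  have hsum : S ≤ ∏ q ∈ pr ι P, (1 + w q * (PS.N q : ℝ) ^ (-σ)) := by
    rw [hS]
    exact eubD_sum_le w (fun q => (hw q).1) σ x P hP2
  have hsum2 : S ≤ Real.exp (∑ q ∈ pr ι P, w q * (PS.N q : ℝ) ^ (-σ)) := by
    refine hsum.trans ?_
    rw [Real.exp_sum]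
    refine prod_le_prod (fun q _ => ?_) fun q _ => ?_
    · have := (hw q).1
      positivity
    · have := Real.add_one_le_exp (w q * (PS.N q : ℝ) ^ (-σ))
      linarith
  have hZ : Real.exp (∑ q ∈ pr ι P, (PS.N q : ℝ) ^ (-σ)) ≤ C / (σ - 1) := by
    refine le_trans ?_ (hz σ P h1 h3)
    rw [Real.exp_sum]
    refine prod_le_prod (fun q _ => (Real.exp_pos _).le) fun q _ => ?_
    obtain ⟨ht0, ht⟩ := eubD_rpow_neg q σ h1.le
    have e2 : 0 < 1 - (PS.N q : ℝ) ^ (-σ) := by linarith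
    rw [← one_div, le_div_iff₀ e2]
    have h4 := Real.add_one_le_exp (-((PS.N q : ℝ) ^ (-σ)))
    calc Real.exp ((PS.N q : ℝ) ^ (-σ)) * (1 - (PS.N q : ℝ) ^ (-σ))
        ≤ Real.exp ((PS.N q : ℝ) ^ (-σ)) * Real.exp (-((PS.N q : ℝ) ^ (-σ))) :=
          mul_le_mul_of_nonneg_left (by linarith) (Real.exp_pos _).le
      _ = 1 := by rw [← Real.exp_add, add_neg_cancel, Real.exp_zero]
  have hψ' : Real.exp (∑ q ∈ pr ι P, ψ q * (PS.N q : ℝ) ^ (-σ)) ≤ B := by
    rw [← Real.le_log_iff_exp_le (by linarith)]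
    exact hP1
  have hmain : (m : ℝ) * ∑ q ∈ pr ι P, w q * (PS.N q : ℝ) ^ (-σ) ≤
      (n : ℝ) * ∑ q ∈ pr ι P, (PS.N q : ℝ) ^ (-σ) +
        ∑ q ∈ pr ι P, ψ q * (PS.N q : ℝ) ^ (-σ) := by
    rw [mul_sum, mul_sum, ← sum_add_distrib]
    refine sum_le_sum fun q _ => ?_
    have ht0 : 0 ≤ (PS.N q : ℝ) ^ (-σ) := Real.rpow_nonneg (Nat.cast_nonneg _) _
    have h4 := (hw q).2
    rw [le_div_iff₀ hm0] at h4
    have h5 := mul_le_mul_of_nonneg_right h4 ht0
    linarith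
  have hfin : S ^ m ≤ (C / (σ - 1)) ^ n * B := by
    calc S ^ m ≤ (Real.exp (∑ q ∈ pr ι P, w q * (PS.N q : ℝ) ^ (-σ))) ^ m :=
          pow_le_pow_left₀ hS0 hsum2 m
      _ = Real.exp ((m : ℝ) * ∑ q ∈ pr ι P, w q * (PS.N q : ℝ) ^ (-σ)) := (Real.exp_nat_mul _ _).symm
      _ ≤ Real.exp ((n : ℝ) * ∑ q ∈ pr ι P, (PS.N q : ℝ) ^ (-σ) +
            ∑ q ∈ pr ι P, ψ q * (PS.N q : ℝ) ^ (-σ)) := Real.exp_le_exp.2 hmain
      _ = (Real.exp (∑ q ∈ pr ι P, (PS.N q : ℝ) ^ (-σ))) ^ n *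
            Real.exp (∑ q ∈ pr ι P, ψ q * (PS.N q : ℝ) ^ (-σ)) := by
          rw [Real.exp_add, Real.exp_nat_mul]
      _ ≤ (C / (σ - 1)) ^ n * B := by
          refine mul_le_mul (pow_le_pow_left₀ (Real.exp_pos _).le hZ _) hψ'
            (Real.exp_pos _).le ?_
          exact pow_nonneg ((Real.exp_pos _).le.trans hZ) _
  have hroot : S = (S ^ m) ^ (1 / (m : ℝ)) := by
    rw [← Real.rpow_natCast S m, ← Real.rpow_mul hS0, mul_one_div_cancel hm0.ne', Real.rpow_one]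
  rw [hroot]
  exact Real.rpow_le_rpow (by positivity) hfin (by positivity)

theorem sigma_h (x : ℕ) (hx : 2 ≤ x) :
    1 < 1 + 1 / Real.log x ∧ 1 + 1 / Real.log x ≤ 3 ∧ 1 ≤ 2 * Real.log x := by
  have hxr : (2 : ℝ) ≤ x := by exact_mod_cast hx
  have hL : 0 < Real.log x := Real.log_pos (by linarith)
  have hL2 : 1 ≤ 2 * Real.log x := by
    have h1 : Real.log 2 ≤ Real.log x := Real.log_le_log (by norm_num) hxr
    have h2 := Real.log_two_gt_d9
    linarith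
  refine ⟨by have : 0 < 1 / Real.log x := one_div_pos.2 hL
             linarith, ?_, hL2⟩
  have : 1 / Real.log x ≤ 2 := by
    rw [div_le_iff₀ hL]
    exact hL2
  linarith

/-- The upper bound for a sum of a multiplicative function with values at most `H` and `(n + ψ) / m`. -/
theorem ubg {C1 C2 : ℝ} (h1 : Cheb ι C1) (h2 : Zt ι C2) (H m n : ℕ) (hm : 1 ≤ m) :
    ∃ K : ℝ, 0 < K ∧ ∀ (ψ : ι → ℝ) (B : ℝ), SumB ψ B → ∀ w : ι → ℝ,
      (∀ q, 0 ≤ w q ∧ w q ≤ H ∧ w q ≤ ((n : ℝ) + ψ q) / m) → ∀ x : ℕ, 2 ≤ x →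
      ∑ S ∈ Sx ι x, ∏ q ∈ S, w q ≤
        K * x * Real.log x ^ ((n : ℝ) / m - 1) * B ^ (1 / (m : ℝ)) := by
  have hm0 : (0 : ℝ) < m := by exact_mod_cast (by omega : 0 < m)
  set D : ℝ := max C2 1 with hD
  set E : ℝ := max (H * C1 + 1) 1 with hE
  have hD1 : 1 ≤ D := le_max_right _ _
  have hE1 : 1 ≤ E := le_max_right _ _
  refine ⟨E * Real.exp 1 * (D ^ n) ^ (1 / (m : ℝ)), by positivity, ?_⟩
  intro ψ B hψ w hw x hx
  have hxr : (2 : ℝ) ≤ x := by exact_mod_cast hx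
  have hL : 0 < Real.log x := Real.log_pos (by linarith)
  have hB : 0 ≤ B := by linarith [hψ.hB]
  obtain ⟨s1, s2, -⟩ := sigma_h x hx
  have hall' := hallh h1 H w (fun q => ⟨(hw q).1, (hw q).2.1⟩) x (by omega)
  have heul := euler_h h2 hψ m n hm w (fun q => ⟨(hw q).1, (hw q).2.2⟩) (1 + 1 / Real.log x) s1 s2 x
  have e1 : C2 / (1 + 1 / Real.log x - 1) = C2 * Real.log x := by
    rw [show 1 + 1 / Real.log x - 1 = 1 / Real.log x by ring, div_div_eq_mul_div, div_one]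
  rw [e1] at heul
  have hcmp := cmp_h w (fun q => (hw q).1) x hx
  have hC2 : 0 ≤ C2 * Real.log x := by
    have h6 := h2 (1 + 1 / Real.log x) x s1 s2
    rw [e1] at h6
    refine le_trans ?_ h6
    refine Finset.prod_nonneg fun q _ => ?_
    have hq : (2 : ℝ) ≤ PS.N q := by exact_mod_cast PS.two_le q
    rw [inv_nonneg, sub_nonneg]
    refine Real.rpow_le_one_of_one_le_of_nonpos (by linarith) (by linarith)
  have h7 : ((C2 * Real.log x) ^ n * B) ^ (1 / (m : ℝ)) ≤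
      (D ^ n) ^ (1 / (m : ℝ)) * (Real.log x ^ ((n : ℝ) / m) * B ^ (1 / (m : ℝ))) := by
    have h8 : (C2 * Real.log x) ^ n * B ≤ D ^ n * Real.log x ^ n * B := by
      refine mul_le_mul_of_nonneg_right ?_ hB
      rw [← mul_pow]
      refine pow_le_pow_left₀ hC2 ?_ _
      exact mul_le_mul_of_nonneg_right (le_max_left _ _) hL.le
    refine (Real.rpow_le_rpow (by positivity) h8 (by positivity)).trans (le_of_eq ?_)
    rw [Real.mul_rpow (by positivity) hB, Real.mul_rpow (by positivity) (by positivity), mul_assoc]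
    congr 2
    rw [← Real.rpow_natCast, ← Real.rpow_mul hL.le, mul_one_div]
  have hsum0 : 0 ≤ ∑ S ∈ Sx ι x, ∏ q ∈ S, w q :=
    Finset.sum_nonneg fun S _ => Finset.prod_nonneg fun q _ => (hw q).1
  have hsum1 : 0 ≤ ∑ S ∈ Sx ι x, (∏ q ∈ S, w q) / nm S :=
    Finset.sum_nonneg fun S _ => div_nonneg (Finset.prod_nonneg fun q _ => (hw q).1)
      (Nat.cast_nonneg _)
  refine le_of_mul_le_mul_right ?_ hL
  refine hall'.trans ?_
  have h9 : (H * C1 + 1) * x * ∑ S ∈ Sx ι x, (∏ q ∈ S, w q) / nm S ≤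
      E * x * ∑ S ∈ Sx ι x, (∏ q ∈ S, w q) / nm S := by
    refine mul_le_mul_of_nonneg_right ?_ hsum1
    exact mul_le_mul_of_nonneg_right (le_max_left _ _) (Nat.cast_nonneg _)
  refine h9.trans ?_
  have h10 : E * x * ∑ S ∈ Sx ι x, (∏ q ∈ S, w q) / nm S ≤
      E * x * (Real.exp 1 * ((D ^ n) ^ (1 / (m : ℝ)) *
        (Real.log x ^ ((n : ℝ) / m) * B ^ (1 / (m : ℝ))))) := by
    refine mul_le_mul_of_nonneg_left ?_ (by positivity)
    exact hcmp.trans (mul_le_mul_of_nonneg_left (heul.trans h7) (Real.exp_pos 1).le)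
  refine h10.trans (le_of_eq ?_)
  have h11 : Real.log x ^ ((n : ℝ) / m) = Real.log x ^ ((n : ℝ) / m - 1) * Real.log x := by
    rw [← Real.rpow_add_one hL.ne']
    congr 1
    ring
  rw [h11]
  ring


/-- The order of magnitude of the sums of the functions with the mean value `H`. -/
def Yh (H X : ℕ) : ℝ := X * Real.log X ^ (H - 1)

theorem Yh_nonneg (H X : ℕ) : 0 ≤ Yh H X :=
  mul_nonneg (Nat.cast_nonneg X) (pow_nonneg (Real.log_natCast_nonneg X) _)

theorem Yh_div (H X P : ℕ) (hP : 1 ≤ P) (h2 : 1 ≤ X / P) : Yh H (X / P) ≤ Yh H X * (1 / P) := by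
  have hP0 : (0 : ℝ) < P := by exact_mod_cast hP
  have h1 : ((X / P : ℕ) : ℝ) ≤ (X : ℝ) * (1 / P) := by
    rw [mul_one_div]
    exact Nat.cast_div_le
  have h3 : Real.log ((X / P : ℕ) : ℝ) ≤ Real.log X := by
    refine Real.log_le_log (by exact_mod_cast h2) ?_
    exact_mod_cast Nat.div_le_self X P
  unfold Yh
  calc ((X / P : ℕ) : ℝ) * Real.log ((X / P : ℕ) : ℝ) ^ (H - 1)
      ≤ ((X : ℝ) * (1 / P)) * Real.log X ^ (H - 1) :=
        mul_le_mul h1 (pow_le_pow_left₀ (Real.log_natCast_nonneg _) h3 _)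
          (pow_nonneg (Real.log_natCast_nonneg _) _) (by positivity)
    _ = X * Real.log X ^ (H - 1) * (1 / P) := by ring

theorem le_Yh (H X : ℕ) (hX : 3 ≤ X) : (X : ℝ) ≤ Yh H X := by
  have h3 : (3 : ℝ) ≤ X := by exact_mod_cast hX
  have h1 : 1 ≤ Real.log X := by
    rw [Real.le_log_iff_exp_le (by linarith)]
    have := Real.exp_one_lt_d9
    linarith
  unfold Yh
  exact le_mul_of_one_le_right (by linarith) (one_le_pow₀ h1)

/-- The upper bound with a saving. -/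
theorem ubh {C1 C2 : ℝ} (h1 : Cheb ι C1) (h2 : Zt ι C2) (H m : ℕ) (hH : 1 ≤ H) (hm : 1 ≤ m) :
    ∃ K : ℝ, 0 < K ∧ ∀ (ψ : ι → ℝ) (B : ℝ), SumB ψ B → ∀ w : ι → ℝ,
      (∀ q, 0 ≤ w q ∧ w q ≤ H ∧ w q ≤ ((H * m - 1 : ℝ) + ψ q) / m) → ∀ x : ℕ, 2 ≤ x →
      ∑ S ∈ Sx ι x, ∏ q ∈ S, w q ≤
        K * Yh H x * Real.log x ^ (-(1 / (m : ℝ))) * B ^ (1 / (m : ℝ)) := by
  obtain ⟨K, hK, hub⟩ := ubg h1 h2 H m (H * m - 1) hm
  refine ⟨K, hK, fun ψ B hψ w hw x hx => ?_⟩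
  have hm0 : (0 : ℝ) < m := by exact_mod_cast (by omega : 0 < m)
  have hxr : (2 : ℝ) ≤ x := by exact_mod_cast hx
  have hL : 0 < Real.log x := Real.log_pos (by linarith)
  have hHm : 1 ≤ H * m := Nat.one_le_iff_ne_zero.2 (Nat.mul_ne_zero (by omega) (by omega))
  have hc : ((H * m - 1 : ℕ) : ℝ) = (H * m - 1 : ℝ) := by
    rw [Nat.cast_sub hHm]
    push_cast
    rfl
  have h3 := hub ψ B hψ w (fun q => by rw [hc]; exact hw q) x hx
  refine h3.trans (le_of_eq ?_)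
  have e : Real.log x ^ (((H * m - 1 : ℕ) : ℝ) / m - 1) =
      Real.log x ^ (H - 1) * Real.log x ^ (-(1 / (m : ℝ))) := by
    rw [← Real.rpow_natCast, ← Real.rpow_add hL, hc, Nat.cast_sub hH]
    congr 1
    push_cast
    field_simp
    ring
  unfold Yh
  rw [e]
  ring

/-- The upper bound without a saving. -/
theorem ubh0 {C1 C2 : ℝ} (h1 : Cheb ι C1) (h2 : Zt ι C2) (H : ℕ) (hH : 1 ≤ H) :
    ∃ K : ℝ, 0 < K ∧ ∀ w : ι → ℝ, (∀ q, 0 ≤ w q ∧ w q ≤ H) → ∀ x : ℕ, 2 ≤ x →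
      ∑ S ∈ Sx ι x, ∏ q ∈ S, w q ≤ K * Yh H x := by
  obtain ⟨K, hK, hub⟩ := ubg h1 h2 H 1 H le_rfl
  refine ⟨K, hK, fun w hw x hx => ?_⟩
  have h3 := hub (fun _ => 0) 1 SumB.zero w (fun q => ⟨(hw q).1, (hw q).2, by
    rw [add_zero, Nat.cast_one, div_one]
    exact (hw q).2⟩) x hx
  refine h3.trans (le_of_eq ?_)
  have e : Real.log x ^ ((H : ℝ) / ((1 : ℕ) : ℝ) - 1) = Real.log x ^ (H - 1) := by
    rw [← Real.rpow_natCast, Nat.cast_sub hH]
    push_cast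
    rw [div_one]
  rw [e, Real.one_rpow, mul_one]
  unfold Yh
  ring

/-- The sums of the characters. -/
theorem SumB.sumCh {τ : Type} [Fintype τ] {χ : τ → ι → ℝ} {B : τ → ℝ} (h : ∀ i, CharB (χ i) (B i)) :
    SumB (fun q => ∑ i, χ i q) (∏ i, B i) := by
  classical
  have key : ∀ s : Finset τ, SumB (fun q => ∑ i ∈ s, χ i q) (∏ i ∈ s, B i) := by
    intro s
    induction s using Finset.induction_on with
    | empty => simpa using (SumB.zero (ι := ι))
    | insert a s ha ih =>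
      have h1 := (SumB.of (h a)).add ih
      simp only [Finset.sum_insert ha, Finset.prod_insert ha]
      exact h1
  exact key univ

/-- The upper bound with a saving, for sums of characters. -/
theorem ubfh {τ : Type} [Fintype τ] {C1 C2 : ℝ} (h1 : Cheb ι C1) (h2 : Zt ι C2) (H m : ℕ)
    (hH : 1 ≤ H) (hm : 1 ≤ m) :
    ∃ K : ℝ, 0 < K ∧ ∀ (χ : τ → ι → ℝ) (B : τ → ℝ), (∀ i, CharB (χ i) (B i)) → ∀ w : ι → ℝ,
      (∀ q, 0 ≤ w q ∧ w q ≤ H ∧ w q ≤ ((H * m - 1 : ℝ) + ∑ i, χ i q) / m) → ∀ x : ℕ, 2 ≤ x →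
      ∑ S ∈ Sx ι x, ∏ q ∈ S, w q ≤
        K * Yh H x * Real.log x ^ (-(1 / (m : ℝ))) * (∏ i, B i) ^ (1 / (m : ℝ)) := by
  obtain ⟨K, hK, hub⟩ := ubh h1 h2 H m hH hm
  exact ⟨K, hK, fun χ B hχ w hw x hx => hub _ _ (SumB.sumCh hχ) w hw x hx⟩

end

end Pool.Agent.Lib.MP_1a91b9_ntMN
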