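import Pool.Agent.Lib.MP_1a91b9_ntMQ.P0
import Pool.Agent.Lib.MP_1a91b9_ntMN.N0
import Pool.Agent.Lib.MP_1a91b9_ntMN.UBh
import Pool.Agent.Lib.MP_1a91b9_ntQ.D.ExtB

/-!
# MP_1a91b9_nt (multiquadratic fields, natural density), definitions of the engine

The families `c` of finite sets of primes are ordered by the norm of the union of the sets. The number of the families with the union
`S` is `h ^ #S`, `h = 2 ^ #I - 1` (`hI I`). `NN ι h X` is the number of the families with the norm of the union at most `X`,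
`Yh h X = X (log X) ^ (h - 1)` its order of magnitude. `MVc F v`: the mean value of `F` over these families is `v`, and with
a twist by characters which are not class characters the mean value is zero.
-/

set_option autoImplicit false
set_option linter.unusedSectionVars false

namespace Pool.Agent.Lib.MP_1a91b9_ntMN

open Finset Pool.Agent.Lib.MP_1a91b9_ntH Pool.Agent.Lib.MP_1a91b9_ntQ
open Pool.Agent.Lib.MP_1a91b9_ntQ.Da Pool.Agent.Lib.MP_1a91b9_ntV Pool.Agent.Lib.MP_1a91b9_ntM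
open Pool.Agent.Lib.MP_1a91b9_ntDV Pool.Agent.Lib.MP_1a91b9_ntMQ

noncomputable section

/-! ### Orders of magnitude -/

/-- The sum of `h ^ #S` over the squarefree `S` with `nm S ≤ X`. -/
def NN (ι : Type) [DecidableEq ι] [PS ι] (h X : ℕ) : ℝ := ∑ S ∈ Sx ι X, (h : ℝ) ^ S.card

/-- The number of the colours different from zero. -/
def hI (I : Type) [Fintype I] : ℕ := 2 ^ Fintype.card I - 1

theorem NN_nonneg (ι : Type) [DecidableEq ι] [PS ι] (h X : ℕ) : 0 ≤ NN ι h X :=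
  sum_nonneg fun _ _ => pow_nonneg (Nat.cast_nonneg _) _

theorem one_le_hI (I : Type) [Fintype I] [Nonempty I] : 1 ≤ hI I := by
  have h1 : 1 ≤ Fintype.card I := Fintype.card_pos
  have h2 : 2 ^ 1 ≤ 2 ^ Fintype.card I := Nat.pow_le_pow_right (by norm_num) h1
  unfold hI
  omega

/-! ### Twists -/

/-- The characters of the primes which occur as twists (`T`), and those of them which are not class characters (`F`). -/
class TwS (ι : Type) where
  T : Set (ι → ℂ)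
  F : Set (ι → ℂ)

/-- The twists outside `B`. -/
instance offTw {ι : Type} [DecidableEq ι] (B : Finset ι) [TwS ι] : TwS (Off B) where
  T := {τ | ∃ σ ∈ (TwS.T : Set (ι → ℂ)), ∀ q : Off B, τ q = σ q.1}
  F := {τ | ∃ σ ∈ (TwS.F : Set (ι → ℂ)), ∀ q : Off B, τ q = σ q.1}

/-- The twist of a family. -/
def twc {I ι : Type} [Fintype I] (χ : I → ι → ℂ) (c : I → Finset ι) : ℂ := ∏ i, ∏ q ∈ c i, χ i q

/-- The families of characters which are not all class characters. -/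
def FarF {I ι : Type} [TwS ι] (χ : I → ι → ℂ) : Prop :=
  (∀ i, χ i ∈ (TwS.T : Set (ι → ℂ))) ∧ ∃ i, χ i ∈ (TwS.F : Set (ι → ℂ))

/-- The hypotheses on the symbols, the class characters and the twists. -/
structure OKT {ι κ : Type} [DecidableEq ι] [Fintype κ] (D : Dat2 ι κ) [PS ι] [TwS ι] (w : κ → ZMod 2) : Prop
    extends OKt D w where
  nrm : ∀ τ ∈ (TwS.T : Set (ι → ℂ)), ∀ q, ‖τ q‖ = 1
  one : (fun _ => 1) ∈ (TwS.T : Set (ι → ℂ))
  mul : ∀ τ ∈ (TwS.T : Set (ι → ℂ)), ∀ σ ∈ (TwS.T : Set (ι → ℂ)), (fun q => τ q * σ q) ∈ (TwS.T : Set (ι → ℂ))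
  inv : ∀ τ ∈ (TwS.T : Set (ι → ℂ)), (fun q => (τ q)⁻¹) ∈ (TwS.T : Set (ι → ℂ))
  di : ∀ τ ∈ (TwS.T : Set (ι → ℂ)), ∀ c : κ → ZMod 2,
    (∀ q, τ q * e2 (D.dg c q) = 1) ∨ Mz ∅ (fun q => τ q * e2 (D.dg c q))
  far : ∀ τ ∈ (TwS.F : Set (ι → ℂ)), ∀ c : κ → ZMod 2, Mz ∅ (fun q => τ q * e2 (D.dg c q))

/-! ### The sums over the families with the union `S` -/

section Av

variable {I : Type} [Fintype I] [DecidableEq I] {ι : Type} [DecidableEq ι]

/-- The families of sets with the union `S`. -/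
def covF (I : Type) [Fintype I] [DecidableEq I] (S : Finset ι) : Finset (I → Finset ι) :=
  (Fintype.piFinset fun _ : I => S.powerset).filter fun c => univ.biUnion c = S

/-- The sum of `F` over the families with the union `S`. -/
def smI (F : (I → Finset ι) → ℂ) (S : Finset ι) : ℂ := ∑ c ∈ covF I S, F c

theorem mem_covF {S : Finset ι} {c : I → Finset ι} : c ∈ covF I S ↔ univ.biUnion c = S := by
  unfold covF
  rw [mem_filter, Fintype.mem_piFinset]
  refine ⟨fun h => h.2, fun h => ⟨fun i => mem_powerset.2 ?_, h⟩⟩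
  rw [← h]
  exact subset_biUnion_of_mem c (mem_univ i)

variable [PS ι]

/-- The mean value of `F` over the families, ordered by the norm of the union, is `v`. -/
def MV0 (F : (I → Finset ι) → ℂ) (v : ℂ) : Prop :=
  ∀ ε : ℝ, 0 < ε → ∃ X₀ : ℕ, ∀ X : ℕ, X₀ ≤ X →
    ‖∑ S ∈ Sx ι X, smI F S - v * (NN ι (hI I) X : ℂ)‖ ≤ ε * (NN ι (hI I) X + Yh (hI I) X)

variable [TwS ι]

/-- The mean value of `F` over the families is `v`, and zero with a twist. -/
def MVc (F : (I → Finset ι) → ℂ) (v : ℂ) : Prop :=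
  MV0 F v ∧ ∀ χ : I → ι → ℂ, FarF χ → MV0 (fun c => twc χ c * F c) 0

/-- The same for real functions. -/
def MVrc (F : (I → Finset ι) → ℝ) (v : ℝ) : Prop := MVc (fun c => (F c : ℂ)) (v : ℂ)

open Classical in
/-- The mean value of `f` over the families `c` with the classes `γ i` is `v`. -/
def PclC {κ : Type} [Fintype κ] [DecidableEq κ] (D : Dat2 ι κ) (γ : I → κ → ZMod 2)
    (f : (I → Finset ι) → ℝ) (v : ℝ) : Prop :=
  MVrc (fun c => if ∀ i, clN D (c i) = γ i then f c else 0)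
    (v / 2 ^ (Fintype.card κ * Fintype.card I))

end Av

/-! ### The engine with the total weight `h` -/

section Eng

variable {ι : Type} [DecidableEq ι] {κ : Type} {L : Type} [Fintype L] [DecidableEq L]

/-- The hypotheses on a label system with weights of the total size `h`; `Us` is the set of the maximal unlinked sets,
`mU U` is the mean value for the set `U`. -/
structure OKh (Λ : LG L ι) [PS ι] (D : Dat2 ι κ) (h M : ℕ) (Us : Finset (Finset L))
    (mU : Finset L → ℂ) (N : ℕ → ℂ) : Prop where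
  diag : ∀ l, Λ.Phi l l = 0
  os : ∀ l m, Λ.Phi l m = 0 ∨ Λ.Phi m l = 0
  nrm : ∀ l q, ‖Λ.g l q‖ ≤ 1
  two : 2 ≤ M
  pos : 1 ≤ h
  unl : ∀ U ∈ Us, Λ.Unl U
  er : ∀ U ∈ Us, ∀ l ∈ U, U.erase l ∉ Us
  small : ∃ B, ∀ Z, Λ.Unl Z → Z ∉ Us → ∃ ψ : ι → ℝ, SumB ψ B ∧ ∀ q,
    ∑ l ∈ Z, ‖Λ.g l q‖ ≤ h ∧ ∑ l ∈ Z, ‖Λ.g l q‖ ≤ ((h * M - 1 : ℝ) + ψ q) / M
  mid : ∃ C : ℝ, ∀ U ∈ Us, ∀ b : L → Finset ι, PD b → (∀ l ∈ U, b l = ∅) → uni b ≠ ∅ →
    (∀ l, ∀ q ∈ b l, Λ.g l q ≠ 0) →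
    ∃ ψ : ι → ℝ, SumB ψ ((C * (1 + Real.log (nm (uni b)))) ^ M) ∧
      (∀ q, 0 ≤ (h * M - 1 : ℝ) + ψ q) ∧ ∀ q, q ∉ uni b →
        ‖HG D Λ U b q‖ ≤ h ∧ ‖HG D Λ U b q‖ ≤ ((h * M - 1 : ℝ) + ψ q) / M
  main : ∀ U ∈ Us, ∀ ε : ℝ, 0 < ε → ∃ X₀ : ℕ, ∀ X : ℕ, X₀ ≤ X →
    ‖∑ S ∈ Sx ι X, ∏ q ∈ S, ∑ l ∈ U, Λ.g l q - mU U * N X‖ ≤ ε * Yh h X

/-- The hypotheses on the exponents `Phi`, the weights `n` with the total size `h`, the set `Us` of the maximal unlinked sets and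
the colours `col`. -/
structure WSh {L C : Type} [Fintype L] [DecidableEq L] (col : L → C) (Phi : L → L → ZMod 2) (n : L → ℝ)
    (h M : ℕ) (Us : Finset (Finset L)) : Prop where
  self : ∀ x, Phi x x = 0
  pos : ∀ x, 2 / (M : ℝ) ≤ n x
  le_one : ∀ x, n x ≤ 1
  two : 2 ≤ M
  hp : 1 ≤ h
  unl : ∀ U ∈ Us, ∀ x ∈ U, ∀ y ∈ U, Phi x y + Phi y x = 0
  sum : ∀ U ∈ Us, ∑ x ∈ U, n x = h
  small : ∀ Z : Finset L, (∀ x ∈ Z, ∀ y ∈ Z, Phi x y + Phi y x = 0) → Z ∉ Us →
    ∑ x ∈ Z, n x ≤ h - 1 / (M : ℝ)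
  ex : ∀ U ∈ Us, ∀ m, m ∉ U → ∃ x ∈ U, ∃ x' ∈ U, col x = col x' ∧ Phi x m + Phi m x ≠ Phi x' m + Phi m x'

/-- The one-sided label system with the weights `n`, the class vectors `c` and the twists `τ`. -/
def LSX [Fintype κ] (D : Dat2 ι κ) (Phi : L → L → ZMod 2) (n : L → ℝ) (c : L → κ → ZMod 2) (τ : L → ι → ℂ) :
    LG L ι where
  Phi := Phi1 Phi
  g := fun x q => (n x : ℂ) * (τ x q * e2 (D.dg (c x) q))

end Eng

/-! ### The labels -/

section Lbl

variable {I A : Type} [Fintype I] [DecidableEq I] [Fintype A] [DecidableEq A]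

/-- The labels with a colour different from zero. -/
def Lc (phi : A → I → ZMod 2) (k : A → ℕ) : Type := {z : Lb phi k // z.1.1 ≠ 0}

instance decLc (phi : A → I → ZMod 2) (k : A → ℕ) : DecidableEq (Lc phi k) := Classical.decEq _

open Classical in
instance finLc (phi : A → I → ZMod 2) (k : A → ℕ) : Fintype (Lc phi k) :=
  Fintype.ofFinite {z : Lb phi k // z.1.1 ≠ 0}

/-- The exponents. -/
def PLc (phi : A → I → ZMod 2) (k : A → ℕ) (z y : Lc phi k) : ZMod 2 := PL phi k z.1 y.1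

/-- The colour. -/
def colc {phi : A → I → ZMod 2} {k : A → ℕ} (z : Lc phi k) : I → ZMod 2 := z.1.1.1

/-- The weights. -/
def nLc {phi : A → I → ZMod 2} {k : A → ℕ} (z : Lc phi k) : ℝ :=
  ∏ a, if phi a ⬝ᵥ z.1.1.1 = 1 then ((2 : ℝ) ^ k a)⁻¹ else 1

open Classical in
/-- The labels with a colour different from zero in the set `U`. -/
def rs {phi : A → I → ZMod 2} {k : A → ℕ} (U : Finset (Lb phi k)) : Finset (Lc phi k) :=
  univ.filter fun z => z.1 ∈ U

open Classical in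
/-- The maximal unlinked sets. -/
def UsLc (phi : A → I → ZMod 2) (k : A → ℕ) : Finset (Finset (Lc phi k)) := (UsL phi k).image rs

theorem mem_rs {phi : A → I → ZMod 2} {k : A → ℕ} {U : Finset (Lb phi k)} {z : Lc phi k} :
    z ∈ rs U ↔ z.1 ∈ U := by
  classical
  unfold rs
  rw [mem_filter]
  exact ⟨fun h => h.2, fun h => ⟨mem_univ _, h⟩⟩

theorem mem_UsLc {phi : A → I → ZMod 2} {k : A → ℕ} {U : Finset (Lc phi k)} :
    U ∈ UsLc phi k ↔ ∃ V ∈ UsL phi k, rs V = U := by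
  classical
  unfold UsLc
  rw [mem_image]

/-- The twist of a colour. -/
def twz {ι : Type} (χ : I → ι → ℂ) (w : I → ZMod 2) (q : ι) : ℂ := ∏ i, if w i = 1 then χ i q else 1

end Lbl

end

end Pool.Agent.Lib.MP_1a91b9_ntMN
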