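import Pool.Agent.Lib.MP_1a91b9_ntQ.D.PL
import Pool.Agent.Lib.MP_1a91b9_ntV.D.Inner
import Pool.Agent.Lib.MP_1a91b9_ntMN.E0

/-!
# MP_1a91b9_nt (extensions ordered by the ramified primes): linked labels
-/

set_option autoImplicit false
set_option linter.unusedSectionVars false

namespace Pool.Agent.Lib.MP_1a91b9_ntMN

open Finset Pool.Agent.Lib.MP_1a91b9_ntH Pool.Agent.Lib.MP_1a91b9_ntQ
open Pool.Agent.Lib.MP_1a91b9_ntQ.Da Pool.Agent.Lib.MP_1a91b9_ntV Pool.Agent.Lib.MP_1a91b9_ntM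
open Pool.Agent.Lib.MP_1a91b9_ntDV Pool.Agent.Lib.MP_1a91b9_ntMQ
open Pool.Agent.Lib.MP_1a91b9_ntQ.D (ss_union_left ss_union_right ss_empty_left ss_empty_right plc)

noncomputable section

variable {ι : Type} [DecidableEq ι] [PS ι] {L : Type} [Fintype L] [DecidableEq L] {κ : Type} [Fintype κ]

set_option linter.unusedSectionVars false

private theorem linked_base_apply (l0 l1 : L) (d : L → Finset ι) (l : L) :
    base l0 l1 d l = if l = l1 then ∅ else if l = l0 then ∅ else d l := by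
  unfold base
  rw [Function.update_apply, Function.update_apply]

private theorem linked_sum {M : Type} [AddCommMonoid M] {l0 l1 : L} (hne : l0 ≠ l1) (d : L → Finset ι)
    (f : L → Finset ι → M) (h0 : ∀ l, f l ∅ = 0) :
    ∑ l, f l (d l) = f l0 (d l0) + f l1 (d l1) + ∑ l, f l (base l0 l1 d l) := by
  have key : ∀ l, f l (d l) = (if l = l0 then f l0 (d l0) else 0) + (if l = l1 then f l1 (d l1) else 0) +
      f l (base l0 l1 d l) := by
    intro l
    rw [linked_base_apply]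
    by_cases h1 : l = l1
    · subst h1
      simp [hne.symm, h0]
    · by_cases h2 : l = l0
      · subst h2
        simp [h1, h0]
      · simp [h1, h2]
  rw [sum_congr rfl fun l _ => key l, sum_add_distrib, sum_add_distrib]
  simp

private theorem linked_mul {l0 l1 : L} (hne : l0 ≠ l1) (d : L → Finset ι)
    (f : L → Finset ι → ℂ) (h0 : ∀ l, f l ∅ = 1) :
    ∏ l, f l (d l) = f l0 (d l0) * f l1 (d l1) * ∏ l, f l (base l0 l1 d l) := by
  have key : ∀ l, f l (d l) = (if l = l0 then f l0 (d l0) else 1) * (if l = l1 then f l1 (d l1) else 1) *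
      f l (base l0 l1 d l) := by
    intro l
    rw [linked_base_apply]
    by_cases h1 : l = l1
    · subst h1
      simp [hne.symm, h0]
    · by_cases h2 : l = l0
      · subst h2
        simp [h1, h0]
      · simp [h1, h2]
  rw [prod_congr rfl fun l _ => key l, prod_mul_distrib, prod_mul_distrib]
  simp

private theorem linked_PD_base (l0 l1 : L) {d : L → Finset ι} (hd : PD d) : PD (base l0 l1 d) := by
  intro l m hlm
  rw [linked_base_apply, linked_base_apply]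
  split_ifs <;> simp [hd l m hlm]

private theorem linked_disj0 (l0 l1 : L) {d : L → Finset ι} (hd : PD d) :
    Disjoint (d l0) (uni (base l0 l1 d)) := by
  unfold uni
  rw [disjoint_biUnion_right]
  intro l _
  rw [linked_base_apply]
  split_ifs with h1 h2
  · simp
  · simp
  · exact hd l0 l fun h => h2 h.symm

private theorem linked_disj1 (l0 l1 : L) {d : L → Finset ι} (hd : PD d) :
    Disjoint (d l1) (uni (base l0 l1 d)) := by
  unfold uni
  rw [disjoint_biUnion_right]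
  intro l _
  rw [linked_base_apply]
  split_ifs with h1 h2
  · simp
  · simp
  · exact hd l1 l fun h => h1 h.symm

/-- The exponent of the pairs between `S`, with the label `l`, and the family `b`. -/
private def xgS (D : Dat2 ι κ) (Λ : LG L ι) (b : L → Finset ι) (l : L) (S : Finset ι) : ZMod 2 :=
  ∑ k, (Λ.Phi l k * D.ss S (b k) + Λ.Phi k l * D.ss (b k) S)

private theorem linked_eg {l0 l1 : L} (hne : l0 ≠ l1) (D : Dat2 ι κ) (Λ : LG L ι)
    (hdiag : ∀ l, Λ.Phi l l = 0) (h10 : Λ.Phi l1 l0 = 0) (d : L → Finset ι) :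
    eg D Λ d = eg D Λ (base l0 l1 d) + xgS D Λ (base l0 l1 d) l0 (d l0) +
      xgS D Λ (base l0 l1 d) l1 (d l1) + Λ.Phi l0 l1 * D.ss (d l0) (d l1) := by
  have e6 : ∑ l, ∑ m, Λ.Phi l m * D.ss (d l) (d m) =
      ∑ m, Λ.Phi l0 m * D.ss (d l0) (d m) + ∑ m, Λ.Phi l1 m * D.ss (d l1) (d m) +
        ∑ l, ∑ m, Λ.Phi l m * D.ss (base l0 l1 d l) (d m) :=
    linked_sum hne d (fun l S => ∑ m, Λ.Phi l m * D.ss S (d m)) fun l => by
      show ∑ m, Λ.Phi l m * D.ss ∅ (d m) = 0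
      exact sum_eq_zero fun m _ => by rw [ss_empty_left, mul_zero]
  have e5 : ∀ (l : L) (R : Finset ι), ∑ m, Λ.Phi l m * D.ss R (d m) =
      Λ.Phi l l0 * D.ss R (d l0) + Λ.Phi l l1 * D.ss R (d l1) +
        ∑ m, Λ.Phi l m * D.ss R (base l0 l1 d m) := fun l R =>
    linked_sum hne d (fun m S => Λ.Phi l m * D.ss R S) fun m => by
      show Λ.Phi l m * D.ss R ∅ = 0
      rw [ss_empty_right, mul_zero]
  unfold eg xgS
  rw [e6, e5 l0 (d l0), e5 l1 (d l1), sum_congr rfl fun l _ => e5 l (base l0 l1 d l), hdiag l0,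
    hdiag l1, h10]
  simp only [sum_add_distrib]
  ring

open Classical in
private def linked_al (D : Dat2 ι κ) (Λ : LG L ι) (V : ℕ) (Z : Finset L) (l0 l1 : L)
    (b : L → Finset ι) (S : Finset ι) : ℂ :=
  if PD b ∧ Disjoint S (uni b) ∧ (∀ l, l ≠ l0 → l ≠ l1 → (l ∈ Z ↔ V < nm (b l))) then
    (wg Λ b * e2 (eg D Λ b)) * ((∏ q ∈ S, Λ.g l0 q) * e2 (xgS D Λ b l0 S))
  else 0

open Classical in
private def linked_be (D : Dat2 ι κ) (Λ : LG L ι) (l1 : L) (b : L → Finset ι) (T : Finset ι) : ℂ :=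
  if Disjoint T (uni b) then (∏ q ∈ T, Λ.g l1 q) * e2 (xgS D Λ b l1 T) else 0

private theorem linked_term_le (Λ : LG L ι) (hn : ∀ l q, ‖Λ.g l q‖ ≤ 1) (l : L)
    (S : Finset ι) (x : ZMod 2) : ‖(∏ q ∈ S, Λ.g l q) * e2 x‖ ≤ 1 := by
  rw [norm_mul, norm_e2, mul_one, norm_prod]
  exact prod_le_one (fun q _ => norm_nonneg _) fun q _ => hn l q

private theorem linked_al_le (D : Dat2 ι κ) (Λ : LG L ι) (hn : ∀ l q, ‖Λ.g l q‖ ≤ 1)
    (V : ℕ) (Z : Finset L) (l0 l1 : L)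
    (b : L → Finset ι) (S : Finset ι) : ‖linked_al D Λ V Z l0 l1 b S‖ ≤ 1 := by
  unfold linked_al
  split_ifs with h
  · rw [norm_mul]
    refine mul_le_one₀ ?_ (norm_nonneg _) (linked_term_le Λ hn _ _ _)
    rw [norm_mul, norm_e2, mul_one]
    exact norm_wg_le Λ hn b
  · rw [norm_zero]
    exact zero_le_one

private theorem linked_be_le (D : Dat2 ι κ) (Λ : LG L ι) (hn : ∀ l q, ‖Λ.g l q‖ ≤ 1) (l1 : L)
    (b : L → Finset ι) (T : Finset ι) : ‖linked_be D Λ l1 b T‖ ≤ 1 := by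
  unfold linked_be
  split_ifs with h
  · exact linked_term_le Λ hn _ _ _
  · rw [norm_zero]
    exact zero_le_one

private theorem linked_al_supp (D : Dat2 ι κ) (Λ : LG L ι) (V : ℕ) (Z : Finset L) (l0 l1 : L)
    (b : L → Finset ι) (S : Finset ι) (h : linked_al D Λ V Z l0 l1 b S ≠ 0) :
    PD b ∧ Disjoint S (uni b) := by
  unfold linked_al at h
  have c := by_contra fun h' => h (if_neg h')
  exact ⟨c.1, c.2.1⟩

private theorem linked_be_supp (D : Dat2 ι κ) (Λ : LG L ι) (l1 : L)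
    (b : L → Finset ι) (T : Finset ι) (h : linked_be D Λ l1 b T ≠ 0) : Disjoint T (uni b) := by
  unfold linked_be at h
  exact by_contra fun h' => h (if_neg h')

open Classical in
private theorem linked_main {l0 l1 : L} (hne : l0 ≠ l1) (D : Dat2 ι κ) (Λ : LG L ι)
    (hdiag : ∀ l, Λ.Phi l l = 0) (h10 : Λ.Phi l1 l0 = 0) (V : ℕ) (Z : Finset L) {d : L → Finset ι}
    (hd : PD d) :
    linked_al D Λ V Z l0 l1 (base l0 l1 d) (d l0) * linked_be D Λ l1 (base l0 l1 d) (d l1) *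
        e2 (Λ.Phi l0 l1 * D.ss (d l0) (d l1)) =
      if ∀ l, l ≠ l0 → l ≠ l1 → (l ∈ Z ↔ V < nm (d l)) then FG D Λ d else 0 := by
  have hb : (∀ l, l ≠ l0 → l ≠ l1 → (l ∈ Z ↔ V < nm (base l0 l1 d l))) ↔
      ∀ l, l ≠ l0 → l ≠ l1 → (l ∈ Z ↔ V < nm (d l)) := by
    refine forall_congr' fun l => forall_congr' fun h0 => forall_congr' fun h1 => ?_
    rw [linked_base_apply, if_neg h1, if_neg h0]
  by_cases h2 : ∀ l, l ≠ l0 → l ≠ l1 → (l ∈ Z ↔ V < nm (d l))
  · rw [if_pos h2]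
    unfold linked_al linked_be
    rw [if_pos ⟨linked_PD_base l0 l1 hd, linked_disj0 l0 l1 hd, hb.2 h2⟩,
      if_pos (linked_disj1 l0 l1 hd)]
    unfold FG
    have hw : wg Λ d = (∏ q ∈ d l0, Λ.g l0 q) * (∏ q ∈ d l1, Λ.g l1 q) * wg Λ (base l0 l1 d) :=
      linked_mul hne d (fun l S => ∏ q ∈ S, Λ.g l q) fun l => prod_empty
    rw [linked_eg hne D Λ hdiag h10 d, hw]
    simp only [e2_add]
    ring
  · rw [if_neg h2]
    have : linked_al D Λ V Z l0 l1 (base l0 l1 d) (d l0) = 0 := by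
      unfold linked_al
      exact if_neg fun h => h2 (hb.1 h.2.2)
    rw [this, zero_mul, zero_mul]

theorem linked_boundh (D : Dat2 ι κ) (hD : An D) (Λ : LG L ι) (hdiag : ∀ l, Λ.Phi l l = 0)
    (hos : ∀ l m, Λ.Phi l m = 0 ∨ Λ.Phi m l = 0) (hnrm : ∀ l q, ‖Λ.g l q‖ ≤ 1) :
    ∃ (C : ℝ) (K : ℕ) (c : ℝ), 0 < C ∧ 0 < c ∧ ∀ (X V : ℕ) (Z : Finset L) (l0 l1 : L), 2 ≤ X → 1 ≤ V →
      l0 ∈ Z → l1 ∈ Z → Λ.lk l0 l1 ≠ 0 →
      ‖∑ d ∈ BoxZ ι X V Z, FG D Λ d‖ ≤ C * X * (1 + Real.log X) ^ K * (V : ℝ) ^ (-c) := by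
  obtain ⟨C0, K0, c0, hc0, hBL⟩ := hD.bl
  obtain ⟨C2, hZ⟩ := hD.zt
  obtain ⟨H, hH1, hH⟩ := harm hZ
  obtain ⟨C, hC, hpl⟩ := plc (L := L) D hBL.cx hH1 hH
  refine ⟨C, K0 + Fintype.card L, c0, hC, hc0, ?_⟩
  classical
  -- the case `Phi l1 l0 = 0`
  have main : ∀ (X V : ℕ) (Z : Finset L) (l0 l1 : L), 2 ≤ X → 1 ≤ V →
      l0 ∈ Z → l1 ∈ Z → Λ.Phi l0 l1 ≠ 0 → Λ.Phi l1 l0 = 0 →
      ‖∑ d ∈ BoxZ ι X V Z, FG D Λ d‖ ≤
        C * X * (1 + Real.log X) ^ (K0 + Fintype.card L) * (V : ℝ) ^ (-c0) := by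
    intro X V Z l0 l1 hX hV h0 h1 h01 h10
    have hne : l0 ≠ l1 := by
      intro h
      apply h01
      rw [h]
      exact hdiag l1
    have key : ∑ d ∈ BoxZ ι X V Z, FG D Λ d =
        ∑ d ∈ (Box ι L X).filter (fun d => V < nm (d l0) ∧ V < nm (d l1)),
          linked_al D Λ V Z l0 l1 (base l0 l1 d) (d l0) * linked_be D Λ l1 (base l0 l1 d) (d l1) *
            e2 (Λ.Phi l0 l1 * D.ss (d l0) (d l1)) := by
      have e1 : ∑ d ∈ (Box ι L X).filter (fun d => V < nm (d l0) ∧ V < nm (d l1)),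
          linked_al D Λ V Z l0 l1 (base l0 l1 d) (d l0) * linked_be D Λ l1 (base l0 l1 d) (d l1) *
            e2 (Λ.Phi l0 l1 * D.ss (d l0) (d l1)) =
          ∑ d ∈ (Box ι L X).filter (fun d => V < nm (d l0) ∧ V < nm (d l1)),
            if ∀ l, l ≠ l0 → l ≠ l1 → (l ∈ Z ↔ V < nm (d l)) then FG D Λ d else 0 := by
        refine sum_congr rfl fun d hd => ?_
        exact linked_main hne D Λ hdiag h10 V Z (mem_Box.1 (mem_filter.1 hd).1).1
      rw [e1, ← sum_filter, filter_filter]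
      refine sum_congr ?_ fun _ _ => rfl
      ext d
      rw [mem_BoxZ, mem_filter, mem_Box, and_assoc]
      refine and_congr_right fun _ => and_congr_right fun _ => ⟨fun h => ⟨⟨(h l0).1 h0, (h l1).1 h1⟩,
        fun l _ _ => h l⟩, fun h l => ?_⟩
      by_cases e0 : l = l0
      · subst e0
        exact ⟨fun _ => h.1.1, fun _ => h0⟩
      · by_cases e1 : l = l1
        · subst e1
          exact ⟨fun _ => h.1.2, fun _ => h1⟩
        · exact h.2 l e0 e1
    rw [key]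
    refine (le_of_eq ?_).trans (hpl (Λ.Phi l0 l1) l0 l1 (fun d => linked_al D Λ V Z l0 l1 (base l0 l1 d) (d l0) *
        linked_be D Λ l1 (base l0 l1 d) (d l1) * e2 (Λ.Phi l0 l1 * D.ss (d l0) (d l1)))
        (linked_al D Λ V Z l0 l1) (linked_be D Λ l1) V X h01 hne hV hX
        (fun b S => linked_al_le D Λ hnrm V Z l0 l1 b S)
        (fun b S => linked_be_le D Λ hnrm l1 b S)
        (fun b S h => linked_al_supp D Λ V Z l0 l1 b S h)
        (fun b S h => linked_be_supp D Λ l1 b S h) (fun d _ => rfl))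
    refine congrArg norm (sum_congr ?_ fun _ _ => rfl)
    ext d
    simp only [mem_filter]
  intro X V Z l0 l1 hX hV h0 h1 hlk
  unfold LG.lk at hlk
  rcases hos l0 l1 with h | h
  · rw [h, zero_add] at hlk
    exact main X V Z l1 l0 hX hV h1 h0 hlk h
  · rw [h, add_zero] at hlk
    exact main X V Z l0 l1 hX hV h0 h1 hlk h

end

end Pool.Agent.Lib.MP_1a91b9_ntMN
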