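import Pool.Agent.Lib.MP_1a91b9_ntV.D.Engine
import Pool.Agent.Lib.MP_1a91b9_ntMN.EG1
import Pool.Agent.Lib.MP_1a91b9_ntMN.EG2
import Pool.Agent.Lib.MP_1a91b9_ntMN.EG4

/-!
# MP_1a91b9_nt (extensions ordered by the ramified primes): the engine with the total weight `h`
-/

set_option autoImplicit false
set_option linter.unusedSectionVars false

namespace Pool.Agent.Lib.MP_1a91b9_ntMN

open Finset Pool.Agent.Lib.MP_1a91b9_ntH Pool.Agent.Lib.MP_1a91b9_ntQ
open Pool.Agent.Lib.MP_1a91b9_ntQ.Da Pool.Agent.Lib.MP_1a91b9_ntV Pool.Agent.Lib.MP_1a91b9_ntM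
open Pool.Agent.Lib.MP_1a91b9_ntDV Pool.Agent.Lib.MP_1a91b9_ntMQ

noncomputable section

variable {ι : Type} [DecidableEq ι] [PS ι] {L : Type} [Fintype L] [DecidableEq L] {κ : Type} [Fintype κ]

private theorem eng_part (X V : ℕ) (G : (L → Finset ι) → ℂ) :
    ∑ d ∈ Box ι L X, G d = ∑ Z : Finset L, ∑ d ∈ BoxZ ι X V Z, G d := by
  classical
  rw [← Finset.sum_fiberwise (Box ι L X) (fun d => univ.filter fun l => V < nm (d l)) G]
  refine Finset.sum_congr rfl fun Z _ => Finset.sum_congr ?_ fun _ _ => rfl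
  ext d
  rw [mem_filter, mem_Box, mem_BoxZ, and_assoc]
  refine and_congr_right fun _ => and_congr_right fun _ => ?_
  constructor
  · rintro rfl l
    simp
  · intro h
    ext l
    rw [mem_filter]
    exact ⟨fun hl => (h l).2 hl.2, fun hl => ⟨mem_univ _, (h l).1 hl⟩⟩

private theorem eng_small (D : Dat2 ι κ) (Λ : LG L ι) (X V : ℕ) (Z : Finset L) :
    ∑ d ∈ BoxZ ι X V Z, ‖FG D Λ d‖ ≤ ∑ d ∈ BoxS ι X V Z, ‖FG D Λ d‖ := by
  refine Finset.sum_le_sum_of_subset_of_nonneg ?_ fun _ _ _ => norm_nonneg _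
  intro d hd
  rw [mem_BoxZ] at hd
  rw [mem_BoxS]
  refine ⟨hd.1, hd.2.1, fun l hl => ?_⟩
  by_contra h
  push Not at h
  exact hl ((hd.2.2 l).2 h)

private theorem eng_biUnion {α β : Type} [DecidableEq α] [DecidableEq β] (U : Finset α)
    (T : α → Finset β) (f : β → ℝ) (hf : ∀ x, 0 ≤ f x) :
    ∑ x ∈ U.biUnion T, f x ≤ ∑ l ∈ U, ∑ x ∈ T l, f x := by
  induction U using Finset.induction_on with
  | empty => simp
  | insert a U ha ih =>
    rw [Finset.biUnion_insert, Finset.sum_insert ha]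
    have h := Finset.sum_union_inter (s₁ := T a) (s₂ := U.biUnion T) (f := f)
    have h0 : 0 ≤ ∑ x ∈ T a ∩ U.biUnion T, f x := Finset.sum_nonneg fun x _ => hf x
    linarith

private theorem eng_exact (D : Dat2 ι κ) (Λ : LG L ι) (X V : ℕ) (U : Finset L) :
    ‖∑ d ∈ BoxZ ι X V U, FG D Λ d - ∑ d ∈ BoxS ι X V U, FG D Λ d‖ ≤
      ∑ l ∈ U, ∑ d ∈ BoxS ι X V (U.erase l), ‖FG D Λ d‖ := by
  classical
  have hsub : BoxZ ι X V U ⊆ BoxS ι X V U := by
    intro d hd
    rw [mem_BoxZ] at hd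
    rw [mem_BoxS]
    refine ⟨hd.1, hd.2.1, fun l hl => ?_⟩
    by_contra h
    push Not at h
    exact hl ((hd.2.2 l).2 h)
  have h1 : ∑ d ∈ BoxS ι X V U, FG D Λ d = ∑ d ∈ BoxS ι X V U \ BoxZ ι X V U, FG D Λ d +
      ∑ d ∈ BoxZ ι X V U, FG D Λ d := (Finset.sum_sdiff hsub).symm
  rw [h1]
  have h2 : ∑ d ∈ BoxZ ι X V U, FG D Λ d - (∑ d ∈ BoxS ι X V U \ BoxZ ι X V U, FG D Λ d +
      ∑ d ∈ BoxZ ι X V U, FG D Λ d) = - ∑ d ∈ BoxS ι X V U \ BoxZ ι X V U, FG D Λ d := by ring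
  rw [h2, norm_neg]
  refine (norm_sum_le _ _).trans ?_
  have hsub2 : BoxS ι X V U \ BoxZ ι X V U ⊆ U.biUnion fun l => BoxS ι X V (U.erase l) := by
    intro d hd
    rw [mem_sdiff, mem_BoxS, mem_BoxZ] at hd
    obtain ⟨⟨hd1, hd2, hd3⟩, hd4⟩ := hd
    have : ∃ l ∈ U, nm (d l) ≤ V := by
      by_contra hcon
      push Not at hcon
      refine hd4 ⟨hd1, hd2, fun l => ⟨fun hl => hcon l hl, fun hl => ?_⟩⟩
      by_contra hl2
      have := hd3 l hl2
      omega
    obtain ⟨l, hl, hl2⟩ := this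
    rw [mem_biUnion]
    refine ⟨l, hl, ?_⟩
    rw [mem_BoxS]
    refine ⟨hd1, hd2, fun l' hl' => ?_⟩
    by_cases h : l' = l
    · rw [h]; exact hl2
    · refine hd3 l' fun h' => hl' (mem_erase.2 ⟨h, h'⟩)
  refine (Finset.sum_le_sum_of_subset_of_nonneg hsub2 fun _ _ _ => norm_nonneg _).trans ?_
  exact eng_biUnion U (fun l => BoxS ι X V (U.erase l)) _ fun _ => norm_nonneg _

/-- **The engine for label systems with the total weight `h`.** -/
theorem engH (D : Dat2 ι κ) (hD : An D) (Λ : LG L ι) {h M : ℕ} {Us : Finset (Finset L)}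
    {mU : Finset L → ℂ} {N : ℕ → ℂ} (hΛ : OKh Λ D h M Us mU N) (ε : ℝ) (hε : 0 < ε) :
    ∃ X₀ : ℕ, ∀ X : ℕ, X₀ ≤ X →
      ‖∑ S ∈ Sx ι X, ∑ f : S → L,
          (∏ j : S, Λ.g (f j) j) * e2 (∑ j : S, ∑ k : S, Λ.Phi (f j) (f k) * D.s j k) -
        (∑ U ∈ Us, mU U) * N X‖ ≤ ε * Yh h X := by
  obtain ⟨C1, K1, c1, hC1, hc1, hlin⟩ := linked_boundh D hD Λ hΛ.diag hΛ.os hΛ.nrm
  obtain ⟨C2, hC2, hsm⟩ := small_boundh D hD Λ hΛ
  obtain ⟨C3, hC3, hmain⟩ := main_Uh D hD Λ hΛ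
  have hm2 : (2 : ℝ) ≤ M := by exact_mod_cast hΛ.two
  have hm0 : (0 : ℝ) < M := by linarith
  set δ : ℝ := 1 / (M : ℝ) with hδd
  have hδ : 0 < δ := one_div_pos.2 hm0
  set n := Fintype.card L with hn
  have h2n : (0 : ℝ) < 2 ^ n := by positivity
  have hn0 : (0 : ℝ) ≤ n := Nat.cast_nonneg _
  set e1 : ℝ := ε / (4 * 2 ^ n) with he1
  have he1p : 0 < e1 := by positivity
  obtain ⟨X1, hX1⟩ := hmain e1 he1p
  set CC : ℝ := C1 + C2 * (n + 1) + C3 with hCC
  obtain ⟨X2, hX2⟩ := chooseV CC K1 (n + 1) (2 * n) c1 δ e1 hc1 hδ he1p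
  refine ⟨max (max X1 X2) 16, fun X hX => ?_⟩
  have hXX1 : X1 ≤ X := (le_max_left _ _).trans ((le_max_left _ _).trans hX)
  have hXX2 : X2 ≤ X := (le_max_right _ _).trans ((le_max_left _ _).trans hX)
  have hX16 : 16 ≤ X := (le_max_right _ _).trans hX
  obtain ⟨V, hV1, hVn, hVa, hVb⟩ := hX2 X hXX2
  have hXr0 : (0 : ℝ) ≤ X := Nat.cast_nonneg X
  obtain ⟨W, hW⟩ : ∃ W : ℝ, W = Yh h X := ⟨_, rfl⟩
  have hXr : 0 ≤ W := by
    rw [hW]
    exact Yh_nonneg _ _
  have hXW : (X : ℝ) ≤ W := by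
    rw [hW]
    exact le_Yh h X (by omega)
  have hX1r : (1 : ℝ) ≤ X := by exact_mod_cast (by omega : 1 ≤ X)
  have hlogX : 0 ≤ Real.log X := Real.log_nonneg hX1r
  have hVr : (1 : ℝ) ≤ V := by exact_mod_cast hV1
  have hlogV : 0 ≤ Real.log V := Real.log_nonneg hVr
  have hC1C : C1 ≤ CC := by
    rw [hCC]
    have : 0 ≤ C2 * ((n : ℝ) + 1) := by positivity
    linarith
  -- the two error terms
  set P : ℝ := (1 + Real.log X) ^ K1 * (V : ℝ) ^ (-c1) with hP
  set Q : ℝ := Real.log X ^ (-δ) * (1 + Real.log V) ^ (n + 1) with hQ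
  have hP0 : 0 ≤ P := by positivity
  have hQ0 : 0 ≤ Q := by positivity
  have hPe : CC * P ≤ e1 := by rw [hP, ← mul_assoc]; exact hVa
  have hQe : CC * Q ≤ e1 := by rw [hQ, ← mul_assoc]; exact hVb
  have hQ' : Real.log X ^ (-(1 / (M : ℝ))) * (1 + Real.log V) ^ n ≤ Q := by
    rw [hQ]
    refine mul_le_mul_of_nonneg_left ?_ (by positivity)
    exact pow_le_pow_right₀ (by linarith) (Nat.le_succ n)
  have hsm' : ∀ Z : Finset L, Λ.Unl Z → Z ∉ Us →
      ∑ d ∈ BoxS ι X V Z, ‖FG D Λ d‖ ≤ C2 * W * Q := by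
    intro Z hZ hZ2
    refine (hsm X V Z hX16 hV1 hVn hZ hZ2).trans ?_
    rw [← hW]
    calc C2 * W * Real.log X ^ (-(1 / (M : ℝ))) * (1 + Real.log V) ^ n
        = C2 * W * (Real.log X ^ (-(1 / (M : ℝ))) * (1 + Real.log V) ^ n) := by ring
      _ ≤ C2 * W * Q := mul_le_mul_of_nonneg_left hQ' (by positivity)
  -- the target for each pattern
  classical
  set t : Finset L → ℂ := fun Z => if Z ∈ Us then mU Z * N X else 0 with ht
  have hbound : ∀ Z : Finset L, ‖∑ d ∈ BoxZ ι X V Z, FG D Λ d - t Z‖ ≤ 2 * e1 * W := by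
    intro Z
    by_cases hU : Λ.Unl Z
    · by_cases hc : Z ∈ Us
      · have h1 : t Z = mU Z * N X := if_pos hc
        rw [h1]
        have h2 := hX1 X V hXX1 hV1 hVn Z hc
        rw [← hW] at h2
        have h3 := eng_exact D Λ X V Z
        have h4 : ∑ l ∈ Z, ∑ d ∈ BoxS ι X V (Z.erase l), ‖FG D Λ d‖ ≤ n * (C2 * W * Q) := by
          have h41 : ∑ l ∈ Z, ∑ d ∈ BoxS ι X V (Z.erase l), ‖FG D Λ d‖ ≤
              Z.card * (C2 * W * Q) := by
            rw [← nsmul_eq_mul]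
            refine Finset.sum_le_card_nsmul _ _ _ fun l hl => ?_
            refine hsm' _ ?_ (hΛ.er Z hc l hl)
            intro a ha b hb
            exact hU a (mem_of_mem_erase ha) b (mem_of_mem_erase hb)
          refine h41.trans (mul_le_mul_of_nonneg_right ?_ (by positivity))
          have : Z.card ≤ n := card_le_univ Z
          exact_mod_cast this
        have h5 : ‖∑ d ∈ BoxZ ι X V Z, FG D Λ d - mU Z * N X‖ ≤
            n * (C2 * W * Q) + (e1 * W + C3 * W * Q) := by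
          have h6 : ∑ d ∈ BoxZ ι X V Z, FG D Λ d - mU Z * N X =
              (∑ d ∈ BoxZ ι X V Z, FG D Λ d - ∑ d ∈ BoxS ι X V Z, FG D Λ d) +
              (∑ d ∈ BoxS ι X V Z, FG D Λ d - mU Z * N X) := by ring
          rw [h6]
          refine (norm_add_le _ _).trans (add_le_add (h3.trans h4) (h2.trans (le_of_eq ?_)))
          rw [hQ]; ring
        refine h5.trans ?_
        have h7 : (n * C2 + C3) * Q ≤ CC * Q := by
          refine mul_le_mul_of_nonneg_right ?_ hQ0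
          rw [hCC]
          nlinarith
        calc n * (C2 * W * Q) + (e1 * W + C3 * W * Q)
            = e1 * W + ((n * C2 + C3) * Q) * W := by ring
          _ ≤ e1 * W + e1 * W := by
              have := mul_le_mul_of_nonneg_right (h7.trans hQe) hXr
              linarith
          _ = 2 * e1 * W := by ring
      · have h1 : t Z = 0 := if_neg hc
        rw [h1, sub_zero]
        have h2 := (norm_sum_le (BoxZ ι X V Z) (fun d => FG D Λ d)).trans
          ((eng_small D Λ X V Z).trans (hsm' Z hU hc))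
        refine h2.trans ?_
        have h7 : C2 * Q ≤ CC * Q := by
          refine mul_le_mul_of_nonneg_right ?_ hQ0
          rw [hCC]
          nlinarith
        calc C2 * W * Q = (C2 * Q) * W := by ring
          _ ≤ e1 * W := mul_le_mul_of_nonneg_right (h7.trans hQe) hXr
          _ ≤ 2 * e1 * W := by nlinarith
    · have hZU : Z ∉ Us := fun h => hU (hΛ.unl Z h)
      have h1 : t Z = 0 := if_neg hZU
      rw [h1, sub_zero]
      unfold LG.Unl at hU
      push Not at hU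
      obtain ⟨l0, hl0, l1, hl1, hl⟩ := hU
      refine (hlin X V Z l0 l1 (by omega) hV1 hl0 hl1 hl).trans ?_
      calc C1 * X * (1 + Real.log X) ^ K1 * (V : ℝ) ^ (-c1) = (C1 * P) * X := by rw [hP]; ring
        _ ≤ (CC * P) * X := by
            refine mul_le_mul_of_nonneg_right ?_ hXr0
            exact mul_le_mul_of_nonneg_right hC1C hP0
        _ ≤ e1 * X := mul_le_mul_of_nonneg_right hPe hXr0
        _ ≤ e1 * W := mul_le_mul_of_nonneg_left hXW he1p.le
        _ ≤ 2 * e1 * W := by nlinarith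
  have ht2 : ∑ Z : Finset L, t Z = (∑ U ∈ Us, mU U) * N X := by
    simp only [ht]
    rw [Finset.sum_ite_mem, Finset.univ_inter, Finset.sum_mul]
  rw [← hW, expandG D Λ X, eng_part X V, ← ht2, ← Finset.sum_sub_distrib]
  refine (norm_sum_le _ _).trans ((Finset.sum_le_sum fun Z _ => hbound Z).trans ?_)
  rw [Finset.sum_const, Finset.card_univ, Fintype.card_finset, nsmul_eq_mul, he1]
  push_cast
  have : (2 : ℝ) ^ Fintype.card L * (2 * (ε / (4 * 2 ^ n)) * W) = ε / 2 * W := by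
    rw [← hn]
    field_simp
    ring
  rw [this]
  nlinarith

end

end Pool.Agent.Lib.MP_1a91b9_ntMN
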