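import Pool.Agent.Lib.MP_1a91b9_ntMN.E0
import Pool.Agent.Lib.MP_1a91b9_ntH.D.ChooseV

/-!
M3: multiplicative functions with the mean value zero, the weights `H ψ`
-/

set_option autoImplicit false
set_option linter.unusedSectionVars false

namespace Pool.Agent.Lib.MP_1a91b9_ntMN

open Finset Pool.Agent.Lib.MP_1a91b9_ntH Pool.Agent.Lib.MP_1a91b9_ntQ
open Pool.Agent.Lib.MP_1a91b9_ntQ.Da Pool.Agent.Lib.MP_1a91b9_ntV Pool.Agent.Lib.MP_1a91b9_ntM
open Pool.Agent.Lib.MP_1a91b9_ntDV Pool.Agent.Lib.MP_1a91b9_ntMQ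

noncomputable section

variable {ι : Type} [DecidableEq ι] [PS ι]

private theorem M3_zero : Sx ι 0 = ∅ := by
  ext S
  rw [mem_Sx]
  have := one_le_nm S
  constructor
  · intro h
    omega
  · intro h
    exact absurd h (notMem_empty _)

private theorem M3_lin {ψ : ι → ℂ} (hm : Mz ∅ ψ) {ε : ℝ} (hε : 0 < ε) :
    ∃ K : ℝ, 0 ≤ K ∧ ∀ n : ℕ, ‖∑ S ∈ Sx ι n, ∏ q ∈ S, ψ q‖ ≤ ε * n + K := by
  obtain ⟨X₀, h⟩ := hm ε hε
  refine ⟨∑ n ∈ range X₀, ‖∑ S ∈ Sx ι n, ∏ q ∈ S, ψ q‖, sum_nonneg fun _ _ => norm_nonneg _,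
    fun n => ?_⟩
  have hn : 0 ≤ ε * n := by positivity
  rcases Nat.lt_or_ge n X₀ with h1 | h1
  · have h2 := single_le_sum (f := fun n : ℕ => ‖∑ S ∈ Sx ι n, ∏ q ∈ S, ψ q‖)
      (fun _ _ => norm_nonneg _) (mem_range.2 h1)
    linarith
  · have h2 := h n h1
    rw [filter_true_of_mem fun S _ => disjoint_empty_right S] at h2
    have h3 : 0 ≤ ∑ n ∈ range X₀, ‖∑ S ∈ Sx ι n, ∏ q ∈ S, ψ q‖ := sum_nonneg fun _ _ => norm_nonneg _
    linarith

/-- The recursion for the sums over the `U` prime to `T`. -/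
private theorem M3_rec (ψ : ι → ℂ) (T : Finset ι) (q : ι) (hq : q ∉ T) (Y : ℕ) :
    ∑ U ∈ (Sx ι Y).filter (fun U => Disjoint U T), ∏ p ∈ U, ψ p =
      ∑ U ∈ (Sx ι Y).filter (fun U => Disjoint U (insert q T)), ∏ p ∈ U, ψ p +
        ψ q * ∑ U ∈ (Sx ι (Y / PS.N q)).filter (fun U => Disjoint U (insert q T)), ∏ p ∈ U, ψ p := by
  classical
  have hN : 0 < PS.N q := by
    have := PS.two_le q
    omega
  rw [← sum_filter_not_add_sum_filter ((Sx ι Y).filter fun U => Disjoint U T) (fun U => q ∈ U)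
    fun U => ∏ p ∈ U, ψ p]
  refine congrArg₂ (· + ·) (sum_congr ?_ fun _ _ => rfl) ?_
  · ext U
    rw [mem_filter, mem_filter, mem_filter, disjoint_insert_right]
    tauto
  · rw [mul_sum]
    refine sum_bij' (fun U _ => U.erase q) (fun U _ => insert q U) ?_ ?_ ?_ ?_ ?_
    · intro U hU
      rw [mem_filter, mem_filter, mem_Sx] at hU
      obtain ⟨⟨h1, h2⟩, h3⟩ := hU
      have h4 : PS.N q * nm (U.erase q) = nm U := by
        unfold nm
        exact mul_prod_erase _ _ h3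
      rw [mem_filter, mem_Sx, disjoint_insert_right]
      refine ⟨?_, notMem_erase q U, disjoint_of_subset_left (erase_subset q U) h2⟩
      rw [Nat.le_div_iff_mul_le hN, mul_comm, h4]
      exact h1
    · intro U hU
      rw [mem_filter, mem_Sx, disjoint_insert_right] at hU
      obtain ⟨h1, h2, h3⟩ := hU
      rw [Nat.le_div_iff_mul_le hN] at h1
      have h4 : nm (insert q U) = PS.N q * nm U := by
        unfold nm
        exact prod_insert h2
      rw [mem_filter, mem_filter, mem_Sx, disjoint_insert_left]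
      refine ⟨⟨?_, hq, h3⟩, mem_insert_self q U⟩
      rw [h4, mul_comm]
      exact h1
    · intro U hU
      exact insert_erase (mem_filter.1 hU).2
    · intro U hU
      rw [mem_filter, disjoint_insert_right] at hU
      exact erase_insert hU.2.1
    · intro U hU
      exact (mul_prod_erase _ _ (mem_filter.1 hU).2).symm

/-- The sums over the `U` prime to `T`. -/
private theorem M3_disj {ψ : ι → ℂ} (hψ : ∀ q, ‖ψ q‖ ≤ 1) {ε K : ℝ} (hε : 0 ≤ ε) (hK : 0 ≤ K)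
    (hA : ∀ n : ℕ, ‖∑ S ∈ Sx ι n, ∏ q ∈ S, ψ q‖ ≤ ε * n + K) (T : Finset ι) :
    ∀ Y : ℕ, ‖∑ U ∈ (Sx ι Y).filter (fun U => Disjoint U T), ∏ q ∈ U, ψ q‖ ≤
      ε * Y * ∏ q ∈ T, (1 - (PS.N q : ℝ)⁻¹)⁻¹ +
        K * √(Y : ℝ) * ∏ q ∈ T, (1 - (√(PS.N q : ℝ))⁻¹)⁻¹ := by
  induction T using Finset.induction_on with
  | empty =>
    intro Y
    rw [filter_true_of_mem fun S _ => disjoint_empty_right S, prod_empty, prod_empty, mul_one, mul_one]
    rcases Nat.eq_zero_or_pos Y with h0 | h0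
    · subst h0
      rw [M3_zero, sum_empty, norm_zero]
      simp
    · refine (hA Y).trans ?_
      have h1 : (1 : ℝ) ≤ √(Y : ℝ) := by
        rw [Real.one_le_sqrt]
        exact_mod_cast h0
      have h2 := le_mul_of_one_le_right hK h1
      linarith
  | insert q T hq ih =>
    have hN : (2 : ℝ) ≤ PS.N q := by exact_mod_cast PS.two_le q
    have hN0 : (0 : ℝ) < PS.N q := by linarith
    have hs1 : 1 < √(PS.N q : ℝ) := by
      rw [Real.lt_sqrt (by norm_num)]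
      linarith
    have hs0 : 0 < √(PS.N q : ℝ) := by linarith
    obtain ⟨a, ha⟩ : ∃ a : ℝ, a = ∏ p ∈ T, (1 - (PS.N p : ℝ)⁻¹)⁻¹ := ⟨_, rfl⟩
    obtain ⟨b, hb⟩ : ∃ b : ℝ, b = ∏ p ∈ T, (1 - (√(PS.N p : ℝ))⁻¹)⁻¹ := ⟨_, rfl⟩
    have hpos1 : ∀ p : ι, 0 ≤ (1 - (PS.N p : ℝ)⁻¹)⁻¹ := fun p => by
      have h2 : (2 : ℝ) ≤ PS.N p := by exact_mod_cast PS.two_le p
      rw [inv_nonneg, sub_nonneg]
      exact inv_le_one_of_one_le₀ (by linarith)
    have hpos2 : ∀ p : ι, 0 ≤ (1 - (√(PS.N p : ℝ))⁻¹)⁻¹ := fun p => by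
      have h2 : (2 : ℝ) ≤ PS.N p := by exact_mod_cast PS.two_le p
      rw [inv_nonneg, sub_nonneg]
      refine inv_le_one_of_one_le₀ ?_
      rw [Real.one_le_sqrt]
      linarith
    rw [prod_insert hq, prod_insert hq, ← ha, ← hb]
    rw [← ha, ← hb] at ih
    have ha0 : 0 ≤ a := by
      rw [ha]
      exact prod_nonneg fun p _ => hpos1 p
    have hb0 : 0 ≤ b := by
      rw [hb]
      exact prod_nonneg fun p _ => hpos2 p
    obtain ⟨a', ha'⟩ : ∃ a' : ℝ, a' = (1 - (PS.N q : ℝ)⁻¹)⁻¹ * a := ⟨_, rfl⟩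
    obtain ⟨b', hb'⟩ : ∃ b' : ℝ, b' = (1 - (√(PS.N q : ℝ))⁻¹)⁻¹ * b := ⟨_, rfl⟩
    have ha0' : 0 ≤ a' := by
      rw [ha']
      exact mul_nonneg (hpos1 q) ha0
    have hb0' : 0 ≤ b' := by
      rw [hb']
      exact mul_nonneg (hpos2 q) hb0
    have hn1 : 1 - (PS.N q : ℝ)⁻¹ ≠ 0 := by
      have h3 : (PS.N q : ℝ)⁻¹ ≤ 1 / 2 := by
        rw [← one_div]
        exact one_div_le_one_div_of_le (by norm_num) hN
      linarith
    have hn2 : 1 - (√(PS.N q : ℝ))⁻¹ ≠ 0 := by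
      have h3 : (√(PS.N q : ℝ))⁻¹ < 1 := inv_lt_one_of_one_lt₀ hs1
      linarith
    have hea : a + a' * (PS.N q : ℝ)⁻¹ = a' := by
      have h4 : a = (1 - (PS.N q : ℝ)⁻¹) * a' := by
        rw [ha', ← mul_assoc, mul_inv_cancel₀ hn1, one_mul]
      rw [h4]
      ring
    have heb : b + b' * (√(PS.N q : ℝ))⁻¹ = b' := by
      have h4 : b = (1 - (√(PS.N q : ℝ))⁻¹) * b' := by
        rw [hb', ← mul_assoc, mul_inv_cancel₀ hn2, one_mul]
      rw [h4]
      ring
    rw [← ha', ← hb']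
    intro Y
    induction Y using Nat.strong_induction_on with
    | _ Y ihY =>
      rcases Nat.eq_zero_or_pos Y with h0 | h0
      · subst h0
        rw [M3_zero, filter_empty, sum_empty, norm_zero]
        simp
      · have hlt : Y / PS.N q < Y := Nat.div_lt_self h0 (by have := PS.two_le q; omega)
        have h5 := ihY _ hlt
        have h6 := ih Y
        rw [M3_rec ψ T q hq Y] at h6
        obtain ⟨B, hB⟩ : ∃ B : ℂ, B = ∑ U ∈ (Sx ι Y).filter (fun U => Disjoint U (insert q T)), ∏ p ∈ U, ψ p :=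
          ⟨_, rfl⟩
        obtain ⟨B1, hB1⟩ : ∃ B1 : ℂ, B1 = ∑ U ∈ (Sx ι (Y / PS.N q)).filter (fun U => Disjoint U (insert q T)),
          ∏ p ∈ U, ψ p := ⟨_, rfl⟩
        rw [← hB, ← hB1] at h6
        rw [← hB1] at h5
        rw [← hB]
        have h7 : ‖B‖ ≤ ‖B + ψ q * B1‖ + ‖B1‖ := by
          have h8 : B = (B + ψ q * B1) - ψ q * B1 := by ring
          have h9 : ‖ψ q * B1‖ ≤ ‖B1‖ := by
            rw [norm_mul]
            exact mul_le_of_le_one_left (norm_nonneg _) (hψ q)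
          calc ‖B‖ = ‖(B + ψ q * B1) - ψ q * B1‖ := by rw [← h8]
            _ ≤ ‖B + ψ q * B1‖ + ‖ψ q * B1‖ := norm_sub_le _ _
            _ ≤ _ := by linarith
        have h10 : ((Y / PS.N q : ℕ) : ℝ) ≤ Y * (PS.N q : ℝ)⁻¹ := by
          rw [← div_eq_mul_inv]
          exact Nat.cast_div_le
        have h11 : √((Y / PS.N q : ℕ) : ℝ) ≤ √(Y : ℝ) * (√(PS.N q : ℝ))⁻¹ := by
          refine (Real.sqrt_le_sqrt h10).trans (le_of_eq ?_)
          rw [Real.sqrt_mul (Nat.cast_nonneg _), Real.sqrt_inv]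
        have h12 : ε * ((Y / PS.N q : ℕ) : ℝ) * a' ≤ ε * (Y * (PS.N q : ℝ)⁻¹) * a' :=
          mul_le_mul_of_nonneg_right (mul_le_mul_of_nonneg_left h10 hε) ha0'
        have h13 : K * √((Y / PS.N q : ℕ) : ℝ) * b' ≤ K * (√(Y : ℝ) * (√(PS.N q : ℝ))⁻¹) * b' :=
          mul_le_mul_of_nonneg_right (mul_le_mul_of_nonneg_left h11 hK) hb0'
        have h14 : ε * Y * a' = ε * Y * a + ε * (Y * (PS.N q : ℝ)⁻¹) * a' := by
          nth_rewrite 1 [← hea]
          ring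
        have h15 : K * √(Y : ℝ) * b' = K * √(Y : ℝ) * b + K * (√(Y : ℝ) * (√(PS.N q : ℝ))⁻¹) * b' := by
          nth_rewrite 1 [← heb]
          ring
        linarith

/-- The convolution. -/
private theorem M3_split (k : ℕ) (ψ : ι → ℂ) (X : ℕ) :
    ∑ S ∈ Sx ι X, ∏ q ∈ S, (((k + 1 : ℕ) : ℂ) * ψ q) =
      ∑ T ∈ Sx ι X, (∏ q ∈ T, ((k : ℂ) * ψ q)) *
        ∑ U ∈ (Sx ι (X / nm T)).filter (fun U => Disjoint U T), ∏ q ∈ U, ψ q := by
  classical
  have h1 : ∀ S ∈ Sx ι X, ∏ q ∈ S, (((k + 1 : ℕ) : ℂ) * ψ q) =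
      ∑ T ∈ S.powerset, (∏ q ∈ T, ((k : ℂ) * ψ q)) * ∏ q ∈ S \ T, ψ q := by
    intro S _
    rw [← prod_add]
    refine prod_congr rfl fun q _ => ?_
    push_cast
    ring
  rw [sum_congr rfl h1]
  simp only [mul_sum]
  rw [sum_sigma', sum_sigma']
  refine sum_bij' (fun a _ => (⟨a.2, a.1 \ a.2⟩ : (_ : Finset ι) × Finset ι))
    (fun a _ => (⟨a.1 ∪ a.2, a.1⟩ : (_ : Finset ι) × Finset ι)) ?_ ?_ ?_ ?_ ?_
  · rintro ⟨S, T⟩ h
    rw [mem_sigma, mem_Sx, mem_powerset] at h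
    obtain ⟨hS, hT⟩ := h
    simp only at hS hT
    have hd : Disjoint (S \ T) T := sdiff_disjoint
    have h2 : nm S = nm (S \ T) * nm T := by
      rw [← nm_union hd, sdiff_union_of_subset hT]
    have h3 := one_le_nm T
    have h4 := one_le_nm (S \ T)
    rw [mem_sigma, mem_Sx, mem_filter, mem_Sx]
    refine ⟨?_, ?_, hd⟩
    · show nm T ≤ X
      refine le_trans ?_ hS
      rw [h2]
      exact Nat.le_mul_of_pos_left _ h4
    · show nm (S \ T) ≤ X / nm T
      rw [Nat.le_div_iff_mul_le h3, ← h2]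
      exact hS
  · rintro ⟨T, U⟩ h
    rw [mem_sigma, mem_Sx, mem_filter, mem_Sx] at h
    obtain ⟨hT, hU, hd⟩ := h
    simp only at hT hU hd
    have h3 := one_le_nm T
    rw [Nat.le_div_iff_mul_le h3] at hU
    rw [mem_sigma, mem_Sx, mem_powerset]
    refine ⟨?_, subset_union_left⟩
    show nm (T ∪ U) ≤ X
    rw [nm_union hd.symm, mul_comm]
    exact hU
  · rintro ⟨S, T⟩ h
    rw [mem_sigma, mem_Sx, mem_powerset] at h
    obtain ⟨-, hT⟩ := h
    simp only at hT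
    show (⟨T ∪ S \ T, T⟩ : (_ : Finset ι) × Finset ι) = ⟨S, T⟩
    rw [union_sdiff_of_subset hT]
  · rintro ⟨T, U⟩ h
    rw [mem_sigma, mem_filter] at h
    obtain ⟨-, -, hd⟩ := h
    simp only at hd
    show (⟨T, (T ∪ U) \ T⟩ : (_ : Finset ι) × Finset ι) = ⟨T, U⟩
    rw [union_sdiff_left, sdiff_eq_self_of_disjoint hd]
  · rintro ⟨S, T⟩ h
    rfl

private theorem M3_two {C2 : ℝ} (h2 : Zt ι C2) (x : ℕ) :
    ∑ q ∈ pr ι x, (PS.N q : ℝ) ^ (-(2 : ℝ)) ≤ Real.log (max C2 1) := by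
  have h5 := h2 2 x (by norm_num) (by norm_num)
  rw [show (2 : ℝ) - 1 = 1 by norm_num, div_one] at h5
  rw [Real.le_log_iff_exp_le (lt_of_lt_of_le one_pos (le_max_right _ _))]
  refine le_trans ?_ (h5.trans (le_max_left _ _))
  rw [Real.exp_sum]
  refine prod_le_prod (fun q _ => (Real.exp_pos _).le) fun q _ => ?_
  obtain ⟨ht0, ht1⟩ := eubD_rpow_neg q 2 (by norm_num)
  have e2 : 0 < 1 - (PS.N q : ℝ) ^ (-(2 : ℝ)) := by linarith
  rw [← one_div, le_div_iff₀ e2]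
  have h4 := Real.add_one_le_exp (-((PS.N q : ℝ) ^ (-(2 : ℝ))))
  calc Real.exp ((PS.N q : ℝ) ^ (-(2 : ℝ))) * (1 - (PS.N q : ℝ) ^ (-(2 : ℝ)))
      ≤ Real.exp ((PS.N q : ℝ) ^ (-(2 : ℝ))) * Real.exp (-((PS.N q : ℝ) ^ (-(2 : ℝ)))) :=
        mul_le_mul_of_nonneg_left (by linarith) (Real.exp_pos _).le
    _ = 1 := by rw [← Real.exp_add, add_neg_cancel, Real.exp_zero]

/-- The sums of the weights divided by the norm. -/
private theorem M3_har {C2 : ℝ} (h2 : Zt ι C2) (n : ℕ) {ψ : ι → ℝ} {B : ℝ} (hψ : SumB ψ B)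
    (w : ι → ℝ) (hw : ∀ q, 0 ≤ w q ∧ w q ≤ (n : ℝ) + ψ q) (x : ℕ) (hx : 2 ≤ x) :
    ∑ S ∈ Sx ι x, (∏ q ∈ S, w q) / nm S ≤ Real.exp 1 * ((max C2 1) ^ n * B) * Real.log x ^ n := by
  have hxr : (2 : ℝ) ≤ x := by exact_mod_cast hx
  have hL : 0 < Real.log x := Real.log_pos (by linarith)
  have hB : 0 ≤ B := by linarith [hψ.hB]
  obtain ⟨s1, s2, -⟩ := sigma_h x hx
  have heul := euler_h h2 hψ 1 n le_rfl w (fun q => ⟨(hw q).1, by
    rw [Nat.cast_one, div_one]
    exact (hw q).2⟩) (1 + 1 / Real.log x) s1 s2 x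
  have e1 : C2 / (1 + 1 / Real.log x - 1) = C2 * Real.log x := by
    rw [show 1 + 1 / Real.log x - 1 = 1 / Real.log x by ring, div_div_eq_mul_div, div_one]
  rw [e1, Nat.cast_one, div_one, Real.rpow_one] at heul
  have hcmp := cmp_h w (fun q => (hw q).1) x hx
  have hC2 : 0 ≤ C2 * Real.log x := by
    have h6 := h2 (1 + 1 / Real.log x) x s1 s2
    rw [e1] at h6
    refine le_trans ?_ h6
    refine Finset.prod_nonneg fun q _ => ?_
    have hq : (2 : ℝ) ≤ PS.N q := by exact_mod_cast PS.two_le q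
    rw [inv_nonneg, sub_nonneg]
    refine Real.rpow_le_one_of_one_le_of_nonpos (by linarith) (by linarith)
  have h8 : (C2 * Real.log x) ^ n * B ≤ (max C2 1) ^ n * Real.log x ^ n * B := by
    refine mul_le_mul_of_nonneg_right ?_ hB
    rw [← mul_pow]
    refine pow_le_pow_left₀ hC2 ?_ _
    exact mul_le_mul_of_nonneg_right (le_max_left _ _) hL.le
  calc ∑ S ∈ Sx ι x, (∏ q ∈ S, w q) / nm S
      ≤ Real.exp 1 * ((max C2 1) ^ n * Real.log x ^ n * B) :=
        hcmp.trans (mul_le_mul_of_nonneg_left (heul.trans h8) (Real.exp_pos 1).le)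
    _ = Real.exp 1 * ((max C2 1) ^ n * B) * Real.log x ^ n := by ring

private theorem M3_sumB {C2 : ℝ} (h2 : Zt ι C2) (k : ℕ) :
    SumB (fun q : ι => (k : ℝ) * ((PS.N q : ℝ) - 1)⁻¹) ((max C2 1) ^ (2 * k)) := by
  have hD : 1 ≤ max C2 1 := le_max_right _ _
  refine ⟨one_le_pow₀ hD, fun σ s1 s3 => Filter.Eventually.of_forall fun x => ?_⟩
  rw [Real.log_pow]
  have h3 : ∀ q ∈ pr ι x, (k : ℝ) * ((PS.N q : ℝ) - 1)⁻¹ * (PS.N q : ℝ) ^ (-σ) ≤
      (2 * k : ℝ) * (PS.N q : ℝ) ^ (-(2 : ℝ)) := by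
    intro q _
    have hN : (2 : ℝ) ≤ PS.N q := by exact_mod_cast PS.two_le q
    have h4 : ((PS.N q : ℝ) - 1)⁻¹ ≤ 2 * (PS.N q : ℝ) ^ (-(1 : ℝ)) := by
      rw [Real.rpow_neg (by linarith), Real.rpow_one, ← div_eq_mul_inv, ← one_div,
        div_le_div_iff₀ (by linarith) (by linarith)]
      linarith
    have h5 : (PS.N q : ℝ) ^ (-σ) ≤ (PS.N q : ℝ) ^ (-(1 : ℝ)) :=
      Real.rpow_le_rpow_of_exponent_le (by linarith) (by linarith)
    have h6 : (PS.N q : ℝ) ^ (-(2 : ℝ)) = (PS.N q : ℝ) ^ (-(1 : ℝ)) * (PS.N q : ℝ) ^ (-(1 : ℝ)) := by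
      rw [← Real.rpow_add (by linarith)]
      norm_num
    have h7 : 0 ≤ (PS.N q : ℝ) ^ (-(1 : ℝ)) := Real.rpow_nonneg (by linarith) _
    have h8 : 0 ≤ ((PS.N q : ℝ) - 1)⁻¹ := inv_nonneg.2 (by linarith)
    calc (k : ℝ) * ((PS.N q : ℝ) - 1)⁻¹ * (PS.N q : ℝ) ^ (-σ)
        ≤ (k : ℝ) * (2 * (PS.N q : ℝ) ^ (-(1 : ℝ))) * (PS.N q : ℝ) ^ (-(1 : ℝ)) := by
          refine mul_le_mul (mul_le_mul_of_nonneg_left h4 (Nat.cast_nonneg _)) h5
            (Real.rpow_nonneg (by linarith) _) (by positivity)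
      _ = (2 * k : ℝ) * (PS.N q : ℝ) ^ (-(2 : ℝ)) := by
          rw [h6]
          ring
  refine (sum_le_sum h3).trans ?_
  rw [← mul_sum]
  push_cast
  exact mul_le_mul_of_nonneg_left (M3_two h2 x) (by positivity)

private theorem M3_swap (k X V : ℕ) :
    ∑ T ∈ (Sx ι X).filter (fun T => X < nm T * V), (k : ℝ) ^ T.card * ((Sx ι (X / nm T)).card : ℝ) ≤
      ∑ U ∈ Sx ι V, ∑ T ∈ Sx ι (X / nm U), (k : ℝ) ^ T.card := by
  classical
  have h1 : ∀ T ∈ (Sx ι X).filter (fun T => X < nm T * V),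
      (k : ℝ) ^ T.card * ((Sx ι (X / nm T)).card : ℝ) ≤
        ∑ U ∈ Sx ι V, if nm T * nm U ≤ X then (k : ℝ) ^ T.card else 0 := by
    intro T hT
    obtain ⟨-, hT2⟩ := mem_filter.1 hT
    rw [← sum_filter, sum_const, nsmul_eq_mul, mul_comm]
    refine mul_le_mul_of_nonneg_right ?_ (by positivity)
    refine Nat.cast_le.2 (card_le_card fun U hU => ?_)
    rw [mem_Sx, Nat.le_div_iff_mul_le (one_le_nm T)] at hU
    rw [mem_filter, mem_Sx]
    have h3 := one_le_nm T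
    refine ⟨?_, by rw [mul_comm]; exact hU⟩
    by_contra h4
    push Not at h4
    have h5 : nm T * V ≤ nm U * nm T := by
      rw [mul_comm (nm U)]
      exact Nat.mul_le_mul_left _ h4.le
    omega
  refine (sum_le_sum h1).trans ?_
  refine (sum_le_sum_of_subset_of_nonneg (filter_subset _ _) fun T _ _ =>
    sum_nonneg fun U _ => ?_).trans ?_
  · split_ifs
    · positivity
    · exact le_rfl
  · rw [sum_comm]
    refine sum_le_sum fun U _ => ?_
    rw [← sum_filter]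
    refine sum_le_sum_of_subset_of_nonneg (fun T hT => ?_) fun _ _ _ => by positivity
    rw [mem_filter] at hT
    rw [mem_Sx, Nat.le_div_iff_mul_le (one_le_nm U)]
    exact hT.2

/-- The mean value of `H ψ` is zero. -/
theorem mz_pow {C1 C2 : ℝ} (h1 : Cheb ι C1) (h2 : Zt ι C2) {H : ℕ} (hH : 1 ≤ H) {ψ : ι → ℂ}
    (hψ : ∀ q, ‖ψ q‖ ≤ 1) (hm : Mz ∅ ψ) (ε : ℝ) (hε : 0 < ε) :
    ∃ X₀ : ℕ, ∀ X : ℕ, X₀ ≤ X →
      ‖∑ S ∈ Sx ι X, ∏ q ∈ S, ((H : ℂ) * ψ q)‖ ≤ ε * Yh H X := by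
  classical
  rcases Nat.eq_or_lt_of_le hH with hH1 | hH2
  · subst hH1
    obtain ⟨X₀, h⟩ := hm ε hε
    refine ⟨X₀, fun X hX => ?_⟩
    have h3 := h X hX
    rw [filter_true_of_mem fun S _ => disjoint_empty_right S] at h3
    simp only [Nat.cast_one, one_mul]
    unfold Yh
    simpa using h3
  · obtain ⟨k, rfl⟩ : ∃ k, H = k + 1 := ⟨H - 1, by omega⟩
    have hk : 1 ≤ k := by omega
    obtain ⟨D, hD⟩ : ∃ D : ℝ, D = max C2 1 := ⟨_, rfl⟩
    have hD1 : 1 ≤ D := by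
      rw [hD]
      exact le_max_right _ _
    obtain ⟨P, hP⟩ : ∃ P : ℝ, P = Real.exp 1 * (D ^ k * D ^ (2 * k)) := ⟨_, rfl⟩
    have hP0 : 0 < P := by
      rw [hP]
      positivity
    obtain ⟨Q, hQ⟩ : ∃ Q : ℝ, Q = Real.exp 1 * (D ^ (4 * k) * 1) := ⟨_, rfl⟩
    have hQ0 : 0 < Q := by
      rw [hQ]
      positivity
    obtain ⟨K3, hK3, hub⟩ := ubh0 h1 h2 k hk
    obtain ⟨K4, hK4, hharm⟩ := harm h2
    obtain ⟨K, hK, hlin⟩ := M3_lin hm (ε := ε / (3 * P)) (by positivity)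
    obtain ⟨X₁, hX₁⟩ := chooseV (K * Q + K3 * K4) (4 * k) 1 2 (1 / 2) 1 (ε / 3) (by norm_num)
      one_pos (by positivity)
    refine ⟨max X₁ 3, fun X hX => ?_⟩
    obtain ⟨V, hV1, hV2, hVa, hVb⟩ := hX₁ X ((le_max_left _ _).trans hX)
    have hX3 : 3 ≤ X := (le_max_right _ _).trans hX
    have hXr : (3 : ℝ) ≤ X := by exact_mod_cast hX3
    have hX0 : (0 : ℝ) < X := by linarith
    have hL : 0 < Real.log X := Real.log_pos (by linarith)
    have hVr : (1 : ℝ) ≤ V := by exact_mod_cast hV1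
    have hlV : 0 ≤ Real.log V := Real.log_nonneg hVr
    have hnm : ∀ T : Finset ι, (0 : ℝ) < nm T := fun T => by exact_mod_cast one_le_nm T
    obtain ⟨a, ha⟩ : ∃ a : Finset ι → ℝ, ∀ T, a T = ∏ q ∈ T, (1 - (PS.N q : ℝ)⁻¹)⁻¹ :=
      ⟨_, fun _ => rfl⟩
    obtain ⟨b, hb⟩ : ∃ b : Finset ι → ℝ, ∀ T, b T = ∏ q ∈ T, (1 - (√(PS.N q : ℝ))⁻¹)⁻¹ :=
      ⟨_, fun _ => rfl⟩
    have hdisj := M3_disj hψ (by positivity : 0 ≤ ε / (3 * P)) hK hlin
    simp only [← ha, ← hb] at hdisj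
    have hN2 : ∀ q : ι, (2 : ℝ) ≤ PS.N q := fun q => by exact_mod_cast PS.two_le q
    -- the two factors
    have hfa : ∀ q : ι, 0 ≤ (k : ℝ) * (1 - (PS.N q : ℝ)⁻¹)⁻¹ ∧
        (k : ℝ) * (1 - (PS.N q : ℝ)⁻¹)⁻¹ ≤ (k : ℝ) + (k : ℝ) * ((PS.N q : ℝ) - 1)⁻¹ := by
      intro q
      have h3 := hN2 q
      have h4 : (1 - (PS.N q : ℝ)⁻¹)⁻¹ = 1 + ((PS.N q : ℝ) - 1)⁻¹ := by
        have h5 : (PS.N q : ℝ) - 1 ≠ 0 := by linarith
        have h6 : (PS.N q : ℝ) ≠ 0 := by linarith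
        have h7 : 1 - (PS.N q : ℝ)⁻¹ = ((PS.N q : ℝ) - 1) / PS.N q := by
          field_simp
        rw [h7, inv_div]
        field_simp
        ring
      have h8 : 0 ≤ ((PS.N q : ℝ) - 1)⁻¹ := inv_nonneg.2 (by linarith)
      rw [h4]
      refine ⟨by positivity, le_of_eq (by ring)⟩
    have hfb : ∀ q : ι, 0 ≤ (1 - (√(PS.N q : ℝ))⁻¹)⁻¹ ∧ (1 - (√(PS.N q : ℝ))⁻¹)⁻¹ ≤ 4 := by
      intro q
      have h3 := hN2 q
      have h4 : (4 : ℝ) / 3 ≤ √(PS.N q : ℝ) := by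
        refine Real.le_sqrt_of_sq_le ?_
        norm_num
        linarith
      have h5 : (√(PS.N q : ℝ))⁻¹ ≤ 3 / 4 := by
        rw [inv_le_comm₀ (by linarith) (by norm_num)]
        norm_num
        linarith
      refine ⟨inv_nonneg.2 (by linarith), ?_⟩
      rw [inv_le_comm₀ (by linarith) (by norm_num)]
      linarith
    have hb0 : ∀ T, 0 ≤ b T := fun T => by
      rw [hb]
      exact prod_nonneg fun q _ => (hfb q).1
    have hb4 : ∀ T : Finset ι, (k : ℝ) ^ T.card * b T ≤ ∏ _q ∈ T, ((4 * k : ℕ) : ℝ) := by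
      intro T
      rw [hb, ← prod_const, ← prod_mul_distrib]
      refine prod_le_prod (fun q _ => mul_nonneg (Nat.cast_nonneg _) (hfb q).1) fun q _ => ?_
      push_cast
      nlinarith [(hfb q).2, (Nat.cast_nonneg k : (0 : ℝ) ≤ k)]
    -- the sums
    have hS1 : ∑ T ∈ Sx ι X, (k : ℝ) ^ T.card * a T / nm T ≤ P * Real.log X ^ k := by
      have h3 := M3_har h2 k (M3_sumB h2 k) (fun q : ι => (k : ℝ) * (1 - (PS.N q : ℝ)⁻¹)⁻¹) hfa X
        (by omega)
      rw [← hD, ← hP] at h3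
      refine le_trans (le_of_eq ?_) h3
      refine sum_congr rfl fun T _ => ?_
      rw [ha, prod_mul_distrib, prod_const]
    have hS2 : ∑ T ∈ Sx ι X, (∏ _q ∈ T, ((4 * k : ℕ) : ℝ)) / nm T ≤ Q * Real.log X ^ (4 * k) := by
      have h3 := M3_har h2 (4 * k) SumB.zero (fun _ : ι => ((4 * k : ℕ) : ℝ))
        (fun q => ⟨Nat.cast_nonneg _, by rw [add_zero]⟩) X (by omega)
      rw [← hD, ← hQ] at h3
      exact h3
    have hS3 : ∑ U ∈ Sx ι V, ∑ T ∈ Sx ι (X / nm U), (k : ℝ) ^ T.card ≤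
        K3 * K4 * (X * Real.log X ^ (k - 1)) * (1 + Real.log V) := by
      have h3 : ∀ U ∈ Sx ι V, ∑ T ∈ Sx ι (X / nm U), (k : ℝ) ^ T.card ≤
          K3 * (X * Real.log X ^ (k - 1)) * (1 / nm U) := by
        intro U hU
        rw [mem_Sx] at hU
        have h4 : 2 ≤ X / nm U := by
          rw [Nat.le_div_iff_mul_le (one_le_nm U)]
          rcases Nat.lt_or_ge V 2 with h5 | h5
          · have h6 : nm U ≤ 1 := by omega
            omega
          · have h6 : 2 * nm U ≤ V * V := Nat.mul_le_mul h5 hU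
            have h7 : V ^ 2 = V * V := sq V
            omega
        have h5 := hub (fun _ => (k : ℝ)) (fun _ => ⟨Nat.cast_nonneg _, le_rfl⟩) (X / nm U) h4
        simp only [prod_const] at h5
        refine h5.trans ?_
        rw [mul_assoc]
        refine mul_le_mul_of_nonneg_left ?_ hK3.le
        exact Yh_div k X (nm U) (one_le_nm U) (by omega)
      refine (sum_le_sum h3).trans ?_
      rw [← mul_sum]
      have h5 := hharm V hV1
      calc K3 * (X * Real.log X ^ (k - 1)) * ∑ U ∈ Sx ι V, (1 : ℝ) / nm U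
          ≤ K3 * (X * Real.log X ^ (k - 1)) * (K4 * (1 + Real.log V)) :=
            mul_le_mul_of_nonneg_left h5 (by positivity)
        _ = K3 * K4 * (X * Real.log X ^ (k - 1)) * (1 + Real.log V) := by ring
    -- the norm of the weights
    have hwn : ∀ T : Finset ι, ‖∏ q ∈ T, ((k : ℂ) * ψ q)‖ ≤ (k : ℝ) ^ T.card := by
      intro T
      rw [norm_prod, ← prod_const]
      refine prod_le_prod (fun _ _ => norm_nonneg _) fun q _ => ?_
      rw [norm_mul, Complex.norm_natCast]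
      exact mul_le_of_le_one_right (Nat.cast_nonneg _) (hψ q)
    rw [M3_split, ← sum_filter_not_add_sum_filter (Sx ι X) (fun T => X < nm T * V)
      fun T => (∏ q ∈ T, ((k : ℂ) * ψ q)) *
        ∑ U ∈ (Sx ι (X / nm T)).filter (fun U => Disjoint U T), ∏ q ∈ U, ψ q]
    have hpart1 : ‖∑ T ∈ (Sx ι X).filter (fun T => ¬ X < nm T * V), (∏ q ∈ T, ((k : ℂ) * ψ q)) *
        ∑ U ∈ (Sx ι (X / nm T)).filter (fun U => Disjoint U T), ∏ q ∈ U, ψ q‖ ≤
        ε / (3 * P) * X * (P * Real.log X ^ k) +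
          K * X * (V : ℝ) ^ (-(1 / 2) : ℝ) * (Q * Real.log X ^ (4 * k)) := by
      refine (norm_sum_le _ _).trans ?_
      have h3 : ∀ T ∈ (Sx ι X).filter (fun T => ¬ X < nm T * V),
          ‖(∏ q ∈ T, ((k : ℂ) * ψ q)) *
            ∑ U ∈ (Sx ι (X / nm T)).filter (fun U => Disjoint U T), ∏ q ∈ U, ψ q‖ ≤
          ε / (3 * P) * X * ((k : ℝ) ^ T.card * a T / nm T) +
            K * X * (V : ℝ) ^ (-(1 / 2) : ℝ) * ((∏ _q ∈ T, ((4 * k : ℕ) : ℝ)) / nm T) := by
        intro T hT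
        obtain ⟨hT1, hT2⟩ := mem_filter.1 hT
        push Not at hT2
        have hn := hnm T
        have h4 : ((X / nm T : ℕ) : ℝ) ≤ X / nm T := Nat.cast_div_le
        have ha0 : 0 ≤ a T := by
          rw [ha]
          refine prod_nonneg fun q _ => ?_
          have h3 := hN2 q
          rw [inv_nonneg, sub_nonneg]
          exact inv_le_one_of_one_le₀ (by linarith)
        have h5 : √((X / nm T : ℕ) : ℝ) ≤ X * (V : ℝ) ^ (-(1 / 2) : ℝ) / nm T := by
          refine (Real.sqrt_le_sqrt h4).trans ?_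
          have h6 : (V : ℝ) ≤ X / nm T := by
            rw [le_div_iff₀ hn]
            have h7 : ((nm T * V : ℕ) : ℝ) ≤ X := by exact_mod_cast hT2
            push_cast at h7
            linarith
          have h8 : (X : ℝ) / nm T = √((X : ℝ) / nm T) * √((X : ℝ) / nm T) :=
            (Real.mul_self_sqrt (by positivity)).symm
          have h9 : √(V : ℝ) ≤ √((X : ℝ) / nm T) := Real.sqrt_le_sqrt h6
          have h10 : (V : ℝ) ^ (-(1 / 2) : ℝ) = (√(V : ℝ))⁻¹ := by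
            rw [Real.rpow_neg (by linarith), ← Real.sqrt_eq_rpow]
          have h11 : 0 < √(V : ℝ) := Real.sqrt_pos.2 (by linarith)
          rw [h10, mul_div_right_comm, ← div_eq_mul_inv, le_div_iff₀ h11]
          nth_rewrite 2 [h8]
          exact mul_le_mul_of_nonneg_left h9 (Real.sqrt_nonneg _)
        rw [norm_mul]
        have hk0 : (0 : ℝ) ≤ (k : ℝ) ^ T.card := by positivity
        calc ‖∏ q ∈ T, ((k : ℂ) * ψ q)‖ *
              ‖∑ U ∈ (Sx ι (X / nm T)).filter (fun U => Disjoint U T), ∏ q ∈ U, ψ q‖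
            ≤ (k : ℝ) ^ T.card * (ε / (3 * P) * ((X / nm T : ℕ) : ℝ) * a T +
                K * √((X / nm T : ℕ) : ℝ) * b T) :=
              mul_le_mul (hwn T) (hdisj T (X / nm T)) (norm_nonneg _) hk0
          _ ≤ (k : ℝ) ^ T.card * (ε / (3 * P) * (X / nm T) * a T +
                K * (X * (V : ℝ) ^ (-(1 / 2) : ℝ) / nm T) * b T) := by
              refine mul_le_mul_of_nonneg_left (add_le_add ?_ ?_) hk0
              · exact mul_le_mul_of_nonneg_right (mul_le_mul_of_nonneg_left h4 (by positivity)) ha0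
              · exact mul_le_mul_of_nonneg_right (mul_le_mul_of_nonneg_left h5 hK) (hb0 T)
          _ = ε / (3 * P) * X * ((k : ℝ) ^ T.card * a T / nm T) +
                K * X * (V : ℝ) ^ (-(1 / 2) : ℝ) * ((k : ℝ) ^ T.card * b T / nm T) := by ring
          _ ≤ _ := by
              refine add_le_add le_rfl (mul_le_mul_of_nonneg_left ?_ (by positivity))
              exact div_le_div_of_nonneg_right (hb4 T) hn.le
      refine (sum_le_sum h3).trans ?_
      rw [sum_add_distrib, ← mul_sum, ← mul_sum]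
      have ha0 : ∀ T : Finset ι, 0 ≤ a T := fun T => by
        rw [ha]
        refine prod_nonneg fun q _ => ?_
        have h3 := hN2 q
        rw [inv_nonneg, sub_nonneg]
        exact inv_le_one_of_one_le₀ (by linarith)
      refine add_le_add ?_ ?_
      · refine mul_le_mul_of_nonneg_left (le_trans ?_ hS1) (by positivity)
        exact sum_le_sum_of_subset_of_nonneg (filter_subset _ _) fun T _ _ =>
          div_nonneg (mul_nonneg (by positivity) (ha0 T)) (Nat.cast_nonneg _)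
      · refine mul_le_mul_of_nonneg_left (le_trans ?_ hS2) (by positivity)
        exact sum_le_sum_of_subset_of_nonneg (filter_subset _ _) fun T _ _ => by positivity
    have hpart2 : ‖∑ T ∈ (Sx ι X).filter (fun T => X < nm T * V), (∏ q ∈ T, ((k : ℂ) * ψ q)) *
        ∑ U ∈ (Sx ι (X / nm T)).filter (fun U => Disjoint U T), ∏ q ∈ U, ψ q‖ ≤
        K3 * K4 * (X * Real.log X ^ (k - 1)) * (1 + Real.log V) := by
      refine (norm_sum_le _ _).trans (le_trans (sum_le_sum fun T _ => ?_)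
        ((M3_swap k X V).trans hS3))
      rw [norm_mul]
      refine mul_le_mul (hwn T) ?_ (norm_nonneg _) (by positivity)
      refine (norm_sum_le _ _).trans ?_
      have h4 : ∀ U ∈ (Sx ι (X / nm T)).filter (fun U => Disjoint U T), ‖∏ q ∈ U, ψ q‖ ≤ 1 := by
        intro U _
        rw [norm_prod]
        exact prod_le_one (fun q _ => norm_nonneg _) fun q _ => hψ q
      refine (sum_le_sum h4).trans ?_
      rw [sum_const, nsmul_eq_mul, mul_one]
      exact Nat.cast_le.2 (card_le_card (filter_subset _ _))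
    refine (norm_add_le _ _).trans ((add_le_add hpart1 hpart2).trans ?_)
    have hY : Yh (k + 1) X = X * Real.log X ^ k := by
      unfold Yh
      rw [Nat.add_sub_cancel]
    have hlogk : 1 ≤ Real.log X ^ k := by
      refine one_le_pow₀ ?_
      rw [Real.le_log_iff_exp_le (by linarith)]
      have := Real.exp_one_lt_d9
      linarith
    rw [hY]
    have hp1 : ε / (3 * P) * X * (P * Real.log X ^ k) = ε / 3 * (X * Real.log X ^ k) := by
      field_simp
    have hp2 : K * X * (V : ℝ) ^ (-(1 / 2) : ℝ) * (Q * Real.log X ^ (4 * k)) ≤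
        ε / 3 * (X * Real.log X ^ k) := by
      have h5 : K * Q * (1 + Real.log X) ^ (4 * k) * (V : ℝ) ^ (-(1 / 2) : ℝ) ≤ ε / 3 := by
        refine le_trans ?_ hVa
        refine mul_le_mul_of_nonneg_right (mul_le_mul_of_nonneg_right ?_ (by positivity)) (by positivity)
        have : 0 ≤ K3 * K4 := by positivity
        linarith
      have h6 : Real.log X ^ (4 * k) ≤ (1 + Real.log X) ^ (4 * k) :=
        pow_le_pow_left₀ hL.le (by linarith) _
      calc K * X * (V : ℝ) ^ (-(1 / 2) : ℝ) * (Q * Real.log X ^ (4 * k))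
          ≤ K * X * (V : ℝ) ^ (-(1 / 2) : ℝ) * (Q * (1 + Real.log X) ^ (4 * k)) := by
            refine mul_le_mul_of_nonneg_left (mul_le_mul_of_nonneg_left h6 hQ0.le) (by positivity)
        _ = X * (K * Q * (1 + Real.log X) ^ (4 * k) * (V : ℝ) ^ (-(1 / 2) : ℝ)) := by ring
        _ ≤ X * (ε / 3) := mul_le_mul_of_nonneg_left h5 hX0.le
        _ ≤ ε / 3 * (X * Real.log X ^ k) := by
            have h7 := mul_le_mul_of_nonneg_left hlogk (by positivity : 0 ≤ X * (ε / 3))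
            linarith
    have hp3 : K3 * K4 * (X * Real.log X ^ (k - 1)) * (1 + Real.log V) ≤
        ε / 3 * (X * Real.log X ^ k) := by
      have h5 : K3 * K4 * Real.log X ^ (-1 : ℝ) * (1 + Real.log V) ^ 1 ≤ ε / 3 := by
        refine le_trans ?_ hVb
        refine mul_le_mul_of_nonneg_right (mul_le_mul_of_nonneg_right ?_ (by positivity)) (by positivity)
        have : 0 ≤ K * Q := by positivity
        linarith
      have h6 : Real.log X ^ (k - 1) = Real.log X ^ k * Real.log X ^ (-1 : ℝ) := by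
        rw [Real.rpow_neg_one]
        have h7 : Real.log X ^ k = Real.log X ^ (k - 1) * Real.log X := by
          rw [← pow_succ]
          congr 1
          omega
        rw [h7]
        field_simp
      calc K3 * K4 * (X * Real.log X ^ (k - 1)) * (1 + Real.log V)
          = (K3 * K4 * Real.log X ^ (-1 : ℝ) * (1 + Real.log V) ^ 1) * (X * Real.log X ^ k) := by
            rw [h6]
            ring
        _ ≤ _ := mul_le_mul_of_nonneg_right h5 (by positivity)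
    rw [hp1]
    linarith

end

end Pool.Agent.Lib.MP_1a91b9_ntMN
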