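import Pool.Agent.Lib.MP_1a91b9_ntMN.Y3
import Pool.Agent.Lib.MP_1a91b9_ntMN.EG5
import Pool.Agent.Lib.MP_1a91b9_ntMN.M3

/-!
# MP_1a91b9_nt (multiquadratic fields, natural density): the mean values of `∏ (h ψ)`
-/

set_option autoImplicit false
set_option linter.unusedSectionVars false

namespace Pool.Agent.Lib.MP_1a91b9_ntMN

open Finset Pool.Agent.Lib.MP_1a91b9_ntH Pool.Agent.Lib.MP_1a91b9_ntQ
open Pool.Agent.Lib.MP_1a91b9_ntQ.Da Pool.Agent.Lib.MP_1a91b9_ntV Pool.Agent.Lib.MP_1a91b9_ntM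
open Pool.Agent.Lib.MP_1a91b9_ntDV Pool.Agent.Lib.MP_1a91b9_ntMQ

noncomputable section

variable {ι : Type} [DecidableEq ι] {κ : Type} [Fintype κ] [PS ι]

theorem mhD {D : Dat2 ι κ} (hD : An D) (h : ℕ) (hh : 1 ≤ h) : MH ι h := by
  obtain ⟨C1, hC1⟩ := hD.cheb
  obtain ⟨C2, hC2⟩ := hD.zt
  intro ψ h1 h2 ε hε
  exact mz_pow hC1 hC2 hh h1 h2 ε hε

end

end Pool.Agent.Lib.MP_1a91b9_ntMN
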