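import Pool.Agent.Lib.MP_1a91b9_ntMQ.A5
import Pool.Agent.Lib.MP_1a91b9_ntMN.YEN
import Pool.Agent.Lib.MP_1a91b9_ntMN.G3
import Pool.Agent.Lib.MP_1a91b9_ntMN.K7
import Pool.Agent.Lib.MP_1a91b9_ntMN.Y6

/-!
# MP_1a91b9_nt (multiquadratic fields, natural density): the first moment
-/

set_option autoImplicit false
set_option linter.unusedSectionVars false

namespace Pool.Agent.Lib.MP_1a91b9_ntMN

open Finset Pool.Agent.Lib.MP_1a91b9_ntH Pool.Agent.Lib.MP_1a91b9_ntQ
open Pool.Agent.Lib.MP_1a91b9_ntQ.Da Pool.Agent.Lib.MP_1a91b9_ntV Pool.Agent.Lib.MP_1a91b9_ntM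
open Pool.Agent.Lib.MP_1a91b9_ntDV Pool.Agent.Lib.MP_1a91b9_ntMQ

noncomputable section

variable {I A : Type} [Fintype I] [DecidableEq I] [Fintype A] [DecidableEq A] {k : A → ℕ}
  {phi : A → I → ZMod 2} {ι : Type} [DecidableEq ι] {κ : Type} [Fintype κ] [DecidableEq κ]

private theorem A5_fsum {B : Type} (D : Dat2 ι κ) (s : Finset B) (c : B → κ → ZMod 2) (q : ι) :
    D.dg (∑ x ∈ s, c x) q = ∑ x ∈ s, D.dg (c x) q := by
  classical
  induction s using Finset.induction_on with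
  | empty => rw [sum_empty, sum_empty, dg_zero]
  | insert x s hx ih => rw [sum_insert hx, sum_insert hx, dg_add, ih]

private theorem A5_pt (D : Dat2 ι κ) (phi : A → I → ZMod 2) (cc : ∀ a, Lab2 (k a) → κ → ZMod 2)
    (b : I → κ → ZMod 2) (χ : I → ι → ℂ) (z : Lc phi k) (q : ι) :
    twz χ (colc z) q * (e2 (D.dg (∑ i, z.1.1.1 i • b i) q) *
        ∏ a, if phi a ⬝ᵥ z.1.1.1 = 1 then gk D (cc a) (z.1.1.2 a) q else 1) =
      twz χ (colc z) q * ((nLc z : ℂ) * e2 (D.dg (cz cc b z.1) q)) := by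
  congr 1
  have h1 : D.dg (cz cc b z.1) q =
      ∑ a, (phi a ⬝ᵥ z.1.1.1) * D.dg (cc a (z.1.1.2 a)) q + D.dg (∑ i, z.1.1.1 i • b i) q := by
    unfold cz
    rw [dg_add, A5_fsum]
    congr 1
    exact sum_congr rfl fun a _ => dg_smul D _ _ q
  have h2 : (∏ a, if phi a ⬝ᵥ z.1.1.1 = 1 then gk D (cc a) (z.1.1.2 a) q else 1) =
      (∏ a, if phi a ⬝ᵥ z.1.1.1 = 1 then ((2 : ℂ) ^ k a)⁻¹ else 1) *
        e2 (∑ a, (phi a ⬝ᵥ z.1.1.1) * D.dg (cc a (z.1.1.2 a)) q) := by
    rw [e2_sum, ← prod_mul_distrib]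
    refine prod_congr rfl fun a _ => ?_
    rcases z2 (phi a ⬝ᵥ z.1.1.1) with h | h
    · rw [h, if_neg (by decide), if_neg (by decide), zero_mul, e2_zero, mul_one]
    · rw [h, if_pos rfl, if_pos rfl, one_mul]
      rfl
  have h3 : ((nLc z : ℝ) : ℂ) = ∏ a, if phi a ⬝ᵥ z.1.1.1 = 1 then ((2 : ℂ) ^ k a)⁻¹ else 1 := by
    unfold nLc
    rw [Complex.ofReal_prod]
    refine prod_congr rfl fun a _ => ?_
    split_ifs
    · push_cast
      rfl
    · exact Complex.ofReal_one
  rw [h1, h2, h3, e2_add]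
  ring

/-- The sum over the families as a sum over labellings. -/
theorem smI_FB (D : Dat2 ι κ) (phi : A → I → ZMod 2)
    (cc : ∀ a, Lab2 (k a) → κ → ZMod 2) (b : I → κ → ZMod 2) (χ : I → ι → ℂ) (S : Finset ι) :
    smI (fun c => twc χ c * FB D phi k cc b c) S =
      BF D (PLc phi k) (fun z q => twz χ (colc z) q * ((nLc z : ℂ) * e2 (D.dg (cz cc b z.1) q))) S := by
  unfold FB
  rw [smI_prod D phi (fun a => gk D (cc a)) b χ S]
  congr 1
  funext z q
  exact A5_pt D phi cc b χ z q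

/-- After the reciprocity law. -/
theorem smI_LSX (D : Dat2 ι κ) {w : κ → ZMod 2}
    (tw : ∀ p q, p ≠ q → D.s p q + D.s q p = D.dg w p * D.dg w q)
    (cc : ∀ a, Lab2 (k a) → κ → ZMod 2) (b : I → κ → ZMod 2) (χ : I → ι → ℂ) (S : Finset ι) :
    smI (fun c => twc χ c * FB D phi k cc b c) S = ∑ ce : Lc phi k → ZMod 2, Fh (PLc phi k) ce *
      ∑ f : S → Lc phi k,
        (∏ j : S, (LSX D (PLc phi k) nLc (fun z => cz cc b z.1 + ce z • w)
          fun z => twz χ (colc z)).g (f j) j) *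
        e2 (∑ j : S, ∑ l : S, (LSX D (PLc phi k) nLc (fun z => cz cc b z.1 + ce z • w)
          fun z => twz χ (colc z)).Phi (f j) (f l) * D.s j l) := by
  classical
  rw [smI_FB]
  refine (BF_one D tw (PLc phi k) (fun z => PL_self z.1) _ S).trans (sum_congr rfl fun ce _ => ?_)
  congr 1
  unfold BF
  refine sum_congr rfl fun f _ => ?_
  congr 1
  refine prod_congr rfl fun j _ => ?_
  show twz χ (colc (f j)) j * ((nLc (f j) : ℂ) * e2 (D.dg (cz cc b (f j).1) j)) * e2 (ce (f j) * D.dg w j) =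
    (nLc (f j) : ℂ) * (twz χ (colc (f j)) j * e2 (D.dg (cz cc b (f j).1 + ce (f j) • w) j))
  rw [dg_add, dg_smul, e2_add]
  ring

/-- The value. -/
theorem sum_mSc (w : κ → ZMod 2) (cc : ∀ a, Lab2 (k a) → κ → ZMod 2) (b : I → κ → ZMod 2) :
    ∑ ce : Lc phi k → ZMod 2, Fh (PLc phi k) ce *
      ∑ U ∈ UsLc phi k, mS (fun z => cz cc b z.1 + ce z • w) U = vQ phi k cc b := by
  classical
  have hz : cz cc b (z0 phi k 0) = 0 := by
    unfold cz z0
    simp only [dotProduct_zero, zero_smul, sum_const_zero, Pi.zero_apply, add_zero]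
  simp only [mul_sum]
  rw [sum_comm]
  unfold UsLc vQ
  rw [sum_image]
  · refine sum_congr rfl fun U hU => ?_
    have hunl : ∀ a ∈ rs U, ∀ c ∈ rs U, PLc phi k a c = 0 :=
      fun a ha c hc => PL_unl hU a.1 (mem_rs.1 ha) c.1 (mem_rs.1 hc)
    refine Eq.trans (sum_congr rfl fun ce _ => ?_)
      ((sum_Fh (PLc phi k) (rs U) hunl w fun z => cz cc b z.1).trans ?_)
    · refine congrArg (fun t => Fh (PLc phi k) ce * t) ?_
      by_cases h : ∀ x ∈ rs U, cz cc b x.1 + ce x • w = 0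
      · rw [if_pos h]
        exact if_pos h
      · rw [if_neg h]
        exact if_neg h
    · refine if_congr ?_ rfl rfl
      constructor
      · intro h z hz'
        by_cases h0 : z.1.1 = 0
        · rw [eq_z0_zero h0]
          exact hz
        · exact h ⟨z, h0⟩ (mem_rs.2 hz')
      · intro h z hz'
        exact h z.1 (mem_rs.1 hz')
  · intro U hU U' hU' h
    obtain ⟨V, hV, rfl⟩ := mem_UsL.1 hU
    obtain ⟨V', hV', rfl⟩ := mem_UsL.1 hU'
    exact rs_injY h

variable [PS ι]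

/-- The first moment from the mean values of the maximal unlinked sets. -/
private theorem A5_gen {D : Dat2 ι κ} {w : κ → ZMod 2} (hD : OKt D w)
    (cc : ∀ a, Lab2 (k a) → κ → ZMod 2) (b : I → κ → ZMod 2) (χ : I → ι → ℂ) {M : ℕ}
    (mU : (Lc phi k → ZMod 2) → Finset (Lc phi k) → ℂ)
    (hOK : ∀ ce, OKh (LSX D (PLc phi k) nLc (fun z => cz cc b z.1 + ce z • w)
      fun z => twz χ (colc z)) D (hI I) M (UsLc phi k) (mU ce) fun X => (NN ι (hI I) X : ℂ)) {v : ℂ}
    (hv : ∑ ce : Lc phi k → ZMod 2, Fh (PLc phi k) ce * ∑ U ∈ UsLc phi k, mU ce U = v) :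
    MV0 (fun c => twc χ c * FB D phi k cc b c) v := by
  intro ε hε
  have hN : (0 : ℝ) < 1 + ∑ ce : Lc phi k → ZMod 2, ‖Fh (PLc phi k) ce‖ :=
    add_pos_of_pos_of_nonneg one_pos (sum_nonneg fun _ _ => norm_nonneg _)
  have hε0 : 0 < ε / (1 + ∑ ce : Lc phi k → ZMod 2, ‖Fh (PLc phi k) ce‖) := div_pos hε hN
  choose X0 h0 using fun ce : Lc phi k → ZMod 2 =>
    engH D hD.an (LSX D (PLc phi k) nLc (fun z => cz cc b z.1 + ce z • w)
      fun z => twz χ (colc z)) (hOK ce) _ hε0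
  refine ⟨∑ p, X0 p, fun X hX => ?_⟩
  have hXt : ∀ p, X0 p ≤ X := fun p =>
    (single_le_sum (fun _ _ => Nat.zero_le _) (mem_univ p)).trans hX
  have hY0 : 0 ≤ Yh (hI I) X := Yh_nonneg _ X
  have hN0 : 0 ≤ NN ι (hI I) X := NN_nonneg ι _ X
  rw [sum_congr rfl fun S _ => smI_LSX D hD.tw cc b χ S, ← hv, sum_comm, sum_mul,
    ← sum_sub_distrib]
  calc _ ≤ ∑ p : Lc phi k → ZMod 2, ‖Fh (PLc phi k) p‖ *
        (ε / (1 + ∑ ce : Lc phi k → ZMod 2, ‖Fh (PLc phi k) ce‖) * Yh (hI I) X) := by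
        refine (norm_sum_le _ _).trans (sum_le_sum fun p _ => ?_)
        have h2 := h0 p X (hXt p)
        rw [← mul_sum, mul_assoc, ← mul_sub, norm_mul]
        exact mul_le_mul_of_nonneg_left h2 (norm_nonneg _)
    _ = (∑ p : Lc phi k → ZMod 2, ‖Fh (PLc phi k) p‖) /
        (1 + ∑ ce : Lc phi k → ZMod 2, ‖Fh (PLc phi k) ce‖) * (ε * Yh (hI I) X) := by
        rw [← sum_mul]
        ring
    _ ≤ 1 * (ε * Yh (hI I) X) := by
        refine mul_le_mul_of_nonneg_right ?_ (mul_nonneg hε.le hY0)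
        rw [div_le_one hN]
        linarith
    _ ≤ ε * (NN ι (hI I) X + Yh (hI I) X) := by
        rw [one_mul]
        exact mul_le_mul_of_nonneg_left (by linarith) hε.le

section Tw

variable [TwS ι] {D : Dat2 ι κ} {w : κ → ZMod 2}

private theorem A5_twz (hT : OKT D w) {χ : I → ι → ℂ} (hχ : ∀ i, χ i ∈ (TwS.T : Set (ι → ℂ)))
    (v : I → ZMod 2) : twz χ v ∈ (TwS.T : Set (ι → ℂ)) := by
  classical
  have h1 : ∀ s : Finset I, (fun q => ∏ i ∈ s, if v i = 1 then χ i q else 1) ∈ (TwS.T : Set (ι → ℂ)) := by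
    intro s
    induction s using Finset.induction_on with
    | empty =>
      simp only [prod_empty]
      exact hT.one
    | insert i s hi ih =>
      simp only [prod_insert hi]
      by_cases h : v i = 1
      · simp only [if_pos h]
        exact hT.mul _ (hχ i) _ ih
      · simp only [if_neg h, one_mul]
        exact ih
  exact h1 univ

private theorem A5_conj {z : ℂ} (hz : ‖z‖ = 1) : (starRingEnd ℂ) z = z⁻¹ := by
  rw [Complex.inv_def, Complex.normSq_eq_norm_sq, hz]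
  simp

private theorem A5_e2c (x : ZMod 2) : (starRingEnd ℂ) (e2 x) = e2 x := by
  unfold e2
  exact Complex.conj_ofReal _

/-- A label of a maximal set with a given colour. -/
theorem exists_colc {U : Finset (Lc phi k)} (hU : U ∈ UsLc phi k) {v : I → ZMod 2} (hv : v ≠ 0) :
    ∃ x ∈ U, colc x = v := by
  obtain ⟨U', hU', rfl⟩ := mem_UsLc.1 hU
  obtain ⟨V, hV, rfl⟩ := mem_UsL.1 hU'
  have hne : ∀ b, (V b).Nonempty := fun b => by
    rw [← card_pos, (mem_UsN.1 (hV b)).2]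
    positivity
  choose y hy using hne
  have h1 : mk phi k v y ∈ UL phi k V := by
    refine mem_UL.2 fun b hb => ?_
    have hb' : phi b ⬝ᵥ v = 1 := hb
    show (phi b ⬝ᵥ v) • y b ∈ V b
    rw [hb', one_smul]
    exact hy b
  exact ⟨⟨mk phi k v y, hv⟩, mem_rs.2 h1, rfl⟩

/-- **THE FIRST MOMENT**, with the twists. -/
theorem MVc_FB [Nonempty I] (hs : Sp phi) (hD : OKT D w) (cc : ∀ a, Lab2 (k a) → κ → ZMod 2)
    (b : I → κ → ZMod 2) : MVc (FB D phi k cc b) (vQ phi k cc b) := by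
  have hE : OKt D w := hD.toOKt
  have hW := WS_Lc (phi := phi) (k := k) hs
  have hM : MH ι (hI I) := mhD hE.an _ (one_le_hI I)
  refine ⟨?_, fun χ hχ => ?_⟩
  · have h1 : FB D phi k cc b = fun c => twc (fun _ _ => 1) c * FB D phi k cc b c := by
      funext c
      unfold twc
      simp only [prod_const_one, one_mul]
    have h2 : (fun z : Lc phi k => twz (fun (_ : I) (_ : ι) => (1 : ℂ)) (colc z)) = fun _ _ => 1 := by
      funext z q
      unfold twz
      simp only [ite_self, prod_const_one]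
    rw [h1]
    refine A5_gen hE cc b _ (M := ML I k)
      (fun ce => mS fun z => cz cc b z.1 + ce z • w) (fun ce => ?_) (sum_mSc w cc b)
    rw [h2]
    exact LSX_OK hW hE _ (fun _ _ => norm_one) (fun _ _ _ => rfl) (LSX_main0 hM hW hE _)
  · obtain ⟨h1, i₀, h2⟩ := hχ
    have hτ : ∀ (x : Lc phi k) (q : ι), ‖twz χ (colc x) q‖ = 1 := fun x q =>
      hD.nrm _ (A5_twz hD h1 _) q
    refine A5_gen hE cc b χ (M := ML I k) (fun _ _ => 0) (fun ce => ?_) (by
      simp only [sum_const_zero, mul_zero])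
    have hne : (Pi.single i₀ 1 : I → ZMod 2) ≠ 0 := fun h => by
      have h3 := congrFun h i₀
      rw [Pi.single_eq_same] at h3
      exact one_ne_zero h3
    have h4 : twz χ (Pi.single i₀ 1 : I → ZMod 2) = χ i₀ := by
      funext q
      unfold twz
      rw [prod_eq_single i₀]
      · rw [Pi.single_eq_same, if_pos rfl]
      · intro i _ hi
        rw [Pi.single_eq_of_ne hi, if_neg zero_ne_one]
      · intro h
        exact absurd (mem_univ _) h
    refine LSX_OK hW hE _ hτ (fun x y h => by rw [h]) (LSX_mainF hM hW hE _ hτ fun U hU => ?_)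
    obtain ⟨y, hyU, hyc⟩ := exists_colc hU hne
    refine ⟨y, hyU, fun x _ => ?_, ?_⟩
    · have h5 := hD.di _ (hD.mul _ (A5_twz hD h1 (colc x)) _ (hD.inv _ (A5_twz hD h1 (colc y))))
        ((cz cc b x.1 + ce x • w) + (cz cc b y.1 + ce y • w))
      have h6 : ∀ q, (twz χ (colc x) q * e2 (D.dg (cz cc b x.1 + ce x • w) q)) *
          (starRingEnd ℂ) (twz χ (colc y) q * e2 (D.dg (cz cc b y.1 + ce y • w) q)) =
          (twz χ (colc x) q * (twz χ (colc y) q)⁻¹) *
            e2 (D.dg ((cz cc b x.1 + ce x • w) + (cz cc b y.1 + ce y • w)) q) := by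
        intro q
        rw [map_mul, A5_conj (hτ y q), A5_e2c, dg_add D (cz cc b x.1 + ce x • w), e2_add]
        ring
      rcases h5 with h5 | h5
      · left
        intro q
        have h7 := h6 q
        rw [h5 q] at h7
        have h8 : ‖twz χ (colc y) q * e2 (D.dg (cz cc b y.1 + ce y • w) q)‖ = 1 := by
          rw [norm_mul, hτ, norm_e2, mul_one]
        have h9 : twz χ (colc y) q * e2 (D.dg (cz cc b y.1 + ce y • w) q) ≠ 0 := by
          rw [← norm_ne_zero_iff, h8]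
          exact one_ne_zero
        rw [A5_conj h8] at h7
        exact (mul_inv_eq_one₀ h9).1 h7
      · right
        simp only [h6]
        exact h5
    · have h5 := hD.far _ h2 (cz cc b y.1 + ce y • w)
      simp only [hyc, h4]
      exact h5

end Tw

end

end Pool.Agent.Lib.MP_1a91b9_ntMN
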