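import Pool.Agent.Lib.MP_1a91b9_ntMN.E0
import Pool.Agent.Lib.MP_1a91b9_ntDV.P1

/-!
# MP_1a91b9_nt (multiquadratic fields, natural density): rules for mean values over covering families
-/

set_option autoImplicit false
set_option linter.unusedSectionVars false

namespace Pool.Agent.Lib.MP_1a91b9_ntMN

open Finset Pool.Agent.Lib.MP_1a91b9_ntH Pool.Agent.Lib.MP_1a91b9_ntQ
open Pool.Agent.Lib.MP_1a91b9_ntQ.Da Pool.Agent.Lib.MP_1a91b9_ntV Pool.Agent.Lib.MP_1a91b9_ntM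
open Pool.Agent.Lib.MP_1a91b9_ntDV Pool.Agent.Lib.MP_1a91b9_ntMQ

noncomputable section

variable {I : Type} [Fintype I] [DecidableEq I] {ι : Type} [DecidableEq ι]

theorem smI_add (F G : (I → Finset ι) → ℂ) (S : Finset ι) :
    smI (fun T => F T + G T) S = smI F S + smI G S := by
  unfold smI
  exact sum_add_distrib

theorem smI_smul (a : ℂ) (F : (I → Finset ι) → ℂ) (S : Finset ι) :
    smI (fun T => a * F T) S = a * smI F S := by
  unfold smI
  rw [mul_sum]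

variable [PS ι]

private theorem NY0 (X : ℕ) : 0 ≤ NN ι (hI I) X + Yh (hI I) X :=
  add_nonneg (NN_nonneg ι _ X) (Yh_nonneg _ X)

theorem MV0.add {F G : (I → Finset ι) → ℂ} {v w : ℂ} (hF : MV0 F v) (hG : MV0 G w) :
    MV0 (fun T => F T + G T) (v + w) := by
  intro ε hε
  obtain ⟨X1, h1⟩ := hF (ε / 2) (by positivity)
  obtain ⟨X2, h2⟩ := hG (ε / 2) (by positivity)
  refine ⟨max X1 X2, fun X hX => ?_⟩
  have a1 := h1 X ((le_max_left _ _).trans hX)
  have a2 := h2 X ((le_max_right _ _).trans hX)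
  have e : ∑ S ∈ Sx ι X, smI (fun T => F T + G T) S - (v + w) * (NN ι (hI I) X : ℂ) =
      (∑ S ∈ Sx ι X, smI F S - v * (NN ι (hI I) X : ℂ)) +
        (∑ S ∈ Sx ι X, smI G S - w * (NN ι (hI I) X : ℂ)) := by
    rw [sum_congr rfl fun S _ => smI_add F G S, sum_add_distrib]
    ring
  rw [e]
  have h3 := norm_add_le (∑ S ∈ Sx ι X, smI F S - v * (NN ι (hI I) X : ℂ))
    (∑ S ∈ Sx ι X, smI G S - w * (NN ι (hI I) X : ℂ))
  linarith

theorem MV0.smul {F : (I → Finset ι) → ℂ} {v : ℂ} (hF : MV0 F v) (a : ℂ) :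
    MV0 (fun T => a * F T) (a * v) := by
  intro ε hε
  obtain ⟨X1, h1⟩ := hF (ε / (‖a‖ + 1)) (by positivity)
  refine ⟨X1, fun X hX => ?_⟩
  have a1 := h1 X hX
  have e : ∑ S ∈ Sx ι X, smI (fun T => a * F T) S - a * v * (NN ι (hI I) X : ℂ) =
      a * (∑ S ∈ Sx ι X, smI F S - v * (NN ι (hI I) X : ℂ)) := by
    rw [sum_congr rfl fun S _ => smI_smul a F S, ← mul_sum]
    ring
  rw [e, norm_mul]
  have h0 := NY0 (I := I) (ι := ι) X
  calc ‖a‖ * ‖∑ S ∈ Sx ι X, smI F S - v * (NN ι (hI I) X : ℂ)‖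
      ≤ ‖a‖ * (ε / (‖a‖ + 1) * (NN ι (hI I) X + Yh (hI I) X)) :=
        mul_le_mul_of_nonneg_left a1 (norm_nonneg _)
    _ = (‖a‖ / (‖a‖ + 1)) * (ε * (NN ι (hI I) X + Yh (hI I) X)) := by ring
    _ ≤ 1 * (ε * (NN ι (hI I) X + Yh (hI I) X)) := by
        refine mul_le_mul_of_nonneg_right ?_ (mul_nonneg hε.le h0)
        rw [div_le_one (by positivity)]
        linarith
    _ = ε * (NN ι (hI I) X + Yh (hI I) X) := one_mul _

theorem MV0.zero : MV0 (fun _ : I → Finset ι => (0 : ℂ)) 0 := by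
  intro ε hε
  refine ⟨0, fun X _ => ?_⟩
  have e : ∀ S ∈ Sx ι X, smI (fun _ : I → Finset ι => (0 : ℂ)) S = 0 := by
    intro S _
    unfold smI
    exact sum_const_zero
  rw [Finset.sum_eq_zero e, zero_mul, sub_zero, norm_zero]
  exact mul_nonneg hε.le (NY0 X)

theorem MV0.congr {F G : (I → Finset ι) → ℂ} {v w : ℂ} (hF : MV0 F v) (h : ∀ T, G T = F T)
    (h2 : w = v) : MV0 G w := by
  have e : G = F := funext h
  rw [e, h2]
  exact hF

variable [TwS ι]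

theorem MVc.add {F G : (I → Finset ι) → ℂ} {v w : ℂ} (hF : MVc F v) (hG : MVc G w) :
    MVc (fun T => F T + G T) (v + w) :=
  ⟨hF.1.add hG.1, fun χ hχ => ((hF.2 χ hχ).add (hG.2 χ hχ)).congr (fun _ => mul_add _ _ _)
    (add_zero 0).symm⟩

theorem MVc.smul {F : (I → Finset ι) → ℂ} {v : ℂ} (hF : MVc F v) (a : ℂ) :
    MVc (fun T => a * F T) (a * v) :=
  ⟨hF.1.smul a, fun χ hχ => ((hF.2 χ hχ).smul a).congr (fun T => by ring) (mul_zero a).symm⟩

theorem MVc.zero : MVc (fun _ : I → Finset ι => (0 : ℂ)) 0 :=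
  ⟨MV0.zero, fun _ _ => MV0.zero.congr (fun _ => mul_zero _) rfl⟩

theorem MVc.congr {F G : (I → Finset ι) → ℂ} {v w : ℂ} (hF : MVc F v) (h : ∀ T, G T = F T)
    (h2 : w = v) : MVc G w := by
  have e : G = F := funext h
  rw [e, h2]
  exact hF

theorem MVc.sum {α : Type} (s : Finset α) {F : α → (I → Finset ι) → ℂ} {v : α → ℂ}
    (h : ∀ i ∈ s, MVc (F i) (v i)) : MVc (fun T => ∑ i ∈ s, F i T) (∑ i ∈ s, v i) := by
  classical
  induction s using Finset.induction_on with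
  | empty => exact MVc.zero.congr (fun T => by rw [Finset.sum_empty]) (by rw [Finset.sum_empty])
  | insert a s ha ih =>
    refine ((h a (Finset.mem_insert_self a s)).add (ih fun i hi => h i (Finset.mem_insert_of_mem hi))).congr
      (fun T => ?_) ?_
    · rw [Finset.sum_insert ha]
    · rw [Finset.sum_insert ha]

theorem MVrc_iff {F : (I → Finset ι) → ℝ} {v : ℝ} :
    MVrc F v ↔ MVc (fun T => (F T : ℂ)) (v : ℂ) := Iff.rfl

theorem MVrc.add {F G : (I → Finset ι) → ℝ} {v w : ℝ} (hF : MVrc F v) (hG : MVrc G w) :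
    MVrc (fun T => F T + G T) (v + w) := by
  rw [MVrc_iff] at hF hG ⊢
  exact (hF.add hG).congr (fun T => by push_cast; rfl) (by push_cast; rfl)

theorem MVrc.smul {F : (I → Finset ι) → ℝ} {v : ℝ} (hF : MVrc F v) (a : ℝ) :
    MVrc (fun T => a * F T) (a * v) := by
  rw [MVrc_iff] at hF ⊢
  exact (hF.smul (a : ℂ)).congr (fun T => by push_cast; rfl) (by push_cast; rfl)

theorem MVrc.congr {F G : (I → Finset ι) → ℝ} {v w : ℝ} (hF : MVrc F v) (h : ∀ T, G T = F T)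
    (h2 : w = v) : MVrc G w := by
  have e : G = F := funext h
  rw [e, h2]
  exact hF

theorem MVrc.sum {α : Type} (s : Finset α) {F : α → (I → Finset ι) → ℝ} {v : α → ℝ}
    (h : ∀ i ∈ s, MVrc (F i) (v i)) : MVrc (fun T => ∑ i ∈ s, F i T) (∑ i ∈ s, v i) := by
  rw [MVrc_iff]
  exact (MVc.sum s fun i hi => MVrc_iff.1 (h i hi)).congr (fun T => by push_cast; rfl) (by push_cast; rfl)

omit [PS ι] [TwS ι] in
private theorem smI_real (F : (I → Finset ι) → ℝ) (S : Finset ι) :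
    smI (fun T => (F T : ℂ)) S = ((∑ c ∈ covF I S, F c : ℝ) : ℂ) := by
  unfold smI
  push_cast
  rfl

omit [TwS ι] in
private theorem MV0_real {F : (I → Finset ι) → ℝ} {v ε : ℝ} {X : ℕ}
    (h : ‖∑ S ∈ Sx ι X, smI (fun T => (F T : ℂ)) S - (v : ℂ) * (NN ι (hI I) X : ℂ)‖ ≤ ε) :
    |∑ S ∈ Sx ι X, ∑ c ∈ covF I S, F c - v * NN ι (hI I) X| ≤ ε := by
  have e : ∑ S ∈ Sx ι X, smI (fun T => (F T : ℂ)) S - (v : ℂ) * (NN ι (hI I) X : ℂ) =
      ((∑ S ∈ Sx ι X, ∑ c ∈ covF I S, F c - v * NN ι (hI I) X : ℝ) : ℂ) := by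
    rw [sum_congr rfl fun S _ => smI_real F S]
    push_cast
    rfl
  rwa [e, Complex.norm_real, Real.norm_eq_abs] at h

/-- The rule for bounds. -/
theorem MVrc.of_bounds (hn : ∀ τ ∈ (TwS.T : Set (ι → ℂ)), ∀ q, ‖τ q‖ = 1) {F : (I → Finset ι) → ℝ} {v : ℝ}
    (h : ∀ δ : ℝ, 0 < δ → ∃ (l u : (I → Finset ι) → ℝ) (vl vu : ℝ), MVrc l vl ∧ MVrc u vu ∧
      v - δ ≤ vl ∧ vu ≤ v + δ ∧ ∀ T, l T ≤ F T ∧ F T ≤ u T) : MVrc F v := by
  have hN0 : ∀ X, 0 ≤ NN ι (hI I) X := fun X => NN_nonneg ι _ X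
  have hY0 : ∀ X, 0 ≤ Yh (hI I) X := fun X => Yh_nonneg _ X
  refine ⟨fun ε hε => ?_, fun χ hχ ε hε => ?_⟩
  · obtain ⟨l, u, vl, vu, hl, hu, hvl, hvu, hb⟩ := h (ε / 2) (by positivity)
    obtain ⟨X1, h1⟩ := hl.1 (ε / 2) (by positivity)
    obtain ⟨X2, h2⟩ := hu.1 (ε / 2) (by positivity)
    refine ⟨max X1 X2, fun X hX => ?_⟩
    have a1 := MV0_real (h1 X ((le_max_left _ _).trans hX))
    have a2 := MV0_real (h2 X ((le_max_right _ _).trans hX))
    have e : ∑ S ∈ Sx ι X, smI (fun T => (F T : ℂ)) S - (v : ℂ) * (NN ι (hI I) X : ℂ) =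
        ((∑ S ∈ Sx ι X, ∑ c ∈ covF I S, F c - v * NN ι (hI I) X : ℝ) : ℂ) := by
      rw [sum_congr rfl fun S _ => smI_real F S]
      push_cast
      rfl
    rw [e, Complex.norm_real, Real.norm_eq_abs]
    have b1 : ∑ S ∈ Sx ι X, ∑ c ∈ covF I S, l c ≤ ∑ S ∈ Sx ι X, ∑ c ∈ covF I S, F c :=
      sum_le_sum fun S _ => sum_le_sum fun c _ => (hb c).1
    have b2 : ∑ S ∈ Sx ι X, ∑ c ∈ covF I S, F c ≤ ∑ S ∈ Sx ι X, ∑ c ∈ covF I S, u c :=
      sum_le_sum fun S _ => sum_le_sum fun c _ => (hb c).2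
    have c1 := mul_le_mul_of_nonneg_right hvl (hN0 X)
    have c2 := mul_le_mul_of_nonneg_right hvu (hN0 X)
    have d1 := abs_le.1 a1
    have d2 := abs_le.1 a2
    have e0 := hY0 X
    have e1 : 0 ≤ ε / 2 * Yh (hI I) X := by positivity
    rw [abs_le]
    constructor
    · nlinarith
    · nlinarith
  · have hχn : ∀ c : I → Finset ι, ‖twc χ c‖ = 1 := by
      intro c
      unfold twc
      rw [norm_prod]
      refine prod_eq_one fun i _ => ?_
      rw [norm_prod]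
      exact prod_eq_one fun q _ => hn _ (hχ.1 i) q
    obtain ⟨l, u, vl, vu, hl, hu, hvl, hvu, hb⟩ := h (ε / 6) (by positivity)
    obtain ⟨X1, h1⟩ := hl.1 (ε / 6) (by positivity)
    obtain ⟨X2, h2⟩ := hu.1 (ε / 6) (by positivity)
    obtain ⟨X3, h3⟩ := hl.2 χ hχ (ε / 3) (by positivity)
    refine ⟨max X1 (max X2 X3), fun X hX => ?_⟩
    have a1 := MV0_real (h1 X ((le_max_left _ _).trans hX))
    have a2 := MV0_real (h2 X (((le_max_left _ _).trans (le_max_right _ _)).trans hX))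
    have a3 := h3 X (((le_max_right _ _).trans (le_max_right _ _)).trans hX)
    rw [zero_mul, sub_zero] at a3 ⊢
    have e : ∑ S ∈ Sx ι X, smI (fun c => twc χ c * (F c : ℂ)) S =
        ∑ S ∈ Sx ι X, smI (fun c => twc χ c * (l c : ℂ)) S +
          ∑ S ∈ Sx ι X, smI (fun c => twc χ c * ((F c - l c : ℝ) : ℂ)) S := by
      rw [← sum_add_distrib]
      refine sum_congr rfl fun S _ => ?_
      rw [← smI_add]
      congr 1
      funext c
      push_cast
      ring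
    have b1 : ‖∑ S ∈ Sx ι X, smI (fun c => twc χ c * ((F c - l c : ℝ) : ℂ)) S‖ ≤
        ∑ S ∈ Sx ι X, ∑ c ∈ covF I S, u c - ∑ S ∈ Sx ι X, ∑ c ∈ covF I S, l c := by
      rw [← sum_sub_distrib]
      refine (norm_sum_le _ _).trans (sum_le_sum fun S _ => ?_)
      unfold smI
      rw [← sum_sub_distrib]
      refine (norm_sum_le _ _).trans (sum_le_sum fun c _ => ?_)
      rw [norm_mul, hχn, one_mul, Complex.norm_real, Real.norm_of_nonneg (sub_nonneg.2 (hb c).1)]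
      linarith [(hb c).2]
    have d1 := abs_le.1 a1
    have d2 := abs_le.1 a2
    have c1 := mul_le_mul_of_nonneg_right hvl (hN0 X)
    have c2 := mul_le_mul_of_nonneg_right hvu (hN0 X)
    have e1 : 0 ≤ ε * Yh (hI I) X := mul_nonneg hε.le (hY0 X)
    have e2 : 0 ≤ ε * NN ι (hI I) X := mul_nonneg hε.le (hN0 X)
    rw [e]
    refine (norm_add_le _ _).trans ?_
    nlinarith

end

end Pool.Agent.Lib.MP_1a91b9_ntMN
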