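import Pool.Agent.Lib.MP_1a91b9_ntMN.R1

/-!
# MP_1a91b9_nt (multiquadratic fields, natural density): mean values in a class
-/

set_option autoImplicit false
set_option linter.unusedSectionVars false

namespace Pool.Agent.Lib.MP_1a91b9_ntMN

open Finset Pool.Agent.Lib.MP_1a91b9_ntH Pool.Agent.Lib.MP_1a91b9_ntQ
open Pool.Agent.Lib.MP_1a91b9_ntQ.Da Pool.Agent.Lib.MP_1a91b9_ntV Pool.Agent.Lib.MP_1a91b9_ntM
open Pool.Agent.Lib.MP_1a91b9_ntDV Pool.Agent.Lib.MP_1a91b9_ntMQ

noncomputable section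

variable {I : Type} [Fintype I] [DecidableEq I] {ι : Type} [DecidableEq ι] {κ : Type} [Fintype κ]
  [DecidableEq κ] [PS ι] [TwS ι]

theorem limP_PclC (hn : ∀ τ ∈ (TwS.T : Set (ι → ℂ)), ∀ q, ‖τ q‖ = 1) (D : Dat2 ι κ)
    (γ : I → κ → ZMod 2) : LimP (PclC D γ) := by
  refine ⟨fun f h v w hf hh => ?_, fun f v a hf => ?_, fun f v hb => ?_⟩
  · refine MVrc.congr (MVrc.add hf hh) (fun T => ?_) (add_div _ _ _)
    split_ifs
    · rfl
    · rw [add_zero]
  · refine MVrc.congr (MVrc.smul hf a) (fun T => ?_) (mul_div_assoc _ _ _)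
    split_ifs
    · rfl
    · rw [mul_zero]
  · refine MVrc.of_bounds hn fun δ hδ => ?_
    obtain ⟨l, u, vl, vu, hl, hu, h1, h2, h3⟩ := hb δ hδ
    have hn : (1 : ℝ) ≤ 2 ^ (Fintype.card κ * Fintype.card I) := one_le_pow₀ (by norm_num)
    have hn0 : (0 : ℝ) < 2 ^ (Fintype.card κ * Fintype.card I) := by positivity
    have hdn : δ / 2 ^ (Fintype.card κ * Fintype.card I) ≤ δ := div_le_self hδ.le hn
    refine ⟨_, _, vl / 2 ^ (Fintype.card κ * Fintype.card I), vu / 2 ^ (Fintype.card κ * Fintype.card I),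
      hl, hu, ?_, ?_, fun T => ?_⟩
    · have h4 : (v - δ) / 2 ^ (Fintype.card κ * Fintype.card I) ≤ vl / 2 ^ (Fintype.card κ * Fintype.card I) :=
        div_le_div_of_nonneg_right h1 hn0.le
      rw [sub_div] at h4
      linarith
    · have h4 : vu / 2 ^ (Fintype.card κ * Fintype.card I) ≤ (v + δ) / 2 ^ (Fintype.card κ * Fintype.card I) :=
        div_le_div_of_nonneg_right h2 hn0.le
      rw [add_div] at h4
      linarith
    · by_cases hc : ∀ i, clN D (T i) = γ i
      · simp only [if_pos hc]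
        exact h3 T
      · simp only [if_neg hc]
        exact ⟨le_rfl, le_rfl⟩

theorem PclC_zero (D : Dat2 ι κ) (γ : I → κ → ZMod 2) : PclC D γ (fun _ => 0) 0 := by
  have h1 : MVrc (fun _ : I → Finset ι => (0 : ℝ)) 0 := by
    rw [MVrc_iff]
    exact MVc.congr MVc.zero (fun _ => Complex.ofReal_zero) Complex.ofReal_zero
  refine MVrc.congr h1 (fun T => ?_) (zero_div _)
  split_ifs <;> rfl

/-- Only the values in the class count. -/
theorem PclC.congrC {D : Dat2 ι κ} {γ : I → κ → ZMod 2} {f h : (I → Finset ι) → ℝ} {v : ℝ}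
    (hf : PclC D γ f v) (heq : ∀ c, (∀ i, clN D (c i) = γ i) → h c = f c) : PclC D γ h v := by
  classical
  refine MVrc.congr hf (fun c => ?_) rfl
  by_cases hc : ∀ i, clN D (c i) = γ i
  · rw [if_pos hc, if_pos hc]
    exact heq c hc
  · rw [if_neg hc, if_neg hc]

end

end Pool.Agent.Lib.MP_1a91b9_ntMN
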