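import Pool.Agent.Lib.MP_1a91b9_ntDV.K3_9
import Pool.Agent.Lib.MP_1a91b9_ntMQ.Z2
import Pool.Agent.Lib.MP_1a91b9_ntMN.M3
import Pool.Agent.Lib.MP_1a91b9_ntMN.A8
import Pool.Agent.Lib.MP_1a91b9_ntMN.P1

/-!
# MP_1a91b9_nt (multiquadratic fields, natural density), `ℚ(√-3)`: the joint moments and the joint density, in a class
-/

set_option autoImplicit false
set_option linter.unusedSectionVars false

namespace Pool.Agent.Lib.MP_1a91b9_ntMN

open Finset Pool.Agent.Lib.MP_1a91b9_ntH Pool.Agent.Lib.MP_1a91b9_ntQ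
open Pool.Agent.Lib.MP_1a91b9_ntQ.Da Pool.Agent.Lib.MP_1a91b9_ntV
open Pool.Agent.Lib.MP_1a91b9_ntDV Pool.Agent.Lib.MP_1a91b9_ntMQ
open Pool.Agent.Lib.MP_1a91b9_ntP (DatG LSysG LabJ Bs kJ offG)

noncomputable section

open Pool.Agent.Lib.MP_1a91b9_ntV.DJ
open Pool.Agent.Lib.MP_1a91b9_ntQ (Off up dn)

section Ch

variable {I : Type} [Fintype I] [DecidableEq I] {ι : Type} [DecidableEq ι] [PS ι]

/-- The value may be changed if the number of the sets is `o(X)`. -/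
theorem MVc.change [Nonempty I] [TwS ι] {C1 C2 : ℝ} (hc : Cheb ι C1) (hz : Zt ι C2)
    {F : (I → Finset ι) → ℂ} {v : ℂ} (hF : MVc F v) (v' : ℂ) (h : Sm ι) : MVc F v' := by
  refine ⟨fun ε hε => ?_, hF.2⟩
  have hmz : Mz ∅ (fun _ : ι => (1 : ℂ)) := by
    intro δ hδ
    obtain ⟨X₀, h0⟩ := h δ hδ
    refine ⟨X₀, fun X hX => ?_⟩
    rw [filter_true_of_mem fun S _ => disjoint_empty_right S]
    simp only [prod_const_one, sum_const, nsmul_eq_mul, mul_one]
    rw [Complex.norm_natCast]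
    exact h0 X hX
  obtain ⟨X1, h1⟩ := hF.1 (ε / 2) (by positivity)
  obtain ⟨X2, h2⟩ := mz_pow hc hz (one_le_hI I) (fun _ => norm_one.le) hmz
    (ε / (2 * (‖v - v'‖ + 1))) (by positivity)
  refine ⟨X1 + X2, fun X hX => ?_⟩
  have g1 := h1 X (by omega)
  have g2 := h2 X (by omega)
  have hN0 := NN_nonneg ι (hI I) X
  have hY0 := Yh_nonneg (hI I) X
  have g3 : NN ι (hI I) X ≤ ε / (2 * (‖v - v'‖ + 1)) * Yh (hI I) X := by
    have e : ∑ S ∈ Sx ι X, ∏ _q ∈ S, ((hI I : ℂ) * 1) = (NN ι (hI I) X : ℂ) := by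
      unfold NN
      push_cast
      exact sum_congr rfl fun S _ => by rw [mul_one, prod_const]
    rw [e, Complex.norm_real, Real.norm_of_nonneg hN0] at g2
    exact g2
  have e : ∑ S ∈ Sx ι X, smI F S - v' * (NN ι (hI I) X : ℂ) =
      (∑ S ∈ Sx ι X, smI F S - v * (NN ι (hI I) X : ℂ)) + (v - v') * (NN ι (hI I) X : ℂ) := by ring
  rw [e]
  refine (norm_add_le _ _).trans ?_
  have g4 : ‖(v - v') * (NN ι (hI I) X : ℂ)‖ ≤ ε / 2 * Yh (hI I) X := by
    rw [norm_mul, Complex.norm_real, Real.norm_of_nonneg hN0]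
    have h9 : ‖v - v'‖ * (ε / (2 * (‖v - v'‖ + 1)) * Yh (hI I) X) =
        ε / 2 * Yh (hI I) X * (‖v - v'‖ / (‖v - v'‖ + 1)) := by
      field_simp
    have h10 : ‖v - v'‖ / (‖v - v'‖ + 1) ≤ 1 := by
      rw [div_le_one (by positivity)]
      linarith
    refine (mul_le_mul_of_nonneg_left g3 (norm_nonneg _)).trans ?_
    rw [h9]
    exact mul_le_of_le_one_right (by positivity) h10
  have h11 : 0 ≤ ε / 2 * NN ι (hI I) X := by positivity
  linarith

end Ch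

variable {I A : Type} [Fintype I] [DecidableEq I] [Fintype A] [DecidableEq A]
  {phi : A → I → ZMod 2} {ι : Type} [DecidableEq ι] [PS ι] {D : MP_1a91b9_ntE.DatE ι} [Nonempty I]
  {Bt : A → Type} [∀ a, Fintype (Bt a)] [∀ a, DecidableEq (Bt a)]

/-- **The joint moments for the products of the divisors, in a class.** -/
theorem PclC_kJ4 (hs : Sp phi) (hD : D.toDat.Rec) (Q : ∀ a, Bt a → Bs D) {B : Finset ι}
    (hB : (offG D B).OK) [TwS (Off B)] (hT' : OKT (D4 (offG D B)) (w4 _)) {T : ∀ a, Bt a → Finset ι} (hT : ∀ a b, T a b ⊆ B)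
    (hi : ∀ a, Function.Injective fun b => ((Q a b).ρ, (Q a b).τ, T a b))
    (γ : I → Bool ⊕ (Unit ⊕ B) → ZMod 2) (k : ∀ a, Bt a → ℕ) :
    PclC (D4 (offG D B)) γ (fun c => ∏ a, kJ (Q a) (T a) (k a) (TT phi c a))
      (∏ a, ∏ b, (MP_1a91b9_ntH.Da.Nk (k a b) : ℝ)) := by
  have hO : OKt (D4 (offG D B)) (w4 _) := okt_D4 hB
  choose M hM rf cf W hW hK hV using fun a => exists_K4 hD (Q a) hB (hT a) (hi a) (k a)
  obtain ⟨C1, hC1⟩ := hO.an.cheb
  obtain ⟨C2, hC2⟩ := hO.an.zt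
  have h1 := MVc_cls hs hT' rf cf (fun a S => (kJ (Q a) (T a) (k a) S : ℂ)) hW hK γ
  unfold PclC
  rw [MVrc_iff]
  by_cases hn : Sm (Off B)
  · refine MVc.congr (MVc.change hC1 hC2 h1 _ hn) (fun c => ?_) rfl
    rw [apply_ite (fun x : ℝ => (x : ℂ))]
    push_cast
    rfl
  · refine MVc.congr h1 (fun c => ?_) ?_
    · rw [apply_ite (fun x : ℝ => (x : ℂ))]
      push_cast
      rfl
    · rw [Complex.ofReal_div]
      congr 1
      · rw [Complex.ofReal_prod]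
        refine prod_congr rfl fun a _ => ?_
        rw [eq_div_iff (hW a), sum_eq_single (0 : Bool ⊕ (Unit ⊕ B) → ZMod 2)]
        · rw [hV a hn, if_pos rfl, zero_dotProduct, e2_zero, one_mul]
        · intro c0 _ hc0
          rw [hV a hn, if_neg hc0, zero_mul, mul_zero]
        · intro h
          exact absurd (mem_univ _) h
      · push_cast
        rfl

open Classical in
/-- **The joint density for the products of the divisors, in a class.** -/
theorem PclC_dens4 (hs : Sp phi) (hD : D.toDat.Rec) (Q : ∀ a, Bt a → Bs D) {B : Finset ι}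
    (hB : (offG D B).OK) [TwS (Off B)] (hT' : OKT (D4 (offG D B)) (w4 _)) {T : ∀ a, Bt a → Finset ι} (hT : ∀ a b, T a b ⊆ B)
    (hi : ∀ a, Function.Injective fun b => ((Q a b).ρ, (Q a b).τ, T a b))
    (γ : I → Bool ⊕ (Unit ⊕ B) → ZMod 2) :
    PclC (D4 (offG D B)) γ (fun c => ∏ a, ∏ b,
        if (Q a b).kz (up (TT phi c a) ∪ T a b) = 1 then (1 : ℝ) else 0)
      (∏ a, MP_1a91b9_ntH.Da.cinf ^ Fintype.card (Bt a)) := by
  have h1 := LimP.Nk4 (limP_PclC hT'.nrm (D4 (offG D B)) γ) (A := Σ a, Bt a)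
    (x := fun p (c : I → Finset (Off B)) => (Q p.1 p.2).kz (up (TT phi c p.1) ∪ T p.1 p.2))
    (fun p c => (Q p.1 p.2).pow _) fun k => by
      have h2 := PclC_kJ4 hs hD Q hB hT' hT hi γ fun a b => k ⟨a, b⟩
      have e1 : (fun c : I → Finset (Off B) => ∏ p : (Σ a, Bt a),
          ((Q p.1 p.2).kz (up (TT phi c p.1) ∪ T p.1 p.2) : ℝ) ^ k p) =
          fun c => ∏ a, kJ (Q a) (T a) (fun b => k ⟨a, b⟩) (TT phi c a) := by
        funext c
        rw [Fintype.prod_sigma]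
        rfl
      have e2 : (∏ p : (Σ a, Bt a), (MP_1a91b9_ntH.Da.Nk (k p) : ℝ)) =
          ∏ a, ∏ b, (MP_1a91b9_ntH.Da.Nk (k ⟨a, b⟩) : ℝ) := Fintype.prod_sigma _
      rw [e1, e2]
      exact h2
  have e3 : (fun c : I → Finset (Off B) => ∏ p : (Σ a, Bt a),
      if (Q p.1 p.2).kz (up (TT phi c p.1) ∪ T p.1 p.2) = 1 then (1 : ℝ) else 0) =
      fun c => ∏ a, ∏ b, if (Q a b).kz (up (TT phi c a) ∪ T a b) = 1 then (1 : ℝ) else 0 :=
    funext fun c => Fintype.prod_sigma _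
  have e4 : MP_1a91b9_ntH.Da.cinf ^ Fintype.card (Σ a, Bt a) =
      ∏ a, MP_1a91b9_ntH.Da.cinf ^ Fintype.card (Bt a) := by
    rw [Fintype.card_sigma, prod_pow_eq_pow_sum]
  rw [e3, e4] at h1
  exact h1

end

end Pool.Agent.Lib.MP_1a91b9_ntMN
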