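import Pool.Agent.Lib.MP_1a91b9_ntMQ.Z4
import Pool.Agent.Lib.MP_1a91b9_ntMN.Z3

/-!
# MP_1a91b9_nt (multiquadratic fields, natural density), `ℚ(√-3)`: combinations of indicators, the classes
-/

set_option autoImplicit false
set_option linter.unusedSectionVars false

namespace Pool.Agent.Lib.MP_1a91b9_ntMN

open Finset Pool.Agent.Lib.MP_1a91b9_ntH Pool.Agent.Lib.MP_1a91b9_ntQ
open Pool.Agent.Lib.MP_1a91b9_ntQ.Da Pool.Agent.Lib.MP_1a91b9_ntV
open Pool.Agent.Lib.MP_1a91b9_ntDV Pool.Agent.Lib.MP_1a91b9_ntMQ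
open Pool.Agent.Lib.MP_1a91b9_ntP (DatG LSysG LabJ Bs kJ offG)

noncomputable section

open Pool.Agent.Lib.MP_1a91b9_ntV.DJ
open Pool.Agent.Lib.MP_1a91b9_ntQ (Off up dn)

variable {I A : Type} [Fintype I] [DecidableEq I] [Fintype A] [DecidableEq A]
  {phi : A → I → ZMod 2} {ι : Type} [DecidableEq ι] [PS ι] {D : MP_1a91b9_ntE.DatE ι} [Nonempty I]
  {J : Type} [Fintype J] [DecidableEq J] [Nonempty J] {Z : A → Type} [∀ a, Fintype (Z a)]
  [∀ a, DecidableEq (Z a)]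

/-- The mean values of the products of combinations of indicators, in a class. -/
theorem PclC_comb4 (hs : Sp phi) (hD : D.toDat.Rec) (Q : ∀ a, Z a → J → Bs D)
    (w : ∀ a, Z a → J → ℝ) {B : Finset ι} (hB : (offG D B).OK)
    [TwS (Off B)] (hT' : OKT (D4 (offG D B)) (w4 _)) {T : ∀ a, Z a → Finset ι}
    (hT : ∀ a z, T a z ⊆ B)
    (hi : ∀ a, ∀ u : Z a → J, Function.Injective fun z =>
      ((Q a z (u z)).ρ, (Q a z (u z)).τ, T a z))
    (γ : I → Bool ⊕ (Unit ⊕ B) → ZMod 2) :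
    PclC (D4 (offG D B)) γ (fun c => ∏ a, ∏ z, ∑ j, w a z j *
        (if (Q a z j).kz (up (TT phi c a) ∪ T a z) = 1 then (1 : ℝ) else 0))
      (∏ a, ∏ z, ((∑ j, w a z j) * MP_1a91b9_ntH.Da.cinf)) := by
  classical
  have hP := limP_PclC hT'.nrm (D4 (offG D B)) γ
  have h4 : ∀ u : (∀ a, Z a → J), PclC (D4 (offG D B)) γ (fun c => ∏ a, ∏ z,
      if (Q a z (u a z)).kz (up (TT phi c a) ∪ T a z) = 1 then (1 : ℝ) else 0)
      (∏ a, MP_1a91b9_ntH.Da.cinf ^ Fintype.card (Z a)) := fun u =>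
    PclC_dens4 hs hD (fun a z => Q a z (u a z)) hB hT' hT (fun a => hi a (u a)) γ
  have h6 := hP.sum (univ : Finset (∀ a, Z a → J)) (fun u _ =>
    hP.smul _ _ (∏ a, ∏ z, w a z (u a z)) (h4 u)) (PclC_zero _ _)
  have hx : ∀ F : ∀ a, Z a → J → ℝ, ∑ u : (∀ a, Z a → J), ∏ a, ∏ z, F a z (u a z) =
      ∏ a, ∏ z, ∑ j, F a z j := by
    intro F
    have e1 : ∀ a, ∏ z, ∑ j, F a z j = ∑ u : Z a → J, ∏ z, F a z (u z) := by
      intro a
      rw [prod_univ_sum, Fintype.piFinset_univ]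
    rw [prod_congr rfl fun a _ => e1 a, prod_univ_sum, Fintype.piFinset_univ]
  have h7 : (fun c : I → Finset (Off B) => ∑ u : (∀ a, Z a → J), (∏ a, ∏ z, w a z (u a z)) *
      ∏ a, ∏ z, if (Q a z (u a z)).kz (up (TT phi c a) ∪ T a z) = 1 then (1 : ℝ) else 0) =
      fun c => ∏ a, ∏ z, ∑ j, w a z j *
        (if (Q a z j).kz (up (TT phi c a) ∪ T a z) = 1 then (1 : ℝ) else 0) := by
    funext c
    rw [← hx]
    refine sum_congr rfl fun u _ => ?_
    rw [← prod_mul_distrib]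
    exact prod_congr rfl fun a _ => prod_mul_distrib.symm
  have h8 : (∑ u : (∀ a, Z a → J), (∏ a, ∏ z, w a z (u a z)) *
      ∏ a, MP_1a91b9_ntH.Da.cinf ^ Fintype.card (Z a)) =
      ∏ a, ∏ z, ((∑ j, w a z j) * MP_1a91b9_ntH.Da.cinf) := by
    rw [← sum_mul, hx, ← prod_mul_distrib]
    refine prod_congr rfl fun a _ => ?_
    rw [prod_mul_distrib, prod_const, card_univ]
  rw [h8] at h6
  rw [h7] at h6
  exact h6

end

end Pool.Agent.Lib.MP_1a91b9_ntMN
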