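import Pool.Agent.Lib.MP_1a91b9_ntDV.K3_14
import Pool.Agent.Lib.MP_1a91b9_ntMQ.B0
import Pool.Agent.Lib.MP_1a91b9_ntMQ.P11
import Pool.Agent.Lib.MP_1a91b9_ntMQ.RU0
import Pool.Agent.Lib.MP_1a91b9_ntMN.Z4
import Pool.Agent.Lib.MP_1a91b9_ntMN.P10
import Pool.Agent.Lib.MP_1a91b9_ntMN.CTriv

/-!
# MP_1a91b9_nt (multiquadratic fields, natural density), `ℚ(√-3)`: blocks of combinations of indicators
-/

set_option autoImplicit false
set_option linter.unusedSectionVars false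

namespace Pool.Agent.Lib.MP_1a91b9_ntMN

open Finset Pool.Agent.Lib.MP_1a91b9_ntH Pool.Agent.Lib.MP_1a91b9_ntH2
  Pool.Agent.Lib.MP_1a91b9_ntE Pool.Agent.Lib.MP_1a91b9_ntQ
open Pool.Agent.Lib.MP_1a91b9_ntMQ Pool.Agent.Lib.MP_1a91b9_ntS.G
open Pool.Agent.Lib.MP_1a91b9_ntDV (LimP D4 A_off w4)
open Pool.Agent.Lib.MP_1a91b9_ntR (GR finite_GR cq)
open Pool.Agent.Lib.MP_1a91b9_ntN.G (cl3)
open Pool.Agent.Lib.MP_1a91b9_ntP (GdE Bs offG qG_OK)
open Pool.Agent.Lib.MP_1a91b9_ntZ (Atl bn bts bts_mono bts_ind bts_const)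

noncomputable section

open Pool.Agent.Lib.MP_1a91b9_ntQ (Off up dn)

/-- **The law for the tuples of divisors**, for blocks of combinations of indicators. -/
theorem jcC3 (m : ℕ) {r k : ℕ} (hr : 1 ≤ r) (Y : Fin k → Finset (Fin r) → Type) [∀ i J, Fintype (Y i J)]
    {K : Type} [Fintype K] [DecidableEq K] [Nonempty K]
    (Q : F4 → ∀ i J, Y i J → K → Bs qE) (w : ∀ i J, Y i J → K → ℝ)
    (T : ∀ i J, Y i J → Finset Pq) (B : Finset Pq) (hT : ∀ i J a, T i J a ⊆ B)
    (hi : ∀ (α : F4) (J : Finset (Fin r)), J.Nonempty → ∀ u : (Σ i, Y i J) → K,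
      Function.Injective fun p : (Σ i, Y i J) =>
        ((Q α p.1 J p.2 (u p)).ρ, (Q α p.1 J p.2 (u p)).τ, T p.1 J p.2))
    (P : F4 → ∀ i J, Y i J → Finset Pq → Prop)
    (h0 : ∀ α i J a S, 0 ≤ ∑ j, w i J a j * (if (Q α i J a j).kz S = 1 then (1 : ℝ) else 0))
    (h1 : ∀ α i J a S, ∑ j, w i J a j * (if (Q α i J a j).kz S = 1 then (1 : ℝ) else 0) ≤ 1)
    (hP : ∀ α i J a S, ¬ P α i J a S →
      ∑ j, w i J a j * (if (Q α i J a j).kz S = 1 then (1 : ℝ) else 0) = 0)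
    (hw0 : ∀ i J a, 0 ≤ ∑ j, w i J a j) (hw1 : ∀ i J a, ∑ j, w i J a j ≤ 1) {g : ℝ}
    (hg : 0 ≤ g) (hgv : ∀ i, g ≤ ∏ J ∈ (univ : Finset (Finset (Fin r))).filter Finset.Nonempty,
      ∏ a : Y i J, ((∑ j, w i J a j) * Da.cinf)) (t : ℕ) :
    CovLI (cl3 m) r B (bn k t g) fun S => Atl t fun i => ∀ J : Finset (Fin r), J.Nonempty → ∀ a,
      P (qd.A (sdJ J S)) i J a (sdJ J S ∪ T i J a) := by
  classical
  have hc0 : 0 ≤ Da.cinf := MP_1a91b9_ntN.G.cinf_pos.le
  have hc1 : Da.cinf ≤ 1 := MP_1a91b9_ntN.G.cinf_le.trans (by norm_num)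
  have : Nonempty (Fin r) := ⟨⟨0, hr⟩⟩
  have hfin : Finite (GR (mod3 m)) := finite_GR (mod3 m) (Q3_ne m)
  let _ : TwS (Off B) := twG (D4 (offG qE B)) (fun q : Off B => cq (mod3 m) q.1)
  have hOT : OKT (D4 (offG qE B)) (w4 _) := okT_3 m B
  -- the products are indexed by the nonempty `J`
  have hneJ : ∀ F : Finset (Fin r) → ℝ,
      ∏ J ∈ (univ : Finset (Finset (Fin r))).filter Finset.Nonempty, F J =
        ∏ a : {J : Finset (Fin r) // J.Nonempty}, F a.1 := by
    intro F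
    exact prod_subtype _ (fun J => by rw [mem_filter]; exact ⟨fun h => h.2, fun h => ⟨mem_univ _, h⟩⟩) F
  set v : Fin k → ℝ := fun i => ∏ a : {J : Finset (Fin r) // J.Nonempty},
    ∏ y : Y i a.1, ((∑ j, w i a.1 y j) * Da.cinf) with hv
  set G : F4 → Fin k → {J : Finset (Fin r) // J.Nonempty} → Finset Pq → ℝ := fun α i a S =>
    ∏ y : Y i a.1, ∑ j, w i a.1 y j * (if (Q α i a.1 y j).kz (S ∪ T i a.1 y) = 1
      then (1 : ℝ) else 0) with hG
  have hG0 : ∀ α i a S, 0 ≤ G α i a S := fun α i a S => prod_nonneg fun y _ => h0 _ i a.1 y _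
  have hG1 : ∀ α i a S, G α i a S ≤ 1 := fun α i a S =>
    prod_le_one (fun y _ => h0 _ i a.1 y _) fun y _ => h1 _ i a.1 y _
  -- the moments in a class
  have hM : ∀ (γ : Fin r → Bool ⊕ (Unit ⊕ B) → ZMod 2) (s : Finset (Fin k)),
      PclC (D4 (offG qE B)) γ (fun c => ∏ i ∈ s, ∏ a, G (al (ga (phJ r) γ a)) i a
        (up (TT (phJ r) c a))) (∏ i ∈ s, v i) := by
    intro γ s
    have hm := PclC_comb4 (sp_phJ r) qE_OK.rec_
      (Z := fun a : {J : Finset (Fin r) // J.Nonempty} => Σ i : {i // i ∈ s}, Y i.1 a.1)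
      (J := K) (fun a z j => Q (al (ga (phJ r) γ a)) z.1.1 a.1 z.2 j)
      (fun a z j => w z.1.1 a.1 z.2 j) (qG_OK B) hOT (T := fun a z => T z.1.1 a.1 z.2)
      (fun a z => hT _ _ _) (fun a u => by
        intro z z' h
        have hj := hi (al (ga (phJ r) γ a)) a.1 a.2 fun p : (Σ i, Y i a.1) =>
          if hp : p.1 ∈ s then u ⟨⟨p.1, hp⟩, p.2⟩ else Classical.arbitrary K
        have e : ∀ z : (Σ i : {i // i ∈ s}, Y i.1 a.1),
            (if hp : (⟨z.1.1, z.2⟩ : Σ i, Y i a.1).1 ∈ s then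
              u ⟨⟨(⟨z.1.1, z.2⟩ : Σ i, Y i a.1).1, hp⟩, (⟨z.1.1, z.2⟩ : Σ i, Y i a.1).2⟩
              else Classical.arbitrary K) = u z := by
          intro z
          rw [dif_pos z.1.2]
        have h2 : (⟨z.1.1, z.2⟩ : Σ i, Y i a.1) = ⟨z'.1.1, z'.2⟩ := by
          apply hj
          simp only [e]
          exact h
        obtain ⟨⟨i, hi1⟩, y⟩ := z
        obtain ⟨⟨i', hi2⟩, y'⟩ := z'
        cases h2
        rfl) γ
    have e1 : (fun c : Fin r → Finset (Off B) => ∏ a : {J : Finset (Fin r) // J.Nonempty},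
        ∏ z : (Σ i : {i // i ∈ s}, Y i.1 a.1), ∑ j, w z.1.1 a.1 z.2 j *
        (if (Q (al (ga (phJ r) γ a)) z.1.1 a.1 z.2 j).kz (up (TT (phJ r) c a) ∪ T z.1.1 a.1 z.2) = 1
          then (1 : ℝ) else 0)) =
        fun c => ∏ i ∈ s, ∏ a, G (al (ga (phJ r) γ a)) i a (up (TT (phJ r) c a)) := by
      funext c
      rw [prod_comm]
      refine prod_congr rfl fun a _ => ?_
      rw [Fintype.prod_sigma]
      exact prod_coe_sort s fun i => G (al (ga (phJ r) γ a)) i a (up (TT (phJ r) c a))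
    have e2 : (∏ a : {J : Finset (Fin r) // J.Nonempty}, ∏ z : (Σ i : {i // i ∈ s}, Y i.1 a.1),
        ((∑ j, w z.1.1 a.1 z.2 j) * Da.cinf)) = ∏ i ∈ s, v i := by
      rw [hv]
      dsimp only
      rw [prod_comm]
      refine prod_congr rfl fun a _ => ?_
      rw [Fintype.prod_sigma]
      exact prod_coe_sort s fun i => ∏ y : Y i a.1, ((∑ j, w i a.1 y j) * Da.cinf)
    rw [e1, e2] at hm
    exact hm
  -- at least `t` blocks
  have h3 : ∀ γ, PclC (D4 (offG qE B)) γ (fun c : Fin r → Finset (Off B) => bts univ t fun i : Fin k =>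
      ∏ a, G (qd.A (up (TT (phJ r) c a))) i a (up (TT (phJ r) c a))) (bts univ t v) := by
    intro γ
    have h5 := mean_bts (limP_PclC hOT.nrm (D4 (offG qE B)) γ)
      (F := fun (i : Fin k) (c : Fin r → Finset (Off B)) =>
        ∏ a, G (al (ga (phJ r) γ a)) i a (up (TT (phJ r) c a))) (v := v) univ ∅
      (disjoint_empty_left _) (fun s _ => hM γ s) t
    simp only [prod_empty, one_mul] at h5
    refine PclC.congrC h5 fun c hc => ?_
    have h6 : ∀ a, qd.A (up (TT (phJ r) c a)) = al (ga (phJ r) γ a) := by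
      intro a
      rw [← A_off, ← al_clN, clN_TT (D4 (offG qE B)) (phJ r) γ c hc a]
    simp only [h6]
  -- the numbers
  have hle : bn k t g ≤ bts univ t v := by
    have e := bts_const (univ : Finset (Fin k)) t g
    rw [card_univ, Fintype.card_fin] at e
    rw [← e]
    refine bts_mono univ t (fun _ _ => hg) (fun i _ => ?_) fun i _ =>
      prod_le_one (fun a _ => prod_nonneg fun y _ => mul_nonneg (hw0 i a.1 y) hc0)
        fun a _ => prod_le_one (fun y _ => mul_nonneg (hw0 i a.1 y) hc0)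
          fun y _ => mul_le_one₀ (hw1 i a.1 y) hc0 hc1
    have h7 := hgv i
    rw [hneJ] at h7
    exact h7
  have h9 : ∀ γ, PclC (D4 (offG qE B)) γ (fun _ : Fin r → Finset (Off B) => 1) 1 := by
    intro γ
    have h := hM γ ∅
    simp only [prod_empty] at h
    exact h
  refine covLI_of (D4 (offG qE B)) (fun q : Off B => cq (mod3 m) q.1) (cl3 m) (AddMonoidHom.id _)
    (fun q => rfl) hr (fun _ => hle) (fun S => ?_) h3 h9 nb3
  have hsd : ∀ a : {J : Finset (Fin r) // J.Nonempty},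
      up (TT (phJ r) S a) = sdJ a.1 (fun i => up (S i)) := by
    intro a
    rw [up_TT, TT_phJ]
  have h8 : (bts univ t fun i : Fin k =>
      ∏ a, G (qd.A (up (TT (phJ r) S a))) i a (up (TT (phJ r) S a))) ≤
      bts univ t fun i => if (∀ J : Finset (Fin r), J.Nonempty → ∀ y,
        P (qd.A (sdJ J (fun i => up (S i)))) i J y (sdJ J (fun i => up (S i)) ∪ T i J y))
        then (1 : ℝ) else 0 := by
    refine bts_mono univ t (fun i _ => prod_nonneg fun a _ => hG0 _ i a _) (fun i _ => ?_)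
      fun i _ => ?_
    · by_cases h : ∀ J : Finset (Fin r), J.Nonempty → ∀ y,
        P (qd.A (sdJ J (fun i => up (S i)))) i J y (sdJ J (fun i => up (S i)) ∪ T i J y)
      · rw [if_pos h]
        exact prod_le_one (fun a _ => hG0 _ i a _) fun a _ => hG1 _ i a _
      · rw [if_neg h]
        push Not at h
        obtain ⟨J, hJ, y, hy⟩ := h
        refine le_of_eq (prod_eq_zero (mem_univ (⟨J, hJ⟩ : {J : Finset (Fin r) // J.Nonempty})) ?_)
        refine prod_eq_zero (mem_univ y) ?_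
        rw [hsd]
        exact hP _ i J y _ hy
    · split_ifs
      · exact le_rfl
      · exact zero_le_one
  refine le_trans h8 (le_of_eq ?_)
  have e := bts_ind (fun i : Fin k => ∀ J : Finset (Fin r), J.Nonempty → ∀ y,
    P (qd.A (sdJ J (fun i => up (S i)))) i J y (sdJ J (fun i => up (S i)) ∪ T i J y)) univ t
  refine Eq.trans ?_ (e.trans ?_)
  · refine congrArg (bts univ t) (funext fun i => ?_)
    split_ifs <;> rfl
  · by_cases h : Atl t fun i : Fin k => ∀ J : Finset (Fin r), J.Nonempty → ∀ y,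
      P (qd.A (sdJ J (fun i => up (S i)))) i J y (sdJ J (fun i => up (S i)) ∪ T i J y)
    · exact (if_pos h).trans (if_pos h).symm
    · exact (if_neg h).trans (if_neg h).symm

end

end Pool.Agent.Lib.MP_1a91b9_ntMN
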