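import Pool.Agent.Lib.MP_1a91b9_ntMN.UW10
import Pool.Agent.Lib.MP_1a91b9_ntMN.B2
import Pool.Agent.Lib.MP_1a91b9_ntMN.Y15
import Pool.Agent.Lib.MP_1a91b9_ntMN.Z7
import Pool.Agent.Lib.MP_1a91b9_ntMN.X14

/-!
# MP_1a91b9_nt (all the multiquadratic fields): the law, complete
-/

set_option autoImplicit false

namespace Pool.Agent.Lib.MP_1a91b9_ntMN.Fin

open NumberField IsDedekindDomain WeierstrassCurve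
open Pool.Agent.Lib.MP_1a91b9_ntR (cq)
open Pool.Agent.Lib.MP_1a91b9_ntW (mod8)
open Pool.Agent.Lib.MP_1a91b9_ntV (mod7)
open Pool.Agent.Lib.MP_1a91b9_ntN.G (cl3)
open Pool.Agent.Lib.MP_1a91b9_ntQ (clq)
open Pool.Agent.Lib.MP_1a91b9_ntDV.Fin (cst)
open Pool.Agent.Lib.MP_1a91b9_ntMQ.Fin (PropMF)

attribute [local instance 5000] Pool.Agent.Lib.MP_1a91b9_ntV.cd7

open Classical in
/-- **The result.** -/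
theorem fin_den
    (K : Type) [Field K] [NumberField K] (hK : Module.finrank ℚ K = 2)
    (E : WeierstrassCurve K) (hE : E.a₁ = 0 ∧ E.a₃ = 0 ∧ E.a₆ = 0) (hΔ : E.Δ ≠ 0) (j D : ℤ)
    (hjD : (j, D) ∈ Pool.Agent.Lib.MP_1a91b9_ntY.cmList)
    (hj : E.c₄ ^ 3 = j * E.Δ) (hD : ∃ s : K, s ^ 2 = D)
    (l : ℕ) (hl : l = 2 ∨ l = 4 ∧ ∃ i : K, i ^ 2 = -1)
    (F : Type) [Field F] [NumberField F] [Algebra K F]
    (hF : IntermediateField.adjoin K {x : F | ∃ c : K, x ^ l = algebraMap K F c} = ⊤) (r : ℕ)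
    (T : Set (Fin r → 𝓞 K)) (h0 : ∀ δ ∈ T, ∀ i, δ i ≠ 0)
    (hT : ∀ δ ∈ T, ∀ δ' ∈ T, δ ≠ δ' → ∀ J : Finset (Fin r), J.Nonempty →
      ∀ e ∈ ({1, -1, E.a₄, -E.a₄} : Set K), ∀ x : F, x ≠ 0 →
      x ^ 2 * algebraMap K F ((∏ i ∈ J, δ' i : 𝓞 K) : K) ≠
        algebraMap K F (e * ((∏ i ∈ J, δ i : 𝓞 K) : K)))
    (n : ℕ) (m : 𝓞 K) (u : Fin r → 𝓞 K) (hm : m ∣ 2 ^ n)
    (hu : ∀ i q, Prime q → ¬ (q ^ 2 ∣ m ∧ q ^ 2 ∣ u i)) (c : ℝ)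
    (hc : c = cst K F) (t : ℕ) (v : ℝ)
    (hv : v = if T.Infinite then 1 else ∑ j ∈ Finset.Icc t T.ncard, (T.ncard.choose j : ℝ) *
      (c ^ ((2 ^ r - 1) * Module.finrank K F)) ^ j *
        (1 - c ^ ((2 ^ r - 1) * Module.finrank K F)) ^ (T.ncard - j))
    (ε : ℝ) (hε : 0 < ε) :
    ∀ᶠ X : ℝ in Filter.atTop, v - ε ≤
      (Nat.card {d : Fin r → 𝓞 K // (∀ i, Squarefree (d i) ∧ m ∣ d i - u i) ∧
        (∃ A, A ≠ 0 ∧ |Algebra.norm ℤ A| ≤ X ∧ ∀ i, d i ∣ A) ∧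
        t ≤ {δ ∈ T | PropMF E F (fun i => ((δ i * d i : 𝓞 K) : K))}.encard} : ℝ) /
        (Nat.card {d : Fin r → 𝓞 K // (∀ i, Squarefree (d i) ∧ m ∣ d i - u i) ∧
          ∃ A, A ≠ 0 ∧ |Algebra.norm ℤ A| ≤ X ∧ ∀ i, d i ∣ A} : ℝ) :=
  fin_laws jbi7 jbi8 jbi3 jpi3 Pool.Agent.Lib.MP_1a91b9_ntMN.G4.jbi4 K hK E hE hΔ j D hjD hj hD l hl F hF
    r T h0 hT n m u hm hu c hc t v hv ε hε

end Pool.Agent.Lib.MP_1a91b9_ntMN.Fin
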