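import Pool.Agent.Lib.MP_1a91b9_ntMN.UBh

/-!
# MP_1a91b9_nt (extensions ordered by the ramified primes): weights which are smaller on a large set of primes

The series: if the mean value of the multiplicative function `χ` on squarefree integers is zero then
`exp (∑ Re χ(q) N(q) ^ (-σ)) ≤ ε / (σ - 1) + K`. `mz_mean`: if moreover a multiplicative function has values at most `H` and at
most `((H m - 1) + Re χ) / m` then its sum is at most `ε Yh H X`. `norm_wsumC`: the norm of a weighted sum of complex units.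
-/

set_option autoImplicit false
set_option linter.unusedSectionVars false

namespace Pool.Agent.Lib.MP_1a91b9_ntMN

open Finset Pool.Agent.Lib.MP_1a91b9_ntH Pool.Agent.Lib.MP_1a91b9_ntQ Pool.Agent.Lib.MP_1a91b9_ntV

noncomputable section

/-! ### Sums of complex units -/

private theorem MNG_two (u v : ℂ) (hu : ‖u‖ = 1) (hv : ‖v‖ = 1) :
    ‖u + v‖ ≤ 2 - 1 / 2 * (1 - (u * (starRingEnd ℂ) v).re) := by
  have h1 : ‖u + v‖ ^ 2 = 2 + 2 * (u * (starRingEnd ℂ) v).re := by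
    rw [← Complex.normSq_eq_norm_sq, Complex.normSq_add, Complex.normSq_eq_norm_sq,
      Complex.normSq_eq_norm_sq, hu, hv]
    ring
  have h2 : |(u * (starRingEnd ℂ) v).re| ≤ 1 := by
    refine (Complex.abs_re_le_norm _).trans ?_
    rw [norm_mul, RCLike.norm_conj, hu, hv, mul_one]
  have h3 := abs_le.1 h2
  have h4 : 0 ≤ 2 - 1 / 2 * (1 - (u * (starRingEnd ℂ) v).re) := by linarith
  refine abs_le_of_sq_le_sq' ?_ h4 |>.2
  rw [h1]
  nlinarith [sq_nonneg (1 - (u * (starRingEnd ℂ) v).re)]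

/-- The norm of a weighted sum of complex units. -/
theorem norm_wsumC {L : Type} [DecidableEq L] (U : Finset L) (n : L → ℝ) (hn : ∀ x, 0 ≤ n x) (u : L → ℂ)
    (hu : ∀ x, ‖u x‖ = 1) {a : ℝ} (ha : 0 ≤ a) {l l' : L} (hl : l ∈ U) (hl' : l' ∈ U) (hne : l ≠ l')
    (h1 : a ≤ n l) (h2 : a ≤ n l') :
    ‖∑ x ∈ U, (n x : ℂ) * u x‖ ≤ ∑ x ∈ U, n x - a / 2 * (1 - (u l * (starRingEnd ℂ) (u l')).re) := by
  have hl2 : l' ∈ U.erase l := mem_erase.2 ⟨hne.symm, hl'⟩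
  have e1 : ∑ x ∈ U, (n x : ℂ) * u x = (a : ℂ) * (u l + u l') +
      (((n l - a : ℝ) : ℂ) * u l + (((n l' - a : ℝ) : ℂ) * u l' +
        ∑ x ∈ (U.erase l).erase l', (n x : ℂ) * u x)) := by
    rw [← add_sum_erase U _ hl, ← add_sum_erase (U.erase l) _ hl2]
    push_cast
    ring
  have e2 : ∑ x ∈ U, n x = n l + (n l' + ∑ x ∈ (U.erase l).erase l', n x) := by
    rw [← add_sum_erase U _ hl, ← add_sum_erase (U.erase l) _ hl2]
  have h3 : ‖(a : ℂ) * (u l + u l')‖ ≤ a * (2 - 1 / 2 * (1 - (u l * (starRingEnd ℂ) (u l')).re)) := by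
    rw [norm_mul, Complex.norm_real, Real.norm_of_nonneg ha]
    exact mul_le_mul_of_nonneg_left (MNG_two _ _ (hu l) (hu l')) ha
  have h4 : ‖((n l - a : ℝ) : ℂ) * u l‖ = n l - a := by
    rw [norm_mul, Complex.norm_real, Real.norm_of_nonneg (by linarith), hu, mul_one]
  have h5 : ‖((n l' - a : ℝ) : ℂ) * u l'‖ = n l' - a := by
    rw [norm_mul, Complex.norm_real, Real.norm_of_nonneg (by linarith), hu, mul_one]
  have h6 : ‖∑ x ∈ (U.erase l).erase l', (n x : ℂ) * u x‖ ≤ ∑ x ∈ (U.erase l).erase l', n x := by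
    refine (norm_sum_le _ _).trans (le_of_eq (sum_congr rfl fun x _ => ?_))
    rw [norm_mul, Complex.norm_real, Real.norm_of_nonneg (hn x), hu, mul_one]
  rw [e1, e2]
  refine (norm_add_le _ _).trans ((add_le_add h3 ((norm_add_le _ _).trans
    (add_le_add h4.le ((norm_add_le _ _).trans (add_le_add h5.le h6))))).trans (le_of_eq ?_))
  ring

/-! ### The Dirichlet series -/

section Ser

variable {ι : Type} [DecidableEq ι] [PS ι]

/-- The term of the series. -/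
private def MNG_t (χ : ι → ℂ) (σ : ℝ) (S : Finset ι) : ℂ := (∏ q ∈ S, χ q) * (((nm S : ℝ) ^ (-σ) : ℝ) : ℂ)

private theorem MNG_t_eq (χ : ι → ℂ) (σ : ℝ) (S : Finset ι) :
    MNG_t χ σ S = ∏ q ∈ S, (χ q * (((PS.N q : ℝ) ^ (-σ) : ℝ) : ℂ)) := by
  unfold MNG_t nm
  rw [prod_mul_distrib]
  congr 1
  push_cast
  rw [← Complex.ofReal_prod, Real.finsetProd_rpow _ _ (fun i _ => by positivity)]

private theorem MNG_norm (χ : ι → ℂ) (h1 : ∀ q, ‖χ q‖ ≤ 1) (σ : ℝ) (S : Finset ι) :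
    ‖MNG_t χ σ S‖ ≤ ∏ q ∈ S, (PS.N q : ℝ) ^ (-σ) := by
  rw [MNG_t_eq, norm_prod]
  refine prod_le_prod (fun q _ => norm_nonneg _) fun q _ => ?_
  have h0 : 0 ≤ (PS.N q : ℝ) ^ (-σ) := Real.rpow_nonneg (Nat.cast_nonneg _) _
  rw [norm_mul, Complex.norm_real, Real.norm_of_nonneg h0]
  exact mul_le_of_le_one_left h0 (h1 q)

private theorem MNG_pow (P : ℕ) (χ : ι → ℂ) (σ : ℝ) :
    ∑ S ∈ (pr ι P).powerset, MNG_t χ σ S =
      ∏ q ∈ pr ι P, (1 + χ q * (((PS.N q : ℝ) ^ (-σ) : ℝ) : ℂ)) := by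
  rw [prod_one_add]
  exact sum_congr rfl fun S _ => MNG_t_eq χ σ S

private theorem MNG_exists (S : Finset ι) : ∃ P : ℕ, ∀ Q : ℕ, P ≤ Q → S ∈ (pr ι Q).powerset ∧ S ∈ Sx ι Q := by
  refine ⟨nm S, fun Q hQ => ⟨mem_powerset.2 fun q hq => mem_pr.2 ((le_nm hq).trans hQ), mem_Sx.2 hQ⟩⟩

private theorem MNG_sum_le {C : ℝ} (hz : Zt ι C) (χ : ι → ℂ) (h1 : ∀ q, ‖χ q‖ ≤ 1) (σ : ℝ)
    (s1 : 1 < σ) (s3 : σ ≤ 3) (A : Finset (Finset ι)) : ∑ S ∈ A, ‖MNG_t χ σ S‖ ≤ C / (σ - 1) := by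
  classical
  have h2 : A ⊆ (pr ι (A.sup nm)).powerset := fun S hS =>
    mem_powerset.2 fun q hq => mem_pr.2 ((le_nm hq).trans (le_sup (f := nm) hS))
  refine (sum_le_sum_of_subset_of_nonneg h2 fun _ _ _ => norm_nonneg _).trans ?_
  refine (sum_le_sum fun S _ => MNG_norm χ h1 σ S).trans ?_
  rw [← prod_one_add]
  refine le_trans ?_ (hz σ (A.sup nm) s1 s3)
  refine prod_le_prod (fun q _ => ?_) fun q _ => ?_
  · have := (eubD_rpow_neg q σ s1.le).1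
    linarith
  · obtain ⟨ht0, ht⟩ := eubD_rpow_neg q σ s1.le
    have e2 : 0 < 1 - (PS.N q : ℝ) ^ (-σ) := by linarith
    rw [← one_div, le_div_iff₀ e2]
    nlinarith

private theorem MNG_summable {C : ℝ} (hz : Zt ι C) (χ : ι → ℂ) (h1 : ∀ q, ‖χ q‖ ≤ 1) (σ : ℝ)
    (s1 : 1 < σ) (s3 : σ ≤ 3) : Summable (MNG_t χ σ) := by
  have h2 : Summable fun S => ‖MNG_t χ σ S‖ :=
    summable_of_sum_le (fun _ => norm_nonneg _) (MNG_sum_le hz χ h1 σ s1 s3)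
  exact h2.of_norm

private theorem MNG_tend1 {C : ℝ} (hz : Zt ι C) (χ : ι → ℂ) (h1 : ∀ q, ‖χ q‖ ≤ 1) (σ : ℝ)
    (s1 : 1 < σ) (s3 : σ ≤ 3) : Filter.Tendsto (fun P : ℕ => ∑ S ∈ (pr ι P).powerset, MNG_t χ σ S)
      Filter.atTop (nhds (∑' S, MNG_t χ σ S)) := by
  have h2 := (MNG_summable hz χ h1 σ s1 s3).hasSum
  have h3 : Filter.Tendsto (fun P : ℕ => (pr ι P).powerset) Filter.atTop Filter.atTop := by
    refine Filter.tendsto_atTop_finset_of_monotone (fun P Q hPQ => ?_) fun S => ?_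
    · exact powerset_mono.2 fun q hq => mem_pr.2 ((mem_pr.1 hq).trans hPQ)
    · obtain ⟨P, hP⟩ := MNG_exists S
      exact ⟨P, (hP P le_rfl).1⟩
  exact h2.comp h3

private theorem MNG_tend2 {C : ℝ} (hz : Zt ι C) (χ : ι → ℂ) (h1 : ∀ q, ‖χ q‖ ≤ 1) (σ : ℝ)
    (s1 : 1 < σ) (s3 : σ ≤ 3) : Filter.Tendsto (fun X : ℕ => ∑ S ∈ Sx ι X, MNG_t χ σ S)
      Filter.atTop (nhds (∑' S, MNG_t χ σ S)) := by
  have h2 := (MNG_summable hz χ h1 σ s1 s3).hasSum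
  have h3 : Filter.Tendsto (fun X : ℕ => Sx ι X) Filter.atTop Filter.atTop := by
    refine Filter.tendsto_atTop_finset_of_monotone (fun P Q hPQ => ?_) fun S => ?_
    · exact fun S hS => mem_Sx.2 ((mem_Sx.1 hS).trans hPQ)
    · obtain ⟨P, hP⟩ := MNG_exists S
      exact ⟨P, (hP P le_rfl).2⟩
  exact h2.comp h3

/-- One more squarefree norm. -/
private theorem MNG_succ (g : Finset ι → ℂ) (X : ℕ) :
    ∑ S ∈ Sx ι (X + 1), g S = ∑ S ∈ Sx ι X, g S + ∑ S ∈ (Sx ι (X + 1)).filter (fun S => nm S = X + 1), g S := by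
  rw [← sum_filter_add_sum_filter_not (Sx ι (X + 1)) (fun S => nm S = X + 1), add_comm]
  congr 1
  refine sum_congr ?_ fun _ _ => rfl
  ext S
  rw [mem_filter, mem_Sx, mem_Sx]
  omega

/-- Partial summation. -/
private theorem MNG_abel (χ : ι → ℂ) (σ : ℝ) (X : ℕ) (hX : 1 ≤ X) :
    ∑ S ∈ Sx ι X, MNG_t χ σ S = (((X : ℝ) ^ (-σ) : ℝ) : ℂ) * ∑ S ∈ Sx ι X, ∏ q ∈ S, χ q +
      ∑ n ∈ Ico 1 X, ((((n : ℝ) ^ (-σ) - ((n + 1 : ℕ) : ℝ) ^ (-σ) : ℝ)) : ℂ) *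
        ∑ S ∈ Sx ι n, ∏ q ∈ S, χ q := by
  induction X, hX using Nat.le_induction with
  | base =>
    rw [Ico_self, sum_empty, add_zero, mul_sum]
    refine sum_congr rfl fun S hS => ?_
    have h1 : nm S = 1 := le_antisymm (mem_Sx.1 hS) (one_le_nm S)
    unfold MNG_t
    rw [h1, mul_comm]
  | succ X hX ih =>
    rw [MNG_succ, ih, Finset.sum_Ico_succ_top hX, MNG_succ (fun S => ∏ q ∈ S, χ q) X]
    have h2 : ∑ S ∈ (Sx ι (X + 1)).filter (fun S => nm S = X + 1), MNG_t χ σ S =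
        ((((X + 1 : ℕ) : ℝ) ^ (-σ) : ℝ) : ℂ) *
          ∑ S ∈ (Sx ι (X + 1)).filter (fun S => nm S = X + 1), ∏ q ∈ S, χ q := by
      rw [mul_sum]
      refine sum_congr rfl fun S hS => ?_
      have h1 : nm S = X + 1 := (mem_filter.1 hS).2
      unfold MNG_t
      rw [h1, mul_comm]
    rw [h2]
    push_cast
    ring

private theorem MNG_step (σ : ℝ) (s1 : 1 < σ) (X : ℕ) (hX : 1 ≤ X) :
    (σ - 1) * ((X + 1 : ℕ) : ℝ) ^ (-σ) ≤ (X : ℝ) ^ (1 - σ) - ((X + 1 : ℕ) : ℝ) ^ (1 - σ) := by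
  have ha : (0 : ℝ) < X := by exact_mod_cast hX
  have hb : (0 : ℝ) < ((X + 1 : ℕ) : ℝ) := by positivity
  obtain ⟨b, hbd⟩ : ∃ b : ℝ, b = ((X + 1 : ℕ) : ℝ) := ⟨_, rfl⟩
  rw [← hbd] at hb ⊢
  have hab : b = X + 1 := by
    rw [hbd]
    push_cast
    rfl
  have h1 : 1 - X / b ≤ Real.log (b / X) := by
    have h2 := Real.one_sub_inv_le_log_of_pos (div_pos hb ha)
    rwa [inv_div] at h2
  have h3 : 1 + (σ - 1) * (1 - X / b) ≤ (b / X) ^ (σ - 1) := by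
    rw [Real.rpow_def_of_pos (div_pos hb ha)]
    have h4 := Real.add_one_le_exp (Real.log (b / X) * (σ - 1))
    have h5 : (σ - 1) * (1 - X / b) ≤ Real.log (b / X) * (σ - 1) := by
      rw [mul_comm]
      exact mul_le_mul_of_nonneg_right h1 (by linarith)
    linarith
  have h6 : (X : ℝ) ^ (1 - σ) = b ^ (1 - σ) * (b / X) ^ (σ - 1) := by
    rw [Real.div_rpow hb.le ha.le, mul_div_assoc', ← Real.rpow_add hb,
      show 1 - σ + (σ - 1) = 0 by ring, Real.rpow_zero, one_div, ← Real.rpow_neg ha.le, neg_sub]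
  have h7 : b ^ (-σ) = b ^ (1 - σ) * b⁻¹ := by
    rw [← Real.rpow_neg_one b, ← Real.rpow_add hb]
    congr 1
    ring
  have h8 : 1 - X / b = b⁻¹ := by
    field_simp
    linarith
  rw [h8] at h3
  rw [h6, h7]
  have h9 : 0 < b ^ (1 - σ) := Real.rpow_pos_of_pos hb _
  nlinarith [mul_le_mul_of_nonneg_left h3 h9.le]

/-- The bound for the partial sums. -/
private theorem MNG_bound (χ : ι → ℂ) {ε K : ℝ} (hε : 0 ≤ ε)
    (h : ∀ n : ℕ, ‖∑ S ∈ Sx ι n, ∏ q ∈ S, χ q‖ ≤ ε * n + K) (σ : ℝ) (s1 : 1 < σ) (X : ℕ) (hX : 1 ≤ X) :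
    ‖∑ S ∈ Sx ι X, MNG_t χ σ S‖ ≤ ε * (1 + 1 / (σ - 1)) + K := by
  have s0 : 0 < σ - 1 := by linarith
  have hdec : ∀ n : ℕ, 1 ≤ n → ((n + 1 : ℕ) : ℝ) ^ (-σ) ≤ (n : ℝ) ^ (-σ) := by
    intro n hn
    have hn0 : (0 : ℝ) < n := by exact_mod_cast hn
    exact Real.rpow_le_rpow_of_nonpos hn0 (by push_cast; linarith) (by linarith)
  have h1 : ‖∑ S ∈ Sx ι X, MNG_t χ σ S‖ ≤ (X : ℝ) ^ (-σ) * (ε * X + K) +
      ∑ n ∈ Ico 1 X, ((n : ℝ) ^ (-σ) - ((n + 1 : ℕ) : ℝ) ^ (-σ)) * (ε * n + K) := by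
    rw [MNG_abel χ σ X hX]
    refine (norm_add_le _ _).trans (add_le_add ?_ ((norm_sum_le _ _).trans (sum_le_sum fun n hn => ?_)))
    · rw [norm_mul, Complex.norm_real, Real.norm_of_nonneg (Real.rpow_nonneg (Nat.cast_nonneg _) _)]
      exact mul_le_mul_of_nonneg_left (h X) (Real.rpow_nonneg (Nat.cast_nonneg _) _)
    · have h2 := hdec n (mem_Ico.1 hn).1
      rw [norm_mul, Complex.norm_real, Real.norm_of_nonneg (by linarith)]
      exact mul_le_mul_of_nonneg_left (h n) (by linarith)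
  refine h1.trans ?_
  have h2 : ∀ X : ℕ, 1 ≤ X → (X : ℝ) ^ (-σ) * (ε * X + K) +
      ∑ n ∈ Ico 1 X, ((n : ℝ) ^ (-σ) - ((n + 1 : ℕ) : ℝ) ^ (-σ)) * (ε * n + K) ≤
      ε * (1 + (1 - (X : ℝ) ^ (1 - σ)) / (σ - 1)) + K := by
    intro X hX
    induction X, hX using Nat.le_induction with
    | base => simp
    | succ X hX ih =>
      rw [Finset.sum_Ico_succ_top hX]
      have h3 := MNG_step σ s1 X hX
      have h4 : ((X + 1 : ℕ) : ℝ) ^ (-σ) ≤ ((X : ℝ) ^ (1 - σ) - ((X + 1 : ℕ) : ℝ) ^ (1 - σ)) / (σ - 1) := by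
        rw [le_div_iff₀ s0, mul_comm]
        exact h3
      have h5 := mul_le_mul_of_nonneg_left h4 hε
      have h6 : ((X + 1 : ℕ) : ℝ) = (X : ℝ) + 1 := by push_cast; rfl
      have h7 : ((X + 1 : ℕ) : ℝ) ^ (-σ) * (ε * ((X + 1 : ℕ) : ℝ) + K) +
          (∑ n ∈ Ico 1 X, ((n : ℝ) ^ (-σ) - ((n + 1 : ℕ) : ℝ) ^ (-σ)) * (ε * n + K) +
            ((X : ℝ) ^ (-σ) - ((X + 1 : ℕ) : ℝ) ^ (-σ)) * (ε * X + K)) =
          ((X : ℝ) ^ (-σ) * (ε * X + K) +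
            ∑ n ∈ Ico 1 X, ((n : ℝ) ^ (-σ) - ((n + 1 : ℕ) : ℝ) ^ (-σ)) * (ε * n + K)) +
            ε * ((X + 1 : ℕ) : ℝ) ^ (-σ) := by
        rw [mul_add (((X + 1 : ℕ) : ℝ) ^ (-σ)) (ε * ((X + 1 : ℕ) : ℝ)) K]
        nth_rw 2 [h6]
        ring
      rw [h7]
      have h8 : ε * (1 + (1 - ((X + 1 : ℕ) : ℝ) ^ (1 - σ)) / (σ - 1)) + K =
          (ε * (1 + (1 - (X : ℝ) ^ (1 - σ)) / (σ - 1)) + K) +
            ε * (((X : ℝ) ^ (1 - σ) - ((X + 1 : ℕ) : ℝ) ^ (1 - σ)) / (σ - 1)) := by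
        ring
      rw [h8]
      linarith
  refine (h2 X hX).trans ?_
  have h9 : (1 - (X : ℝ) ^ (1 - σ)) / (σ - 1) ≤ 1 / (σ - 1) := by
    refine div_le_div_of_nonneg_right ?_ s0.le
    have : 0 ≤ (X : ℝ) ^ (1 - σ) := Real.rpow_nonneg (Nat.cast_nonneg _) _
    linarith
  have h10 := mul_le_mul_of_nonneg_left h9 hε
  linarith

/-- The local factor. -/
private theorem MNG_loc (z : ℂ) (hz : ‖z‖ ≤ 1 / 2) : Real.exp z.re ≤ ‖1 + z‖ * Real.exp (‖z‖ ^ 2) := by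
  have h1 := Complex.norm_log_one_add_sub_self_le (z := z) (by linarith)
  have h0 : (1 + z) ≠ 0 := by
    intro h
    have h2 : z = -1 := by linear_combination h
    rw [h2, norm_neg, norm_one] at hz
    linarith
  have h2 : (1 - ‖z‖)⁻¹ ≤ 2 := by
    rw [inv_le_comm₀ (by linarith) (by norm_num)]
    linarith
  have h3 : ‖Complex.log (1 + z) - z‖ ≤ ‖z‖ ^ 2 := by
    refine h1.trans ?_
    have h4 : 0 ≤ ‖z‖ ^ 2 := by positivity
    nlinarith [mul_le_mul_of_nonneg_left h2 h4]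
  have h4 : z.re - ‖z‖ ^ 2 ≤ (Complex.log (1 + z)).re := by
    have h5 := (abs_le.1 (Complex.abs_re_le_norm (Complex.log (1 + z) - z))).1
    rw [Complex.sub_re] at h5
    linarith
  have h5 : ‖1 + z‖ = Real.exp (Complex.log (1 + z)).re := by
    rw [Complex.log_re, Real.exp_log (norm_pos_iff.2 h0)]
  rw [h5, ← Real.exp_add]
  exact Real.exp_le_exp.2 (by linarith)

/-- The primes squared. -/
private theorem MNG_sq {C : ℝ} (hz : Zt ι C) (σ : ℝ) (s1 : 1 < σ) (P : ℕ) :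
    Real.exp (∑ q ∈ pr ι P, ((PS.N q : ℝ) ^ (-σ)) ^ 2) ≤ C := by
  have h1 := hz 2 P (by norm_num) (by norm_num)
  rw [show (2 : ℝ) - 1 = 1 by norm_num, div_one] at h1
  refine le_trans ?_ h1
  rw [Real.exp_sum]
  refine prod_le_prod (fun q _ => (Real.exp_pos _).le) fun q _ => ?_
  obtain ⟨ht0, ht⟩ := eubD_rpow_neg q 2 (by norm_num)
  have e2 : 0 < 1 - (PS.N q : ℝ) ^ (-(2 : ℝ)) := by linarith
  have hN : (2 : ℝ) ≤ PS.N q := by exact_mod_cast PS.two_le q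
  have h2 : ((PS.N q : ℝ) ^ (-σ)) ^ 2 ≤ (PS.N q : ℝ) ^ (-(2 : ℝ)) := by
    rw [← Real.rpow_natCast, ← Real.rpow_mul (by linarith)]
    refine Real.rpow_le_rpow_of_exponent_le (by linarith) ?_
    push_cast
    linarith
  rw [← one_div, le_div_iff₀ e2]
  have h4 := Real.add_one_le_exp (-((PS.N q : ℝ) ^ (-(2 : ℝ))))
  calc Real.exp (((PS.N q : ℝ) ^ (-σ)) ^ 2) * (1 - (PS.N q : ℝ) ^ (-(2 : ℝ)))
      ≤ Real.exp ((PS.N q : ℝ) ^ (-(2 : ℝ))) * Real.exp (-((PS.N q : ℝ) ^ (-(2 : ℝ)))) :=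
        mul_le_mul (Real.exp_le_exp.2 h2) (by linarith) e2.le (Real.exp_pos _).le
    _ = 1 := by rw [← Real.exp_add, add_neg_cancel, Real.exp_zero]

/-- If the mean value of `χ` is zero then the Dirichlet series of `Re χ` is small. -/
private theorem MNG_exp {C : ℝ} (hz : Zt ι C) {χ : ι → ℂ} (h1 : ∀ q, ‖χ q‖ ≤ 1) (h : Mz ∅ χ) :
    ∀ ε : ℝ, 0 < ε → ∃ K : ℝ, 1 ≤ K ∧ ∀ σ : ℝ, 1 < σ → σ ≤ 3 → ∀ᶠ P : ℕ in Filter.atTop,
      Real.exp (∑ q ∈ pr ι P, (χ q).re * (PS.N q : ℝ) ^ (-σ)) ≤ ε / (σ - 1) + K := by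
  intro ε hε
  set D : ℝ := max C 1 with hD
  have hD1 : 1 ≤ D := le_max_right _ _
  set δ : ℝ := ε / (3 * D) with hδ
  have hδ0 : 0 < δ := by positivity
  obtain ⟨X₀, hX₀⟩ := h δ hδ0
  set K₀ : ℝ := ((Sx ι X₀).card : ℝ) with hK₀
  have hK0 : 0 ≤ K₀ := Nat.cast_nonneg _
  have hA : ∀ n : ℕ, ‖∑ S ∈ Sx ι n, ∏ q ∈ S, χ q‖ ≤ δ * n + K₀ := by
    intro n
    by_cases hn : X₀ ≤ n
    · have h2 := hX₀ n hn
      rw [filter_true_of_mem fun S _ => disjoint_empty_right S] at h2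
      linarith
    · have h2 : ‖∑ S ∈ Sx ι n, ∏ q ∈ S, χ q‖ ≤ K₀ := by
        refine (norm_sum_le _ _).trans ?_
        have h3 : ∀ S ∈ Sx ι n, ‖∏ q ∈ S, χ q‖ ≤ 1 := fun S _ => by
          rw [norm_prod]
          exact prod_le_one (fun q _ => norm_nonneg _) fun q _ => h1 q
        refine (sum_le_sum h3).trans ?_
        rw [sum_const, nsmul_eq_mul, mul_one, hK₀, Nat.cast_le]
        exact card_le_card fun S hS => mem_Sx.2 ((mem_Sx.1 hS).trans (by omega))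
      have : 0 ≤ δ * n := by positivity
      linarith
  refine ⟨D * (K₀ + 1), by nlinarith, fun σ s1 s3 => ?_⟩
  have s0 : 0 < σ - 1 := by linarith
  have h2 : ‖∑' S, MNG_t χ σ S‖ ≤ δ * (1 + 1 / (σ - 1)) + K₀ := by
    refine le_of_tendsto (MNG_tend2 hz χ h1 σ s1 s3).norm ?_
    filter_upwards [Filter.eventually_ge_atTop 1] with X hX
    exact MNG_bound χ hδ0.le hA σ s1 X hX
  have h3 : ∀ᶠ P : ℕ in Filter.atTop, ‖∑ S ∈ (pr ι P).powerset, MNG_t χ σ S‖ <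
      δ * (1 + 1 / (σ - 1)) + K₀ + 1 :=
    (MNG_tend1 hz χ h1 σ s1 s3).norm.eventually_lt_const (by linarith)
  filter_upwards [h3] with P hP
  rw [MNG_pow, norm_prod] at hP
  have h4 : Real.exp (∑ q ∈ pr ι P, (χ q).re * (PS.N q : ℝ) ^ (-σ)) ≤
      (∏ q ∈ pr ι P, ‖1 + χ q * (((PS.N q : ℝ) ^ (-σ) : ℝ) : ℂ)‖) *
        Real.exp (∑ q ∈ pr ι P, ((PS.N q : ℝ) ^ (-σ)) ^ 2) := by
    rw [Real.exp_sum, Real.exp_sum, ← prod_mul_distrib]
    refine prod_le_prod (fun q _ => (Real.exp_pos _).le) fun q _ => ?_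
    obtain ⟨ht0, ht⟩ := eubD_rpow_neg q σ s1.le
    have h5 : ‖χ q * (((PS.N q : ℝ) ^ (-σ) : ℝ) : ℂ)‖ ≤ (PS.N q : ℝ) ^ (-σ) := by
      rw [norm_mul, Complex.norm_real, Real.norm_of_nonneg ht0.le]
      exact mul_le_of_le_one_left ht0.le (h1 q)
    have h6 := MNG_loc _ (h5.trans ht)
    rw [Complex.re_mul_ofReal] at h6
    refine h6.trans (mul_le_mul_of_nonneg_left (Real.exp_le_exp.2 ?_) (norm_nonneg _))
    exact pow_le_pow_left₀ (norm_nonneg _) h5 2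
  have h5 : Real.exp (∑ q ∈ pr ι P, ((PS.N q : ℝ) ^ (-σ)) ^ 2) ≤ D :=
    (MNG_sq hz σ s1 P).trans (le_max_left _ _)
  have h6 : 0 ≤ ∏ q ∈ pr ι P, ‖1 + χ q * (((PS.N q : ℝ) ^ (-σ) : ℝ) : ℂ)‖ :=
    prod_nonneg fun q _ => norm_nonneg _
  have h7 : δ * (1 + 1 / (σ - 1)) ≤ δ * (3 / (σ - 1)) := by
    refine mul_le_mul_of_nonneg_left ?_ hδ0.le
    rw [← sub_nonneg]
    have e : 3 / (σ - 1) - (1 + 1 / (σ - 1)) = (2 - (σ - 1)) / (σ - 1) := by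
      field_simp
      ring
    rw [e]
    exact div_nonneg (by linarith) s0.le
  calc Real.exp (∑ q ∈ pr ι P, (χ q).re * (PS.N q : ℝ) ^ (-σ))
      ≤ (∏ q ∈ pr ι P, ‖1 + χ q * (((PS.N q : ℝ) ^ (-σ) : ℝ) : ℂ)‖) * D :=
        h4.trans (mul_le_mul_of_nonneg_left h5 h6)
    _ ≤ (δ * (3 / (σ - 1)) + K₀ + 1) * D :=
        mul_le_mul_of_nonneg_right (hP.le.trans (by linarith)) (by linarith)
    _ = ε / (σ - 1) + D * (K₀ + 1) := by
        rw [hδ]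
        field_simp
        ring

/-! ### Mean values -/

/-- The Euler product for weights which are at most `(n + ψ) / m`, for one `σ`. -/
private theorem MNG_euler {C B : ℝ} {ψ : ι → ℝ} (hz : Zt ι C) (m n : ℕ) (hm : 1 ≤ m)
    (w : ι → ℝ) (hw : ∀ q, 0 ≤ w q ∧ w q ≤ ((n : ℝ) + ψ q) / m) (σ : ℝ) (h1 : 1 < σ)
    (h3 : σ ≤ 3) (hψ : ∀ᶠ P : ℕ in Filter.atTop,
      Real.exp (∑ q ∈ pr ι P, ψ q * (PS.N q : ℝ) ^ (-σ)) ≤ B) (x : ℕ) :
    ∑ S ∈ Sx ι x, (∏ q ∈ S, w q) * (nm S : ℝ) ^ (-σ) ≤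
      ((C / (σ - 1)) ^ n * B) ^ (1 / (m : ℝ)) := by
  have hm2 : (1 : ℝ) ≤ m := by exact_mod_cast hm
  have hm0 : (0 : ℝ) < m := by linarith
  obtain ⟨S, hS⟩ : ∃ S : ℝ, S = ∑ S ∈ Sx ι x, (∏ q ∈ S, w q) * (nm S : ℝ) ^ (-σ) := ⟨_, rfl⟩
  have hS0 : 0 ≤ S := by
    rw [hS]
    apply sum_nonneg
    intro T _
    exact mul_nonneg (prod_nonneg fun q _ => (hw q).1) (by positivity)
  rw [← hS]
  obtain ⟨P, hψ', hP2⟩ := (hψ.and (Filter.eventually_ge_atTop x)).exists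
  have hsum : S ≤ ∏ q ∈ pr ι P, (1 + w q * (PS.N q : ℝ) ^ (-σ)) := by
    rw [hS]
    exact eubD_sum_le w (fun q => (hw q).1) σ x P hP2
  have hsum2 : S ≤ Real.exp (∑ q ∈ pr ι P, w q * (PS.N q : ℝ) ^ (-σ)) := by
    refine hsum.trans ?_
    rw [Real.exp_sum]
    refine prod_le_prod (fun q _ => ?_) fun q _ => ?_
    · have := (hw q).1
      positivity
    · have := Real.add_one_le_exp (w q * (PS.N q : ℝ) ^ (-σ))
      linarith
  have hZ : Real.exp (∑ q ∈ pr ι P, (PS.N q : ℝ) ^ (-σ)) ≤ C / (σ - 1) := by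
    refine le_trans ?_ (hz σ P h1 h3)
    rw [Real.exp_sum]
    refine prod_le_prod (fun q _ => (Real.exp_pos _).le) fun q _ => ?_
    obtain ⟨ht0, ht⟩ := eubD_rpow_neg q σ h1.le
    have e2 : 0 < 1 - (PS.N q : ℝ) ^ (-σ) := by linarith
    rw [← one_div, le_div_iff₀ e2]
    have h4 := Real.add_one_le_exp (-((PS.N q : ℝ) ^ (-σ)))
    calc Real.exp ((PS.N q : ℝ) ^ (-σ)) * (1 - (PS.N q : ℝ) ^ (-σ))
        ≤ Real.exp ((PS.N q : ℝ) ^ (-σ)) * Real.exp (-((PS.N q : ℝ) ^ (-σ))) :=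
          mul_le_mul_of_nonneg_left (by linarith) (Real.exp_pos _).le
      _ = 1 := by rw [← Real.exp_add, add_neg_cancel, Real.exp_zero]
  have hmain : (m : ℝ) * ∑ q ∈ pr ι P, w q * (PS.N q : ℝ) ^ (-σ) ≤
      (n : ℝ) * ∑ q ∈ pr ι P, (PS.N q : ℝ) ^ (-σ) +
        ∑ q ∈ pr ι P, ψ q * (PS.N q : ℝ) ^ (-σ) := by
    rw [mul_sum, mul_sum, ← sum_add_distrib]
    refine sum_le_sum fun q _ => ?_
    have ht0 : 0 ≤ (PS.N q : ℝ) ^ (-σ) := Real.rpow_nonneg (Nat.cast_nonneg _) _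
    have h4 := (hw q).2
    rw [le_div_iff₀ hm0] at h4
    have h5 := mul_le_mul_of_nonneg_right h4 ht0
    linarith
  have hfin : S ^ m ≤ (C / (σ - 1)) ^ n * B := by
    calc S ^ m ≤ (Real.exp (∑ q ∈ pr ι P, w q * (PS.N q : ℝ) ^ (-σ))) ^ m :=
          pow_le_pow_left₀ hS0 hsum2 m
      _ = Real.exp ((m : ℝ) * ∑ q ∈ pr ι P, w q * (PS.N q : ℝ) ^ (-σ)) := (Real.exp_nat_mul _ _).symm
      _ ≤ Real.exp ((n : ℝ) * ∑ q ∈ pr ι P, (PS.N q : ℝ) ^ (-σ) +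
            ∑ q ∈ pr ι P, ψ q * (PS.N q : ℝ) ^ (-σ)) := Real.exp_le_exp.2 hmain
      _ = (Real.exp (∑ q ∈ pr ι P, (PS.N q : ℝ) ^ (-σ))) ^ n *
            Real.exp (∑ q ∈ pr ι P, ψ q * (PS.N q : ℝ) ^ (-σ)) := by
          rw [Real.exp_add, Real.exp_nat_mul]
      _ ≤ (C / (σ - 1)) ^ n * B := by
          refine mul_le_mul (pow_le_pow_left₀ (Real.exp_pos _).le hZ _) hψ'
            (Real.exp_pos _).le ?_
          exact pow_nonneg ((Real.exp_pos _).le.trans hZ) _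
  have hroot : S = (S ^ m) ^ (1 / (m : ℝ)) := by
    rw [← Real.rpow_natCast S m, ← Real.rpow_mul hS0, mul_one_div_cancel hm0.ne', Real.rpow_one]
  rw [hroot]
  exact Real.rpow_le_rpow (by positivity) hfin (by positivity)

/-- The upper bound for a sum of a multiplicative function, for one `x`. -/
private theorem MNG_ubg {C1 C2 : ℝ} (h1 : Cheb ι C1) (h2 : Zt ι C2) (H m n : ℕ) (hm : 1 ≤ m) :
    ∃ K : ℝ, 0 < K ∧ ∀ (ψ : ι → ℝ) (B : ℝ) (x : ℕ), 2 ≤ x → 1 ≤ B →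
      (∀ᶠ P : ℕ in Filter.atTop,
        Real.exp (∑ q ∈ pr ι P, ψ q * (PS.N q : ℝ) ^ (-(1 + 1 / Real.log x))) ≤ B) → ∀ w : ι → ℝ,
      (∀ q, 0 ≤ w q ∧ w q ≤ H ∧ w q ≤ ((n : ℝ) + ψ q) / m) →
      ∑ S ∈ Sx ι x, ∏ q ∈ S, w q ≤
        K * x * Real.log x ^ ((n : ℝ) / m - 1) * B ^ (1 / (m : ℝ)) := by
  have hm0 : (0 : ℝ) < m := by exact_mod_cast (by omega : 0 < m)
  set D : ℝ := max C2 1 with hD
  set E : ℝ := max (H * C1 + 1) 1 with hE
  have hD1 : 1 ≤ D := le_max_right _ _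
  have hE1 : 1 ≤ E := le_max_right _ _
  refine ⟨E * Real.exp 1 * (D ^ n) ^ (1 / (m : ℝ)), by positivity, ?_⟩
  intro ψ B x hx hB1 hψ w hw
  have hxr : (2 : ℝ) ≤ x := by exact_mod_cast hx
  have hL : 0 < Real.log x := Real.log_pos (by linarith)
  have hB : 0 ≤ B := by linarith
  obtain ⟨s1, s2, -⟩ := sigma_h x hx
  have hall' := hallh h1 H w (fun q => ⟨(hw q).1, (hw q).2.1⟩) x (by omega)
  have heul := MNG_euler h2 m n hm w (fun q => ⟨(hw q).1, (hw q).2.2⟩) (1 + 1 / Real.log x) s1 s2 hψ x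
  have e1 : C2 / (1 + 1 / Real.log x - 1) = C2 * Real.log x := by
    rw [show 1 + 1 / Real.log x - 1 = 1 / Real.log x by ring, div_div_eq_mul_div, div_one]
  rw [e1] at heul
  have hcmp := cmp_h w (fun q => (hw q).1) x hx
  have hC2 : 0 ≤ C2 * Real.log x := by
    have h6 := h2 (1 + 1 / Real.log x) x s1 s2
    rw [e1] at h6
    refine le_trans ?_ h6
    refine Finset.prod_nonneg fun q _ => ?_
    have hq : (2 : ℝ) ≤ PS.N q := by exact_mod_cast PS.two_le q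
    rw [inv_nonneg, sub_nonneg]
    refine Real.rpow_le_one_of_one_le_of_nonpos (by linarith) (by linarith)
  have h7 : ((C2 * Real.log x) ^ n * B) ^ (1 / (m : ℝ)) ≤
      (D ^ n) ^ (1 / (m : ℝ)) * (Real.log x ^ ((n : ℝ) / m) * B ^ (1 / (m : ℝ))) := by
    have h8 : (C2 * Real.log x) ^ n * B ≤ D ^ n * Real.log x ^ n * B := by
      refine mul_le_mul_of_nonneg_right ?_ hB
      rw [← mul_pow]
      refine pow_le_pow_left₀ hC2 ?_ _
      exact mul_le_mul_of_nonneg_right (le_max_left _ _) hL.le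
    refine (Real.rpow_le_rpow (by positivity) h8 (by positivity)).trans (le_of_eq ?_)
    rw [Real.mul_rpow (by positivity) hB, Real.mul_rpow (by positivity) (by positivity), mul_assoc]
    congr 2
    rw [← Real.rpow_natCast, ← Real.rpow_mul hL.le, mul_one_div]
  have hsum1 : 0 ≤ ∑ S ∈ Sx ι x, (∏ q ∈ S, w q) / nm S :=
    Finset.sum_nonneg fun S _ => div_nonneg (Finset.prod_nonneg fun q _ => (hw q).1)
      (Nat.cast_nonneg _)
  refine le_of_mul_le_mul_right ?_ hL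
  refine hall'.trans ?_
  have h9 : (H * C1 + 1) * x * ∑ S ∈ Sx ι x, (∏ q ∈ S, w q) / nm S ≤
      E * x * ∑ S ∈ Sx ι x, (∏ q ∈ S, w q) / nm S := by
    refine mul_le_mul_of_nonneg_right ?_ hsum1
    exact mul_le_mul_of_nonneg_right (le_max_left _ _) (Nat.cast_nonneg _)
  refine h9.trans ?_
  have h10 : E * x * ∑ S ∈ Sx ι x, (∏ q ∈ S, w q) / nm S ≤
      E * x * (Real.exp 1 * ((D ^ n) ^ (1 / (m : ℝ)) *
        (Real.log x ^ ((n : ℝ) / m) * B ^ (1 / (m : ℝ))))) := by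
    refine mul_le_mul_of_nonneg_left ?_ (by positivity)
    exact hcmp.trans (mul_le_mul_of_nonneg_left (heul.trans h7) (Real.exp_pos 1).le)
  refine h10.trans (le_of_eq ?_)
  have h11 : Real.log x ^ ((n : ℝ) / m) = Real.log x ^ ((n : ℝ) / m - 1) * Real.log x := by
    rw [← Real.rpow_add_one hL.ne']
    congr 1
    ring
  rw [h11]
  ring

/-- **The mean value is small** if the weights are smaller than `H` on a large set of primes. -/
theorem mz_mean {C1 C2 : ℝ} (h1 : Cheb ι C1) (h2 : Zt ι C2) (H m : ℕ) (hH : 1 ≤ H) (hm : 1 ≤ m)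
    {χ : ι → ℂ} (hχ : ∀ q, ‖χ q‖ ≤ 1) (h : Mz ∅ χ) : ∀ ε : ℝ, 0 < ε → ∃ X₀ : ℕ, ∀ w : ι → ℝ,
      (∀ q, 0 ≤ w q ∧ w q ≤ H ∧ w q ≤ ((H * m - 1 : ℝ) + (χ q).re) / m) → ∀ X : ℕ, X₀ ≤ X →
      ∑ S ∈ Sx ι X, ∏ q ∈ S, w q ≤ ε * Yh H X := by
  intro ε hε
  obtain ⟨K, hK, hub⟩ := MNG_ubg h1 h2 H m (H * m - 1) hm
  have hm0 : (0 : ℝ) < m := by exact_mod_cast (by omega : 0 < m)
  have hHm : 1 ≤ H * m := Nat.one_le_iff_ne_zero.2 (Nat.mul_ne_zero (by omega) (by omega))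
  have hc : ((H * m - 1 : ℕ) : ℝ) = (H * m - 1 : ℝ) := by
    rw [Nat.cast_sub hHm]
    push_cast
    rfl
  set δ : ℝ := (ε / K) ^ (m : ℝ) / 2 with hδ
  have hδ0 : 0 < δ := by positivity
  obtain ⟨K', hK', hexp⟩ := MNG_exp h2 hχ h δ hδ0
  have ht : Filter.Tendsto (fun X : ℕ => Real.log (X : ℝ)) Filter.atTop Filter.atTop :=
    Real.tendsto_log_atTop.comp tendsto_natCast_atTop_atTop
  obtain ⟨X₁, hX₁⟩ := Filter.eventually_atTop.1 (ht.eventually_ge_atTop (K' / δ))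
  refine ⟨max X₁ 2, fun w hw X hX => ?_⟩
  have hX2 : 2 ≤ X := (le_max_right _ _).trans hX
  have hXr : (2 : ℝ) ≤ X := by exact_mod_cast hX2
  have hL : 0 < Real.log X := Real.log_pos (by linarith)
  obtain ⟨s1, s2, -⟩ := sigma_h X hX2
  have e1 : δ / (1 + 1 / Real.log X - 1) + K' = δ * Real.log X + K' := by
    rw [show 1 + 1 / Real.log X - 1 = 1 / Real.log X by ring, div_div_eq_mul_div, div_one]
  have h3 := hexp (1 + 1 / Real.log X) s1 s2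
  rw [e1] at h3
  have hB1 : 1 ≤ δ * Real.log X + K' := by
    have : 0 ≤ δ * Real.log X := by positivity
    linarith
  have h4 := hub (fun q => (χ q).re) (δ * Real.log X + K') X hX2 hB1 h3 w (fun q => by
    rw [hc]
    exact hw q)
  refine h4.trans ?_
  have e : Real.log X ^ (((H * m - 1 : ℕ) : ℝ) / m - 1) =
      Real.log X ^ (H - 1) * Real.log X ^ (-(1 / (m : ℝ))) := by
    rw [← Real.rpow_natCast, ← Real.rpow_add hL, hc, Nat.cast_sub hH]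
    congr 1
    push_cast
    field_simp
    ring
  have h5 : Real.log X ^ (-(1 / (m : ℝ))) * (δ * Real.log X + K') ^ (1 / (m : ℝ)) ≤ ε / K := by
    have h6 : δ * Real.log X + K' ≤ 2 * δ * Real.log X := by
      have h7 := hX₁ X ((le_max_left _ _).trans hX)
      rw [div_le_iff₀ hδ0] at h7
      linarith
    have h8 : (δ * Real.log X + K') ^ (1 / (m : ℝ)) ≤ (2 * δ * Real.log X) ^ (1 / (m : ℝ)) :=
      Real.rpow_le_rpow (by linarith) h6 (by positivity)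
    have h9 : (2 * δ * Real.log X) ^ (1 / (m : ℝ)) = ε / K * Real.log X ^ (1 / (m : ℝ)) := by
      rw [Real.mul_rpow (by positivity) hL.le, hδ, mul_div_cancel₀ _ (two_ne_zero),
        ← Real.rpow_mul (by positivity), mul_one_div_cancel hm0.ne', Real.rpow_one]
    have h10 : Real.log X ^ (-(1 / (m : ℝ))) * Real.log X ^ (1 / (m : ℝ)) = 1 := by
      rw [← Real.rpow_add hL, neg_add_cancel, Real.rpow_zero]
    calc Real.log X ^ (-(1 / (m : ℝ))) * (δ * Real.log X + K') ^ (1 / (m : ℝ))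
        ≤ Real.log X ^ (-(1 / (m : ℝ))) * (ε / K * Real.log X ^ (1 / (m : ℝ))) := by
          rw [← h9]
          exact mul_le_mul_of_nonneg_left h8 (Real.rpow_nonneg hL.le _)
      _ = ε / K * (Real.log X ^ (-(1 / (m : ℝ))) * Real.log X ^ (1 / (m : ℝ))) := by ring
      _ = ε / K := by rw [h10, mul_one]
  have hY : 0 ≤ Yh H X := Yh_nonneg H X
  calc K * X * Real.log X ^ (((H * m - 1 : ℕ) : ℝ) / m - 1) * (δ * Real.log X + K') ^ (1 / (m : ℝ))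
      = K * Yh H X * (Real.log X ^ (-(1 / (m : ℝ))) * (δ * Real.log X + K') ^ (1 / (m : ℝ))) := by
        rw [e]
        unfold Yh
        ring
    _ ≤ K * Yh H X * (ε / K) := mul_le_mul_of_nonneg_left h5 (by positivity)
    _ = ε * Yh H X := by
        field_simp

end Ser

end

end Pool.Agent.Lib.MP_1a91b9_ntMN
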