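import Pool.Agent.Lib.MP_1a91b9_ntMN.N5

/-!
# MP_1a91b9_nt (all the multiquadratic fields): the tuples with a trivial entry
-/

set_option autoImplicit false
set_option linter.unusedSectionVars false

namespace Pool.Agent.Lib.MP_1a91b9_ntMN

open Finset

noncomputable section

/-- Almost all the squarefree elements have many divisors. -/
def FewD (R : Type) [CommRing R] : Prop :=
  ∀ (M : ℕ) (ε : ℝ), 0 < ε → ∀ᶠ X : ℝ in Filter.atTop,
    (Nat.card {A : R // (Squarefree A ∧ |Algebra.norm ℤ A| ≤ X) ∧ Nat.card {d : R // d ∣ A} < M} : ℝ) ≤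
      ε * (Nat.card {A : R // Squarefree A ∧ |Algebra.norm ℤ A| ≤ X} : ℝ)

open Classical in
/-- The tuples of the common divisors of an element of `Δ`. -/
def TΔ {R : Type} [CommRing R] (r : ℕ) (Δ : Finset R) : Finset (Fin r → R) :=
  (Fintype.piFinset fun _ : Fin r => Δ).filter fun d => ∃ A ∈ Δ, ∀ i, d i ∣ A

theorem mem_TΔ {R : Type} [CommRing R] {r : ℕ} {Δ : Finset R}
    (hΔ : ∀ A ∈ Δ, ∀ d, d ∣ A → d ∈ Δ) {d : Fin r → R} :
    d ∈ TΔ r Δ ↔ ∃ A ∈ Δ, ∀ i, d i ∣ A := by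
  classical
  unfold TΔ
  rw [mem_filter, Fintype.mem_piFinset]
  exact ⟨fun h => h.2, fun h => ⟨fun i => by
    obtain ⟨A, hA, hd⟩ := h
    exact hΔ A hA _ (hd i), h⟩⟩

open Classical in
/-- There are few tuples with the entry `i` equal to `1`. -/
theorem one_cov {R : Type} [CommRing R] {r : ℕ} (Δ : Finset R)
    (hΔ : ∀ A ∈ Δ, ∀ d, d ∣ A → d ∈ Δ) (i : Fin r) (M : ℕ) (hM : 1 ≤ M) :
    ((TΔ r Δ).filter fun d => d i = 1).card * M ≤
      (TΔ r Δ).card + M ^ (r + 1) * (Δ.filter fun A => (Δ.filter fun d => d ∣ A).card < M).card := by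
  obtain ⟨T', hT'⟩ : ∃ T' : Finset (Fin r → R), T' = (TΔ r Δ).filter fun d => d i = 1 := ⟨_, rfl⟩
  have h2 : ∀ d' ∈ T', d' i = 1 ∧ ∃ A ∈ Δ, ∀ j, d' j ∣ A := by
    intro d' hd'
    rw [hT', mem_filter, mem_TΔ hΔ] at hd'
    exact ⟨hd'.2, hd'.1⟩
  choose! hT0 A hA hA2 using h2
  obtain ⟨dv, hdv⟩ : ∃ dv : R → Finset R, dv = fun A => Δ.filter fun d => d ∣ A := ⟨_, rfl⟩
  have hmdv : ∀ A ∈ Δ, ∀ x, x ∈ dv A ↔ x ∣ A := by
    intro A hA x
    rw [hdv]
    show x ∈ Δ.filter (fun d => d ∣ A) ↔ _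
    rw [mem_filter]
    exact ⟨fun h => h.2, fun h => ⟨hΔ A hA x h, h⟩⟩
  -- the tuples with many divisors
  have hG : (T'.filter fun d' => M ≤ (dv (A d')).card).card * M ≤ (TΔ r Δ).card := by
    calc (T'.filter fun d' => M ≤ (dv (A d')).card).card * M =
          ∑ _d' ∈ T'.filter fun d' => M ≤ (dv (A d')).card, M := by
          rw [sum_const, smul_eq_mul]
      _ ≤ ∑ d' ∈ T'.filter fun d' => M ≤ (dv (A d')).card, (dv (A d')).card :=
          sum_le_sum fun d' hd' => (mem_filter.1 hd').2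
      _ = ((T'.filter fun d' => M ≤ (dv (A d')).card).sigma fun d' => dv (A d')).card :=
          (card_sigma _ _).symm
      _ ≤ (TΔ r Δ).card := by
          refine card_le_card_of_injOn (fun p => Function.update p.1 i p.2) (fun p hp => ?_)
            fun p hp q hq hpq => ?_
          · rw [mem_coe, mem_sigma, mem_filter] at hp
            obtain ⟨⟨hp1, -⟩, hp2⟩ := hp
            rw [mem_coe, mem_TΔ hΔ]
            refine ⟨A p.1, hA _ hp1, fun j => ?_⟩
            show Function.update p.1 i p.2 j ∣ A p.1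
            by_cases hj : j = i
            · rw [hj, Function.update_self]
              exact (hmdv _ (hA _ hp1) _).1 hp2
            · rw [Function.update_of_ne hj]
              exact hA2 _ hp1 j
          · rw [mem_coe, mem_sigma, mem_filter] at hp hq
            have e0 : Function.update p.1 i p.2 = Function.update q.1 i q.2 := hpq
            have e1 : p.2 = q.2 := by
              have := congrFun e0 i
              rwa [Function.update_self, Function.update_self] at this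
            have e2 : p.1 = q.1 := by
              funext j
              by_cases hj : j = i
              · rw [hj, hT0 _ hp.1.1, hT0 _ hq.1.1]
              · have := congrFun e0 j
                rwa [Function.update_of_ne hj, Function.update_of_ne hj] at this
            exact Sigma.ext e2 (heq_of_eq e1)
  -- the tuples with few divisors
  have hB : (T'.filter fun d' => ¬ M ≤ (dv (A d')).card).card ≤
      M ^ r * (Δ.filter fun A => (dv A).card < M).card := by
    have h3 : (T'.filter fun d' => ¬ M ≤ (dv (A d')).card) ⊆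
        (Δ.filter fun A => (dv A).card < M).biUnion fun A =>
          Fintype.piFinset fun _ : Fin r => dv A := by
      intro d' hd'
      rw [mem_filter] at hd'
      rw [mem_biUnion]
      refine ⟨A d', mem_filter.2 ⟨hA _ hd'.1, not_le.1 hd'.2⟩, ?_⟩
      rw [Fintype.mem_piFinset]
      intro j
      rw [hmdv _ (hA _ hd'.1)]
      exact hA2 _ hd'.1 j
    refine (card_le_card h3).trans (card_biUnion_le.trans ?_)
    rw [mul_comm, ← smul_eq_mul]
    refine sum_le_card_nsmul _ _ _ fun A hA => ?_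
    rw [Fintype.card_piFinset_const]
    exact Nat.pow_le_pow_left (mem_filter.1 hA).2.le r
  have h4 : T'.card * M ≤ (TΔ r Δ).card + M ^ (r + 1) * (Δ.filter fun A => (dv A).card < M).card := by
    rw [← card_filter_add_card_filter_not (s := T') fun d' => M ≤ (dv (A d')).card, add_mul]
    refine add_le_add hG ?_
    calc (T'.filter fun d' => ¬ M ≤ (dv (A d')).card).card * M ≤
          M ^ r * (Δ.filter fun A => (dv A).card < M).card * M := Nat.mul_le_mul_right _ hB
      _ = M ^ (r + 1) * (Δ.filter fun A => (dv A).card < M).card := by ring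
  rw [← hT']
  rw [hdv] at h4
  exact h4

/-- The numbers as cardinalities of finite sets. -/
theorem card_TΔ {R : Type} [CommRing R] {r : ℕ} {X : ℝ} (Δ : Finset R)
    (hm : ∀ x, x ∈ Δ ↔ Squarefree x ∧ |Algebra.norm ℤ x| ≤ X)
    (hΔ : ∀ A ∈ Δ, ∀ d, d ∣ A → d ∈ Δ) (W : (Fin r → R) → Prop) [DecidablePred W] :
    {d : Fin r → R | d ∈ lcs R r X ∧ W d}.ncard = ((TΔ r Δ).filter W).card := by
  have e1 : {d : Fin r → R | d ∈ lcs R r X ∧ W d} =
      (((TΔ r Δ).filter W : Finset (Fin r → R)) : Set (Fin r → R)) := by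
    ext d
    rw [mem_coe, mem_filter, mem_TΔ hΔ]
    refine and_congr_left fun _ => ⟨?_, ?_⟩
    · rintro ⟨A, h1, h2, h3⟩
      exact ⟨A, (hm A).2 ⟨h1, h2⟩, h3⟩
    · rintro ⟨A, h1, h3⟩
      exact ⟨A, ((hm A).1 h1).1, ((hm A).1 h1).2, h3⟩
  rw [e1, Set.ncard_coe_finset]

open Classical in
/-- **The tuples with a trivial entry are negligible.** -/
theorem sm_of {R : Type} [CommRing R] {r : ℕ} {m : R} {u : Fin r → R}
    (hfin : ∀ X : ℝ, {D : R | Squarefree D ∧ |Algebra.norm ℤ D| ≤ X}.Finite)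
    (hdiv : ∀ A d : R, Squarefree A → d ∣ A → |Algebra.norm ℤ d| ≤ |Algebra.norm ℤ A|)
    (hfew : FewD R) (hcp : ClsP R r m u) : Sm R r m u := by
  intro i ε hε
  obtain ⟨κ, hκ, hcp⟩ := hcp
  obtain ⟨M, hM1, hM⟩ : ∃ M : ℕ, 1 ≤ M ∧ 2 / (ε * κ) ≤ M := by
    obtain ⟨M, hM⟩ := exists_nat_ge (2 / (ε * κ))
    exact ⟨max M 1, le_max_right _ _, hM.trans (Nat.cast_le.2 (le_max_left _ _))⟩
  have hM0 : (0 : ℝ) < M := by exact_mod_cast hM1
  filter_upwards [hcp, hfew M (1 / (M : ℝ) ^ (r + 1)) (by positivity)] with X h2 h3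
  obtain ⟨Δ, hm⟩ : ∃ Δ : Finset R, ∀ x, x ∈ Δ ↔ Squarefree x ∧ |Algebra.norm ℤ x| ≤ X :=
    ⟨(hfin X).toFinset, fun x => (hfin X).mem_toFinset⟩
  have hΔ : ∀ A ∈ Δ, ∀ d, d ∣ A → d ∈ Δ := by
    intro A hA d hd
    obtain ⟨h4, h5⟩ := (hm A).1 hA
    refine (hm d).2 ⟨h4.squarefree_of_dvd hd, le_trans ?_ h5⟩
    exact_mod_cast hdiv A d h4 hd
  have hT : Nat.card {d : Fin r → R // ∃ A : R, Squarefree A ∧ |Algebra.norm ℤ A| ≤ X ∧
      ∀ i, d i ∣ A} = (TΔ r Δ).card := by
    have e := card_TΔ (r := r) Δ hm hΔ fun _ => True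
    rw [Finset.filter_true] at e
    rw [← e]
    have e1 : Nat.card {d : Fin r → R // ∃ A : R, Squarefree A ∧ |Algebra.norm ℤ A| ≤ X ∧
      ∀ i, d i ∣ A} = (lcs R r X).ncard := rfl
    rw [e1]
    refine congrArg Set.ncard ?_
    ext d
    exact ⟨fun h => ⟨h, trivial⟩, fun h => h.1⟩
  have h2' : κ * (Nat.card {d : Fin r → R // ∃ A : R, Squarefree A ∧ |Algebra.norm ℤ A| ≤ X ∧
      ∀ i, d i ∣ A} : ℝ) ≤
      ({d : Fin r → R | d ∈ lcs R r X ∧ ∀ k, m ∣ d k - u k}.ncard : ℝ) := h2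
  rw [hT] at h2'
  have hfewX : ((Δ.filter fun A => (Δ.filter fun d => d ∣ A).card < M).card : ℝ) ≤
      1 / (M : ℝ) ^ (r + 1) * (Δ.card : ℝ) := by
    have e1 : Nat.card {A : R // Squarefree A ∧ |Algebra.norm ℤ A| ≤ X} = Δ.card := by
      have e2 : {A : R | Squarefree A ∧ |Algebra.norm ℤ A| ≤ X} = (Δ : Set R) := by
        ext x
        exact (hm x).symm
      have e3 : Nat.card {A : R // Squarefree A ∧ |Algebra.norm ℤ A| ≤ X} =
          {A : R | Squarefree A ∧ |Algebra.norm ℤ A| ≤ X}.ncard := rfl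
      rw [e3, e2, Set.ncard_coe_finset]
    have e4 : Nat.card {A : R // (Squarefree A ∧ |Algebra.norm ℤ A| ≤ X) ∧
        Nat.card {d : R // d ∣ A} < M} =
        (Δ.filter fun A => (Δ.filter fun d => d ∣ A).card < M).card := by
      have e2 : {A : R | (Squarefree A ∧ |Algebra.norm ℤ A| ≤ X) ∧ Nat.card {d : R // d ∣ A} < M} =
          ((Δ.filter fun A => (Δ.filter fun d => d ∣ A).card < M : Finset R) : Set R) := by
        ext x
        rw [mem_coe, mem_filter, Set.mem_ofPred_eq, ← hm x]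
        refine and_congr_right fun hx => ?_
        have e5 : {d : R | d ∣ x} = ((Δ.filter fun d => d ∣ x : Finset R) : Set R) := by
          ext d
          rw [mem_coe, mem_filter]
          exact ⟨fun h => ⟨hΔ x hx d h, h⟩, fun h => h.2⟩
        have e6 : Nat.card {d : R // d ∣ x} = {d : R | d ∣ x}.ncard := rfl
        rw [e6, e5, Set.ncard_coe_finset]
      have e3 : Nat.card {A : R // (Squarefree A ∧ |Algebra.norm ℤ A| ≤ X) ∧
          Nat.card {d : R // d ∣ A} < M} =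
          {A : R | (Squarefree A ∧ |Algebra.norm ℤ A| ≤ X) ∧ Nat.card {d : R // d ∣ A} < M}.ncard := rfl
      rw [e3, e2, Set.ncard_coe_finset]
    rw [e1, e4] at h3
    exact h3
  have h5 : (((TΔ r Δ).filter fun d => d i = 1).card : ℝ) * M ≤ 2 * (TΔ r Δ).card := by
    have h6 := one_cov Δ hΔ i M hM1
    have h7 : Δ.card ≤ (TΔ r Δ).card := by
      refine card_le_card_of_injOn (fun A _ => A) (fun A hA => ?_) fun A _ B _ hAB => ?_
      · rw [mem_coe, mem_TΔ hΔ]
        exact ⟨A, hA, fun _ => dvd_refl _⟩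
      · exact congrFun hAB i
    have h8 : ((((TΔ r Δ).filter fun d => d i = 1).card * M : ℕ) : ℝ) ≤
        (((TΔ r Δ).card + M ^ (r + 1) *
          (Δ.filter fun A => (Δ.filter fun d => d ∣ A).card < M).card : ℕ) : ℝ) := Nat.cast_le.2 h6
    push_cast at h8
    refine h8.trans ?_
    have h9 : (M : ℝ) ^ (r + 1) * ((Δ.filter fun A => (Δ.filter fun d => d ∣ A).card < M).card : ℝ) ≤
        (Δ.card : ℝ) := by
      have h10 : (0 : ℝ) < (M : ℝ) ^ (r + 1) := by positivity
      calc (M : ℝ) ^ (r + 1) * ((Δ.filter fun A => (Δ.filter fun d => d ∣ A).card < M).card : ℝ) ≤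
            (M : ℝ) ^ (r + 1) * (1 / (M : ℝ) ^ (r + 1) * (Δ.card : ℝ)) :=
            mul_le_mul_of_nonneg_left hfewX h10.le
        _ = (Δ.card : ℝ) := by
            field_simp
    have h11 : (Δ.card : ℝ) ≤ ((TΔ r Δ).card : ℝ) := Nat.cast_le.2 h7
    linarith
  rw [card_TΔ Δ hm hΔ (fun d => d i = 1)]
  have h12 : κ * ((TΔ r Δ).card : ℝ) ≤
      ({d : Fin r → R | d ∈ lcs R r X ∧ ∀ k, m ∣ d k - u k}.ncard : ℝ) := h2'
  obtain ⟨x, hx⟩ : ∃ x : ℝ, x = ((TΔ r Δ).card : ℝ) := ⟨_, rfl⟩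
  obtain ⟨y, hy⟩ : ∃ y : ℝ, y =
      ({d : Fin r → R | d ∈ lcs R r X ∧ ∀ k, m ∣ d k - u k}.ncard : ℝ) := ⟨_, rfl⟩
  rw [← hx] at h5 h12
  rw [← hy] at h12 ⊢
  have hx0 : 0 ≤ x := by
    rw [hx]
    positivity
  rw [div_le_iff₀ (by positivity)] at hM
  refine le_of_mul_le_mul_right (h5.trans ?_) hM0
  calc 2 * x ≤ (M : ℝ) * (ε * κ) * x := mul_le_mul_of_nonneg_right hM hx0
    _ = ε * (κ * x) * M := by ring
    _ ≤ ε * y * M := by
        refine mul_le_mul_of_nonneg_right ?_ hM0.le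
        exact mul_le_mul_of_nonneg_left h12 hε.le

end

end Pool.Agent.Lib.MP_1a91b9_ntMN
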