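import Pool.Agent.Lib.MP_1a91b9_ntDV.T5
import Pool.Agent.Lib.MP_1a91b9_ntMN.M1

/-!
# MP_1a91b9_nt (all the multiquadratic fields): almost all the squarefree elements have many divisors; the
classes under isomorphisms
-/

set_option autoImplicit false
set_option linter.unusedSectionVars false

namespace Pool.Agent.Lib.MP_1a91b9_ntMN

open Finset NumberField
open Pool.Agent.Lib.MP_1a91b9_ntMQ (DivGI)
open Pool.Agent.Lib.MP_1a91b9_ntW.J (norm_mapRingEquiv squarefree_equiv)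

noncomputable section

/-- From the law for the tuples of divisors. -/
theorem fewD_of {R : Type} [CommRing R]
    (hfin : ∀ X : ℝ, {D : R | Squarefree D ∧ |Algebra.norm ℤ D| ≤ X}.Finite)
    {r : ℕ} {P : (Fin r → R) → Prop} {c : ℝ} (h : DivGI R r 1 0 P c) : FewD R := by
  classical
  intro M ε hε
  filter_upwards [h M ε hε] with X hX
  have e1 : Nat.card {D : R // Squarefree D ∧ (1 : R) ∣ D - 0 ∧ |Algebra.norm ℤ D| ≤ X} =
      Nat.card {D : R // Squarefree D ∧ |Algebra.norm ℤ D| ≤ X} :=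
    Nat.card_congr (Equiv.subtypeEquivRight fun D =>
      ⟨fun h => ⟨h.1, h.2.2⟩, fun h => ⟨h.1, one_dvd _, h.2⟩⟩)
  rw [e1] at hX
  have e2 : ({D : R | (Squarefree D ∧ |Algebra.norm ℤ D| ≤ X) ∧ Nat.card {d : R // d ∣ D} < M}.ncard +
      {D : R | Squarefree D ∧ (1 : R) ∣ D - 0 ∧ |Algebra.norm ℤ D| ≤ X ∧
        M ≤ Nat.card {d : R // d ∣ D} ∧
        (c - ε) * (Nat.card {d : R // d ∣ D} : ℝ) ^ r ≤
          Nat.card {d : Fin r → R // (∀ i, d i ∣ D) ∧ P d}}.ncard) ≤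
      {D : R | Squarefree D ∧ |Algebra.norm ℤ D| ≤ X}.ncard := by
    rw [← Set.ncard_union_eq ?_ ((hfin X).subset fun D hD => hD.1)
      ((hfin X).subset fun D hD => ⟨hD.1, hD.2.2.1⟩)]
    · refine Set.ncard_le_ncard ?_ (hfin X)
      rintro D (hD | hD)
      · exact hD.1
      · exact ⟨hD.1, hD.2.2.1⟩
    · rw [Set.disjoint_left]
      intro D h1 h2
      exact absurd h2.2.2.2.1 (not_le.2 h1.2)
  obtain ⟨a, ha⟩ : ∃ a : ℝ, a = (Nat.card {D : R // Squarefree D ∧ |Algebra.norm ℤ D| ≤ X} : ℝ) :=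
    ⟨_, rfl⟩
  obtain ⟨b, hb⟩ : ∃ b : ℝ, b = (Nat.card {D : R // Squarefree D ∧ (1 : R) ∣ D - 0 ∧
      |Algebra.norm ℤ D| ≤ X ∧ M ≤ Nat.card {d : R // d ∣ D} ∧
      (c - ε) * (Nat.card {d : R // d ∣ D} : ℝ) ^ r ≤
        Nat.card {d : Fin r → R // (∀ i, d i ∣ D) ∧ P d}} : ℝ) := ⟨_, rfl⟩
  obtain ⟨f, hf⟩ : ∃ f : ℝ, f = (Nat.card {A : R // (Squarefree A ∧ |Algebra.norm ℤ A| ≤ X) ∧
      Nat.card {d : R // d ∣ A} < M} : ℝ) := ⟨_, rfl⟩
  have h3 : f + b ≤ a := by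
    rw [ha, hb, hf]
    exact_mod_cast e2
  rw [← ha, ← hb] at hX
  rw [← ha, ← hf]
  have hf0 : 0 ≤ f := by
    rw [hf]
    positivity
  rcases (show (0 : ℝ) ≤ a by rw [ha]; positivity).eq_or_lt with h0 | h0
  · have hb0 : 0 ≤ b := by
      rw [hb]
      positivity
    rw [← h0, mul_zero]
    linarith
  · rw [le_div_iff₀ h0] at hX
    linarith

/-- Transport along an isomorphism of fields. -/
theorem ClsP.tr {K K' : Type} [Field K] [NumberField K] [Field K'] [NumberField K']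
    (e : K' ≃+* K) {r : ℕ} {m : 𝓞 K} {u : Fin r → 𝓞 K}
    (h : ClsP (𝓞 K') r ((RingOfIntegers.mapRingEquiv e).symm m)
      (fun i => (RingOfIntegers.mapRingEquiv e).symm (u i))) : ClsP (𝓞 K) r m u := by
  obtain ⟨κ, hκ, h⟩ := h
  refine ⟨κ, hκ, ?_⟩
  filter_upwards [h] with X hX
  have hdvd : ∀ d D : 𝓞 K', d ∣ D ↔
      RingOfIntegers.mapRingEquiv e d ∣ RingOfIntegers.mapRingEquiv e D := by
    intro d D
    constructor
    · intro h
      exact map_dvd (RingOfIntegers.mapRingEquiv e) h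
    · intro h
      have h1 := map_dvd (RingOfIntegers.mapRingEquiv e).symm h
      rwa [RingEquiv.symm_apply_apply, RingEquiv.symm_apply_apply] at h1
  have hA : ∀ d : Fin r → 𝓞 K', (∃ A : 𝓞 K', Squarefree A ∧ |Algebra.norm ℤ A| ≤ X ∧
      ∀ i, d i ∣ A) ↔ (∃ A : 𝓞 K, Squarefree A ∧ |Algebra.norm ℤ A| ≤ X ∧
      ∀ i, RingOfIntegers.mapRingEquiv e (d i) ∣ A) := by
    intro d
    constructor
    · rintro ⟨A, h1, h2, h3⟩
      refine ⟨RingOfIntegers.mapRingEquiv e A, (squarefree_equiv _).2 h1, ?_, fun i =>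
        (hdvd _ _).1 (h3 i)⟩
      rw [norm_mapRingEquiv]
      exact h2
    · rintro ⟨A, h1, h2, h3⟩
      obtain ⟨A, rfl⟩ := (RingOfIntegers.mapRingEquiv e).surjective A
      refine ⟨A, (squarefree_equiv _).1 h1, ?_, fun i => (hdvd _ _).2 (h3 i)⟩
      rw [norm_mapRingEquiv] at h2
      exact h2
  have h1 : Nat.card {d : Fin r → 𝓞 K' // ∃ A : 𝓞 K', Squarefree A ∧ |Algebra.norm ℤ A| ≤ X ∧
      ∀ i, d i ∣ A} = Nat.card {d : Fin r → 𝓞 K // ∃ A : 𝓞 K, Squarefree A ∧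
      |Algebra.norm ℤ A| ≤ X ∧ ∀ i, d i ∣ A} :=
    Nat.card_congr ((Equiv.piCongrRight fun _ : Fin r =>
      (RingOfIntegers.mapRingEquiv e).toEquiv).subtypeEquiv fun d => hA d)
  have hcl : ∀ (d : 𝓞 K') (v : 𝓞 K), (RingOfIntegers.mapRingEquiv e).symm m ∣
      d - (RingOfIntegers.mapRingEquiv e).symm v ↔ m ∣ RingOfIntegers.mapRingEquiv e d - v := by
    intro d v
    rw [hdvd, map_sub, RingEquiv.apply_symm_apply, RingEquiv.apply_symm_apply]
  have h2 : Nat.card {d : Fin r → 𝓞 K' // (∃ A : 𝓞 K', Squarefree A ∧ |Algebra.norm ℤ A| ≤ X ∧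
      ∀ i, d i ∣ A) ∧ ∀ i, (RingOfIntegers.mapRingEquiv e).symm m ∣
        d i - (RingOfIntegers.mapRingEquiv e).symm (u i)} =
      Nat.card {d : Fin r → 𝓞 K // (∃ A : 𝓞 K, Squarefree A ∧
      |Algebra.norm ℤ A| ≤ X ∧ ∀ i, d i ∣ A) ∧ ∀ i, m ∣ d i - u i} :=
    Nat.card_congr ((Equiv.piCongrRight fun _ : Fin r =>
      (RingOfIntegers.mapRingEquiv e).toEquiv).subtypeEquiv fun d =>
        and_congr (hA d) (forall_congr' fun i => hcl (d i) (u i)))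
  have hX' : κ * (Nat.card {d : Fin r → 𝓞 K' // ∃ A : 𝓞 K', Squarefree A ∧ |Algebra.norm ℤ A| ≤ X ∧
      ∀ i, d i ∣ A} : ℝ) ≤
      (Nat.card {d : Fin r → 𝓞 K' // (∃ A : 𝓞 K', Squarefree A ∧ |Algebra.norm ℤ A| ≤ X ∧
      ∀ i, d i ∣ A) ∧ ∀ i, (RingOfIntegers.mapRingEquiv e).symm m ∣
        d i - (RingOfIntegers.mapRingEquiv e).symm (u i)} : ℝ) := hX
  rw [h1, h2] at hX'
  exact hX'

/-- **Transport along an isomorphism of fields.** -/
theorem CovGI.tr {K K' : Type} [Field K] [NumberField K] [Field K'] [NumberField K']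
    (e : K' ≃+* K) {r : ℕ} {m : 𝓞 K} {u : Fin r → 𝓞 K} {P : (Fin r → 𝓞 K) → Prop} {c : ℝ}
    (h : CovGI (𝓞 K') r ((RingOfIntegers.mapRingEquiv e).symm m)
      (fun i => (RingOfIntegers.mapRingEquiv e).symm (u i))
      (fun d => P (fun i => RingOfIntegers.mapRingEquiv e (d i))) c) : CovGI (𝓞 K) r m u P c := by
  intro ε hε
  filter_upwards [h ε hε] with X hX
  have hdvd : ∀ d D : 𝓞 K', d ∣ D ↔
      RingOfIntegers.mapRingEquiv e d ∣ RingOfIntegers.mapRingEquiv e D := by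
    intro d D
    constructor
    · intro h
      exact map_dvd (RingOfIntegers.mapRingEquiv e) h
    · intro h
      have h1 := map_dvd (RingOfIntegers.mapRingEquiv e).symm h
      rwa [RingEquiv.symm_apply_apply, RingEquiv.symm_apply_apply] at h1
  have hA : ∀ d : Fin r → 𝓞 K', (∃ A : 𝓞 K', Squarefree A ∧ |Algebra.norm ℤ A| ≤ X ∧
      ∀ i, d i ∣ A) ↔ (∃ A : 𝓞 K, Squarefree A ∧ |Algebra.norm ℤ A| ≤ X ∧
      ∀ i, RingOfIntegers.mapRingEquiv e (d i) ∣ A) := by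
    intro d
    constructor
    · rintro ⟨A, h1, h2, h3⟩
      refine ⟨RingOfIntegers.mapRingEquiv e A, (squarefree_equiv _).2 h1, ?_, fun i =>
        (hdvd _ _).1 (h3 i)⟩
      rw [norm_mapRingEquiv]
      exact h2
    · rintro ⟨A, h1, h2, h3⟩
      obtain ⟨A, rfl⟩ := (RingOfIntegers.mapRingEquiv e).surjective A
      refine ⟨A, (squarefree_equiv _).1 h1, ?_, fun i => (hdvd _ _).2 (h3 i)⟩
      rw [norm_mapRingEquiv] at h2
      exact h2
  have hcl : ∀ (d : 𝓞 K') (v : 𝓞 K), (RingOfIntegers.mapRingEquiv e).symm m ∣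
      d - (RingOfIntegers.mapRingEquiv e).symm v ↔ m ∣ RingOfIntegers.mapRingEquiv e d - v := by
    intro d v
    rw [hdvd, map_sub, RingEquiv.apply_symm_apply, RingEquiv.apply_symm_apply]
  have h1 : Nat.card {d : Fin r → 𝓞 K' // (∃ A : 𝓞 K', Squarefree A ∧ |Algebra.norm ℤ A| ≤ X ∧
      ∀ i, d i ∣ A) ∧ (∀ i, (RingOfIntegers.mapRingEquiv e).symm m ∣
        d i - (RingOfIntegers.mapRingEquiv e).symm (u i)) ∧
        P (fun i => RingOfIntegers.mapRingEquiv e (d i))} =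
      Nat.card {d : Fin r → 𝓞 K // (∃ A : 𝓞 K, Squarefree A ∧
      |Algebra.norm ℤ A| ≤ X ∧ ∀ i, d i ∣ A) ∧ (∀ i, m ∣ d i - u i) ∧ P d} :=
    Nat.card_congr ((Equiv.piCongrRight fun _ : Fin r =>
      (RingOfIntegers.mapRingEquiv e).toEquiv).subtypeEquiv fun d =>
        and_congr (hA d) (and_congr (forall_congr' fun i => hcl (d i) (u i)) Iff.rfl))
  have h2 : Nat.card {d : Fin r → 𝓞 K' // (∃ A : 𝓞 K', Squarefree A ∧ |Algebra.norm ℤ A| ≤ X ∧
      ∀ i, d i ∣ A) ∧ ∀ i, (RingOfIntegers.mapRingEquiv e).symm m ∣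
        d i - (RingOfIntegers.mapRingEquiv e).symm (u i)} =
      Nat.card {d : Fin r → 𝓞 K // (∃ A : 𝓞 K, Squarefree A ∧
      |Algebra.norm ℤ A| ≤ X ∧ ∀ i, d i ∣ A) ∧ ∀ i, m ∣ d i - u i} :=
    Nat.card_congr ((Equiv.piCongrRight fun _ : Fin r =>
      (RingOfIntegers.mapRingEquiv e).toEquiv).subtypeEquiv fun d =>
        and_congr (hA d) (forall_congr' fun i => hcl (d i) (u i)))
  rw [h1, h2] at hX
  exact hX

/-- The norms of the divisors. -/
theorem norm_dvd_le {K : Type} [Field K] [NumberField K] (A d : 𝓞 K) (hA : Squarefree A)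
    (hd : d ∣ A) : |Algebra.norm ℤ d| ≤ |Algebra.norm ℤ A| := by
  obtain ⟨e, rfl⟩ := hd
  have h0 : Algebra.norm ℤ (d * e) ≠ 0 := by
    rw [Ne, Algebra.norm_eq_zero_iff]
    exact hA.ne_zero
  rw [map_mul] at h0 ⊢
  rw [abs_mul]
  have h1 : 1 ≤ |Algebra.norm ℤ e| := Int.one_le_abs (right_ne_zero_of_mul h0)
  exact le_mul_of_one_le_right (abs_nonneg _) h1

end

end Pool.Agent.Lib.MP_1a91b9_ntMN
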