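import Pool.Agent.Lib.MP_1a91b9_ntZ.Forms
import Pool.Agent.Lib.MP_1a91b9_ntMN.N0

/-!
# MP_1a91b9_nt (all the multiquadratic fields): the statements of the rank part over `F`
-/

set_option autoImplicit false

namespace Pool.Agent.Lib.MP_1a91b9_ntMN

open NumberField WeierstrassCurve
open Pool.Agent.Lib.MP_1a91b9_ntW.J (RkZ twd)
open Pool.Agent.Lib.MP_1a91b9_ntZ (Atl bn SepF)

/-- `m` divides a power of `2`, and the classes of the `u i` satisfy the condition `H`. -/
def ClsI {K : Type} [Field K] [NumberField K] (H : 𝓞 K → 𝓞 K → Prop) {r : ℕ} (m : 𝓞 K)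
    (u : Fin r → 𝓞 K) : Prop :=
  (∃ n : ℕ, m ∣ (2 : 𝓞 K) ^ n) ∧ ∀ i, H m (u i)

/-- The binomial law for the covering tuples over the extensions generated by `l`-th roots, `H` is the
condition on the classes. -/
def DBI (K : Type) [Field K] [NumberField K] (l : ℕ)
    (H : (F : Type) → [Field F] → 𝓞 K → 𝓞 K → Prop) (E : Set K) (a b : K) (c : ℝ) : Prop :=
  ∀ (F : Type) [Field F] [NumberField F] [Algebra K F],
    IntermediateField.adjoin K {x : F | ∃ c : K, x ^ l = algebraMap K F c} = ⊤ →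
    ∀ (r : ℕ) (m : 𝓞 K) (u : Fin r → 𝓞 K), ClsI (H F) m u →
    ∀ (k : ℕ) (δ : Fin k → Finset (Fin r) → K),
    (∀ J : Finset (Fin r), J.Nonempty → SepF K F E fun i => δ i J) → ∀ t : ℕ,
    CovGI (𝓞 K) r m u (fun d => Atl t fun i => ∀ J : Finset (Fin r), J.Nonempty →
      RkZ (⟨0, algebraMap K F (δ i J * ((∏ j ∈ J, d j : 𝓞 K) : K) * a), 0,
        algebraMap K F ((δ i J * ((∏ j ∈ J, d j : 𝓞 K) : K)) ^ 2 * b), 0⟩ : WeierstrassCurve F))
      (bn k t (c ^ ((2 ^ r - 1) * Module.finrank K F)))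

/-- It is enough to prove the law when also the values for the empty set are not zero. -/
theorem DBI.of_ne {K : Type} [Field K] [NumberField K] {l : ℕ}
    {H : (F : Type) → [Field F] → 𝓞 K → 𝓞 K → Prop} {E : Set K} {a b : K} {c : ℝ}
    (h : ∀ (F : Type) [Field F] [NumberField F] [Algebra K F],
      IntermediateField.adjoin K {x : F | ∃ c : K, x ^ l = algebraMap K F c} = ⊤ →
      ∀ (r : ℕ) (m : 𝓞 K) (u : Fin r → 𝓞 K), ClsI (H F) m u →
      ∀ (k : ℕ) (δ : Fin k → Finset (Fin r) → K),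
      (∀ i J, δ i J ≠ 0) →
      (∀ J : Finset (Fin r), J.Nonempty → SepF K F E fun i => δ i J) → ∀ t : ℕ,
      CovGI (𝓞 K) r m u (fun d => Atl t fun i => ∀ J : Finset (Fin r), J.Nonempty →
        RkZ (⟨0, algebraMap K F (δ i J * ((∏ j ∈ J, d j : 𝓞 K) : K) * a), 0,
          algebraMap K F ((δ i J * ((∏ j ∈ J, d j : 𝓞 K) : K)) ^ 2 * b), 0⟩ :
            WeierstrassCurve F))
        (bn k t (c ^ ((2 ^ r - 1) * Module.finrank K F)))) : DBI K l H E a b c := by
  classical
  intro F _ _ _ hF r m u hmu k δ hδ t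
  have h1 := h F hF r m u hmu k (fun i J => if J.Nonempty then δ i J else 1)
    (fun i J => by
      by_cases hJ : J.Nonempty
      · simp only [if_pos hJ]
        exact (hδ J hJ).1 i
      · simp only [if_neg hJ]
        exact one_ne_zero)
    (fun J hJ => by
      simp only [if_pos hJ]
      exact hδ J hJ) t
  refine (congrArg (fun P => CovGI (𝓞 K) r m u P
    (bn k t (c ^ ((2 ^ r - 1) * Module.finrank K F)))) (funext fun d => propext
      (Atl.congr fun i => forall_congr' fun J => forall_congr' fun hJ => ?_))).mp h1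
  rw [if_pos hJ]

end Pool.Agent.Lib.MP_1a91b9_ntMN
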