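import Pool.Agent.Lib.MP_1a91b9_ntMN.UBh

/-!
# MP_1a91b9_nt (extensions ordered by the ramified primes): the lower bound for the number of colourings

`Nh h X` is the sum of `h ^ #S` over the squarefree `S` of norm at most `X`. If the number of the squarefree `S` of norm
at most `Y` is at least `c₀ Y` for all `Y ≥ 1` then `Nh h X ≥ c X (1 + log X) ^ (h - 1)`.

Proof: `∑ k ^ #T #{S : nm S ≤ X / nm T}` over the `T` with `nm T ≤ √X` is at least a constant times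
`X ∑ k ^ #T / nm T`, and it is at most `∑ k ^ #A Nh (k + 1) (X / nm A ^ 2)` (`A` is the intersection of `T` and `S`);
the terms with large `nm A` are small by the upper bound.
-/

set_option autoImplicit false
set_option linter.unusedSectionVars false

namespace Pool.Agent.Lib.MP_1a91b9_ntMN

open Finset Pool.Agent.Lib.MP_1a91b9_ntH Pool.Agent.Lib.MP_1a91b9_ntQ Pool.Agent.Lib.MP_1a91b9_ntV

noncomputable section

/-- The sum of `h ^ #S` over the squarefree `S` of norm at most `X`. -/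
def Nh (ι : Type) [DecidableEq ι] [PS ι] (h X : ℕ) : ℝ := ∑ S ∈ Sx ι X, (h : ℝ) ^ S.card

/-- There are at least `c₀ Y` squarefree `S` of norm at most `Y`. -/
def Dn (ι : Type) [DecidableEq ι] [PS ι] (c₀ : ℝ) : Prop := ∀ Y : ℕ, 1 ≤ Y → c₀ * Y ≤ ((Sx ι Y).card : ℝ)

/-- The sum of `k ^ #T / nm T`. -/
def Mh (ι : Type) [DecidableEq ι] [PS ι] (k Z : ℕ) : ℝ := ∑ T ∈ Sx ι Z, (k : ℝ) ^ T.card / nm T

variable {ι : Type} [DecidableEq ι] [PS ι]

theorem Nh_nonneg (h X : ℕ) : 0 ≤ Nh ι h X := sum_nonneg fun _ _ => by positivity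

theorem Mh_nonneg (k Z : ℕ) : 0 ≤ Mh ι k Z := sum_nonneg fun _ _ => by positivity

theorem Nh_mono (h : ℕ) {X Y : ℕ} (hXY : X ≤ Y) : Nh ι h X ≤ Nh ι h Y :=
  sum_le_sum_of_subset_of_nonneg (fun S hS => mem_Sx.2 ((mem_Sx.1 hS).trans hXY))
    fun _ _ _ => by positivity

theorem Mh_mono (k : ℕ) {X Y : ℕ} (hXY : X ≤ Y) : Mh ι k X ≤ Mh ι k Y :=
  sum_le_sum_of_subset_of_nonneg (fun S hS => mem_Sx.2 ((mem_Sx.1 hS).trans hXY))
    fun _ _ _ => by positivity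

private theorem lb_pow (k : ℕ) (U : Finset ι) :
    ∑ T ∈ U.powerset, (k : ℝ) ^ T.card = ((k + 1 : ℕ) : ℝ) ^ U.card := by
  have h := Finset.sum_pow_mul_eq_add_pow (k : ℝ) 1 U
  simp only [one_pow, mul_one] at h
  rw [h]
  push_cast
  rfl

/-- The pairs `(T, S)` by the intersection `A`, the symmetric difference `U` and `T \ S`. -/
private theorem lb_pairs (k Y Z W : ℕ) (g : ℕ → ℝ) (hg : ∀ n, 0 ≤ g n)
    (h : ∀ T ∈ Sx ι Y, ∀ S ∈ Sx ι Z, g (nm T * nm S) ≠ 0 → nm T * nm S ≤ W) :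
    ∑ T ∈ Sx ι Y, ∑ S ∈ Sx ι Z, (k : ℝ) ^ T.card * g (nm T * nm S) ≤
      ∑ A ∈ Sx ι Y, ∑ U ∈ Sx ι W, (k : ℝ) ^ A.card * ((k + 1 : ℕ) : ℝ) ^ U.card *
        g (nm A ^ 2 * nm U) := by
  classical
  have e1 : ∀ A ∈ Sx ι Y, ∑ U ∈ Sx ι W, (k : ℝ) ^ A.card * ((k + 1 : ℕ) : ℝ) ^ U.card *
        g (nm A ^ 2 * nm U) = ∑ U ∈ Sx ι W, ∑ T ∈ U.powerset, (k : ℝ) ^ A.card *
          (k : ℝ) ^ T.card * g (nm A ^ 2 * nm U) := by
    intro A _
    refine sum_congr rfl fun U _ => ?_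
    rw [← lb_pow, mul_sum, sum_mul]
  rw [sum_congr rfl e1, ← sum_product', ]
  rw [← sum_product']
  rw [sum_sigma' ((Sx ι Y) ×ˢ (Sx ι W)) (fun p => p.2.powerset)
    (fun p T => (k : ℝ) ^ p.1.card * (k : ℝ) ^ T.card * g (nm p.1 ^ 2 * nm p.2))]
  have e2 : ∑ p ∈ (Sx ι Y) ×ˢ (Sx ι Z), (k : ℝ) ^ p.1.card * g (nm p.1 * nm p.2) =
      ∑ p ∈ ((Sx ι Y) ×ˢ (Sx ι Z)).filter (fun p => g (nm p.1 * nm p.2) ≠ 0),
        (k : ℝ) ^ p.1.card * g (nm p.1 * nm p.2) := by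
    refine (sum_filter_of_ne fun p _ hp => ?_).symm
    intro h0
    rw [h0, mul_zero] at hp
    exact hp rfl
  rw [e2]
  set F : Finset ι × Finset ι → (_ : Finset ι × Finset ι) × Finset ι :=
    fun p => ⟨(p.1 ∩ p.2, (p.1 \ p.2) ∪ (p.2 \ p.1)), p.1 \ p.2⟩ with hF
  have hnm : ∀ T S : Finset ι, nm (T ∩ S) ^ 2 * nm ((T \ S) ∪ (S \ T)) = nm T * nm S := by
    intro T S
    have h1 : nm T = nm (T ∩ S) * nm (T \ S) := by
      rw [← nm_union (disjoint_left.2 fun q h1 h2 => (mem_sdiff.1 h2).2 (mem_inter.1 h1).2)]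
      congr 1
      ext q
      simp only [mem_union, mem_inter, mem_sdiff]
      tauto
    have h2 : nm S = nm (T ∩ S) * nm (S \ T) := by
      rw [← nm_union (disjoint_left.2 fun q h1 h2 => (mem_sdiff.1 h2).2 (mem_inter.1 h1).1)]
      congr 1
      ext q
      simp only [mem_union, mem_inter, mem_sdiff]
      tauto
    have h3 : nm ((T \ S) ∪ (S \ T)) = nm (T \ S) * nm (S \ T) :=
      nm_union (disjoint_left.2 fun q h1 h2 => (mem_sdiff.1 h1).2 (mem_sdiff.1 h2).1)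
    rw [h3]
    nth_rewrite 1 [h1]
    nth_rewrite 1 [h2]
    ring
  have hcd : ∀ T S : Finset ι, T.card = (T ∩ S).card + (T \ S).card := fun T S =>
    (card_inter_add_card_sdiff T S).symm
  have e3 : ∑ p ∈ ((Sx ι Y) ×ˢ (Sx ι Z)).filter (fun p => g (nm p.1 * nm p.2) ≠ 0),
      (k : ℝ) ^ p.1.card * g (nm p.1 * nm p.2) =
      ∑ x ∈ (((Sx ι Y) ×ˢ (Sx ι Z)).filter (fun p => g (nm p.1 * nm p.2) ≠ 0)).image F,
        (k : ℝ) ^ x.1.1.card * (k : ℝ) ^ x.2.card * g (nm x.1.1 ^ 2 * nm x.1.2) := by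
    rw [sum_image]
    · refine sum_congr rfl fun p _ => ?_
      show (k : ℝ) ^ p.1.card * g (nm p.1 * nm p.2) = (k : ℝ) ^ (p.1 ∩ p.2).card *
        (k : ℝ) ^ (p.1 \ p.2).card * g (nm (p.1 ∩ p.2) ^ 2 * nm ((p.1 \ p.2) ∪ (p.2 \ p.1)))
      rw [hnm, ← pow_add, ← hcd]
    · rintro ⟨T, S⟩ _ ⟨T', S'⟩ _ hh
      rw [hF] at hh
      simp only [Sigma.mk.injEq, Prod.mk.injEq, heq_eq_eq] at hh
      obtain ⟨⟨h1, h2⟩, h3⟩ := hh
      have hT : ∀ T S : Finset ι, T = (T ∩ S) ∪ (T \ S) := fun T S => by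
        ext q
        simp only [mem_union, mem_inter, mem_sdiff]
        tauto
      have hS : ∀ T S : Finset ι, S = (T ∩ S) ∪ (((T \ S) ∪ (S \ T)) \ (T \ S)) := fun T S => by
        ext q
        simp only [mem_union, mem_inter, mem_sdiff]
        tauto
      have hTT : T = T' := by rw [hT T S, hT T' S', h1, h3]
      have hSS : S = S' := by rw [hS T S, hS T' S', h1, h2, h3]
      rw [hTT, hSS]
  rw [e3]
  refine sum_le_sum_of_subset_of_nonneg ?_ fun x _ _ => mul_nonneg (by positivity) (hg _)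
  intro x hx
  obtain ⟨p, hp, rfl⟩ := mem_image.1 hx
  obtain ⟨hp1, hp2⟩ := mem_filter.1 hp
  obtain ⟨hp3, hp4⟩ := mem_product.1 hp1
  have h5 := h p.1 hp3 p.2 hp4 hp2
  rw [mem_sigma, mem_product]
  refine ⟨⟨?_, ?_⟩, ?_⟩
  · show p.1 ∩ p.2 ∈ Sx ι Y
    rw [mem_Sx]
    have h6 := mem_Sx.1 hp3
    refine le_trans ?_ h6
    unfold nm
    exact Finset.prod_le_prod_of_subset_of_one_le' inter_subset_left fun q _ _ => by
      have := PS.two_le q
      omega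
  · show (p.1 \ p.2) ∪ (p.2 \ p.1) ∈ Sx ι W
    rw [mem_Sx]
    refine le_trans ?_ h5
    rw [← hnm p.1 p.2]
    exact Nat.le_mul_of_pos_left _ (pow_pos (one_le_nm _) 2)
  · show p.1 \ p.2 ∈ ((p.1 \ p.2) ∪ (p.2 \ p.1)).powerset
    exact mem_powerset.2 subset_union_left

/-- The sums which converge. -/
private theorem lb_conv {C : ℝ} (hz : Zt ι C) (k : ℕ) : ∃ E : ℝ, 1 ≤ E ∧ ∀ Y : ℕ,
    ∑ A ∈ Sx ι Y, (k : ℝ) ^ A.card * (nm A : ℝ) ^ (-(3 / 2) : ℝ) ≤ E := by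
  refine ⟨max 1 ((C / (3 / 2 - 1)) ^ k), le_max_left _ _, fun Y => ?_⟩
  have h := euler_h hz SumB.zero 1 k le_rfl (fun _ => (k : ℝ)) (fun q => ⟨Nat.cast_nonneg _, by
    rw [add_zero, Nat.cast_one, div_one]⟩) (3 / 2) (by norm_num) (by norm_num) Y
  simp only [prod_const, Nat.cast_one, div_one, Real.rpow_one, mul_one] at h
  exact h.trans (le_max_right _ _)

private theorem lb_conv2 {C : ℝ} (hz : Zt ι C) (k : ℕ) : ∃ E : ℝ, 1 ≤ E ∧ ∀ Y : ℕ,
    (∑ A ∈ Sx ι Y, (k : ℝ) ^ A.card / (nm A : ℝ) ^ 2 ≤ E) ∧ ∀ z : ℕ, 1 ≤ z →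
    ∑ A ∈ (Sx ι Y).filter (fun A => z < nm A), (k : ℝ) ^ A.card / (nm A : ℝ) ^ 2 ≤
      E * (z : ℝ) ^ (-(1 / 2) : ℝ) := by
  obtain ⟨E, hE, h⟩ := lb_conv (ι := ι) hz k
  refine ⟨E, hE, fun Y => ⟨(sum_le_sum fun A _ => ?_).trans (h Y), fun z hz1 => ?_⟩⟩
  · have hn : (1 : ℝ) ≤ nm A := by exact_mod_cast one_le_nm A
    rw [div_eq_mul_inv]
    refine mul_le_mul_of_nonneg_left ?_ (by positivity)
    rw [← Real.rpow_natCast, ← Real.rpow_neg (by linarith)]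
    exact Real.rpow_le_rpow_of_exponent_le hn (by push_cast; norm_num)
  · have hzr : (1 : ℝ) ≤ z := by exact_mod_cast hz1
    have h1 : ∀ A ∈ (Sx ι Y).filter (fun A => z < nm A), (k : ℝ) ^ A.card / (nm A : ℝ) ^ 2 ≤
        (k : ℝ) ^ A.card * (nm A : ℝ) ^ (-(3 / 2) : ℝ) * (z : ℝ) ^ (-(1 / 2) : ℝ) := by
      intro A hA
      have hn : (1 : ℝ) ≤ nm A := by exact_mod_cast one_le_nm A
      have hzn : (z : ℝ) ≤ nm A := by exact_mod_cast (mem_filter.1 hA).2.le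
      rw [div_eq_mul_inv, mul_assoc]
      refine mul_le_mul_of_nonneg_left ?_ (by positivity)
      have e : ((nm A : ℝ) ^ 2)⁻¹ = (nm A : ℝ) ^ (-(3 / 2) : ℝ) * (nm A : ℝ) ^ (-(1 / 2) : ℝ) := by
        rw [← Real.rpow_add (by linarith), ← Real.rpow_natCast, ← Real.rpow_neg (by linarith)]
        congr 1
        push_cast
        norm_num
      rw [e]
      refine mul_le_mul_of_nonneg_left ?_ (by positivity)
      exact Real.rpow_le_rpow_of_nonpos (by linarith) hzn (by norm_num)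
    refine (sum_le_sum h1).trans ?_
    rw [← sum_mul]
    refine mul_le_mul_of_nonneg_right ?_ (by positivity)
    refine le_trans ?_ (h Y)
    exact sum_le_sum_of_subset_of_nonneg (filter_subset _ _) fun _ _ _ => by positivity

/-- The sum of `1 / nm S`. -/
private theorem lb_M1 {c₀ : ℝ} (h0 : 0 < c₀) (h : Dn ι c₀) :
    ∃ c : ℝ, 0 < c ∧ ∀ Y : ℕ, 1 ≤ Y → c * (1 + Real.log Y) ≤ Mh ι 1 Y := by
  have hM1 : ∀ Y : ℕ, 1 ≤ Y → 1 ≤ Mh ι 1 Y := by
    intro Y hY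
    have h1 : (∅ : Finset ι) ∈ Sx ι Y := mem_Sx.2 (by rw [nm_empty]; exact hY)
    have h2 := single_le_sum (f := fun T : Finset ι => ((1 : ℕ) : ℝ) ^ T.card / nm T)
      (fun T _ => by positivity) h1
    simp only [card_empty, pow_zero, nm_empty, Nat.cast_one, div_one] at h2
    unfold Mh
    rw [Nat.cast_one]
    exact h2
  have key : ∀ Y : ℕ, ((Sx ι Y).card : ℝ) / (Y + 1) +
      c₀ * ∑ n ∈ range Y, 1 / ((n : ℝ) + 2) ≤ Mh ι 1 Y := by
    intro Y
    induction Y with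
    | zero =>
      have h1 : Sx ι 0 = ∅ := by
        ext S
        rw [mem_Sx]
        have := one_le_nm S
        constructor
        · intro h
          omega
        · intro h
          exact absurd h (notMem_empty _)
      unfold Mh
      rw [h1]
      simp
    | succ Y ih =>
      have hsub : Sx ι Y ⊆ Sx ι (Y + 1) := fun S hS => mem_Sx.2 ((mem_Sx.1 hS).trans (by omega))
      have e1 : Mh ι 1 (Y + 1) = Mh ι 1 Y +
          (((Sx ι (Y + 1)).card : ℝ) - ((Sx ι Y).card : ℝ)) / (Y + 1) := by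
        unfold Mh
        rw [← sum_sdiff hsub, add_comm]
        congr 1
        have h2 : ∀ S ∈ Sx ι (Y + 1) \ Sx ι Y, ((1 : ℕ) : ℝ) ^ S.card / nm S =
            1 / ((Y : ℝ) + 1) := by
          intro S hS
          rw [mem_sdiff, mem_Sx, mem_Sx] at hS
          have h3 : nm S = Y + 1 := by omega
          rw [h3]
          push_cast
          rw [one_pow]
        rw [sum_congr rfl h2, sum_const, nsmul_eq_mul, card_sdiff_of_subset hsub,
          Nat.cast_sub (card_le_card hsub)]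
        ring
      have h4 := h (Y + 1) (by omega)
      push_cast at h4
      have hY0 : (0 : ℝ) ≤ Y := Nat.cast_nonneg Y
      rw [e1, sum_range_succ]
      have e2 : ((Sx ι (Y + 1)).card : ℝ) / (((Y + 1 : ℕ) : ℝ) + 1) +
          c₀ * (1 / ((Y : ℝ) + 2)) ≤ ((Sx ι (Y + 1)).card : ℝ) / (Y + 1) := by
        have h5 : ((Sx ι (Y + 1)).card : ℝ) / (Y + 1) - ((Sx ι (Y + 1)).card : ℝ) / (Y + 2) =
            ((Sx ι (Y + 1)).card : ℝ) / (((Y : ℝ) + 1) * (Y + 2)) := by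
          field_simp
          ring
        have h6 : c₀ * (1 / ((Y : ℝ) + 2)) ≤
            ((Sx ι (Y + 1)).card : ℝ) / (((Y : ℝ) + 1) * (Y + 2)) := by
          rw [mul_one_div, div_le_div_iff₀ (by linarith) (by positivity)]
          nlinarith
        have h7 : (((Y + 1 : ℕ) : ℝ) + 1) = (Y : ℝ) + 2 := by
          push_cast
          ring
        rw [h7]
        linarith
      have e3 : (((Sx ι (Y + 1)).card : ℝ) - ((Sx ι Y).card : ℝ)) / ((Y : ℝ) + 1) =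
          ((Sx ι (Y + 1)).card : ℝ) / (Y + 1) - ((Sx ι Y).card : ℝ) / (Y + 1) := by
        rw [sub_div]
      rw [e3, mul_add]
      linarith
  have hharm : ∀ Y : ℕ, Real.log ((Y : ℝ) + 1) - 1 ≤ ∑ n ∈ range Y, 1 / ((n : ℝ) + 2) := by
    intro Y
    have h1 : ∀ Y : ℕ, Real.log ((Y : ℝ) + 2) ≤ 1 + ∑ n ∈ range Y, 1 / ((n : ℝ) + 2) := by
      intro Y
      induction Y with
      | zero =>
        rw [range_zero, sum_empty, Nat.cast_zero, zero_add]
        have := Real.log_two_lt_d9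
        linarith
      | succ Y ih =>
        rw [sum_range_succ]
        have hY0 : (0 : ℝ) ≤ Y := Nat.cast_nonneg Y
        have h2 : Real.log (((Y + 1 : ℕ) : ℝ) + 2) - Real.log ((Y : ℝ) + 2) ≤ 1 / ((Y : ℝ) + 2) := by
          rw [← Real.log_div (by positivity) (by linarith)]
          have h3 := Real.log_le_sub_one_of_pos (show 0 < (((Y + 1 : ℕ) : ℝ) + 2) / ((Y : ℝ) + 2) by
            positivity)
          refine h3.trans (le_of_eq ?_)
          push_cast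
          field_simp
          ring
        linarith
    have h2 := h1 Y
    have hY0 : (0 : ℝ) ≤ Y := Nat.cast_nonneg Y
    have h3 : Real.log ((Y : ℝ) + 1) ≤ Real.log ((Y : ℝ) + 2) :=
      Real.log_le_log (by linarith) (by linarith)
    linarith
  refine ⟨c₀ / (1 + 2 * c₀), by positivity, fun Y hY => ?_⟩
  have h1 := key Y
  have h2 := hharm Y
  have h3 := hM1 Y hY
  have h4 : (0 : ℝ) ≤ ((Sx ι Y).card : ℝ) / (Y + 1) := by positivity
  have hYr : (1 : ℝ) ≤ Y := by exact_mod_cast hY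
  have h5 : Real.log Y ≤ Real.log ((Y : ℝ) + 1) := Real.log_le_log (by linarith) (by linarith)
  have h6 : c₀ * (Real.log Y - 1) ≤ Mh ι 1 Y := by
    have h7 : c₀ * (Real.log Y - 1) ≤ c₀ * ∑ n ∈ range Y, 1 / ((n : ℝ) + 2) :=
      mul_le_mul_of_nonneg_left (by linarith) h0.le
    linarith
  rw [div_mul_eq_mul_div, div_le_iff₀ (by positivity)]
  nlinarith

private theorem lb_sqrt (Y : ℕ) (hY : 1 ≤ Y) : 1 ≤ Nat.sqrt Y ∧ Nat.sqrt Y * Nat.sqrt Y ≤ Y ∧
    (1 + Real.log Y) / 3 ≤ 1 + Real.log (Nat.sqrt Y) := by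
  have h1 : 1 ≤ Nat.sqrt Y := Nat.le_sqrt.2 (by omega)
  refine ⟨h1, Nat.sqrt_le Y, ?_⟩
  have h2 : Y < (Nat.sqrt Y + 1) * (Nat.sqrt Y + 1) := Nat.lt_succ_sqrt Y
  have h3 : Y ≤ (2 * Nat.sqrt Y) ^ 2 := by nlinarith
  have h1r : (1 : ℝ) ≤ Nat.sqrt Y := by exact_mod_cast h1
  have hYr : (1 : ℝ) ≤ Y := by exact_mod_cast hY
  have h3r : (Y : ℝ) ≤ (2 * (Nat.sqrt Y : ℝ)) ^ 2 := by exact_mod_cast h3
  have h4 := Real.log_le_log (by linarith) h3r
  rw [Real.log_pow, Real.log_mul (by norm_num) (by linarith)] at h4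
  have h5 := Real.log_two_lt_d9
  have h6 : 0 ≤ Real.log (Nat.sqrt Y : ℝ) := Real.log_nonneg h1r
  push_cast at h4
  linarith

/-- The sum of `k ^ #T / nm T`. -/
theorem Mh_lower {c₀ C : ℝ} (h0 : 0 < c₀) (h : Dn ι c₀) (hz : Zt ι C) (k : ℕ) :
    ∃ c : ℝ, 0 < c ∧ ∀ Y : ℕ, 1 ≤ Y → c * (1 + Real.log Y) ^ k ≤ Mh ι k Y := by
  induction k with
  | zero =>
    refine ⟨1, one_pos, fun Y hY => ?_⟩
    have h1 : (∅ : Finset ι) ∈ Sx ι Y := mem_Sx.2 (by rw [nm_empty]; exact hY)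
    have h2 := single_le_sum (f := fun T : Finset ι => ((0 : ℕ) : ℝ) ^ T.card / nm T)
      (fun T _ => by positivity) h1
    simp only [card_empty, pow_zero, nm_empty, Nat.cast_one, div_one] at h2
    rw [pow_zero, mul_one]
    exact h2
  | succ k ih =>
    obtain ⟨c1, hc1, h1⟩ := lb_M1 h0 h
    obtain ⟨c2, hc2, h2⟩ := ih
    obtain ⟨E, hE, h3⟩ := lb_conv2 (ι := ι) hz k
    refine ⟨c1 * c2 / (E * 3 ^ (k + 1)), by positivity, fun Y hY => ?_⟩
    obtain ⟨s1, s2, s3⟩ := lb_sqrt Y hY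
    obtain ⟨Z, hZ⟩ : ∃ Z, Z = Nat.sqrt Y := ⟨_, rfl⟩
    rw [← hZ] at s1 s2 s3
    have e1 := lb_pairs (ι := ι) k Z Z Y (fun n => 1 / (n : ℝ)) (fun n => by positivity)
      (fun T hT S hS _ => (Nat.mul_le_mul (mem_Sx.1 hT) (mem_Sx.1 hS)).trans s2)
    have e2 : ∑ T ∈ Sx ι Z, ∑ S ∈ Sx ι Z, (k : ℝ) ^ T.card * (1 / ((nm T * nm S : ℕ) : ℝ)) =
        Mh ι k Z * Mh ι 1 Z := by
      unfold Mh
      rw [sum_mul_sum]
      refine sum_congr rfl fun T _ => sum_congr rfl fun S _ => ?_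
      push_cast
      rw [one_pow]
      field_simp
    have e3 : ∑ A ∈ Sx ι Z, ∑ U ∈ Sx ι Y, (k : ℝ) ^ A.card * ((k + 1 : ℕ) : ℝ) ^ U.card *
        (1 / ((nm A ^ 2 * nm U : ℕ) : ℝ)) =
        (∑ A ∈ Sx ι Z, (k : ℝ) ^ A.card / (nm A : ℝ) ^ 2) * Mh ι (k + 1) Y := by
      unfold Mh
      rw [sum_mul_sum]
      refine sum_congr rfl fun A _ => sum_congr rfl fun U _ => ?_
      push_cast
      field_simp
    rw [e2, e3] at e1
    have hYr : (1 : ℝ) ≤ Y := by exact_mod_cast hY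
    have hlY : 0 ≤ Real.log (Y : ℝ) := Real.log_nonneg hYr
    have e4 : (∑ A ∈ Sx ι Z, (k : ℝ) ^ A.card / (nm A : ℝ) ^ 2) * Mh ι (k + 1) Y ≤
        E * Mh ι (k + 1) Y := mul_le_mul_of_nonneg_right (h3 Z).1 (Mh_nonneg _ _)
    have e5 : (c2 * ((1 + Real.log Y) / 3) ^ k) * (c1 * ((1 + Real.log Y) / 3)) ≤
        Mh ι k Z * Mh ι 1 Z := by
      have h6 : c2 * ((1 + Real.log Y) / 3) ^ k ≤ Mh ι k Z :=
        (mul_le_mul_of_nonneg_left (pow_le_pow_left₀ (by positivity) s3 k) hc2.le).trans (h2 Z s1)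
      have h7 : c1 * ((1 + Real.log Y) / 3) ≤ Mh ι 1 Z :=
        (mul_le_mul_of_nonneg_left s3 hc1.le).trans (h1 Z s1)
      exact mul_le_mul h6 h7 (by positivity) (Mh_nonneg _ _)
    have e6 := e5.trans (e1.trans e4)
    rw [div_mul_eq_mul_div, div_le_iff₀ (by positivity)]
    have h3p : (0 : ℝ) < 3 ^ (k + 1) := by positivity
    have e7 : c2 * ((1 + Real.log (Y : ℝ)) / 3) ^ k * (c1 * ((1 + Real.log Y) / 3)) * 3 ^ (k + 1) =
        c1 * c2 * (1 + Real.log Y) ^ (k + 1) := by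
      rw [div_pow, pow_succ, pow_succ]
      field_simp
    rw [← e7]
    calc _ ≤ E * Mh ι (k + 1) Y * 3 ^ (k + 1) := mul_le_mul_of_nonneg_right e6 h3p.le
      _ = _ := by ring

/-- The upper bound. -/
theorem Nh_upper {C1 C2 : ℝ} (h1 : Cheb ι C1) (h2 : Zt ι C2) (k : ℕ) : ∃ K : ℝ, 0 < K ∧
    ∀ Y : ℕ, 1 ≤ Y → Nh ι (k + 1) Y ≤ K * (Y * (1 + Real.log Y) ^ k) := by
  obtain ⟨K, hK, h⟩ := ubh0 h1 h2 (k + 1) (by omega)
  refine ⟨K + 1, by linarith, fun Y hY => ?_⟩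
  have hYr : (1 : ℝ) ≤ Y := by exact_mod_cast hY
  have hlY : 0 ≤ Real.log (Y : ℝ) := Real.log_nonneg hYr
  have h0 : 0 ≤ (Y : ℝ) * (1 + Real.log Y) ^ k := by positivity
  rcases Nat.lt_or_ge Y 2 with hlt | hge
  · obtain rfl : Y = 1 := by omega
    have h3 : Sx ι 1 = {∅} := by
      ext S
      rw [mem_Sx, mem_singleton]
      constructor
      · intro h
        by_contra hne
        obtain ⟨q, hq⟩ := Finset.nonempty_iff_ne_empty.2 hne
        have h4 := le_nm hq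
        have h5 := PS.two_le q
        omega
      · rintro rfl
        exact nm_empty.le
    unfold Nh
    rw [h3, sum_singleton]
    simp
    linarith
  · have h3 := h (fun _ => ((k + 1 : ℕ) : ℝ)) (fun q => ⟨Nat.cast_nonneg _, le_rfl⟩) Y hge
    simp only [prod_const] at h3
    unfold Nh
    refine h3.trans ?_
    unfold Yh
    rw [Nat.add_sub_cancel]
    have h4 : (Y : ℝ) * Real.log Y ^ k ≤ Y * (1 + Real.log Y) ^ k :=
      mul_le_mul_of_nonneg_left (pow_le_pow_left₀ hlY (by linarith) k) (by linarith)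
    calc K * ((Y : ℝ) * Real.log Y ^ k) ≤ K * (Y * (1 + Real.log Y) ^ k) :=
          mul_le_mul_of_nonneg_left h4 hK.le
      _ ≤ (K + 1) * (Y * (1 + Real.log Y) ^ k) := by linarith

/-- **The lower bound.** -/
theorem Nh_lower {c₀ C1 C2 : ℝ} (h0 : 0 < c₀) (h : Dn ι c₀) (hc : Cheb ι C1) (hz : Zt ι C2)
    (k : ℕ) : ∃ c : ℝ, 0 < c ∧
    ∀ X : ℕ, 1 ≤ X → c * (X * (1 + Real.log X) ^ k) ≤ Nh ι (k + 1) X := by
  obtain ⟨K, hK, hup⟩ := Nh_upper hc hz k
  obtain ⟨c1, hc1, h1⟩ := Mh_lower h0 h hz k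
  obtain ⟨E, hE, h3⟩ := lb_conv2 (ι := ι) hz k
  -- the constant in front of `X (1 + log X) ^ k`
  obtain ⟨c2, hc2⟩ : ∃ c2 : ℝ, c2 = c₀ / 2 * (c1 / 3 ^ k) := ⟨_, rfl⟩
  have hc20 : 0 < c2 := by rw [hc2]; positivity
  -- the threshold
  obtain ⟨z, hz1, hz2⟩ : ∃ z : ℕ, 1 ≤ z ∧ K * (E * (z : ℝ) ^ (-(1 / 2) : ℝ)) ≤ c2 / 2 := by
    have ht : Filter.Tendsto (fun z : ℕ => K * (E * (z : ℝ) ^ (-(1 / 2) : ℝ))) Filter.atTop
        (nhds (K * (E * 0))) :=
      ((((tendsto_rpow_neg_atTop (by norm_num : (0 : ℝ) < 1 / 2)).comp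
        tendsto_natCast_atTop_atTop).const_mul E).const_mul K)
    rw [mul_zero, mul_zero] at ht
    have h5 := (ht.eventually (gt_mem_nhds (show (0 : ℝ) < c2 / 2 by linarith))).and
      (Filter.eventually_ge_atTop 1)
    obtain ⟨z, hz1, hz2⟩ := h5.exists
    exact ⟨z, hz2, hz1.le⟩
  obtain ⟨A0, hA0⟩ : ∃ A0 : ℝ, A0 = ∑ A ∈ Sx ι z, (k : ℝ) ^ A.card := ⟨_, rfl⟩
  have hA00 : 0 ≤ A0 := by
    rw [hA0]
    exact sum_nonneg fun _ _ => by positivity
  refine ⟨c2 / 2 / (A0 + 1), by positivity, fun X hX => ?_⟩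
  obtain ⟨s1, s2, s3⟩ := lb_sqrt X hX
  obtain ⟨Y, hY⟩ : ∃ Y, Y = Nat.sqrt X := ⟨_, rfl⟩
  rw [← hY] at s1 s2 s3
  have hXr : (1 : ℝ) ≤ X := by exact_mod_cast hX
  have hlX : 0 ≤ Real.log (X : ℝ) := Real.log_nonneg hXr
  have e1 := lb_pairs (ι := ι) k Y X X (fun n => if n ≤ X then 1 else 0)
    (fun n => by split_ifs <;> norm_num) (fun T _ S _ hne => by
      by_contra hcon
      exact hne (if_neg hcon))
  -- the left side
  have e2 : c2 * (X * (1 + Real.log X) ^ k) ≤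
      ∑ T ∈ Sx ι Y, ∑ S ∈ Sx ι X, (k : ℝ) ^ T.card * (if nm T * nm S ≤ X then 1 else 0) := by
    have h5 : ∀ T ∈ Sx ι Y, c₀ / 2 * X * ((k : ℝ) ^ T.card / nm T) ≤
        ∑ S ∈ Sx ι X, (k : ℝ) ^ T.card * (if nm T * nm S ≤ X then 1 else 0) := by
      intro T hT
      have hT1 := one_le_nm T
      have hTY := mem_Sx.1 hT
      have hTX : nm T ≤ X := hTY.trans ((Nat.le_mul_of_pos_left Y (by omega)).trans s2)
      have hT0 : (0 : ℝ) < nm T := by exact_mod_cast (by omega : 0 < nm T)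
      have h6 : 1 ≤ X / nm T := (Nat.one_le_div_iff (by omega)).2 hTX
      have h7 : ((X : ℝ) / nm T) / 2 ≤ ((X / nm T : ℕ) : ℝ) := by
        have h8 : X < nm T * (X / nm T + 1) := Nat.lt_mul_div_succ X (by omega)
        have h9 : X ≤ nm T * (2 * (X / nm T)) := by
          refine h8.le.trans (Nat.mul_le_mul_left _ (by omega))
        have h10 : (X : ℝ) ≤ nm T * (2 * ((X / nm T : ℕ) : ℝ)) := by exact_mod_cast h9
        rw [div_div, div_le_iff₀ (by positivity)]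
        linarith
      have h8 := h _ h6
      have h9 : ((Sx ι (X / nm T)).card : ℝ) ≤
          ∑ S ∈ Sx ι X, (if nm T * nm S ≤ X then (1 : ℝ) else 0) := by
        rw [← sum_filter, sum_const, nsmul_eq_mul, mul_one]
        refine Nat.cast_le.2 (card_le_card fun S hS => ?_)
        have h10 := mem_Sx.1 hS
        rw [Nat.le_div_iff_mul_le (by omega)] at h10
        rw [mem_filter, mem_Sx]
        refine ⟨(Nat.le_mul_of_pos_right _ (by omega)).trans h10, ?_⟩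
        rw [mul_comm]
        exact h10
      rw [← mul_sum]
      calc c₀ / 2 * X * ((k : ℝ) ^ T.card / nm T)
          = (k : ℝ) ^ T.card * (c₀ * (((X : ℝ) / nm T) / 2)) := by ring
        _ ≤ (k : ℝ) ^ T.card * (c₀ * ((X / nm T : ℕ) : ℝ)) := by
            refine mul_le_mul_of_nonneg_left ?_ (by positivity)
            exact mul_le_mul_of_nonneg_left h7 h0.le
        _ ≤ (k : ℝ) ^ T.card * ∑ S ∈ Sx ι X, (if nm T * nm S ≤ X then (1 : ℝ) else 0) :=
            mul_le_mul_of_nonneg_left (h8.trans h9) (by positivity)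
    refine le_trans ?_ (sum_le_sum h5)
    rw [← mul_sum]
    have h6 := h1 Y s1
    have h7 : (1 + Real.log X) ^ k / 3 ^ k ≤ (1 + Real.log (Y : ℝ)) ^ k := by
      rw [← div_pow]
      exact pow_le_pow_left₀ (by positivity) s3 k
    calc c2 * (X * (1 + Real.log X) ^ k) = c₀ / 2 * X * (c1 * ((1 + Real.log X) ^ k / 3 ^ k)) := by
          rw [hc2]
          ring
      _ ≤ c₀ / 2 * X * (c1 * (1 + Real.log (Y : ℝ)) ^ k) := by
          refine mul_le_mul_of_nonneg_left ?_ (by positivity)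
          exact mul_le_mul_of_nonneg_left h7 hc1.le
      _ ≤ c₀ / 2 * X * ∑ T ∈ Sx ι Y, (k : ℝ) ^ T.card / nm T :=
          mul_le_mul_of_nonneg_left h6 (by positivity)
  -- the right side
  have e3 : ∀ A ∈ Sx ι Y, ∑ U ∈ Sx ι X, (k : ℝ) ^ A.card * ((k + 1 : ℕ) : ℝ) ^ U.card *
      (if nm A ^ 2 * nm U ≤ X then (1 : ℝ) else 0) =
      (k : ℝ) ^ A.card * Nh ι (k + 1) (X / nm A ^ 2) := by
    intro A _
    have hA1 : 0 < nm A ^ 2 := pow_pos (one_le_nm A) 2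
    unfold Nh
    rw [mul_sum]
    have h5 : (Sx ι X).filter (fun U => nm A ^ 2 * nm U ≤ X) = Sx ι (X / nm A ^ 2) := by
      ext U
      rw [mem_filter, mem_Sx, mem_Sx, Nat.le_div_iff_mul_le hA1, mul_comm (nm U)]
      exact ⟨fun h => h.2, fun h => ⟨(Nat.le_mul_of_pos_left _ hA1).trans h, h⟩⟩
    rw [← h5, sum_filter]
    refine sum_congr rfl fun U _ => ?_
    split_ifs
    · rw [mul_one]
    · rw [mul_zero]
  have e4 : ∑ A ∈ Sx ι Y, ∑ U ∈ Sx ι X, (k : ℝ) ^ A.card * ((k + 1 : ℕ) : ℝ) ^ U.card *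
      (if nm A ^ 2 * nm U ≤ X then (1 : ℝ) else 0) ≤
      A0 * Nh ι (k + 1) X + c2 / 2 * (X * (1 + Real.log X) ^ k) := by
    rw [sum_congr rfl e3, ← sum_filter_add_sum_filter_not (Sx ι Y) (fun A => z < nm A), add_comm]
    refine add_le_add ?_ ?_
    · calc ∑ A ∈ (Sx ι Y).filter (fun A => ¬ z < nm A),
            (k : ℝ) ^ A.card * Nh ι (k + 1) (X / nm A ^ 2)
          ≤ ∑ A ∈ (Sx ι Y).filter (fun A => ¬ z < nm A), (k : ℝ) ^ A.card * Nh ι (k + 1) X :=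
            sum_le_sum fun A _ => mul_le_mul_of_nonneg_left (Nh_mono _ (Nat.div_le_self _ _))
              (by positivity)
        _ ≤ ∑ A ∈ Sx ι z, (k : ℝ) ^ A.card * Nh ι (k + 1) X := by
            refine sum_le_sum_of_subset_of_nonneg (fun A hA => ?_) fun A _ _ =>
              mul_nonneg (by positivity) (Nh_nonneg _ _)
            exact mem_Sx.2 (not_lt.1 (mem_filter.1 hA).2)
        _ = A0 * Nh ι (k + 1) X := by rw [hA0, sum_mul]
    · have h5 : ∀ A ∈ (Sx ι Y).filter (fun A => z < nm A),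
          (k : ℝ) ^ A.card * Nh ι (k + 1) (X / nm A ^ 2) ≤
          K * (X * (1 + Real.log X) ^ k) * ((k : ℝ) ^ A.card / (nm A : ℝ) ^ 2) := by
        intro A hA
        have hAY := mem_Sx.1 (mem_filter.1 hA).1
        have hA1 := one_le_nm A
        have hA2 : 0 < nm A ^ 2 := pow_pos hA1 2
        have hA0' : (0 : ℝ) < nm A := by exact_mod_cast hA1
        have hAX : nm A ^ 2 ≤ X := by
          rw [pow_two]
          exact (Nat.mul_le_mul hAY hAY).trans s2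
        have h6 : 1 ≤ X / nm A ^ 2 := (Nat.one_le_div_iff hA2).2 hAX
        have h7 := hup _ h6
        have h8 : ((X / nm A ^ 2 : ℕ) : ℝ) ≤ X / (nm A : ℝ) ^ 2 := by
          have := @Nat.cast_div_le ℝ _ _ _ X (nm A ^ 2)
          push_cast at this
          exact this
        have h6r : (1 : ℝ) ≤ ((X / nm A ^ 2 : ℕ) : ℝ) := by exact_mod_cast h6
        have h9 : Real.log ((X / nm A ^ 2 : ℕ) : ℝ) ≤ Real.log X := by
          refine Real.log_le_log (by linarith) ?_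
          exact_mod_cast Nat.div_le_self X _
        have h10 : 0 ≤ Real.log ((X / nm A ^ 2 : ℕ) : ℝ) := Real.log_nonneg h6r
        calc (k : ℝ) ^ A.card * Nh ι (k + 1) (X / nm A ^ 2)
            ≤ (k : ℝ) ^ A.card * (K * (X / (nm A : ℝ) ^ 2 * (1 + Real.log X) ^ k)) := by
              refine mul_le_mul_of_nonneg_left (h7.trans ?_) (by positivity)
              refine mul_le_mul_of_nonneg_left ?_ hK.le
              exact mul_le_mul h8 (pow_le_pow_left₀ (by positivity) (by linarith) k)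
                (by positivity) (by positivity)
          _ = K * (X * (1 + Real.log X) ^ k) * ((k : ℝ) ^ A.card / (nm A : ℝ) ^ 2) := by ring
      refine (sum_le_sum h5).trans ?_
      rw [← mul_sum]
      have h6 := (h3 Y).2 z hz1
      calc K * (X * (1 + Real.log X) ^ k) *
            ∑ A ∈ (Sx ι Y).filter (fun A => z < nm A), (k : ℝ) ^ A.card / (nm A : ℝ) ^ 2
          ≤ K * (X * (1 + Real.log X) ^ k) * (E * (z : ℝ) ^ (-(1 / 2) : ℝ)) :=
            mul_le_mul_of_nonneg_left h6 (by positivity)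
        _ = (K * (E * (z : ℝ) ^ (-(1 / 2) : ℝ))) * (X * (1 + Real.log X) ^ k) := by ring
        _ ≤ c2 / 2 * (X * (1 + Real.log X) ^ k) := mul_le_mul_of_nonneg_right hz2 (by positivity)
  have e5 := e2.trans (e1.trans e4)
  have hN := Nh_nonneg (ι := ι) (k + 1) X
  rw [div_mul_eq_mul_div, div_le_iff₀ (by positivity)]
  linarith

end

end Pool.Agent.Lib.MP_1a91b9_ntMN
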