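import Pool.Agent.Lib.MP_1a91b9_ntMN.RU14

/-!
# MP_1a91b9_nt (all the multiquadratic fields): the classes have a positive proportion, all the fields
-/

set_option autoImplicit false

namespace Pool.Agent.Lib.MP_1a91b9_ntMN

open NumberField WeierstrassCurve
open Pool.Agent.Lib.MP_1a91b9_ntW.J (RkZ Cls2 ClsN Inv2 to_int iso_K4)
open Pool.Agent.Lib.MP_1a91b9_ntI (K3)
open Pool.Agent.Lib.MP_1a91b9_ntQ (K4)
open Pool.Agent.Lib.MP_1a91b9_ntY (CMK Pt2)
open Pool.Agent.Lib.MP_1a91b9_ntW (K8 lam8 lam8_sq)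
open Pool.Agent.Lib.MP_1a91b9_ntV (K7 t7)
open Pool.Agent.Lib.MP_1a91b9_ntB (exists_iso3)

noncomputable section

/-- The classes have a positive proportion. -/
def CPK (K : Type) [Field K] [NumberField K] : Prop :=
  ∀ (r : ℕ) (m : 𝓞 K) (u : Fin r → 𝓞 K), ClsI (Cls2 K) m u → ClsP (𝓞 K) r m u

theorem CPK.tr {K K' : Type} [Field K] [NumberField K] [Field K'] [NumberField K']
    (e : K' ≃+* K) (h : CPK K') : CPK K := fun r m u hmu =>
  ClsP.tr e (h r _ _ (hmu.tr e fun v hv => Cls2.tr e m v hv))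

/-- The classes have a positive proportion, for all the fields. -/
theorem cpk_of {K : Type} [Field K] [NumberField K] (H4 : CPK K4) (H8 : CPK K8) (H7 : CPK K7)
    (H3 : CPK K3) (hK : Module.finrank ℚ K = 2) {W : WeierstrassCurve K} (hW : CMK W) (hP : Pt2 W) :
    CPK K := by
  have hinv : Inv2 (fun _ : WeierstrassCurve K => CPK K) := ⟨fun _ _ h => h, fun _ _ _ _ h => h⟩
  refine hinv.star hK ?_ ?_ ?_ ?_ hW hP
  · rintro ⟨i, hi⟩ b hb
    obtain ⟨e⟩ := iso_K4 hK hi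
    exact H4.tr e
  · rintro ⟨s, hs⟩ e he
    have hl : (lam8 : K8) ^ 2 = -2 := by
      have h1 := congrArg (fun x : 𝓞 K8 => (x : K8)) lam8_sq
      push_cast at h1
      exact h1
    obtain ⟨f⟩ := Pool.Agent.Lib.MP_1a91b9_ntI.exists_iso_pq
      Pool.Agent.Lib.MP_1a91b9_ntW.T.finrank_K8 hK (t := 0) (n := 2) (by norm_num) (s := (lam8 : K8))
      (by rw [hl]; push_cast; ring) (s' := s) (by rw [hs]; push_cast; ring)
    exact H8.tr f
  · rintro ⟨s, hs⟩ e he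
    obtain ⟨f⟩ := exists_iso3 hK hs
    exact H3.tr f
  · rintro ⟨s, hs⟩ e he
    obtain ⟨θ, hθd⟩ : ∃ θ : K, θ = (1 + s) / 2 := ⟨_, rfl⟩
    have hsθ : s = 2 * θ - 1 := by
      rw [hθd, mul_div_cancel₀ _ (two_ne_zero' K)]
      ring
    have hθ : θ ^ 2 = θ - 2 := by
      have hs2 := hs
      rw [hsθ] at hs2
      refine mul_left_cancel₀ (show (4 : K) ≠ 0 by norm_num) ?_
      linear_combination hs2
    obtain ⟨f, -⟩ := Pool.Agent.Lib.MP_1a91b9_ntI.iso_th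
      (K := K7) (@Pool.Agent.Lib.MP_1a91b9_nuT.finrank_K Pool.Agent.Lib.MP_1a91b9_ntV.cd7) hK
      Pool.Agent.Lib.MP_1a91b9_ntV.J.t7_sq' hθ
    exact H7.tr f

end

end Pool.Agent.Lib.MP_1a91b9_ntMN
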