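import Pool.Agent.Lib.MP_1a91b9_ntDV.T5
import Pool.Agent.Lib.MP_1a91b9_ntMN.N0
import Pool.Agent.Lib.MP_1a91b9_ntW.J.Mono

/-!
# MP_1a91b9_nt (all the multiquadratic fields): the rules for the law
-/

set_option autoImplicit false
set_option linter.unusedSectionVars false

namespace Pool.Agent.Lib.MP_1a91b9_ntMN

open Finset NumberField
open Pool.Agent.Lib.MP_1a91b9_ntW.J (norm_mapRingEquiv squarefree_equiv)

noncomputable section

/-- The `r`-tuples of divisors of a squarefree element of norm at most `X`. -/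
def lcs (R : Type) [CommRing R] (r : ℕ) (X : ℝ) : Set (Fin r → R) :=
  {d | ∃ A : R, Squarefree A ∧ |Algebra.norm ℤ A| ≤ X ∧ ∀ i, d i ∣ A}

theorem lcs_sqf {R : Type} [CommRing R] {r : ℕ} {X : ℝ} {d : Fin r → R} (h : d ∈ lcs R r X)
    (i : Fin r) : Squarefree (d i) := by
  obtain ⟨A, h1, -, h3⟩ := h
  exact h1.squarefree_of_dvd (h3 i)

/-- **The exceptional tuples.** -/
def Sm (R : Type) [CommRing R] (r : ℕ) (m : R) (u : Fin r → R) : Prop :=
  ∀ (i : Fin r) (ε : ℝ), 0 < ε → ∀ᶠ X : ℝ in Filter.atTop,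
    ({d : Fin r → R | d ∈ lcs R r X ∧ d i = 1}.ncard : ℝ) ≤
      ε * ({d : Fin r → R | d ∈ lcs R r X ∧ ∀ k, m ∣ d k - u k}.ncard : ℝ)

/-- The fibers of the map which replaces the entry `i` by `1`. -/
theorem ncard_upd {R : Type} [CommRing R] {r : ℕ} (X : ℝ) (hfin : (lcs R r X).Finite)
    (Z : (Fin r → R) → Prop) (i : Fin r) (C : ℕ)
    (hZ : ∀ d : Fin r → R, {x : R | Squarefree x ∧ Z (Function.update d i x)}.Finite ∧
      {x : R | Squarefree x ∧ Z (Function.update d i x)}.ncard ≤ C) :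
    {d : Fin r → R | d ∈ lcs R r X ∧ Z d}.ncard ≤
      C * {d : Fin r → R | d ∈ lcs R r X ∧ d i = 1}.ncard := by
  classical
  have hf1 : {d : Fin r → R | d ∈ lcs R r X ∧ Z d}.Finite := hfin.subset fun d hd => hd.1
  have hf2 : {d : Fin r → R | d ∈ lcs R r X ∧ d i = 1}.Finite := hfin.subset fun d hd => hd.1
  rw [Set.ncard_eq_toFinset_card _ hf1, Set.ncard_eq_toFinset_card _ hf2]
  have h1 : hf1.toFinset.card ≤ C * (hf1.toFinset.image fun d => Function.update d i 1).card := by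
    refine card_le_mul_card_image hf1.toFinset C fun b _ => ?_
    obtain ⟨hf, hc⟩ := hZ b
    refine le_trans ?_ hc
    rw [Set.ncard_eq_toFinset_card _ hf]
    refine card_le_card_of_injOn (fun d => d i) (fun d hd => ?_) (fun d hd d' hd' hdd => ?_)
    · rw [mem_coe, mem_filter, Set.Finite.mem_toFinset] at hd
      obtain ⟨hd1, hd2⟩ := hd
      rw [mem_coe, Set.Finite.mem_toFinset]
      refine ⟨lcs_sqf hd1.1 i, ?_⟩
      rw [← hd2, Function.update_idem, Function.update_eq_self]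
      exact hd1.2
    · rw [mem_coe, mem_filter] at hd hd'
      have e1 : d = Function.update b i (d i) := by
        rw [← hd.2, Function.update_idem, Function.update_eq_self]
      have e2 : d' = Function.update b i (d' i) := by
        rw [← hd'.2, Function.update_idem, Function.update_eq_self]
      have e3 : d i = d' i := hdd
      rw [e1, e2, e3]
  refine h1.trans (Nat.mul_le_mul_left _ (card_le_card fun x hx => ?_))
  obtain ⟨d, hd, rfl⟩ := mem_image.1 hx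
  rw [Set.Finite.mem_toFinset] at hd ⊢
  obtain ⟨⟨A, hA1, hA2, hA3⟩, -⟩ := hd
  refine ⟨⟨A, hA1, hA2, fun k => ?_⟩, Function.update_self _ _ _⟩
  by_cases hk : k = i
  · rw [hk, Function.update_self]
    exact one_dvd _
  · rw [Function.update_of_ne hk]
    exact hA3 k

/-- **Removing the exceptional tuples.** -/
theorem CovGI.exc {R : Type} [CommRing R] {r : ℕ} {m : R} {u : Fin r → R}
    {P Q : (Fin r → R) → Prop} {c : ℝ} (hfin : ∀ X : ℝ, (lcs R r X).Finite)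
    (h : CovGI R r m u P c) {τ : Type} (s : Finset τ) (Z : τ → (Fin r → R) → Prop) (C : ℕ)
    (hPQ : ∀ d : Fin r → R, (∀ i, Squarefree (d i)) → P d → Q d ∨ ∃ a ∈ s, Z a d)
    (hZ : ∀ a ∈ s, ∃ i : Fin r, ∀ d : Fin r → R,
      {x : R | Squarefree x ∧ Z a (Function.update d i x)}.Finite ∧
      {x : R | Squarefree x ∧ Z a (Function.update d i x)}.ncard ≤ C)
    (hsm : s.Nonempty → Sm R r m u) : CovGI R r m u Q c := by
  classical
  intro ε hε
  obtain ⟨n, hn⟩ : ∃ n : ℝ, n = (s.card : ℝ) * C + 1 := ⟨_, rfl⟩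
  have hn0 : 0 < n := by
    rw [hn]
    positivity
  have hη : 0 < ε / (2 * n) := by positivity
  have hsm' : ∀ᶠ X : ℝ in Filter.atTop, ∀ a ∈ s,
      ({d : Fin r → R | d ∈ lcs R r X ∧ Z a d}.ncard : ℝ) ≤
        C * (ε / (2 * n) * ({d : Fin r → R | d ∈ lcs R r X ∧ ∀ k, m ∣ d k - u k}.ncard : ℝ)) := by
    rw [Filter.eventually_all_finset]
    intro a ha
    obtain ⟨i, hi⟩ := hZ a ha
    filter_upwards [hsm ⟨a, ha⟩ i (ε / (2 * n)) hη] with X hX
    have h1 := ncard_upd X (hfin X) (Z a) i C hi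
    have h2 : ({d : Fin r → R | d ∈ lcs R r X ∧ Z a d}.ncard : ℝ) ≤
        C * ({d : Fin r → R | d ∈ lcs R r X ∧ d i = 1}.ncard : ℝ) := by exact_mod_cast h1
    exact h2.trans (mul_le_mul_of_nonneg_left hX (Nat.cast_nonneg _))
  filter_upwards [h (ε / 2) (by positivity), hsm'] with X hX hX2
  obtain ⟨D, hD⟩ : ∃ D : Set (Fin r → R), D = {d | d ∈ lcs R r X ∧ ∀ k, m ∣ d k - u k} := ⟨_, rfl⟩
  have hDf : D.Finite := (hfin X).subset fun d hd => by
    rw [hD] at hd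
    exact hd.1
  have e1 : Nat.card {d : Fin r → R // (∃ A : R, Squarefree A ∧ |Algebra.norm ℤ A| ≤ X ∧
      ∀ i, d i ∣ A) ∧ ∀ i, m ∣ d i - u i} = D.ncard := by
    rw [hD]
    rfl
  have e2 : ∀ P : (Fin r → R) → Prop, Nat.card {d : Fin r → R // (∃ A : R, Squarefree A ∧
      |Algebra.norm ℤ A| ≤ X ∧ ∀ i, d i ∣ A) ∧ (∀ i, m ∣ d i - u i) ∧ P d} =
      {d | d ∈ D ∧ P d}.ncard := by
    intro P
    have e3 : {d | d ∈ D ∧ P d} = {d : Fin r → R | (∃ A : R, Squarefree A ∧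
      |Algebra.norm ℤ A| ≤ X ∧ ∀ i, d i ∣ A) ∧ (∀ i, m ∣ d i - u i) ∧ P d} := by
      rw [hD]
      ext d
      exact and_assoc
    rw [e3]
    rfl
  rw [e2, e1] at hX ⊢
  have hsub : {d | d ∈ D ∧ P d} ⊆ {d | d ∈ D ∧ Q d} ∪ ⋃ a ∈ s, {d | d ∈ lcs R r X ∧ Z a d} := by
    rintro d ⟨h1, h2⟩
    have h1' : d ∈ lcs R r X := by
      rw [hD] at h1
      exact h1.1
    rcases hPQ d (lcs_sqf h1') h2 with h3 | ⟨a, ha, h3⟩
    · exact Or.inl ⟨h1, h3⟩
    · exact Or.inr (Set.mem_biUnion (show a ∈ (s : Set τ) from ha) ⟨h1', h3⟩)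
  have hfU : (⋃ a ∈ s, {d | d ∈ lcs R r X ∧ Z a d}).Finite :=
    (hfin X).subset (Set.iUnion₂_subset fun a _ d hd => hd.1)
  have hle : {d | d ∈ D ∧ P d}.ncard ≤ {d | d ∈ D ∧ Q d}.ncard +
      ∑ a ∈ s, {d | d ∈ lcs R r X ∧ Z a d}.ncard := by
    refine (Set.ncard_le_ncard hsub ((hDf.subset fun d hd => hd.1).union hfU)).trans ?_
    refine (Set.ncard_union_le _ _).trans (Nat.add_le_add_left ?_ _)
    exact Finset.set_ncard_biUnion_le s _
  have hle' : ({d | d ∈ D ∧ P d}.ncard : ℝ) ≤ ({d | d ∈ D ∧ Q d}.ncard : ℝ) +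
      ∑ a ∈ s, ({d | d ∈ lcs R r X ∧ Z a d}.ncard : ℝ) := by exact_mod_cast hle
  have hD' : {d : Fin r → R | d ∈ lcs R r X ∧ ∀ k, m ∣ d k - u k} = D := hD.symm
  rw [hD'] at hX2
  have hsum : ∑ a ∈ s, ({d | d ∈ lcs R r X ∧ Z a d}.ncard : ℝ) ≤ ε / 2 * (D.ncard : ℝ) := by
    refine (sum_le_sum hX2).trans ?_
    rw [sum_const, nsmul_eq_mul]
    have h1 : (s.card : ℝ) * (C * (ε / (2 * n) * (D.ncard : ℝ))) =
        ((s.card : ℝ) * C) / n * (ε / 2 * (D.ncard : ℝ)) := by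
      field_simp
    rw [h1]
    have h2 : ((s.card : ℝ) * C) / n ≤ 1 := by
      rw [div_le_one hn0, hn]
      linarith
    have h3 : 0 ≤ ε / 2 * (D.ncard : ℝ) := by positivity
    nlinarith
  by_cases hD0 : D.ncard = 0
  · rw [hD0] at hX ⊢
    simp only [Nat.cast_zero, div_zero] at hX ⊢
    linarith
  have hDp : (0 : ℝ) < D.ncard := by exact_mod_cast Nat.pos_of_ne_zero hD0
  rw [le_div_iff₀ hDp] at hX ⊢
  have h4 : (c - ε) * (D.ncard : ℝ) = (c - ε / 2) * (D.ncard : ℝ) - ε / 2 * (D.ncard : ℝ) := by ring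
  rw [h4]
  linarith

theorem CovGI.mono {R : Type} [CommRing R] {r : ℕ} {m : R} {u : Fin r → R}
    {P Q : (Fin r → R) → Prop} {c : ℝ} (hfin : ∀ X : ℝ, (lcs R r X).Finite)
    (h : CovGI R r m u P c) (hPQ : ∀ d : Fin r → R, (∀ i, Squarefree (d i)) → P d → Q d) :
    CovGI R r m u Q c :=
  CovGI.exc hfin h (∅ : Finset Unit) (fun _ _ => False) 0 (fun d hd hp => Or.inl (hPQ d hd hp))
    (fun a ha => absurd ha (notMem_empty a)) (fun h => absurd h not_nonempty_empty)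

theorem CovGI.anti {R : Type} [CommRing R] {r : ℕ} {m : R} {u : Fin r → R}
    {P : (Fin r → R) → Prop} {c c' : ℝ} (h : CovGI R r m u P c) (hc : c' ≤ c) :
    CovGI R r m u P c' := by
  intro ε hε
  filter_upwards [h ε hε] with X hX
  linarith

/-- The finiteness over a field with finitely many units. -/
theorem lcs_finite {K : Type} [Field K] [NumberField K] [Finite (𝓞 K)ˣ] (r : ℕ) (X : ℝ) :
    (lcs (𝓞 K) r X).Finite := by
  have h1 : {x : 𝓞 K | x ≠ 0 ∧ |Algebra.norm ℤ x| ≤ X}.Finite :=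
    Pool.Agent.Lib.MP_1a91b9_ntW.J.finite_norm_le (K := K) X
  refine (Set.Finite.pi fun _ : Fin r => h1).subset ?_
  rintro d ⟨A, hA1, hA2, hA3⟩
  rw [Set.mem_pi]
  intro k _
  have hA0 : A ≠ 0 := hA1.ne_zero
  have hk0 : d k ≠ 0 := fun h => hA0 (by
    have h2 := hA3 k
    rw [h] at h2
    exact zero_dvd_iff.1 h2)
  refine ⟨hk0, ?_⟩
  obtain ⟨e, he⟩ := hA3 k
  have hnA : Algebra.norm ℤ A = Algebra.norm ℤ (d k) * Algebra.norm ℤ e := by
    rw [he, map_mul]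
  have hne : Algebra.norm ℤ e ≠ 0 := by
    intro h
    rw [h, mul_zero] at hnA
    exact hA0 (Algebra.norm_eq_zero_iff.1 hnA)
  have h3 : |Algebra.norm ℤ (d k)| ≤ |Algebra.norm ℤ A| := by
    rw [hnA, abs_mul]
    exact le_mul_of_one_le_right (abs_nonneg _) (Int.one_le_abs hne)
  have h4 : ((|Algebra.norm ℤ (d k)| : ℤ) : ℝ) ≤ ((|Algebra.norm ℤ A| : ℤ) : ℝ) := by
    exact_mod_cast h3
  exact h4.trans hA2

end

end Pool.Agent.Lib.MP_1a91b9_ntMN
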