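import Pool.Agent.Lib.MP_1a91b9_ntMN.N3
import Pool.Agent.Lib.MP_1a91b9_ntMN.N4
import Pool.Agent.Lib.MP_1a91b9_ntMN.NBf

/-!
# MP_1a91b9_nt (all the multiquadratic fields): the classes have a positive proportion
-/

set_option autoImplicit false
set_option linter.unusedSectionVars false

namespace Pool.Agent.Lib.MP_1a91b9_ntMN

open Finset
open Pool.Agent.Lib.MP_1a91b9_ntH (PS nm Sx mem_Sx nm_union one_le_nm nm_empty)
open Pool.Agent.Lib.MP_1a91b9_ntDV (Rep)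

noncomputable section

/-- Doubling. -/
def Dbl (ι : Type) [DecidableEq ι] [PS ι] (r : ℕ) : Prop :=
  ∀ b : ℕ, 1 ≤ b → ∃ C : ℝ, 0 < C ∧ ∃ X₀ : ℕ, ∀ X : ℕ, X₀ ≤ X → NNc ι r X ≤ C * NNc ι r (X / b)

/-- The class has a positive proportion. -/
def ClsP (R : Type) [CommRing R] (r : ℕ) (m : R) (u : Fin r → R) : Prop :=
  ∃ κ : ℝ, 0 < κ ∧ ∀ᶠ X : ℝ in Filter.atTop,
    κ * ({d : Fin r → R | d ∈ lcs R r X}.ncard : ℝ) ≤
      ({d : Fin r → R | d ∈ lcs R r X ∧ ∀ k, m ∣ d k - u k}.ncard : ℝ)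

theorem cov_zero {ι : Type} [DecidableEq ι] (S : Finset ι) :
    (cov 0 S).card = if S = ∅ then 1 else 0 := by
  have h0 : ∀ T : Fin 0 → Finset ι, univ.biUnion T = ∅ := fun T => by
    ext x
    simp
  split_ifs with h
  · rw [card_eq_one]
    refine ⟨fun i => i.elim0, ?_⟩
    ext T
    rw [mem_cov, mem_singleton, h, h0]
    simp only [true_iff]
    exact funext fun i => i.elim0
  · rw [card_eq_zero, eq_empty_iff_forall_notMem]
    intro T hT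
    rw [mem_cov, h0] at hT
    exact h hT.symm

theorem NNc_zero {ι : Type} [DecidableEq ι] [PS ι] {X : ℕ} (h : 1 ≤ X) : NNc ι 0 X = 1 := by
  unfold NNc
  rw [sum_eq_single (∅ : Finset ι)]
  · rw [cov_zero, if_pos rfl, Nat.cast_one]
  · intro S _ hS
    rw [cov_zero, if_neg hS, Nat.cast_zero]
  · intro h1
    exfalso
    apply h1
    rw [mem_Sx, nm_empty]
    exact h

theorem NB.dbl {ι : Type} [DecidableEq ι] [PS ι] (h : NB ι) (r : ℕ) : Dbl ι r := by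
  intro b hb
  rcases Nat.eq_zero_or_pos r with rfl | hr
  · refine ⟨1, one_pos, b, fun X hX => ?_⟩
    rw [NNc_zero (hb.trans hX), NNc_zero ((Nat.le_div_iff_mul_le hb).2 (by rwa [one_mul])), one_mul]
  obtain ⟨c, C, hc, X₁, h1'⟩ := h r hr
  have h1 : ∀ X : ℕ, X₁ ≤ X → c * X * Real.log X ^ (2 ^ r - 2) ≤ NNc ι r X ∧
      NNc ι r X ≤ C * X * Real.log X ^ (2 ^ r - 2) := h1'
  obtain ⟨C', hC'⟩ : ∃ C' : ℝ, C' = max C 1 := ⟨_, rfl⟩
  have hC1 : C ≤ C' := by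
    rw [hC']
    exact le_max_left _ _
  have hC0 : 0 < C' := by
    rw [hC']
    exact lt_of_lt_of_le one_pos (le_max_right _ _)
  have hbr : (1 : ℝ) ≤ b := by exact_mod_cast hb
  obtain ⟨e, he⟩ : ∃ e : ℕ, e = 2 ^ r - 2 := ⟨_, rfl⟩
  refine ⟨C' / c * (2 * b * 2 ^ e), by positivity, (X₁ + 4 * b ^ 2 + 4) * b, fun X hX => ?_⟩
  have hXb : X₁ + 4 * b ^ 2 + 4 ≤ X / b := (Nat.le_div_iff_mul_le hb).2 hX
  have hX1 : X₁ ≤ X := by
    have h2 : X / b ≤ X := Nat.div_le_self _ _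
    omega
  obtain ⟨-, h3⟩ := h1 X hX1
  obtain ⟨h4, -⟩ := h1 (X / b) (by omega)
  rw [← he] at h3 h4
  obtain ⟨Y, hY⟩ : ∃ Y : ℕ, Y = X / b := ⟨_, rfl⟩
  rw [← hY] at h4 hXb ⊢
  have hXY : X < (Y + 1) * b := by
    rw [hY]
    have h5 := Nat.lt_div_mul_add hb (a := X)
    calc X < X / b * b + b := h5
      _ = (X / b + 1) * b := by ring
  have hYr : ((4 * b ^ 2 + 4 : ℕ) : ℝ) ≤ (Y : ℝ) := Nat.cast_le.2 (by omega)
  push_cast at hYr
  have hY1 : (1 : ℝ) ≤ Y := by nlinarith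
  have hXr : (X : ℝ) ≤ 2 * b * Y := by
    have h5 : (X : ℝ) ≤ ((Y + 1) * b : ℕ) := Nat.cast_le.2 hXY.le
    push_cast at h5
    nlinarith
  have hX0 : (1 : ℝ) ≤ X := by
    have h5 : Y ≤ X := by
      rw [hY]
      exact Nat.div_le_self _ _
    exact hY1.trans (Nat.cast_le.2 h5)
  have hlog : Real.log X ≤ 2 * Real.log Y := by
    have h5 : (X : ℝ) ≤ (Y : ℝ) ^ 2 := by nlinarith
    have h6 := Real.log_le_log (by linarith) h5
    rwa [Real.log_pow, Nat.cast_ofNat] at h6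
  have hlX : 0 ≤ Real.log X := Real.log_nonneg hX0
  have hlY : 0 ≤ Real.log Y := Real.log_nonneg hY1
  have h7 : Real.log X ^ e ≤ 2 ^ e * Real.log Y ^ e := by
    rw [← mul_pow]
    exact pow_le_pow_left₀ hlX hlog e
  calc NNc ι r X ≤ C * X * Real.log X ^ e := h3
    _ ≤ C' * (2 * b * Y) * (2 ^ e * Real.log Y ^ e) := by
        have h8 : C * X ≤ C' * (2 * b * Y) := by
          calc C * X ≤ C' * X := mul_le_mul_of_nonneg_right hC1 (by linarith)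
            _ ≤ C' * (2 * b * Y) := mul_le_mul_of_nonneg_left hXr hC0.le
        calc C * X * Real.log X ^ e ≤ C' * (2 * b * Y) * Real.log X ^ e :=
              mul_le_mul_of_nonneg_right h8 (by positivity)
          _ ≤ _ := mul_le_mul_of_nonneg_left h7 (by positivity)
    _ = C' / c * (2 * b * 2 ^ e) * (c * Y * Real.log Y ^ e) := by
        field_simp
    _ ≤ C' / c * (2 * b * 2 ^ e) * NNc ι r Y :=
        mul_le_mul_of_nonneg_left h4 (by positivity)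

variable {R : Type} [CommRing R] [IsDomain R] {ι : Type} [DecidableEq ι] [PS ι] {I : Type}
  {q : ι → R} {μ : I → R} [Fintype I] {G : Type} [AddCommGroup G] [Fintype G] {a : ι → G}

open Classical in
/-- **The classes have a positive proportion.** -/
theorem clsP_of (h : Rep q μ) {r : ℕ} (hpos : CovPos a r) (hdbl : Dbl ι r) {m : R} {u : Fin r → R}
    (W : I → Fin r → G → Prop)
    (hW : ∀ i k (T : Finset ι), m ∣ μ i * ∏ x ∈ T, q x - u k ↔ W i k (∑ x ∈ T, a x))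
    (hne : ∃ j : Fin r → I, (Wj μ j).Nonempty ∧ ∀ k, ∃ g, W (j k) k g) : ClsP R r m u := by
  obtain ⟨j₀, hj₀, hg₀⟩ := hne
  choose g₀ hg₀ using hg₀
  have hp₀ : (j₀, g₀) ∈ Jf μ W := mem_Jf.2 ⟨hj₀, hg₀⟩
  have hb₀ : 0 < bj μ j₀ := bj_pos h hj₀
  obtain ⟨κ, hκ, X₁, hX₁⟩ := hpos g₀
  obtain ⟨C, hC, X₂, hX₂⟩ := hdbl (bj μ j₀) hb₀
  obtain ⟨n, hn⟩ : ∃ n : ℝ, n = (Fintype.card (Fin r → I) : ℝ) + 1 := ⟨_, rfl⟩
  have hn0 : 0 < n := by
    rw [hn]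
    positivity
  refine ⟨κ / (C * n), by positivity, ?_⟩
  filter_upwards [tendsto_nat_floor_atTop.eventually_ge_atTop ((X₁ + 1) * bj μ j₀ + X₂),
    Filter.eventually_ge_atTop (0 : ℝ)] with X hX hX0
  have hc1 := card_lcm h W hW X hX0 fun _ => True
  simp only [and_true] at hc1
  have e1 : {d : Fin r → R | d ∈ lcs R r X ∧ ∀ k, m ∣ d k - u k}.ncard =
      Nat.card {d : Fin r → R // (∃ A : R, Squarefree A ∧ ((|Algebra.norm ℤ A| : ℤ) : ℝ) ≤ X ∧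
        ∀ k, d k ∣ A) ∧ ∀ k, m ∣ d k - u k} := rfl
  have hc2 := card_lc h (r := r) X hX0 fun _ => True
  simp only [and_true, filter_true] at hc2
  have e2 : {d : Fin r → R | d ∈ lcs R r X}.ncard =
      Nat.card {d : Fin r → R // ∃ A : R, Squarefree A ∧ ((|Algebra.norm ℤ A| : ℤ) : ℝ) ≤ X ∧
        ∀ k, d k ∣ A} := rfl
  rw [e1, hc1, e2, hc2]
  push_cast
  have h1 : ∑ j ∈ (univ : Finset (Fin r → I)).filter (fun j => (Wj μ j).Nonempty),
      ∑ S ∈ Sx ι ⌊X / bj μ j⌋₊, ((cov r S).card : ℝ) ≤ n * NNc ι r ⌊X⌋₊ := by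
    have h2 : ∀ j ∈ (univ : Finset (Fin r → I)).filter (fun j => (Wj μ j).Nonempty),
        ∑ S ∈ Sx ι ⌊X / bj μ j⌋₊, ((cov r S).card : ℝ) ≤ NNc ι r ⌊X⌋₊ := by
      intro j hj
      refine NNc_mono (Nat.floor_le_floor ?_)
      have h3 : (1 : ℝ) ≤ (bj μ j : ℝ) := by exact_mod_cast bj_pos h (mem_filter.1 hj).2
      exact div_le_self hX0 h3
    refine (sum_le_sum h2).trans ?_
    rw [sum_const, nsmul_eq_mul]
    have h4 : 0 ≤ NNc ι r ⌊X⌋₊ := by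
      unfold NNc
      exact sum_nonneg fun S _ => Nat.cast_nonneg _
    refine mul_le_mul_of_nonneg_right ?_ h4
    rw [hn]
    have h5 : (((univ : Finset (Fin r → I)).filter (fun j => (Wj μ j).Nonempty)).card : ℝ) ≤
        (Fintype.card (Fin r → I) : ℝ) := by
      exact_mod_cast card_le_univ _
    linarith
  have hfl : ⌊X / (bj μ j₀ : ℝ)⌋₊ = ⌊X⌋₊ / bj μ j₀ := Nat.floor_div_natCast X (bj μ j₀)
  have h6 : NNc ι r ⌊X⌋₊ ≤ C * NNc ι r (⌊X⌋₊ / bj μ j₀) := hX₂ _ (by omega)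
  have h7 : κ * NNc ι r (⌊X⌋₊ / bj μ j₀) ≤
      ∑ S ∈ Sx ι (⌊X⌋₊ / bj μ j₀), (((cov r S).filter (Cl a g₀)).card : ℝ) := by
    refine hX₁ _ ?_
    rw [Nat.le_div_iff_mul_le hb₀]
    refine le_trans ?_ hX
    nlinarith
  have h8 : ∑ S ∈ Sx ι (⌊X⌋₊ / bj μ j₀), (((cov r S).filter (Cl a g₀)).card : ℝ) ≤
      ∑ p ∈ Jf μ W, ∑ S ∈ Sx ι ⌊X / bj μ p.1⌋₊, (((cov r S).filter (Cl a p.2)).card : ℝ) := by
    obtain ⟨F, hF⟩ : ∃ F : (Fin r → I) × (Fin r → G) → ℝ, ∀ p, F p =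
        ∑ S ∈ Sx ι ⌊X / bj μ p.1⌋₊, (((cov r S).filter (Cl a p.2)).card : ℝ) := ⟨_, fun _ => rfl⟩
    have h9 : F (j₀, g₀) ≤ ∑ p ∈ Jf μ W, F p :=
      single_le_sum (fun p _ => by
        rw [hF]
        exact sum_nonneg fun S _ => Nat.cast_nonneg _) hp₀
    rw [hF, hfl] at h9
    refine h9.trans (le_of_eq ?_)
    exact sum_congr rfl fun p _ => hF p
  calc κ / (C * n) * ∑ j ∈ (univ : Finset (Fin r → I)).filter (fun j => (Wj μ j).Nonempty),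
        ∑ S ∈ Sx ι ⌊X / bj μ j⌋₊, ((cov r S).card : ℝ)
      ≤ κ / (C * n) * (n * (C * NNc ι r (⌊X⌋₊ / bj μ j₀))) :=
        mul_le_mul_of_nonneg_left (h1.trans (mul_le_mul_of_nonneg_left h6 hn0.le)) (by positivity)
    _ = κ * NNc ι r (⌊X⌋₊ / bj μ j₀) := by
        field_simp
    _ ≤ _ := h7.trans h8

end

end Pool.Agent.Lib.MP_1a91b9_ntMN
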