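import Pool.Agent.Lib.MP_1a91b9_ntDV.T6
import Pool.Agent.Lib.MP_1a91b9_ntMN.N5

/-!
# MP_1a91b9_nt (all the multiquadratic fields): the law for the tuples in the generic rings
-/

set_option autoImplicit false
set_option linter.unusedSectionVars false

namespace Pool.Agent.Lib.MP_1a91b9_ntMN

open Finset
open Pool.Agent.Lib.MP_1a91b9_ntH (PS nm Sx mem_Sx)
open Pool.Agent.Lib.MP_1a91b9_ntR (Qi Pri Pg DD sys GR gc cq gc_DD gc_eq_iff in_DD Bad mu pb z2v)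
open Pool.Agent.Lib.MP_1a91b9_ntS.G (FamI)
open Pool.Agent.Lib.MP_1a91b9_ntDV (famI_rep bad_famI)

noncomputable section

variable {R : Type} [CommRing R] [IsDomain R] [IsPrincipalIdealRing R] [Qi R] [Pri R] {Q : R}

/-- The classes of the primary factors of the elements of the class of `u k`. -/
def WR {I : Type} (hQ : (sys R).Mod Q) (μ : I → R) (m : R) {r : ℕ} (u : Fin r → R) :
    I → Fin r → GR hQ → Prop :=
  fun i k g => ∃ (y : R) (hy : Pri.In y), gc hQ y hy = g ∧ m ∣ μ i * y - u k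

theorem hWR {I : Type} (hQ : (sys R).Mod Q) (μ : I → R) {m : R} (hm : m ∣ Q) {r : ℕ}
    (u : Fin r → R) (i : I) (k : Fin r) (T : Finset (Pg R)) :
    m ∣ μ i * ∏ x ∈ T, x.1 - u k ↔ WR hQ μ m u i k (∑ x ∈ T, cq hQ x) := by
  constructor
  · intro h
    exact ⟨DD T, in_DD T, gc_DD hQ T, h⟩
  · rintro ⟨y, hy, h1, h2⟩
    rw [← gc_DD, gc_eq_iff] at h1
    have h3 : m ∣ μ i * (y - DD T) := (hm.trans h1).mul_left _
    have e : μ i * ∏ x ∈ T, x.1 - u k = (μ i * y - u k) - μ i * (y - DD T) := by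
      unfold DD
      ring
    rw [e]
    exact dvd_sub h2 h3

theorem hneR {I : Type} [Fintype I] (hQ : (sys R).Mod Q) {μ : I → R} {m : R} {r : ℕ}
    {u : Fin r → R} (hne : ∀ k, ∃ (i : I) (y : R), Pri.In y ∧ m ∣ μ i * y - u k)
    (htop : ∃ i₀ : I, ∀ i, μ i ∣ μ i₀) :
    ∃ j : Fin r → I, (Wj μ j).Nonempty ∧ ∀ k, ∃ g, WR hQ μ m u (j k) k g := by
  choose j y hy h using hne
  obtain ⟨i₀, hi₀⟩ := htop
  exact ⟨j, ⟨i₀, mem_Wj.2 fun k => hi₀ _⟩, fun k => ⟨gc hQ (y k) (hy k), y k, hy k, rfl, h k⟩⟩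

variable {I : Type} [Fintype I] [DecidableEq I] {μ : I → R}

/-- **The law for the tuples of elements of a generic ring.** -/
theorem lawC_fam (h : FamI μ) (hQ : (sys R).Mod Q) (hQ0 : Q ≠ 0) {m : R} {r : ℕ} {u : Fin r → R}
    (hm : m ∣ Q) (hne : ∀ k, ∃ (i : I) (y : R), Pri.In y ∧ m ∣ μ i * y - u k)
    (htop : ∃ i₀ : I, ∀ i, μ i ∣ μ i₀) (hpos : CovPos (cq hQ) r)
    (P : (Fin r → R) → Prop) (c : ℝ)
    (hP : ∀ j : Fin r → I, CovLI (cq hQ) r ∅ c fun T => P (fun k => μ (j k) * DD (T k))) :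
    CovGI R r m u P c := by
  have hf := Pool.Agent.Lib.MP_1a91b9_ntR.finite_GR hQ hQ0
  let _ : Fintype (GR hQ) := Fintype.ofFinite _
  exact lawC (famI_rep h) hpos (WR hQ μ m u) (hWR hQ μ hm u) (hneR hQ hne htop) P c hP

/-- The classes have a positive proportion. -/
theorem clsP_fam (h : FamI μ) (hQ : (sys R).Mod Q) (hQ0 : Q ≠ 0) {m : R} {r : ℕ} {u : Fin r → R}
    (hm : m ∣ Q) (hne : ∀ k, ∃ (i : I) (y : R), Pri.In y ∧ m ∣ μ i * y - u k)
    (htop : ∃ i₀ : I, ∀ i, μ i ∣ μ i₀) (hpos : CovPos (cq hQ) r) : ClsP R r m u := by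
  have hf := Pool.Agent.Lib.MP_1a91b9_ntR.finite_GR hQ hQ0
  let _ : Fintype (GR hQ) := Fintype.ofFinite _
  exact clsP_of (famI_rep h) hpos ((nbR R).dbl r) (WR hQ μ m u) (hWR hQ μ hm u)
    (hneR hQ hne htop)

omit [IsDomain R] [IsPrincipalIdealRing R] [Qi R] [Pri R] in
/-- All the multipliers divide the product of the bad primes. -/
theorem mu_top {A : Type} [Fintype A] (π : A → R) :
    ∃ i₀ : ZMod 2 × (A → ZMod 2), ∀ i, mu π i ∣ mu π i₀ := by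
  refine ⟨(0, fun _ => 1), fun i => ?_⟩
  unfold mu pb
  have h1 : ((0 : ZMod 2).val) = 0 := rfl
  rw [h1, pow_zero, one_mul]
  have h2 : IsUnit ((-1 : R) ^ i.1.val) := (isUnit_one.neg).pow _
  rw [h2.mul_left_dvd]
  refine prod_dvd_prod_of_dvd _ _ fun a _ => ?_
  have h3 : ((1 : ZMod 2).val) = 1 := rfl
  show π a ^ (i.2 a).val ∣ π a ^ (1 : ZMod 2).val
  rcases z2v (i.2 a) with ⟨-, h⟩ | ⟨-, h⟩ <;> rw [h, h3]
  exact pow_dvd_pow _ zero_le_one

end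

end Pool.Agent.Lib.MP_1a91b9_ntMN
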