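import Pool.Agent.Lib.MP_1a91b9_ntMN.N7
import Pool.Agent.Lib.MP_1a91b9_ntMN.RU18
import Pool.Agent.Lib.MP_1a91b9_ntMN.UT3
import Pool.Agent.Lib.MP_1a91b9_ntMN.UT4
import Pool.Agent.Lib.MP_1a91b9_ntMN.UT6

/-!
# MP_1a91b9_nt (all the multiquadratic fields): the classes have a positive proportion, the standard fields
-/

set_option autoImplicit false
set_option linter.unusedSectionVars false

namespace Pool.Agent.Lib.MP_1a91b9_ntMN

open NumberField Finset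
open Pool.Agent.Lib.MP_1a91b9_ntR (cq)
open Pool.Agent.Lib.MP_1a91b9_ntDV (bad_famI)
open Pool.Agent.Lib.MP_1a91b9_ntW.J (Cls2 cls8)

noncomputable section

section Seven

open Pool.Agent.Lib.MP_1a91b9_nuT Pool.Agent.Lib.MP_1a91b9_ntV

variable [CD] [hv : V7]

theorem cp7 (hC : ∀ m r : ℕ, CovPos (cq (mod7 m)) r) {r n : ℕ} {M : 𝓞 K} {u : Fin r → 𝓞 K}
    (hM : M ∣ 2 ^ n) (hu : ∀ i, ∀ p : 𝓞 K, Prime p → ¬ (p ^ 2 ∣ M ∧ p ^ 2 ∣ u i)) :
    ClsP (𝓞 K) r M u :=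
  clsP_fam (bad_famI bad7) (mod7 n) (two_pow_ne7 n) (hM.trans (pow_dvd_pow _ (by omega)))
    (fun k => bad7.exists_cls fun a => hu k _ (bad7.prime a)) (mu_top _) (hC n r)

end Seven

section

open Pool.Agent.Lib.MP_1a91b9_ntV
open Pool.Agent.Lib.MP_1a91b9_nuT (CD)

attribute [local instance 5000] Pool.Agent.Lib.MP_1a91b9_ntV.cd7

theorem cpk7 (hC : ∀ m r : ℕ, CovPos (cq (mod7 m)) r) : CPK K7 := fun r m u hmu => by
  obtain ⟨⟨n, hn⟩, h⟩ := hmu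
  exact cp7 hC hn fun i => (h i).2

end

section

open Pool.Agent.Lib.MP_1a91b9_ntW

attribute [local instance 5000] Pool.Agent.Lib.MP_1a91b9_ntW.cd8

theorem cpk8 (hC : ∀ m r : ℕ, CovPos (cq (mod8 m)) r) : CPK K8 := fun r m u hmu => by
  obtain ⟨⟨n, hn⟩, h⟩ := hmu
  have hm' : m ∣ (2 : 𝓞 K8) ^ (n + 3) := hn.trans (pow_dvd_pow _ (by omega))
  exact clsP_fam (bad_famI bad8) (mod8 n) (two_pow_ne n) hm'
    (fun k => bad8.exists_cls fun x => cls_two hn (cls8 (h k)) _ (bad8.prime x)) (mu_top _) (hC n r)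

end

section

open Pool.Agent.Lib.MP_1a91b9_ntN.G
open Pool.Agent.Lib.MP_1a91b9_ntI (K3)

theorem cpk3 (hC : ∀ m r : ℕ, CovPos (cl3 m) r) : CPK K3 := fun r m u hmu => by
  obtain ⟨⟨n, hn⟩, h⟩ := hmu
  exact clsP3 fm3 top3 hn (fun i => not_four (h i).2) (hC n r)

end

end

end Pool.Agent.Lib.MP_1a91b9_ntMN
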