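import Pool.Agent.Lib.MP_1a91b9_ntN.G.FinG
import Pool.Agent.Lib.MP_1a91b9_ntDV.T10
import Pool.Agent.Lib.MP_1a91b9_ntMN.N6

/-!
# MP_1a91b9_nt (all the multiquadratic fields): the law for the tuples over `ℚ(√-3)`
-/

set_option autoImplicit false
set_option linter.unusedSectionVars false

namespace Pool.Agent.Lib.MP_1a91b9_ntMN

open NumberField Finset Pool.Agent.Lib.MP_1a91b9_ntT Pool.Agent.Lib.MP_1a91b9_ntH
  Pool.Agent.Lib.MP_1a91b9_ntH2 Pool.Agent.Lib.MP_1a91b9_ntE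
open Pool.Agent.Lib.MP_1a91b9_ntN.G (Fm3 cl3)
open Pool.Agent.Lib.MP_1a91b9_ntS.G (FamI mod3 Q3 Q3_ne mu3 I3)
open Pool.Agent.Lib.MP_1a91b9_ntR (GR finite_GR)
open Pool.Agent.Lib.MP_1a91b9_ntDV (rep3)

noncomputable section

theorem top3 : ∃ i₀ : I3, ∀ i, mu3 i ∣ mu3 i₀ := by
  refine ⟨(0, 0, 1, 1), fun i => ?_⟩
  obtain ⟨j, e, c, b⟩ := i
  have hw : IsUnit (wO ^ (j : ℕ)) := by
    refine IsUnit.pow _ (IsUnit.of_mul_eq_one (wO ^ 2) ?_)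
    have h1 := wO_cube
    rw [← h1]
    ring
  have h1 : mu3 (j, e, c, b) = wO ^ (j : ℕ) * (if e = 0 then 1 else -1) *
    (if c = 0 then 1 else s3) * (if b = 0 then 1 else 2) := rfl
  have h2 : mu3 (0, 0, 1, 1) = s3 * 2 := by
    show wO ^ 0 * 1 * s3 * 2 = s3 * 2
    ring
  rw [h1, h2]
  refine mul_dvd_mul ?_ ?_
  · have h3 : IsUnit (wO ^ (j : ℕ) * (if e = 0 then (1 : 𝓞 K) else -1)) := by
      refine hw.mul ?_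
      split_ifs
      · exact isUnit_one
      · exact isUnit_one.neg
    rw [h3.mul_left_dvd]
    split_ifs
    · exact one_dvd _
    · exact dvd_rfl
  · split_ifs
    · exact one_dvd _
    · exact dvd_rfl

section

variable {I : Type} [Fintype I] [DecidableEq I] {μ : I → 𝓞 K} {b : I → Bool} {jj : I → ℕ}
  {cc : I → F4}

theorem dvd_Q3 {m : 𝓞 K} {n : ℕ} (hm : m ∣ 2 ^ n) : m ∣ Q3 n :=
  hm.trans ⟨2 ^ 2 * s3, by unfold Q3; ring⟩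

theorem W3_iff (n : ℕ) {m : 𝓞 K} (hm : m ∣ 2 ^ n) {r : ℕ} (u : Fin r → 𝓞 K) (i : I) (k : Fin r)
    (T : Finset Pq) : m ∣ μ i * ∏ x ∈ T, x.1 - u k ↔
      WR (mod3 n) μ m u i k (∑ x ∈ T, cl3 n x) :=
  hWR (mod3 n) μ (dvd_Q3 hm) u i k T

theorem ne3 (H : Fm3 μ b jj cc) {m : 𝓞 K} {n r : ℕ} {u : Fin r → 𝓞 K} (hm : m ∣ 2 ^ n)
    (hu : ∀ k, ¬ (4 ∣ m ∧ 4 ∣ u k)) (htop : ∃ i₀ : I, ∀ i, μ i ∣ μ i₀) :
    ∃ j : Fin r → I, (Wj μ j).Nonempty ∧ ∀ k, ∃ g, WR (mod3 n) μ m u (j k) k g := by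
  refine hneR (mod3 n) (fun k => ?_) htop
  obtain ⟨i, y, h1, h2⟩ := H.cls hm (hu k)
  exact ⟨i, y, h1, h2⟩

/-- **The law for the tuples over `ℚ(√-3)`.** -/
theorem lawC3 (H : Fm3 μ b jj cc) (htop : ∃ i₀ : I, ∀ i, μ i ∣ μ i₀) {m : 𝓞 K} {n r : ℕ}
    {u : Fin r → 𝓞 K} (hm : m ∣ 2 ^ n) (hu : ∀ k, ¬ (4 ∣ m ∧ 4 ∣ u k)) (hpos : CovPos (cl3 n) r)
    (P : (Fin r → 𝓞 K) → Prop) (c : ℝ)
    (hP : ∀ j : Fin r → I, CovLI (cl3 n) r ∅ c fun T => P (fun k => μ (j k) * ∏ x ∈ T k, x.1)) :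
    CovGI (𝓞 K) r m u P c := by
  have hf : Finite (GR (mod3 n)) := finite_GR (mod3 n) (Q3_ne n)
  let _ : Fintype (GR (mod3 n)) := Fintype.ofFinite _
  exact lawC (rep3 H) hpos (WR (mod3 n) μ m u) (W3_iff n hm u) (ne3 H hm hu htop) P c hP

/-- The classes have a positive proportion. -/
theorem clsP3 (H : Fm3 μ b jj cc) (htop : ∃ i₀ : I, ∀ i, μ i ∣ μ i₀) {m : 𝓞 K} {n r : ℕ}
    {u : Fin r → 𝓞 K} (hm : m ∣ 2 ^ n) (hu : ∀ k, ¬ (4 ∣ m ∧ 4 ∣ u k))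
    (hpos : CovPos (cl3 n) r) : ClsP (𝓞 K) r m u := by
  have hf : Finite (GR (mod3 n)) := finite_GR (mod3 n) (Q3_ne n)
  let _ : Fintype (GR (mod3 n)) := Fintype.ofFinite _
  exact clsP_of (rep3 H) hpos (nb3.dbl r) (WR (mod3 n) μ m u) (W3_iff n hm u)
    (ne3 H hm hu htop)

end

end

end Pool.Agent.Lib.MP_1a91b9_ntMN
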