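import Pool.Agent.Lib.MP_1a91b9_ntMN.MNG
import Pool.Agent.Lib.MP_1a91b9_ntMN.N7
import Pool.Agent.Lib.MP_1a91b9_ntMN.NBf
import Pool.Agent.Lib.MP_1a91b9_ntMN.RU0

/-!
# MP_1a91b9_nt (all the multiquadratic fields): the classes of the covering tuples have a positive proportion
-/

set_option autoImplicit false
set_option linter.unusedSectionVars false

namespace Pool.Agent.Lib.MP_1a91b9_ntMN

open Finset
open Pool.Agent.Lib.MP_1a91b9_ntH (PS nm Sx Cheb Zt mem_Sx nm_empty one_le_nm)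
open Pool.Agent.Lib.MP_1a91b9_ntQ (Mz)

noncomputable section

/-- The sum over the covering tuples of a multiplicative function. -/
theorem sum_cov_prod {ι : Type} [DecidableEq ι] (r : ℕ) (S : Finset ι) (F : Fin r → ι → ℂ) :
    ∑ T ∈ cov r S, ∏ k, ∏ q ∈ T k, F k q =
      ∏ q ∈ S, ∑ J ∈ (univ : Finset (Fin r)).powerset.erase ∅, ∏ k ∈ J, F k q := by
  classical
  have h1 : ∏ q ∈ S, ∑ J ∈ (univ : Finset (Fin r)).powerset.erase ∅, ∏ k ∈ J, F k q =
      ∏ q : S, ∑ J ∈ (univ : Finset (Fin r)).powerset.erase ∅, ∏ k ∈ J, F k q.1 :=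
    (prod_coe_sort S fun q => ∑ J ∈ (univ : Finset (Fin r)).powerset.erase ∅, ∏ k ∈ J, F k q).symm
  rw [h1, prod_univ_sum]
  refine sum_bij' (fun T _ q => univ.filter fun i => (q : ι) ∈ T i)
      (fun f _ i => S.attach.filter (fun q => i ∈ f q) |>.map (Function.Embedding.subtype _)) ?_ ?_ ?_ ?_ ?_
  · intro T hT
    rw [Fintype.mem_piFinset]
    intro q
    rw [mem_erase, mem_powerset]
    refine ⟨?_, filter_subset _ _⟩
    have h2 : (q : ι) ∈ univ.biUnion T := by rw [mem_cov.1 hT]; exact q.2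
    obtain ⟨i, -, hi⟩ := mem_biUnion.1 h2
    exact nonempty_iff_ne_empty.1 ⟨i, mem_filter.2 ⟨mem_univ _, hi⟩⟩
  · intro f hf
    rw [Fintype.mem_piFinset] at hf
    rw [mem_cov]
    ext q
    rw [mem_biUnion]
    constructor
    · rintro ⟨i, -, hi⟩
      rw [mem_map] at hi
      obtain ⟨p, -, rfl⟩ := hi
      exact p.2
    · intro hq
      obtain ⟨i, hi⟩ := nonempty_iff_ne_empty.2 (mem_erase.1 (hf ⟨q, hq⟩)).1
      exact ⟨i, mem_univ _, mem_map.2 ⟨⟨q, hq⟩, mem_filter.2 ⟨mem_attach _ _, hi⟩, rfl⟩⟩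
  · intro T hT
    funext i
    ext q
    rw [mem_map]
    constructor
    · rintro ⟨p, hp, rfl⟩
      exact (mem_filter.1 (mem_filter.1 hp).2).2
    · intro hq
      have h2 : q ∈ S := by
        rw [← mem_cov.1 hT]
        exact mem_biUnion.2 ⟨i, mem_univ _, hq⟩
      exact ⟨⟨q, h2⟩, mem_filter.2 ⟨mem_attach _ _, mem_filter.2 ⟨mem_univ _, hq⟩⟩, rfl⟩
  · intro f hf
    funext q
    ext i
    rw [mem_filter, mem_map]
    constructor
    · rintro ⟨-, p, hp, e⟩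
      have e2 : p = q := Subtype.ext e
      rw [← e2]
      exact (mem_filter.1 hp).2
    · intro hi
      exact ⟨mem_univ _, q, mem_filter.2 ⟨mem_attach _ _, hi⟩, rfl⟩
  · intro T hT
    have h2 : ∀ k, ∏ q ∈ T k, F k q = ∏ q : S, if q.1 ∈ T k then F k q.1 else 1 := by
      intro k
      rw [prod_coe_sort S fun q => if q ∈ T k then F k q else 1, ← prod_filter]
      refine prod_congr ?_ fun _ _ => rfl
      ext q
      rw [mem_filter]
      refine ⟨fun h => ⟨?_, h⟩, fun h => h.2⟩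
      rw [← mem_cov.1 hT]
      exact mem_biUnion.2 ⟨k, mem_univ _, h⟩
    rw [prod_congr rfl fun k _ => h2 k, prod_comm]
    refine prod_congr rfl fun q _ => ?_
    rw [prod_filter]

/-- The characters of the tuples of classes. -/
theorem card_cl {ι G : Type} [DecidableEq ι] [AddCommGroup G] [Fintype G] (a : ι → G) {r : ℕ}
    (g : Fin r → G) (S : Finset ι) [DecidablePred (Cl a g)] :
    (Fintype.card G : ℂ) ^ r * (((cov r S).filter (Cl a g)).card : ℂ) =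
      ∑ Ψ : Fin r → AddChar G ℂ, (∏ k, Ψ k (-g k)) *
        ∏ q ∈ S, ∑ J ∈ (univ : Finset (Fin r)).powerset.erase ∅, ∏ k ∈ J, Ψ k (a q) := by
  classical
  have h1 : ∀ Ψ : Fin r → AddChar G ℂ, (∏ k, Ψ k (-g k)) *
      ∏ q ∈ S, ∑ J ∈ (univ : Finset (Fin r)).powerset.erase ∅, ∏ k ∈ J, Ψ k (a q) =
      ∑ T ∈ cov r S, ∏ k, Ψ k (-g k + ∑ q ∈ T k, a q) := by
    intro Ψ
    rw [← sum_cov_prod r S fun k q => Ψ k (a q), mul_sum]
    refine sum_congr rfl fun T _ => ?_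
    rw [← prod_mul_distrib]
    refine prod_congr rfl fun k _ => ?_
    rw [AddChar.map_add_eq_mul, Pool.Agent.Lib.MP_1a91b9_ntR.psi_sum]
  rw [sum_congr rfl fun Ψ _ => h1 Ψ, sum_comm]
  have h2 : ∀ T ∈ cov r S, ∑ Ψ : Fin r → AddChar G ℂ, ∏ k, Ψ k (-g k + ∑ q ∈ T k, a q) =
      if Cl a g T then (Fintype.card G : ℂ) ^ r else 0 := by
    intro T _
    have h3 : ∑ Ψ : Fin r → AddChar G ℂ, ∏ k, Ψ k (-g k + ∑ q ∈ T k, a q) =
        ∏ k, ∑ ψ : AddChar G ℂ, ψ (-g k + ∑ q ∈ T k, a q) := by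
      rw [prod_univ_sum, Fintype.piFinset_univ]
    rw [h3]
    have h4 : ∀ k, ∑ ψ : AddChar G ℂ, ψ (-g k + ∑ q ∈ T k, a q) =
        if ∑ q ∈ T k, a q = g k then (Fintype.card G : ℂ) else 0 := by
      intro k
      rw [AddChar.sum_apply_eq_ite]
      by_cases h3 : ∑ q ∈ T k, a q = g k
      · rw [if_pos h3, if_pos (by rw [h3, neg_add_cancel])]
      · rw [if_neg h3, if_neg (fun h4 => h3 (by rwa [neg_add_eq_zero, eq_comm] at h4))]
    rw [prod_congr rfl fun k _ => h4 k]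
    by_cases h5 : Cl a g T
    · rw [if_pos h5, prod_congr rfl fun k _ => if_pos (h5 k), prod_const, card_univ, Fintype.card_fin]
    · rw [if_neg h5]
      have h6 : ∃ k, ¬ ∑ q ∈ T k, a q = g k := by
        by_contra h7
        push Not at h7
        exact h5 h7
      obtain ⟨k, hk⟩ := h6
      exact prod_eq_zero (mem_univ k) (if_neg hk)
  rw [sum_congr rfl h2, ← sum_filter, sum_const, nsmul_eq_mul, mul_comm]

/-- **The sums with a nontrivial character.** -/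
theorem psi_small {ι G : Type} [DecidableEq ι] [PS ι] [AddCommGroup G] [Finite G] {a : ι → G} {C1 C2 : ℝ}
    (h1 : Cheb ι C1) (h2 : Zt ι C2)
    (hz : ∀ ψ : AddChar G ℂ, ψ ≠ 1 → Mz ∅ fun q => ψ (a q)) {r : ℕ} (hr : 1 ≤ r)
    (Ψ : Fin r → AddChar G ℂ) (hΨ : Ψ ≠ 1) (ε : ℝ) (hε : 0 < ε) : ∃ X₀ : ℕ, ∀ X : ℕ, X₀ ≤ X →
      ‖∑ S ∈ Sx ι X, ∏ q ∈ S, ∑ J ∈ (univ : Finset (Fin r)).powerset.erase ∅,
        ∏ k ∈ J, Ψ k (a q)‖ ≤ ε * Yh (2 ^ r - 1) X := by
  classical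
  obtain ⟨k, hk⟩ : ∃ k, Ψ k ≠ 1 := by
    by_contra h
    push Not at h
    exact hΨ (funext h)
  have hmz := hz (Ψ k) hk
  rcases Nat.lt_or_ge 1 r with hr2 | hr2
  · -- at least two entries
    obtain ⟨k', hkk⟩ : ∃ k' : Fin r, k' ≠ k := by
      have : Nontrivial (Fin r) := Fin.nontrivial_iff_two_le.2 hr2
      exact exists_ne k
    have hH : 1 ≤ 2 ^ r - 1 := by
      have := Nat.pow_le_pow_right (show 0 < 2 by norm_num) hr
      omega
    obtain ⟨X₀, hX₀⟩ := mz_mean h1 h2 (2 ^ r - 1) 2 hH (by norm_num) (χ := fun q => Ψ k (a q))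
      (fun q => (AddChar.norm_apply _ _).le) hmz ε hε
    refine ⟨X₀, fun X hX => ?_⟩
    refine (norm_sum_le _ _).trans ?_
    have h3 := hX₀ (fun q => ‖∑ J ∈ (univ : Finset (Fin r)).powerset.erase ∅,
      ∏ k ∈ J, Ψ k (a q)‖) (fun q => ?_) X hX
    · refine le_trans (le_of_eq (sum_congr rfl fun S _ => ?_)) h3
      rw [norm_prod]
    · have hc : ((univ : Finset (Fin r)).powerset.erase ∅).card = 2 ^ r - 1 := by
        rw [card_erase_of_mem (mem_powerset.2 (empty_subset _)), card_powerset, card_univ,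
          Fintype.card_fin]
      have hu : ∀ J : Finset (Fin r), ‖∏ k ∈ J, Ψ k (a q)‖ = 1 := by
        intro J
        rw [norm_prod]
        exact prod_eq_one fun k _ => AddChar.norm_apply _ _
      refine ⟨norm_nonneg _, ?_, ?_⟩
      · refine (norm_sum_le _ _).trans (le_of_eq ?_)
        rw [sum_congr rfl fun J _ => hu J, sum_const, hc, nsmul_eq_mul, mul_one]
      · have hne : ({k, k'} : Finset (Fin r)) ≠ {k'} := by
          intro h
          have : k ∈ ({k'} : Finset (Fin r)) := by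
            rw [← h]
            exact mem_insert_self _ _
          exact hkk (mem_singleton.1 this).symm
        have h4 := norm_wsumC ((univ : Finset (Fin r)).powerset.erase ∅) (fun _ => (1 : ℝ))
          (fun _ => zero_le_one) (fun J => ∏ k ∈ J, Ψ k (a q)) hu (a := 1) zero_le_one
          (l := {k, k'}) (l' := {k'})
          (mem_erase.2 ⟨insert_ne_empty _ _, mem_powerset.2 (subset_univ _)⟩)
          (mem_erase.2 ⟨singleton_ne_empty _, mem_powerset.2 (subset_univ _)⟩) hne le_rfl le_rfl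
        have h5 : ∏ x ∈ ({k, k'} : Finset (Fin r)), Ψ x (a q) = Ψ k (a q) * Ψ k' (a q) := by
          rw [prod_pair hkk.symm]
        have h6 : (Ψ k (a q) * Ψ k' (a q)) * (starRingEnd ℂ) (Ψ k' (a q)) = Ψ k (a q) := by
          rw [mul_assoc, Complex.mul_conj, Complex.normSq_eq_norm_sq, AddChar.norm_apply]
          simp
        simp only [Complex.ofReal_one, one_mul] at h4
        rw [h5, prod_singleton, h6, sum_const, hc, nsmul_eq_mul, mul_one] at h4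
        refine h4.trans (le_of_eq ?_)
        push_cast
        ring
  · -- one entry
    obtain rfl : r = 1 := le_antisymm hr2 hr
    obtain ⟨X₀, hX₀⟩ := hmz ε hε
    refine ⟨X₀, fun X hX => ?_⟩
    have h3 := hX₀ X hX
    rw [filter_true_of_mem fun S _ => disjoint_empty_right S] at h3
    have h4 : Yh (2 ^ 1 - 1) X = X := by
      unfold Yh
      norm_num
    rw [h4]
    refine le_trans (le_of_eq (congrArg norm (sum_congr rfl fun S _ => prod_congr rfl fun q _ => ?_))) h3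
    have h5 : (univ : Finset (Fin 1)).powerset.erase ∅ = {univ} := by decide
    rw [h5, sum_singleton, Fin.prod_univ_one, Subsingleton.elim k 0]

/-- **The classes have a positive proportion.** -/
theorem covPos_of {ι G : Type} [DecidableEq ι] [PS ι] [AddCommGroup G] [Finite G] {a : ι → G}
    (hc : ∃ C, Cheb ι C) (hz2 : ∃ C, Zt ι C) (hN : NB ι)
    (hz : ∀ ψ : AddChar G ℂ, ψ ≠ 1 → Mz ∅ fun q => ψ (a q)) (r : ℕ) : CovPos a r := by
  classical
  obtain ⟨C1, h1⟩ := hc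
  obtain ⟨C2, h2⟩ := hz2
  let _ : Fintype G := Fintype.ofFinite G
  intro g
  rcases Nat.eq_zero_or_pos r with rfl | hr
  · refine ⟨1, one_pos, 0, fun X _ => ?_⟩
    rw [one_mul]
    refine le_of_eq (sum_congr rfl fun S _ => ?_)
    rw [filter_true_of_mem (p := Cl a g) fun T _ k => k.elim0]
  obtain ⟨c, C, hc, X₁, hX₁⟩ := hN r hr
  obtain ⟨n, hn⟩ : ∃ n : ℝ, n = (Fintype.card (Fin r → AddChar G ℂ) : ℝ) + 1 := ⟨_, rfl⟩
  have hn0 : 0 < n := by
    rw [hn]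
    positivity
  obtain ⟨N, hNd⟩ : ∃ N : ℝ, N = (Fintype.card G : ℝ) ^ r := ⟨_, rfl⟩
  have hN0 : 0 < N := by
    rw [hNd]
    have : 0 < Fintype.card G := Fintype.card_pos
    positivity
  have hε : 0 < c / (2 * n) := by positivity
  have h3 : ∀ Ψ : Fin r → AddChar G ℂ, ∃ X₀ : ℕ, ∀ X : ℕ, X₀ ≤ X → Ψ ≠ 1 →
      ‖∑ S ∈ Sx ι X, ∏ q ∈ S, ∑ J ∈ (univ : Finset (Fin r)).powerset.erase ∅,
        ∏ k ∈ J, Ψ k (a q)‖ ≤ c / (2 * n) * Yh (2 ^ r - 1) X := by
    intro Ψ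
    by_cases hΨ : Ψ = 1
    · exact ⟨0, fun X _ h => absurd hΨ h⟩
    · obtain ⟨X₀, h4⟩ := psi_small h1 h2 hz hr Ψ hΨ _ hε
      exact ⟨X₀, fun X hX _ => h4 X hX⟩
  choose X₂ h3 using h3
  refine ⟨1 / (2 * N), by positivity, X₁ + ∑ Ψ, X₂ Ψ, fun X hX => ?_⟩
  have hX2 : ∀ Ψ, X₂ Ψ ≤ X := fun Ψ =>
    (single_le_sum (fun _ _ => Nat.zero_le _) (mem_univ Ψ)).trans ((Nat.le_add_left _ _).trans hX)
  obtain ⟨h4, -⟩ := hX₁ X (by omega)
  obtain ⟨A, hA⟩ : ∃ A : ℝ, A = ∑ S ∈ Sx ι X, ((cov r S).card : ℝ) := ⟨_, rfl⟩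
  obtain ⟨B, hB⟩ : ∃ B : ℝ, B = ∑ S ∈ Sx ι X, (((cov r S).filter (Cl a g)).card : ℝ) := ⟨_, rfl⟩
  obtain ⟨Y, hY⟩ : ∃ Y : ℝ, Y = Yh (2 ^ r - 1) X := ⟨_, rfl⟩
  have hYA : c * Y ≤ A := by
    rw [hY, hA]
    unfold Yh
    have e : 2 ^ r - 1 - 1 = 2 ^ r - 2 := by omega
    rw [e, ← mul_assoc]
    exact h4
  have e : ((N * B : ℝ) : ℂ) = (A : ℂ) + ∑ Ψ ∈ (univ : Finset (Fin r → AddChar G ℂ)).erase 1,
      (∏ k, Ψ k (-g k)) * ∑ S ∈ Sx ι X, ∏ q ∈ S,
        ∑ J ∈ (univ : Finset (Fin r)).powerset.erase ∅, ∏ k ∈ J, Ψ k (a q) := by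
    have h5 : ((N * B : ℝ) : ℂ) = ∑ S ∈ Sx ι X, (Fintype.card G : ℂ) ^ r *
        (((cov r S).filter (Cl a g)).card : ℂ) := by
      rw [hB, hNd, ← mul_sum]
      push_cast
      rfl
    rw [h5, sum_congr rfl fun S _ => card_cl a g S, sum_comm]
    have h6 : ∀ Ψ : Fin r → AddChar G ℂ, ∑ S ∈ Sx ι X, (∏ k, Ψ k (-g k)) *
        ∏ q ∈ S, ∑ J ∈ (univ : Finset (Fin r)).powerset.erase ∅, ∏ k ∈ J, Ψ k (a q) =
        (∏ k, Ψ k (-g k)) * ∑ S ∈ Sx ι X, ∏ q ∈ S,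
          ∑ J ∈ (univ : Finset (Fin r)).powerset.erase ∅, ∏ k ∈ J, Ψ k (a q) :=
      fun Ψ => (mul_sum _ _ _).symm
    rw [sum_congr rfl fun Ψ _ => h6 Ψ, ← add_sum_erase _ _ (mem_univ (1 : Fin r → AddChar G ℂ))]
    congr 1
    have h7 : ∀ S : Finset ι, ∏ q ∈ S, ∑ J ∈ (univ : Finset (Fin r)).powerset.erase ∅,
        ∏ k ∈ J, (1 : Fin r → AddChar G ℂ) k (a q) = ((cov r S).card : ℂ) := by
      intro S
      have h8 := sum_cov_prod r S fun _ _ => (1 : ℂ)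
      simp only [prod_const_one, sum_const, nsmul_eq_mul, mul_one] at h8
      rw [h8]
      simp
    rw [sum_congr rfl fun S _ => h7 S]
    simp [hA]
  have hrest : ‖∑ Ψ ∈ (univ : Finset (Fin r → AddChar G ℂ)).erase 1,
      (∏ k, Ψ k (-g k)) * ∑ S ∈ Sx ι X, ∏ q ∈ S,
        ∑ J ∈ (univ : Finset (Fin r)).powerset.erase ∅, ∏ k ∈ J, Ψ k (a q)‖ ≤
      n * (c / (2 * n) * Y) := by
    refine (norm_sum_le _ _).trans ?_
    have h5 : ∀ Ψ ∈ (univ : Finset (Fin r → AddChar G ℂ)).erase 1,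
        ‖(∏ k, Ψ k (-g k)) * ∑ S ∈ Sx ι X, ∏ q ∈ S,
          ∑ J ∈ (univ : Finset (Fin r)).powerset.erase ∅, ∏ k ∈ J, Ψ k (a q)‖ ≤
        c / (2 * n) * Y := by
      intro Ψ hΨ
      have h6 : ‖∏ k, Ψ k (-g k)‖ = 1 := by
        rw [norm_prod]
        exact prod_eq_one fun k _ => AddChar.norm_apply _ _
      rw [norm_mul, h6, one_mul, hY]
      exact h3 Ψ X (hX2 Ψ) (mem_erase.1 hΨ).1
    refine (sum_le_sum h5).trans ?_
    rw [sum_const, nsmul_eq_mul]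
    have h7 : ((univ : Finset (Fin r → AddChar G ℂ)).erase 1).card ≤
        Fintype.card (Fin r → AddChar G ℂ) := card_le_card (erase_subset _ _)
    have h8 : (((univ : Finset (Fin r → AddChar G ℂ)).erase 1).card : ℝ) ≤ n := by
      rw [hn]
      have : (((univ : Finset (Fin r → AddChar G ℂ)).erase 1).card : ℝ) ≤
        (Fintype.card (Fin r → AddChar G ℂ) : ℝ) := by exact_mod_cast h7
      linarith
    have h9 : 0 ≤ Y := by
      rw [hY]
      exact Yh_nonneg _ _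
    exact mul_le_mul_of_nonneg_right h8 (by positivity)
  have hfin : A ≤ N * B + n * (c / (2 * n) * Y) := by
    have h5 : ‖(A : ℂ)‖ ≤ ‖((N * B : ℝ) : ℂ)‖ + n * (c / (2 * n) * Y) := by
      have h7 : (A : ℂ) = ((N * B : ℝ) : ℂ) - ∑ Ψ ∈ (univ : Finset (Fin r → AddChar G ℂ)).erase 1,
          (∏ k, Ψ k (-g k)) * ∑ S ∈ Sx ι X, ∏ q ∈ S,
            ∑ J ∈ (univ : Finset (Fin r)).powerset.erase ∅, ∏ k ∈ J, Ψ k (a q) := by
        rw [e]
        ring
      rw [h7]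
      refine (norm_sub_le _ _).trans ?_
      linarith
    have hA0 : 0 ≤ A := by
      rw [hA]
      exact sum_nonneg fun _ _ => Nat.cast_nonneg _
    have hB0 : 0 ≤ N * B := by
      rw [hB]
      exact mul_nonneg hN0.le (sum_nonneg fun _ _ => Nat.cast_nonneg _)
    rw [Complex.norm_real, Complex.norm_real, Real.norm_of_nonneg hA0, Real.norm_of_nonneg hB0] at h5
    exact h5
  have h10 : n * (c / (2 * n) * Y) = c * Y / 2 := by
    field_simp
  rw [h10] at hfin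
  rw [← hA, ← hB]
  have h11 : A ≤ 2 * (N * B) := by linarith
  rw [div_mul_eq_mul_div, one_mul, div_le_iff₀ (by positivity)]
  linarith

section Ring

open Pool.Agent.Lib.MP_1a91b9_ntR (Qi Pri Pg sys GR cq)

variable {R : Type} [CommRing R] [IsDomain R] [IsPrincipalIdealRing R] [Qi R] [Pri R] {Q : R}

/-- The class maps of the generic rings. -/
theorem covPos_cq (hQ : (sys R).Mod Q) (hQ0 : Q ≠ 0) (r : ℕ) : CovPos (cq hQ) r := by
  have := Pool.Agent.Lib.MP_1a91b9_ntR.finite_GR hQ hQ0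
  have := Pool.Agent.Lib.MP_1a91b9_ntR.finite_quot hQ0
  refine covPos_of Pool.Agent.Lib.MP_1a91b9_ntR.cheb Pool.Agent.Lib.MP_1a91b9_ntR.zt (nbR R) (fun ψ hψ => ?_) r
  have h3 : ∃ q, ψ (cq hQ q) ≠ 1 := by
    by_contra h3
    push Not at h3
    exact hψ (Pool.Agent.Lib.MP_1a91b9_ntR.psi_eq_one hQ ψ h3)
  intro ε hε
  obtain ⟨X₀, hX₀⟩ := Pool.Agent.Lib.MP_1a91b9_ntR.QSys.h3G (D := sys R)
    Pool.Agent.Lib.MP_1a91b9_ntR.sys_com hQ hQ0 ψ h3 ε hε
  refine ⟨X₀, fun X hX => ?_⟩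
  rw [filter_true_of_mem fun S _ => disjoint_empty_right S]
  exact hX₀ X hX

end Ring

section Seven

open NumberField Pool.Agent.Lib.MP_1a91b9_nuT Pool.Agent.Lib.MP_1a91b9_ntV
open Pool.Agent.Lib.MP_1a91b9_ntR (cq)

variable [CD] [hv : V7]

theorem covPos7 (m r : ℕ) : CovPos (cq (mod7 m)) r := covPos_cq (mod7 m) (two_pow_ne7 m) r

end Seven

section Eight

open Pool.Agent.Lib.MP_1a91b9_ntW
open Pool.Agent.Lib.MP_1a91b9_ntR (cq)

theorem covPos8 (m r : ℕ) : CovPos (cq (mod8 m)) r := covPos_cq (mod8 m) (two_pow_ne m) r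

end Eight

section Three

open Pool.Agent.Lib.MP_1a91b9_ntS.G (mod3 Q3_ne)
open Pool.Agent.Lib.MP_1a91b9_ntN.G (cl3)

theorem covPos3 (m r : ℕ) : CovPos (cl3 m) r := by
  have h := covPos_cq (mod3 m) (Q3_ne m) r
  rw [Pool.Agent.Lib.MP_1a91b9_ntS.G.ps_eq] at h
  exact h

end Three

section Four

open Pool.Agent.Lib.MP_1a91b9_ntQ (clq)

theorem covPos4 (m r : ℕ) : CovPos (clq m) r := by
  refine covPos_of Pool.Agent.Lib.MP_1a91b9_ntQ.cheb4 Pool.Agent.Lib.MP_1a91b9_ntQ.zt4 nb4 (fun ψ hψ => ?_) r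
  have h3 : ∃ q, ψ (clq m q) ≠ 1 := by
    by_contra h3
    push Not at h3
    exact hψ (Pool.Agent.Lib.MP_1a91b9_ntQ.Den4.psi_eq_one m ψ h3)
  intro ε hε
  obtain ⟨X₀, hX₀⟩ := Pool.Agent.Lib.MP_1a91b9_ntQ.h3_gcl m ψ h3 ε hε
  refine ⟨X₀, fun X hX => ?_⟩
  rw [filter_true_of_mem fun S _ => disjoint_empty_right S]
  exact hX₀ X hX

end Four

end

end Pool.Agent.Lib.MP_1a91b9_ntMN
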