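import Pool.Agent.Lib.MP_1a91b9_ntDV.K4_1
import Pool.Agent.Lib.MP_1a91b9_ntMN.UBh

/-!
# MP_1a91b9_nt (extensions ordered by the ramified primes), `ℚ(i)`: the engine for the total weight `H`, I
-/

set_option autoImplicit false
set_option linter.unusedSectionVars false

namespace Pool.Agent.Lib.MP_1a91b9_ntMN.G4

open Finset Pool.Agent.Lib.MP_1a91b9_ntH Pool.Agent.Lib.MP_1a91b9_ntQ Pool.Agent.Lib.MP_1a91b9_ntQ.Da
  Pool.Agent.Lib.MP_1a91b9_ntQ.M Pool.Agent.Lib.MP_1a91b9_ntM Pool.Agent.Lib.MP_1a91b9_ntM.E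
open Pool.Agent.Lib.MP_1a91b9_ntQ.D Pool.Agent.Lib.MP_1a91b9_ntQ.DW
open Pool.Agent.Lib.MP_1a91b9_ntDV Pool.Agent.Lib.MP_1a91b9_ntDV.G4 Pool.Agent.Lib.MP_1a91b9_ntMN

noncomputable section

/-! ### Label systems with the total weight `H` -/

section Defs

variable {ι : Type} {κ : Type} [Fintype κ] {L : Type} [DecidableEq ι] [DecidableEq κ] [Fintype L]
  [DecidableEq L]

/-- The sets of labels of the main terms. -/
def FullWh (Λ : LS2 L ι κ) (w : L → (κ → ZMod 2) → ℝ) (H : ℕ) : Finset (Finset L) := by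
  classical exact univ.filter fun U => U ∈ Λ.Us ∧ ∀ φ, ∑ l ∈ U, w l φ = H

theorem mem_FullWh {Λ : LS2 L ι κ} {w : L → (κ → ZMod 2) → ℝ} {H : ℕ} {U : Finset L} :
    U ∈ FullWh Λ w H ↔ U ∈ Λ.Us ∧ ∀ φ, ∑ l ∈ U, w l φ = H := by
  classical
  rw [FullWh, mem_filter]
  exact ⟨fun h => h.2, fun h => ⟨mem_univ _, h⟩⟩

/-- What the engine needs: the conditions on the weights `w` and on the factors `u`. -/
structure UOKh (Λ : LS2 L ι κ) (w : L → (κ → ZMod 2) → ℝ) (u : L → ι → ℂ) (H : ℕ) : Prop where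
  diag : ∀ l, Λ.Phi l l = 0
  k1 : ∀ U : Finset L, Λ.Unl U → U.card ≤ Λ.m
  B : Λ.B = ∅
  pos : 1 ≤ H
  w0 : ∀ l φ, 0 ≤ w l φ
  w1 : ∀ l φ, w l φ ≤ 1
  wz : ∀ l, 0 < w l 0
  wU : ∀ U, Λ.Unl U → ∀ φ, ∑ l ∈ U, w l φ ≤ H
  sm : ∀ U, Λ.Unl U → U.card < Λ.m → ∃ φ, ∑ l ∈ U, w l φ < H
  u1 : ∀ l q, ‖u l q‖ ≤ 1
  pr : ∀ U ∈ FullWh Λ w H, ∀ x, x ∉ U → ∃ l ∈ U, ∃ l' ∈ U, Λ.lk l x ≠ Λ.lk l' x ∧
    ∀ q, u l q = u l' q

/-- The same label system with a large number `m`: the hypotheses on the unlinked sets of the size `m` are empty. -/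
def bigL (Λ : LS2 L ι κ) : LS2 L ι κ :=
  ⟨Λ.Phi, Λ.c, Λ.t, Λ.B, Fintype.card L + 2⟩

theorem bigL_ok {Λ : LS2 L ι κ} (h : ∀ l, Λ.Phi l l = 0) : (bigL Λ).OK where
  diag := h
  two := Nat.le_add_left 2 _
  k1 := fun U _ => (card_le_univ U).trans (Nat.le_add_right _ 2)
  k2 := fun U _ hc => by
    have h1 := card_le_univ U
    have h2 : U.card = Fintype.card L + 2 := hc
    omega

end Defs

section Bd

variable {ι : Type} [DecidableEq ι] {L : Type} [Fintype L] [DecidableEq L] {κ : Type} [Fintype κ]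
  [DecidableEq κ]

private theorem EU1_two {a b θ : ℝ} (ha : θ ≤ a) (hb : θ ≤ b) (hθ : 0 < θ) (x y : ZMod 2) :
    ‖(a : ℂ) * e2 x + (b : ℂ) * e2 y‖ ≤ a + b - θ * (1 - sg (x - y)) := by
  have h : ∀ x : ZMod 2, x = 0 ∨ x = 1 := by decide
  have h2 : (0 : ZMod 2) - 1 = 1 := by decide
  have hn : ∀ t : ℝ, ‖(t : ℂ)‖ = |t| := fun t => by rw [Complex.norm_real, Real.norm_eq_abs]
  rcases h x with rfl | rfl <;> rcases h y with rfl | rfl
  · have e : (a : ℂ) * e2 0 + (b : ℂ) * e2 0 = ((a + b : ℝ) : ℂ) := by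
      rw [e2_zero]
      push_cast
      ring
    rw [e, hn, sub_self, sg2_zero, abs_of_nonneg (by linarith)]
    linarith
  · have e : (a : ℂ) * e2 0 + (b : ℂ) * e2 1 = ((a - b : ℝ) : ℂ) := by
      rw [e2_zero, e2_one]
      push_cast
      ring
    rw [e, hn, h2, MP_1a91b9_ntQ.sg2_one, abs_le]
    constructor <;> linarith
  · have e : (a : ℂ) * e2 1 + (b : ℂ) * e2 0 = ((b - a : ℝ) : ℂ) := by
      rw [e2_zero, e2_one]
      push_cast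
      ring
    rw [e, hn, sub_zero, MP_1a91b9_ntQ.sg2_one, abs_le]
    constructor <;> linarith
  · have e : (a : ℂ) * e2 1 + (b : ℂ) * e2 1 = ((-(a + b) : ℝ) : ℂ) := by
      rw [e2_one]
      push_cast
      ring
    rw [e, hn, sub_self, sg2_zero, abs_neg, abs_of_nonneg (by linarith)]
    linarith

theorem HU_bdh (D : Dat2 ι κ) (hD : D.Sym) (Λ : LS2 L ι κ) (hB : Λ.B = ∅)
    {w : L → (κ → ZMod 2) → ℝ} (hw0 : ∀ l φ, 0 ≤ w l φ) {θ : ℝ} (hθ : 0 < θ)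
    (hwz : ∀ l, θ ≤ w l 0) {u : L → ι → ℂ} (hu : ∀ l q, ‖u l q‖ ≤ 1)
    (U : Finset L) {H : ℕ} (hU1 : ∀ φ, ∑ l ∈ U, w l φ ≤ H) {M : ℕ} (hM : 1 ≤ M)
    (hMθ : 2 ^ Fintype.card κ / (M : ℝ) ≤ θ) (b : L → Finset ι) (l l' : L) (hl : l ∈ U)
    (hl' : l' ∈ U) (hne : l ≠ l') (hul : ∀ q, u l q = u l' q) (q : ι) (hq : q ∉ uni b) :
    ‖HG D Λ (hU D w u) U b q‖ ≤ ((H * M - 1 : ℝ) + ∑ i, chB D Λ b l l' i q) / M := by
  have hM0 : (0 : ℝ) < M := by exact_mod_cast (by omega : 0 < M)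
  have hT : q ∉ TT Λ b l l' := fun h1 => by
    rcases mem_union.1 (TT_sub Λ b l l' h1) with h2 | h2
    · rw [hB] at h2
      exact absurd h2 (notMem_empty _)
    · exact hq h2
  have hx := xq_sub D hD Λ b l l' q hq
  rw [chB_sum D Λ b l l' q hT, ← hx, le_div_iff₀ hM0]
  split_ifs with h0
  · have hl1 : l' ∈ U.erase l := mem_erase.2 ⟨hne.symm, hl'⟩
    obtain ⟨s, hs⟩ : ∃ s : ℝ, s = sg (xq D Λ b l q - xq D Λ b l' q) := ⟨_, rfl⟩
    have hs1 : 0 ≤ 1 - s := by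
      have h2 : ∀ x : ZMod 2, x = 0 ∨ x = 1 := by decide
      rw [hs]
      rcases h2 (xq D Λ b l q - xq D Λ b l' q) with h3 | h3
      · rw [h3, sg2_zero]
        norm_num
      · rw [h3, MP_1a91b9_ntQ.sg2_one]
        norm_num
    have hsum : w l 0 + (w l' 0 + ∑ k ∈ (U.erase l).erase l', w k 0) ≤ H := by
      rw [add_sum_erase (U.erase l) (fun k => w k 0) hl1, add_sum_erase U (fun k => w k 0) hl]
      exact hU1 0
    have e1 : HG D Λ (hU D w u) U b q = u l q * (((w l 0 : ℝ) : ℂ) * e2 (xq D Λ b l q) +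
        ((w l' 0 : ℝ) : ℂ) * e2 (xq D Λ b l' q)) +
        ∑ k ∈ (U.erase l).erase l', hU D w u k q * e2 (xq D Λ b k q) := by
      unfold HG
      rw [← add_sum_erase U _ hl, ← add_sum_erase (U.erase l) _ hl1, ← add_assoc]
      refine congrArg (fun z => z + ∑ k ∈ (U.erase l).erase l', hU D w u k q * e2 (xq D Λ b k q)) ?_
      unfold hU
      rw [h0, ← hul q]
      ring
    have h2 : ‖∑ k ∈ (U.erase l).erase l', hU D w u k q * e2 (xq D Λ b k q)‖ ≤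
        ∑ k ∈ (U.erase l).erase l', w k 0 := by
      refine (norm_sum_le _ _).trans (sum_le_sum fun k _ => ?_)
      rw [norm_mul, norm_e2, mul_one]
      have h3 := hU_norm D hw0 hu k q
      rw [h0] at h3
      exact h3
    have h3 := EU1_two (hwz l) (hwz l') hθ (xq D Λ b l q) (xq D Λ b l' q)
    rw [← hs] at h3
    have h4 : ‖u l q * (((w l 0 : ℝ) : ℂ) * e2 (xq D Λ b l q) +
        ((w l' 0 : ℝ) : ℂ) * e2 (xq D Λ b l' q))‖ ≤ w l 0 + w l' 0 - θ * (1 - s) := by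
      rw [norm_mul]
      exact (mul_le_of_le_one_left (norm_nonneg _) (hu l q)).trans h3
    have h5 : ‖HG D Λ (hU D w u) U b q‖ ≤ H - θ * (1 - s) := by
      rw [e1]
      have h6 := norm_add_le (u l q * (((w l 0 : ℝ) : ℂ) * e2 (xq D Λ b l q) +
        ((w l' 0 : ℝ) : ℂ) * e2 (xq D Λ b l' q)))
        (∑ k ∈ (U.erase l).erase l', hU D w u k q * e2 (xq D Λ b k q))
      linarith
    have h6 : (2 : ℝ) ^ Fintype.card κ ≤ θ * M := by
      rwa [div_le_iff₀ hM0] at hMθ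
    have h7 : ‖HG D Λ (hU D w u) U b q‖ * M ≤ (H - θ * (1 - s)) * M :=
      mul_le_mul_of_nonneg_right h5 hM0.le
    have h8 : (2 : ℝ) ^ Fintype.card κ * (1 - s) ≤ θ * M * (1 - s) :=
      mul_le_mul_of_nonneg_right h6 hs1
    rw [← hs]
    linarith
  · have h3 : ‖HG D Λ (hU D w u) U b q‖ ≤ H := (HU_le D Λ hw0 hu U b q).trans (hU1 _)
    have h5 : ‖HG D Λ (hU D w u) U b q‖ * M ≤ H * M := mul_le_mul_of_nonneg_right h3 hM0.le
    linarith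

/-- A function which is at most `H`, and at most `H - 2 ^ card κ / M` where `D.a q = φ₀`. -/
theorem chN_bdh (D : Dat2 ι κ) (φ₀ : κ → ZMod 2) {η : ℝ} (q : ι) {H M : ℕ} (hM : 1 ≤ M)
    (h1 : η ≤ H) (h2 : D.a q = φ₀ → η ≤ H - 2 ^ Fintype.card κ / (M : ℝ)) :
    η ≤ ((H * M - 1 : ℝ) + ∑ c, chN D φ₀ c q) / M := by
  have hM0 : (0 : ℝ) < M := by exact_mod_cast (by omega : 0 < M)
  rw [chN_sum, le_div_iff₀ hM0]
  split_ifs with h3
  · have h4 := h2 h3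
    have h5 : η * M ≤ (H - 2 ^ Fintype.card κ / (M : ℝ)) * M :=
      mul_le_mul_of_nonneg_right h4 hM0.le
    have h6 : (H - 2 ^ Fintype.card κ / (M : ℝ)) * M = H * M - 2 ^ Fintype.card κ := by
      field_simp
    linarith
  · have h4 : η * M ≤ H * M := mul_le_mul_of_nonneg_right h1 hM0.le
    linarith

end Bd

section Small

variable {ι : Type} [DecidableEq ι] [PS ι] {L : Type} [Fintype L] [DecidableEq L] {κ : Type} [Fintype κ]

private theorem famU_prodR (U : Finset L) (S : Finset ι) (g : L → ι → ℝ) :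
    ∑ d ∈ FamU U S, ∏ l, ∏ q ∈ d l, g l q = ∏ q ∈ S, ∑ l ∈ U, g l q := by
  have h := famU_prodC U S (fun l q => ((g l q : ℝ) : ℂ))
  exact_mod_cast h

private theorem smw_inner (D : Dat2 ι κ) (Λ : LS2 L ι κ) {h : L → ι → ℂ}
    (hh : ∀ l q, ‖h l q‖ ≤ 1) (Z : Finset L) (S : Finset ι) (b : L → Finset ι)
    (hS : Disjoint S (uni b)) :
    ∑ d ∈ FamU Z S, ‖FG D Λ h (fun l => b l ∪ d l)‖ ≤ ∏ q ∈ S, ∑ l ∈ Z, ‖h l q‖ := by
  rw [← famU_prodR Z S fun l q => ‖h l q‖]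
  refine sum_le_sum fun d hd => ?_
  obtain ⟨h1, h2, h3⟩ := mem_FamU.1 hd
  have h4 : Disjoint (uni b) (uni d) := by
    rw [h2]
    exact hS.symm
  unfold FG
  rw [norm_mul, norm_e2, mul_one, norm_prod]
  refine prod_le_prod (fun l _ => norm_nonneg _) fun l _ => ?_
  rw [norm_prod, prod_union (disjoint_of_subset_left (sub_uni b l)
      (disjoint_of_subset_right (sub_uni d l) h4))]
  have h5 : ∏ q ∈ b l, ‖h l q‖ ≤ 1 := prod_le_one (fun q _ => norm_nonneg _) fun q _ => hh l q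
  exact mul_le_of_le_one_left (prod_nonneg fun q _ => norm_nonneg _) h5

theorem smallWh (D : Dat2 ι κ) (hD : D.OK) (Λ : LS2 L ι κ) {τ : Type} [Fintype τ] (H M : ℕ)
    (hHp : 1 ≤ H) (hM : 1 ≤ M) (χ : τ → ι → ℝ) (B : τ → ℝ) (hχ : ∀ i, CharB (χ i) (B i)) :
    ∃ C : ℝ, 0 < C ∧ ∀ h : L → ι → ℂ, (∀ l q, ‖h l q‖ ≤ 1) →
      ∀ (X V : ℕ) (Z : Finset L), 16 ≤ X → 1 ≤ V → V ^ (2 * Fintype.card L) ≤ X →
      (∀ q, ∑ l ∈ Z, ‖h l q‖ ≤ H ∧ ∑ l ∈ Z, ‖h l q‖ ≤ ((H * M - 1 : ℝ) + ∑ i, χ i q) / M) →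
      ∑ d ∈ BoxS ι X V Z, ‖FG D Λ h d‖ ≤
        C * Yh H X * Real.log X ^ (-(1 / (M : ℝ))) * (1 + Real.log V) ^ (Fintype.card L) := by
  classical
  obtain ⟨C1, h1⟩ := hD.cheb
  obtain ⟨C2, h2⟩ := hD.zt
  obtain ⟨K, hK, hub⟩ := ubfh (τ := τ) h1 h2 H M hHp hM
  obtain ⟨G, hH1, hH⟩ := harm h2
  have hM1 : (1 : ℝ) ≤ M := by exact_mod_cast hM
  have hM0 : (0 : ℝ) < M := by linarith
  have hH0 : (0 : ℝ) < G := by linarith
  set P : ℝ := (∏ i, B i) ^ (1 / (M : ℝ)) with hP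
  have hPB : 0 < ∏ i, B i := prod_pos fun i _ => by
    have := (hχ i).hB
    linarith
  have hP0 : 0 < P := Real.rpow_pos_of_pos hPB _
  refine ⟨4 * K * P * G ^ Fintype.card L, by positivity, fun h hh X V Z hX hV hVX hZ => ?_⟩
  have hlogX : 0 ≤ Real.log X := Real.log_natCast_nonneg X
  have hrp : 0 ≤ Real.log X ^ (-(1 / (M : ℝ))) := Real.rpow_nonneg hlogX _
  have hYX := Yh_nonneg H X
  rw [sum_split X V hV Z (fun d => ‖FG D Λ h d‖)]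
  have key : ∀ b ∈ SmB ι V Z,
      ∑ S ∈ (Sx ι (X / nmf b)).filter (fun S => Disjoint S (uni b)),
        ∑ d ∈ FamU Z S, ‖FG D Λ h (fun l => b l ∪ d l)‖ ≤
      4 * K * P * Yh H X * Real.log X ^ (-(1 / (M : ℝ))) * ((1 : ℝ) / nmf b) := by
    intro b hb
    have hP1 : 1 ≤ nmf b := one_le_nmf b
    have hPX : nmf b ^ 2 ≤ X := by
      refine le_trans (Nat.pow_le_pow_left (nmf_le_pow hb) 2) ?_
      rw [← pow_mul, mul_comm]
      exact hVX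
    have hδ0 : (0 : ℝ) < 1 / (M : ℝ) := by positivity
    have hδ1 : 1 / (M : ℝ) ≤ 1 := by
      rw [div_le_one hM0]
      linarith
    obtain ⟨hx2, hxX, hlog⟩ := div_log X (nmf b) (1 / (M : ℝ)) hX hP1 hPX hδ0 hδ1
    have hw : ∀ q : ι, 0 ≤ (∑ l ∈ Z, ‖h l q‖) ∧ (∑ l ∈ Z, ‖h l q‖) ≤ H ∧
        (∑ l ∈ Z, ‖h l q‖) ≤ ((H * M - 1 : ℝ) + ∑ i, χ i q) / M := fun q =>
      ⟨sum_nonneg fun l _ => norm_nonneg _, (hZ q).1, (hZ q).2⟩
    have hu := hub χ B hχ (fun q => ∑ l ∈ Z, ‖h l q‖) hw (X / nmf b) hx2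
    calc ∑ S ∈ (Sx ι (X / nmf b)).filter (fun S => Disjoint S (uni b)),
          ∑ d ∈ FamU Z S, ‖FG D Λ h (fun l => b l ∪ d l)‖
        ≤ ∑ S ∈ (Sx ι (X / nmf b)).filter (fun S => Disjoint S (uni b)),
          ∏ q ∈ S, ∑ l ∈ Z, ‖h l q‖ :=
          sum_le_sum fun S hS => smw_inner D Λ hh Z S b (mem_filter.1 hS).2
      _ ≤ ∑ S ∈ Sx ι (X / nmf b), ∏ q ∈ S, ∑ l ∈ Z, ‖h l q‖ :=
          sum_le_sum_of_subset_of_nonneg (filter_subset _ _)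
            fun S _ _ => prod_nonneg fun q _ => (hw q).1
      _ ≤ K * Yh H (X / nmf b) * Real.log ((X / nmf b : ℕ) : ℝ) ^ (-(1 / (M : ℝ))) * P := hu
      _ ≤ K * (Yh H X * (1 / nmf b)) * (4 * Real.log X ^ (-(1 / (M : ℝ)))) * P := by
          refine mul_le_mul_of_nonneg_right ?_ hP0.le
          have hYX := Yh_nonneg H X
          refine mul_le_mul ?_ hlog (Real.rpow_nonneg (Real.log_natCast_nonneg _) _) (by positivity)
          exact mul_le_mul_of_nonneg_left (Yh_div H X (nmf b) hP1 (by omega)) hK.le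
      _ = 4 * K * P * Yh H X * Real.log X ^ (-(1 / (M : ℝ))) * ((1 : ℝ) / nmf b) := by ring
  calc ∑ b ∈ SmB ι V Z, ∑ S ∈ (Sx ι (X / nmf b)).filter (fun S => Disjoint S (uni b)),
        ∑ d ∈ FamU Z S, ‖FG D Λ h (fun l => b l ∪ d l)‖
      ≤ ∑ b ∈ SmB ι V Z, 4 * K * P * Yh H X * Real.log X ^ (-(1 / (M : ℝ))) * ((1 : ℝ) / nmf b) :=
        sum_le_sum key
    _ = 4 * K * P * Yh H X * Real.log X ^ (-(1 / (M : ℝ))) * ∑ b ∈ SmB ι V Z, (1 : ℝ) / nmf b := by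
        rw [mul_sum]
    _ ≤ 4 * K * P * Yh H X * Real.log X ^ (-(1 / (M : ℝ))) *
          (G ^ Fintype.card L * (1 + Real.log V) ^ Fintype.card L) :=
        mul_le_mul_of_nonneg_left (harm_fam hH1 hH V hV Z) (by positivity)
    _ = 4 * K * P * G ^ Fintype.card L * Yh H X * Real.log X ^ (-(1 / (M : ℝ))) *
          (1 + Real.log V) ^ (Fintype.card L) := by ring

end Small

end

end Pool.Agent.Lib.MP_1a91b9_ntMN.G4
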