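import Pool.Agent.Lib.MP_1a91b9_ntMN.Y0

/-!
# MP_1a91b9_nt (multiquadratic fields, natural density), block Y: the middle estimate
-/

set_option autoImplicit false
set_option linter.unusedSectionVars false

namespace Pool.Agent.Lib.MP_1a91b9_ntMN

open Finset Pool.Agent.Lib.MP_1a91b9_ntH Pool.Agent.Lib.MP_1a91b9_ntQ
open Pool.Agent.Lib.MP_1a91b9_ntQ.Da Pool.Agent.Lib.MP_1a91b9_ntV Pool.Agent.Lib.MP_1a91b9_ntM
open Pool.Agent.Lib.MP_1a91b9_ntDV Pool.Agent.Lib.MP_1a91b9_ntMQ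
open Pool.Agent.Lib.MP_1a91b9_ntW (OKw)

noncomputable section

variable {L : Type} [Fintype L] [DecidableEq L] {ι : Type} [DecidableEq ι] {κ : Type} [Fintype κ]
  [DecidableEq κ] [PS ι]

private theorem Y2_chabs (D : Dat2 ι κ) (T : Finset ι) (c : κ → ZMod 2) (q : ι) :
    |D.ch T c q| ≤ 1 := by
  unfold Dat2.ch
  split_ifs
  · simp
  · exact (sg2_abs _).le

private def Y2_t {L : Type} [Fintype L] (lk : L → L → ZMod 2) (b : L → Finset ι) (l l' : L)
    (p : ι) : ZMod 2 :=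
  ∑ m, if p ∈ b m then lk l m + lk l' m else 0

open Classical in
private def Y2_T {L : Type} [Fintype L] (lk : L → L → ZMod 2) (b : L → Finset ι) (l l' : L) :
    Finset ι :=
  (uni b).filter fun p => Y2_t lk b l l' p ≠ 0

private theorem Y2_sumT {L : Type} [Fintype L] (lk : L → L → ZMod 2) (D : Dat2 ι κ)
    (b : L → Finset ι) (l l' : L) (q : ι) :
    ∑ m, lk l m * ∑ p ∈ b m, D.s q p + ∑ m, lk l' m * ∑ p ∈ b m, D.s q p =
      ∑ p ∈ Y2_T lk b l l', D.s q p := by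
  classical
  have h1 : ∑ p ∈ Y2_T lk b l l', D.s q p = ∑ p ∈ uni b, Y2_t lk b l l' p * D.s q p := by
    unfold Y2_T
    rw [sum_filter]
    refine sum_congr rfl fun p _ => ?_
    by_cases h : Y2_t lk b l l' p = 0
    · rw [if_neg (not_not.2 h), h, zero_mul]
    · rw [if_pos h, z2_ne h, one_mul]
  rw [h1]
  unfold Y2_t
  rw [sum_congr rfl fun p _ => sum_mul _ _ _, sum_comm, ← sum_add_distrib]
  refine sum_congr rfl fun m _ => ?_
  rw [← add_mul, mul_sum]
  have h4 : ∀ p ∈ b m, (lk l m + lk l' m) * D.s q p =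
      (if p ∈ b m then lk l m + lk l' m else 0) * D.s q p := fun p hp => by rw [if_pos hp]
  rw [sum_congr rfl h4]
  refine sum_subset (sub_uni b m) fun p _ hp2 => ?_
  rw [if_neg hp2, zero_mul]

/-- The product of two units with the same twist. -/
theorem conj_tau {t : ℂ} (ht : ‖t‖ = 1) (a b : ZMod 2) :
    ((t * e2 a) * (starRingEnd ℂ) (t * e2 b)).re = sg (a + b) := by
  have h1 : ((t * e2 a) * (starRingEnd ℂ) (t * e2 b)) = (t * (starRingEnd ℂ) t) * (e2 a * e2 b) := by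
    have h2 : (starRingEnd ℂ) (e2 b) = e2 b := by
      unfold e2
      exact Complex.conj_ofReal _
    rw [map_mul, h2]
    ring
  rw [h1, Complex.mul_conj', ht, ← e2_add]
  unfold e2
  rw [Complex.ofReal_one, one_pow, one_mul, Complex.ofReal_re]

/-- The middle estimate. -/
theorem LYt_mid {C : Type} {col : L → C} {Phi : L → L → ZMod 2} {n : L → ℝ} {h M : ℕ}
    {Us : Finset (Finset L)} {P : Finset L} {Q : L → ZMod 2} (hW : WYh col Phi n h M Us P Q)
    {D : Dat2 ι κ} {w : κ → ZMod 2} (hD : OKw D w) (r : ι → ZMod 2) (c : L → κ → ZMod 2)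
    {τ : L → ι → ℂ} (hτ : ∀ x q, ‖τ x q‖ = 1) (hc : ∀ x y, col x = col y → τ x = τ y) :
    ∃ C : ℝ, ∀ U ∈ UY Us P, ∀ b : L → Finset ι, PD b → (∀ l ∈ U, b l = ∅) → uni b ≠ ∅ →
    (∀ l, ∀ q ∈ b l, (LYt D w r Phi n P Q c τ).g l q ≠ 0) →
    ∃ ψ : ι → ℝ, SumB ψ ((C * (1 + Real.log (nm (uni b)))) ^ (2 * M)) ∧
      (∀ q, 0 ≤ (h * (2 * M : ℕ) - 1 : ℝ) + ψ q) ∧ ∀ q, q ∉ uni b →
        ‖HG D (LYt D w r Phi n P Q c τ) U b q‖ ≤ h ∧
          ‖HG D (LYt D w r Phi n P Q c τ) U b q‖ ≤ ((h * (2 * M : ℕ) - 1 : ℝ) + ψ q) / (2 * M : ℕ) := by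
  classical
  obtain ⟨C, hC1, hC⟩ := Pool.Agent.Lib.MP_1a91b9_ntW.psiW_sumB hD
  have hM2 : 2 ≤ M := hW.ws.two
  have hh : (1 : ℝ) ≤ (h : ℝ) := by exact_mod_cast hW.ws.hp
  have hMP : (2 : ℝ) ≤ (M : ℝ) := by exact_mod_cast hM2
  have hMP0 : (0 : ℝ) < (M : ℝ) := by linarith
  have hMQ : ((2 * M : ℕ) : ℝ) = 2 * (M : ℝ) := by
    push_cast
    ring
  have hMQ0 : (0 : ℝ) < ((2 * M : ℕ) : ℝ) := by linarith
  refine ⟨C, fun U hU b hb hbU hne _ => ?_⟩
  obtain ⟨hUs, hPU⟩ := mem_UY.1 hU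
  obtain ⟨p0, hp0⟩ := nonempty_iff_ne_empty.2 hne
  obtain ⟨m0, hm0⟩ := mem_uni.1 hp0
  have hm0U : m0 ∉ U := fun hm => by
    rw [hbU m0 hm] at hm0
    exact absurd hm0 (notMem_empty _)
  obtain ⟨l, hl, l', hl', hcol, hll⟩ := hW.ws.ex U hUs m0 hm0U
  have hnl := hW.ws.pos l
  have hnl' := hW.ws.pos l'
  have hn0 : ∀ x, 0 ≤ n x := hW.n0
  have hne' : l ≠ l' := fun e => hll (by rw [e])
  rw [← LYt_lk D w r Phi n P Q c τ, ← LYt_lk D w r Phi n P Q c τ] at hll
  set T := Y2_T (LYt D w r Phi n P Q c τ).lk b l l' with hT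
  set c₁ : κ → ZMod 2 := c l + c l' with hc1
  have hTs : T ⊆ uni b := filter_subset _ _
  have hTne : T ≠ ∅ := by
    refine nonempty_iff_ne_empty.1 ⟨p0, ?_⟩
    rw [hT, Y2_T]
    refine mem_filter.2 ⟨hp0, ?_⟩
    have h1 : Y2_t (LYt D w r Phi n P Q c τ).lk b l l' p0 =
        (LYt D w r Phi n P Q c τ).lk l m0 + (LYt D w r Phi n P Q c τ).lk l' m0 := by
      unfold Y2_t
      rw [sum_eq_single m0, if_pos hm0]
      · intro m _ hm
        exact if_neg fun h => (disjoint_left.1 (hb m m0 hm)) h hm0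
      · intro h
        exact absurd (mem_univ _) h
    rw [h1]
    intro h
    have h5 : ∀ x y : ZMod 2, x + y = 0 → x = y := by decide
    exact hll (h5 _ _ h)
  have hTn : (1 : ℝ) ≤ nm T := by exact_mod_cast one_le_nm T
  have hlT : 0 ≤ Real.log (nm T) := Real.log_nonneg hTn
  have hlog : Real.log (nm T) ≤ Real.log (nm (uni b)) := by
    refine Real.log_le_log (by linarith) ?_
    exact_mod_cast Pool.Agent.Lib.MP_1a91b9_ntQ.D.nm_mono hTs
  refine ⟨Pool.Agent.Lib.MP_1a91b9_ntW.psiW D w T c₁, (hC T c₁ (Or.inl hTne)).mono ?_, fun q => ?_, fun q hq => ?_⟩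
  · have h1 : 1 ≤ C * (1 + Real.log (nm (uni b))) := by nlinarith
    calc (C * (1 + Real.log (nm T))) ^ 3 ≤ (C * (1 + Real.log (nm (uni b)))) ^ 3 := by
          refine pow_le_pow_left₀ (by positivity) ?_ 3
          exact mul_le_mul_of_nonneg_left (by linarith) (by linarith)
      _ ≤ _ := pow_le_pow_right₀ h1 (by omega)
  · have := Pool.Agent.Lib.MP_1a91b9_ntW.psiW_ge (D := D) (w := w) q T c₁
    rw [hMQ]
    nlinarith
  · by_cases hq0 : D.dg w q = 0
    · -- all the labels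
      have hH : HG D (LYt D w r Phi n P Q c τ) U b q =
          ∑ z ∈ U, (n z : ℂ) * (τ z q * e2 (D.dg (c z) q + xg D (LYt D w r Phi n P Q c τ) b z q)) := by
        unfold HG
        refine sum_congr rfl fun z hz => ?_
        rw [gYt_zero D r Phi n P Q c τ hq0, hW.q U hUs hPU z hz, mul_zero, zero_add, e2_add]
        ring
      have hTq : q ∉ T := fun h => hq (hTs h)
      have hsg : sg ((D.dg (c l) q + xg D (LYt D w r Phi n P Q c τ) b l q) +
          (D.dg (c l') q + xg D (LYt D w r Phi n P Q c τ) b l' q)) = D.ch T c₁ q := by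
        unfold Dat2.ch
        rw [if_neg hTq]
        congr 1
        have h1 : D.ex1 T c₁ q = D.dg c₁ q + ∑ p ∈ T, D.s q p := rfl
        rw [h1, hT, ← Y2_sumT (LYt D w r Phi n P Q c τ).lk D b l l' q, hc1, dg_add,
          xg_gen D hD.tw (LYt D w r Phi n P Q c τ) b l q hq, xg_gen D hD.tw (LYt D w r Phi n P Q c τ) b l' q hq,
          hq0]
        ring
      have hns := norm_wsumC U n hn0
        (fun z => τ z q * e2 (D.dg (c z) q + xg D (LYt D w r Phi n P Q c τ) b z q))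
        (fun z => by rw [norm_mul, hτ, norm_e2, mul_one]) (a := 2 / (M : ℝ))
        (by positivity) hl hl' hne' hnl hnl'
      have hcc : τ l' q = τ l q := congrFun (hc l' l hcol.symm) q
      rw [hcc, conj_tau (hτ l q), hsg, hW.ws.sum U hUs] at hns
      have e1 : (h : ℝ) - 2 / (M : ℝ) / 2 * (1 - D.ch T c₁ q) =
          ((h * (2 * M : ℕ) - 1 : ℝ) + Pool.Agent.Lib.MP_1a91b9_ntW.psiW D w T c₁ q) / (2 * M : ℕ) := by
        rw [Pool.Agent.Lib.MP_1a91b9_ntW.psiW_zero hq0, hMQ]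
        field_simp
        ring
      rw [← hH, e1] at hns
      refine ⟨hns.trans ?_, hns⟩
      rw [div_le_iff₀ hMQ0, Pool.Agent.Lib.MP_1a91b9_ntW.psiW_zero hq0]
      have := (abs_le.1 (Y2_chabs D T c₁ q)).2
      linarith
    · -- only the labels of P
      have hn : ‖HG D (LYt D w r Phi n P Q c τ) U b q‖ ≤ h := by
        unfold HG
        refine (norm_sum_le _ _).trans ?_
        have h2 : ∀ z ∈ U, ‖(LYt D w r Phi n P Q c τ).g z q * e2 (xg D (LYt D w r Phi n P Q c τ) b z q)‖ =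
            if z ∈ P then (1 : ℝ) else 0 := by
          intro z _
          rw [norm_mul, norm_e2, mul_one]
          by_cases hz : z ∈ P
          · rw [if_pos hz, gYt_one D r Phi n P Q c τ hq0 hz, norm_mul, norm_e2, hτ, mul_one]
          · rw [if_neg hz, gYt_ne D r Phi n P Q c τ hq0 hz, norm_zero]
        rw [sum_congr rfl h2, ← sum_filter, sum_const, nsmul_eq_mul, mul_one, ← hW.card, Nat.cast_le]
        exact card_le_card fun z hz => (mem_filter.1 hz).2
      rw [Pool.Agent.Lib.MP_1a91b9_ntW.psiW_one hq0, sub_add_cancel, mul_div_assoc, div_self hMQ0.ne', mul_one]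
      exact ⟨hn, hn⟩

end

end Pool.Agent.Lib.MP_1a91b9_ntMN
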