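import Pool.Agent.Lib.MP_1a91b9_ntMN.N0

/-!
# MP_1a91b9_nt (all the multiquadratic fields): the rules for `CovLI`
-/

set_option autoImplicit false
set_option linter.unusedSectionVars false

namespace Pool.Agent.Lib.MP_1a91b9_ntMN

open Finset
open Pool.Agent.Lib.MP_1a91b9_ntH (PS nm Sx mem_Sx nm_union one_le_nm)
open Pool.Agent.Lib.MP_1a91b9_ntMQ (tup mem_tup)

noncomputable section

variable {ι : Type} [DecidableEq ι] [PS ι] {r : ℕ}

theorem cov_sub {S : Finset ι} {T : Fin r → Finset ι} (h : T ∈ cov r S) (i : Fin r) : T i ⊆ S := by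
  rw [← mem_cov.1 h]
  exact subset_biUnion_of_mem T (mem_univ i)

variable {G : Type} [AddCommGroup G] {a : ι → G}

theorem CovLI.mono {B : Finset ι} {c : ℝ} {P Q : (Fin r → Finset ι) → Prop} (h : CovLI a r B c P)
    (hPQ : ∀ T, (∀ i, Disjoint (T i) B) → P T → Q T) : CovLI a r B c Q := by
  classical
  intro g ε hε
  obtain ⟨X₀, hX₀⟩ := h g ε hε
  refine ⟨X₀, fun X hX => (hX₀ X hX).trans (sum_le_sum fun S hS => ?_)⟩
  refine Nat.cast_le.2 (card_le_card fun T hT => ?_)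
  rw [mem_filter] at hS hT ⊢
  exact ⟨hT.1, hT.2.1, hPQ T (fun i => Disjoint.mono_left (cov_sub hT.1 i) hS.2) hT.2.2⟩

theorem CovLI.anti {B : Finset ι} {c c' : ℝ} {P : (Fin r → Finset ι) → Prop} (h : CovLI a r B c P)
    (hc : c' ≤ c) : CovLI a r B c' P := by
  classical
  intro g ε hε
  obtain ⟨X₀, hX₀⟩ := h g ε hε
  refine ⟨X₀, fun X hX => le_trans ?_ (hX₀ X hX)⟩
  have h1 : (0 : ℝ) ≤ ∑ S ∈ (Sx ι X).filter (fun S => Disjoint S B),
      (((cov r S).filter (Cl a g)).card : ℝ) := sum_nonneg fun S _ => Nat.cast_nonneg _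
  have h2 := mul_le_mul_of_nonneg_right hc h1
  linarith

private theorem N1_key {B U W : Finset ι} (hU : Disjoint U B) (hW : W ⊆ B) :
    (U ∪ W) ∩ B = W ∧ (U ∪ W) \ B = U := by
  constructor
  · ext x
    rw [mem_inter, mem_union]
    refine ⟨fun hx => ?_, fun hx => ⟨Or.inr hx, hW hx⟩⟩
    rcases hx.1 with h | h
    · exact absurd hx.2 (disjoint_left.1 hU h)
    · exact h
  · ext x
    rw [mem_sdiff, mem_union]
    refine ⟨fun hx => ?_, fun hx => ⟨Or.inl hx, disjoint_left.1 hU hx⟩⟩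
    rcases hx.1 with h | h
    · exact h
    · exact absurd (hW h) hx.2

/-- The covering tuples of all the sets from the covering tuples of the sets outside `B`. -/
theorem sum_cov (B : Finset ι) (P : (Fin r → Finset ι) → Prop) [DecidablePred P] (X : ℕ) :
    ∑ S ∈ Sx ι X, ((cov r S).filter P).card =
      ∑ B' ∈ tup r B, ∑ U ∈ (Sx ι (X / nm (univ.biUnion B'))).filter (fun U => Disjoint U B),
        ((cov r U).filter fun V => P fun i => V i ∪ B' i).card := by
  classical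
  rw [← card_sigma]
  have h1 : ∀ B' : Fin r → Finset ι,
      ∑ U ∈ (Sx ι (X / nm (univ.biUnion B'))).filter (fun U => Disjoint U B),
        ((cov r U).filter fun V => P fun i => V i ∪ B' i).card =
      (((Sx ι (X / nm (univ.biUnion B'))).filter (fun U => Disjoint U B)).sigma fun U =>
        (cov r U).filter fun V => P fun i => V i ∪ B' i).card := fun B' => (card_sigma _ _).symm
  rw [sum_congr rfl fun B' _ => h1 B', ← card_sigma]
  have hcovU : ∀ T : Fin r → Finset ι, ∀ S : Finset ι, univ.biUnion T = S →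
      univ.biUnion (fun i => T i \ B) = S \ B := by
    intro T S h
    ext x
    rw [mem_biUnion, mem_sdiff, ← h, mem_biUnion]
    constructor
    · rintro ⟨i, -, hi⟩
      rw [mem_sdiff] at hi
      exact ⟨⟨i, mem_univ i, hi.1⟩, hi.2⟩
    · rintro ⟨⟨i, -, hi⟩, hx⟩
      exact ⟨i, mem_univ i, mem_sdiff.2 ⟨hi, hx⟩⟩
  have hcovB : ∀ T : Fin r → Finset ι, ∀ S : Finset ι, univ.biUnion T = S →
      univ.biUnion (fun i => T i ∩ B) = S ∩ B := by
    intro T S h
    ext x
    rw [mem_biUnion, mem_inter, ← h, mem_biUnion]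
    constructor
    · rintro ⟨i, -, hi⟩
      rw [mem_inter] at hi
      exact ⟨⟨i, mem_univ i, hi.1⟩, hi.2⟩
    · rintro ⟨⟨i, -, hi⟩, hx⟩
      exact ⟨i, mem_univ i, mem_inter.2 ⟨hi, hx⟩⟩
  refine card_bij'
    (fun p _ => (⟨fun i => p.2 i ∩ B, ⟨p.1 \ B, fun i => p.2 i \ B⟩⟩ :
      Σ _ : Fin r → Finset ι, Σ _ : Finset ι, Fin r → Finset ι))
    (fun p _ => (⟨p.2.1 ∪ univ.biUnion p.1, fun i => p.2.2 i ∪ p.1 i⟩ :
      Σ _ : Finset ι, Fin r → Finset ι)) ?_ ?_ ?_ ?_
  · rintro ⟨S, T⟩ hp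
    rw [mem_sigma, mem_filter, mem_Sx, mem_cov] at hp
    obtain ⟨h2, h3, h4⟩ := hp
    rw [mem_sigma, mem_sigma, mem_filter, mem_filter, mem_tup, mem_cov, mem_Sx]
    refine ⟨fun i => inter_subset_right, ⟨?_, disjoint_sdiff_self_left⟩, hcovU T S h3, ?_⟩
    · rw [hcovB T S h3]
      rw [Nat.le_div_iff_mul_le (one_le_nm _)]
      refine le_trans (le_of_eq ?_) h2
      show nm (S \ B) * nm (S ∩ B) = nm S
      rw [← nm_union (disjoint_sdiff_inter S B), sdiff_union_inter]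
    · have e : (fun i => T i \ B ∪ T i ∩ B) = T := funext fun i => sdiff_union_inter _ _
      show P fun i => T i \ B ∪ T i ∩ B
      rw [e]
      exact h4
  · rintro ⟨B', U, V⟩ hp
    rw [mem_sigma, mem_sigma, mem_filter, mem_filter, mem_tup, mem_cov, mem_Sx] at hp
    obtain ⟨h2, ⟨h3, h4⟩, h5, h6⟩ := hp
    rw [mem_sigma, mem_filter, mem_Sx, mem_cov]
    have hBs : univ.biUnion B' ⊆ B := biUnion_subset.2 fun i _ => h2 i
    refine ⟨?_, ?_, h6⟩
    · show nm (U ∪ univ.biUnion B') ≤ X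
      rw [nm_union (disjoint_of_subset_right hBs h4)]
      exact (Nat.le_div_iff_mul_le (one_le_nm _)).1 h3
    · show univ.biUnion (fun i => V i ∪ B' i) = U ∪ univ.biUnion B'
      have h5' : univ.biUnion V = U := h5
      ext x
      rw [mem_biUnion, mem_union, ← h5', mem_biUnion, mem_biUnion]
      constructor
      · rintro ⟨i, hi, hx⟩
        rcases mem_union.1 hx with hx | hx
        · exact Or.inl ⟨i, hi, hx⟩
        · exact Or.inr ⟨i, hi, hx⟩
      · rintro (⟨i, hi, hx⟩ | ⟨i, hi, hx⟩)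
        · exact ⟨i, hi, mem_union_left _ hx⟩
        · exact ⟨i, hi, mem_union_right _ hx⟩
  · rintro ⟨S, T⟩ hp
    rw [mem_sigma, mem_filter, mem_Sx, mem_cov] at hp
    obtain ⟨-, h3, -⟩ := hp
    have h3' : univ.biUnion T = S := h3
    show (⟨S \ B ∪ univ.biUnion (fun i => T i ∩ B), fun i => T i \ B ∪ T i ∩ B⟩ :
      Σ _ : Finset ι, Fin r → Finset ι) = ⟨S, T⟩
    have e1 : S \ B ∪ univ.biUnion (fun i => T i ∩ B) = S := by
      rw [hcovB T S h3', sdiff_union_inter]
    have e2 : (fun i => T i \ B ∪ T i ∩ B) = T := funext fun i => sdiff_union_inter _ _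
    rw [e1, e2]
  · rintro ⟨B', U, V⟩ hp
    rw [mem_sigma, mem_sigma, mem_filter, mem_filter, mem_tup, mem_cov, mem_Sx] at hp
    obtain ⟨h2, ⟨h3, h4⟩, h5, h6⟩ := hp
    have h5' : univ.biUnion V = U := h5
    have hBs : univ.biUnion B' ⊆ B := biUnion_subset.2 fun i _ => h2 i
    have h7 : ∀ i, Disjoint (V i) B := fun i => by
      refine Disjoint.mono_left ?_ h4
      show V i ⊆ U
      rw [← h5']
      exact subset_biUnion_of_mem V (mem_univ i)
    have k : ∀ i, (V i ∪ B' i) ∩ B = B' i ∧ (V i ∪ B' i) \ B = V i := fun i =>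
      N1_key (h7 i) (h2 i)
    have e1 : (fun i => (V i ∪ B' i) ∩ B) = B' := funext fun i => (k i).1
    have e2 : (fun i => (V i ∪ B' i) \ B) = V := funext fun i => (k i).2
    have e3 : (U ∪ univ.biUnion B') \ B = U := (N1_key h4 hBs).2
    show (⟨fun i => (V i ∪ B' i) ∩ B, ⟨(U ∪ univ.biUnion B') \ B, fun i => (V i ∪ B' i) \ B⟩⟩ :
      Σ _ : Fin r → Finset ι, Σ _ : Finset ι, Fin r → Finset ι) = ⟨B', ⟨U, V⟩⟩
    rw [e1, e2, e3]

theorem sum_cov_le (X Y : ℕ) (h : X ≤ Y) :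
    ∑ S ∈ Sx ι X, ((cov r S).card : ℝ) ≤ ∑ S ∈ Sx ι Y, ((cov r S).card : ℝ) := by
  refine sum_le_sum_of_subset_of_nonneg (fun S hS => ?_) fun S _ _ => Nat.cast_nonneg _
  rw [mem_Sx] at hS ⊢
  exact hS.trans h

theorem cl_union {B : Finset ι} {g : Fin r → G} {V B' : Fin r → Finset ι}
    (hV : ∀ i, Disjoint (V i) B) (hB' : ∀ i, B' i ⊆ B) :
    Cl a g (fun i => V i ∪ B' i) ↔ Cl a (fun i => g i - ∑ q ∈ B' i, a q) V := by
  unfold Cl
  refine forall_congr' fun k => ?_
  rw [sum_union (disjoint_of_subset_right (hB' k) (hV k)), eq_sub_iff_add_eq]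

/-- From the sets outside `B` to all the sets. -/
theorem CovLI.glue {B : Finset ι} {c : ℝ} {P : (Fin r → Finset ι) → Prop}
    (h : ∀ B' : Fin r → Finset ι, (∀ i, B' i ⊆ B) → CovLI a r B c fun T => P (fun i => T i ∪ B' i)) :
    CovLI a r ∅ c P := by
  classical
  intro g ε hε
  obtain ⟨n, hn⟩ : ∃ n : ℝ, n = ((tup r B).card : ℝ) + 1 := ⟨_, rfl⟩
  have hn0 : 0 < n := by
    rw [hn]
    positivity
  have hε' : 0 < ε / n := by positivity
  choose X₀ hX₀ using fun (B' : Fin r → Finset ι) (hB' : ∀ i, B' i ⊆ B) =>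
    h B' hB' (fun i => g i - ∑ q ∈ B' i, a q) (ε / n) hε'
  refine ⟨∑ B' ∈ (tup r B).attach, X₀ B'.1 (mem_tup.1 B'.2) * nm B + nm B, fun X hX => ?_⟩
  have e0 : ∀ f : Finset ι → ℝ, ∑ S ∈ (Sx ι X).filter (fun S => Disjoint S ∅), f S =
      ∑ S ∈ Sx ι X, f S := fun f => by
    rw [filter_true_of_mem fun S _ => disjoint_empty_right S]
  rw [e0, e0]
  have e1 : ∑ S ∈ Sx ι X, (((cov r S).filter (Cl a g)).card : ℝ) =
      ∑ B' ∈ tup r B, ∑ U ∈ (Sx ι (X / nm (univ.biUnion B'))).filter (fun U => Disjoint U B),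
        (((cov r U).filter fun V => Cl a g fun i => V i ∪ B' i).card : ℝ) := by
    have h1 := sum_cov (r := r) B (Cl a g) X
    exact_mod_cast h1
  have e2 : ∑ S ∈ Sx ι X, (((cov r S).filter fun T => Cl a g T ∧ P T).card : ℝ) =
      ∑ B' ∈ tup r B, ∑ U ∈ (Sx ι (X / nm (univ.biUnion B'))).filter (fun U => Disjoint U B),
        (((cov r U).filter fun V => Cl a g (fun i => V i ∪ B' i) ∧ P fun i => V i ∪ B' i).card : ℝ) := by
    have h1 := sum_cov (r := r) B (fun T => Cl a g T ∧ P T) X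
    exact_mod_cast h1
  rw [e1, e2, mul_sum, tsub_le_iff_right]
  have key : ∀ B' ∈ tup r B,
      c * ∑ U ∈ (Sx ι (X / nm (univ.biUnion B'))).filter (fun U => Disjoint U B),
        (((cov r U).filter fun V => Cl a g fun i => V i ∪ B' i).card : ℝ) ≤
      ∑ U ∈ (Sx ι (X / nm (univ.biUnion B'))).filter (fun U => Disjoint U B),
        (((cov r U).filter fun V => Cl a g (fun i => V i ∪ B' i) ∧ P fun i => V i ∪ B' i).card : ℝ) +
      ε / n * ∑ S ∈ Sx ι X, ((cov r S).card : ℝ) := by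
    intro B' hB'
    have hB'' := mem_tup.1 hB'
    have hBs : univ.biUnion B' ⊆ B := biUnion_subset.2 fun i _ => hB'' i
    have h0 : X₀ B' hB'' ≤ X / nm (univ.biUnion B') := by
      rw [Nat.le_div_iff_mul_le (one_le_nm _)]
      have h1 : X₀ B' hB'' * nm B ≤ X := by
        refine le_trans ?_ hX
        refine le_trans ?_ (Nat.le_add_right _ _)
        exact Finset.single_le_sum (f := fun B' : (tup r B : Finset (Fin r → Finset ι)) =>
          X₀ B'.1 (mem_tup.1 B'.2) * nm B) (fun _ _ => Nat.zero_le _) (mem_attach _ ⟨B', hB'⟩)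
      refine le_trans (Nat.mul_le_mul_left _ ?_) h1
      have h2 : nm B = nm (B \ univ.biUnion B') * nm (univ.biUnion B') := by
        rw [← nm_union disjoint_sdiff_self_left, sdiff_union_of_subset hBs]
      rw [h2]
      exact Nat.le_mul_of_pos_left _ (one_le_nm _)
    have h1 := hX₀ B' hB'' _ h0
    have hcl : ∀ U ∈ (Sx ι (X / nm (univ.biUnion B'))).filter (fun U => Disjoint U B),
        ∀ V ∈ cov r U, (Cl a g (fun i => V i ∪ B' i) ↔
          Cl a (fun i => g i - ∑ q ∈ B' i, a q) V) := by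
      intro U hU V hV
      rw [mem_filter] at hU
      exact cl_union (fun i => Disjoint.mono_left (cov_sub hV i) hU.2) hB''
    have h2 : ∑ U ∈ (Sx ι (X / nm (univ.biUnion B'))).filter (fun U => Disjoint U B),
        (((cov r U).filter fun V => Cl a g fun i => V i ∪ B' i).card : ℝ) =
        ∑ U ∈ (Sx ι (X / nm (univ.biUnion B'))).filter (fun U => Disjoint U B),
          (((cov r U).filter (Cl a (fun i => g i - ∑ q ∈ B' i, a q))).card : ℝ) :=
      sum_congr rfl fun U hU => by rw [filter_congr fun V hV => hcl U hU V hV]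
    have h3 : ∑ U ∈ (Sx ι (X / nm (univ.biUnion B'))).filter (fun U => Disjoint U B),
        (((cov r U).filter fun V => Cl a g (fun i => V i ∪ B' i) ∧ P fun i => V i ∪ B' i).card : ℝ) =
        ∑ U ∈ (Sx ι (X / nm (univ.biUnion B'))).filter (fun U => Disjoint U B),
          (((cov r U).filter fun V => Cl a (fun i => g i - ∑ q ∈ B' i, a q) V ∧
            P fun i => V i ∪ B' i).card : ℝ) :=
      sum_congr rfl fun U hU => by rw [filter_congr fun V hV => and_congr_left' (hcl U hU V hV)]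
    have h4 := mul_le_mul_of_nonneg_left (sum_cov_le (ι := ι) (r := r) _ _
      (Nat.div_le_self X (nm (univ.biUnion B')))) hε'.le
    rw [h2, h3]
    linarith
  refine (sum_le_sum key).trans ?_
  rw [sum_add_distrib, sum_const, nsmul_eq_mul]
  have h5 : ((tup r B).card : ℝ) * (ε / n * ∑ S ∈ Sx ι X, ((cov r S).card : ℝ)) ≤
      ε * ∑ S ∈ Sx ι X, ((cov r S).card : ℝ) := by
    have h6 : (0 : ℝ) ≤ ∑ S ∈ Sx ι X, ((cov r S).card : ℝ) := sum_nonneg fun S _ => Nat.cast_nonneg _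
    rw [← mul_assoc]
    refine mul_le_mul_of_nonneg_right ?_ h6
    rw [mul_div_assoc', div_le_iff₀ hn0, hn]
    nlinarith
  linarith

end

end Pool.Agent.Lib.MP_1a91b9_ntMN
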