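import Pool.Agent.Lib.MP_1a91b9_ntDV.T3
import Pool.Agent.Lib.MP_1a91b9_ntMN.N1

/-!
# MP_1a91b9_nt (all the multiquadratic fields): the number of the tuples of divisors
-/

set_option autoImplicit false
set_option linter.unusedSectionVars false

namespace Pool.Agent.Lib.MP_1a91b9_ntMN

open Finset
open Pool.Agent.Lib.MP_1a91b9_ntH (PS nm Sx mem_Sx nm_union one_le_nm)
open Pool.Agent.Lib.MP_1a91b9_ntMQ (tup mem_tup)
open Pool.Agent.Lib.MP_1a91b9_ntDV (Rep)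

noncomputable section

variable {R : Type} [CommRing R] [IsDomain R] {ι : Type} [DecidableEq ι] [PS ι] {I : Type}
  {q : ι → R} {μ : I → R}

theorem nrm_mul (h : Rep q μ) (i : I) (S : Finset ι) :
    (Algebra.norm ℤ (μ i * ∏ x ∈ S, q x)).natAbs = (Algebra.norm ℤ (μ i)).natAbs * nm S := by
  have h1 : (Algebra.norm ℤ (∏ x ∈ S, q x)).natAbs = nm S := by
    have h2 : (Algebra.norm ℤ (∏ x ∈ S, q x)).natAbs =
        Int.natAbsHom (∏ x ∈ S, Algebra.norm ℤ (q x)) := by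
      rw [map_prod]
      rfl
    rw [h2, map_prod, Pool.Agent.Lib.MP_1a91b9_ntH.nm]
    exact Finset.prod_congr rfl fun x _ => h.nrm x
  rw [map_mul, Int.natAbs_mul, h1]

theorem nm_mono {S T : Finset ι} (h : S ⊆ T) : nm S ≤ nm T := by
  have h2 : nm T = nm (T \ S) * nm S := by
    rw [← nm_union disjoint_sdiff_self_left, sdiff_union_of_subset h]
  rw [h2]
  exact Nat.le_mul_of_pos_left _ (one_le_nm _)

theorem abs_natAbs (z : ℤ) (X : ℝ) : ((|z| : ℤ) : ℝ) ≤ X ↔ (z.natAbs : ℝ) ≤ X := by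
  rw [Int.abs_eq_natAbs, Int.cast_natCast]

variable [Fintype I]

open Classical in
/-- The multipliers which are divisible by all the `μ (j k)`. -/
def Wj (μ : I → R) {r : ℕ} (j : Fin r → I) : Finset I := univ.filter fun i => ∀ k, μ (j k) ∣ μ i

theorem mem_Wj {r : ℕ} {j : Fin r → I} {i : I} : i ∈ Wj μ j ↔ ∀ k, μ (j k) ∣ μ i := by
  unfold Wj
  simp only [mem_filter, mem_univ, true_and]

/-- The least norm of them. -/
def bj (μ : I → R) {r : ℕ} (j : Fin r → I) : ℕ :=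
  sInf {n | ∃ i ∈ Wj μ j, n = (Algebra.norm ℤ (μ i)).natAbs}

theorem bj_mem {r : ℕ} {j : Fin r → I} (hj : (Wj μ j).Nonempty) :
    ∃ i ∈ Wj μ j, bj μ j = (Algebra.norm ℤ (μ i)).natAbs := by
  obtain ⟨i, hi⟩ := hj
  exact Nat.sInf_mem (s := {n | ∃ i ∈ Wj μ j, n = (Algebra.norm ℤ (μ i)).natAbs}) ⟨_, i, hi, rfl⟩

theorem bj_le {r : ℕ} {j : Fin r → I} {i : I} (hi : i ∈ Wj μ j) :
    bj μ j ≤ (Algebra.norm ℤ (μ i)).natAbs :=
  Nat.sInf_le ⟨i, hi, rfl⟩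

theorem bj_pos (h : Rep q μ) {r : ℕ} {j : Fin r → I} (hj : (Wj μ j).Nonempty) : 0 < bj μ j := by
  obtain ⟨i, hi, e⟩ := bj_mem hj
  rw [e]
  exact Int.natAbs_pos.2 (h.ne i)

theorem ex_iff (h : Rep q μ) {r : ℕ} (j : Fin r → I) (T : Fin r → Finset ι) (X : ℝ) :
    (∃ A : R, Squarefree A ∧ ((|Algebra.norm ℤ A| : ℤ) : ℝ) ≤ X ∧
      ∀ k, μ (j k) * ∏ x ∈ T k, q x ∣ A) ↔
    (Wj μ j).Nonempty ∧ ((bj μ j * nm (univ.biUnion T) : ℕ) : ℝ) ≤ X := by
  constructor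
  · rintro ⟨A, h1, h2, h3⟩
    obtain ⟨i, S, rfl⟩ := h.surj A h1
    have h4 : ∀ k, μ (j k) ∣ μ i ∧ T k ⊆ S := fun k => h.dvd_iff.1 (h3 k)
    have h5 : i ∈ Wj μ j := mem_Wj.2 fun k => (h4 k).1
    refine ⟨⟨i, h5⟩, le_trans ?_ ((abs_natAbs _ _).1 h2)⟩
    rw [nrm_mul h]
    exact Nat.cast_le.2 (Nat.mul_le_mul (bj_le h5)
      (nm_mono (biUnion_subset.2 fun k _ => (h4 k).2)))
  · rintro ⟨h1, h2⟩
    obtain ⟨i, hi, e⟩ := bj_mem h1
    refine ⟨μ i * ∏ x ∈ univ.biUnion T, q x, h.sqf i _, ?_, fun k =>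
      h.dvd_iff.2 ⟨mem_Wj.1 hi k, subset_biUnion_of_mem T (mem_univ k)⟩⟩
    rw [abs_natAbs, nrm_mul h, ← e]
    exact h2

open Classical in
/-- **The number of the tuples.** -/
theorem card_lc (h : Rep q μ) {r : ℕ} (X : ℝ) (hX : 0 ≤ X) (P : (Fin r → R) → Prop) :
    Nat.card {d : Fin r → R // (∃ A : R, Squarefree A ∧ ((|Algebra.norm ℤ A| : ℤ) : ℝ) ≤ X ∧
      ∀ k, d k ∣ A) ∧ P d} =
      ∑ j ∈ (univ : Finset (Fin r → I)).filter (fun j => (Wj μ j).Nonempty),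
        ∑ S ∈ Sx ι ⌊X / bj μ j⌋₊,
          ((cov r S).filter fun T => P (fun k => μ (j k) * ∏ x ∈ T k, q x)).card := by
  obtain ⟨F, hF⟩ : ∃ F : Finset ((Fin r → I) × (Fin r → Finset ι)),
      F = ((univ : Finset (Fin r → I)).filter (fun j => (Wj μ j).Nonempty)).biUnion fun j =>
        (Sx ι ⌊X / bj μ j⌋₊).biUnion fun S =>
          ((cov r S).filter fun T => P (fun k => μ (j k) * ∏ x ∈ T k, q x)).image fun T => (j, T) :=
    ⟨_, rfl⟩
  have hmem : ∀ p : (Fin r → I) × (Fin r → Finset ι), p ∈ F ↔ (Wj μ p.1).Nonempty ∧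
      ((bj μ p.1 * nm (univ.biUnion p.2) : ℕ) : ℝ) ≤ X ∧
      P (fun k => μ (p.1 k) * ∏ x ∈ p.2 k, q x) := by
    rintro ⟨j, T⟩
    rw [hF, mem_biUnion]
    constructor
    · rintro ⟨j', hj', h1⟩
      rw [mem_biUnion] at h1
      obtain ⟨S, hS, h2⟩ := h1
      rw [mem_image] at h2
      obtain ⟨T', hT', h3⟩ := h2
      rw [Prod.mk.injEq] at h3
      obtain ⟨rfl, rfl⟩ := h3
      rw [mem_filter] at hj' hT'
      rw [mem_Sx, ← mem_cov.1 hT'.1, Nat.le_floor_iff (by positivity),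
        le_div_iff₀ (by exact_mod_cast bj_pos h hj'.2)] at hS
      refine ⟨hj'.2, ?_, hT'.2⟩
      push_cast
      rw [mul_comm]
      exact hS
    · rintro ⟨h1, h2, h3⟩
      refine ⟨j, mem_filter.2 ⟨mem_univ _, h1⟩, mem_biUnion.2 ⟨univ.biUnion T, ?_, mem_image.2
        ⟨T, mem_filter.2 ⟨mem_cov.2 rfl, h3⟩, rfl⟩⟩⟩
      rw [mem_Sx, Nat.le_floor_iff (by positivity),
        le_div_iff₀ (by exact_mod_cast bj_pos h h1)]
      push_cast at h2
      rw [mul_comm]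
      exact h2
  have hcF : F.card = ∑ j ∈ (univ : Finset (Fin r → I)).filter (fun j => (Wj μ j).Nonempty),
        ∑ S ∈ Sx ι ⌊X / bj μ j⌋₊,
          ((cov r S).filter fun T => P (fun k => μ (j k) * ∏ x ∈ T k, q x)).card := by
    rw [hF, card_biUnion]
    · refine sum_congr rfl fun j _ => ?_
      rw [card_biUnion]
      · refine sum_congr rfl fun S _ => ?_
        exact card_image_of_injective _ fun T T' hTT => (Prod.mk.injEq _ _ _ _ ▸ hTT).2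
      · intro S _ S' _ hne
        rw [Function.onFun, disjoint_left]
        intro p hp hp'
        rw [mem_image] at hp hp'
        obtain ⟨T, hT, rfl⟩ := hp
        obtain ⟨T', hT', e⟩ := hp'
        rw [Prod.mk.injEq] at e
        obtain ⟨-, rfl⟩ := e
        rw [mem_filter, mem_cov] at hT hT'
        exact hne (hT.1.symm.trans hT'.1)
    · intro j _ j' _ hne
      rw [Function.onFun, disjoint_left]
      intro p hp hp'
      rw [mem_biUnion] at hp hp'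
      obtain ⟨S, -, hp⟩ := hp
      obtain ⟨S', -, hp'⟩ := hp'
      rw [mem_image] at hp hp'
      obtain ⟨T, -, rfl⟩ := hp
      obtain ⟨T', -, e⟩ := hp'
      rw [Prod.mk.injEq] at e
      exact hne e.1.symm
  obtain ⟨f, hf⟩ : ∃ f : (Fin r → I) × (Fin r → Finset ι) → Fin r → R,
      f = fun p k => μ (p.1 k) * ∏ x ∈ p.2 k, q x := ⟨_, rfl⟩
  have hinj : Function.Injective f := by
    rintro ⟨j, T⟩ ⟨j', T'⟩ e
    rw [hf] at e
    have h1 : ∀ k, j k = j' k ∧ T k = T' k := fun k => h.inj _ _ _ _ (congrFun e k)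
    rw [Prod.mk.injEq]
    exact ⟨funext fun k => (h1 k).1, funext fun k => (h1 k).2⟩
  have hset : {d : Fin r → R | (∃ A : R, Squarefree A ∧ ((|Algebra.norm ℤ A| : ℤ) : ℝ) ≤ X ∧
      ∀ k, d k ∣ A) ∧ P d} = ((F.image f : Finset (Fin r → R)) : Set (Fin r → R)) := by
    ext d
    rw [mem_coe, mem_image]
    constructor
    · rintro ⟨h1, h2⟩
      have h3 : ∀ k, ∃ (i : I) (T : Finset ι), d k = μ i * ∏ x ∈ T, q x := by
        intro k
        obtain ⟨A, hA, -, hd⟩ := h1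
        exact h.surj _ (hA.squarefree_of_dvd (hd k))
      choose j T hjT using h3
      have h4 : d = fun k => μ (j k) * ∏ x ∈ T k, q x := funext hjT
      subst h4
      obtain ⟨h5, h6⟩ := (ex_iff h j T X).1 h1
      refine ⟨(j, T), (hmem _).2 ⟨h5, h6, h2⟩, ?_⟩
      rw [hf]
    · rintro ⟨⟨j, T⟩, hp, rfl⟩
      obtain ⟨h1, h2, h3⟩ := (hmem _).1 hp
      rw [hf]
      exact ⟨(ex_iff h j T X).2 ⟨h1, h2⟩, h3⟩
  have e1 : Nat.card {d : Fin r → R // (∃ A : R, Squarefree A ∧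
      ((|Algebra.norm ℤ A| : ℤ) : ℝ) ≤ X ∧ ∀ k, d k ∣ A) ∧ P d} =
      {d : Fin r → R | (∃ A : R, Squarefree A ∧ ((|Algebra.norm ℤ A| : ℤ) : ℝ) ≤ X ∧
      ∀ k, d k ∣ A) ∧ P d}.ncard := rfl
  rw [e1, hset, Set.ncard_coe_finset, card_image_of_injective _ hinj, hcF]

end

end Pool.Agent.Lib.MP_1a91b9_ntMN
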