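import Pool.Agent.Lib.MP_1a91b9_ntMN.N2

/-!
# MP_1a91b9_nt (all the multiquadratic fields): from the sets of primes to the tuples of elements
-/

set_option autoImplicit false
set_option linter.unusedSectionVars false

namespace Pool.Agent.Lib.MP_1a91b9_ntMN

open Finset
open Pool.Agent.Lib.MP_1a91b9_ntH (PS nm Sx mem_Sx nm_union one_le_nm nm_empty)
open Pool.Agent.Lib.MP_1a91b9_ntMQ (tup mem_tup)
open Pool.Agent.Lib.MP_1a91b9_ntDV (Rep)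

noncomputable section

variable {R : Type} [CommRing R] [IsDomain R] {ι : Type} [DecidableEq ι] [PS ι] {I : Type}
  {q : ι → R} {μ : I → R} [Fintype I] {G : Type} [AddCommGroup G] [Fintype G] {a : ι → G}

open Classical in
/-- The families: the bad data and the classes. -/
def Jf (μ : I → R) {r : ℕ} (W : I → Fin r → G → Prop) : Finset ((Fin r → I) × (Fin r → G)) :=
  univ.filter fun p => (Wj μ p.1).Nonempty ∧ ∀ k, W (p.1 k) k (p.2 k)

theorem mem_Jf {r : ℕ} {W : I → Fin r → G → Prop} {p : (Fin r → I) × (Fin r → G)} :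
    p ∈ Jf μ W ↔ (Wj μ p.1).Nonempty ∧ ∀ k, W (p.1 k) k (p.2 k) := by
  unfold Jf
  simp only [mem_filter, mem_univ, true_and]

open Classical in
/-- The number of the tuples with the congruences. -/
theorem card_lcm (h : Rep q μ) {r : ℕ} {m : R} {u : Fin r → R} (W : I → Fin r → G → Prop)
    (hW : ∀ i k (T : Finset ι), m ∣ μ i * ∏ x ∈ T, q x - u k ↔ W i k (∑ x ∈ T, a x))
    (X : ℝ) (hX : 0 ≤ X) (P : (Fin r → R) → Prop) :
    Nat.card {d : Fin r → R // (∃ A : R, Squarefree A ∧ ((|Algebra.norm ℤ A| : ℤ) : ℝ) ≤ X ∧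
      ∀ k, d k ∣ A) ∧ (∀ k, m ∣ d k - u k) ∧ P d} =
      ∑ p ∈ Jf μ W, ∑ S ∈ Sx ι ⌊X / bj μ p.1⌋₊,
        ((cov r S).filter fun T => Cl a p.2 T ∧ P (fun k => μ (p.1 k) * ∏ x ∈ T k, q x)).card := by
  obtain ⟨P', hP'⟩ : ∃ P' : (Fin r → R) → Prop, ∀ d, P' d ↔ (∀ k, m ∣ d k - u k) ∧ P d :=
    ⟨fun d => (∀ k, m ∣ d k - u k) ∧ P d, fun _ => Iff.rfl⟩
  have h0 : Nat.card {d : Fin r → R // (∃ A : R, Squarefree A ∧
      ((|Algebra.norm ℤ A| : ℤ) : ℝ) ≤ X ∧ ∀ k, d k ∣ A) ∧ (∀ k, m ∣ d k - u k) ∧ P d} =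
      Nat.card {d : Fin r → R // (∃ A : R, Squarefree A ∧
      ((|Algebra.norm ℤ A| : ℤ) : ℝ) ≤ X ∧ ∀ k, d k ∣ A) ∧ P' d} :=
    Nat.card_congr (Equiv.subtypeEquivRight fun d => and_congr_right fun _ => (hP' d).symm)
  rw [h0, card_lc h X hX P']
  have h1 : ∀ j : Fin r → I, ∀ S : Finset ι,
      ((cov r S).filter fun T => P' (fun k => μ (j k) * ∏ x ∈ T k, q x)).card =
      ∑ g : Fin r → G, if ∀ k, W (j k) k (g k) then
        ((cov r S).filter fun T => Cl a g T ∧ P (fun k => μ (j k) * ∏ x ∈ T k, q x)).card else 0 := by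
    intro j S
    rw [card_eq_sum_card_fiberwise (f := fun (T : Fin r → Finset ι) (k : Fin r) => ∑ q ∈ T k, a q)
      (t := (univ : Finset (Fin r → G))) (fun _ _ => mem_coe.2 (mem_univ _))]
    refine sum_congr rfl fun g _ => ?_
    rw [filter_filter]
    split_ifs with hg
    · congr 1
      refine filter_congr fun T _ => ?_
      rw [hP']
      constructor
      · rintro ⟨⟨-, b⟩, c⟩
        exact ⟨fun k => congrFun c k, b⟩
      · rintro ⟨c, b⟩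
        refine ⟨⟨fun k => (hW _ _ _).2 ?_, b⟩, funext c⟩
        rw [c k]
        exact hg k
    · rw [card_eq_zero, filter_eq_empty_iff]
      rintro T _ ⟨b', c⟩
      obtain ⟨b, -⟩ := (hP' _).1 b'
      refine hg fun k => ?_
      rw [← congrFun c k]
      exact (hW _ _ _).1 (b k)
  rw [sum_congr rfl fun j _ => sum_congr rfl fun S _ => h1 j S]
  have h2 : ∀ j : Fin r → I, ∑ S ∈ Sx ι ⌊X / bj μ j⌋₊, ∑ g : Fin r → G,
      (if ∀ k, W (j k) k (g k) then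
        ((cov r S).filter fun T => Cl a g T ∧ P (fun k => μ (j k) * ∏ x ∈ T k, q x)).card else 0) =
      ∑ g ∈ (univ : Finset (Fin r → G)).filter (fun g => ∀ k, W (j k) k (g k)),
        ∑ S ∈ Sx ι ⌊X / bj μ j⌋₊,
          ((cov r S).filter fun T => Cl a g T ∧ P (fun k => μ (j k) * ∏ x ∈ T k, q x)).card := by
    intro j
    rw [sum_comm, sum_filter]
    refine sum_congr rfl fun g _ => ?_
    by_cases hg : ∀ k, W (j k) k (g k)
    · simp only [if_pos hg]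
    · simp only [if_neg hg, sum_const_zero]
  rw [sum_congr rfl fun j _ => h2 j]
  rw [sum_sigma']
  refine sum_bij' (fun p _ => (p.1, p.2)) (fun p _ => ⟨p.1, p.2⟩) ?_ ?_ ?_ ?_ ?_
  · rintro ⟨j, g⟩ hp
    rw [mem_sigma, mem_filter, mem_filter] at hp
    exact mem_Jf.2 ⟨hp.1.2, hp.2.2⟩
  · rintro ⟨j, g⟩ hp
    rw [mem_sigma, mem_filter, mem_filter]
    exact ⟨⟨mem_univ _, (mem_Jf.1 hp).1⟩, mem_univ _, (mem_Jf.1 hp).2⟩
  · rintro ⟨j, g⟩ _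
    rfl
  · rintro ⟨j, g⟩ _
    rfl
  · rintro ⟨j, g⟩ _
    rfl

/-- The number of all the tuples of norm at most `X`. -/
def NNc (ι : Type) [DecidableEq ι] [PS ι] (r : ℕ) (X : ℕ) : ℝ := ∑ S ∈ Sx ι X, ((cov r S).card : ℝ)

theorem NNc_mono {r X Y : ℕ} (h : X ≤ Y) : NNc ι r X ≤ NNc ι r Y := sum_cov_le X Y h

theorem NNc_pos {r X : ℕ} (h : 1 ≤ X) : 0 < NNc ι r X := by
  unfold NNc
  have h1 : (∅ : Finset ι) ∈ Sx ι X := by
    rw [mem_Sx, nm_empty]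
    exact h
  have h2 : (0 : ℝ) < ((cov r (∅ : Finset ι)).card : ℝ) := by
    refine Nat.cast_pos.2 (card_pos.2 ⟨fun _ => ∅, mem_cov.2 ?_⟩)
    ext x
    simp
  exact lt_of_lt_of_le h2 (single_le_sum (f := fun S => ((cov r S).card : ℝ))
    (fun S _ => Nat.cast_nonneg _) h1)

open Classical in
/-- **The law for the tuples of elements.** -/
theorem lawC (h : Rep q μ) {r : ℕ} (hpos : CovPos a r) {m : R} {u : Fin r → R}
    (W : I → Fin r → G → Prop)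
    (hW : ∀ i k (T : Finset ι), m ∣ μ i * ∏ x ∈ T, q x - u k ↔ W i k (∑ x ∈ T, a x))
    (hne : ∃ j : Fin r → I, (Wj μ j).Nonempty ∧ ∀ k, ∃ g, W (j k) k g)
    (P : (Fin r → R) → Prop) (c : ℝ)
    (hP : ∀ j : Fin r → I, CovLI a r ∅ c fun T => P (fun k => μ (j k) * ∏ x ∈ T k, q x)) :
    CovGI R r m u P c := by
  intro ε hε
  obtain ⟨j₀, hj₀, hg₀⟩ := hne
  choose g₀ hg₀ using hg₀
  have hJ : (Jf μ W).Nonempty := ⟨(j₀, g₀), mem_Jf.2 ⟨hj₀, hg₀⟩⟩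
  obtain ⟨p₀, hp₀, hmin⟩ := exists_min_image (Jf μ W) (fun p => bj μ p.1) hJ
  have hb₀ : 0 < bj μ p₀.1 := bj_pos h (mem_Jf.1 hp₀).1
  obtain ⟨κ, hκ, X₁, hX₁⟩ := hpos p₀.2
  obtain ⟨n, hn⟩ : ∃ n : ℝ, n = ((Jf μ W).card : ℝ) + 1 := ⟨_, rfl⟩
  have hn0 : 0 < n := by
    rw [hn]
    positivity
  have hη : 0 < ε * κ / n := by positivity
  choose X₀ hX₀ using fun p : (Fin r → I) × (Fin r → G) => hP p.1 p.2 (ε * κ / n) hη
  have htend : ∀ p : (Fin r → I) × (Fin r → G), p ∈ Jf μ W →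
      Filter.Tendsto (fun X : ℝ => ⌊X / (bj μ p.1 : ℝ)⌋₊) Filter.atTop Filter.atTop := by
    intro p hp
    have h0 : (0 : ℝ) < (bj μ p.1 : ℝ) := by exact_mod_cast bj_pos h (mem_Jf.1 hp).1
    exact tendsto_nat_floor_atTop.comp (Filter.tendsto_id.atTop_div_const h0)
  have hev : ∀ᶠ X : ℝ in Filter.atTop, ∀ p ∈ Jf μ W, X₀ p ≤ ⌊X / (bj μ p.1 : ℝ)⌋₊ := by
    rw [Filter.eventually_all_finset]
    exact fun p hp => (htend p hp).eventually_ge_atTop (X₀ p)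
  filter_upwards [hev, (htend p₀ hp₀).eventually_ge_atTop (max X₁ 1),
    Filter.eventually_ge_atTop (0 : ℝ)] with X hX hX2 hX0
  have hc1 := card_lcm h W hW X hX0 P
  have hc2 := card_lcm h W hW X hX0 fun _ => True
  simp only [and_true] at hc2
  rw [hc1, hc2]
  push_cast
  obtain ⟨D, hD⟩ : ∃ D : (Fin r → I) × (Fin r → G) → ℝ, D = fun p =>
      ∑ S ∈ Sx ι ⌊X / bj μ p.1⌋₊, (((cov r S).filter (Cl a p.2)).card : ℝ) := ⟨_, rfl⟩
  obtain ⟨N, hN⟩ : ∃ N : (Fin r → I) × (Fin r → G) → ℝ, N = fun p =>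
      ∑ S ∈ Sx ι ⌊X / bj μ p.1⌋₊, (((cov r S).filter fun T => Cl a p.2 T ∧
        P (fun k => μ (p.1 k) * ∏ x ∈ T k, q x)).card : ℝ) := ⟨_, rfl⟩
  have hDe : ∑ p ∈ Jf μ W, ∑ S ∈ Sx ι ⌊X / bj μ p.1⌋₊, (((cov r S).filter (Cl a p.2)).card : ℝ) =
      ∑ p ∈ Jf μ W, D p := by rw [hD]
  have hNe : ∑ p ∈ Jf μ W, ∑ S ∈ Sx ι ⌊X / bj μ p.1⌋₊, (((cov r S).filter fun T => Cl a p.2 T ∧
        P (fun k => μ (p.1 k) * ∏ x ∈ T k, q x)).card : ℝ) = ∑ p ∈ Jf μ W, N p := by rw [hN]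
  obtain ⟨M, hM⟩ : ∃ M : ℝ, M = NNc ι r ⌊X / bj μ p₀.1⌋₊ := ⟨_, rfl⟩
  have hM0 : 0 < M := by
    rw [hM]
    exact NNc_pos ((le_max_right _ _).trans hX2)
  have hD0 : κ * M ≤ D p₀ := by
    rw [hM, hD]
    exact hX₁ _ ((le_max_left _ _).trans hX2)
  have hDnn : ∀ p, 0 ≤ D p := fun p => by
    rw [hD]
    exact sum_nonneg fun S _ => Nat.cast_nonneg _
  have hDs : D p₀ ≤ ∑ p ∈ Jf μ W, D p := single_le_sum (fun p _ => hDnn p) hp₀
  have hkey : ∀ p ∈ Jf μ W, c * D p - ε * κ / n * M ≤ N p := by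
    intro p hp
    have h1 := hX₀ p _ (hX p hp)
    have e0 : ∀ (Y : ℕ) (f : Finset ι → ℝ), ∑ S ∈ (Sx ι Y).filter (fun S => Disjoint S ∅), f S =
        ∑ S ∈ Sx ι Y, f S := fun Y f => by
      rw [filter_true_of_mem fun S _ => disjoint_empty_right S]
    rw [e0, e0] at h1
    have h2 : ∑ S ∈ Sx ι ⌊X / (bj μ p.1 : ℝ)⌋₊, ((cov r S).card : ℝ) ≤ M := by
      rw [hM]
      refine NNc_mono (Nat.floor_le_floor ?_)
      have h3 : (0 : ℝ) < (bj μ p₀.1 : ℝ) := by exact_mod_cast hb₀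
      exact div_le_div_of_nonneg_left hX0 h3 (by exact_mod_cast hmin p hp)
    have h4 := mul_le_mul_of_nonneg_left h2 hη.le
    rw [hD, hN]
    show c * ∑ S ∈ Sx ι ⌊X / bj μ p.1⌋₊, (((cov r S).filter (Cl a p.2)).card : ℝ) - ε * κ / n * M ≤
      ∑ S ∈ Sx ι ⌊X / bj μ p.1⌋₊, (((cov r S).filter fun T => Cl a p.2 T ∧
        P (fun k => μ (p.1 k) * ∏ x ∈ T k, q x)).card : ℝ)
    linarith
  rw [hDe, hNe]
  have hDpos : 0 < ∑ p ∈ Jf μ W, D p := lt_of_lt_of_le (lt_of_lt_of_le (mul_pos hκ hM0) hD0) hDs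
  rw [le_div_iff₀ hDpos]
  have h5 := sum_le_sum hkey
  rw [sum_sub_distrib, ← mul_sum, sum_const, nsmul_eq_mul] at h5
  have h6 : ((Jf μ W).card : ℝ) * (ε * κ / n * M) ≤ ε * (κ * M) := by
    have h7 : ((Jf μ W).card : ℝ) * (ε * κ / n * M) = ((Jf μ W).card : ℝ) / n * (ε * (κ * M)) := by
      field_simp
    rw [h7]
    have h8 : ((Jf μ W).card : ℝ) / n ≤ 1 := by
      rw [div_le_one hn0, hn]
      linarith
    have h9 : 0 ≤ ε * (κ * M) := by positivity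
    nlinarith
  have h10 : ε * (κ * M) ≤ ε * ∑ p ∈ Jf μ W, D p :=
    mul_le_mul_of_nonneg_left (hD0.trans hDs) hε.le
  rw [sub_mul]
  linarith

end

end Pool.Agent.Lib.MP_1a91b9_ntMN
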