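import Pool.Agent.Lib.MP_1a91b9_ntM.E.DenX
import Pool.Agent.Lib.MP_1a91b9_ntDV.T7
import Pool.Agent.Lib.MP_1a91b9_ntMN.N5

/-!
# MP_1a91b9_nt (all the multiquadratic fields): the law for the tuples over `ℚ(i)`
-/

set_option autoImplicit false
set_option linter.unusedSectionVars false

namespace Pool.Agent.Lib.MP_1a91b9_ntMN

open NumberField Finset
open Pool.Agent.Lib.MP_1a91b9_ntM.E
open Pool.Agent.Lib.MP_1a91b9_ntQ (K4 Pg DDq lam iO In4 G4n gcl clq gcl_eq_iff gcl_DDq DDq_in4)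
open Pool.Agent.Lib.MP_1a91b9_ntQ.Den4 (ph)
open Pool.Agent.Lib.MP_1a91b9_ntDV (mu4 rep4)

noncomputable section

theorem top4 : ∃ i₀ : ZMod 4 × Fin 2, ∀ i, mu4 i ∣ mu4 i₀ := by
  refine ⟨(0, 1), fun i => ?_⟩
  obtain ⟨k, j⟩ := i
  have h1 : IsUnit (iO ^ k.val) := by
    refine IsUnit.pow _ (IsUnit.of_mul_eq_one (iO ^ 3) ?_)
    rw [← Pool.Agent.Lib.MP_1a91b9_ntQ.iO_pow4]
    ring
  have h2 : mu4 (0, 1) = lam := by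
    show iO ^ 0 * lam ^ 1 = lam
    ring
  have h3 : mu4 (k, j) = iO ^ k.val * lam ^ j.val := rfl
  rw [h2, h3, h1.mul_left_dvd]
  fin_cases j
  · exact ⟨lam, by simp⟩
  · exact ⟨1, by simp⟩

/-- The classes of the primary factors of the elements of the class of `u k`. -/
def W4 (m : ℕ) (M : 𝓞 K4) {r : ℕ} (u : Fin r → 𝓞 K4) : ZMod 4 × Fin 2 → Fin r → G4n m → Prop :=
  fun i k g => ∃ (y : 𝓞 K4) (hy : In4 y), gcl m y hy = g ∧ M ∣ mu4 i * y - u k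

theorem W4_iff (n : ℕ) {M : 𝓞 K4} (hM : M ∣ 2 ^ n) {r : ℕ} (u : Fin r → 𝓞 K4)
    (i : ZMod 4 × Fin 2) (k : Fin r) (T : Finset Pg) :
    M ∣ mu4 i * ∏ x ∈ T, x.1 - u k ↔ W4 (2 * n) M u i k (∑ x ∈ T, clq (2 * n) x) := by
  have hM' : M ∣ lam ^ (2 * n + 5) := hM.trans (Pool.Agent.Lib.MP_1a91b9_ntQ.Q5.two_pow_dvd n)
  constructor
  · intro h
    exact ⟨DDq T, DDq_in4 T, gcl_DDq _ T, h⟩
  · rintro ⟨y, hy, h1, h2⟩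
    rw [← gcl_DDq, gcl_eq_iff] at h1
    have h3 : M ∣ mu4 i * (y - DDq T) := (hM'.trans h1).mul_left _
    have e : mu4 i * ∏ x ∈ T, x.1 - u k = (mu4 i * y - u k) - mu4 i * (y - DDq T) := by
      unfold DDq
      ring
    rw [e]
    exact dvd_sub h2 h3

theorem ne4 {M : 𝓞 K4} {n r : ℕ} {u : Fin r → 𝓞 K4}
    (hu : ∀ k, ¬ ((2 : 𝓞 K4) ∣ M ∧ (2 : 𝓞 K4) ∣ u k)) :
    ∃ j : Fin r → ZMod 4 × Fin 2, (Wj mu4 j).Nonempty ∧ ∀ k, ∃ g, W4 (2 * n) M u (j k) k g := by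
  have h1 : ∀ k, ∃ (i : ZMod 4 × Fin 2) (y : 𝓞 K4), In4 y ∧ M ∣ mu4 i * y - u k := by
    intro k
    obtain ⟨u', hu', hMu⟩ := Pool.Agent.Lib.MP_1a91b9_ntQ.Q5.exists_rep (hu k)
    obtain ⟨k', j, y, hy, h2⟩ := Pool.Agent.Lib.MP_1a91b9_ntQ.Den4.exists_ph hu'
    refine ⟨(k', j), y, hy, ?_⟩
    have e : mu4 (k', j) * y = u' := h2.symm
    rw [e]
    exact hMu
  choose j y hy h using h1
  obtain ⟨i₀, hi₀⟩ := top4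
  exact ⟨j, ⟨i₀, mem_Wj.2 fun k => hi₀ _⟩, fun k => ⟨gcl _ (y k) (hy k), y k, hy k, rfl, h k⟩⟩

/-- **The law for the tuples over `ℚ(i)`.** -/
theorem lawC4 {M : 𝓞 K4} {n r : ℕ} {u : Fin r → 𝓞 K4} (hM : M ∣ 2 ^ n)
    (hu : ∀ k, ¬ ((2 : 𝓞 K4) ∣ M ∧ (2 : 𝓞 K4) ∣ u k)) (hpos : CovPos (clq (2 * n)) r)
    (P : (Fin r → 𝓞 K4) → Prop) (c : ℝ)
    (hP : ∀ j : Fin r → ZMod 4 × Fin 2, CovLI (clq (2 * n)) r ∅ c
      fun T => P (fun k => mu4 (j k) * ∏ x ∈ T k, x.1)) :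
    CovGI (𝓞 K4) r M u P c :=
  lawC rep4 hpos (W4 (2 * n) M u) (W4_iff n hM u) (ne4 hu) P c hP

/-- The classes have a positive proportion. -/
theorem clsP4 {M : 𝓞 K4} {n r : ℕ} {u : Fin r → 𝓞 K4} (hM : M ∣ 2 ^ n)
    (hu : ∀ k, ¬ ((2 : 𝓞 K4) ∣ M ∧ (2 : 𝓞 K4) ∣ u k)) (hpos : CovPos (clq (2 * n)) r) :
    ClsP (𝓞 K4) r M u :=
  clsP_of rep4 hpos (nb4.dbl r) (W4 (2 * n) M u) (W4_iff n hM u) (ne4 hu)

end

end Pool.Agent.Lib.MP_1a91b9_ntMN
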