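import Pool.Agent.Lib.MP_1a91b9_ntMN.X8

/-!
# MP_1a91b9_nt (multiquadratic fields, natural density): the families with an empty product are rare
-/

set_option autoImplicit false
set_option linter.unusedSectionVars false

namespace Pool.Agent.Lib.MP_1a91b9_ntMN

open Finset Pool.Agent.Lib.MP_1a91b9_ntH Pool.Agent.Lib.MP_1a91b9_ntQ
open Pool.Agent.Lib.MP_1a91b9_ntQ.Da Pool.Agent.Lib.MP_1a91b9_ntV Pool.Agent.Lib.MP_1a91b9_ntM
open Pool.Agent.Lib.MP_1a91b9_ntDV Pool.Agent.Lib.MP_1a91b9_ntMQ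

noncomputable section

variable {I A : Type} [Fintype I] [DecidableEq I] [Fintype A] [DecidableEq A] {phi : A → I → ZMod 2}
  {ι : Type} [DecidableEq ι]

open Classical in
/-- The families with an empty product are rare. -/
theorem EE_rare [PS ι] {C1 C2 : ℝ} (h1 : Cheb ι C1) (h2 : Zt ι C2) (hs : Sp phi) (ε : ℝ) (hε : 0 < ε) :
    ∃ X₀ : ℕ, ∀ X : ℕ, X₀ ≤ X →
      ∑ S ∈ Sx ι X, ∑ c ∈ covF I S, (if EE phi c then (1 : ℝ) else 0) ≤ ε * Yh (hI I) X := by
  rcases isEmpty_or_nonempty I with hI0 | hI0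
  · refine ⟨0, fun X _ => ?_⟩
    have h3 : ∀ c : I → Finset ι, (if EE phi c then (1 : ℝ) else 0) = 0 := by
      intro c
      refine if_neg ?_
      rintro ⟨a, -⟩
      exact hs.ne a (Subsingleton.elim _ _)
    simp only [h3, sum_const_zero]
    exact mul_nonneg hε.le (Yh_nonneg _ X)
  · exact G4.ee_small h1 h2 hs ε hε

end

end Pool.Agent.Lib.MP_1a91b9_ntMN
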