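import Pool.Agent.Lib.MP_1a91b9_ntMN.R1

/-!
# MP_1a91b9_nt (multiquadratic fields, natural density): changes which are small in the mean
-/

set_option autoImplicit false
set_option linter.unusedSectionVars false

namespace Pool.Agent.Lib.MP_1a91b9_ntMN

open Finset Pool.Agent.Lib.MP_1a91b9_ntH Pool.Agent.Lib.MP_1a91b9_ntQ
open Pool.Agent.Lib.MP_1a91b9_ntQ.Da Pool.Agent.Lib.MP_1a91b9_ntV Pool.Agent.Lib.MP_1a91b9_ntM
open Pool.Agent.Lib.MP_1a91b9_ntDV Pool.Agent.Lib.MP_1a91b9_ntMQ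

noncomputable section

variable {I : Type} [Fintype I] [DecidableEq I] {ι : Type} [DecidableEq ι] [PS ι] [TwS ι]

/-- The twists have modulus one. -/
theorem norm_twc (hn : ∀ τ ∈ (TwS.T : Set (ι → ℂ)), ∀ q, ‖τ q‖ = 1) {χ : I → ι → ℂ} (h : FarF χ)
    (c : I → Finset ι) : ‖twc χ c‖ = 1 := by
  unfold twc
  rw [norm_prod]
  refine prod_eq_one fun i _ => ?_
  rw [norm_prod]
  exact prod_eq_one fun q _ => hn _ (h.1 i) q

/-- The sums of a real function. -/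
theorem smI_re (F : (I → Finset ι) → ℝ) (X : ℕ) :
    ∑ S ∈ Sx ι X, smI (fun c => (F c : ℂ)) S = ((∑ S ∈ Sx ι X, ∑ c ∈ covF I S, F c : ℝ) : ℂ) := by
  unfold smI
  push_cast
  rfl

/-- The untwisted statement for real functions. -/
theorem MVrc.bound {F : (I → Finset ι) → ℝ} {v : ℝ} (hF : MVrc F v) (ε : ℝ) (hε : 0 < ε) :
    ∃ X₀ : ℕ, ∀ X : ℕ, X₀ ≤ X →
      |∑ S ∈ Sx ι X, ∑ c ∈ covF I S, F c - v * NN ι (hI I) X| ≤
        ε * (NN ι (hI I) X + Yh (hI I) X) := by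
  obtain ⟨X1, h1⟩ := hF.1 ε hε
  refine ⟨X1, fun X hX => ?_⟩
  have h2 := h1 X hX
  rw [smI_re, ← Complex.ofReal_mul, ← Complex.ofReal_sub, Complex.norm_real, Real.norm_eq_abs] at h2
  exact h2

private theorem R2_small {a F G : (I → Finset ι) → ℂ} (ha : ∀ c, ‖a c‖ = 1) {v : ℂ}
    (hF : MV0 (fun c => a c * F c) v)
    (h : ∀ ε : ℝ, 0 < ε → ∃ X₀ : ℕ, ∀ X : ℕ, X₀ ≤ X →
      ∑ S ∈ Sx ι X, ∑ c ∈ covF I S, ‖G c - F c‖ ≤ ε * (NN ι (hI I) X + Yh (hI I) X)) :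
    MV0 (fun c => a c * G c) v := by
  intro ε hε
  obtain ⟨X1, h1⟩ := hF (ε / 2) (by positivity)
  obtain ⟨X2, h2⟩ := h (ε / 2) (by positivity)
  refine ⟨max X1 X2, fun X hX => ?_⟩
  have a1 := h1 X ((le_max_left _ _).trans hX)
  have a2 := h2 X ((le_max_right _ _).trans hX)
  have e : ∑ S ∈ Sx ι X, smI (fun c => a c * G c) S - v * (NN ι (hI I) X : ℂ) =
      (∑ S ∈ Sx ι X, smI (fun c => a c * F c) S - v * (NN ι (hI I) X : ℂ)) +
      ∑ S ∈ Sx ι X, ∑ c ∈ covF I S, a c * (G c - F c) := by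
    have e1 : ∀ S ∈ Sx ι X, smI (fun c => a c * G c) S =
        smI (fun c => a c * F c) S + ∑ c ∈ covF I S, a c * (G c - F c) := fun S _ => by
      unfold smI
      rw [← sum_add_distrib]
      exact sum_congr rfl fun c _ => by ring
    rw [sum_congr rfl e1, sum_add_distrib]
    ring
  have b : ‖∑ S ∈ Sx ι X, ∑ c ∈ covF I S, a c * (G c - F c)‖ ≤
      ∑ S ∈ Sx ι X, ∑ c ∈ covF I S, ‖G c - F c‖ := by
    refine (norm_sum_le _ _).trans (sum_le_sum fun S _ => ?_)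
    refine (norm_sum_le _ _).trans (sum_le_sum fun c _ => ?_)
    rw [norm_mul, ha, one_mul]
  rw [e]
  refine (norm_add_le _ _).trans ((add_le_add a1 (b.trans a2)).trans (le_of_eq ?_))
  ring

/-- A change which is small in the mean. -/
theorem MVc.congr_small (hn : ∀ τ ∈ (TwS.T : Set (ι → ℂ)), ∀ q, ‖τ q‖ = 1)
    {F G : (I → Finset ι) → ℂ} {v : ℂ} (hF : MVc F v)
    (h : ∀ ε : ℝ, 0 < ε → ∃ X₀ : ℕ, ∀ X : ℕ, X₀ ≤ X →
      ∑ S ∈ Sx ι X, ∑ c ∈ covF I S, ‖G c - F c‖ ≤ ε * (NN ι (hI I) X + Yh (hI I) X)) :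
    MVc G v := by
  refine ⟨?_, fun χ hχ => R2_small (norm_twc hn hχ) (hF.2 χ hχ) h⟩
  exact (R2_small (a := fun _ => 1) (F := F) (G := G) (fun _ => norm_one)
    (hF.1.congr (fun T => one_mul _) rfl) h).congr (fun T => (one_mul _).symm) rfl

/-- The same for real functions. -/
theorem MVrc.congr_small (hn : ∀ τ ∈ (TwS.T : Set (ι → ℂ)), ∀ q, ‖τ q‖ = 1)
    {F G : (I → Finset ι) → ℝ} {v : ℝ} (hF : MVrc F v)
    (h : ∀ ε : ℝ, 0 < ε → ∃ X₀ : ℕ, ∀ X : ℕ, X₀ ≤ X →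
      ∑ S ∈ Sx ι X, ∑ c ∈ covF I S, |G c - F c| ≤ ε * (NN ι (hI I) X + Yh (hI I) X)) :
    MVrc G v := by
  refine MVc.congr_small hn hF fun ε hε => ?_
  obtain ⟨X₀, h1⟩ := h ε hε
  refine ⟨X₀, fun X hX => ?_⟩
  have h2 : ∀ c : I → Finset ι, ‖((G c : ℝ) : ℂ) - ((F c : ℝ) : ℂ)‖ = |G c - F c| := fun c => by
    rw [← Complex.ofReal_sub, Complex.norm_real, Real.norm_eq_abs]
  simp only [h2]
  exact h1 X hX

end

end Pool.Agent.Lib.MP_1a91b9_ntMN
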