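import Pool.Agent.Lib.MP_1a91b9_ntMN.P2
import Pool.Agent.Lib.MP_1a91b9_ntMN.R2

/-!
P3: a change at the families with an empty product
-/

set_option autoImplicit false
set_option linter.unusedSectionVars false

namespace Pool.Agent.Lib.MP_1a91b9_ntMN

open Finset Pool.Agent.Lib.MP_1a91b9_ntH Pool.Agent.Lib.MP_1a91b9_ntQ
open Pool.Agent.Lib.MP_1a91b9_ntQ.Da Pool.Agent.Lib.MP_1a91b9_ntV Pool.Agent.Lib.MP_1a91b9_ntM
open Pool.Agent.Lib.MP_1a91b9_ntDV Pool.Agent.Lib.MP_1a91b9_ntMQ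

noncomputable section


variable {I A : Type} [Fintype I] [DecidableEq I] [Fintype A] [DecidableEq A]
  {phi : A → I → ZMod 2} {ι : Type} [DecidableEq ι] {κ : Type} [Fintype κ] [DecidableEq κ] [PS ι] [TwS ι]

/-- **P3** (easy+). A bounded change at the families with an empty product. Proof: `MVrc.congr_small`, `EE_rare` (the difference of the two
functions in the class is at most `C * 1_EE`). -/
theorem PclC.congrB {D : Dat2 ι κ} {w : κ → ZMod 2} (hD : OKT D w) (hs : Sp phi)
    {γ : I → κ → ZMod 2} {f h : (I → Finset ι) → ℝ} {v v' C : ℝ} (hf : PclC D γ f v)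
    (heq : ∀ c, (∀ i, clN D (c i) = γ i) → ¬ EE phi c → h c = f c)
    (hC : ∀ c, |h c - f c| ≤ C) (hv : v' = v) : PclC D γ h v' := by
  classical
  subst hv
  have hC0 : 0 ≤ C := (abs_nonneg _).trans (hC fun _ => ∅)
  unfold PclC at hf ⊢
  refine MVrc.congr_small hD.nrm hf fun ε hε => ?_
  obtain ⟨C1, hC1⟩ := hD.an.cheb
  obtain ⟨C2, hC2⟩ := hD.an.zt
  obtain ⟨X₀, hX₀⟩ := EE_rare hC1 hC2 hs (ε / (C + 1)) (div_pos hε (by positivity))
  refine ⟨X₀, fun X hX => ?_⟩
  have h3 := hX₀ X hX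
  have hY : 0 ≤ Yh (hI I) X := Yh_nonneg _ _
  have hle : ∀ c : I → Finset ι, |(if ∀ i, clN D (c i) = γ i then h c else 0) -
      (if ∀ i, clN D (c i) = γ i then f c else 0)| ≤ C * (if EE phi c then (1 : ℝ) else 0) := by
    intro c
    by_cases hP : ∀ i, clN D (c i) = γ i
    · rw [if_pos hP, if_pos hP]
      by_cases hE : EE phi c
      · rw [if_pos hE, mul_one]
        exact hC c
      · rw [heq c hP hE, sub_self, abs_zero, if_neg hE, mul_zero]
    · rw [if_neg hP, if_neg hP, sub_self, abs_zero]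
      refine mul_nonneg hC0 ?_
      split_ifs
      · exact zero_le_one
      · exact le_rfl
  refine (sum_le_sum fun S _ => sum_le_sum fun c _ => hle c).trans ?_
  calc ∑ S ∈ Sx ι X, ∑ c ∈ covF I S, C * (if EE phi c then (1 : ℝ) else 0)
      = C * ∑ S ∈ Sx ι X, ∑ c ∈ covF I S, (if EE phi c then (1 : ℝ) else 0) := by
        rw [mul_sum]
        exact sum_congr rfl fun S _ => (mul_sum _ _ _).symm
    _ ≤ C * (ε / (C + 1) * Yh (hI I) X) := mul_le_mul_of_nonneg_left h3 hC0
    _ = C / (C + 1) * (ε * Yh (hI I) X) := by ring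
    _ ≤ ε * Yh (hI I) X := by
        refine mul_le_of_le_one_left (mul_nonneg hε.le hY) ?_
        rw [div_le_one (by positivity)]
        linarith
    _ ≤ ε * (NN ι (hI I) X + Yh (hI I) X) := by
        refine mul_le_mul_of_nonneg_left ?_ hε.le
        linarith [NN_nonneg ι (hI I) X]

end

end Pool.Agent.Lib.MP_1a91b9_ntMN
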