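import Pool.Agent.Lib.MP_1a91b9_ntMN.P3

/-!
P4: a change at the families with an empty product, functions with a second moment
-/

set_option autoImplicit false
set_option linter.unusedSectionVars false

namespace Pool.Agent.Lib.MP_1a91b9_ntMN

open Finset Pool.Agent.Lib.MP_1a91b9_ntH Pool.Agent.Lib.MP_1a91b9_ntQ
open Pool.Agent.Lib.MP_1a91b9_ntQ.Da Pool.Agent.Lib.MP_1a91b9_ntV Pool.Agent.Lib.MP_1a91b9_ntM
open Pool.Agent.Lib.MP_1a91b9_ntDV Pool.Agent.Lib.MP_1a91b9_ntMQ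

noncomputable section


variable {I A : Type} [Fintype I] [DecidableEq I] [Fintype A] [DecidableEq A]
  {phi : A → I → ZMod 2} {ι : Type} [DecidableEq ι] {κ : Type} [Fintype κ] [DecidableEq κ] [PS ι] [TwS ι]

/-- **P4** (medium-). Proof: `MVrc.congr_small`. The sum of the `|h c - f c|` over the families in the class is at most `C` times the sum of
`f c * 1_EE c`, by Cauchy and Schwarz (over the pairs `S`, `c`: `Finset.sum_mul_sq_le_sq_mul_sq` or `Finset.inner_mul_le_norm_mul_norm`;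
or directly `f * e ≤ δ * f ^ 2 + e / (4 * δ)` for `e ∈ {0, 1}`) at most `δ * ∑ f ^ 2 + (4 * δ)⁻¹ * ∑ 1_EE`, and `∑ f ^ 2` (in the class) is
at most `(|v2| + 1) * (NN + Yh)` (`MVrc.bound` for `h2`), `∑ 1_EE ≤ ε' * Yh` (`EE_rare`): choose `δ`, then `ε'`. -/
theorem PclC.rareM {D : Dat2 ι κ} {w : κ → ZMod 2} (hD : OKT D w) (hs : Sp phi)
    {γ : I → κ → ZMod 2} {f h : (I → Finset ι) → ℝ} {v v2 C : ℝ} (h1 : PclC D γ f v)
    (h2 : PclC D γ (fun c => f c ^ 2) v2) (hf : ∀ c, 0 ≤ f c)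
    (heq : ∀ c, (∀ i, clN D (c i) = γ i) → ¬ EE phi c → h c = f c)
    (hC : ∀ c, |h c - f c| ≤ C * f c) : PclC D γ h v := by
  classical
  obtain ⟨C1, hC1⟩ := hD.an.cheb
  obtain ⟨C2, hC2⟩ := hD.an.zt
  refine MVrc.congr_small hD.nrm h1 fun ε hε => ?_
  obtain ⟨K, hK⟩ : ∃ K : ℝ, K = |C| + 1 := ⟨_, rfl⟩
  obtain ⟨V, hV⟩ : ∃ V : ℝ, V = |v2 / 2 ^ (Fintype.card κ * Fintype.card I)| + 1 := ⟨_, rfl⟩
  have hK0 : 0 < K := by
    rw [hK]
    positivity
  have hV0 : 0 < V := by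
    rw [hV]
    positivity
  have hCK : C ≤ K := by
    rw [hK]
    linarith [le_abs_self C]
  obtain ⟨δ, hδ⟩ : ∃ δ : ℝ, δ = ε / (2 * (K * V)) := ⟨_, rfl⟩
  have hδ0 : 0 < δ := by
    rw [hδ]
    positivity
  obtain ⟨η, hη⟩ : ∃ η : ℝ, η = 4 * δ * ε / (2 * K) := ⟨_, rfl⟩
  have hη0 : 0 < η := by
    rw [hη]
    positivity
  obtain ⟨X1, hX1⟩ := MVrc.bound h2 1 one_pos
  obtain ⟨X2, hX2⟩ := EE_rare hC1 hC2 hs η hη0
  refine ⟨max X1 X2, fun X hX => ?_⟩
  have a1 := hX1 X ((le_max_left _ _).trans hX)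
  have a2 := hX2 X ((le_max_right _ _).trans hX)
  have hN := NN_nonneg ι (hI I) X
  have hY := Yh_nonneg (hI I) X
  have hpt : ∀ c : I → Finset ι,
      |(if ∀ i, clN D (c i) = γ i then h c else 0) - (if ∀ i, clN D (c i) = γ i then f c else 0)| ≤
        K * δ * (if ∀ i, clN D (c i) = γ i then f c ^ 2 else 0) +
          K / (4 * δ) * (if EE phi c then (1 : ℝ) else 0) := by
    intro c
    by_cases hc : ∀ i, clN D (c i) = γ i
    · rw [if_pos hc, if_pos hc, if_pos hc]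
      by_cases he : EE phi c
      · rw [if_pos he, mul_one]
        have h3 := hC c
        have h4 : C * f c ≤ K * f c := mul_le_mul_of_nonneg_right hCK (hf c)
        have h5 : f c ≤ δ * f c ^ 2 + 1 / (4 * δ) := by
          have h6 : δ * f c ^ 2 + 1 / (4 * δ) - f c = δ * (f c - 1 / (2 * δ)) ^ 2 := by
            field_simp
            ring
          have h7 : 0 ≤ δ * (f c - 1 / (2 * δ)) ^ 2 := by positivity
          linarith
        have h6 : K * f c ≤ K * (δ * f c ^ 2 + 1 / (4 * δ)) := mul_le_mul_of_nonneg_left h5 hK0.le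
        have h7 : K * (δ * f c ^ 2 + 1 / (4 * δ)) = K * δ * f c ^ 2 + K / (4 * δ) := by ring
        linarith
      · rw [heq c hc he, sub_self, abs_zero, if_neg he, mul_zero, add_zero]
        positivity
    · rw [if_neg hc, if_neg hc, if_neg hc, sub_self, abs_zero, mul_zero, zero_add]
      split_ifs
      · positivity
      · rw [mul_zero]
  refine (sum_le_sum fun S _ => sum_le_sum fun c _ => hpt c).trans ?_
  have e1 : ∑ S ∈ Sx ι X, ∑ c ∈ covF I S,
      (K * δ * (if ∀ i, clN D (c i) = γ i then f c ^ 2 else 0) +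
        K / (4 * δ) * (if EE phi c then (1 : ℝ) else 0)) =
      K * δ * ∑ S ∈ Sx ι X, ∑ c ∈ covF I S, (if ∀ i, clN D (c i) = γ i then f c ^ 2 else 0) +
        K / (4 * δ) * ∑ S ∈ Sx ι X, ∑ c ∈ covF I S, (if EE phi c then (1 : ℝ) else 0) := by
    simp only [mul_sum, sum_add_distrib]
  rw [e1]
  have b1 : ∑ S ∈ Sx ι X, ∑ c ∈ covF I S, (if ∀ i, clN D (c i) = γ i then f c ^ 2 else 0) ≤
      V * (NN ι (hI I) X + Yh (hI I) X) := by
    have h3 := (abs_le.1 a1).2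
    have h4 : v2 / 2 ^ (Fintype.card κ * Fintype.card I) * NN ι (hI I) X ≤
        |v2 / 2 ^ (Fintype.card κ * Fintype.card I)| * NN ι (hI I) X :=
      mul_le_mul_of_nonneg_right (le_abs_self _) hN
    have h5 : 0 ≤ |v2 / 2 ^ (Fintype.card κ * Fintype.card I)| * Yh (hI I) X :=
      mul_nonneg (abs_nonneg _) hY
    rw [hV]
    nlinarith
  have b2 : K * δ * ∑ S ∈ Sx ι X, ∑ c ∈ covF I S, (if ∀ i, clN D (c i) = γ i then f c ^ 2 else 0) ≤
      ε / 2 * (NN ι (hI I) X + Yh (hI I) X) := by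
    have h3 := mul_le_mul_of_nonneg_left b1 (mul_pos hK0 hδ0).le
    have h4 : K * δ * (V * (NN ι (hI I) X + Yh (hI I) X)) =
        ε / 2 * (NN ι (hI I) X + Yh (hI I) X) := by
      rw [hδ]
      field_simp
    linarith
  have b3 : K / (4 * δ) * ∑ S ∈ Sx ι X, ∑ c ∈ covF I S, (if EE phi c then (1 : ℝ) else 0) ≤
      ε / 2 * Yh (hI I) X := by
    have h3 := mul_le_mul_of_nonneg_left a2 (show (0 : ℝ) ≤ K / (4 * δ) by positivity)
    have h4 : K / (4 * δ) * (η * Yh (hI I) X) = ε / 2 * Yh (hI I) X := by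
      rw [hη]
      field_simp
    linarith
  have b4 : 0 ≤ ε / 2 * NN ι (hI I) X := mul_nonneg (by positivity) hN
  linarith

end

end Pool.Agent.Lib.MP_1a91b9_ntMN
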