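import Pool.Agent.Lib.MP_1a91b9_ntMN.P1
import Pool.Agent.Lib.MP_1a91b9_ntMN.A8
import Pool.Agent.Lib.MP_1a91b9_ntV.DJ.DenJ

/-!
P5: the joint moments of the sizes of the kernels
-/

set_option autoImplicit false
set_option linter.unusedSectionVars false

namespace Pool.Agent.Lib.MP_1a91b9_ntMN

open Finset Pool.Agent.Lib.MP_1a91b9_ntH Pool.Agent.Lib.MP_1a91b9_ntQ
open Pool.Agent.Lib.MP_1a91b9_ntQ.Da Pool.Agent.Lib.MP_1a91b9_ntV Pool.Agent.Lib.MP_1a91b9_ntM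
open Pool.Agent.Lib.MP_1a91b9_ntDV Pool.Agent.Lib.MP_1a91b9_ntMQ

noncomputable section

open Pool.Agent.Lib.MP_1a91b9_ntV.DS Pool.Agent.Lib.MP_1a91b9_ntV.DJ

variable {I A : Type} [Fintype I] [DecidableEq I] [Nonempty I] [Fintype A] [DecidableEq A]
  {phi : A → I → ZMod 2} {ι : Type} [DecidableEq ι] {κ : Type} [Fintype κ] [DecidableEq κ] [PS ι] [TwS ι]
  {Bt : A → Type} [∀ a, Fintype (Bt a)] [∀ a, DecidableEq (Bt a)] {E F : ∀ a, Bt a → Type}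
  [∀ a b, Fintype (E a b)] [∀ a b, DecidableEq (E a b)] [∀ a b, Fintype (F a b)]
  [∀ a b, DecidableEq (F a b)]

/-- **P5** (easy+). Proof: `MVc_cls hs hD (rf := fun a => RGJ (k := k a) (P a)) (cf := fun a => cL (P a))
(Kf := fun a S => (kJ D (P a) (k a) S : ℂ))` with `K a = ∑ b, k a b`, `M a = BLP (k a) (E a) (F a)`,
`W a = ∏ b, ((2 : ℂ) ^ k a b) ^ card (F a b) ≠ 0` and `hK a = kJ_mul D (P a)` (MP_1a91b9_ntV/DJ/SysJ.lean); for every `a` the sum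
is `TGJ (k a) (P a) w (ga phi γ a)` by definition (`TGJ`, `TNJ`, `ga`), so by `hv` the quotient is `v a`; then `MVrc_iff`
(`push_cast`, `apply_ite`). The model is `Pcl_kJ` (proved in the store file DV_P2.lean). -/
theorem PclC_kJ (hs : Sp phi) {D : Dat2 ι κ} {w : κ → ZMod 2} (hD : OKT D w)
    (P : ∀ a b, BD κ (E a b) (F a b)) (k : ∀ a, Bt a → ℕ) (γ : I → κ → ZMod 2) (v : A → ℝ)
    (hv : ∀ a, TGJ (k a) (P a) w (ga phi γ a) =
      v a * ∏ b, ((2 : ℂ) ^ k a b) ^ Fintype.card (F a b)) :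
    PclC D γ (fun c => ∏ a, (kJ D (P a) (k a) (TT phi c a) : ℝ)) (∏ a, v a) := by
  classical
  have hW : ∀ a, (∏ b, ((2 : ℂ) ^ k a b) ^ Fintype.card (F a b)) ≠ 0 := fun a =>
    prod_ne_zero_iff.2 fun b _ => pow_ne_zero _ (pow_ne_zero _ two_ne_zero)
  have h1 := MVc_cls (K := fun a => ∑ b, k a b) (M := fun a => BLP (k a) (E a) (F a)) hs hD
    (fun a => RGJ (k := k a) (P a)) (fun a => cL (P a))
    (fun a S => (kJ D (P a) (k a) S : ℂ)) hW (fun a => kJ_mul D (P a)) γ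
  have h2 : ∀ a, (∑ c0 : κ → ZMod 2, e2 (c0 ⬝ᵥ ∑ i, phi a i • γ i) *
      TNG (RGJ (k := k a) (P a)) (cL (P a)) w c0) =
      v a * ∏ b, ((2 : ℂ) ^ k a b) ^ Fintype.card (F a b) := fun a => hv a
  have h3 : (∏ a, (∑ c0 : κ → ZMod 2, e2 (c0 ⬝ᵥ ∑ i, phi a i • γ i) *
      TNG (RGJ (k := k a) (P a)) (cL (P a)) w c0) /
      ∏ b, ((2 : ℂ) ^ k a b) ^ Fintype.card (F a b)) = ∏ a, (v a : ℂ) :=
    prod_congr rfl fun a _ => by rw [h2 a, mul_div_cancel_right₀ _ (hW a)]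
  rw [h3] at h1
  refine MVrc_iff.2 (MVc.congr h1 (fun c => ?_) ?_)
  · split_ifs
    · push_cast
      rfl
    · exact Complex.ofReal_zero
  · push_cast
    rfl

end

end Pool.Agent.Lib.MP_1a91b9_ntMN
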