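import Pool.Agent.Lib.MP_1a91b9_ntMN.P7

/-!
P8: products of linear combinations of the indicators
-/

set_option autoImplicit false
set_option linter.unusedSectionVars false

namespace Pool.Agent.Lib.MP_1a91b9_ntMN

open Finset Pool.Agent.Lib.MP_1a91b9_ntH Pool.Agent.Lib.MP_1a91b9_ntQ
open Pool.Agent.Lib.MP_1a91b9_ntQ.Da Pool.Agent.Lib.MP_1a91b9_ntV Pool.Agent.Lib.MP_1a91b9_ntM
open Pool.Agent.Lib.MP_1a91b9_ntDV Pool.Agent.Lib.MP_1a91b9_ntMQ

noncomputable section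

open Pool.Agent.Lib.MP_1a91b9_ntV.DS Pool.Agent.Lib.MP_1a91b9_ntV.DJ

variable {I A : Type} [Fintype I] [DecidableEq I] [Nonempty I] [Fintype A] [DecidableEq A]
  {phi : A → I → ZMod 2} {ι : Type} [DecidableEq ι] {κ : Type} [Fintype κ] [DecidableEq κ] [PS ι] [TwS ι]
  {Bt : A → Type} [∀ a, Fintype (Bt a)] [∀ a, DecidableEq (Bt a)] {J : Type} [Fintype J]
  [DecidableEq J] {E F : ∀ a, Bt a → J → Type}
  [∀ a b i, Fintype (E a b i)] [∀ a b i, DecidableEq (E a b i)] [∀ a b i, Fintype (F a b i)]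
  [∀ a b i, DecidableEq (F a b i)]

private theorem P8_expand {g : ∀ a, Bt a → J → ℝ} :
    ∏ a, ∏ b, ∑ i, g a b i = ∑ σ : ∀ a, Bt a → J, ∏ a, ∏ b, g a b (σ a b) := by
  have h1 : ∀ a, ∏ b, ∑ i, g a b i = ∑ τ : Bt a → J, ∏ b, g a b (τ b) := fun a => by
    rw [Finset.prod_univ_sum, Fintype.piFinset_univ]
  rw [prod_congr rfl fun a _ => h1 a, Finset.prod_univ_sum, Fintype.piFinset_univ]

/-- **P8** (medium-). Proof: as `Pcl_lin` (proved in the store file DV_P3.lean), with the choices `σ : ∀ a, Bt a → J`: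
`∏ a, ∏ b, ∑ i, ε a b i * gd .. = ∑ σ, (∏ a, ∏ b, ε a b (σ a b)) * ∏ a, ∏ b, gd D (P a b (σ a b)) ..` (`Finset.prod_univ_sum`
twice, `Fintype.piFinset_univ`), `PclC_dens hs hD hw (fun a b => P a b (σ a b)) ..`, `(limP_PclC hD.nrm D γ).smul`, `(limP_PclC hD.nrm D γ).sum`
with `PclC_zero`. The functions are equal off `EE` in the class (`hf` with the set `TT phi c a`, not empty, class
`ga phi γ a` by `clN_TT`); everywhere their difference is bounded: the first is a product of numbers between `-1` and `1`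
(`hb`), the second is at most `∑ σ, |∏ a, ∏ b, ε a b (σ a b)|` (`gd` is `0` or `1`); `PclC.congrB` with
`C = 1 + ∑ σ, |∏ ..|`. -/
theorem PclC_lin (hs : Sp phi) {D : Dat2 ι κ} {w : κ → ZMod 2} (hD : OKT D w) (hw : w ≠ 0)
    (P : ∀ a b i, BD κ (E a b i) (F a b i))
    (hS : ∀ a b b', b ≠ b' → ∀ i i', (P a b i).kap + (P a b' i').kap ≠ 0 ∧
      (P a b i).kap + (P a b' i').kap ≠ w) (γ : I → κ → ZMod 2)
    (hT : ∀ a b i, Bal (P a b i) w (ga phi γ a)) (ε : ∀ a, Bt a → J → ℝ)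
    (f : ∀ a, Bt a → Finset ι → ℝ) (hf : ∀ a, ∀ S : Finset ι, clN D S = ga phi γ a → S ≠ ∅ →
      ∀ b, f a b S = ∑ i, ε a b i * gd D (P a b i) (ga phi γ a) S)
    (hb : ∀ a b S, |f a b S| ≤ 1) :
    PclC D γ (fun c => ∏ a, ∏ b, f a b (TT phi c a)) (∏ a, ∏ b, ((∑ i, ε a b i) * cinfV)) := by
  have h1 : ∀ σ : ∀ a, Bt a → J, PclC D γ
      (fun c => (∏ a, ∏ b, ε a b (σ a b)) *
        ∏ a, ∏ b, gd D (P a b (σ a b)) (ga phi γ a) (TT phi c a))
      ((∏ a, ∏ b, ε a b (σ a b)) * ∏ a, ∏ _b : Bt a, cinfV) := fun σ =>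
    (limP_PclC hD.nrm D γ).smul _ _ _ (PclC_dens hs hD hw (fun a b => P a b (σ a b))
      (fun a b b' hbb => hS a b b' hbb _ _) γ fun a b => hT a b (σ a b))
  have h2 := (limP_PclC hD.nrm D γ).sum univ (fun σ _ => h1 σ) (PclC_zero D γ)
  refine PclC.congrB hD hs (C := 1 + ∑ σ : ∀ a, Bt a → J, |∏ a, ∏ b, ε a b (σ a b)|) h2
    (fun c hc hne => ?_) (fun c => ?_) ?_
  · have h3 : ∀ a b, f a b (TT phi c a) =
        ∑ i, ε a b i * gd D (P a b i) (ga phi γ a) (TT phi c a) := fun a b =>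
      hf a (TT phi c a) (clN_TT D phi γ c hc a) (fun h => hne ⟨a, h⟩) b
    rw [prod_congr rfl fun a _ => prod_congr rfl fun b _ => h3 a b, P8_expand]
    refine sum_congr rfl fun σ _ => ?_
    rw [← prod_mul_distrib]
    exact prod_congr rfl fun a _ => prod_mul_distrib
  · have hg : ∀ a b i, |gd D (P a b i) (ga phi γ a) (TT phi c a)| ≤ 1 := by
      intro a b i
      unfold gd
      split_ifs
      · rw [abs_one]
      · rw [abs_zero]
        exact zero_le_one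
    have h3 : |∏ a, ∏ b, f a b (TT phi c a)| ≤ 1 := by
      rw [Finset.abs_prod]
      refine Finset.prod_le_one (fun a _ => abs_nonneg _) fun a _ => ?_
      rw [Finset.abs_prod]
      exact Finset.prod_le_one (fun b _ => abs_nonneg _) fun b _ => hb a b _
    have h4 : |∑ σ : ∀ a, Bt a → J, (∏ a, ∏ b, ε a b (σ a b)) *
        ∏ a, ∏ b, gd D (P a b (σ a b)) (ga phi γ a) (TT phi c a)| ≤
        ∑ σ : ∀ a, Bt a → J, |∏ a, ∏ b, ε a b (σ a b)| := by
      refine (Finset.abs_sum_le_sum_abs _ _).trans (sum_le_sum fun σ _ => ?_)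
      rw [abs_mul]
      refine mul_le_of_le_one_right (abs_nonneg _) ?_
      rw [Finset.abs_prod]
      refine Finset.prod_le_one (fun a _ => abs_nonneg _) fun a _ => ?_
      rw [Finset.abs_prod]
      exact Finset.prod_le_one (fun b _ => abs_nonneg _) fun b _ => hg a b _
    exact (abs_sub _ _).trans (add_le_add h3 h4)
  · rw [← sum_mul, ← P8_expand, ← prod_mul_distrib]
    exact prod_congr rfl fun a _ => prod_mul_distrib

end

end Pool.Agent.Lib.MP_1a91b9_ntMN
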