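import Pool.Agent.Lib.MP_1a91b9_ntMN.P8
import Pool.Agent.Lib.MP_1a91b9_ntZ.J7.Cls

/-!
P9: the joint mean value for the products of the divisors
-/

set_option autoImplicit false
set_option linter.unusedSectionVars false

namespace Pool.Agent.Lib.MP_1a91b9_ntMN

open Finset Pool.Agent.Lib.MP_1a91b9_ntH Pool.Agent.Lib.MP_1a91b9_ntQ
open Pool.Agent.Lib.MP_1a91b9_ntQ.Da Pool.Agent.Lib.MP_1a91b9_ntV Pool.Agent.Lib.MP_1a91b9_ntM
open Pool.Agent.Lib.MP_1a91b9_ntDV Pool.Agent.Lib.MP_1a91b9_ntMQ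

noncomputable section

open Pool.Agent.Lib.MP_1a91b9_ntV.DS Pool.Agent.Lib.MP_1a91b9_ntV.DJ
open Pool.Agent.Lib.MP_1a91b9_ntV.Pn (P7 tcn_P7 trn_P7 good_P7_0 good_P7_1 pencil_P7)
open Pool.Agent.Lib.MP_1a91b9_ntZ.J7 (vb fb vb_ge fb_eq)

variable {I A : Type} [Fintype I] [DecidableEq I] [Nonempty I] [Fintype A] [DecidableEq A]
  {phi : A → I → ZMod 2} {ι : Type} [DecidableEq ι] [PS ι] {N : ℕ}

/-- **P9a** (medium). Proof. This is `Pcl_7` (MP_1a91b9_ntDV/P4.lean; PROVED in the store file DV_P4.lean) with a product over `a`: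
`PclC_lin hs hD hw` for the set of primes `Off B`, with `Bt a = Bks (d1 a) (d2 a) (T a)`, `J = Fin 3`, the systems
`PB D (ga phi γ a) (T a (rep (d1 a) (d2 a) (T a) β)) (d0 a (rep ..)) (d1 a (rep ..)) (d2 a (rep ..)) i`, the coefficients
`co (d1 a) (d2 a) (T a) β` and the functions `fun S => ∏ n ∈ mem (d1 a) (d2 a) (T a) β, gi D (T a n) (d0 a n) (d1 a n) (d2 a n) S`
(`0` or `1`: `gi` is an indicator, so `hb`). The separation is needed only for the same `a`, and there it is literally the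
proof of `Pcl_7` (`sep7`, `rep_spec`), also `bal7`, `block_cases (hinj a)`, `gi_one`, `gi_two`. At the end `prod_blocks` for every
`a`, and the value is `vb` by definition. -/
theorem PclC_7 (hs : Sp phi) {D : Dat2 ι (Fin 3)} (tw : Tw7 D) {B : Finset ι} [TwS (Off B)]
    (hD : OKT (D.off B) (w7B B)) {d0 d1 d2 : A → Fin N → ZMod 2} {T : A → Fin N → Finset ι}
    (hT : ∀ a n, T a n ⊆ B)
    (hinj : ∀ a, Function.Injective fun n => (d0 a n, d1 a n, d2 a n, T a n))
    (γ : I → Fin 3 ⊕ B → ZMod 2) :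
    PclC (D.off B) γ (fun c => ∏ a, fb D (B := B) (d0 a) (d1 a) (d2 a) (T a) (TT phi c a))
      (∏ a, vb (d1 a) (d2 a) (T a)) := by
  classical
  have hw : w7B B ≠ 0 := fun h => one_ne_zero (congrFun h (Sum.inl 0))
  have hlab : ∀ a n n', lab (d1 a) (d2 a) (T a) n = lab (d1 a) (d2 a) (T a) n' →
      d1 a n = d1 a n' ∧ d2 a n = d2 a n' ∧ T a n = T a n' := by
    intro a n n' h
    unfold lab at h
    simp only [Prod.mk.injEq] at h
    exact ⟨h.1.1, h.1.2, h.2⟩
  have h1 := PclC_lin (Bt := fun a => Bks (d1 a) (d2 a) (T a)) (J := Fin 3) hs hD hw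
    (fun a β i => PB D (ga phi γ a) (T a (rep (d1 a) (d2 a) (T a) β)) (d0 a (rep (d1 a) (d2 a) (T a) β))
      (d1 a (rep (d1 a) (d2 a) (T a) β)) (d2 a (rep (d1 a) (d2 a) (T a) β)) i)
    (by
      intro a β β' hbb i i'
      refine sep7 (ga phi γ a) (hT a _) (hT a _) i i' ?_
      rintro ⟨h1, h2, h3⟩
      apply hbb
      apply Subtype.ext
      rw [← rep_spec (d1 a) (d2 a) (T a) β, ← rep_spec (d1 a) (d2 a) (T a) β']
      unfold lab
      rw [h1, h2, h3])
    γ (fun a β i => bal7 (ga phi γ a) tw (hT a _) _ _ _ i)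
    (fun a β => Pool.Agent.Lib.MP_1a91b9_ntV.DJ.co (d1 a) (d2 a) (T a) β)
    (fun a β S => ∏ n ∈ mem (d1 a) (d2 a) (T a) β, gi D (T a n) (d0 a n) (d1 a n) (d2 a n) S)
    (by
      intro a S hcl hne β
      rw [Fin.sum_univ_three]
      rcases block_cases (hinj a) β with h | ⟨n, hn, h0, h⟩
      · unfold Pool.Agent.Lib.MP_1a91b9_ntV.DJ.co
        rw [if_pos h, if_pos h, if_pos h, h, prod_singleton,
          gi_one (ga phi γ a) tw hne (hT a _) hcl]
        show _ = 1 * _ + 0 * _ + 0 * _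
        ring
      · have hnn : ¬ mem (d1 a) (d2 a) (T a) β = {rep (d1 a) (d2 a) (T a) β} := by
          intro h'
          have h2 : n ∈ ({rep (d1 a) (d2 a) (T a) β} : Finset (Fin N)) := by
            rw [← h', h]
            exact mem_insert_of_mem (mem_singleton_self n)
          exact hn (mem_singleton.1 h2)
        have hab : lab (d1 a) (d2 a) (T a) n = lab (d1 a) (d2 a) (T a) (rep (d1 a) (d2 a) (T a) β) := by
          rw [rep_spec, ← mem_mem, h]
          exact mem_insert_of_mem (mem_singleton_self n)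
        obtain ⟨e1, e2, e3⟩ := hlab a n _ hab
        unfold Pool.Agent.Lib.MP_1a91b9_ntV.DJ.co
        rw [if_neg hnn, if_neg hnn, if_neg hnn, h, prod_pair hn.symm, e1, e2, e3, h0,
          gi_two (ga phi γ a) tw hne (hT a _) hcl]
        show _ = 1 / 2 * _ + 1 / 2 * _ + -(1 / 2) * _
        ring)
    (by
      intro a β S
      rw [abs_prod]
      refine prod_le_one (fun n _ => abs_nonneg _) fun n _ => ?_
      unfold Pool.Agent.Lib.MP_1a91b9_ntV.DJ.gi
      split_ifs
      · rw [abs_one]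
      · rw [abs_zero]
        exact zero_le_one)
  have h2 : (fun c : I → Finset (Off B) => ∏ a, ∏ β : Bks (d1 a) (d2 a) (T a),
      ∏ n ∈ mem (d1 a) (d2 a) (T a) β, gi D (T a n) (d0 a n) (d1 a n) (d2 a n) (TT phi c a)) =
      fun c => ∏ a, fb D (B := B) (d0 a) (d1 a) (d2 a) (T a) (TT phi c a) := by
    funext c
    refine prod_congr rfl fun a _ => ?_
    exact (prod_blocks (d1 a) (d2 a) (T a) _).symm
  rw [← h2]
  exact h1

end

end Pool.Agent.Lib.MP_1a91b9_ntMN
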