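import Pool.Agent.Lib.MP_1a91b9_ntMQ.UW4
import Pool.Agent.Lib.MP_1a91b9_ntMN.M2

/-!
# MP_1a91b9_nt (all the multiquadratic fields): all the properties, sets of multipliers
-/

set_option autoImplicit false

namespace Pool.Agent.Lib.MP_1a91b9_ntMN

open NumberField WeierstrassCurve
open Pool.Agent.Lib.MP_1a91b9_ntL (crv)
open Pool.Agent.Lib.MP_1a91b9_ntW.J (RkZ)
open Pool.Agent.Lib.MP_1a91b9_ntC (pid_of)
open Pool.Agent.Lib.MP_1a91b9_ntZ (bn bn_tendsto)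
open Pool.Agent.Lib.MP_1a91b9_ntMQ (exc_bound PMF pmf_of)

noncomputable section

open Classical in
/-- **From finite sets to sets of multipliers.** -/
theorem set_covI {R α : Type} [CommRing R] {r : ℕ} {m : R} {u : Fin r → R}
    (hfin : ∀ X : ℝ, (lcs R r X).Finite)
    {Q : α → (Fin r → R) → Prop} {T : Set α} {t : ℕ} {g v : ℝ} (hg0 : 0 < g) (hg1 : g ≤ 1)
    (hv : v = if T.Infinite then 1 else bn T.ncard t g)
    (h : ∀ S : Finset α, (S : Set α) ⊆ T →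
      CovGI R r m u (fun d => t ≤ (S.filter fun δ => Q δ d).card) (bn S.card t g)) :
    CovGI R r m u (fun d => (t : ℕ∞) ≤ {δ ∈ T | Q δ d}.encard) v := by
  have hle : ∀ (S : Finset α) (d : Fin r → R), (S : Set α) ⊆ T →
      t ≤ (S.filter fun δ => Q δ d).card → (t : ℕ∞) ≤ {δ ∈ T | Q δ d}.encard := by
    intro S d hS h1
    have h2 : (((S.filter fun δ => Q δ d) : Finset α) : Set α) ⊆ {δ ∈ T | Q δ d} := by
      intro δ hδ
      have h3 := Finset.mem_filter.1 (Finset.mem_coe.1 hδ)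
      exact ⟨hS (Finset.mem_coe.2 h3.1), h3.2⟩
    have h4 := Set.encard_le_encard h2
    rw [Set.encard_coe_eq_coe_finsetCard] at h4
    exact le_trans (by exact_mod_cast h1) h4
  rcases T.finite_or_infinite with hT | hT
  · have hv' : v = bn T.ncard t g := by rw [hv, if_neg (Set.not_infinite.2 hT)]
    have h1 := h hT.toFinset (by rw [hT.coe_toFinset])
    rw [← Set.ncard_eq_toFinset_card T hT, ← hv'] at h1
    exact h1.mono hfin fun d _ h2 => hle _ d (by rw [hT.coe_toFinset]) h2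
  · have hv' : v = 1 := by rw [hv, if_pos hT]
    intro ε hε
    obtain ⟨k, hk⟩ := ((bn_tendsto hg0 hg1 t).eventually
      (lt_mem_nhds (show 1 - ε / 2 < 1 by linarith))).exists
    obtain ⟨S, hST, hSk⟩ := hT.exists_subset_card_eq k
    have h1 := (h S hST).mono hfin fun d _ h2 => hle S d hST h2
    rw [hSk] at h1
    filter_upwards [h1 (ε / 2) (by positivity)] with X hX
    rw [hv']
    linarith

open Classical in
/-- **All the properties for the tuples of divisors, for at least `t` of the multipliers in a finite set.** -/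
theorem dstabCF (K : Type) [Field K] [NumberField K] (hK : Module.finrank ℚ K = 2)
    (a b : K) (hE : b * (a ^ 2 - 4 * b) ≠ 0) (j D : ℤ)
    (hjD : (j, D) ∈ Pool.Agent.Lib.MP_1a91b9_ntY.cmList)
    (hj : 256 * (a ^ 2 - 3 * b) ^ 3 = j * (b ^ 2 * (a ^ 2 - 4 * b))) (hD : ∃ s : K, s ^ 2 = D)
    (l : ℕ) (hl : l = 2 ∨ l = 4 ∧ ∃ i : K, i ^ 2 = -1)
    (F : Type) [Field F] [NumberField F] [Algebra K F]
    (hF : IntermediateField.adjoin K {x : F | ∃ c : K, x ^ l = algebraMap K F c} = ⊤) (r : ℕ)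
    (S : Finset (Fin r → 𝓞 K)) (h0 : ∀ δ ∈ S, ∀ i, δ i ≠ 0) (m : 𝓞 K) (u : Fin r → 𝓞 K)
    (hsm : Sm (𝓞 K) r m u) (c : ℝ) (t : ℕ)
    (h : CovGI (𝓞 K) r m u (fun d => t ≤ (S.filter fun δ : Fin r → 𝓞 K =>
      ∀ J : Finset (Fin r), J.Nonempty → RkZ (⟨0,
        algebraMap K F (((∏ i ∈ J, (δ i * d i) : 𝓞 K) : K) * a), 0,
        algebraMap K F (((∏ i ∈ J, (δ i * d i) : 𝓞 K) : K) ^ 2 * b), 0⟩ :
          WeierstrassCurve F)).card) c) :
    CovGI (𝓞 K) r m u (fun d => t ≤ (S.filter fun δ : Fin r → 𝓞 K =>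
      PMF a b F (fun i => ((δ i * d i : 𝓞 K) : K))).card) c := by
  have hneg : D < 0 := by
    unfold Pool.Agent.Lib.MP_1a91b9_ntY.cmList at hjD
    simp only [List.mem_cons, Prod.mk.injEq, List.not_mem_nil, or_false] at hjD
    rcases hjD with ⟨-, rfl⟩ | ⟨-, rfl⟩ | ⟨-, rfl⟩ | ⟨-, rfl⟩ | ⟨-, rfl⟩ | ⟨-, rfl⟩ | ⟨-, rfl⟩ |
      ⟨-, rfl⟩ | ⟨-, rfl⟩ | ⟨-, rfl⟩ | ⟨-, rfl⟩ | ⟨-, rfl⟩ | ⟨-, rfl⟩ <;> norm_num
  obtain ⟨B, hB0, hB⟩ := pmf_of K hK a b hE j D hjD hj hD l hl F hF r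
  obtain ⟨s, hs⟩ := hD
  have hfu : Finite (𝓞 K)ˣ := Pool.Agent.Lib.MP_1a91b9_ntW.J.finite_units hK
    (Pool.Agent.Lib.MP_1a91b9_ntW.J.no_real hs hneg)
  have hb : b ≠ 0 := left_ne_zero_of_mul hE
  have hb' : a ^ 2 - 4 * b ≠ 0 := right_ne_zero_of_mul hE
  have hJ : Pool.Agent.Lib.MP_1a91b9_nuI.HasJ (crv a b) j := by
    refine Pool.Agent.Lib.MP_1a91b9_ntY.hasJ_crv ?_
    linear_combination 16 * hj
  have hW : Pool.Agent.Lib.MP_1a91b9_ntY.CMK (crv a b) := by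
    refine ⟨?_, j, D, s, hjD, hs, hJ⟩
    rw [Pool.Agent.Lib.MP_1a91b9_ntY.crv_Δ]
    exact mul_ne_zero (mul_ne_zero (by norm_num) (pow_ne_zero 2 hb)) hb'
  have hP : Pool.Agent.Lib.MP_1a91b9_ntY.Pt2 (crv a b) := by
    refine ⟨0, ?_⟩
    unfold crv WeierstrassCurve.b₂ WeierstrassCurve.b₄ WeierstrassCurve.b₆
    ring
  have hpi : IsPrincipalIdealRing (𝓞 K) := pid_of hK hW hP
  have hC : ∀ δ ∈ S, ∃ C : ℕ, ∀ (J : Finset (Fin r)) (β : F), J.Nonempty → β ≠ 0 →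
      ∃ i : Fin r, ∀ d : Fin r → 𝓞 K,
        {x : 𝓞 K | Squarefree x ∧ (∀ k, Function.update d i x k ≠ 0) ∧
          IsSquare (algebraMap K F ((∏ k ∈ J, (δ k * Function.update d i x k) : 𝓞 K) : K) * β)}.Finite ∧
        {x : 𝓞 K | Squarefree x ∧ (∀ k, Function.update d i x k ≠ 0) ∧
          IsSquare (algebraMap K F ((∏ k ∈ J, (δ k * Function.update d i x k) : 𝓞 K) : K) * β)}.ncard ≤ C :=
    fun δ hδ => exc_bound K F (h0 δ hδ)
  choose! C hC using hC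
  refine CovGI.exc (fun X => lcs_finite r X) h (τ := (Fin r → 𝓞 K) × Finset (Fin r) × F)
    (S ×ˢ ((Finset.univ : Finset (Finset (Fin r))).filter Finset.Nonempty) ×ˢ B)
    (fun p d => (∀ k, d k ≠ 0) ∧
      IsSquare (algebraMap K F ((∏ k ∈ p.2.1, (p.1 k * d k) : 𝓞 K) : K) * p.2.2))
    (S.sup C) (fun d hd hP => ?_) (fun p hp => ?_) (fun _ => hsm)
  · by_cases hex : ∃ p ∈ S ×ˢ ((Finset.univ : Finset (Finset (Fin r))).filter Finset.Nonempty) ×ˢ B,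
        (∀ k, d k ≠ 0) ∧ IsSquare (algebraMap K F ((∏ k ∈ p.2.1, (p.1 k * d k) : 𝓞 K) : K) * p.2.2)
    · exact Or.inr hex
    · left
      refine hP.trans (Finset.card_le_card fun δ hδ => ?_)
      rw [Finset.mem_filter] at hδ ⊢
      refine ⟨hδ.1, hB (fun i => δ i * d i) (fun i => mul_ne_zero (h0 δ hδ.1 i) (hd i).ne_zero)
        hδ.2 fun β hβ J hJ hsq => hex ⟨(δ, J, β), ?_, fun k => (hd k).ne_zero, hsq⟩⟩
      rw [Finset.mem_product, Finset.mem_product, Finset.mem_filter]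
      exact ⟨hδ.1, ⟨Finset.mem_univ _, hJ⟩, hβ⟩
  · rw [Finset.mem_product, Finset.mem_product, Finset.mem_filter] at hp
    obtain ⟨i, hi⟩ := hC p.1 hp.1 p.2.1 p.2.2 hp.2.1.2 (hB0 _ hp.2.2)
    exact ⟨i, fun d => ⟨(hi d).1, (hi d).2.trans (Finset.le_sup hp.1)⟩⟩

end

end Pool.Agent.Lib.MP_1a91b9_ntMN
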