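import Pool.Agent.Lib.MP_1a91b9_ntMN.RU11

/-!
# MP_1a91b9_nt (all the multiquadratic fields): the law for the rank zero twists
-/

set_option autoImplicit false

namespace Pool.Agent.Lib.MP_1a91b9_ntMN

open NumberField IsDedekindDomain WeierstrassCurve
open Pool.Agent.Lib.MP_1a91b9_ntL (crv)
open Pool.Agent.Lib.MP_1a91b9_ntW.J (RkZ)
open Pool.Agent.Lib.MP_1a91b9_ntZ (bn CB cb_two)

noncomputable section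

open Classical in
/-- **The law for the rank zero twists**, for the pairs `(j, D)` of the list `L`. -/
def StdI (L : List (ℤ × ℤ)) : Prop :=
  ∀ {K : Type} [Field K] [NumberField K]
    (_ : Module.finrank ℚ K = 2) (a b : K) (_ : b * (a ^ 2 - 4 * b) ≠ 0) (j D : ℤ)
    (_ : (j, D) ∈ L)
    (_ : 256 * (a ^ 2 - 3 * b) ^ 3 = j * (b ^ 2 * (a ^ 2 - 4 * b))) (_ : ∃ s : K, s ^ 2 = D)
    (l : ℕ) (_ : l = 2 ∨ l = 4 ∧ ∃ i : K, i ^ 2 = -1)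
    (F : Type) [Field F] [NumberField F] [Algebra K F]
    (_ : IntermediateField.adjoin K {x : F | ∃ c : K, x ^ l = algebraMap K F c} = ⊤) (r : ℕ)
    (Δ : Finset (Fin r → 𝓞 K)) (_ : ∀ δ ∈ Δ, ∀ i, δ i ≠ 0)
    (_ : ∀ δ ∈ Δ, ∀ δ' ∈ Δ, δ ≠ δ' → ∀ J : Finset (Fin r), J.Nonempty →
      ∀ e ∈ ({1, -1, b, -b} : Set K), ¬ ∃ x : F, x ^ 2 =
        algebraMap K F (e * (((∏ i ∈ J, δ i : 𝓞 K) : K) * ((∏ i ∈ J, δ' i : 𝓞 K) : K)))) (t : ℕ)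
    (n : ℕ) (m : 𝓞 K) (u : Fin r → 𝓞 K) (_ : m ∣ (2 : 𝓞 K) ^ n)
    (_ : ∀ i, ∀ p : 𝓞 K, Prime p → ¬ (p ^ 2 ∣ m ∧ p ^ 2 ∣ u i)) (c : ℝ)
    (_ : c = if Prime (2 : 𝓞 K) then (if ∃ x : F, x ^ 2 = -1 then
        √((∏' i : ℕ, (1 + 1 / (2 : ℝ) ^ (2 * i + 1))⁻¹) / 2) else
        ∏' i : ℕ, (1 + 1 / (2 : ℝ) ^ (2 * i + 1))⁻¹) else
      if Squarefree (2 : 𝓞 K) then ∏' i : ℕ, (1 - 1 / (2 : ℝ) ^ (i + 1)) else
      ∏' i : ℕ, (1 + 1 / (2 : ℝ) ^ (i + 1))⁻¹),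
    CovGI (𝓞 K) r m u (fun d => t ≤ (Δ.filter fun δ : Fin r → 𝓞 K =>
      ∀ J : Finset (Fin r), J.Nonempty → RkZ (⟨0,
        algebraMap K F (((∏ i ∈ J, (δ i * d i) : 𝓞 K) : K) * a), 0,
        algebraMap K F (((∏ i ∈ J, (δ i * d i) : 𝓞 K) : K) ^ 2 * b), 0⟩ :
          WeierstrassCurve F)).card) (bn Δ.card t (c ^ ((2 ^ r - 1) * Module.finrank K F)))

end

end Pool.Agent.Lib.MP_1a91b9_ntMN
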