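import Pool.Agent.Lib.MP_1a91b9_ntMQ.RU15
import Pool.Agent.Lib.MP_1a91b9_ntMN.RU12
import Pool.Agent.Lib.MP_1a91b9_ntMN.RU14

/-!
# MP_1a91b9_nt (all the multiquadratic fields): the assembly, from the results over the
standard models
-/

set_option autoImplicit false

namespace Pool.Agent.Lib.MP_1a91b9_ntMN

open NumberField WeierstrassCurve
open Pool.Agent.Lib.MP_1a91b9_ntW.J (RkZ Cls2 ClsN cR cS cI cJ)
open Pool.Agent.Lib.MP_1a91b9_ntI (K3 excl)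
open Pool.Agent.Lib.MP_1a91b9_ntQ (K4)
open Pool.Agent.Lib.MP_1a91b9_ntZ (bn)
open Pool.Agent.Lib.MP_1a91b9_ntW (K8)
open Pool.Agent.Lib.MP_1a91b9_ntV (K7 t7)
open Pool.Agent.Lib.MP_1a91b9_ntY (cmList)
open Pool.Agent.Lib.MP_1a91b9_ntMQ (cm_excl)

/-- **The law for the rank zero twists**, from the results over the standard models which occur in the list. -/
theorem stdI_of {L : List (ℤ × ℤ)} (hL : ∀ p ∈ L, p ∈ cmList)
    (H4 : (∃ p ∈ L, p.2 = -4) → ∀ {b : K4}, b ≠ 0 → DBI K4 4 (fun _ => Cls2 K4) {1, b} 0 b cR)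
    (H8 : (∃ p ∈ L, p.2 = -8) → ∀ {e : K8}, e ≠ 0 →
      DBI K8 2 (fun _ => Cls2 K8) {1, -1} (4 * e) (2 * e ^ 2) cR)
    (H7 : (∃ p ∈ L, p.2 = -7) → ∀ {d₀ : K7}, d₀ ≠ 0 → DBI K7 2 (fun _ => Cls2 K7) {1, -1}
      (d₀ * (1 + (1 - (t7 : K7)) ^ 4)) (d₀ ^ 2 * (1 - (t7 : K7)) ^ 4) cS)
    (H3 : (∃ p ∈ L, p.2 = -3) → ∀ {e : K3}, e ≠ 0 →
      DBI K3 2 (fun F _ => ClsN K3 F) {1, -1} (-3 * e) (3 * e ^ 2) cI)
    (H3' : (∃ p ∈ L, p.2 = -3) → ∀ {e : K3}, e ≠ 0 →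
      DBI K3 2 (fun _ => Cls2 K3) {1, -1} (-3 * e) (3 * e ^ 2) cJ) : StdI L := by
  intro K _ _ hK a b hE j D hjD hj hD l hl F _ _ _ hF r Δ h0 hΔ t n m u hm hu c hc
  have hcm := hL _ hjD
  obtain ⟨s, hs⟩ := hD
  have k1 : ∀ {K : Type} [Field K] (b : K), ∀ e ∈ ({1, -1} : Set K),
      e = 1 ∨ e = -1 ∨ e = b ∨ e = -b := by
    intro K _ b e he
    rcases he with rfl | he
    · exact Or.inl rfl
    · exact Or.inr (Or.inl he)
  have e4 : ∀ {x : K}, x ^ 2 = -1 → ∃ p ∈ L, p.2 = -4 := by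
    intro x hx
    have h := cm_excl hK hcm hs (x := x) (a := -1) (by rw [hx]; push_cast; rfl) (by omega)
    exact ⟨_, hjD, by simp only; omega⟩
  have e8 : ∀ {x : K}, x ^ 2 = -2 → ∃ p ∈ L, p.2 = -8 := by
    intro x hx
    have h := cm_excl hK hcm hs (x := x) (a := -2) (by rw [hx]; push_cast; rfl) (by omega)
    exact ⟨_, hjD, by simp only; omega⟩
  have e3 : ∀ {x : K}, x ^ 2 = -3 → ∃ p ∈ L, p.2 = -3 := by
    intro x hx
    have h := cm_excl hK hcm hs (x := x) (a := -3) (by rw [hx]; push_cast; rfl) (by omega)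
    exact ⟨_, hjD, by simp only; omega⟩
  have e7 : ∀ {x : K}, x ^ 2 = x - 2 → ∃ p ∈ L, p.2 = -7 := by
    intro x hx
    have h := cm_excl hK hcm hs (x := 2 * x - 1) (a := -7)
      (by rw [Pool.Agent.Lib.MP_1a91b9_ntI.th7 hx]; push_cast; rfl) (by omega)
    exact ⟨_, hjD, by simp only; omega⟩
  refine dbinKI_expl
    (fun hi _ hb => db4I_of (fun hb => DMBI.of_dbi ?_ (H4 (e4 hi) hb)) hK hi hb)
    (fun hs _ he => db8I_of (fun he => DMBI.of_dbi (k1 _) (H8 (e8 hs) he)) hK hs he)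
    (fun hs _ he => db7I_of (fun he => DMBI.of_dbi (k1 _) (H7 (e7 hs) he)) hK hs he)
    (fun hs _ he => db3NI_of (fun he => DMBI.of_dbi (k1 _) (H3 (e3 hs) he)) hK hs he)
    (fun hs _ he => db3JI_of (fun he => DMBI.of_dbi (k1 _) (H3' (e3 hs) he)) hK hs he)
    hK a b hE j D hcm hj ⟨s, hs⟩ l hl F hF r Δ h0 hΔ t n m u hm hu c hc
  intro e he
  rcases he with rfl | he
  · exact Or.inl rfl
  · exact Or.inr (Or.inr (Or.inl he))

end Pool.Agent.Lib.MP_1a91b9_ntMN
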