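import Pool.Agent.Lib.MP_1a91b9_ntZ.J4Main
import Pool.Agent.Lib.MP_1a91b9_ntMQ.UT7
import Pool.Agent.Lib.MP_1a91b9_ntMN.RU0
import Pool.Agent.Lib.MP_1a91b9_ntMN.N8
import Pool.Agent.Lib.MP_1a91b9_ntMN.UT2

/-!
# MP_1a91b9_nt (random multiquadratic fields, binomial form), `ℚ(i)`
-/

set_option autoImplicit false
set_option linter.unusedSectionVars false

namespace Pool.Agent.Lib.MP_1a91b9_ntMN

section D

open NumberField Finset Pool.Agent.Lib.MP_1a91b9_ntQ Pool.Agent.Lib.MP_1a91b9_ntM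
  Pool.Agent.Lib.MP_1a91b9_ntM.E Pool.Agent.Lib.MP_1a91b9_ntM.E.RX
open Pool.Agent.Lib.MP_1a91b9_ntQ.Da (cinf2)
open Pool.Agent.Lib.MP_1a91b9_ntZ (Atl bn)
open Pool.Agent.Lib.MP_1a91b9_ntDV (mu4 rep4 ph_mu4)
open Pool.Agent.Lib.MP_1a91b9_ntMQ (sdJ sdJ_empty sdJ_insert sdJ_union sdJ_sub sdJ_disjoint prodJ4)

noncomputable section

/-- **The law for the tuples of divisors over `ℚ(i)`, at least `t` of the blocks.** -/
theorem div4BI (hJ : JBI4) (hpos : ∀ m r, CovPos (clq m) r) {r : ℕ}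
    {A : Finset (Fin r) → Type} [∀ J, Fintype (A J)]
    [∀ J, DecidableEq (A J)] {I : Type} [Fintype I] [DecidableEq I]
    (bl : ∀ J, A J → I) (a : ∀ J, A J → 𝓞 K4) (f : ∀ J, A J → Bool)
    (h0 : ∀ J i, a J i ≠ 0) (hf : ∀ J i, f J i = true → ¬ ∃ y : K4, y ^ 2 = (a J i : K4))
    (hpw : ∀ J : Finset (Fin r), J.Nonempty → ∀ i i', i ≠ i' →
      (¬ ∃ y : K4, y ^ 4 * a J i = a J i') ∧ ¬ ∃ y : K4, y ^ 4 = (a J i : K4) * a J i')
    (t : ℕ) {v : ℝ} (hv0 : 0 ≤ v)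
    (hv : ∀ b, v ≤ ∏ J ∈ (univ : Finset (Finset (Fin r))).filter Finset.Nonempty,
      ∏ a ∈ univ.filter (fun a => bl J a = b), (if f J a = true then cinf2 / 2 else cinf2))
    {n : ℕ} {M : 𝓞 K4} {u : Fin r → 𝓞 K4} (hM : M ∣ 2 ^ n)
    (hu : ∀ k, ¬ ((2 : 𝓞 K4) ∣ M ∧ (2 : 𝓞 K4) ∣ u k))
    (P : I → (Fin r → 𝓞 K4) → Prop)
    (hP : ∀ d : Fin r → 𝓞 K4, (∀ l, Squarefree (d l)) → ∀ b,
      (∀ J : Finset (Fin r), J.Nonempty → ∀ i, bl J i = b → ∃ (z : DD8) (t : 𝓞 K4), t ≠ 0 ∧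
      Dj z.S z.T z.B ∧ a J i * (∏ l ∈ J, d l) ^ 2 = z.el * t ^ 4 ∧ GdX z ∅ ∧
      (f J i = true → GdX z.inv ∅)) → P b d) :
    CovGI (𝓞 K4) r M u (fun d => Atl t fun b => P b d) (bn (Fintype.card I) t v) := by
  classical
  have h1 : ∀ J i, ∃ (x : DD8) (s : 𝓞 K4), Dj x.S x.T x.B ∧ s ≠ 0 ∧ a J i = x.el * s ^ 4 :=
    fun J i => exists_DD8 (h0 J i)
  choose x s hx hs hxs using h1
  obtain ⟨Q, hQ⟩ : ∃ Q : Finset Pg, Q = univ.biUnion fun J : Finset (Fin r) =>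
      univ.biUnion fun i => (x J i).S ∪ (x J i).T ∪ (x J i).B := ⟨_, rfl⟩
  have hxP : ∀ J i, (x J i).S ∪ (x J i).T ∪ (x J i).B ⊆ Q := fun J i => by
    rw [hQ]
    exact (subset_biUnion_of_mem (fun i => (x J i).S ∪ (x J i).T ∪ (x J i).B) (mem_univ i)).trans
      (subset_biUnion_of_mem (fun J : Finset (Fin r) => univ.biUnion fun i =>
        (x J i).S ∪ (x J i).T ∪ (x J i).B) (mem_univ J))
  have hSP : ∀ J i, (x J i).S ⊆ Q := fun J i =>
    (subset_union_left.trans subset_union_left).trans (hxP J i)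
  have hTP : ∀ J i, (x J i).T ⊆ Q := fun J i =>
    (subset_union_right.trans subset_union_left).trans (hxP J i)
  have hBP : ∀ J i, (x J i).B ⊆ Q := fun J i => subset_union_right.trans (hxP J i)
  obtain ⟨Z, hZ⟩ : ∃ Z : ZMod 4 → Fin 2 → Finset Pg → ∀ J, A J → DD8, Z = fun k j Y J i =>
      (x J i).mul k j Y := ⟨_, rfl⟩
  have hZd : ∀ k j Y J i, Dj (Z k j Y J i).S (Z k j Y J i).T (Z k j Y J i).B :=
    fun k j Y J i => by
      rw [hZ]
      exact dj_E (hx J i) _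
  have hZe : ∀ k j Y J i, ∃ t : 𝓞 K4, t ≠ 0 ∧
      (x J i).el * Pool.Agent.Lib.MP_1a91b9_ntQ.Den4.ph k j (DDq Y) ^ 2 =
        (Z k j Y J i).el * t ^ 4 := fun k j Y J i => by
    rw [hZ]
    exact el_mul (hx J i) k j Y
  have hph : ∀ (k : ZMod 4) (j : Fin 2) (Y : Finset Pg),
      Pool.Agent.Lib.MP_1a91b9_ntQ.Den4.ph k j (DDq Y) ≠ 0 := fun k j Y =>
    (Pool.Agent.Lib.MP_1a91b9_ntQ.Den4.ph_squarefree k j Y).ne_zero
  refine lawC4 hM hu (hpos _ _) (fun d => Atl t fun b => P b d) (bn (Fintype.card I) t v)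
    fun kj => ?_
  choose k j hkj using fun J => prodJ4 kj J
  refine CovLI.glue (B := Q) fun B' hB' => ?_
  refine CovLI.mono (hJ (2 * n) r A I bl (fun J i => Z (k J) (j J) (sdJ J B') J i) f Q
    (fun J i => hZd (k J) (j J) (sdJ J B') J i) (fun J i => ?_)
    (fun J i hi h => ?_) (fun J hJn i i' hii => ?_) t v hv0 hv) fun Y hY h2 => ?_
  · rw [hZ]
    exact ⟨sE_sub (hSP J i) (hTP J i), sE_sub (hTP J i) (hSP J i),
      bE_sub (hBP J i) (sdJ_sub hB' J)⟩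
  · rw [hZ] at h
    exact hf J i hi (Sq_of (hxs J i) ((Sq_mul (k J) (j J) (sdJ J B')).1 h))
  · obtain ⟨t, ht, e1⟩ := hZe (k J) (j J) (sdJ J B') J i
    obtain ⟨t', ht', e1'⟩ := hZe (k J) (j J) (sdJ J B') J i'
    refine ⟨fun h => ?_, fun h => ?_⟩
    · have h2 : Z (k J) (j J) (sdJ J B') J i = Z (k J) (j J) (sdJ J B') J i' := h
      rw [h2] at e1
      exact (hpw J hJn i i' hii).1
        (four_of_eq (hph (k J) (j J) (sdJ J B')) (hs J i) (hxs J i) (hxs J i') ht e1 e1')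
    · have h2 : Z (k J) (j J) (sdJ J B') J i = (Z (k J) (j J) (sdJ J B') J i').inv := h
      rw [h2] at e1
      obtain ⟨v, _, e2⟩ :=
        Pool.Agent.Lib.MP_1a91b9_ntM.E.RX.el_inv (Z (k J) (j J) (sdJ J B') J i')
      exact (hpw J hJn i i' hii).2
        (four_of_inv (hph (k J) (j J) (sdJ J B')) (hxs J i) (hxs J i') e1 e1' e2)
  · refine h2.mono fun b h2 => ?_
    refine hP _ (fun l => ?_) b fun J hJn i hib => ?_
    · rw [← Prod.mk.eta (p := kj l), ← ph_mu4]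
      exact Pool.Agent.Lib.MP_1a91b9_ntQ.Den4.ph_squarefree _ _ _
    have h3 := h2 J hJn i hib
    have hYd : Disjoint (sdJ J Y) Q := sdJ_disjoint hY J
    have e1 : Z (k J) (j J) (sdJ J B' ∪ sdJ J Y) J i =
        ⟨(Z (k J) (j J) (sdJ J B') J i).k, (Z (k J) (j J) (sdJ J B') J i).j,
          (Z (k J) (j J) (sdJ J B') J i).S, (Z (k J) (j J) (sdJ J B') J i).T,
          (Z (k J) (j J) (sdJ J B') J i).B ∪ sdJ J Y⟩ := by
      rw [hZ, union_comm (sdJ J B') (sdJ J Y)]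
      simp only [DD8.mul, DD8.mk.injEq, true_and]
      exact ⟨sE_out (hSP J i) (hTP J i) hYd, sE_out (hTP J i) (hSP J i) hYd,
        bE_out (hSP J i) (hTP J i) (hBP J i) hYd⟩
    have h4 : GdX (Z (k J) (j J) (sdJ J B' ∪ sdJ J Y) J i) ∅ ∧
        (f J i = true → GdX (Z (k J) (j J) (sdJ J B' ∪ sdJ J Y) J i).inv ∅) := by
      rw [e1]
      exact ⟨(GdX_add _ _).2 h3.1, fun hi => (GdX_add_inv _ _).2 (h3.2 hi)⟩
    obtain ⟨t, ht, e2⟩ := hZe (k J) (j J) (sdJ J B' ∪ sdJ J Y) J i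
    obtain ⟨t₁, ht₁, e3⟩ := hkj J fun l => Y l ∪ B' l
    rw [sdJ_union hY hB', union_comm] at e3
    refine ⟨Z (k J) (j J) (sdJ J B' ∪ sdJ J Y) J i, t * s J i * t₁,
      mul_ne_zero (mul_ne_zero ht (hs J i)) ht₁,
      hZd (k J) (j J) (sdJ J B' ∪ sdJ J Y) J i, ?_, h4.1, h4.2⟩
    have e4 : (∏ l ∈ J, (mu4 (kj l) * ∏ q ∈ Y l ∪ B' l, q.1)) =
      Pool.Agent.Lib.MP_1a91b9_ntQ.Den4.ph (k J) (j J) (DDq (sdJ J B' ∪ sdJ J Y)) * t₁ ^ 2 := e3
    rw [e4, hxs J i]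
    linear_combination (s J i) ^ 4 * t₁ ^ 4 * e2

end

end D

open NumberField Finset WeierstrassCurve
open Pool.Agent.Lib.MP_1a91b9_ntM.E Pool.Agent.Lib.MP_1a91b9_ntY Pool.Agent.Lib.MP_1a91b9_ntZ
open Pool.Agent.Lib.MP_1a91b9_ntQ (K4 WD4)
open Pool.Agent.Lib.MP_1a91b9_ntL (crv)
open Pool.Agent.Lib.MP_1a91b9_ntW.J (RkZ Cls2 cR c4_fourth cls4 exists_fourth_mul4)

open Pool.Agent.Lib.MP_1a91b9_ntZ.J4 (sep4 prod_blk)
open Pool.Agent.Lib.MP_1a91b9_ntMQ (card_ne)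
open Pool.Agent.Lib.MP_1a91b9_ntQ (clq)

noncomputable section

attribute [local instance 5000] Pool.Agent.Lib.MP_1a91b9_ntQ.cd4

/-- **The binomial law for the tuples and the curves `y² = x³ + b x` over `ℚ(i)`.** -/
theorem dbi4 (hJ : JBI4) (hC : ∀ m r : ℕ, CovPos (clq m) r) {b : K4} (hb : b ≠ 0) :
    DBI K4 4 (fun _ _ => Cls2 K4) {1, b} 0 b cR := by
  classical
  refine DBI.of_ne fun F _ _ _ hF r m u hmu k δ hδ0 hδ t => ?_
  obtain ⟨n, hn⟩ := hmu.1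
  obtain ⟨A, hA⟩ := EX4.exists_of hF
  have hA0 : A ≠ [] := by
    rintro rfl
    have h1 := hA.len
    rw [List.length_nil] at h1
    exact absurd h1.symm (Module.finrank_pos (R := K4) (M := F)).ne'
  have hD : ∀ (J : Finset (Fin r)) (i : Fin k), ∃ (D ν : 𝓞 K4), ν ≠ 0 ∧
      (D : K4) = -(b * δ i J ^ 2) * (ν : K4) ^ 4 := fun J i => exists_fourth_mul4
  choose D ν hν hD using hD
  have hD0 : ∀ J i, D J i ≠ 0 := by
    intro J i h0
    have hν' : (ν J i : K4) ≠ 0 := by exact_mod_cast hν J i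
    have h1 := hD J i
    rw [h0] at h1
    have h2 : -(b * δ i J ^ 2) * (ν J i : K4) ^ 4 = 0 := by
      rw [← h1]
      exact map_zero (algebraMap (𝓞 K4) K4)
    exact (mul_ne_zero (neg_ne_zero.2 (mul_ne_zero hb (pow_ne_zero 2 (hδ0 i J))))
      (pow_ne_zero 4 hν')) h2
  choose N a f hN ha0 hae hf hpw hcov hc using fun J i => exists_rep hA0 hA.ne hA.pw (hD0 J i)
  have hcR : cR = MP_1a91b9_ntQ.Da.cinf2 := MP_1a91b9_ntQ.cinf2_form
  have hc0 : (0 : ℝ) ≤ MP_1a91b9_ntQ.Da.cinf2 := MP_1a91b9_ntQ.cinf2_pos5.le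
  have key := div4BI hJ hC (A := fun J => Σ i : Fin k, Fin (N J i)) (I := Fin k)
    (fun _ => Sigma.fst)
    (fun J p => a J p.1 p.2) (fun J p => f J p.1 p.2) (fun J p => ha0 J p.1 p.2)
    (fun J p => hf J p.1 p.2)
    (fun J hJn p p' hpp => by
      obtain ⟨i, j⟩ := p
      obtain ⟨i', j'⟩ := p'
      by_cases hii : i = i'
      · subst hii
        exact hpw J i j j' fun h => hpp (by rw [h])
      · obtain ⟨e, he, h1⟩ := hae J i j
        obtain ⟨e', he', h1'⟩ := hae J i' j'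
        show (¬ ∃ y : K4, y ^ 4 * (a J i j : K4) = (a J i' j' : K4)) ∧
          ¬ ∃ y : K4, y ^ 4 = (a J i j : K4) * (a J i' j' : K4)
        rw [h1, h1']
        exact sep4 hb (hν J i) (hν J i') (hD J i) (hD J i') (hA.pow e he) (hA.pow e' he')
          (hA.ne e he) (hA.ne e' he') ((hδ J hJn).2 i i' hii 1 (Set.mem_insert _ _))
          ((hδ J hJn).2 i i' hii b (Set.mem_insert_of_mem _ (Set.mem_singleton b))))
    t (v := cR ^ ((2 ^ r - 1) * Module.finrank K4 F)) (by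
      rw [hcR]
      exact pow_nonneg hc0 _) (fun i => by
      have h1 : cR ^ ((2 ^ r - 1) * Module.finrank K4 F) =
          ∏ _J ∈ (univ : Finset (Finset (Fin r))).filter Finset.Nonempty,
            cR ^ Module.finrank K4 F := by
        rw [prod_const, card_ne, ← pow_mul, mul_comm (Module.finrank K4 F)]
      rw [h1]
      refine prod_le_prod (fun _ _ => ?_) fun J _ => ?_
      · rw [hcR]
        exact pow_nonneg hc0 _
      · rw [prod_blk, hcR, ← hA.len]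
        exact hc J i _ hc0 cinf2_le_half) hn (fun k => cls4 (hmu.2 k))
    (fun i d => ∀ J : Finset (Fin r), J.Nonempty →
      RkZ (⟨0, algebraMap K4 F (δ i J * ((∏ l ∈ J, d l : 𝓞 K4) : K4) * 0), 0,
        algebraMap K4 F ((δ i J * ((∏ l ∈ J, d l : 𝓞 K4) : K4)) ^ 2 * b), 0⟩ :
          WeierstrassCurve F)) (fun d hd i h => ?_)
  · rw [Fintype.card_fin] at key
    exact key
  · intro J hJn
    have h := h J hJn
    have hp : (∏ l ∈ J, d l) ≠ 0 := Finset.prod_ne_zero_iff.2 fun l _ => (hd l).ne_zero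
    revert h hp
    generalize (∏ l ∈ J, d l) = d
    intro h hp
    have h1 := chainX hA _ (oc_ne (mul_ne_zero (hD0 J i) (pow_ne_zero 2 hp))) fun e he => by
      obtain ⟨j, hj⟩ := hcov J i e he
      rw [WD4_mk]
      exact good_rep (hD0 J i) (hA.ne e he) hp (h ⟨i, j⟩ rfl) hj
    have hν' : (ν J i : K4) ≠ 0 := by exact_mod_cast hν J i
    have e1 : (⟨0, 0, 0, -algebraMap K4 F ((D J i * d ^ 2 : 𝓞 K4) : K4), 0⟩ :
        WeierstrassCurve F) =
        crv 0 (algebraMap K4 F ((δ i J * d) ^ 2 * b) * (algebraMap K4 F (ν J i : K4)) ^ 4) := by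
      refine WeierstrassCurve.ext rfl rfl rfl ?_ rfl
      show -algebraMap K4 F ((D J i * d ^ 2 : 𝓞 K4) : K4) =
        algebraMap K4 F ((δ i J * d) ^ 2 * b) * (algebraMap K4 F (ν J i : K4)) ^ 4
      rw [oc_mul, oc_pow, hD J i, ← map_pow (algebraMap K4 F), ← map_mul (algebraMap K4 F),
        ← map_neg (algebraMap K4 F)]
      congr 1
      ring
    have e3 : (⟨0, algebraMap K4 F (δ i J * d * 0), 0, algebraMap K4 F ((δ i J * d) ^ 2 * b), 0⟩ :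
        WeierstrassCurve F) = crv 0 (algebraMap K4 F ((δ i J * d) ^ 2 * b)) := by
      refine WeierstrassCurve.ext rfl ?_ rfl rfl rfl
      show algebraMap K4 F (δ i J * d * 0) = 0
      rw [mul_zero, map_zero]
    rw [e3, ← c4_fourth (algebraMap K4 F ((δ i J * d) ^ 2 * b))
      (t := algebraMap K4 F (ν J i : K4)) (by rw [Ne, map_eq_zero]; exact hν'), ← e1]
    exact h1

/-- The classes have a positive proportion. -/
theorem cpk4 (hC : ∀ m r : ℕ, CovPos (clq m) r) (r : ℕ) (m : 𝓞 K4) (u : Fin r → 𝓞 K4)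
    (h : ClsI (Cls2 K4) m u) : ClsP (𝓞 K4) r m u := by
  obtain ⟨n, hn⟩ := h.1
  exact clsP4 hn (fun k => cls4 (h.2 k)) (hC _ _)

end

end Pool.Agent.Lib.MP_1a91b9_ntMN
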