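import Pool.Agent.Lib.MP_1a91b9_ntMN.CP
import Pool.Agent.Lib.MP_1a91b9_ntMN.UT7
import Pool.Agent.Lib.MP_1a91b9_ntMN.RU15

/-!
# MP_1a91b9_nt (all the multiquadratic fields): the laws over the standard fields, from the joint laws
-/

set_option autoImplicit false

namespace Pool.Agent.Lib.MP_1a91b9_ntMN

open NumberField
open Pool.Agent.Lib.MP_1a91b9_ntR (cq)
open Pool.Agent.Lib.MP_1a91b9_ntI (K3)
open Pool.Agent.Lib.MP_1a91b9_ntW (K8 mod8)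
open Pool.Agent.Lib.MP_1a91b9_ntV (K7 t7 mod7)
open Pool.Agent.Lib.MP_1a91b9_ntN.G (cl3)
open Pool.Agent.Lib.MP_1a91b9_ntQ (clq)
open Pool.Agent.Lib.MP_1a91b9_ntW.J (Cls2 ClsN cR cS cI cJ)
open Pool.Agent.Lib.MP_1a91b9_ntY (cmList)

section
attribute [local instance 5000] Pool.Agent.Lib.MP_1a91b9_ntV.cd7

theorem lawI7 (hJ : JBI7) (hC : ∀ m r : ℕ, CovPos (cq (mod7 m)) r) {d₀ : K7} (h : d₀ ≠ 0) :
    DBI K7 2 (fun _ => Cls2 K7) {1, -1}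
      (d₀ * (1 + (1 - (t7 : K7)) ^ 4)) (d₀ ^ 2 * (1 - (t7 : K7)) ^ 4) cS := dbi7 hJ hC h

end

section
attribute [local instance 5000] Pool.Agent.Lib.MP_1a91b9_ntW.cd8

theorem lawI8 (hJ : JBI8) (hC : ∀ m r : ℕ, CovPos (cq (mod8 m)) r) {e : K8} (he : e ≠ 0) :
    DBI K8 2 (fun _ => Cls2 K8) {1, -1} (4 * e) (2 * e ^ 2) cR :=
  dbi8 hJ hC (by ring) (mul_ne_zero two_ne_zero (pow_ne_zero 2 he))

end

theorem lawI3 (hJ : JBI3) (hP : JPI3) (hC : ∀ m r : ℕ, CovPos (cl3 m) r) {e : K3} (he : e ≠ 0) :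
    DBI K3 2 (fun F _ => ClsN K3 F) {1, -1} (-3 * e) (3 * e ^ 2) cI := dbi3b hJ hP hC he

theorem lawI3' (hJ : JBI3) (hP : JPI3) (hC : ∀ m r : ℕ, CovPos (cl3 m) r) {e : K3} (he : e ≠ 0) :
    DBI K3 2 (fun _ => Cls2 K3) {1, -1} (-3 * e) (3 * e ^ 2) cJ := dbi3a hJ hP hC he

section
attribute [local instance 5000] Pool.Agent.Lib.MP_1a91b9_ntQ.cd4

theorem lawI4 (hJ : JBI4) (hC : ∀ m r : ℕ, CovPos (clq m) r) {b : Pool.Agent.Lib.MP_1a91b9_ntQ.K4}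
    (h : b ≠ 0) : DBI Pool.Agent.Lib.MP_1a91b9_ntQ.K4 4
      (fun _ => Cls2 Pool.Agent.Lib.MP_1a91b9_ntQ.K4) {1, b} 0 b cR := dbi4 hJ hC h

end

section

attribute [local instance 5000] Pool.Agent.Lib.MP_1a91b9_ntV.cd7

/-- **The law for the rank zero twists**, all the curves, from the joint laws. -/
theorem stdI_laws (J7 : JBI7) (C7 : ∀ m r : ℕ, CovPos (cq (mod7 m)) r) (J8 : JBI8)
    (C8 : ∀ m r : ℕ, CovPos (cq (mod8 m)) r) (J3 : JBI3) (P3 : JPI3)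
    (C3 : ∀ m r : ℕ, CovPos (cl3 m) r) (J4 : JBI4) (C4 : ∀ m r : ℕ, CovPos (clq m) r) :
    StdI cmList :=
  stdI_of (fun _ h => h) (fun _ _ h => lawI4 J4 C4 h) (fun _ _ h => lawI8 J8 C8 h)
    (fun _ _ h => lawI7 J7 C7 h) (fun _ _ h => lawI3 J3 P3 C3 h) (fun _ _ h => lawI3' J3 P3 C3 h)

end

end Pool.Agent.Lib.MP_1a91b9_ntMN
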