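import Pool.Agent.Lib.MP_1a91b9_ntMN.M2

/-!
# MP_1a91b9_nt (all the multiquadratic fields): the norm of the least common multiple
-/

set_option autoImplicit false

namespace Pool.Agent.Lib.MP_1a91b9_ntMN

open NumberField UniqueFactorizationMonoid

/-- The squarefree elements which divide a nonzero element of norm at most `X` divide a squarefree one. -/
theorem lcs_iff {K : Type} [Field K] [NumberField K] [IsPrincipalIdealRing (𝓞 K)] {r : ℕ} {X : ℝ}
    {d : Fin r → 𝓞 K} :
    ((∀ i, Squarefree (d i)) ∧ ∃ A : 𝓞 K, A ≠ 0 ∧ |Algebra.norm ℤ A| ≤ X ∧ ∀ i, d i ∣ A) ↔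
      ∃ A : 𝓞 K, Squarefree A ∧ |Algebra.norm ℤ A| ≤ X ∧ ∀ i, d i ∣ A := by
  classical
  let _ : StrongNormalizationMonoid (𝓞 K) :=
    UniqueFactorizationMonoid.strongNormalizationMonoid
  constructor
  · rintro ⟨h1, A, hA, h2, h3⟩
    refine ⟨radical A, squarefree_radical, le_trans ?_ h2, fun i => ?_⟩
    · obtain ⟨e, he⟩ := radical_dvd_self (a := A)
      have h0 : Algebra.norm ℤ A ≠ 0 := by
        rw [Ne, Algebra.norm_eq_zero_iff]
        exact hA
      have h4 : Algebra.norm ℤ A = Algebra.norm ℤ (radical A) * Algebra.norm ℤ e := by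
        rw [← map_mul, ← he]
      rw [h4] at h0
      have h5 : |Algebra.norm ℤ (radical A)| ≤ |Algebra.norm ℤ A| := by
        rw [h4, abs_mul]
        exact le_mul_of_one_le_right (abs_nonneg _) (Int.one_le_abs (right_ne_zero_of_mul h0))
      exact_mod_cast h5
    · exact (dvd_radical_iff (h1 i).isRadical hA).2 (h3 i)
  · rintro ⟨A, hA, h2, h3⟩
    exact ⟨fun i => hA.squarefree_of_dvd (h3 i), A, hA.ne_zero, h2, h3⟩

end Pool.Agent.Lib.MP_1a91b9_ntMN
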