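import Pool.Agent.Lib.MP_1a91b9_ntZ.D3Q
import Pool.Agent.Lib.MP_1a91b9_ntMQ.UT5
import Pool.Agent.Lib.MP_1a91b9_ntMN.RU0
import Pool.Agent.Lib.MP_1a91b9_ntMN.UT2
import Pool.Agent.Lib.MP_1a91b9_ntMN.N7

/-!
# MP_1a91b9_nt (all the multiquadratic fields), `ℚ(√-3)`: the law for the covering tuples
-/

set_option autoImplicit false
set_option linter.unusedSectionVars false

namespace Pool.Agent.Lib.MP_1a91b9_ntMN

open NumberField Finset Pool.Agent.Lib.MP_1a91b9_ntT Pool.Agent.Lib.MP_1a91b9_ntH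
  Pool.Agent.Lib.MP_1a91b9_ntH2 Pool.Agent.Lib.MP_1a91b9_ntE
open Pool.Agent.Lib.MP_1a91b9_ntP (GdE)
open Pool.Agent.Lib.MP_1a91b9_ntN.G
open Pool.Agent.Lib.MP_1a91b9_ntS.G (FamI)
open Pool.Agent.Lib.MP_1a91b9_ntZ (Atl bn)
open Pool.Agent.Lib.MP_1a91b9_ntMQ (sdJ sdJ_sub sdJ_union sdJ_disjoint exists_labI prodJ3 lab3I card_ne)

noncomputable section

variable {I : Type} [Fintype I] [DecidableEq I] {μ : I → 𝓞 K} {b : I → Bool} {jj : I → ℕ}
  {cc : I → F4}

/-- **No two of the `a` are equal up to sign modulo squares.** -/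
theorem div3BI (H : Fm3 μ b jj cc) (htop : ∃ i₀ : I, ∀ i, μ i ∣ μ i₀) (hJ : JBI3)
    (hC : ∀ m r : ℕ, CovPos (cl3 m) r) {r k N : ℕ} (hN : 0 < N)
    {a : Fin k → Finset (Fin r) → Fin N → 𝓞 K} (hne : ∀ i J n, a i J n ≠ 0)
    (hdis : ∀ J : Finset (Fin r), J.Nonempty → ∀ i n i' n', (i, n) ≠ (i', n') →
      ¬ ∃ y : K, y ^ 2 = (a i J n : K) * a i' J n' ∨ y ^ 2 = -((a i J n : K) * a i' J n'))
    {m : 𝓞 K} {u : Fin r → 𝓞 K} {n : ℕ} (hm : m ∣ 2 ^ n) (hu : ∀ i, ¬ (4 ∣ m ∧ 4 ∣ u i)) (t : ℕ)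
    (Pr : (Fin r → 𝓞 K) → Prop)
    (hPr : ∀ d : Fin r → 𝓞 K, (∀ l, Squarefree (d l)) →
      (Atl t fun i => ∀ J : Finset (Fin r), J.Nonempty → ∀ n, ∃ (f : Bool) (c : F4)
        (S : Finset Pq) (r : 𝓞 K), r ≠ 0 ∧ a i J n * ∏ l ∈ J, d l = phE f c S * r ^ 2 ∧
        GdE f c S) → Pr d) :
    CovGI (𝓞 K) r m u Pr (bn k t (Da.cinf ^ ((2 ^ r - 1) * N))) := by
  classical
  obtain ⟨fk, ck, T, s, hs, hT⟩ := exists_labI hne
  obtain ⟨B, hBd⟩ : ∃ B : Finset Pq, B = univ.biUnion fun i : Fin k =>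
      univ.biUnion fun J : Finset (Fin r) => univ.biUnion (T i J) := ⟨_, rfl⟩
  have hTB : ∀ i J n, T i J n ⊆ B := fun i J n => by
    rw [hBd]
    exact (subset_biUnion_of_mem (T i J) (mem_univ n)).trans
      ((subset_biUnion_of_mem (fun J : Finset (Fin r) => univ.biUnion (T i J)) (mem_univ J)).trans
        (subset_biUnion_of_mem (fun i : Fin k => univ.biUnion fun J : Finset (Fin r) =>
          univ.biUnion (T i J)) (mem_univ i)))
  have hinj : ∀ J : Finset (Fin r), J.Nonempty → ∀ i n i' n', fk i J n = fk i' J n' →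
      F4.tr (ck i J n) = F4.tr (ck i' J n') → T i J n = T i' J n' → (i, n) = (i', n') := by
    intro J hJn i n i' n' e1 e2 e3
    by_contra hii
    apply hdis J hJn i n i' n' hii
    refine ⟨((phE (fk i J n) (ck i' J n') (T i J n) * (s i J n * s i' J n') : 𝓞 K) : K), ?_⟩
    rcases tr_eq_iffE e2 with e4 | e4
    · left
      have h2 : (phE (fk i J n) (ck i' J n') (T i J n) * (s i J n * s i' J n')) ^ 2 =
          a i J n * a i' J n' := by
        conv_rhs => rw [hT i J n, hT i' J n', ← e1, e4, ← e3]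
        ring
      exact_mod_cast congrArg (fun z : 𝓞 K => (z : K)) h2
    · right
      have h2 : (phE (fk i J n) (ck i' J n') (T i J n) * (s i J n * s i' J n')) ^ 2 =
          -(a i J n * a i' J n') := by
        conv_rhs => rw [hT i J n, hT i' J n', ← e1, e4, ← e3, phE_add_one]
        ring
      exact_mod_cast congrArg (fun z : 𝓞 K => (z : K)) h2
  have hne0 : Nonempty (Fin N) := ⟨⟨0, hN⟩⟩
  refine lawC3 H htop hm hu (hC n r) Pr (bn k t (Da.cinf ^ ((2 ^ r - 1) * N)))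
    fun j => ?_
  choose f₀ e₀ c₀ hprod using fun J => prodJ3 H j J
  refine CovLI.glue (B := B) fun B' hB' => ?_
  refine CovLI.mono (hJ n r k (fun _ _ => Fin N) (fun i J n => xor (f₀ J) (fk i J n))
    (fun i J n => qd.A (sdJ J B') + c₀ J + ck i J n) (fun i J n => symmDiff (sdJ J B') (T i J n))
    B (fun i J n => ?_) (fun J hJn => ?_) (Da.cinf ^ ((2 ^ r - 1) * N))
    (pow_nonneg cinf_pos.le _) (fun i => ?_) t) fun S hS h2 => ?_
  · intro q hq
    rw [mem_symmDiff] at hq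
    rcases hq with hq | hq
    · exact sdJ_sub hB' J hq.1
    · exact hTB i J n hq.1
  · rintro ⟨i, n⟩ ⟨i', n'⟩ h
    simp only [Prod.mk.injEq] at h
    have h5 := hinj J hJn i n i' n' (xor_cancelE h.1) (tr_cancelE h.2.1) (symmDiff_cancelE h.2.2)
    simp only [Prod.mk.injEq] at h5
    obtain ⟨rfl, rfl⟩ := h5
    rfl
  · simp only [Fintype.card_fin, prod_const, card_ne]
    rw [← pow_mul, mul_comm N]
  · refine hPr _ (fun l => H.fam.sqf (j l) (S l ∪ B' l)) (h2.mono fun i h2 J hJn n => ?_)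
    obtain ⟨t₁, ht₁, e1⟩ := hprod J fun l => S l ∪ B' l
    rw [sdJ_union hS hB'] at e1
    exact lab3I e1 ht₁ (hT i J n) (hs i J n) (hTB i J n) (sdJ_sub hB' J) (sdJ_disjoint hS J)
      (h2 J hJn n)

/-- **The blocks of the `a` are closed under the multiplication by `-1` modulo squares.** -/
theorem div3PI (H : Fm3 μ b jj cc) (htop : ∃ i₀ : I, ∀ i, μ i ∣ μ i₀) (hP : JPI3)
    (hC : ∀ m r : ℕ, CovPos (cl3 m) r) {r k N : ℕ} (hN : 0 < N)
    {a : Fin k → Finset (Fin r) → Fin N → 𝓞 K} (hne : ∀ i J n, a i J n ≠ 0)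
    (hin : ∀ i J n n', n ≠ n' → ¬ ∃ y : K, y ^ 2 = (a i J n : K) * a i J n')
    (hcr : ∀ J : Finset (Fin r), J.Nonempty → ∀ i i', i ≠ i' → ∀ n n',
      ¬ ∃ y : K, y ^ 2 = (a i J n : K) * a i' J n')
    (hneg : ∀ i J n, ∃ (n' : Fin N) (z : K), z ≠ 0 ∧ -(a i J n : K) = a i J n' * z ^ 2)
    {m : 𝓞 K} {u : Fin r → 𝓞 K} {n : ℕ} (hm : m ∣ 2 ^ n) (hu : ∀ i, ¬ (4 ∣ m ∧ 4 ∣ u i)) (t : ℕ)
    (Pr : (Fin r → 𝓞 K) → Prop)
    (hPr : ∀ d : Fin r → 𝓞 K, (∀ l, Squarefree (d l)) →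
      (Atl t fun i => ∀ J : Finset (Fin r), J.Nonempty → ∀ n, ∃ (f : Bool) (c : F4)
        (S : Finset Pq) (r : 𝓞 K), r ≠ 0 ∧ a i J n * ∏ l ∈ J, d l = phE f c S * r ^ 2 ∧
        GdE f c S) → Pr d) :
    CovGI (𝓞 K) r m u Pr (bn k t (cS3 ^ ((2 ^ r - 1) * N))) := by
  classical
  obtain ⟨fk, ck, T, s, hs, hT⟩ := exists_labI hne
  obtain ⟨B, hBd⟩ : ∃ B : Finset Pq, B = univ.biUnion fun i : Fin k =>
      univ.biUnion fun J : Finset (Fin r) => univ.biUnion (T i J) := ⟨_, rfl⟩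
  have hTB : ∀ i J n, T i J n ⊆ B := fun i J n => by
    rw [hBd]
    exact (subset_biUnion_of_mem (T i J) (mem_univ n)).trans
      ((subset_biUnion_of_mem (fun J : Finset (Fin r) => univ.biUnion (T i J)) (mem_univ J)).trans
        (subset_biUnion_of_mem (fun i : Fin k => univ.biUnion fun J : Finset (Fin r) =>
          univ.biUnion (T i J)) (mem_univ i)))
  have hsK : ∀ i J n, ((s i J n : 𝓞 K) : K) ≠ 0 := fun i J n => by exact_mod_cast hs i J n
  have hTK : ∀ i J n, ((a i J n : 𝓞 K) : K) =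
      ((phE (fk i J n) (ck i J n) (T i J n) : 𝓞 K) : K) * ((s i J n : 𝓞 K) : K) ^ 2 := by
    intro i J n
    exact_mod_cast congrArg (fun z : 𝓞 K => (z : K)) (hT i J n)
  have hsq : ∀ i J n i' n', fk i J n = fk i' J n' → ck i J n = ck i' J n' →
      T i J n = T i' J n' → ∃ y : K, y ^ 2 = (a i J n : K) * a i' J n' := by
    intro i J n i' n' e1 e2 e3
    refine ⟨((phE (fk i J n) (ck i J n) (T i J n) * (s i J n * s i' J n') : 𝓞 K) : K), ?_⟩
    have h2 : (phE (fk i J n) (ck i J n) (T i J n) * (s i J n * s i' J n')) ^ 2 =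
        a i J n * a i' J n' := by
      conv_rhs => rw [hT i J n, hT i' J n', ← e1, ← e2, ← e3]
      ring
    exact_mod_cast congrArg (fun z : 𝓞 K => (z : K)) h2
  have hlab : ∀ i J, LabS (fk i J) (ck i J) (T i J) := by
    intro i J
    refine ⟨fun n n' e1 e2 e3 => ?_, ?_⟩
    · by_contra hnn
      exact hin i J n n' hnn (hsq i J n i n' e1 e2 e3)
    intro n
    obtain ⟨l, z, hz, h2⟩ := hneg i J n
    have h3 : ((phE (fk i J n) (ck i J n + 1) (T i J n) : 𝓞 K) : K) *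
        (((s i J n : 𝓞 K) : K) / (((s i J l : 𝓞 K) : K) * z)) ^ 2 =
        ((phE (fk i J l) (ck i J l) (T i J l) : 𝓞 K) : K) := by
      have e0 : ((phE (fk i J n) (ck i J n + 1) (T i J n) : 𝓞 K) : K) =
          -((phE (fk i J n) (ck i J n) (T i J n) : 𝓞 K) : K) := by
        rw [phE_add_one]
        push_cast
        ring
      rw [hTK i J n, hTK i J l] at h2
      rw [e0, div_pow, ← mul_div_assoc, div_eq_iff (pow_ne_zero 2 (mul_ne_zero (hsK i J l) hz))]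
      linear_combination h2
    obtain ⟨h4, h5, h6⟩ := phE_uniq h3
    exact ⟨l, h4.symm, h5.symm, h6.symm⟩
  have hX : ∀ J : Finset (Fin r), J.Nonempty → ∀ i i' n n', i ≠ i' →
      ¬ (fk i J n = fk i' J n' ∧ ck i J n = ck i' J n' ∧ T i J n = T i' J n') :=
    fun J hJn i i' n n' hii h => hcr J hJn i i' hii n n' (hsq i J n i' n' h.1 h.2.1 h.2.2)
  have hc0 : 0 ≤ cS3 ^ ((2 ^ r - 1) * N) := pow_nonneg (Real.sqrt_nonneg _) _
  have hne0 : ∀ i J, Nonempty (Rp (ck i J)) := fun i J => by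
    have h1 := (hlab i J).card
    exact Fintype.card_pos_iff.1 (by omega)
  choose σ g1 g2 g3 using fun i J => (hlab i J).sgn
  refine lawC3 H htop hm hu (hC n r) Pr (bn k t (cS3 ^ ((2 ^ r - 1) * N))) fun j => ?_
  choose f₀ e₀ c₀ hprod using fun J => prodJ3 H j J
  refine CovLI.glue (B := B) fun B' hB' => ?_
  refine CovLI.mono (hP n r k (fun i J => Rp (ck i J)) (fun i J n => xor (f₀ J) (fk i J n.1))
    (fun i J n => qd.A (sdJ J B') + c₀ J + ck i J n.1)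
    (fun i J n => symmDiff (sdJ J B') (T i J n.1)) B (fun i J n => ?_) (fun J hJn => ?_)
    (cS3 ^ ((2 ^ r - 1) * N)) hc0 (fun i => ?_) t) fun S hS h2 => ?_
  · intro q hq
    rw [mem_symmDiff] at hq
    rcases hq with hq | hq
    · exact sdJ_sub hB' J hq.1
    · exact hTB i J _ hq.1
  · rintro ⟨i, n⟩ ⟨i', n'⟩ h4
    simp only [Prod.mk.injEq] at h4
    have h5 := tr_cancelE h4.2.1
    have h6 := (f4_a n.2 n'.2).2.2 h5
    have h7 := xor_cancelE h4.1
    have h8 := symmDiff_cancelE h4.2.2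
    by_cases hii : i = i'
    · subst hii
      have h9 : n = n' := Subtype.ext ((hlab i J).inj _ _ h7 h6 h8)
      rw [h9]
    · exact absurd ⟨h7, h6, h8⟩ (hX J hJn i i' n.1 n'.1 hii)
  · have h1 : cS3 ^ ((2 ^ r - 1) * N) =
        ∏ _J ∈ (univ : Finset (Finset (Fin r))).filter Finset.Nonempty, cS3 ^ N := by
      rw [prod_const, card_ne, ← pow_mul, mul_comm N]
    rw [h1]
    exact prod_le_prod (fun _ _ => pow_nonneg (Real.sqrt_nonneg _) _)
      fun J _ => (hlab i J).le_PiP (f₀ J)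
  · refine hPr _ (fun l => H.fam.sqf (j l) (S l ∪ B' l)) (h2.mono fun i h2 J hJn n => ?_)
    obtain ⟨t₁, ht₁, e1⟩ := hprod J fun l => S l ∪ B' l
    rw [sdJ_union hS hB'] at e1
    refine lab3I e1 ht₁ (hT i J n) (hs i J n) (hTB i J n) (sdJ_sub hB' J) (sdJ_disjoint hS J) ?_
    by_cases hi : (ck i J n).a = 0
    · exact (h2 J hJn ⟨n, hi⟩).1
    · have hi' : (ck i J (σ i J n)).a = 0 := by
        rw [g2]
        exact f4_b hi
      have h6 := (h2 J hJn ⟨σ i J n, hi'⟩).2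
      simp only at h6
      rw [g1, g2, g3] at h6
      have e : qd.A (sdJ J B') + c₀ J + (ck i J n + 1) + 1 + qd.A (sdJ J S) =
          qd.A (sdJ J B') + c₀ J + ck i J n + qd.A (sdJ J S) := by
        have h7 := f4_c (ck i J n)
        calc qd.A (sdJ J B') + c₀ J + (ck i J n + 1) + 1 + qd.A (sdJ J S)
            = qd.A (sdJ J B') + c₀ J + (ck i J n + 1 + 1) + qd.A (sdJ J S) := by abel
          _ = _ := by rw [h7]
      rw [e] at h6
      exact h6

end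

end Pool.Agent.Lib.MP_1a91b9_ntMN
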