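import Pool.Agent.Lib.MP_1a91b9_ntMQ.UW9
import Pool.Agent.Lib.MP_1a91b9_ntMN.RU12
import Pool.Agent.Lib.MP_1a91b9_ntMN.RU18
import Pool.Agent.Lib.MP_1a91b9_ntMN.RU19

/-!
# MP_1a91b9_nt (all the multiquadratic fields): the law
-/

set_option autoImplicit false

namespace Pool.Agent.Lib.MP_1a91b9_ntMN.Fin

open NumberField IsDedekindDomain WeierstrassCurve
open Pool.Agent.Lib.MP_1a91b9_ntL (crv)
open Pool.Agent.Lib.MP_1a91b9_ntW.J (RkZ Cls2)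
open Pool.Agent.Lib.MP_1a91b9_ntI (K3)
open Pool.Agent.Lib.MP_1a91b9_ntQ (K4)
open Pool.Agent.Lib.MP_1a91b9_ntW (K8)
open Pool.Agent.Lib.MP_1a91b9_ntV (K7)
open Pool.Agent.Lib.MP_1a91b9_ntZ (bn CB cb_two)
open Pool.Agent.Lib.MP_1a91b9_ntDV.Fin (cst)
open Pool.Agent.Lib.MP_1a91b9_ntMQ.Fin (PropMF propMF_of)

noncomputable section

open Classical in
/-- **The result**, from the law for the rank zero twists. -/
theorem fin_mn {L : List (ℤ × ℤ)} (hL : ∀ p ∈ L, p ∈ Pool.Agent.Lib.MP_1a91b9_ntY.cmList)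
    (hstd : StdI L) (H4 : CPK K4) (H8 : CPK K8) (H7 : CPK K7) (H3 : CPK K3)
    (K : Type) [Field K] [NumberField K] (hK : Module.finrank ℚ K = 2)
    (E : WeierstrassCurve K) (hE : E.a₁ = 0 ∧ E.a₃ = 0 ∧ E.a₆ = 0) (hΔ : E.Δ ≠ 0) (j D : ℤ)
    (hjD : (j, D) ∈ L)
    (hj : E.c₄ ^ 3 = j * E.Δ) (hD : ∃ s : K, s ^ 2 = D)
    (l : ℕ) (hl : l = 2 ∨ l = 4 ∧ ∃ i : K, i ^ 2 = -1)
    (F : Type) [Field F] [NumberField F] [Algebra K F]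
    (hF : IntermediateField.adjoin K {x : F | ∃ c : K, x ^ l = algebraMap K F c} = ⊤) (r : ℕ)
    (T : Set (Fin r → 𝓞 K)) (h0 : ∀ δ ∈ T, ∀ i, δ i ≠ 0)
    (hT : ∀ δ ∈ T, ∀ δ' ∈ T, δ ≠ δ' → ∀ J : Finset (Fin r), J.Nonempty →
      ∀ e ∈ ({1, -1, E.a₄, -E.a₄} : Set K), ∀ x : F, x ≠ 0 →
      x ^ 2 * algebraMap K F ((∏ i ∈ J, δ' i : 𝓞 K) : K) ≠
        algebraMap K F (e * ((∏ i ∈ J, δ i : 𝓞 K) : K)))
    (n : ℕ) (m : 𝓞 K) (u : Fin r → 𝓞 K) (hm : m ∣ 2 ^ n)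
    (hu : ∀ i q, Prime q → ¬ (q ^ 2 ∣ m ∧ q ^ 2 ∣ u i)) (c : ℝ)
    (hc : c = cst K F) (t : ℕ) (v : ℝ)
    (hv : v = if T.Infinite then 1 else ∑ j ∈ Finset.Icc t T.ncard, (T.ncard.choose j : ℝ) *
      (c ^ ((2 ^ r - 1) * Module.finrank K F)) ^ j *
        (1 - c ^ ((2 ^ r - 1) * Module.finrank K F)) ^ (T.ncard - j))
    (ε : ℝ) (hε : 0 < ε) :
    ∀ᶠ X : ℝ in Filter.atTop, v - ε ≤
      (Nat.card {d : Fin r → 𝓞 K // (∀ i, Squarefree (d i) ∧ m ∣ d i - u i) ∧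
        (∃ A, A ≠ 0 ∧ |Algebra.norm ℤ A| ≤ X ∧ ∀ i, d i ∣ A) ∧
        t ≤ {δ ∈ T | PropMF E F (fun i => ((δ i * d i : 𝓞 K) : K))}.encard} : ℝ) /
        (Nat.card {d : Fin r → 𝓞 K // (∀ i, Squarefree (d i) ∧ m ∣ d i - u i) ∧
          ∃ A, A ≠ 0 ∧ |Algebra.norm ℤ A| ≤ X ∧ ∀ i, d i ∣ A} : ℝ) := by
  unfold cst at hc
  have hjD' : (j, D) ∈ Pool.Agent.Lib.MP_1a91b9_ntY.cmList := hL _ hjD
  obtain ⟨h1, h3, h6⟩ := hE
  obtain ⟨a, ha⟩ : ∃ a, a = E.a₂ := ⟨_, rfl⟩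
  obtain ⟨b, hb⟩ : ∃ b, b = E.a₄ := ⟨_, rfl⟩
  have hE : E = crv a b := WeierstrassCurve.ext h1 ha.symm h3 hb.symm h6
  rw [← hb] at hT
  have hΔ' := hΔ
  have hj' := hj
  rw [hE] at hΔ' hj'
  rw [Pool.Agent.Lib.MP_1a91b9_ntY.crv_Δ] at hΔ' hj'
  rw [Pool.Agent.Lib.MP_1a91b9_ntY.crv_c₄] at hj'
  have hE' : b * (a ^ 2 - 4 * b) ≠ 0 := by
    intro h
    refine hΔ' ?_
    linear_combination 16 * b * h
  have hj2 : 256 * (a ^ 2 - 3 * b) ^ 3 = j * (b ^ 2 * (a ^ 2 - 4 * b)) := by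
    have h16 : (16 : K) ≠ 0 := by norm_num
    refine mul_left_cancel₀ h16 ?_
    linear_combination hj'
  have hb0 : b ≠ 0 := left_ne_zero_of_mul hE'
  have hneg : D < 0 := by
    have h7 := hjD'
    unfold Pool.Agent.Lib.MP_1a91b9_ntY.cmList at h7
    simp only [List.mem_cons, Prod.mk.injEq, List.not_mem_nil, or_false] at h7
    rcases h7 with ⟨-, rfl⟩ | ⟨-, rfl⟩ | ⟨-, rfl⟩ | ⟨-, rfl⟩ | ⟨-, rfl⟩ | ⟨-, rfl⟩ | ⟨-, rfl⟩ |
      ⟨-, rfl⟩ | ⟨-, rfl⟩ | ⟨-, rfl⟩ | ⟨-, rfl⟩ | ⟨-, rfl⟩ | ⟨-, rfl⟩ <;> norm_num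
  have hfu : Finite (𝓞 K)ˣ := by
    obtain ⟨s, hs⟩ := hD
    exact Pool.Agent.Lib.MP_1a91b9_ntW.J.finite_units hK
      (Pool.Agent.Lib.MP_1a91b9_ntW.J.no_real hs hneg)
  have hfin : ∀ X : ℝ, {D : 𝓞 K | Squarefree D ∧ |Algebra.norm ℤ D| ≤ X}.Finite := by
    intro X
    refine (Pool.Agent.Lib.MP_1a91b9_ntW.J.finite_norm_le (K := K) X).subset ?_
    rintro d ⟨h1, h2⟩
    exact ⟨h1.ne_zero, h2⟩
  have hW : Pool.Agent.Lib.MP_1a91b9_ntY.CMK (crv a b) := by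
    obtain ⟨s, hs⟩ := hD
    refine ⟨?_, j, D, s, hjD', hs, ?_⟩
    · rw [Pool.Agent.Lib.MP_1a91b9_ntY.crv_Δ]
      exact mul_ne_zero (mul_ne_zero (by norm_num) (pow_ne_zero 2 hb0)) (right_ne_zero_of_mul hE')
    · refine Pool.Agent.Lib.MP_1a91b9_ntY.hasJ_crv ?_
      linear_combination 16 * hj2
  have hP : Pool.Agent.Lib.MP_1a91b9_ntY.Pt2 (crv a b) := by
    refine ⟨0, ?_⟩
    unfold crv WeierstrassCurve.b₂ WeierstrassCurve.b₄ WeierstrassCurve.b₆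
    ring
  have hpi : IsPrincipalIdealRing (𝓞 K) := Pool.Agent.Lib.MP_1a91b9_ntC.pid_of hK hW hP
  have hfew : FewD (𝓞 K) := by
    have h7 := Pool.Agent.Lib.MP_1a91b9_ntMQ.stdI_all hK a b hE' j D hjD' hj2 hD l hl F hF 0 ∅
      (fun δ hδ => absurd hδ (Finset.notMem_empty δ)) (fun δ hδ => absurd hδ (Finset.notMem_empty δ))
      0 0 1 0 (one_dvd _)
      (fun p hp h => hp.not_isUnit (isUnit_of_dvd_one ((dvd_pow_self p two_ne_zero).trans h.1))) c hc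
    exact fewD_of hfin h7
  have hcp : ClsP (𝓞 K) r m u :=
    cpk_of H4 H8 H7 H3 hK hW hP r m u ⟨⟨n, hm⟩, fun i => ⟨⟨n, hm⟩, hu i⟩⟩
  have hsm : Sm (𝓞 K) r m u := sm_of hfin (fun A d hA hd => norm_dvd_le A d hA hd) hfew hcp
  have hcb : CB (c ^ ((2 ^ r - 1) * Module.finrank K F)) := (cb_two hc).pow _
  have key : ∀ S : Finset (Fin r → 𝓞 K), (S : Set (Fin r → 𝓞 K)) ⊆ T →
      CovGI (𝓞 K) r m u (fun d => t ≤ (S.filter fun δ : Fin r → 𝓞 K =>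
        PropMF E F (fun i => ((δ i * d i : 𝓞 K) : K))).card)
        (bn S.card t (c ^ ((2 ^ r - 1) * Module.finrank K F))) := by
    intro S hS
    have h := hstd hK a b hE' j D hjD hj2 hD l hl F hF r S
      (fun δ hδ => h0 δ (hS hδ)) (fun δ hδ δ' hδ' hne J hJ e he ⟨x, hx⟩ => by
        have he0 : e ≠ 0 := by
          simp only [Set.mem_insert_iff, Set.mem_singleton_iff] at he
          rcases he with rfl | rfl | rfl | rfl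
          · exact one_ne_zero
          · exact neg_ne_zero.2 one_ne_zero
          · exact hb0
          · exact neg_ne_zero.2 hb0
        have hδ0 : ((∏ i ∈ J, δ i : 𝓞 K) : K) ≠ 0 := by
          intro h
          exact Finset.prod_ne_zero_iff.2 (fun i _ => h0 δ (hS hδ) i)
            (by exact_mod_cast h : (∏ i ∈ J, δ i : 𝓞 K) = 0)
        have hδ0' : ((∏ i ∈ J, δ' i : 𝓞 K) : K) ≠ 0 := by
          intro h
          exact Finset.prod_ne_zero_iff.2 (fun i _ => h0 δ' (hS hδ') i)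
            (by exact_mod_cast h : (∏ i ∈ J, δ' i : 𝓞 K) = 0)
        have hx0 : x ≠ 0 := by
          rintro rfl
          rw [zero_pow two_ne_zero, eq_comm, map_eq_zero] at hx
          exact mul_ne_zero he0 (mul_ne_zero hδ0 hδ0') hx
        have hδF : algebraMap K F ((∏ i ∈ J, δ' i : 𝓞 K) : K) ≠ 0 := by rwa [map_ne_zero]
        refine hT δ (hS hδ) δ' (hS hδ') hne J hJ e he
          (x * (algebraMap K F ((∏ i ∈ J, δ' i : 𝓞 K) : K))⁻¹)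
          (mul_ne_zero hx0 (inv_ne_zero hδF)) ?_
        rw [map_mul, map_mul] at hx
        rw [map_mul, mul_pow, hx]
        field_simp) t n m u hm hu c hc
    have h2 := dstabCF K hK a b hE' j D hjD' hj2 hD l hl F hF r S (fun δ hδ => h0 δ (hS hδ)) m u
      hsm _ t h
    refine h2.mono (fun X => lcs_finite r X) fun d _ h3 => h3.trans (Finset.card_le_card fun δ hδ => ?_)
    rw [Finset.mem_filter] at hδ ⊢
    exact ⟨hδ.1, propMF_of hK E a b hE j D hjD' hj hD F _ hδ.2⟩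
  have key' := set_covI (fun X => lcs_finite r X) (Q := fun (δ d : Fin r → 𝓞 K) =>
    PropMF E F (fun i => ((δ i * d i : 𝓞 K) : K))) (T := T) (t := t)
    hcb.1 hcb.2 (v := v) (by rw [hv, bn]) key
  filter_upwards [key' ε hε] with X hX
  refine hX.trans (le_of_eq ?_)
  have e1 : Nat.card {d : Fin r → 𝓞 K // (∃ A : 𝓞 K, Squarefree A ∧ |Algebra.norm ℤ A| ≤ X ∧
      ∀ i, d i ∣ A) ∧ (∀ i, m ∣ d i - u i) ∧
        (t : ℕ∞) ≤ {δ ∈ T | PropMF E F (fun i => ((δ i * d i : 𝓞 K) : K))}.encard} =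
      Nat.card {d : Fin r → 𝓞 K // (∀ i, Squarefree (d i) ∧ m ∣ d i - u i) ∧
        (∃ A, A ≠ 0 ∧ |Algebra.norm ℤ A| ≤ X ∧ ∀ i, d i ∣ A) ∧
        (t : ℕ∞) ≤ {δ ∈ T | PropMF E F (fun i => ((δ i * d i : 𝓞 K) : K))}.encard} := by
    refine Nat.card_congr (Equiv.subtypeEquivRight fun d => ?_)
    rw [← lcs_iff, forall_and]
    tauto
  have e2 : Nat.card {d : Fin r → 𝓞 K // (∃ A : 𝓞 K, Squarefree A ∧ |Algebra.norm ℤ A| ≤ X ∧
      ∀ i, d i ∣ A) ∧ ∀ i, m ∣ d i - u i} =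
      Nat.card {d : Fin r → 𝓞 K // (∀ i, Squarefree (d i) ∧ m ∣ d i - u i) ∧
        ∃ A, A ≠ 0 ∧ |Algebra.norm ℤ A| ≤ X ∧ ∀ i, d i ∣ A} := by
    refine Nat.card_congr (Equiv.subtypeEquivRight fun d => ?_)
    rw [← lcs_iff, forall_and]
    tauto
  rw [e1, e2]

end

end Pool.Agent.Lib.MP_1a91b9_ntMN.Fin
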