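import Pool.Agent.Lib.MP_1a91b9_ntMQ.X23
import Pool.Agent.Lib.MP_1a91b9_ntMN.E0
import Pool.Agent.Lib.MP_1a91b9_ntMN.EU3

/-!
# MP_1a91b9_nt (extensions ordered by the ramified primes), `ℚ(i)`: definitions

The labels, the label system, the weights and the factors of `MP_1a91b9_ntMQ/X0.lean`, for the colours different from zero:
`LCn`, `LSCn`, `wCn`, `uCn`, `UCn`; the total weight is `hI I = 2 ^ #I - 1`. `PGn phi cl γ f v`: the mean value of `f` over
the families `c` for which all the products have the classes `γ a` is `v`, relative to the number of all the families.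
-/

set_option autoImplicit false
set_option linter.unusedSectionVars false

namespace Pool.Agent.Lib.MP_1a91b9_ntMN.G4

open Finset Pool.Agent.Lib.MP_1a91b9_ntH Pool.Agent.Lib.MP_1a91b9_ntQ Pool.Agent.Lib.MP_1a91b9_ntQ.Da
  Pool.Agent.Lib.MP_1a91b9_ntQ.M Pool.Agent.Lib.MP_1a91b9_ntM Pool.Agent.Lib.MP_1a91b9_ntM.E
open Pool.Agent.Lib.MP_1a91b9_ntDV Pool.Agent.Lib.MP_1a91b9_ntDV.G4 Pool.Agent.Lib.MP_1a91b9_ntMQ
  Pool.Agent.Lib.MP_1a91b9_ntMQ.G4 Pool.Agent.Lib.MP_1a91b9_ntMN

noncomputable section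

/-! ### Coloured label systems without the colour zero -/

section Col

variable {I A : Type} [Fintype I] [Fintype A]

/-- The labels with a colour different from zero. -/
def LCn (phi : A → I → ZMod 2) (L : A → Type) [∀ a, Zero (L a)] : Type :=
  {z : LC phi L // z.1.1 ≠ 0}

variable [DecidableEq I] [DecidableEq A] {L : A → Type} [∀ a, Zero (L a)]
  [∀ a, Fintype (L a)] [∀ a, DecidableEq (L a)]

instance decLCn (phi : A → I → ZMod 2) : DecidableEq (LCn phi L) := Classical.decEq _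

open Classical in
instance finLCn (phi : A → I → ZMod 2) : Fintype (LCn phi L) :=
  Fintype.ofFinite {z : LC phi L // z.1.1 ≠ 0}

variable {phi : A → I → ZMod 2} {ι : Type} {κ : Type}

/-- The coloured label system. -/
def LSCn (phi : A → I → ZMod 2) (Λ : ∀ a, LS2 (L a) ι κ) : LS2 (LCn phi L) ι κ where
  Phi := fun z y => PC phi (fun a => (Λ a).Phi) z.1 y.1
  c := fun z => ∑ a, (phi a ⬝ᵥ z.1.1.1) • (Λ a).c (z.1.1.2 a)
  t := fun _ _ => 0
  B := ∅
  m := (LSC phi Λ).m - 1

/-- Its weights. -/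
def wCn (w : ∀ a, L a → (κ → ZMod 2) → ℝ) (z : LCn phi L) (φ : κ → ZMod 2) : ℝ :=
  ∏ a, if phi a ⬝ᵥ z.1.1.1 = 1 then w a (z.1.1.2 a) φ else 1

/-- Its factors. -/
def uCn (u : ∀ a, L a → ι → ℂ) (z : LCn phi L) (q : ι) : ℂ :=
  ∏ a, if phi a ⬝ᵥ z.1.1.1 = 1 then u a (z.1.1.2 a) q else 1

open Classical in
/-- The labels of `Z` with a colour different from zero. -/
def rsC (Z : Finset (LC phi L)) : Finset (LCn phi L) := univ.filter fun z => z.1 ∈ Z

theorem mem_rsC {Z : Finset (LC phi L)} {z : LCn phi L} : z ∈ rsC Z ↔ z.1 ∈ Z := by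
  classical
  unfold rsC
  rw [mem_filter]
  exact ⟨fun h => h.2, fun h => ⟨mem_univ _, h⟩⟩

/-- The label of the colour zero. -/
def z0 (phi : A → I → ZMod 2) (L : A → Type) [∀ a, Zero (L a)] : LC phi L :=
  ⟨(0, fun _ => 0), fun _ _ => rfl⟩

/-- The labels of `Z` and the label of the colour zero. -/
def upC (Z : Finset (LCn phi L)) : Finset (LC phi L) := insert (z0 phi L) (Z.image Subtype.val)

/-- The labels whose components are in the sets `U a`. -/
def UCn (phi : A → I → ZMod 2) (U : ∀ a, Finset (L a)) : Finset (LCn phi L) := rsC (UC phi U)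

open Classical in
/-- The local factor. -/
def fCn [DecidableEq ι] [Fintype κ] (D : Dat2 ι κ) (phi : A → I → ZMod 2) (Λ : ∀ a, LS2 (L a) ι κ)
    (w : ∀ a, L a → (κ → ZMod 2) → ℝ) (u : ∀ a, L a → ι → ℂ) (U : ∀ a, Finset (L a)) (q : ι) : ℂ :=
  ∑ v ∈ (univ : Finset (I → ZMod 2)).filter (fun v => v ≠ 0),
    ∏ a, if phi a ⬝ᵥ v = 1 then ∑ l ∈ U a, wu D (Λ a).c (w a) (u a) l q else 1

end Col

/-! ### The families of matrices -/

section Fam

variable {I A : Type} [Fintype I] [DecidableEq I] [Fintype A] [DecidableEq A]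
  {Bt : A → Type} [∀ a, Fintype (Bt a)] [∀ a, DecidableEq (Bt a)] {k : ∀ a, Bt a → ℕ}
  {E : ∀ a, Bt a → Type} [∀ a b, Fintype (E a b)] [∀ a b, DecidableEq (E a b)]
  {ι : Type} [DecidableEq ι] {κ : Type} [Fintype κ] [DecidableEq κ]

open Classical in
/-- The local factor of a main term. -/
def hIn (D : Dat2 ι κ) (phi : A → I → ZMod 2) (cA σ : ∀ a, Bt a → κ → ZMod 2)
    (P : ∀ a b, κ → E a b → ZMod 2) (m : ∀ a b, E a b → Lab2 (k a b)) (g : A → ι → ℂ)
    (V : ∀ a, Finset (LabP (k a))) (q : ι) : ℂ :=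
  ∑ v ∈ (univ : Finset (I → ZMod 2)).filter (fun v => v ≠ 0), ∏ a, if phi a ⬝ᵥ v = 1 then
    g a q * TotW (LSP ι (k a) (σ a) (P a) (m a)) (wX (k a) (cA a)) (V a) (D.a q) else 1

end Fam

/-! ### Mean values in the classes of the products -/

section Cls

variable {I A : Type} [Fintype I] [DecidableEq I] [Fintype A] {ι : Type} [DecidableEq ι] [PS ι]
  {G : Type} [AddCommGroup G]

/-- The mean value of the real function `F` over the families, ordered by the norm of the union, is `v`. -/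
def MV1 (F : (I → Finset ι) → ℝ) (v : ℝ) : Prop := MV0 (fun c => ((F c : ℝ) : ℂ)) (v : ℂ)

open Classical in
/-- The mean value of `f` over the families `c` for which all the products have the classes `γ a` is `v`
(relative to the number of all the families). -/
def PGn (phi : A → I → ZMod 2) (cl : ι → G) (γ : A → G) (f : (I → Finset ι) → ℝ) (v : ℝ) : Prop :=
  MV1 (fun c => if ∀ a, ∑ q ∈ TT phi c a, cl q = γ a then f c - v else 0) 0

end Cls

end

end Pool.Agent.Lib.MP_1a91b9_ntMN.G4
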