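import Pool.Agent.Lib.MP_1a91b9_ntMN.X0

/-!
# MP_1a91b9_nt (extensions ordered by the ramified primes), `ℚ(i)`: sums over the covering families
-/

set_option autoImplicit false
set_option linter.unusedSectionVars false

namespace Pool.Agent.Lib.MP_1a91b9_ntMN.G4

open Finset Pool.Agent.Lib.MP_1a91b9_ntH Pool.Agent.Lib.MP_1a91b9_ntQ Pool.Agent.Lib.MP_1a91b9_ntQ.Da
  Pool.Agent.Lib.MP_1a91b9_ntQ.M Pool.Agent.Lib.MP_1a91b9_ntM Pool.Agent.Lib.MP_1a91b9_ntM.E
open Pool.Agent.Lib.MP_1a91b9_ntDV Pool.Agent.Lib.MP_1a91b9_ntDV.G4 Pool.Agent.Lib.MP_1a91b9_ntMQ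
  Pool.Agent.Lib.MP_1a91b9_ntMQ.G4 Pool.Agent.Lib.MP_1a91b9_ntMN

noncomputable section

section Col

variable {I A : Type} [Fintype I] [DecidableEq I] {ι : Type} [DecidableEq ι]

private theorem X1_mem {S : Finset ι} {f : S → I → ZMod 2} {i : I} {x : ι} :
    x ∈ colF S f i ↔ ∃ h : x ∈ S, f ⟨x, h⟩ i = 1 := by
  unfold colF
  rw [mem_map]
  constructor
  · rintro ⟨j, hj, rfl⟩
    exact ⟨j.2, (mem_filter.1 hj).2⟩
  · rintro ⟨h, e⟩
    exact ⟨⟨x, h⟩, mem_filter.2 ⟨mem_univ _, e⟩, rfl⟩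

/-- The union is `S` iff no colour is zero. -/
theorem union_colF (S : Finset ι) (f : S → I → ZMod 2) :
    univ.biUnion (colF S f) = S ↔ ∀ j, f j ≠ 0 := by
  constructor
  · intro h j hj
    have h1 : (j : ι) ∈ univ.biUnion (colF S f) := by
      rw [h]
      exact j.2
    obtain ⟨i, -, hi⟩ := mem_biUnion.1 h1
    obtain ⟨h2, h3⟩ := X1_mem.1 hi
    have h4 : f j i = 1 := h3
    rw [hj] at h4
    exact zero_ne_one h4
  · intro h
    ext x
    rw [mem_biUnion]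
    constructor
    · rintro ⟨i, -, hi⟩
      exact (X1_mem.1 hi).1
    · intro hx
      have h1 : ∃ i, f ⟨x, hx⟩ i = 1 := by
        by_contra hcon
        push Not at hcon
        exact h ⟨x, hx⟩ (funext fun i => (z2 _).resolve_right (hcon i))
      obtain ⟨i, hi⟩ := h1
      exact ⟨i, mem_univ _, X1_mem.2 ⟨hx, hi⟩⟩

/-- Sums over the families with the union `S` as sums over colourings. -/
theorem sum_colc (F : (I → Finset ι) → ℂ) (S : Finset ι) :
    smI F S = ∑ f : S → I → ZMod 2, if ∀ j, f j ≠ 0 then F (colF S f) else 0 := by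
  classical
  unfold smI covF
  rw [sum_filter, sum_col (fun c => if univ.biUnion c = S then F c else 0) S]
  refine sum_congr rfl fun f _ => ?_
  by_cases h : ∀ j, f j ≠ 0
  · rw [if_pos h, if_pos ((union_colF S f).2 h)]
  · rw [if_neg h, if_neg fun e => h ((union_colF S f).1 e)]

/-- Products over the primes of the products `TT phi c a`. -/
theorem smI_one [Fintype A] [DecidableEq A] (phi : A → I → ZMod 2) (t : A → ι → ℂ) (S : Finset ι) :
    smI (fun c => ∏ a, ∏ q ∈ TT phi c a, t a q) S =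
      ∏ q ∈ S, ∑ v ∈ (univ : Finset (I → ZMod 2)).filter (fun v => v ≠ 0),
        ∏ a, if phi a ⬝ᵥ v = 1 then t a q else 1 := by
  classical
  rw [sum_colc]
  have h1 : ∀ f : S → I → ZMod 2, (if ∀ j, f j ≠ 0 then
      ∏ a, ∏ q ∈ TT phi (colF S f) a, t a q else 0) =
      if ∀ j, f j ≠ 0 then ∏ j : S, ∏ a, (if phi a ⬝ᵥ f j = 1 then t a j else 1) else 0 := by
    intro f
    by_cases h : ∀ j, f j ≠ 0
    · rw [if_pos h, if_pos h, prod_comm]
      refine prod_congr rfl fun a _ => ?_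
      rw [TT_cf, prod_map, prod_filter]
      rfl
    · rw [if_neg h, if_neg h]
  rw [sum_congr rfl fun f _ => h1 f, ← sum_filter,
    ← prod_coe_sort S fun q => ∑ v ∈ (univ : Finset (I → ZMod 2)).filter (fun v => v ≠ 0),
      ∏ a, if phi a ⬝ᵥ v = 1 then t a q else 1,
    Finset.prod_univ_sum (fun _ : S => (univ : Finset (I → ZMod 2)).filter (fun v => v ≠ 0))
      (fun (j : S) v => ∏ a, if phi a ⬝ᵥ v = 1 then t a j else 1)]
  refine sum_congr ?_ fun _ _ => rfl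
  ext f
  rw [mem_filter, Fintype.mem_piFinset, and_iff_right (mem_univ _)]
  exact forall_congr' fun j => by rw [mem_filter, and_iff_right (mem_univ _)]

end Col

section Lbl

variable {I A : Type} [Fintype I] [DecidableEq I] [Fintype A] [DecidableEq A] {L : A → Type}
  [∀ a, Zero (L a)] [∀ a, Fintype (L a)] [∀ a, DecidableEq (L a)] {ι : Type} [DecidableEq ι]
  {κ : Type} [Fintype κ]

/-- The value of a label is the product of the values of its components. -/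
theorem wu_Cn (D : Dat2 ι κ) (phi : A → I → ZMod 2) (Λ : ∀ a, LS2 (L a) ι κ)
    (w : ∀ a, L a → (κ → ZMod 2) → ℝ) (u : ∀ a, L a → ι → ℂ) (z : LCn phi L) (q : ι) :
    wu D (LSCn phi Λ).c (wCn w) (uCn u) z q =
      ∏ a, if phi a ⬝ᵥ z.1.1.1 = 1 then wu D (Λ a).c (w a) (u a) (z.1.1.2 a) q else 1 := by
  have h1 : ∑ j, (∑ a, (phi a ⬝ᵥ z.1.1.1) • (Λ a).c (z.1.1.2 a)) j * D.a q j =
      ∑ a, (phi a ⬝ᵥ z.1.1.1) * ∑ j, (Λ a).c (z.1.1.2 a) j * D.a q j := by
    have h : ∀ j, (∑ a, (phi a ⬝ᵥ z.1.1.1) • (Λ a).c (z.1.1.2 a)) j * D.a q j =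
        ∑ a, (phi a ⬝ᵥ z.1.1.1) * ((Λ a).c (z.1.1.2 a) j * D.a q j) := by
      intro j
      rw [Finset.sum_apply, sum_mul]
      exact sum_congr rfl fun a _ => by rw [Pi.smul_apply, smul_eq_mul, mul_assoc]
    rw [sum_congr rfl fun j _ => h j, sum_comm]
    exact sum_congr rfl fun a _ => (mul_sum _ _ _).symm
  have h2 : (∏ a, if phi a ⬝ᵥ z.1.1.1 = 1 then wu D (Λ a).c (w a) (u a) (z.1.1.2 a) q else 1) =
      (∏ a, if phi a ⬝ᵥ z.1.1.1 = 1 then ((w a (z.1.1.2 a) (D.a q) : ℝ) : ℂ) else 1) *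
        (∏ a, if phi a ⬝ᵥ z.1.1.1 = 1 then u a (z.1.1.2 a) q else 1) *
        e2 (∑ a, (phi a ⬝ᵥ z.1.1.1) * ∑ j, (Λ a).c (z.1.1.2 a) j * D.a q j) := by
    rw [e2_sum, ← prod_mul_distrib, ← prod_mul_distrib]
    refine prod_congr rfl fun a _ => ?_
    rcases z2 (phi a ⬝ᵥ z.1.1.1) with h | h
    · rw [h, if_neg (by decide), if_neg (by decide), if_neg (by decide), zero_mul, e2_zero, mul_one,
        mul_one]
    · rw [h, if_pos rfl, if_pos rfl, if_pos rfl, one_mul]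
      rfl
  have h3 : ((wCn w z (D.a q) : ℝ) : ℂ) =
      ∏ a, if phi a ⬝ᵥ z.1.1.1 = 1 then ((w a (z.1.1.2 a) (D.a q) : ℝ) : ℂ) else 1 := by
    unfold wCn
    rw [Complex.ofReal_prod]
    refine prod_congr rfl fun a _ => ?_
    split_ifs
    · rfl
    · exact Complex.ofReal_one
  have h4 : wu D (LSCn phi Λ).c (wCn w) (uCn u) z q = ((wCn w z (D.a q) : ℝ) : ℂ) * uCn u z q *
      e2 (∑ j, (∑ a, (phi a ⬝ᵥ z.1.1.1) • (Λ a).c (z.1.1.2 a)) j * D.a q j) := rfl
  rw [h4, h1, h2, h3]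
  rfl

/-- The sum over the families with the union `S` is a sum over the labellings. -/
theorem smI_C (D : Dat2 ι κ) (phi : A → I → ZMod 2) (Λ : ∀ a, LS2 (L a) ι κ)
    (w : ∀ a, L a → (κ → ZMod 2) → ℝ) (u : ∀ a, L a → ι → ℂ) (S : Finset ι) :
    smI (PB D phi Λ w u) S =
      BF D (LSCn phi Λ).Phi (wu D (LSCn phi Λ).c (wCn w) (uCn u)) S := by
  classical
  rw [sum_colc]
  obtain ⟨T, hT⟩ : ∃ T : (S → LC phi L) → ℂ, T = fun y =>
      (∏ j : S, ∏ a, if phi a ⬝ᵥ (y j).1.1 = 1 then wu D (Λ a).c (w a) (u a) ((y j).1.2 a) j else 1) *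
        e2 (∑ j : S, ∑ l : S, PC phi (fun a => (Λ a).Phi) (y j) (y l) * D.s j l) := ⟨_, rfl⟩
  have h1 : ∀ f : S → I → ZMod 2, (if ∀ j, f j ≠ 0 then PB D phi Λ w u (colF S f) else 0) =
      ∑ y : S → LC phi L, if (fun j => (y j).1.1) = f then (if ∀ j, (y j).1.1 ≠ 0 then T y else 0)
        else 0 := by
    intro f
    by_cases hf : ∀ j, f j ≠ 0
    · rw [if_pos hf]
      unfold PB
      rw [BF_prodC D phi (fun a => (Λ a).Phi) (fun a => wu D (Λ a).c (w a) (u a)) S f, sum_filter]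
      refine sum_congr rfl fun y _ => ?_
      by_cases h : ∀ j, (y j).1.1 = f j
      · rw [if_pos h, if_pos (funext h), if_pos fun j => by rw [h j]; exact hf j, hT]
        have h2 : ∀ j, f j = (y j).1.1 := fun j => (h j).symm
        simp only [h2]
      · rw [if_neg h, if_neg (fun e => h fun j => congrFun e j)]
    · rw [if_neg hf]
      symm
      refine sum_eq_zero fun y _ => ?_
      by_cases h : (fun j => (y j).1.1) = f
      · rw [if_pos h, if_neg fun h' => hf fun j => by rw [← h]; exact h' j]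
      · rw [if_neg h]
  rw [sum_congr rfl fun f _ => h1 f, sum_comm]
  have h2 : ∀ y : S → LC phi L, (∑ f : S → I → ZMod 2, if (fun j => (y j).1.1) = f then
      (if ∀ j, (y j).1.1 ≠ 0 then T y else 0) else 0) = if ∀ j, (y j).1.1 ≠ 0 then T y else 0 := by
    intro y
    rw [sum_ite_eq, if_pos (mem_univ _)]
  rw [sum_congr rfl fun y _ => h2 y, ← sum_filter]
  unfold BF
  refine sum_bij' (fun y hy j => (⟨y j, (mem_filter.1 hy).2 j⟩ : LCn phi L))
    (fun z _ j => (z j).1) ?_ ?_ ?_ ?_ ?_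
  · intro y _
    exact mem_univ _
  · intro z _
    exact mem_filter.2 ⟨mem_univ _, fun j => (z j).2⟩
  · intro y _
    rfl
  · intro z _
    rfl
  · intro y hy
    rw [hT]
    refine congrArg₂ (· * ·) ?_ rfl
    exact prod_congr rfl fun j _ =>
      (wu_Cn D phi Λ w u (⟨y j, (mem_filter.1 hy).2 j⟩ : LCn phi L) j).symm

end Lbl

end

end Pool.Agent.Lib.MP_1a91b9_ntMN.G4
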