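import Pool.Agent.Lib.MP_1a91b9_ntMN.X10

/-!
# MP_1a91b9_nt (extensions ordered by the ramified primes), `ℚ(i)`: the joint densities
-/

set_option autoImplicit false
set_option linter.unusedSectionVars false

namespace Pool.Agent.Lib.MP_1a91b9_ntMN.G4

open Finset Pool.Agent.Lib.MP_1a91b9_ntH Pool.Agent.Lib.MP_1a91b9_ntQ Pool.Agent.Lib.MP_1a91b9_ntQ.Da
  Pool.Agent.Lib.MP_1a91b9_ntQ.M Pool.Agent.Lib.MP_1a91b9_ntM Pool.Agent.Lib.MP_1a91b9_ntM.E
open Pool.Agent.Lib.MP_1a91b9_ntDV Pool.Agent.Lib.MP_1a91b9_ntDV.G4 Pool.Agent.Lib.MP_1a91b9_ntMQ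
  Pool.Agent.Lib.MP_1a91b9_ntMQ.G4 Pool.Agent.Lib.MP_1a91b9_ntMN

noncomputable section

variable {I A : Type} [Fintype I] [DecidableEq I] [Fintype A] [DecidableEq A]
  {phi : A → I → ZMod 2} {Bt : A → Type} [∀ a, Fintype (Bt a)] [∀ a, DecidableEq (Bt a)]
  {E : ∀ a, Bt a → Type} [∀ a b, Fintype (E a b)]
  [∀ a b, DecidableEq (E a b)] {ι : Type} [DecidableEq ι] [PS ι] {κ : Type} [Fintype κ]
  [DecidableEq κ] {G : Type} [AddCommGroup G] [Fintype G]

private theorem X11_sum {A : Type} [Fintype A] [DecidableEq A] {Bt : A → Type} [∀ a, Fintype (Bt a)]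
    [∀ a, DecidableEq (Bt a)] (F : ∀ a, Bt a → Fin 3 → ℝ) :
    ∑ s : (∀ a, Bt a → Fin 3), ∏ a, ∏ b, F a b (s a b) = ∏ a, ∏ b, ∑ i, F a b i := by
  have h1 : ∀ a, ∏ b, ∑ i, F a b i = ∑ t : Bt a → Fin 3, ∏ b, F a b (t b) := by
    intro a
    rw [Finset.prod_univ_sum, Fintype.piFinset_univ]
  rw [prod_congr rfl fun a _ => h1 a, Finset.prod_univ_sum, Fintype.piFinset_univ]

open Classical in
private theorem X11_pt {A : Type} [Fintype A] [DecidableEq A] {ι : Type} [DecidableEq ι]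
    {κ : Type} [Fintype κ] [DecidableEq κ] {E : A → Type} [∀ a, Fintype (E a)]
    [∀ a, DecidableEq (E a)] (D : Dat2 ι κ) (ρ : (κ → ZMod 2) → ι → ZMod 2)
    (cA σ : A → κ → ZMod 2) (P : ∀ a, κ → E a → ZMod 2) (R : ∀ a, Matrix (E a) (E a) (ZMod 2))
    (z : ∀ a, Option (E a)) (b : A → Bool) (hz : ∀ a, (z a).isSome = true → cA a ≠ 0)
    (α : κ → ZMod 2) (a : A) (B : Finset ι) :
    ∑ i, wz (z a).isSome (b a) i * (if nX D ρ cA σ (fun a => (sy3 (P a) (R a) (z a) i).P)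
      (fun a => (sy3 (P a) (R a) (z a) i).R) α a B = 1 then (1 : ℝ) else 0) =
      if nX D ρ cA σ P R α a B = 1 ∧ ∀ e, z a = some e → k2X D ρ cA σ P R b a e B = 1
      then (1 : ℝ) else 0 := by
  obtain ⟨J, hJ⟩ : ∃ J : Fin 3 → ℝ, J = fun i => (if nX D ρ cA σ (fun a => (sy3 (P a) (R a) (z a) i).P)
      (fun a => (sy3 (P a) (R a) (z a) i).R) α a B = 1 then (1 : ℝ) else 0) := ⟨_, rfl⟩
  have hJi : ∀ i, (if nX D ρ cA σ (fun a => (sy3 (P a) (R a) (z a) i).P)
      (fun a => (sy3 (P a) (R a) (z a) i).R) α a B = 1 then (1 : ℝ) else 0) = J i := fun i => by rw [hJ]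
  rw [sum_congr rfl fun i _ => by rw [hJi i]]
  rcases hza : z a with _ | e
  · have e0 : J 0 = if nX D ρ cA σ P R α a B = 1 then (1 : ℝ) else 0 := by
      rw [hJ]
      show (if nX D ρ cA σ (fun a => (sy3 (P a) (R a) (z a) 0).P)
        (fun a => (sy3 (P a) (R a) (z a) 0).R) α a B = 1 then (1 : ℝ) else 0) = _
      have e1 : nX D ρ cA σ (fun a => (sy3 (P a) (R a) (z a) 0).P)
          (fun a => (sy3 (P a) (R a) (z a) 0).R) α a B = nX D ρ cA σ P R α a B := by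
        unfold Pool.Agent.Lib.MP_1a91b9_ntM.E.nX Pool.Agent.Lib.MP_1a91b9_ntM.E.kX Pool.Agent.Lib.MP_1a91b9_ntM.E.tX
        beta_reduce
        rw [hza]
        rfl
      rw [e1]
    rw [Fin.sum_univ_three, e0]
    simp [wz]
  · have hc : cA a ≠ 0 := hz a (by rw [hza]; rfl)
    have hk : ∀ i, J i = if (sy3 (P a) (R a) (some e) i).kw D (cA a)
        (rho D (ρ (cA a)) (σ a)) B = 1 then (1 : ℝ) else 0 := by
      intro i
      rw [hJ]
      show (if nX D ρ cA σ (fun a => (sy3 (P a) (R a) (z a) i).P)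
        (fun a => (sy3 (P a) (R a) (z a) i).R) α a B = 1 then (1 : ℝ) else 0) = _
      rw [nX_eq_kX hc, ← hza]
      rfl
    have e1 := pencil_id D (cA a) (P a) (R a) (rho D (ρ (cA a)) (σ a)) B e (b a)
    have e2 : ∑ i, wz (some e).isSome (b a) i * J i =
        (1 / 2) * (if kW D (cA a) (P a) (R a) (rho D (ρ (cA a)) (σ a)) ∅ B = 1
          then (1 : ℝ) else 0) +
        (if b a = true then (1 / 2 : ℝ) else -(1 / 2)) *
          (if kW D (cA a) (P a) (R a + Matrix.single e e 1) (rho D (ρ (cA a)) (σ a)) ∅ B = 1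
            then (1 : ℝ) else 0) +
        (if b a = true then -(1 / 2 : ℝ) else 1 / 2) *
          (if kW D (cA a) (Pz (P a) e) (Rz (R a) e) (rho D (ρ (cA a)) (σ a)) ∅ B = 1
            then (1 : ℝ) else 0) := by
      rw [Fin.sum_univ_three, hk 0, hk 1, hk 2]
      rfl
    rw [e2, ← e1, nX_eq_kX hc]
    have e3 : (∀ e', some e = some e' → k2X D ρ cA σ P R b a e' B = 1) ↔
        k2X D ρ cA σ P R b a e B = 1 :=
      ⟨fun h => h e rfl, fun h e' he' => by
        rw [← Option.some.inj he']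
        exact h⟩
    have e4 : k2X D ρ cA σ P R b a e B =
        if b a = true then kW D (cA a) (P a) (R a + Matrix.single e e 1)
          (rho D (ρ (cA a)) (σ a)) ∅ B
        else kW D (cA a) (Pz (P a) e) (Rz (R a) e) (rho D (ρ (cA a)) (σ a)) ∅ B := rfl
    rw [← e4]
    by_cases g0 : kW D (cA a) (P a) (R a) (rho D (ρ (cA a)) (σ a)) ∅ B = 1 <;>
      by_cases g1 : k2X D ρ cA σ P R b a e B = 1
    · rw [if_pos g0, if_pos g1, if_pos ⟨g0, e3.2 g1⟩, one_mul]
    · rw [if_neg g1, mul_zero, if_neg fun h => g1 (e3.1 h.2)]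
    · rw [if_neg g0, zero_mul, if_neg fun h => g0 h.1]
    · rw [if_neg g0, zero_mul, if_neg fun h => g0 h.1]

open Classical in
/-- **The joint densities with the second matrices.** -/
theorem pgn_dens [Nonempty I] (hs : Sp phi) {D : Dat2 ι κ} (hD : D.OK) (hN : D.NV1)
    {ρ : (κ → ZMod 2) → ι → ZMod 2} (h0 : ρ 0 = 0) {cA σ : ∀ a, Bt a → κ → ZMod 2}
    {P : ∀ a b, κ → E a b → ZMod 2} {R : ∀ a b, Matrix (E a b) (E a b) (ZMod 2)}
    (hF : ∀ a, FamX (cA a) (σ a) (P a) (R a)) (z : ∀ a b, Option (E a b))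
    (bo : ∀ a, Bt a → Bool) (hz : ∀ a b, (z a b).isSome = true → cA a b ≠ 0) (C : Cl2 D G)
    (γ : A → G) :
    PGn phi C.cl γ
      (fun c => if ∀ a b, nX D ρ (cA a) (σ a) (P a) (R a) (fun j => C.A j (γ a)) b
          (TT phi c a) = 1 ∧
        ∀ e, z a b = some e → k2X D ρ (cA a) (σ a) (P a) (R a) (bo a) b e (TT phi c a) = 1
        then (1 : ℝ) else 0)
      (∏ a, ∏ b, if (z a b).isSome = true then cinf2 / 2 else cinf2) := by
  set J : (a : A) → (b : Bt a) → Fin 3 → Finset ι → ℝ := fun a b i B =>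
    if nX D ρ (cA a) (σ a) (fun b => (sy3 (P a b) (R a b) (z a b) i).P)
      (fun b => (sy3 (P a b) (R a b) (z a b) i).R) (fun j => C.A j (γ a)) b B = 1
      then (1 : ℝ) else 0 with hJ
  have h1 : ∀ s : (∀ a, Bt a → Fin 3), PGn phi C.cl γ (fun c => ∏ a, ∏ b, J a b (s a b) (TT phi c a))
      (∏ a, cinf2 ^ Fintype.card (Bt a)) := fun s =>
    pgn_one hs hD hN h0 (E := fun a b => (sy3 (P a b) (R a b) (z a b) (s a b)).W)
      (P := fun a b => (sy3 (P a b) (R a b) (z a b) (s a b)).P)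
      (R := fun a b => (sy3 (P a b) (R a b) (z a b) (s a b)).R)
      (fun a => ⟨(hF a).sg, fun b => (sy3_OK ((hF a).bd b) ((hF a).sym b) (z a b) (s a b)).bd,
        fun b => (sy3_OK ((hF a).bd b) ((hF a).sym b) (z a b) (s a b)).sym⟩) C γ
  have h2 : PGn phi C.cl γ
      (fun c => ∑ s : (∀ a, Bt a → Fin 3), (∏ a, ∏ b, wz (z a b).isSome (bo a b) (s a b)) *
        ∏ a, ∏ b, J a b (s a b) (TT phi c a))
      (∑ s : (∀ a, Bt a → Fin 3), (∏ a, ∏ b, wz (z a b).isSome (bo a b) (s a b)) *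
        ∏ a, cinf2 ^ Fintype.card (Bt a)) :=
    PGn.sum univ fun s _ => (limP_PGn phi C.cl γ).smul _ _ _ (h1 s)
  have h3 : ∀ c : I → Finset ι, ∑ s : (∀ a, Bt a → Fin 3),
      (∏ a, ∏ b, wz (z a b).isSome (bo a b) (s a b)) * ∏ a, ∏ b, J a b (s a b) (TT phi c a) =
      ∏ a, ∏ b, ∑ i, wz (z a b).isSome (bo a b) i * J a b i (TT phi c a) := by
    intro c
    rw [← X11_sum fun a b i => wz (z a b).isSome (bo a b) i * J a b i (TT phi c a)]
    refine sum_congr rfl fun s _ => ?_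
    rw [← prod_mul_distrib]
    exact prod_congr rfl fun a _ => (prod_mul_distrib).symm
  have h4 : ∑ s : (∀ a, Bt a → Fin 3), (∏ a, ∏ b, wz (z a b).isSome (bo a b) (s a b)) *
      ∏ a, cinf2 ^ Fintype.card (Bt a) =
      ∏ a, ∏ b, (if (z a b).isSome = true then cinf2 / 2 else cinf2) := by
    rw [← sum_mul, X11_sum fun a b i => wz (z a b).isSome (bo a b) i, ← prod_mul_distrib]
    refine prod_congr rfl fun a _ => ?_
    rw [← card_univ, ← prod_const, ← prod_mul_distrib]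
    refine prod_congr rfl fun b _ => ?_
    rw [sum_wz]
    split_ifs <;> ring
  refine PGn.congr h2 (fun c _ => ?_) h4.symm
  rw [h3 c]
  have h5 : ∀ a b, ∑ i, wz (z a b).isSome (bo a b) i * J a b i (TT phi c a) =
      if nX D ρ (cA a) (σ a) (P a) (R a) (fun j => C.A j (γ a)) b (TT phi c a) = 1 ∧
        ∀ e, z a b = some e → k2X D ρ (cA a) (σ a) (P a) (R a) (bo a) b e (TT phi c a) = 1
      then (1 : ℝ) else 0 := fun a b =>
    X11_pt D ρ (cA a) (σ a) (P a) (R a) (z a) (bo a) (hz a) (fun j => C.A j (γ a)) b (TT phi c a)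
  rw [prod_congr rfl fun a _ => prod_congr rfl fun b _ => h5 a b]
  split_ifs with h
  · exact (prod_eq_one fun a _ => prod_eq_one fun b _ => if_pos (h a b)).symm
  · push Not at h
    obtain ⟨a, b, hab⟩ := h
    symm
    refine prod_eq_zero (mem_univ a) (prod_eq_zero (mem_univ b) (if_neg fun h9 => ?_))
    obtain ⟨e, he, he2⟩ := hab h9.1
    exact he2 (h9.2 e he)

end

end Pool.Agent.Lib.MP_1a91b9_ntMN.G4
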