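import Pool.Agent.Lib.MP_1a91b9_ntMN.X1
import Pool.Agent.Lib.MP_1a91b9_ntMN.X2

/-!
# MP_1a91b9_nt (extensions ordered by the ramified primes), `ℚ(i)`: the first moment for label systems
-/

set_option autoImplicit false
set_option linter.unusedSectionVars false

namespace Pool.Agent.Lib.MP_1a91b9_ntMN.G4

open Finset Pool.Agent.Lib.MP_1a91b9_ntH Pool.Agent.Lib.MP_1a91b9_ntQ Pool.Agent.Lib.MP_1a91b9_ntQ.Da
  Pool.Agent.Lib.MP_1a91b9_ntQ.M Pool.Agent.Lib.MP_1a91b9_ntM Pool.Agent.Lib.MP_1a91b9_ntM.E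
open Pool.Agent.Lib.MP_1a91b9_ntDV Pool.Agent.Lib.MP_1a91b9_ntDV.G4 Pool.Agent.Lib.MP_1a91b9_ntMQ
  Pool.Agent.Lib.MP_1a91b9_ntMQ.G4 Pool.Agent.Lib.MP_1a91b9_ntMN

noncomputable section

variable {I A : Type} [Fintype I] [DecidableEq I] [Fintype A] [DecidableEq A] {L : A → Type}
  [∀ a, Zero (L a)] [∀ a, Fintype (L a)] [∀ a, DecidableEq (L a)] {phi : A → I → ZMod 2}
  {ι : Type} [DecidableEq ι] {κ : Type} [Fintype κ] [DecidableEq κ] {Λ : ∀ a, LS2 (L a) ι κ}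
  {w : ∀ a, L a → (κ → ZMod 2) → ℝ}

private theorem X3_pow (I : Type) [Fintype I] : (0 : ℝ) < 2 ^ Fintype.card I := by positivity

/-- The total weight of `Z` is `hI I` iff the total weight of `upC Z` is `1`. -/
private theorem X3_eq (Z : Finset (LCn phi L)) (φ : κ → ZMod 2) :
    ∑ z ∈ upC Z, wC w z φ = 1 ↔ ∑ z ∈ Z, wCn w z φ = hI I := by
  have h := X3_pow I
  rw [sum_upC_wC, hI_cast, inv_mul_eq_one₀ h.ne']
  constructor
  · intro h1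
    linarith
  · intro h1
    linarith

private theorem X3_le (Z : Finset (LCn phi L)) (φ : κ → ZMod 2)
    (h1 : ∑ z ∈ upC Z, wC w z φ ≤ 1) : ∑ z ∈ Z, wCn w z φ ≤ hI I := by
  have h := X3_pow I
  rw [sum_upC_wC, inv_mul_le_iff₀ h, mul_one] at h1
  rw [hI_cast]
  linarith

private theorem X3_lt (Z : Finset (LCn phi L)) (φ : κ → ZMod 2)
    (h1 : ∑ z ∈ upC Z, wC w z φ < 1) : ∑ z ∈ Z, wCn w z φ < hI I := by
  have h := X3_pow I
  rw [sum_upC_wC, inv_mul_lt_iff₀ h, mul_one] at h1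
  rw [hI_cast]
  linarith

private theorem X3_m (hq : ∀ a, QOK (Λ a) (w a)) : 1 ≤ (LSC phi Λ).m := by
  have h1 : 1 ≤ ∏ a, if phi a ⬝ᵥ (0 : I → ZMod 2) = 1 then (Λ a).m else 1 := by
    refine Nat.succ_le_of_lt (prod_pos fun a _ => ?_)
    split_ifs
    · exact (hq a).mpos
    · exact one_pos
  refine h1.trans ?_
  exact single_le_sum (f := fun v : I → ZMod 2 => ∏ a, if phi a ⬝ᵥ v = 1 then (Λ a).m else 1)
    (fun _ _ => Nat.zero_le _) (mem_univ 0)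

private theorem X3_card (hq : ∀ a, QOK (Λ a) (w a)) (Z : Finset (LCn phi L)) :
    (upC Z).card = (LSC phi Λ).m ↔ Z.card = (LSCn phi Λ).m := by
  have h1 := X3_m (phi := phi) hq
  rw [card_upC]
  show 1 + Z.card = (LSC phi Λ).m ↔ Z.card = (LSC phi Λ).m - 1
  omega

/-- The full sets are products. -/
theorem mem_FullWh_Cn (hs : Sp phi) (hq : ∀ a, QOK (Λ a) (w a)) (hC : CS phi Λ w)
    {Z : Finset (LCn phi L)} : Z ∈ FullWh (LSCn phi Λ) (wCn w) (hI I) ↔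
      ∃ U : ∀ a, Finset (L a), (∀ a, U a ∈ FullW (Λ a) (w a)) ∧ UCn phi U = Z := by
  have key : Z ∈ FullWh (LSCn phi Λ) (wCn w) (hI I) ↔
      upC Z ∈ FullW (LSC phi Λ) (Pool.Agent.Lib.MP_1a91b9_ntMQ.G4.wC w) := by
    rw [mem_FullWh, mem_FullW, LS2.mem_Us, LS2.mem_Us, Unl_upC, X3_card hq]
    exact and_congr Iff.rfl (forall_congr' fun φ => (X3_eq Z φ).symm)
  rw [key, mem_FullW_C hs hq hC]
  refine exists_congr fun U => and_congr Iff.rfl ?_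
  constructor
  · intro h
    unfold UCn
    rw [h, rsC_upC]
  · intro h
    rw [← h, upC_UCn]

theorem sum_FullWh_Cn (hs : Sp phi) (hq : ∀ a, QOK (Λ a) (w a)) (hC : CS phi Λ w) {M : Type}
    [AddCommMonoid M] (F : Finset (LCn phi L) → M) :
    ∑ Z ∈ FullWh (LSCn phi Λ) (wCn w) (hI I), F Z =
      ∑ U ∈ Fintype.piFinset (fun a => FullW (Λ a) (w a)), F (UCn phi U) := by
  classical
  have e : FullWh (LSCn phi Λ) (wCn w) (hI I) =
      (Fintype.piFinset (fun a => FullW (Λ a) (w a))).image (UCn phi) := by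
    ext Z
    rw [mem_FullWh_Cn hs hq hC, mem_image]
    constructor
    · rintro ⟨U, hU, hUZ⟩
      exact ⟨U, Fintype.mem_piFinset.2 hU, hUZ⟩
    · rintro ⟨U, hU, hUZ⟩
      exact ⟨U, Fintype.mem_piFinset.1 hU, hUZ⟩
  have hne : ∀ U ∈ Fintype.piFinset (fun a => FullW (Λ a) (w a)), ∀ a, (U a).Nonempty := by
    intro U hU a
    have h1 := ((LS2.mem_Us _ _).1 (mem_FullW.1 (Fintype.mem_piFinset.1 hU a)).1).2
    rw [← Finset.card_pos, h1]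
    exact (hq a).mpos
  rw [e, sum_image]
  intro U hU U' hU' h
  refine UC_inj hs (hne U (mem_coe.1 hU)) (hne U' (mem_coe.1 hU')) ?_
  rw [← upC_UCn, ← upC_UCn, h]

/-- The hypotheses of the engine. -/
theorem uok_Cn [Nonempty I] (hs : Sp phi) (hq : ∀ a, QOK (Λ a) (w a)) (hC : CS phi Λ w)
    {u : ∀ a, L a → ι → ℂ} (hu1 : ∀ a l q, ‖u a l q‖ ≤ 1)
    (hu : ∀ a, ∀ U ∈ FullW (Λ a) (w a), ∀ l ∈ U, ∀ l' ∈ U, ∀ q, u a l q = u a l' q) :
    UOKh (LSCn phi Λ) (wCn w) (uCn u) (hI I) := by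
  classical
  have hok : UOK (LSC phi Λ) (Pool.Agent.Lib.MP_1a91b9_ntMQ.G4.wC w) (uC u fun _ => 1) :=
    uok_C hs hq hC hu1 hu fun q => by rw [norm_one]
  have hp := X3_pow I
  have hw1 : ∀ a (l : L a) φ, w a l φ ≤ 1 := by
    intro a l φ
    have h1 := (hq a).wU {l} (fun x hx y hy => by
      rw [mem_singleton.1 hx, mem_singleton.1 hy]
      show (Λ a).Phi l l + (Λ a).Phi l l = 0
      rw [(hq a).diag, add_zero]) φ
    rwa [sum_singleton] at h1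
  refine ⟨?_, ?_, rfl, one_le_hI I, ?_, ?_, ?_, ?_, ?_, ?_, ?_⟩
  · intro z
    exact hok.ok.diag z.1
  · intro Z hZ
    have h1 := hok.ok.k1 (upC Z) (Unl_upC.2 hZ)
    rw [card_upC] at h1
    show Z.card ≤ (LSC phi Λ).m - 1
    omega
  · intro z φ
    refine prod_nonneg fun a _ => ?_
    split_ifs
    · exact (hq a).w0 _ _
    · exact zero_le_one
  · intro z φ
    refine prod_le_one (fun a _ => ?_) fun a _ => ?_
    · split_ifs
      · exact (hq a).w0 _ _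
      · exact zero_le_one
    · split_ifs
      · exact hw1 _ _ _
      · exact le_rfl
  · intro z
    have h1 := hok.wz z.1
    rw [wC_up] at h1
    exact pos_of_mul_pos_right h1 (inv_nonneg.2 hp.le)
  · intro Z hZ φ
    exact X3_le Z φ (hok.wU (upC Z) (Unl_upC.2 hZ) φ)
  · intro Z hZ hc
    obtain ⟨φ, hφ⟩ := hok.sm (upC Z) (Unl_upC.2 hZ) (by
      have h1 : Z.card < (LSC phi Λ).m - 1 := hc
      rw [card_upC]
      omega)
    exact ⟨φ, X3_lt Z φ hφ⟩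
  · intro z q
    show ‖∏ a, (if phi a ⬝ᵥ z.1.1.1 = 1 then u a (z.1.1.2 a) q else 1)‖ ≤ 1
    rw [norm_prod]
    refine prod_le_one (fun a _ => norm_nonneg _) fun a _ => ?_
    split_ifs
    · exact hu1 _ _ _
    · rw [norm_one]
  · intro Z hZ x hx
    obtain ⟨U, hU, e⟩ := (mem_FullWh_Cn hs hq hC).1 hZ
    subst e
    have hU' : ∀ a, (Λ a).Unl (U a) ∧ (U a).card = (Λ a).m := fun a =>
      ((Λ a).mem_Us (U a)).1 (mem_FullW.1 (hU a)).1
    have hx' : x.1 ∉ UC phi U := fun h => hx (by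
      unfold UCn
      exact mem_rsC.2 h)
    obtain ⟨l, hl, l', hl', e1, e2, hne⟩ := two_C hq hU' hx'
    have hc1 : l.1.1 ≠ 0 := by
      rw [e1]
      exact x.2
    have hc2 : l'.1.1 ≠ 0 := by
      rw [e2]
      exact x.2
    refine ⟨⟨l, hc1⟩, mem_rsC.2 hl, ⟨l', hc2⟩, mem_rsC.2 hl', hne, fun q => ?_⟩
    show ∏ a, (if phi a ⬝ᵥ l.1.1 = 1 then u a (l.1.2 a) q else 1) =
      ∏ a, (if phi a ⬝ᵥ l'.1.1 = 1 then u a (l'.1.2 a) q else 1)
    refine prod_congr rfl fun a _ => ?_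
    rw [e1, e2]
    by_cases h : phi a ⬝ᵥ x.1.1.1 = 1
    · rw [if_pos h, if_pos h]
      refine hu a (U a) (hU a) _ (mem_UC.1 hl a ?_) _ (mem_UC.1 hl' a ?_) q
      · rw [e1]
        exact h
      · rw [e2]
        exact h
    · rw [if_neg h, if_neg h]

/-- The local factor. -/
theorem sum_fCn (D : Dat2 ι κ) (Λ : ∀ a, LS2 (L a) ι κ) (w : ∀ a, L a → (κ → ZMod 2) → ℝ)
    (u : ∀ a, L a → ι → ℂ) (U : ∀ a, Finset (L a)) (q : ι) :
    ∑ z ∈ UCn phi U, wu D (LSCn phi Λ).c (wCn w) (uCn u) z q = fCn D phi Λ w u U q := by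
  classical
  rw [sum_congr rfl fun z _ => wu_Cn D phi Λ w u z q,
    sum_UCn U fun a l => wu D (Λ a).c (w a) (u a) l q]
  rfl

/-- **The first moment.** -/
theorem pCn [Nonempty I] [PS ι] (hs : Sp phi) {D : Dat2 ι κ} (hD : D.OK) (hN : D.NV1)
    (hq : ∀ a, QOK (Λ a) (w a)) (hC : CS phi Λ w)
    {u : ∀ a, L a → ι → ℂ} (hu1 : ∀ a l q, ‖u a l q‖ ≤ 1)
    (hu : ∀ a, ∀ U ∈ FullW (Λ a) (w a), ∀ l ∈ U, ∀ l' ∈ U, ∀ q, u a l q = u a l' q)
    (ε : ℝ) (hε : 0 < ε) : ∃ X₀ : ℕ, ∀ X : ℕ, X₀ ≤ X →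
      ‖∑ S ∈ Sx ι X, smI (PB D phi Λ w u) S -
        ∑ U ∈ Fintype.piFinset (fun a => FullW (Λ a) (w a)),
          ∑ S ∈ Sx ι X, ∏ q ∈ S, fCn D phi Λ w u U q‖ ≤ ε * Yh (hI I) X := by
  obtain ⟨X₀, h1⟩ := engineUh hD hN (uok_Cn hs hq hC hu1 hu) ε hε
  refine ⟨X₀, fun X hX => ?_⟩
  have h2 := h1 X hX
  rw [sum_FullWh_Cn hs hq hC] at h2
  have e1 : ∑ S ∈ Sx ι X, smI (PB D phi Λ w u) S =
      ∑ S ∈ Sx ι X, BF D (LSCn phi Λ).Phi (wu D (LSCn phi Λ).c (wCn w) (uCn u)) S :=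
    sum_congr rfl fun S _ => smI_C D phi Λ w u S
  have e2 : ∑ U ∈ Fintype.piFinset (fun a => FullW (Λ a) (w a)),
      ∑ S ∈ Sx ι X, ∏ q ∈ S, fCn D phi Λ w u U q =
      ∑ U ∈ Fintype.piFinset (fun a => FullW (Λ a) (w a)),
        ∑ S ∈ Sx ι X, ∏ q ∈ S, ∑ z ∈ UCn phi U, wu D (LSCn phi Λ).c (wCn w) (uCn u) z q :=
    sum_congr rfl fun U _ => sum_congr rfl fun S _ => prod_congr rfl fun q _ =>
      (sum_fCn D Λ w u U q).symm
  rw [e1, e2]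
  exact h2

end

end Pool.Agent.Lib.MP_1a91b9_ntMN.G4
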