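import Pool.Agent.Lib.MP_1a91b9_ntMN.X3

/-!
# MP_1a91b9_nt (extensions ordered by the ramified primes), `ℚ(i)`: the first moment of the difference
-/

set_option autoImplicit false
set_option linter.unusedSectionVars false

namespace Pool.Agent.Lib.MP_1a91b9_ntMN.G4

open Finset Pool.Agent.Lib.MP_1a91b9_ntH Pool.Agent.Lib.MP_1a91b9_ntQ Pool.Agent.Lib.MP_1a91b9_ntQ.Da
  Pool.Agent.Lib.MP_1a91b9_ntQ.M Pool.Agent.Lib.MP_1a91b9_ntM Pool.Agent.Lib.MP_1a91b9_ntM.E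
open Pool.Agent.Lib.MP_1a91b9_ntDV Pool.Agent.Lib.MP_1a91b9_ntDV.G4 Pool.Agent.Lib.MP_1a91b9_ntMQ
  Pool.Agent.Lib.MP_1a91b9_ntMQ.G4 Pool.Agent.Lib.MP_1a91b9_ntMN

noncomputable section

variable {I A : Type} [Fintype I] [DecidableEq I] [Fintype A] [DecidableEq A]
  {phi : A → I → ZMod 2} {Bt : A → Type} [∀ a, Fintype (Bt a)] [∀ a, DecidableEq (Bt a)]
  {k : ∀ a, Bt a → ℕ} {E : ∀ a, Bt a → Type} [∀ a b, Fintype (E a b)]
  [∀ a b, DecidableEq (E a b)] {ι : Type} [DecidableEq ι] {κ : Type} [Fintype κ] [DecidableEq κ]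

/-- The local factors. -/
theorem fC_Xn {ρ : (κ → ZMod 2) → ι → ZMod 2} (h0 : ρ 0 = 0) (D : Dat2 ι κ)
    {cA σ : ∀ a, Bt a → κ → ZMod 2} {P : ∀ a b, κ → E a b → ZMod 2}
    {m : ∀ a b, E a b → Lab2 (k a b)} (g : A → ι → ℂ) {V : ∀ a, Finset (LabP (k a))}
    (hV : V ∈ FuI ι cA σ P m) (q : ι) :
    fCn D phi (fun a => LSP ι (k a) (σ a) (P a) (m a)) (fun a => wX (k a) (cA a))
      (fun a => uX ρ (cA a) (g a)) V q = hIn D phi cA σ P m g V q := by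
  have hV' : ∀ a, V a ∈ FullW (LSP ι (k a) (σ a) (P a) (m a)) (wX (k a) (cA a)) :=
    Fintype.mem_piFinset.1 hV
  have h1 : ∀ a, ∑ l ∈ V a, wu D (LSP ι (k a) (σ a) (P a) (m a)).c (wX (k a) (cA a))
      (uX ρ (cA a) (g a)) l q =
      g a q * TotW (LSP ι (k a) (σ a) (P a) (m a)) (wX (k a) (cA a)) (V a) (D.a q) := by
    intro a
    unfold TotW
    rw [mul_sum]
    refine sum_congr rfl fun l hl => ?_
    show (((wX (k a) (cA a) l (D.a q) : ℝ)) : ℂ) * uX ρ (cA a) (g a) l q *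
      e2 (∑ j, (LSP ι (k a) (σ a) (P a) (m a)).c l j * D.a q j) = _
    rw [uX_full h0 (g a) (hV' a) hl q]
    ring
  unfold fCn hIn
  refine sum_congr rfl fun v _ => prod_congr rfl fun a _ => ?_
  split_ifs with h
  · exact h1 a
  · rfl

/-- **The first moment of the family.** -/
theorem cross_In [Nonempty I] [PS ι] (hs : Sp phi) {D : Dat2 ι κ} (hD : D.OK) (hN : D.NV1)
    {ρ : (κ → ZMod 2) → ι → ZMod 2} (h0 : ρ 0 = 0) (cA σ : ∀ a, Bt a → κ → ZMod 2)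
    (P : ∀ a b, κ → E a b → ZMod 2) (m : ∀ a b, E a b → Lab2 (k a b)) {g : A → ι → ℂ}
    (hg : ∀ a q, ‖g a q‖ ≤ 1) (ε : ℝ) (hε : 0 < ε) :
    ∃ X₀ : ℕ, ∀ X : ℕ, X₀ ≤ X →
      ‖∑ S ∈ Sx ι X, smI (PhI D ρ phi cA σ P m g) S -
        ∑ V ∈ FuI ι cA σ P m, ∑ S ∈ Sx ι X, ∏ q ∈ S, hIn D phi cA σ P m g V q‖ ≤
        ε * Yh (hI I) X := by
  obtain ⟨X₀, h⟩ := pCn hs hD hN (fun a => qok_X (cA a) (σ a) (P a) (m a)) (cs_X hs cA σ P m)
    (u := fun a => uX ρ (cA a) (g a)) (fun a l q => norm_uX (hg a) (some l) q)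
    (fun a U hU l hl l' hl' q => by
      show uX ρ (cA a) (g a) l q = uX ρ (cA a) (g a) l' q
      rw [uX_full h0 (g a) hU hl q, uX_full h0 (g a) hU hl' q]) ε hε
  refine ⟨X₀, fun X hX => ?_⟩
  have h1 := h X hX
  have h2 : ∑ V ∈ FuI ι cA σ P m, ∑ S ∈ Sx ι X, ∏ q ∈ S, hIn D phi cA σ P m g V q =
      ∑ U ∈ Fintype.piFinset (fun a => FullW (LSP ι (k a) (σ a) (P a) (m a)) (wX (k a) (cA a))),
        ∑ S ∈ Sx ι X, ∏ q ∈ S, fCn D phi (fun a => LSP ι (k a) (σ a) (P a) (m a))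
          (fun a => wX (k a) (cA a)) (fun a => uX ρ (cA a) (g a)) U q := by
    refine sum_congr rfl fun V hV => sum_congr rfl fun S _ => prod_congr rfl fun q _ => ?_
    rw [fC_Xn h0 D g hV q]
  rw [h2]
  exact h1

/-- The sum of the main term over the families with the union `S`. -/
theorem smI_PsI (D : Dat2 ι κ) (cA σ : ∀ a, Bt a → κ → ZMod 2)
    (P : ∀ a b, κ → E a b → ZMod 2) (m : ∀ a b, E a b → Lab2 (k a b)) (g : A → ι → ℂ)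
    (S : Finset ι) : smI (PsI D phi cA σ P m g) S =
      ∑ V ∈ FuI ι cA σ P m, ∏ q ∈ S, hIn D phi cA σ P m g V q := by
  have h1 : ∀ c : I → Finset ι, PsI D phi cA σ P m g c = ∑ V ∈ FuI ι cA σ P m, ∏ a, ∏ q ∈ TT phi c a,
      g a q * TotW (LSP ι (k a) (σ a) (P a) (m a)) (wX (k a) (cA a)) (V a) (D.a q) := by
    intro c
    unfold PsI PsX FuI
    rw [Finset.prod_univ_sum]
  unfold smI
  rw [sum_congr rfl fun c _ => h1 c, sum_comm]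
  refine sum_congr rfl fun V _ => ?_
  exact smI_one phi (fun a q => g a q * TotW (LSP ι (k a) (σ a) (P a) (m a)) (wX (k a) (cA a)) (V a) (D.a q)) S

/-- **The difference, for fixed labels of the border.** -/
theorem de_mean [Nonempty I] [PS ι] (hs : Sp phi) {D : Dat2 ι κ} (hD : D.OK) (hN : D.NV1)
    {ρ : (κ → ZMod 2) → ι → ZMod 2} (h0 : ρ 0 = 0) (cA σ : ∀ a, Bt a → κ → ZMod 2)
    (P : ∀ a b, κ → E a b → ZMod 2) (m : ∀ a b, E a b → Lab2 (k a b)) {g : A → ι → ℂ}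
    (hg : ∀ a q, ‖g a q‖ ≤ 1) (ε : ℝ) (hε : 0 < ε) :
    ∃ X₀ : ℕ, ∀ X : ℕ, X₀ ≤ X →
      ‖∑ S ∈ Sx ι X, smI (fun c => PhI D ρ phi cA σ P m g c - PsI D phi cA σ P m g c) S‖ ≤
        ε * Yh (hI I) X := by
  obtain ⟨X₀, h1⟩ := cross_In hs hD hN h0 cA σ P m hg ε hε
  refine ⟨X₀, fun X hX => ?_⟩
  have h2 := h1 X hX
  have h3 : ∑ S ∈ Sx ι X, smI (fun c => PhI D ρ phi cA σ P m g c - PsI D phi cA σ P m g c) S =
      ∑ S ∈ Sx ι X, smI (PhI D ρ phi cA σ P m g) S -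
        ∑ V ∈ FuI ι cA σ P m, ∑ S ∈ Sx ι X, ∏ q ∈ S, hIn D phi cA σ P m g V q := by
    rw [sum_comm (s := FuI ι cA σ P m), ← sum_sub_distrib]
    refine sum_congr rfl fun S _ => ?_
    rw [← smI_PsI]
    unfold smI
    rw [sum_sub_distrib]
  rw [h3]
  exact h2

private theorem X4_max {V : Type} [Fintype V] (p : V → ℕ → Prop)
    (h : ∀ v, ∃ X₀ : ℕ, ∀ X : ℕ, X₀ ≤ X → p v X) :
    ∃ X₀ : ℕ, ∀ X : ℕ, X₀ ≤ X → ∀ v, p v X := by
  choose f hf using h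
  exact ⟨univ.sup f, fun X hX v => hf v X ((Finset.le_sup (mem_univ v)).trans hX)⟩

/-- **The difference.** -/
theorem de_alln [Nonempty I] [PS ι] (hs : Sp phi) {D : Dat2 ι κ} (hD : D.OK) (hN : D.NV1)
    {ρ : (κ → ZMod 2) → ι → ZMod 2} (h0 : ρ 0 = 0) (cA σ : ∀ a, Bt a → κ → ZMod 2)
    (P : ∀ a b, κ → E a b → ZMod 2) (R : ∀ a b, Matrix (E a b) (E a b) (ZMod 2))
    (k : ∀ a, Bt a → ℕ) {g : A → ι → ℂ} (hg : ∀ a q, ‖g a q‖ ≤ 1) (ε : ℝ) (hε : 0 < ε) :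
    ∃ X₀ : ℕ, ∀ X : ℕ, X₀ ≤ X →
      ‖∑ S ∈ Sx ι X, smI (DeI D ρ phi cA σ P R k g) S‖ ≤ ε * Yh (hI I) X := by
  obtain ⟨n, hn⟩ : ∃ n : ℕ, n = Fintype.card (∀ a b, E a b → Lab2 (k a b)) := ⟨_, rfl⟩
  obtain ⟨η, hη⟩ : ∃ η : ℝ, η = ε / ((n : ℝ) + 1) := ⟨_, rfl⟩
  have hpos : (0 : ℝ) < (n : ℝ) + 1 := by positivity
  have hη0 : 0 < η := by
    rw [hη]
    exact div_pos hε hpos
  obtain ⟨X₀, h1⟩ := X4_max (V := (∀ a b, E a b → Lab2 (k a b)))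
    (fun m X => ‖∑ S ∈ Sx ι X, smI (fun c => PhI D ρ phi cA σ P m g c - PsI D phi cA σ P m g c) S‖ ≤
      η * Yh (hI I) X) fun m => de_mean hs hD hN h0 cA σ P m hg η hη0
  refine ⟨X₀, fun X hX => ?_⟩
  have h2 : ∑ S ∈ Sx ι X, smI (DeI D ρ phi cA σ P R k g) S =
      ∑ m : (∀ a b, E a b → Lab2 (k a b)), (∏ a, ∏ b, e2 (RF (R a b) (m a b))) *
        ∑ S ∈ Sx ι X, smI (fun c => PhI D ρ phi cA σ P m g c - PsI D phi cA σ P m g c) S := by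
    have h3 : ∀ S : Finset ι, smI (DeI D ρ phi cA σ P R k g) S =
        ∑ m : (∀ a b, E a b → Lab2 (k a b)), (∏ a, ∏ b, e2 (RF (R a b) (m a b))) *
          smI (fun c => PhI D ρ phi cA σ P m g c - PsI D phi cA σ P m g c) S := by
      intro S
      unfold smI DeI
      rw [sum_comm]
      exact sum_congr rfl fun m _ => (mul_sum _ _ _).symm
    rw [sum_congr rfl fun S _ => h3 S, sum_comm]
    exact sum_congr rfl fun m _ => (mul_sum _ _ _).symm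
  have hc1 : ∀ m : (∀ a b, E a b → Lab2 (k a b)), ‖∏ a, ∏ b, e2 (RF (R a b) (m a b))‖ = 1 := by
    intro m
    rw [norm_prod]
    refine prod_eq_one fun a _ => ?_
    rw [norm_prod]
    exact prod_eq_one fun b _ => norm_e2 _
  have h5 : ‖∑ S ∈ Sx ι X, smI (DeI D ρ phi cA σ P R k g) S‖ ≤ n * (η * Yh (hI I) X) := by
    rw [h2]
    refine (norm_sum_le _ _).trans ((sum_le_sum fun m _ => (?_ : _ ≤ η * Yh (hI I) X)).trans ?_)
    · rw [norm_mul, hc1, one_mul]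
      exact h1 X hX m
    · rw [sum_const, card_univ, nsmul_eq_mul, hn]
  refine h5.trans ?_
  have h7 : ((n : ℝ) + 1) * η = ε := by
    rw [hη]
    exact mul_div_cancel₀ _ hpos.ne'
  have h8 : 0 ≤ η * Yh (hI I) X := mul_nonneg hη0.le (Yh_nonneg _ _)
  rw [← h7]
  nlinarith

end

end Pool.Agent.Lib.MP_1a91b9_ntMN.G4
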