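import Pool.Agent.Lib.MP_1a91b9_ntMN.X0
import Pool.Agent.Lib.MP_1a91b9_ntDV.K4_12

/-!
# MP_1a91b9_nt (extensions ordered by the ramified primes), `ℚ(i)`: from the characters to the classes
-/

set_option autoImplicit false
set_option linter.unusedSectionVars false

namespace Pool.Agent.Lib.MP_1a91b9_ntMN.G4

open Finset Pool.Agent.Lib.MP_1a91b9_ntH Pool.Agent.Lib.MP_1a91b9_ntQ Pool.Agent.Lib.MP_1a91b9_ntQ.Da
  Pool.Agent.Lib.MP_1a91b9_ntQ.M Pool.Agent.Lib.MP_1a91b9_ntM Pool.Agent.Lib.MP_1a91b9_ntM.E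
open Pool.Agent.Lib.MP_1a91b9_ntDV Pool.Agent.Lib.MP_1a91b9_ntDV.G4 Pool.Agent.Lib.MP_1a91b9_ntMQ
  Pool.Agent.Lib.MP_1a91b9_ntMQ.G4 Pool.Agent.Lib.MP_1a91b9_ntMN

noncomputable section

variable {I A : Type} [Fintype I] [DecidableEq I] [Fintype A] [DecidableEq A] {ι : Type}
  [DecidableEq ι] [PS ι] {G : Type} [AddCommGroup G] [Fintype G]

open Classical in
/-- One product. -/
private theorem X5_one (cl : ι → G) (g : G) (T : Finset ι) :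
    ((if ∑ q ∈ T, cl q = g then 1 else 0 : ℂ)) * (Fintype.card G : ℂ) =
      ∑ ψ : AddChar G ℂ, ψ (-g) * ∏ q ∈ T, ψ (cl q) := by
  have h1 : ∀ ψ : AddChar G ℂ, ψ (-g) * ∏ q ∈ T, ψ (cl q) = ψ (∑ q ∈ T, cl q - g) := by
    intro ψ
    rw [sub_eq_add_neg, AddChar.map_add_eq_mul, ch_sum]
    ring
  rw [sum_congr rfl fun ψ _ => h1 ψ, AddChar.sum_apply_eq_ite]
  by_cases h : ∑ q ∈ T, cl q = g
  · rw [if_pos h, if_pos (sub_eq_zero.2 h), one_mul]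
  · rw [if_neg h, if_neg fun h' => h (sub_eq_zero.1 h'), zero_mul]

open Classical in
/-- One family. -/
private theorem X5_pt (phi : A → I → ZMod 2) (cl : ι → G) (γ : A → G) (F : (I → Finset ι) → ℝ)
    (c : I → Finset ι) :
    (((if ∀ a, ∑ q ∈ TT phi c a, cl q = γ a then F c - 0 else 0 : ℝ)) : ℂ) *
        (Fintype.card G : ℂ) ^ Fintype.card A =
      ∑ ψ : A → AddChar G ℂ, (∏ a, ψ a (-γ a)) *
        ((∏ a, ∏ q ∈ TT phi c a, ψ a (cl q)) * (F c : ℂ)) := by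
  have h1 : ∀ ψ : A → AddChar G ℂ, (∏ a, ψ a (-γ a)) *
      ((∏ a, ∏ q ∈ TT phi c a, ψ a (cl q)) * (F c : ℂ)) =
      (∏ a, (ψ a (-γ a) * ∏ q ∈ TT phi c a, ψ a (cl q))) * (F c : ℂ) := by
    intro ψ
    rw [prod_mul_distrib, mul_assoc]
  have h2 : ∑ ψ : A → AddChar G ℂ, ∏ a, (ψ a (-γ a) * ∏ q ∈ TT phi c a, ψ a (cl q)) =
      ∏ a, ∑ ψ : AddChar G ℂ, ψ (-γ a) * ∏ q ∈ TT phi c a, ψ (cl q) := by
    rw [prod_univ_sum, Fintype.piFinset_univ]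
  rw [sum_congr rfl fun ψ _ => h1 ψ, ← sum_mul, h2, prod_congr rfl fun a _ => (X5_one cl (γ a) _).symm,
    prod_mul_distrib, prod_const, card_univ]
  by_cases h : ∀ a, ∑ q ∈ TT phi c a, cl q = γ a
  · rw [if_pos h, prod_congr rfl fun a _ => if_pos (h a), prod_const_one, sub_zero, one_mul, mul_comm]
  · obtain ⟨a, ha⟩ := not_forall.1 h
    rw [if_neg h, prod_eq_zero (mem_univ a) (if_neg ha), zero_mul, zero_mul, Complex.ofReal_zero,
      zero_mul]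

open Classical in
/-- The sum over the families. -/
private theorem X5_sm (phi : A → I → ZMod 2) (cl : ι → G) (γ : A → G) (F : (I → Finset ι) → ℝ)
    (S : Finset ι) :
    smI (fun c => (((if ∀ a, ∑ q ∈ TT phi c a, cl q = γ a then F c - 0 else 0 : ℝ)) : ℂ)) S *
        (Fintype.card G : ℂ) ^ Fintype.card A =
      ∑ ψ : A → AddChar G ℂ, (∏ a, ψ a (-γ a)) *
        smI (fun c => (∏ a, ∏ q ∈ TT phi c a, ψ a (cl q)) * (F c : ℂ)) S := by
  unfold smI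
  rw [sum_mul, sum_congr rfl fun c _ => X5_pt phi cl γ F c, sum_comm]
  exact sum_congr rfl fun ψ _ => (mul_sum _ _ _).symm

/-- The coefficients have norm one. -/
private theorem X5_norm (γ : A → G) (ψ : A → AddChar G ℂ) : ‖∏ a, ψ a (-γ a)‖ = 1 := by
  rw [norm_prod]
  exact prod_eq_one fun a _ => AddChar.norm_apply _ _

/-- **From the characters to the classes of the products.** -/
theorem pgn_ch (phi : A → I → ZMod 2) (cl : ι → G) (γ : A → G) (F : (I → Finset ι) → ℝ)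
    (h : ∀ (ψ : A → AddChar G ℂ) (ε : ℝ), 0 < ε → ∃ X₀ : ℕ, ∀ X : ℕ, X₀ ≤ X →
      ‖∑ S ∈ Sx ι X, smI (fun c => (∏ a, ∏ q ∈ TT phi c a, ψ a (cl q)) * (F c : ℂ)) S‖ ≤
        ε * Yh (hI I) X) :
    PGn phi cl γ F 0 := by
  classical
  intro ε hε
  choose X1 h1 using fun p : (A → AddChar G ℂ) => h p ε hε
  refine ⟨∑ p, X1 p, fun X hX => ?_⟩
  have hX1 : ∀ p, X1 p ≤ X := fun p =>
    (single_le_sum (fun _ _ => Nat.zero_le _) (mem_univ p)).trans hX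
  obtain ⟨N, hN⟩ : ∃ N : ℝ, N = (Fintype.card G : ℝ) ^ Fintype.card A := ⟨_, rfl⟩
  have hN0 : (0 : ℝ) < N := by
    rw [hN]
    exact pow_pos (Nat.cast_pos.2 Fintype.card_pos) _
  obtain ⟨Z, hZ⟩ : ∃ Z : ℂ, Z = ∑ S ∈ Sx ι X,
      smI (fun c => (((if ∀ a, ∑ q ∈ TT phi c a, cl q = γ a then F c - 0 else 0 : ℝ)) : ℂ)) S := ⟨_, rfl⟩
  have h2 : Z * (Fintype.card G : ℂ) ^ Fintype.card A = ∑ ψ : A → AddChar G ℂ, (∏ a, ψ a (-γ a)) *
        ∑ S ∈ Sx ι X, smI (fun c => (∏ a, ∏ q ∈ TT phi c a, ψ a (cl q)) * (F c : ℂ)) S := by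
    rw [hZ, sum_mul, sum_congr rfl fun S _ => X5_sm phi cl γ F S, sum_comm]
    exact sum_congr rfl fun ψ _ => (mul_sum _ _ _).symm
  have h3 : ‖Z‖ * N ≤ N * (ε * Yh (hI I) X) := by
    have e1 : ‖Z‖ * N = ‖Z * (Fintype.card G : ℂ) ^ Fintype.card A‖ := by
      rw [norm_mul, norm_pow, Complex.norm_natCast, hN]
    rw [e1, h2]
    refine (norm_sum_le _ _).trans ((sum_le_sum fun ψ _ => (?_ : _ ≤ ε * Yh (hI I) X)).trans ?_)
    · rw [norm_mul, X5_norm, one_mul]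
      exact h1 ψ X (hX1 ψ)
    · rw [sum_const, card_univ, nsmul_eq_mul, Fintype.card_fun, AddChar.card_eq, Nat.cast_pow, hN]
  have h4 : ‖Z‖ ≤ ε * Yh (hI I) X := by
    rw [mul_comm] at h3
    exact le_of_mul_le_mul_left h3 hN0
  have h5 : 0 ≤ ε * NN ι (hI I) X := mul_nonneg hε.le (NN_nonneg _ _ _)
  have h6 : ‖Z - ((0 : ℝ) : ℂ) * (NN ι (hI I) X : ℂ)‖ ≤ ε * (NN ι (hI I) X + Yh (hI I) X) := by
    rw [Complex.ofReal_zero, zero_mul, sub_zero]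
    linarith
  rw [hZ] at h6
  exact h6

end

end Pool.Agent.Lib.MP_1a91b9_ntMN.G4
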