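import Pool.Agent.Lib.MP_1a91b9_ntMN.X1

/-!
# MP_1a91b9_nt (extensions ordered by the ramified primes), `ℚ(i)`: the rules for the mean values
-/

set_option autoImplicit false
set_option linter.unusedSectionVars false

namespace Pool.Agent.Lib.MP_1a91b9_ntMN.G4

open Finset Pool.Agent.Lib.MP_1a91b9_ntH Pool.Agent.Lib.MP_1a91b9_ntQ Pool.Agent.Lib.MP_1a91b9_ntQ.Da
  Pool.Agent.Lib.MP_1a91b9_ntQ.M Pool.Agent.Lib.MP_1a91b9_ntM Pool.Agent.Lib.MP_1a91b9_ntM.E
open Pool.Agent.Lib.MP_1a91b9_ntDV Pool.Agent.Lib.MP_1a91b9_ntDV.G4 Pool.Agent.Lib.MP_1a91b9_ntMQ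
  Pool.Agent.Lib.MP_1a91b9_ntMQ.G4 Pool.Agent.Lib.MP_1a91b9_ntMN

noncomputable section

variable {I : Type} [Fintype I] [DecidableEq I] {ι : Type} [DecidableEq ι]

/-- The number of the families with the union `S`. -/
theorem card_covF (I : Type) [Fintype I] [DecidableEq I] (S : Finset ι) :
    ((covF I S).card : ℝ) = (hI I : ℝ) ^ S.card := by
  classical
  have h1 := smI_one (I := I) (A := Empty) (fun a => a.elim) (fun a => a.elim) S
  have h2 : ((covF I S).card : ℂ) = ((hI I : ℕ) : ℂ) ^ S.card := by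
    have e1 : smI (fun c : I → Finset ι => ∏ a : Empty, ∏ q ∈ TT (fun a : Empty => a.elim) c a,
        (a.elim : ι → ℂ) q) S = ((covF I S).card : ℂ) := by
      unfold smI
      rw [sum_congr rfl fun c _ => Fintype.prod_empty _, sum_const, nsmul_eq_mul, mul_one]
    rw [← e1, h1, ← prod_const]
    refine prod_congr rfl fun q _ => ?_
    rw [sum_congr rfl fun v _ => Fintype.prod_empty _, sum_const, nsmul_eq_mul, mul_one]
    congr 1
    rw [filter_ne' univ (0 : I → ZMod 2), card_erase_of_mem (mem_univ _), card_univ, Fintype.card_fun,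
      ZMod.card]
    rfl
  exact_mod_cast h2

variable [PS ι]

/-- The sum of `F` over the families with the norm of the union at most `X`. -/
def sm1 (F : (I → Finset ι) → ℝ) (X : ℕ) : ℝ := ∑ S ∈ Sx ι X, ∑ c ∈ covF I S, F c

theorem mv1_iff {F : (I → Finset ι) → ℝ} {v : ℝ} : MV1 F v ↔
    ∀ ε : ℝ, 0 < ε → ∃ X₀ : ℕ, ∀ X : ℕ, X₀ ≤ X →
      |sm1 F X - v * NN ι (hI I) X| ≤ ε * (NN ι (hI I) X + Yh (hI I) X) := by
  have h1 : ∀ X : ℕ, ‖∑ S ∈ Sx ι X, smI (fun c => ((F c : ℝ) : ℂ)) S - ((v : ℝ) : ℂ) *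
      ((NN ι (hI I) X : ℝ) : ℂ)‖ = |sm1 F X - v * NN ι (hI I) X| := by
    intro X
    rw [← Real.norm_eq_abs, ← Complex.norm_real]
    unfold sm1 smI
    push_cast
    rfl
  unfold MV1 MV0
  simp only [h1]

theorem sm1_add (F G : (I → Finset ι) → ℝ) (X : ℕ) :
    sm1 (fun c => F c + G c) X = sm1 F X + sm1 G X := by
  unfold sm1
  rw [← sum_add_distrib]
  exact sum_congr rfl fun S _ => sum_add_distrib

theorem sm1_smul (a : ℝ) (F : (I → Finset ι) → ℝ) (X : ℕ) :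
    sm1 (fun c => a * F c) X = a * sm1 F X := by
  unfold sm1
  rw [mul_sum]
  exact sum_congr rfl fun S _ => (mul_sum _ _ _).symm

theorem sm1_mono {F G : (I → Finset ι) → ℝ} (h : ∀ c, F c ≤ G c) (X : ℕ) : sm1 F X ≤ sm1 G X :=
  sum_le_sum fun _ _ => sum_le_sum fun c _ => h c

theorem sm1_const (a : ℝ) (X : ℕ) :
    sm1 (fun _ : I → Finset ι => a) X = a * NN ι (hI I) X := by
  unfold sm1 NN
  rw [mul_sum]
  refine sum_congr rfl fun S _ => ?_
  rw [sum_const, nsmul_eq_mul, card_covF, mul_comm]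

theorem sm1_sum {α : Type} (s : Finset α) (F : α → (I → Finset ι) → ℝ) (X : ℕ) :
    sm1 (fun c => ∑ i ∈ s, F i c) X = ∑ i ∈ s, sm1 (F i) X := by
  unfold sm1
  rw [sum_comm]
  refine sum_congr rfl fun S _ => ?_
  rw [sum_comm]

theorem sm1_nonneg {F : (I → Finset ι) → ℝ} (h : ∀ c, 0 ≤ F c) (X : ℕ) : 0 ≤ sm1 F X :=
  sum_nonneg fun _ _ => sum_nonneg fun c _ => h c

theorem abs_sm1_le (F : (I → Finset ι) → ℝ) (X : ℕ) : |sm1 F X| ≤ sm1 (fun c => |F c|) X :=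
  (abs_sum_le_sum_abs _ _).trans (sum_le_sum fun _ _ => abs_sum_le_sum_abs _ _)

theorem NY_nonneg (ι : Type) [DecidableEq ι] [PS ι] (h X : ℕ) : 0 ≤ NN ι h X + Yh h X :=
  add_nonneg (NN_nonneg _ _ _) (Yh_nonneg _ _)

theorem MV1.add {F G : (I → Finset ι) → ℝ} {v w : ℝ} (hF : MV1 F v) (hG : MV1 G w) :
    MV1 (fun c => F c + G c) (v + w) := by
  rw [mv1_iff] at hF hG ⊢
  intro ε hε
  obtain ⟨X1, h1⟩ := hF (ε / 2) (by positivity)
  obtain ⟨X2, h2⟩ := hG (ε / 2) (by positivity)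
  refine ⟨max X1 X2, fun X hX => ?_⟩
  have e1 := h1 X ((le_max_left _ _).trans hX)
  have e2 := h2 X ((le_max_right _ _).trans hX)
  rw [sm1_add]
  have e3 : sm1 F X + sm1 G X - (v + w) * NN ι (hI I) X =
      (sm1 F X - v * NN ι (hI I) X) + (sm1 G X - w * NN ι (hI I) X) := by ring
  rw [e3]
  refine (abs_add_le _ _).trans ?_
  linarith

theorem MV1.smul {F : (I → Finset ι) → ℝ} {v : ℝ} (hF : MV1 F v) (a : ℝ) :
    MV1 (fun c => a * F c) (a * v) := by
  rw [mv1_iff] at hF ⊢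
  intro ε hε
  obtain ⟨X1, h1⟩ := hF (ε / (|a| + 1)) (by positivity)
  refine ⟨X1, fun X hX => ?_⟩
  have e1 := h1 X hX
  rw [sm1_smul]
  have e3 : a * sm1 F X - a * v * NN ι (hI I) X = a * (sm1 F X - v * NN ι (hI I) X) := by ring
  rw [e3, abs_mul]
  have e4 := NY_nonneg ι (hI I) X
  have e5 : |a| * (ε / (|a| + 1)) ≤ ε := by
    rw [mul_div_assoc', div_le_iff₀ (by positivity)]
    nlinarith [abs_nonneg a]
  calc |a| * |sm1 F X - v * NN ι (hI I) X|
      ≤ |a| * (ε / (|a| + 1) * (NN ι (hI I) X + Yh (hI I) X)) :=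
        mul_le_mul_of_nonneg_left e1 (abs_nonneg a)
    _ = |a| * (ε / (|a| + 1)) * (NN ι (hI I) X + Yh (hI I) X) := by ring
    _ ≤ ε * (NN ι (hI I) X + Yh (hI I) X) := mul_le_mul_of_nonneg_right e5 e4

theorem MV1.congr {F G : (I → Finset ι) → ℝ} {v w : ℝ} (hF : MV1 F v) (h : ∀ c, G c = F c)
    (hv : w = v) : MV1 G w := by
  have e : G = F := funext h
  rw [e, hv]
  exact hF

theorem MV1.of_bounds {F : (I → Finset ι) → ℝ} {v : ℝ}
    (h : ∀ δ : ℝ, 0 < δ → ∃ (l u : (I → Finset ι) → ℝ) (vl vu : ℝ), MV1 l vl ∧ MV1 u vu ∧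
      v - δ ≤ vl ∧ vu ≤ v + δ ∧ ∀ T, l T ≤ F T ∧ F T ≤ u T) : MV1 F v := by
  rw [mv1_iff]
  intro ε hε
  obtain ⟨l, u, vl, vu, hl, hu, hvl, hvu, hb⟩ := h (ε / 2) (by positivity)
  rw [mv1_iff] at hl hu
  obtain ⟨X1, h1⟩ := hl (ε / 2) (by positivity)
  obtain ⟨X2, h2⟩ := hu (ε / 2) (by positivity)
  refine ⟨max X1 X2, fun X hX => ?_⟩
  have e1 := abs_le.1 (h1 X ((le_max_left _ _).trans hX))
  have e2 := abs_le.1 (h2 X ((le_max_right _ _).trans hX))
  have e3 := sm1_mono (fun c => (hb c).1) X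
  have e4 := sm1_mono (fun c => (hb c).2) X
  have hN := NN_nonneg ι (hI I) X
  have hY := Yh_nonneg (hI I) X
  have e5 : (v - ε / 2) * NN ι (hI I) X ≤ vl * NN ι (hI I) X := mul_le_mul_of_nonneg_right hvl hN
  have e6 : vu * NN ι (hI I) X ≤ (v + ε / 2) * NN ι (hI I) X := mul_le_mul_of_nonneg_right hvu hN
  have e7 : 0 ≤ ε * Yh (hI I) X := mul_nonneg hε.le hY
  rw [abs_le]
  constructor <;> nlinarith

theorem MV1_const (a : ℝ) : MV1 (fun _ : I → Finset ι => a) a := by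
  rw [mv1_iff]
  intro ε hε
  refine ⟨0, fun X _ => ?_⟩
  rw [sm1_const, sub_self, abs_zero]
  exact mul_nonneg hε.le (NY_nonneg _ _ _)

section Cls

variable {A : Type} [Fintype A] [DecidableEq A] {phi : A → I → ZMod 2} {G : Type} [AddCommGroup G]
  {cl : ι → G} {γ : A → G}

/-- The rules. -/
theorem limP_PGn (phi : A → I → ZMod 2) (cl : ι → G) (γ : A → G) : LimP (PGn phi cl γ) := by
  classical
  refine ⟨fun f h v w hf hh => ?_, fun f v a hf => ?_, fun f v H => ?_⟩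
  · refine (MV1.add hf hh).congr (fun T => ?_) (by ring)
    split_ifs <;> ring
  · refine (MV1.smul hf a).congr (fun T => ?_) (by ring)
    split_ifs <;> ring
  · refine MV1.of_bounds fun δ hδ => ?_
    obtain ⟨l, u, vl, vu, hl, hu, h1, h2, h3⟩ := H (δ / 2) (by positivity)
    refine ⟨_, _, _, _, MV1.add hl (MV1_const (-(δ / 2))), MV1.add hu (MV1_const (δ / 2)), ?_, ?_, fun T => ?_⟩
    · linarith
    · linarith
    · have h4 := h3 T
      constructor
      · split_ifs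
        · linarith [h4.1]
        · linarith
      · split_ifs
        · linarith [h4.2]
        · linarith

theorem pgn_const (phi : A → I → ZMod 2) (cl : ι → G) (γ : A → G) (c : ℝ) :
    PGn phi cl γ (fun _ => c) c := by
  refine (MV1_const (0 : ℝ)).congr (fun T => ?_) rfl
  rw [sub_self, ite_self]

theorem PGn.congr {f h : (I → Finset ι) → ℝ} {v v' : ℝ} (hf : PGn phi cl γ f v)
    (hh : ∀ c : I → Finset ι, (∀ a, ∑ q ∈ TT phi c a, cl q = γ a) → h c = f c) (hv : v' = v) :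
    PGn phi cl γ h v' := by
  subst hv
  refine MV1.congr hf (fun T => ?_) rfl
  by_cases hc : ∀ a, ∑ q ∈ TT phi T a, cl q = γ a
  · rw [if_pos hc, if_pos hc, hh T hc]
  · rw [if_neg hc, if_neg hc]

theorem PGn.sum {α : Type} (s : Finset α) {f : α → (I → Finset ι) → ℝ} {v : α → ℝ}
    (h : ∀ i ∈ s, PGn phi cl γ (f i) (v i)) :
    PGn phi cl γ (fun c => ∑ i ∈ s, f i c) (∑ i ∈ s, v i) := by
  exact (limP_PGn phi cl γ).sum s h (pgn_const phi cl γ 0)

end Cls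

end

end Pool.Agent.Lib.MP_1a91b9_ntMN.G4
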