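import Pool.Agent.Lib.MP_1a91b9_ntMQ.P4
import Pool.Agent.Lib.MP_1a91b9_ntMN.X6

/-!
# MP_1a91b9_nt (extensions ordered by the ramified primes), `ℚ(i)`: small sums
-/

set_option autoImplicit false
set_option linter.unusedSectionVars false

namespace Pool.Agent.Lib.MP_1a91b9_ntMN.G4

open Finset Pool.Agent.Lib.MP_1a91b9_ntH Pool.Agent.Lib.MP_1a91b9_ntQ Pool.Agent.Lib.MP_1a91b9_ntQ.Da
  Pool.Agent.Lib.MP_1a91b9_ntQ.M Pool.Agent.Lib.MP_1a91b9_ntM Pool.Agent.Lib.MP_1a91b9_ntM.E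
open Pool.Agent.Lib.MP_1a91b9_ntQ.D Pool.Agent.Lib.MP_1a91b9_ntQ.DW
open Pool.Agent.Lib.MP_1a91b9_ntDV Pool.Agent.Lib.MP_1a91b9_ntDV.G4 Pool.Agent.Lib.MP_1a91b9_ntMQ
  Pool.Agent.Lib.MP_1a91b9_ntMQ.G4 Pool.Agent.Lib.MP_1a91b9_ntMN
open Pool.Agent.Lib.MP_1a91b9_ntV (SumB)

noncomputable section

section Small

variable {ι : Type} [DecidableEq ι] [PS ι]

private theorem X7_log {δ : ℝ} (hδ : 0 < δ) (K ε : ℝ) (hε : 0 < ε) :
    ∃ X₀ : ℕ, 2 ≤ X₀ ∧ ∀ X : ℕ, X₀ ≤ X → K * Real.log X ^ (-δ) ≤ ε := by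
  have h1 : Filter.Tendsto (fun X : ℕ => K * Real.log (X : ℝ) ^ (-δ)) Filter.atTop (nhds (K * 0)) :=
    Filter.Tendsto.const_mul _ ((tendsto_rpow_neg_atTop hδ).comp
      (Real.tendsto_log_atTop.comp tendsto_natCast_atTop_atTop))
  rw [mul_zero] at h1
  have h2 := h1.eventually (eventually_lt_nhds hε)
  obtain ⟨X₀, hX₀⟩ := Filter.eventually_atTop.1 h2
  exact ⟨max X₀ 2, le_max_right _ _, fun X hX => (hX₀ X ((le_max_left _ _).trans hX)).le⟩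

/-- Sums with a saving are small. -/
theorem ub_small {C1 C2 : ℝ} (h1 : Cheb ι C1) (h2 : Zt ι C2) (H m : ℕ) (hH : 1 ≤ H) (hm : 1 ≤ m)
    (ψ : ι → ℝ) (B : ℝ) (hψ : SumB ψ B) (ε : ℝ) (hε : 0 < ε) : ∃ X₀ : ℕ, ∀ w : ι → ℝ,
      (∀ q, 0 ≤ w q ∧ w q ≤ H ∧ w q ≤ ((H * m - 1 : ℝ) + ψ q) / m) → ∀ X : ℕ, X₀ ≤ X →
      ∑ S ∈ Sx ι X, ∏ q ∈ S, w q ≤ ε * Yh H X := by
  obtain ⟨K, hK, hub⟩ := ubh h1 h2 H m hH hm
  have hm0 : (0 : ℝ) < m := by exact_mod_cast (by omega : 0 < m)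
  obtain ⟨X₀, hX2, hX₀⟩ := X7_log (δ := 1 / (m : ℝ)) (by positivity) (K * B ^ (1 / (m : ℝ))) ε hε
  refine ⟨X₀, fun w hw X hX => ?_⟩
  refine (hub ψ B hψ w hw X (hX2.trans hX)).trans ?_
  have e1 := mul_le_mul_of_nonneg_right (hX₀ X hX) (Yh_nonneg H X)
  refine le_trans (le_of_eq ?_) e1
  ring

/-- Sums of functions which are smaller than `H` by a constant. -/
theorem ub_const {C1 C2 : ℝ} (h1 : Cheb ι C1) (h2 : Zt ι C2) (H : ℕ) (hH : 1 ≤ H) (ε : ℝ)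
    (hε : 0 < ε) : ∃ X₀ : ℕ, ∀ w : ι → ℝ, (∀ q, 0 ≤ w q ∧ w q ≤ H - 1 / 2) → ∀ X : ℕ, X₀ ≤ X →
      ∑ S ∈ Sx ι X, ∏ q ∈ S, w q ≤ ε * Yh H X := by
  obtain ⟨X₀, hX₀⟩ := ub_small h1 h2 H 2 hH (by norm_num) (fun _ => 0) 1 SumB.zero ε hε
  refine ⟨X₀, fun w hw X hX => hX₀ w (fun q => ⟨(hw q).1, ?_, ?_⟩) X hX⟩
  · linarith [(hw q).2]
  · have := (hw q).2
    push_cast
    linarith

/-- The functions of `D.a q` which are at most `H` and not always `H`. -/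
theorem badXh {κ : Type} [Fintype κ] [DecidableEq κ] {D : Dat2 ι κ} (hD : D.OK) (hN : D.NV1)
    (H : ℕ) (hH : 1 ≤ H) (η : (κ → ZMod 2) → ℝ) (h0 : ∀ φ, 0 ≤ η φ) (h1 : ∀ φ, η φ ≤ H)
    (h2 : ∃ φ, η φ < H) (ε : ℝ) (hε : 0 < ε) : ∃ X₀ : ℕ, ∀ X : ℕ, X₀ ≤ X →
      ∑ S ∈ Sx ι X, ∏ q ∈ S, η (D.a q) ≤ ε * Yh H X := by
  obtain ⟨φ₀, hφ⟩ := h2
  obtain ⟨C1, hC1⟩ := hD.cheb
  obtain ⟨C2, hC2⟩ := hD.zt
  obtain ⟨n, hn⟩ : ∃ n : ℝ, n = (2 : ℝ) ^ Fintype.card κ := ⟨_, rfl⟩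
  have hn0 : 0 < n := by rw [hn]; positivity
  have hδ : 0 < H - η φ₀ := by linarith
  obtain ⟨m, hm⟩ := exists_nat_ge (n / (H - η φ₀) + 1)
  have hm1 : (1 : ℝ) ≤ m := by
    have : 0 < n / (H - η φ₀) := by positivity
    linarith
  have hm0 : (0 : ℝ) < m := by linarith
  have hm1' : 1 ≤ m := by exact_mod_cast hm1
  have hnm : n / m ≤ H - η φ₀ := by
    rw [div_le_iff₀ hm0]
    have h2 : n / (H - η φ₀) ≤ m := by linarith
    rw [div_le_iff₀ hδ] at h2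
    linarith
  obtain ⟨BN, hBN⟩ := chN_CB hD (fun c hc => hN ∅ c (Or.inr hc)) φ₀
  obtain ⟨X₀, hX₀⟩ := ub_small hC1 hC2 H m hH hm1' _ _
    (Pool.Agent.Lib.MP_1a91b9_ntMN.SumB.sumCh hBN) ε hε
  refine ⟨X₀, fun X hX => hX₀ (fun q => η (D.a q)) (fun q => ⟨h0 _, h1 _, ?_⟩) X hX⟩
  refine chN_bdh D φ₀ q hm1' (h1 _) fun hq => ?_
  rw [hq, ← hn]
  linarith

end Small

section Pow

variable {I A : Type} [Fintype I] [DecidableEq I] [Fintype A] [DecidableEq A]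
  {phi : A → I → ZMod 2} {ι : Type} [DecidableEq ι]

private theorem X7_half (hs : Sp phi) (a : A) (t : ℝ) :
    ∑ v : I → ZMod 2, (if phi a ⬝ᵥ v = 1 then t else 1) = 2 ^ Fintype.card I * ((1 + t) / 2) := by
  obtain ⟨w, hw⟩ : ∃ w, phi a ⬝ᵥ w = 1 := by
    obtain ⟨i, hi⟩ := Function.ne_iff.mp (hs.ne a)
    refine ⟨Pi.single i 1, ?_⟩
    rw [dotProduct_single, mul_one]
    have hz : ∀ x : ZMod 2, x ≠ 0 → x = 1 := by decide
    exact hz (phi a i) hi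
  have h1 : ∑ v : I → ZMod 2, (if phi a ⬝ᵥ v = 1 then t else 1) =
      ∑ v : I → ZMod 2, (if phi a ⬝ᵥ (v + w) = 1 then t else 1) :=
    (Equiv.sum_comp (Equiv.addRight w) fun v : I → ZMod 2 => if phi a ⬝ᵥ v = 1 then t else (1 : ℝ)).symm
  have h2 : ∑ v : I → ZMod 2, (if phi a ⬝ᵥ v = 1 then t else 1) +
      ∑ v : I → ZMod 2, (if phi a ⬝ᵥ (v + w) = 1 then t else 1) = 2 ^ Fintype.card I * (1 + t) := by
    rw [← sum_add_distrib]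
    have h3 : ∀ v : I → ZMod 2, (if phi a ⬝ᵥ v = 1 then t else 1) +
        (if phi a ⬝ᵥ (v + w) = 1 then t else 1) = 1 + t := by
      intro v
      rw [dotProduct_add, hw]
      have h4 : ∀ x : ZMod 2, x = 0 ∨ x = 1 := by decide
      rcases h4 (phi a ⬝ᵥ v) with h5 | h5
      · rw [h5, if_neg (by decide), if_pos (by decide)]
      · rw [h5, if_pos rfl, if_neg (by decide), add_comm]
    rw [sum_congr rfl fun v _ => h3 v, sum_const, card_univ, Fintype.card_fun, ZMod.card, nsmul_eq_mul]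
    push_cast
    rfl
  rw [← h1] at h2
  linarith

/-- The sum over the families with the union `S` of a product over one of the products. -/
theorem smr_pow (hs : Sp phi) (a : A) (t : ι → ℝ) (S : Finset ι) :
    ∑ c ∈ covF I S, ∏ q ∈ TT phi c a, t q =
      ∏ q ∈ S, (2 ^ Fintype.card I * ((1 + t q) / 2) - 1) := by
  classical
  have h1 := smI_one (I := I) (A := Unit) (fun _ => phi a) (fun _ q => ((t q : ℝ) : ℂ)) S
  have h2 : smI (fun c : I → Finset ι => ∏ b : Unit, ∏ q ∈ TT (fun _ : Unit => phi a) c b,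
      ((t q : ℝ) : ℂ)) S = ((∑ c ∈ covF I S, ∏ q ∈ TT phi c a, t q : ℝ) : ℂ) := by
    unfold smI
    push_cast
    refine sum_congr rfl fun c _ => ?_
    rw [Fintype.prod_unique]
    rfl
  rw [h2] at h1
  have h3 : ((∏ q ∈ S, (2 ^ Fintype.card I * ((1 + t q) / 2) - 1) : ℝ) : ℂ) =
      ∏ q ∈ S, ∑ v ∈ (univ : Finset (I → ZMod 2)).filter (fun v => v ≠ 0),
        ∏ b : Unit, if phi a ⬝ᵥ v = 1 then ((t q : ℝ) : ℂ) else 1 := by
    rw [Complex.ofReal_prod]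
    refine prod_congr rfl fun q _ => ?_
    have h4 : ∑ v ∈ (univ : Finset (I → ZMod 2)).filter (fun v => v ≠ 0),
        (if phi a ⬝ᵥ v = 1 then t q else (1 : ℝ)) = 2 ^ Fintype.card I * ((1 + t q) / 2) - 1 := by
      rw [← X7_half hs a (t q), filter_ne' univ (0 : I → ZMod 2), ← add_sum_erase univ _ (mem_univ 0),
        if_neg (by rw [dotProduct_zero]; exact zero_ne_one), add_sub_cancel_left]
    rw [← h4, Complex.ofReal_sum]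
    refine sum_congr rfl fun v _ => ?_
    rw [Fintype.prod_unique]
    split_ifs
    · rfl
    · exact Complex.ofReal_one
  rw [← h3] at h1
  exact_mod_cast h1

end Pow

end

end Pool.Agent.Lib.MP_1a91b9_ntMN.G4
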