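import Pool.Agent.Lib.MP_1a91b9_ntMQ.Y5
import Pool.Agent.Lib.MP_1a91b9_ntMN.E0
import Pool.Agent.Lib.MP_1a91b9_ntMN.MNG

/-!
# MP_1a91b9_nt (multiquadratic fields, natural density), block Y (`ℚ(√-2)`): definitions

The primes `q` with `dg w q = 0` carry all the labels with a colour different from zero, the other primes only the labels
`(w, 0)` (the set `P`), with the weight `1`. Every label is twisted by a character `τ` of its colour.
-/

set_option autoImplicit false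
set_option linter.unusedSectionVars false

namespace Pool.Agent.Lib.MP_1a91b9_ntMN

open Finset Pool.Agent.Lib.MP_1a91b9_ntH Pool.Agent.Lib.MP_1a91b9_ntQ
open Pool.Agent.Lib.MP_1a91b9_ntQ.Da Pool.Agent.Lib.MP_1a91b9_ntV Pool.Agent.Lib.MP_1a91b9_ntM
open Pool.Agent.Lib.MP_1a91b9_ntDV Pool.Agent.Lib.MP_1a91b9_ntMQ

noncomputable section

section Sy

variable {L : Type} [Fintype L] [DecidableEq L] {ι : Type} {κ : Type} [Fintype κ]

open Classical in
/-- The weights. -/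
def gYt (D : Dat2 ι κ) (w : κ → ZMod 2) (r : ι → ZMod 2) (n : L → ℝ) (P : Finset L)
    (Q : L → ZMod 2) (c : L → κ → ZMod 2) (τ : L → ι → ℂ) (x : L) (q : ι) : ℂ :=
  τ x q * (if D.dg w q = 0 then (n x : ℂ) * e2 (r q * Q x + D.dg (c x) q)
    else if x ∈ P then e2 (D.dg (c x) q) else 0)

/-- The label system. -/
def LYt (D : Dat2 ι κ) (w : κ → ZMod 2) (r : ι → ZMod 2) (Phi : L → L → ZMod 2) (n : L → ℝ)
    (P : Finset L) (Q : L → ZMod 2) (c : L → κ → ZMod 2) (τ : L → ι → ℂ) : LG L ι where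
  Phi := Phi1 Phi
  g := gYt D w r n P Q c τ

/-- The hypotheses. -/
structure WYh {C : Type} (col : L → C) (Phi : L → L → ZMod 2) (n : L → ℝ) (h M : ℕ)
    (Us : Finset (Finset L)) (P : Finset L) (Q : L → ZMod 2) : Prop where
  ws : WSh col Phi n h M Us
  card : P.card = h
  q : ∀ U ∈ Us, P ⊆ U → ∀ x ∈ U, Q x = 0
  col : ∀ x, ∃ y ∈ P, col y = col x

theorem LYt_lk (D : Dat2 ι κ) (w : κ → ZMod 2) (r : ι → ZMod 2) (Phi : L → L → ZMod 2) (n : L → ℝ)
    (P : Finset L) (Q : L → ZMod 2) (c : L → κ → ZMod 2) (τ : L → ι → ℂ) (x y : L) :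
    (LYt D w r Phi n P Q c τ).lk x y = Phi x y + Phi y x := Phi1_lk Phi x y

theorem gYt_zero (D : Dat2 ι κ) {w : κ → ZMod 2} (r : ι → ZMod 2) (Phi : L → L → ZMod 2) (n : L → ℝ)
    (P : Finset L) (Q : L → ZMod 2) (c : L → κ → ZMod 2) (τ : L → ι → ℂ) {q : ι} (hq : D.dg w q = 0)
    (x : L) : (LYt D w r Phi n P Q c τ).g x q = (n x : ℂ) * (τ x q * e2 (r q * Q x + D.dg (c x) q)) := by
  show gYt D w r n P Q c τ x q = _
  unfold gYt
  rw [if_pos hq]
  ring

theorem gYt_one (D : Dat2 ι κ) {w : κ → ZMod 2} (r : ι → ZMod 2) (Phi : L → L → ZMod 2) (n : L → ℝ)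
    (P : Finset L) (Q : L → ZMod 2) (c : L → κ → ZMod 2) (τ : L → ι → ℂ) {q : ι} (hq : D.dg w q ≠ 0) {x : L}
    (hx : x ∈ P) : (LYt D w r Phi n P Q c τ).g x q = τ x q * e2 (D.dg (c x) q) := by
  show gYt D w r n P Q c τ x q = _
  unfold gYt
  rw [if_neg hq, if_pos hx]

theorem gYt_ne (D : Dat2 ι κ) {w : κ → ZMod 2} (r : ι → ZMod 2) (Phi : L → L → ZMod 2) (n : L → ℝ)
    (P : Finset L) (Q : L → ZMod 2) (c : L → κ → ZMod 2) (τ : L → ι → ℂ) {q : ι} (hq : D.dg w q ≠ 0) {x : L}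
    (hx : x ∉ P) : (LYt D w r Phi n P Q c τ).g x q = 0 := by
  show gYt D w r n P Q c τ x q = _
  unfold gYt
  rw [if_neg hq, if_neg hx, mul_zero]

theorem WYh.ne {C : Type} {col : L → C} {Phi : L → L → ZMod 2} {n : L → ℝ} {h M : ℕ}
    {Us : Finset (Finset L)} {P : Finset L} {Q : L → ZMod 2} (hW : WYh col Phi n h M Us P Q) :
    P.Nonempty := by
  rw [← card_pos, hW.card]
  exact hW.ws.hp

theorem WYh.n0 {C : Type} {col : L → C} {Phi : L → L → ZMod 2} {n : L → ℝ} {h M : ℕ}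
    {Us : Finset (Finset L)} {P : Finset L} {Q : L → ZMod 2} (hW : WYh col Phi n h M Us P Q) (x : L) :
    0 ≤ n x :=
  le_trans (by positivity) (hW.ws.pos x)

end Sy

/-! ### The labels of the families of subsets -/

section Lbl

variable {I A : Type} [Fintype I] [Fintype A] [DecidableEq I] [DecidableEq A] {phi : A → I → ZMod 2}
  {k : A → ℕ}

open Classical in
/-- The labels `(w, 0)`, `w ≠ 0`. -/
def PYc (phi : A → I → ZMod 2) (k : A → ℕ) : Finset (Lc phi k) := univ.filter fun z => z.1.1.2 = 0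

/-- The quadratic form of a label. -/
def QYc (phi : A → I → ZMod 2) (k : A → ℕ) (z : Lc phi k) : ZMod 2 := QY phi k z.1

theorem mem_PYc {z : Lc phi k} : z ∈ PYc phi k ↔ z.1.1.2 = 0 := by
  classical
  unfold PYc
  rw [mem_filter]
  exact ⟨fun h => h.2, fun h => ⟨mem_univ _, h⟩⟩

/-- The label `(w, 0)`. -/
def z0c (phi : A → I → ZMod 2) (k : A → ℕ) (w : I → ZMod 2) (hw : w ≠ 0) : Lc phi k := ⟨z0 phi k w, hw⟩

theorem z0c_mem {w : I → ZMod 2} (hw : w ≠ 0) : z0c phi k w hw ∈ PYc phi k := mem_PYc.2 rfl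

end Lbl

end

end Pool.Agent.Lib.MP_1a91b9_ntMN
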