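import Pool.Agent.Lib.MP_1a91b9_ntMN.Y0

/-!
# MP_1a91b9_nt (multiquadratic fields, natural density), block Y: the small sets
-/

set_option autoImplicit false
set_option linter.unusedSectionVars false

namespace Pool.Agent.Lib.MP_1a91b9_ntMN

open Finset Pool.Agent.Lib.MP_1a91b9_ntH Pool.Agent.Lib.MP_1a91b9_ntQ
open Pool.Agent.Lib.MP_1a91b9_ntQ.Da Pool.Agent.Lib.MP_1a91b9_ntV Pool.Agent.Lib.MP_1a91b9_ntM
open Pool.Agent.Lib.MP_1a91b9_ntDV Pool.Agent.Lib.MP_1a91b9_ntMQ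
open Pool.Agent.Lib.MP_1a91b9_ntW (OKw)

noncomputable section

variable {L : Type} [Fintype L] [DecidableEq L] {ι : Type} [DecidableEq ι] {κ : Type} [Fintype κ]
  [DecidableEq κ] [PS ι]

private theorem Y1_z2_one {x : ZMod 2} (h : x ≠ 0) : x = 1 := by
  have h1 : ∀ x : ZMod 2, x ≠ 0 → x = 1 := by decide
  exact h1 x h

private theorem Y1_zero (D : Dat2 ι κ) {w : κ → ZMod 2} (r : ι → ZMod 2) (Phi : L → L → ZMod 2)
    {n : L → ℝ} (hn : ∀ x, 0 ≤ n x) (P : Finset L) (Q : L → ZMod 2) (c : L → κ → ZMod 2)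
    {τ : L → ι → ℂ} (hτ : ∀ x q, ‖τ x q‖ = 1) {q : ι}
    (hq : D.dg w q = 0) (Z : Finset L) :
    ∑ l ∈ Z, ‖(LYt D w r Phi n P Q c τ).g l q‖ = ∑ x ∈ Z, n x := by
  refine sum_congr rfl fun x _ => ?_
  rw [gYt_zero D r Phi n P Q c τ hq, norm_mul, norm_mul, norm_e2, hτ, mul_one, mul_one,
    Complex.norm_real, Real.norm_eq_abs, abs_of_nonneg (hn x)]

private theorem Y1_ne (D : Dat2 ι κ) {w : κ → ZMod 2} (r : ι → ZMod 2) (Phi : L → L → ZMod 2)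
    (n : L → ℝ) (P : Finset L) (Q : L → ZMod 2) (c : L → κ → ZMod 2) {τ : L → ι → ℂ}
    (hτ : ∀ x q, ‖τ x q‖ = 1) {q : ι}
    (hq : D.dg w q ≠ 0) (Z : Finset L) :
    ∑ l ∈ Z, ‖(LYt D w r Phi n P Q c τ).g l q‖ = ((Z ∩ P).card : ℝ) := by
  have h1 : ∀ x ∈ Z, ‖(LYt D w r Phi n P Q c τ).g x q‖ =
      if x ∈ P then (1 : ℝ) else 0 := by
    intro x _
    by_cases hx : x ∈ P
    · rw [if_pos hx, gYt_one D r Phi n P Q c τ hq hx, norm_mul, norm_e2, hτ, mul_one]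
    · rw [if_neg hx, gYt_ne D r Phi n P Q c τ hq hx, norm_zero]
  rw [sum_congr rfl h1, ← sum_filter, sum_const, nsmul_eq_mul, filter_mem_eq_inter, mul_one]

private theorem Y1_cap {Z P : Finset L} {x : L} (hx : x ∈ P) (hxZ : x ∉ Z) :
    (Z ∩ P).card + 1 ≤ P.card := by
  have h1 : Z ∩ P ⊆ P.erase x := by
    intro y hy
    rw [mem_inter] at hy
    refine mem_erase.2 ⟨?_, hy.2⟩
    rintro rfl
    exact hxZ hy.1
  have h2 := card_le_card h1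
  have h3 := card_erase_add_one hx
  omega

/-- The small sets. -/
theorem LYt_small {C : Type} {col : L → C} {Phi : L → L → ZMod 2} {n : L → ℝ} {h M : ℕ}
    {Us : Finset (Finset L)} {P : Finset L} {Q : L → ZMod 2} (hW : WYh col Phi n h M Us P Q)
    {D : Dat2 ι κ} {w : κ → ZMod 2} (hD : OKw D w) (r : ι → ZMod 2) (c : L → κ → ZMod 2)
    {τ : L → ι → ℂ} (hτ : ∀ x q, ‖τ x q‖ = 1) :
    ∃ B, ∀ Z, (LYt D w r Phi n P Q c τ).Unl Z → Z ∉ UY Us P → ∃ ψ : ι → ℝ, SumB ψ B ∧ ∀ q,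
      ∑ l ∈ Z, ‖(LYt D w r Phi n P Q c τ).g l q‖ ≤ h ∧
        ∑ l ∈ Z, ‖(LYt D w r Phi n P Q c τ).g l q‖ ≤ ((h * (2 * M : ℕ) - 1 : ℝ) + ψ q) / (2 * M : ℕ) := by
  classical
  obtain ⟨C, hC⟩ := hD.cb
  obtain ⟨Cn, hCn⟩ := hD.cbn
  have hCw := SumB.of (hC ∅ w (Or.inr hD.w0))
  have hM2 : (2 : ℝ) ≤ (M : ℝ) := by exact_mod_cast hW.ws.two
  have hM0 : (0 : ℝ) < (M : ℝ) := by linarith
  have hn : ∀ x, 0 ≤ n x := hW.n0
  have hMQ : ((2 * M : ℕ) : ℝ) = 2 * (M : ℝ) := by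
    push_cast
    rfl
  have hMQ0 : (0 : ℝ) < ((2 * M : ℕ) : ℝ) := by
    rw [hMQ]
    linarith
  have hcap : ∀ Z : Finset L, ((Z ∩ P).card : ℝ) ≤ h := by
    intro Z
    rw [← hW.card]
    exact_mod_cast card_le_card inter_subset_right
  refine ⟨max (C * (1 + Real.log (nm (∅ : Finset ι)))) Cn, fun Z hZ hZ2 => ?_⟩
  by_cases hU : Z ∈ Us
  · have hx : ∃ x ∈ P, x ∉ Z := by
      by_contra hcon
      push Not at hcon
      exact hZ2 (mem_UY.2 ⟨hU, hcon⟩)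
    obtain ⟨x, hx, hxZ⟩ := hx
    refine ⟨D.ch ∅ w, hCw.mono (le_max_left _ _), fun q => ?_⟩
    rw [Pool.Agent.Lib.MP_1a91b9_ntW.ch_empty]
    by_cases hq : D.dg w q = 0
    · rw [Y1_zero D r Phi hn P Q c hτ hq, hW.ws.sum Z hU, hq, sg2_zero]
      refine ⟨le_refl _, ?_⟩
      rw [sub_add_cancel, mul_div_assoc, div_self hMQ0.ne', mul_one]
    · rw [Y1_ne D r Phi n P Q c hτ hq, Y1_z2_one hq, Pool.Agent.Lib.MP_1a91b9_ntQ.sg2_one]
      refine ⟨hcap Z, ?_⟩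
      have h2 : ((Z ∩ P).card : ℝ) + 1 ≤ h := by
        rw [← hW.card]
        exact_mod_cast Y1_cap hx hxZ
      have h3 : ((h : ℝ) * ((2 * M : ℕ) : ℝ) - 1 + -1) / ((2 * M : ℕ) : ℝ) = h - 1 / (M : ℝ) := by
        rw [hMQ]
        field_simp
        ring
      rw [h3]
      have h4 : 1 / (M : ℝ) ≤ 1 := by
        rw [div_le_one hM0]
        linarith
      linarith
  · have h1 := hW.ws.small Z (fun x hx y hy => by
      have := hZ x hx y hy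
      rwa [LYt_lk] at this) hU
    refine ⟨fun q => -D.ch ∅ w q, hCn.mono (le_max_right _ _), fun q => ?_⟩
    beta_reduce
    rw [Pool.Agent.Lib.MP_1a91b9_ntW.ch_empty]
    by_cases hq : D.dg w q = 0
    · rw [Y1_zero D r Phi hn P Q c hτ hq, hq, sg2_zero]
      have h2 : 0 ≤ 1 / (M : ℝ) := by positivity
      refine ⟨by linarith, h1.trans (le_of_eq ?_)⟩
      rw [hMQ]
      field_simp
      ring
    · rw [Y1_ne D r Phi n P Q c hτ hq, Y1_z2_one hq, Pool.Agent.Lib.MP_1a91b9_ntQ.sg2_one]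
      refine ⟨hcap Z, (hcap Z).trans (le_of_eq ?_)⟩
      rw [neg_neg, sub_add_cancel, mul_div_assoc, div_self hMQ0.ne', mul_one]

end

end Pool.Agent.Lib.MP_1a91b9_ntMN
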