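import Pool.Agent.Lib.MP_1a91b9_ntMN.Y2

/-!
# MP_1a91b9_nt (multiquadratic fields, natural density), block Y: the mean values of the maximal unlinked sets
-/

set_option autoImplicit false
set_option linter.unusedSectionVars false

namespace Pool.Agent.Lib.MP_1a91b9_ntMN

open Finset Pool.Agent.Lib.MP_1a91b9_ntH Pool.Agent.Lib.MP_1a91b9_ntQ
open Pool.Agent.Lib.MP_1a91b9_ntQ.Da Pool.Agent.Lib.MP_1a91b9_ntV Pool.Agent.Lib.MP_1a91b9_ntM
open Pool.Agent.Lib.MP_1a91b9_ntDV Pool.Agent.Lib.MP_1a91b9_ntMQ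
open Pool.Agent.Lib.MP_1a91b9_ntW (OKw)

noncomputable section

/-- The sums of `∏ (h ψ)` are small if the mean value of `ψ` is zero. -/
def MH (ι : Type) [DecidableEq ι] [PS ι] (h : ℕ) : Prop :=
  ∀ ψ : ι → ℂ, (∀ q, ‖ψ q‖ ≤ 1) → Mz ∅ ψ → ∀ ε : ℝ, 0 < ε → ∃ X₀ : ℕ, ∀ X : ℕ, X₀ ≤ X →
    ‖∑ S ∈ Sx ι X, ∏ q ∈ S, ((h : ℂ) * ψ q)‖ ≤ ε * Yh h X

variable {L : Type} [Fintype L] [DecidableEq L] {ι : Type} [DecidableEq ι] {κ : Type} [Fintype κ]
  [DecidableEq κ] [PS ι]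

private theorem Y3_small (δ K B ε : ℝ) (hδ : 0 < δ) (hK : 0 < K) (hB : 1 ≤ B) (hε : 0 < ε) (h : ℕ) :
    ∃ X₀ : ℕ, ∀ X : ℕ, X₀ ≤ X → K * Yh h X * Real.log X ^ (-δ) * B ^ δ ≤ ε * Yh h X := by
  have h1 : Filter.Tendsto (fun X : ℕ => Real.log (X : ℝ) ^ (-δ)) Filter.atTop (nhds 0) :=
    (tendsto_rpow_neg_atTop hδ).comp
      (Real.tendsto_log_atTop.comp tendsto_natCast_atTop_atTop)
  have hP : 0 < K * B ^ δ := mul_pos hK (Real.rpow_pos_of_pos (by linarith) _)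
  have h2 : ∀ᶠ X : ℕ in Filter.atTop, Real.log (X : ℝ) ^ (-δ) < ε / (K * B ^ δ) :=
    h1.eventually (gt_mem_nhds (div_pos hε hP))
  obtain ⟨X₀, h3⟩ := Filter.eventually_atTop.1 h2
  refine ⟨X₀, fun X hX => ?_⟩
  have h4 := h3 X hX
  rw [lt_div_iff₀ hP] at h4
  have h5 : K * Yh h X * Real.log X ^ (-δ) * B ^ δ = (Real.log (X : ℝ) ^ (-δ) * (K * B ^ δ)) * Yh h X := by
    ring
  rw [h5]
  exact mul_le_mul_of_nonneg_right h4.le (Yh_nonneg h X)

private theorem Y3_one {x : ZMod 2} (h : x ≠ 0) : x = 1 := by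
  have h1 : ∀ x : ZMod 2, x ≠ 0 → x = 1 := by decide
  exact h1 x h

private theorem Y3_eq {x y : ZMod 2} (h : x + y = 0) : x = y := by
  have h1 : ∀ x y : ZMod 2, x + y = 0 → x = y := by decide
  exact h1 x y h

section Dich

variable {C : Type} {col : L → C} {Phi : L → L → ZMod 2} {n : L → ℝ} {h M : ℕ}
    {Us : Finset (Finset L)} {P : Finset L} {Q : L → ZMod 2}

private theorem Y3_g0 (hW : WYh col Phi n h M Us P Q) (D : Dat2 ι κ) {w : κ → ZMod 2} (r : ι → ZMod 2)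
    (c : L → κ → ZMod 2) (τ : L → ι → ℂ) {U : Finset L} (hU : U ∈ UY Us P) {q : ι} (hq : D.dg w q = 0) :
    ∑ x ∈ U, (LYt D w r Phi n P Q c τ).g x q = ∑ x ∈ U, (n x : ℂ) * (τ x q * e2 (D.dg (c x) q)) := by
  refine sum_congr rfl fun x hx => ?_
  rw [gYt_zero D r Phi n P Q c τ hq, hW.q U (mem_UY.1 hU).1 (mem_UY.1 hU).2 x hx, mul_zero, zero_add]

private theorem Y3_g1 (D : Dat2 ι κ) {w : κ → ZMod 2} (r : ι → ZMod 2)
    (c : L → κ → ZMod 2) (τ : L → ι → ℂ) {U : Finset L} (hU : U ∈ UY Us P) {q : ι} (hq : D.dg w q ≠ 0) :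
    ∑ x ∈ U, (LYt D w r Phi n P Q c τ).g x q = ∑ x ∈ P, (((1 : ℝ) : ℝ) : ℂ) * (τ x q * e2 (D.dg (c x) q)) := by
  rw [← sum_subset (mem_UY.1 hU).2 fun x _ hx => gYt_ne D r Phi n P Q c τ hq hx]
  refine sum_congr rfl fun x hx => ?_
  rw [gYt_one D r Phi n P Q c τ hq hx, Complex.ofReal_one, one_mul]

private theorem Y3_unit {τ : L → ι → ℂ} (hτ : ∀ x q, ‖τ x q‖ = 1) (D : Dat2 ι κ) (c : L → κ → ZMod 2)
    (q : ι) (x : L) : ‖τ x q * e2 (D.dg (c x) q)‖ = 1 := by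
  rw [norm_mul, hτ, norm_e2, mul_one]

private theorem Y3_nrm (hW : WYh col Phi n h M Us P Q) (D : Dat2 ι κ) {w : κ → ZMod 2} (r : ι → ZMod 2)
    (c : L → κ → ZMod 2) {τ : L → ι → ℂ} (hτ : ∀ x q, ‖τ x q‖ = 1) {U : Finset L} (hU : U ∈ UY Us P) (q : ι) :
    ‖∑ x ∈ U, (LYt D w r Phi n P Q c τ).g x q‖ ≤ h := by
  by_cases hq : D.dg w q = 0
  · rw [Y3_g0 hW D r c τ hU hq]
    refine (norm_sum_le _ _).trans (le_of_eq ?_)
    rw [← hW.ws.sum U (mem_UY.1 hU).1]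
    refine sum_congr rfl fun x _ => ?_
    rw [norm_mul, Y3_unit hτ, mul_one, Complex.norm_real, Real.norm_of_nonneg (hW.n0 x)]
  · rw [Y3_g1 D r c τ hU hq]
    refine (norm_sum_le _ _).trans (le_of_eq ?_)
    have h1 : ∀ x ∈ P, ‖(((1 : ℝ) : ℝ) : ℂ) * (τ x q * e2 (D.dg (c x) q))‖ = 1 := by
      intro x _
      rw [Complex.ofReal_one, one_mul, Y3_unit hτ]
    rw [sum_congr rfl h1, sum_const, nsmul_eq_mul, mul_one, hW.card]

private theorem Y3_norm (D : Dat2 ι κ) {w : κ → ZMod 2} (r : ι → ZMod 2)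
    (c : L → κ → ZMod 2) {τ : L → ι → ℂ} {U : Finset L} (X : ℕ) :
    ‖∑ S ∈ Sx ι X, ∏ q ∈ S, ∑ x ∈ U, (LYt D w r Phi n P Q c τ).g x q‖ ≤
      ∑ S ∈ Sx ι X, ∏ q ∈ S, ‖∑ x ∈ U, (LYt D w r Phi n P Q c τ).g x q‖ := by
  refine (norm_sum_le _ _).trans (sum_le_sum fun S _ => ?_)
  rw [norm_prod]

private theorem Y3_G (hW : WYh col Phi n h M Us P Q) (D : Dat2 ι κ) {w : κ → ZMod 2} (r : ι → ZMod 2)
    (c : L → κ → ZMod 2) {τ : L → ι → ℂ} (hc : ∀ x y, col x = col y → τ x = τ y) {x₀ : L}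
    (hA : ∀ x ∈ P, ∀ q, τ x q * e2 (D.dg (c x) q) = τ x₀ q * e2 (D.dg (c x₀) q)) {U : Finset L}
    (hU : U ∈ UY Us P)
    (hB : ∀ x ∈ U, ∀ y ∈ P, col y = col x → c x + c y = 0 ∨ c x + c y = w) (q : ι) :
    ∑ x ∈ U, (LYt D w r Phi n P Q c τ).g x q = (h : ℂ) * (τ x₀ q * e2 (D.dg (c x₀) q)) := by
  by_cases hq0 : D.dg w q = 0
  · rw [Y3_g0 hW D r c τ hU hq0]
    have h1 : ∀ x ∈ U, (n x : ℂ) * (τ x q * e2 (D.dg (c x) q)) =
        (n x : ℂ) * (τ x₀ q * e2 (D.dg (c x₀) q)) := by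
      intro x hx
      obtain ⟨y, hy, hxy⟩ := hW.col x
      have h2 : D.dg (c x) q = D.dg (c y) q := by
        refine Y3_eq ?_
        rw [← dg_add]
        rcases hB x hx y hy hxy with h3 | h3
        · rw [h3, dg_zero]
        · rw [h3, hq0]
      rw [h2, ← hc y x hxy, hA y hy q]
    rw [sum_congr rfl h1, ← sum_mul, ← Complex.ofReal_sum, hW.ws.sum U (mem_UY.1 hU).1,
      Complex.ofReal_natCast]
  · rw [Y3_g1 D r c τ hU hq0]
    have h1 : ∀ x ∈ P, (((1 : ℝ) : ℝ) : ℂ) * (τ x q * e2 (D.dg (c x) q)) =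
        τ x₀ q * e2 (D.dg (c x₀) q) := by
      intro x hx
      rw [Complex.ofReal_one, one_mul, hA x hx q]
    rw [sum_congr rfl h1, sum_const, nsmul_eq_mul, hW.card]

/-- **The dichotomy.** The sum over a maximal unlinked set is small, or all the characters are equal. -/
theorem LYt_dich (hW : WYh col Phi n h M Us P Q) {D : Dat2 ι κ} {w : κ → ZMod 2} (hD : OKw D w)
    (r : ι → ZMod 2) (c : L → κ → ZMod 2) {τ : L → ι → ℂ} (hτ : ∀ x q, ‖τ x q‖ = 1)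
    (hc : ∀ x y, col x = col y → τ x = τ y) {x₀ : L} (hx₀ : x₀ ∈ P) (E : L → Prop) (hE0 : E x₀)
    (hE : ∀ x ∈ P, (E x ∧ ∀ q, τ x q * e2 (D.dg (c x) q) = τ x₀ q * e2 (D.dg (c x₀) q)) ∨
      Mz ∅ (fun q => (τ x q * e2 (D.dg (c x) q)) * (starRingEnd ℂ) (τ x₀ q * e2 (D.dg (c x₀) q))))
    {U : Finset L} (hU : U ∈ UY Us P) :
    (∀ ε : ℝ, 0 < ε → ∃ X₀ : ℕ, ∀ X : ℕ, X₀ ≤ X →
      ‖∑ S ∈ Sx ι X, ∏ q ∈ S, ∑ x ∈ U, (LYt D w r Phi n P Q c τ).g x q‖ ≤ ε * Yh h X) ∨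
    ((∀ x ∈ P, E x) ∧ (∀ x ∈ U, ∀ y ∈ P, col y = col x → c x + c y = 0 ∨ c x + c y = w) ∧
      ∀ q, ∑ x ∈ U, (LYt D w r Phi n P Q c τ).g x q = (h : ℂ) * (τ x₀ q * e2 (D.dg (c x₀) q))) := by
  classical
  obtain ⟨hUs, hPU⟩ := mem_UY.1 hU
  have hsum := hW.ws.sum U hUs
  have hM2' := hW.ws.two
  have hM8r : (2 : ℝ) ≤ (M : ℝ) := by exact_mod_cast hM2'
  have hMr0 : (0 : ℝ) < (M : ℝ) := by linarith
  have h0U : x₀ ∈ U := hPU hx₀
  by_cases hA : ∀ x ∈ P, E x ∧ ∀ q, τ x q * e2 (D.dg (c x) q) = τ x₀ q * e2 (D.dg (c x₀) q)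
  · by_cases hB : ∃ l ∈ U, ∃ y ∈ P, col y = col l ∧ c l + c y ≠ 0 ∧ c l + c y ≠ w
    · obtain ⟨l, hl, y, hy, hcol, hc0, hcw⟩ := hB
      left
      intro ε hε
      have hly : l ≠ y := by
        rintro rfl
        apply hc0
        funext j
        exact z2_add_self _
      obtain ⟨C', hC1, hC⟩ := Pool.Agent.Lib.MP_1a91b9_ntW.psiW_sumB hD
      have hS := hC ∅ (c l + c y) (Or.inr ⟨hc0, hcw⟩)
      obtain ⟨MQ, hMQ⟩ : ∃ MQ : ℕ, MQ = 2 * M := ⟨_, rfl⟩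
      have hMQr : (MQ : ℝ) = 2 * (M : ℝ) := by
        rw [hMQ]
        push_cast
        ring
      have hm0 : (0 : ℝ) < (MQ : ℝ) := by
        rw [hMQr]
        linarith
      have hH : ∀ q, ‖∑ x ∈ U, (LYt D w r Phi n P Q c τ).g x q‖ ≤
          ((h * MQ - 1 : ℝ) + Pool.Agent.Lib.MP_1a91b9_ntW.psiW D w ∅ (c l + c y) q) / (MQ : ℝ) := by
        intro q
        by_cases hq0 : D.dg w q = 0
        · rw [Y3_g0 hW D r c τ hU hq0, Pool.Agent.Lib.MP_1a91b9_ntW.psiW_zero hq0]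
          have hns := norm_wsumC U n hW.n0 (fun x => τ x q * e2 (D.dg (c x) q))
            (fun x => Y3_unit hτ D c q x) (a := 2 / (M : ℝ)) (by positivity) hl (hPU hy) hly
            (hW.ws.pos l) (hW.ws.pos _)
          have hcc : τ y q = τ l q := congrFun (hc y l hcol) q
          have hsg : sg (D.dg (c l) q + D.dg (c y) q) = D.ch ∅ (c l + c y) q := by
            rw [Pool.Agent.Lib.MP_1a91b9_ntW.ch_empty, dg_add]
          rw [hcc, conj_tau (hτ l q), hsg, hsum] at hns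
          refine hns.trans (le_of_eq ?_)
          rw [hMQr]
          field_simp
          ring
        · rw [Pool.Agent.Lib.MP_1a91b9_ntW.psiW_one hq0]
          refine (Y3_nrm hW D r c hτ hU q).trans (le_of_eq ?_)
          rw [sub_add_cancel, mul_div_assoc, div_self hm0.ne', mul_one]
      obtain ⟨C1, hC1⟩ := hD.an.cheb
      obtain ⟨C2, hC2⟩ := hD.an.zt
      obtain ⟨K, hK, hub⟩ := ubh hC1 hC2 h MQ hW.ws.hp (by omega)
      obtain ⟨X₀, hX₀⟩ := Y3_small (1 / (MQ : ℝ)) K _ ε (by positivity) hK hS.hB hε h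
      refine ⟨max X₀ 2, fun X hX => ?_⟩
      have h2 := hub _ _ hS (fun q => ‖∑ x ∈ U, (LYt D w r Phi n P Q c τ).g x q‖)
        (fun q => ⟨norm_nonneg _, Y3_nrm hW D r c hτ hU q, hH q⟩) X ((le_max_right _ _).trans hX)
      have h3 := hX₀ X ((le_max_left _ _).trans hX)
      exact (Y3_norm D r c X).trans (h2.trans h3)
    · push Not at hB
      right
      have hB' : ∀ x ∈ U, ∀ y ∈ P, col y = col x → c x + c y = 0 ∨ c x + c y = w := by
        intro x hx y hy hxy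
        by_cases h0 : c x + c y = 0
        · exact Or.inl h0
        · exact Or.inr (hB x hx y hy hxy h0)
      exact ⟨fun x hx => (hA x hx).1, hB', Y3_G hW D r c hc (fun x hx => (hA x hx).2) hU hB'⟩
  · left
    push Not at hA
    obtain ⟨x, hx, hxE⟩ := hA
    have hmz : Mz ∅ (fun q => (τ x q * e2 (D.dg (c x) q)) * (starRingEnd ℂ) (τ x₀ q * e2 (D.dg (c x₀) q))) := by
      rcases hE x hx with h1 | h1
      · obtain ⟨q, hq⟩ := hxE h1.1
        exact absurd (h1.2 q) hq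
      · exact h1
    have hne : x ≠ x₀ := by
      rintro rfl
      obtain ⟨q, hq⟩ := hxE hE0
      exact hq rfl
    intro ε hε
    obtain ⟨C1, hC1⟩ := hD.an.cheb
    obtain ⟨C2, hC2⟩ := hD.an.zt
    obtain ⟨X₀, hX₀⟩ := mz_mean hC1 hC2 h M hW.ws.hp (by omega) (fun q => by
      rw [norm_mul, RCLike.norm_conj, Y3_unit hτ, Y3_unit hτ, mul_one]) hmz ε hε
    refine ⟨X₀, fun X hX => (Y3_norm D r c X).trans (hX₀ _ (fun q => ⟨norm_nonneg _,
      Y3_nrm hW D r c hτ hU q, ?_⟩) X hX)⟩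
    have hle : (1 - ((τ x q * e2 (D.dg (c x) q)) * (starRingEnd ℂ) (τ x₀ q * e2 (D.dg (c x₀) q))).re) ≥ 0 := by
      have h1 := Complex.re_le_norm ((τ x q * e2 (D.dg (c x) q)) * (starRingEnd ℂ) (τ x₀ q * e2 (D.dg (c x₀) q)))
      rw [norm_mul, RCLike.norm_conj, Y3_unit hτ, Y3_unit hτ, mul_one] at h1
      linarith
    by_cases hq0 : D.dg w q = 0
    · rw [Y3_g0 hW D r c τ hU hq0]
      have hns := norm_wsumC U n hW.n0 (fun x => τ x q * e2 (D.dg (c x) q))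
        (fun x => Y3_unit hτ D c q x) (a := 2 / (M : ℝ)) (by positivity) (hPU hx) h0U hne
        (hW.ws.pos x) (hW.ws.pos _)
      rw [hsum] at hns
      refine hns.trans (le_of_eq ?_)
      field_simp
      ring
    · rw [Y3_g1 D r c τ hU hq0]
      have hns := norm_wsumC P (fun _ => (1 : ℝ)) (fun _ => zero_le_one)
        (fun x => τ x q * e2 (D.dg (c x) q)) (fun x => Y3_unit hτ D c q x) (a := 1) zero_le_one
        hx hx₀ hne le_rfl le_rfl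
      rw [sum_const, nsmul_eq_mul, mul_one, hW.card] at hns
      refine hns.trans ?_
      have h7 : ((h : ℝ) * M - 1 + ((τ x q * e2 (D.dg (c x) q)) *
          (starRingEnd ℂ) (τ x₀ q * e2 (D.dg (c x₀) q))).re) / M =
          h - 1 / M * (1 - ((τ x q * e2 (D.dg (c x) q)) *
          (starRingEnd ℂ) (τ x₀ q * e2 (D.dg (c x₀) q))).re) := by
        field_simp
        ring
      rw [h7]
      have h8 : 1 / (M : ℝ) ≤ 1 / 2 := one_div_le_one_div_of_le (by norm_num) hM8r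
      have h9 := mul_le_mul_of_nonneg_right h8 hle
      linarith

/-- **The mean values**, without twists. -/
theorem LYt_main0 (hM : MH ι h) (hW : WYh col Phi n h M Us P Q) {D : Dat2 ι κ} {w : κ → ZMod 2} (hD : OKw D w)
    (r : ι → ZMod 2) (c : L → κ → ZMod 2) : ∀ U ∈ UY Us P, ∀ ε : ℝ, 0 < ε → ∃ X₀ : ℕ, ∀ X : ℕ, X₀ ≤ X →
      ‖∑ S ∈ Sx ι X, ∏ q ∈ S, ∑ x ∈ U, (LYt D w r Phi n P Q c fun _ _ => 1).g x q -
        mY w P c U * (NN ι h X : ℂ)‖ ≤ ε * Yh h X := by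
  classical
  intro U hU ε hε
  obtain ⟨x₀, hx₀⟩ := hW.ne
  by_cases hm : (∀ x ∈ P, c x = 0) ∧ ∀ x ∈ U, c x = 0 ∨ c x = w
  · have hmY : mY w P c U = 1 := by
      unfold mY
      exact if_pos hm
    have hG := Y3_G hW D r c (w := w) (τ := fun _ _ => 1) (fun _ _ _ => rfl) (x₀ := x₀)
      (fun x hx q => by rw [hm.1 x hx, hm.1 x₀ hx₀]) hU (fun x hx y hy _ => by
        rw [hm.1 y hy, add_zero]
        exact hm.2 x hx)
    refine ⟨0, fun X _ => ?_⟩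
    have h1 : ∑ S ∈ Sx ι X, ∏ q ∈ S, ∑ x ∈ U, (LYt D w r Phi n P Q c fun _ _ => 1).g x q =
        (NN ι h X : ℂ) := by
      unfold NN
      push_cast
      refine sum_congr rfl fun S _ => ?_
      rw [prod_congr rfl fun q _ => hG q]
      have h2 : ∀ q : ι, (h : ℂ) * ((1 : ℂ) * e2 (D.dg (c x₀) q)) = h := by
        intro q
        rw [hm.1 x₀ hx₀, dg_zero, e2_zero, one_mul, mul_one]
      rw [prod_congr rfl fun q _ => h2 q, prod_const]
    rw [h1, hmY, one_mul, sub_self, norm_zero]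
    exact mul_nonneg hε.le (Yh_nonneg h X)
  · have hmY : mY w P c U = 0 := by
      unfold mY
      exact if_neg hm
    simp only [hmY, zero_mul, sub_zero]
    have hE : ∀ x ∈ P, (c x = c x₀ ∧ ∀ q, (1 : ℂ) * e2 (D.dg (c x) q) = 1 * e2 (D.dg (c x₀) q)) ∨
        Mz ∅ (fun q => ((1 : ℂ) * e2 (D.dg (c x) q)) * (starRingEnd ℂ) (1 * e2 (D.dg (c x₀) q))) := by
      intro x hx
      by_cases hxx : c x = c x₀
      · left
        exact ⟨hxx, fun q => by rw [hxx]⟩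
      · right
        have h0 : c x + c x₀ ≠ 0 := by
          intro h0
          apply hxx
          funext j
          exact Y3_eq (congrFun h0 j)
        have h6 := hD.mz (c x + c x₀) h0
        have h7 : (fun q => ((1 : ℂ) * e2 (D.dg (c x) q)) * (starRingEnd ℂ) ((1 : ℂ) * e2 (D.dg (c x₀) q))) =
            fun q => e2 (D.ex1 ∅ (c x + c x₀) q) := by
          funext q
          have h8 : (starRingEnd ℂ) (e2 (D.dg (c x₀) q)) = e2 (D.dg (c x₀) q) := by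
            unfold e2
            exact Complex.conj_ofReal _
          rw [one_mul, one_mul, h8, ← e2_add, ex1_empty, dg_add]
        rw [h7]
        exact h6
    rcases LYt_dich hW hD r c (τ := fun _ _ => 1) (fun _ _ => norm_one) (fun _ _ _ => rfl) hx₀
      (fun x => c x = c x₀) rfl hE hU with h1 | ⟨h1, h2, h3⟩
    · exact h1 ε hε
    · have h0 : c x₀ ≠ 0 := by
        intro h0
        refine hm ⟨fun x hx => (h1 x hx).trans h0, fun x hx => ?_⟩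
        obtain ⟨y, hy, hxy⟩ := hW.col x
        have h4 := h2 x hx y hy hxy
        rwa [h1 y hy, h0, add_zero] at h4
      have h5 : Mz ∅ (fun q => e2 (D.dg (c x₀) q)) := by
        have h6 := hD.mz (c x₀) h0
        simpa only [ex1_empty] using h6
      obtain ⟨X₀, hX₀⟩ := hM _ (fun q => (norm_e2 _).le) h5 ε hε
      refine ⟨X₀, fun X hX => ?_⟩
      have h6 := hX₀ X hX
      have h7 : ∀ q, ∑ x ∈ U, (LYt D w r Phi n P Q c fun _ _ => 1).g x q = (h : ℂ) * e2 (D.dg (c x₀) q) := by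
        intro q
        rw [h3 q, one_mul]
      simp only [h7]
      exact h6

/-- **The mean values**, with a twist which is not a class character. -/
theorem LYt_mainF (hM : MH ι h) (hW : WYh col Phi n h M Us P Q) {D : Dat2 ι κ} {w : κ → ZMod 2} (hD : OKw D w)
    (r : ι → ZMod 2) (c : L → κ → ZMod 2) {τ : L → ι → ℂ} (hτ : ∀ x q, ‖τ x q‖ = 1)
    (hc : ∀ x y, col x = col y → τ x = τ y) {x₀ : L} (hx₀ : x₀ ∈ P)
    (hE : ∀ x ∈ P, (∀ q, τ x q * e2 (D.dg (c x) q) = τ x₀ q * e2 (D.dg (c x₀) q)) ∨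
      Mz ∅ (fun q => (τ x q * e2 (D.dg (c x) q)) * (starRingEnd ℂ) (τ x₀ q * e2 (D.dg (c x₀) q))))
    (hF : Mz ∅ (fun q => τ x₀ q * e2 (D.dg (c x₀) q))) :
    ∀ U ∈ UY Us P, ∀ ε : ℝ, 0 < ε → ∃ X₀ : ℕ, ∀ X : ℕ, X₀ ≤ X →
      ‖∑ S ∈ Sx ι X, ∏ q ∈ S, ∑ x ∈ U, (LYt D w r Phi n P Q c τ).g x q -
        0 * (NN ι h X : ℂ)‖ ≤ ε * Yh h X := by
  intro U hU ε hε
  simp only [zero_mul, sub_zero]
  rcases LYt_dich hW hD r c hτ hc hx₀ (fun _ => True) trivial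
    (fun x hx => (hE x hx).imp_left fun h1 => ⟨trivial, h1⟩) hU with h1 | ⟨-, -, h3⟩
  · exact h1 ε hε
  · obtain ⟨X₀, hX₀⟩ := hM _ (fun q => (Y3_unit hτ D c q x₀).le) hF ε hε
    refine ⟨X₀, fun X hX => ?_⟩
    simp only [h3]
    exact hX₀ X hX

end Dich

end

end Pool.Agent.Lib.MP_1a91b9_ntMN
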