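import Pool.Agent.Lib.MP_1a91b9_ntMN.Y1
import Pool.Agent.Lib.MP_1a91b9_ntMN.Y3

/-!
# MP_1a91b9_nt (multiquadratic fields, natural density), block Y: the hypotheses of the engine
-/

set_option autoImplicit false
set_option linter.unusedSectionVars false

namespace Pool.Agent.Lib.MP_1a91b9_ntMN

open Finset Pool.Agent.Lib.MP_1a91b9_ntH Pool.Agent.Lib.MP_1a91b9_ntQ
open Pool.Agent.Lib.MP_1a91b9_ntQ.Da Pool.Agent.Lib.MP_1a91b9_ntV Pool.Agent.Lib.MP_1a91b9_ntM
open Pool.Agent.Lib.MP_1a91b9_ntDV Pool.Agent.Lib.MP_1a91b9_ntMQ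
open Pool.Agent.Lib.MP_1a91b9_ntW (OKw)

noncomputable section

variable {L : Type} [Fintype L] [DecidableEq L] {ι : Type} [DecidableEq ι] {κ : Type} [Fintype κ]
  [DecidableEq κ] [PS ι]

/-- The hypotheses of the engine. -/
theorem LYt_OK {C : Type} {col : L → C} {Phi : L → L → ZMod 2} {n : L → ℝ} {h M : ℕ}
    {Us : Finset (Finset L)} {P : Finset L} {Q : L → ZMod 2} (hW : WYh col Phi n h M Us P Q)
    {D : Dat2 ι κ} {w : κ → ZMod 2} (hD : OKw D w) (r : ι → ZMod 2) (c : L → κ → ZMod 2)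
    {τ : L → ι → ℂ} (hτ : ∀ x q, ‖τ x q‖ = 1) (hc : ∀ x y, col x = col y → τ x = τ y)
    {mU : Finset L → ℂ} (hm : ∀ U ∈ UY Us P, ∀ ε : ℝ, 0 < ε → ∃ X₀ : ℕ, ∀ X : ℕ, X₀ ≤ X →
      ‖∑ S ∈ Sx ι X, ∏ q ∈ S, ∑ x ∈ U, (LYt D w r Phi n P Q c τ).g x q -
        mU U * (NN ι h X : ℂ)‖ ≤ ε * Yh h X) :
    OKh (LYt D w r Phi n P Q c τ) D h (2 * M) (UY Us P) mU fun X => (NN ι h X : ℂ) := by
  have hM : (0 : ℝ) < (M : ℝ) := by
    have := hW.ws.two
    positivity
  have hpos : ∀ x, 0 < n x := fun x => lt_of_lt_of_le (by positivity) (hW.ws.pos x)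
  have hlk : ∀ x y, (LYt D w r Phi n P Q c τ).lk x y = Phi x y + Phi y x := fun x y => Phi1_lk Phi x y
  refine
    { diag := fun l => Phi1_self _ l
      os := fun l m => Phi1_os _ l m
      nrm := fun x q => ?_
      two := ?_
      pos := hW.ws.hp
      unl := fun U hU x hx y hy => ?_
      er := fun U hU l hl h => ?_
      small := LYt_small hW hD r c hτ
      mid := LYt_mid hW hD r c hτ hc
      main := hm }
  · by_cases hq : D.dg w q = 0
    · rw [gYt_zero D r Phi n P Q c τ hq, norm_mul, norm_mul, norm_e2, hτ, mul_one, mul_one,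
        Complex.norm_real, Real.norm_eq_abs, abs_of_pos (hpos x)]
      exact hW.ws.le_one x
    · by_cases hx : x ∈ P
      · rw [gYt_one D r Phi n P Q c τ hq hx, norm_mul, norm_e2, hτ, mul_one]
      · rw [gYt_ne D r Phi n P Q c τ hq hx, norm_zero]
        exact zero_le_one
  · have := hW.ws.two
    omega
  · rw [hlk]
    exact hW.ws.unl U (mem_UY.1 hU).1 x hx y hy
  · have h1 := hW.ws.sum U (mem_UY.1 hU).1
    have h2 := hW.ws.sum _ (mem_UY.1 h).1
    have h3 := add_sum_erase U n hl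
    have h4 := hpos l
    linarith

end

end Pool.Agent.Lib.MP_1a91b9_ntMN
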