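import Pool.Agent.Lib.MP_1a91b9_ntMQ.Y7
import Pool.Agent.Lib.MP_1a91b9_ntMN.YEN
import Pool.Agent.Lib.MP_1a91b9_ntMN.Y4
import Pool.Agent.Lib.MP_1a91b9_ntMN.Y6

/-!
# MP_1a91b9_nt (multiquadratic fields, natural density), block Y: the first moment
-/

set_option autoImplicit false
set_option linter.unusedSectionVars false

namespace Pool.Agent.Lib.MP_1a91b9_ntMN

open Finset Pool.Agent.Lib.MP_1a91b9_ntH Pool.Agent.Lib.MP_1a91b9_ntQ
open Pool.Agent.Lib.MP_1a91b9_ntQ.Da Pool.Agent.Lib.MP_1a91b9_ntV Pool.Agent.Lib.MP_1a91b9_ntM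
open Pool.Agent.Lib.MP_1a91b9_ntDV Pool.Agent.Lib.MP_1a91b9_ntMQ
open Pool.Agent.Lib.MP_1a91b9_ntW (OKw gW)

noncomputable section

variable {I A : Type} [Fintype I] [DecidableEq I] [Fintype A] [DecidableEq A] {k : A → ℕ}
  {phi : A → I → ZMod 2} {ι : Type} [DecidableEq ι] {κ : Type} [Fintype κ] [DecidableEq κ]

/-- After the reciprocity law. -/
theorem smI_LYt (D : Dat2 ι κ) {w : κ → ZMod 2}
    (tw : ∀ p q, p ≠ q → D.s p q + D.s q p = D.dg w p * D.dg w q) (r : ι → ZMod 2)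
    (cc : ∀ a, Lab2 (k a) → κ → ZMod 2) (b : I → κ → ZMod 2) (χ : I → ι → ℂ) (S : Finset ι) :
    smI (fun c => twc χ c * FY D w r phi k cc b c) S = ∑ ce : Lc phi k → ZMod 2, Fh (PLc phi k) ce *
      ∑ f : S → Lc phi k,
        (∏ j : S, (LYt D w r (PLc phi k) nLc (PYc phi k) (QYc phi k)
          (fun z => cz cc b z.1 + ce z • w) fun z => twz χ (colc z)).g (f j) j) *
        e2 (∑ j : S, ∑ l : S, (LYt D w r (PLc phi k) nLc (PYc phi k) (QYc phi k)
          (fun z => cz cc b z.1 + ce z • w) fun z => twz χ (colc z)).Phi (f j) (f l) * D.s j l) := by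
  classical
  rw [smI_FY]
  refine (BF_one D tw (PLc phi k) (fun z => PL_self z.1) _ S).trans (sum_congr rfl fun ce _ => ?_)
  congr 1
  unfold BF
  refine sum_congr rfl fun f _ => ?_
  congr 1
  refine prod_congr rfl fun j _ => ?_
  show gYt D w r nLc (PYc phi k) (QYc phi k) (fun z => cz cc b z.1) (fun z => twz χ (colc z)) (f j) j *
      e2 (ce (f j) * D.dg w j) =
    gYt D w r nLc (PYc phi k) (QYc phi k) (fun z => cz cc b z.1 + ce z • w) (fun z => twz χ (colc z)) (f j) j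
  unfold gYt
  split_ifs
  · rw [dg_add, dg_smul, ← add_assoc, e2_add _ (ce (f j) * D.dg w j)]
    ring
  · rw [dg_add, dg_smul, e2_add _ (ce (f j) * D.dg w j)]
    ring
  · rw [mul_zero, zero_mul]

omit [Fintype κ] [DecidableEq κ] in
private theorem Y7_two {w : κ → ZMod 2} (x : κ → ZMod 2) (e : ZMod 2) :
    (x + e • w = 0 ∨ x + e • w = w) ↔ (x = 0 ∨ x = w) := by
  have hw : w + w = 0 := by
    funext j
    exact z2_add_self _
  have hx : x + w = 0 ↔ x = w := by
    constructor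
    · intro h
      have h2 : x + w + w = w := by rw [h, zero_add]
      rwa [add_assoc, hw, add_zero] at h2
    · rintro rfl
      exact hw
  have hx2 : x + w = w ↔ x = 0 := add_eq_right
  have he : e = 0 ∨ e = 1 := by
    revert e
    decide
  rcases he with rfl | rfl
  · rw [zero_smul, add_zero]
  · rw [one_smul, hx, hx2]
    exact or_comm

/-- The value. -/
theorem sum_mYt {w : κ → ZMod 2} (cc : ∀ a, Lab2 (k a) → κ → ZMod 2) (b : I → κ → ZMod 2) :
    ∑ ce : Lc phi k → ZMod 2, Fh (PLc phi k) ce *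
      ∑ U ∈ UY (UsLc phi k) (PYc phi k), mY w (PYc phi k) (fun z => cz cc b z.1 + ce z • w) U =
      vY phi k w cc b := by
  classical
  rw [← sum_mYc w cc b]
  simp only [mul_sum]
  rw [sum_comm]
  refine sum_congr rfl fun U hU => ?_
  obtain ⟨hU1, hU2⟩ := mem_UY.1 hU
  obtain ⟨U', hU', rfl⟩ := mem_UsLc.1 hU1
  by_cases hQ : ∀ x ∈ rs U', cz cc b x.1 = 0 ∨ cz cc b x.1 = w
  · have h2 : mY w (PYc phi k) (fun z => cz cc b z.1) (rs U') =
        if ∀ x ∈ PYc phi k, cz cc b x.1 = 0 then (1 : ℂ) else 0 := by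
      by_cases h : ∀ x ∈ PYc phi k, cz cc b x.1 = 0
      · rw [if_pos h]
        exact if_pos ⟨h, hQ⟩
      · rw [if_neg h]
        exact if_neg fun h3 => h h3.1
    rw [h2]
    refine Eq.trans (sum_congr rfl fun ce _ => ?_)
      (sum_Fh (PLc phi k) (PYc phi k)
        (fun a ha c hc => PL_unl hU' a.1 (mem_rs.1 (hU2 ha)) c.1 (mem_rs.1 (hU2 hc))) w
        fun x => cz cc b x.1)
    refine congrArg (fun t => Fh (PLc phi k) ce * t) ?_
    by_cases h : ∀ x ∈ PYc phi k, cz cc b x.1 + ce x • w = 0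
    · rw [if_pos h]
      exact if_pos ⟨h, fun x hx => (Y7_two _ _).2 (hQ x hx)⟩
    · rw [if_neg h]
      exact if_neg fun h3 => h h3.1
  · have h2 : mY w (PYc phi k) (fun z => cz cc b z.1) (rs U') = 0 := if_neg fun h => hQ h.2
    rw [h2]
    refine sum_eq_zero fun ce _ => ?_
    have h3 : mY w (PYc phi k) (fun z => cz cc b z.1 + ce z • w) (rs U') = 0 :=
      if_neg fun h => hQ fun x hx => (Y7_two _ (ce x)).1 (h.2 x hx)
    rw [h3, mul_zero]

variable [PS ι]

/-- The first moment from the mean values of the maximal unlinked sets. -/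
private theorem Y7_gen {D : Dat2 ι κ} {w : κ → ZMod 2} (hD : OKw D w) (r : ι → ZMod 2)
    (cc : ∀ a, Lab2 (k a) → κ → ZMod 2) (b : I → κ → ZMod 2) (χ : I → ι → ℂ) {M : ℕ}
    (mU : (Lc phi k → ZMod 2) → Finset (Lc phi k) → ℂ)
    (hOK : ∀ ce, OKh (LYt D w r (PLc phi k) nLc (PYc phi k) (QYc phi k)
      (fun z => cz cc b z.1 + ce z • w) fun z => twz χ (colc z)) D (hI I) M
      (UY (UsLc phi k) (PYc phi k)) (mU ce) fun X => (NN ι (hI I) X : ℂ)) {v : ℂ}
    (hv : ∑ ce : Lc phi k → ZMod 2, Fh (PLc phi k) ce *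
      ∑ U ∈ UY (UsLc phi k) (PYc phi k), mU ce U = v) :
    MV0 (fun c => twc χ c * FY D w r phi k cc b c) v := by
  intro ε hε
  have hN : (0 : ℝ) < 1 + ∑ ce : Lc phi k → ZMod 2, ‖Fh (PLc phi k) ce‖ :=
    add_pos_of_pos_of_nonneg one_pos (sum_nonneg fun _ _ => norm_nonneg _)
  have hε0 : 0 < ε / (1 + ∑ ce : Lc phi k → ZMod 2, ‖Fh (PLc phi k) ce‖) := div_pos hε hN
  choose X0 h0 using fun ce : Lc phi k → ZMod 2 =>
    engH D hD.toOKt.an (LYt D w r (PLc phi k) nLc (PYc phi k) (QYc phi k)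
      (fun z => cz cc b z.1 + ce z • w) fun z => twz χ (colc z)) (hOK ce) _ hε0
  refine ⟨∑ p, X0 p, fun X hX => ?_⟩
  have hXt : ∀ p, X0 p ≤ X := fun p =>
    (single_le_sum (fun _ _ => Nat.zero_le _) (mem_univ p)).trans hX
  have hY0 : 0 ≤ Yh (hI I) X := Yh_nonneg _ X
  have hN0 : 0 ≤ NN ι (hI I) X := NN_nonneg ι _ X
  rw [sum_congr rfl fun S _ => smI_LYt D hD.toOKt.tw r cc b χ S, ← hv, sum_comm, sum_mul,
    ← sum_sub_distrib]
  calc _ ≤ ∑ p : Lc phi k → ZMod 2, ‖Fh (PLc phi k) p‖ *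
        (ε / (1 + ∑ ce : Lc phi k → ZMod 2, ‖Fh (PLc phi k) ce‖) * Yh (hI I) X) := by
        refine (norm_sum_le _ _).trans (sum_le_sum fun p _ => ?_)
        have h2 := h0 p X (hXt p)
        rw [← mul_sum, mul_assoc, ← mul_sub, norm_mul]
        exact mul_le_mul_of_nonneg_left h2 (norm_nonneg _)
    _ = (∑ p : Lc phi k → ZMod 2, ‖Fh (PLc phi k) p‖) /
        (1 + ∑ ce : Lc phi k → ZMod 2, ‖Fh (PLc phi k) ce‖) * (ε * Yh (hI I) X) := by
        rw [← sum_mul]
        ring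
    _ ≤ 1 * (ε * Yh (hI I) X) := by
        refine mul_le_mul_of_nonneg_right ?_ (mul_nonneg hε.le hY0)
        rw [div_le_one hN]
        linarith
    _ ≤ ε * (NN ι (hI I) X + Yh (hI I) X) := by
        rw [one_mul]
        exact mul_le_mul_of_nonneg_left (by linarith) hε.le

section Tw

variable [TwS ι] {D : Dat2 ι κ} {w : κ → ZMod 2}

private theorem Y7_twz (hT : OKT D w) {χ : I → ι → ℂ} (hχ : ∀ i, χ i ∈ (TwS.T : Set (ι → ℂ)))
    (v : I → ZMod 2) : twz χ v ∈ (TwS.T : Set (ι → ℂ)) := by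
  classical
  have h1 : ∀ s : Finset I, (fun q => ∏ i ∈ s, if v i = 1 then χ i q else 1) ∈ (TwS.T : Set (ι → ℂ)) := by
    intro s
    induction s using Finset.induction_on with
    | empty =>
      simp only [prod_empty]
      exact hT.one
    | insert i s hi ih =>
      simp only [prod_insert hi]
      by_cases h : v i = 1
      · simp only [if_pos h]
        exact hT.mul _ (hχ i) _ ih
      · simp only [if_neg h, one_mul]
        exact ih
  exact h1 univ

private theorem Y7_conj {z : ℂ} (hz : ‖z‖ = 1) : (starRingEnd ℂ) z = z⁻¹ := by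
  rw [Complex.inv_def, Complex.normSq_eq_norm_sq, hz]
  simp

private theorem Y7_e2c (x : ZMod 2) : (starRingEnd ℂ) (e2 x) = e2 x := by
  unfold e2
  exact Complex.conj_ofReal _

/-- **THE FIRST MOMENT**, with the twists. -/
theorem MVc_FY [Nonempty I] (hs : Sp phi) {M : ℕ} (hw : WSh colc (PLc phi k) nLc (hI I) M (UsLc phi k))
    (hD : OKw D w) (hT : OKT D w) (r : ι → ZMod 2)
    (cc : ∀ a, Lab2 (k a) → κ → ZMod 2) (b : I → κ → ZMod 2) :
    MVc (FY D w r phi k cc b) (vY phi k w cc b) := by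
  have hW := WYh_L (phi := phi) (k := k) hs hw
  have hM : MH ι (hI I) := mhD hD.toOKt.an _ (one_le_hI I)
  refine ⟨?_, fun χ hχ => ?_⟩
  · have h1 : FY D w r phi k cc b = fun c => twc (fun _ _ => 1) c * FY D w r phi k cc b c := by
      funext c
      unfold twc
      simp only [prod_const_one, one_mul]
    have h2 : (fun z : Lc phi k => twz (fun (_ : I) (_ : ι) => (1 : ℂ)) (colc z)) = fun _ _ => 1 := by
      funext z q
      unfold twz
      simp only [ite_self, prod_const_one]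
    rw [h1]
    refine Y7_gen hD r cc b _ (M := 2 * M)
      (fun ce => mY w (PYc phi k) fun z => cz cc b z.1 + ce z • w) (fun ce => ?_) (sum_mYt cc b)
    rw [h2]
    exact LYt_OK hW hD r _ (fun _ _ => norm_one) (fun _ _ _ => rfl) (LYt_main0 hM hW hD r _)
  · obtain ⟨h1, i₀, h2⟩ := hχ
    have hτ : ∀ (x : Lc phi k) (q : ι), ‖twz χ (colc x) q‖ = 1 := fun x q =>
      hT.nrm _ (Y7_twz hT h1 _) q
    refine Y7_gen hD r cc b χ (M := 2 * M) (fun _ _ => 0) (fun ce => ?_) (by
      simp only [sum_const_zero, mul_zero])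
    have hne : (Pi.single i₀ 1 : I → ZMod 2) ≠ 0 := fun h => by
      have h3 := congrFun h i₀
      rw [Pi.single_eq_same] at h3
      exact one_ne_zero h3
    have h4 : twz χ (Pi.single i₀ 1 : I → ZMod 2) = χ i₀ := by
      funext q
      unfold twz
      rw [prod_eq_single i₀]
      · rw [Pi.single_eq_same, if_pos rfl]
      · intro i _ hi
        rw [Pi.single_eq_of_ne hi, if_neg zero_ne_one]
      · intro h
        exact absurd (mem_univ _) h
    refine LYt_OK hW hD r _ hτ (fun x y h => by rw [h]) (LYt_mainF hM hW hD r _ hτ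
      (fun x y h => by rw [h]) (z0c_mem hne) (fun x _ => ?_) ?_)
    · obtain ⟨y, hy⟩ : ∃ y : Lc phi k, y = z0c phi k _ hne := ⟨_, rfl⟩
      rw [← hy]
      have h5 := hT.di _ (hT.mul _ (Y7_twz hT h1 (colc x)) _ (hT.inv _ (Y7_twz hT h1 (colc y))))
        ((cz cc b x.1 + ce x • w) + (cz cc b y.1 + ce y • w))
      have h6 : ∀ q, (twz χ (colc x) q * e2 (D.dg (cz cc b x.1 + ce x • w) q)) *
          (starRingEnd ℂ) (twz χ (colc y) q * e2 (D.dg (cz cc b y.1 + ce y • w) q)) =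
          (twz χ (colc x) q * (twz χ (colc y) q)⁻¹) *
            e2 (D.dg ((cz cc b x.1 + ce x • w) + (cz cc b y.1 + ce y • w)) q) := by
        intro q
        rw [map_mul, Y7_conj (hτ y q), Y7_e2c, dg_add D (cz cc b x.1 + ce x • w), e2_add]
        ring
      rcases h5 with h5 | h5
      · left
        intro q
        have h7 := h6 q
        rw [h5 q] at h7
        have h8 : ‖twz χ (colc y) q * e2 (D.dg (cz cc b y.1 + ce y • w) q)‖ = 1 := by
          rw [norm_mul, hτ, norm_e2, mul_one]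
        have h9 : twz χ (colc y) q * e2 (D.dg (cz cc b y.1 + ce y • w) q) ≠ 0 := by
          rw [← norm_ne_zero_iff, h8]
          exact one_ne_zero
        rw [Y7_conj h8] at h7
        exact (mul_inv_eq_one₀ h9).1 h7
      · right
        simp only [h6]
        exact h5
    · have h5 := hT.far _ h2 (cz cc b (z0c phi k _ hne).1 + ce (z0c phi k _ hne) • w)
      have h6 : colc (z0c phi k (Pi.single i₀ 1 : I → ZMod 2) hne) = Pi.single i₀ 1 := rfl
      simp only [h6, h4]
      exact h5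

end Tw

end

end Pool.Agent.Lib.MP_1a91b9_ntMN
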