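import Pool.Agent.Lib.MP_1a91b9_ntMQ.B0
import Pool.Agent.Lib.MP_1a91b9_ntMQ.Y13
import Pool.Agent.Lib.MP_1a91b9_ntMN.Y12

/-!
# MP_1a91b9_nt (multiquadratic fields, natural density), block Y: the products of the indicators of the good blocks
-/

set_option autoImplicit false
set_option linter.unusedSectionVars false

namespace Pool.Agent.Lib.MP_1a91b9_ntMN

open Finset Pool.Agent.Lib.MP_1a91b9_ntH
open Pool.Agent.Lib.MP_1a91b9_ntQ
open Pool.Agent.Lib.MP_1a91b9_ntQ.Da Pool.Agent.Lib.MP_1a91b9_ntV Pool.Agent.Lib.MP_1a91b9_ntM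
open Pool.Agent.Lib.MP_1a91b9_ntDV Pool.Agent.Lib.MP_1a91b9_ntMQ
open Pool.Agent.Lib.MP_1a91b9_ntW

noncomputable section

variable {I A : Type} [Fintype I] [DecidableEq I] [Fintype A] [DecidableEq A] [Nonempty I]
  {phi : A → I → ZMod 2}

open Classical in
/-- The mean values of the products of the indicators of the good blocks. -/
theorem PclC_GWJ (hs : Sp phi) {M : (A → ℕ) → ℕ}
    (hw : ∀ k : A → ℕ, WSh colc (PLc phi k) nLc (hI I) (M k) (UsLc phi k)) {κ : Type} [Fintype κ] [DecidableEq κ] {D : Dat2 Pg κ}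
    {w l : κ → ZMod 2} (h : Id8 D w l) (hD : OKw D w) {B : Finset Pg}
    (hB : ∀ (T : Finset Pg) (c : κ → ZMod 2), T ⊆ B → (T ≠ ∅ ∨ c ≠ 0) →
      Mz B (fun q => e2 (D.ex1 T c q))) [TwS (Off B)]
    (hT' : OKT (D.off B) (wO B w)) {n N : ℕ} (k j : Fin n → A → Fin N → ZMod 2)
    (T : Fin n → A → Fin N → Finset Pg) (hT : ∀ b a i, T b a i ⊆ B)
    (hinj : ∀ b a, Function.Injective fun i => (k b a i, j b a i, T b a i))
    (hdis : ∀ b b', b ≠ b' → ∀ a i i', (j b a i, T b a i) ≠ (j b' a i', T b' a i'))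
    (γ : I → κ ⊕ B → ZMod 2) :
    ∃ v : Fin n → A → ℝ, (∀ b a, cinf2 ^ N ≤ v b a ∧ v b a ≤ 1) ∧ ∀ J : Finset (Fin n),
      PclC (D.off B) γ (fun cf => ∏ b ∈ J, ∏ a,
        if ∀ i, GW (k b a i) (j b a i) (up (TT phi cf a) ∪ T b a i) ≠ 0 then (1 : ℝ) else 0)
        (∏ b ∈ J, ∏ a, v b a) := by
  choose v hv hJ using fun a => GW_comb h (fun b i => k b a i) (fun b i => j b a i) (fun b i => T b a i)
    (fun b i => hT b a i) (fun b => hinj b a) (fun b b' hbb i i' => hdis b b' hbb a i i') (ga phi γ a)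
  refine ⟨fun b a => v a b, fun b a => hv a b, fun J => ?_⟩
  choose X u z hXB hval hid using fun a => hJ a J
  have h1 := PclC_jd hs hw hD h.l0 h.lw hB hT' (fun q => rr q.1) (X := fun a => {x // x ∈ X a})
    (fun a x => x.1.1) (T := fun a x => x.1.2) (fun a x => hXB a x.1 x.2)
    (fun a x y e1 e2 => Subtype.ext (Prod.ext e1 e2)) (fun a x => z a x.1) γ (fun a x => u a x.1)
  unfold PclC at h1 ⊢
  refine MVrc.congr h1 (fun cf => ?_) ?_
  · by_cases hc : ∀ i, clN (D.off B) (cf i) = γ i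
    · rw [if_pos hc, if_pos hc]
      refine prod_comm.trans (prod_congr rfl fun a _ => ?_)
      refine (hid a (TT phi cf a) (clN_TT (D.off B) phi γ cf hc a)).trans ?_
      exact (prod_coe_sort (X a) (fun x => ∑ i, u a x i *
        if dt D w l (fun q => rr q.1) x.1 (z a x) (up (TT phi cf a) ∪ x.2) i ≠ 0
          then (1 : ℝ) else 0)).symm
    · rw [if_neg hc, if_neg hc]
  · have h2 : ∏ b ∈ J, ∏ a, v a b =
        ∏ a, (cinf2 ^ Fintype.card {x // x ∈ X a} * ∏ x : {x // x ∈ X a}, ∑ i, u a x.1 i) := by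
      rw [prod_comm]
      refine prod_congr rfl fun a _ => ?_
      rw [← hval a, Fintype.card_coe]
      exact congrArg (cinf2 ^ (X a).card * ·) (prod_coe_sort (X a) (fun x => ∑ i, u a x i)).symm
    rw [h2]

end

end Pool.Agent.Lib.MP_1a91b9_ntMN
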